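import Mathlib
import Pool.Agent.H.MP_711652_nt.Moments
import Pool.Agent.H.MP_42e49e_nt.Mer

/-!
# Theorem M (exactly `m` primes), part A: the pair sieve on average over shifts in an interval
-/

set_option autoImplicit false

namespace Pool.Agent.H.MP_711652_nt.G2

open Finset Filter Pool.Agent.H.MP_711652_nt

lemma card_dvd_Ioc {a b d : ℕ} (hab : a ≤ b) (hd : 0 < d) :
    (((Ioc a b).filter (fun h => d ∣ h)).card : ℝ) ≤ ((b : ℝ) - a) / d + 1 := by
  have h1 : ((Ioc 0 b).filter (fun h => d ∣ h)).card = b / d := Nat.Ioc_filter_dvd_card_eq_div b d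
  have h2 : ((Ioc 0 a).filter (fun h => d ∣ h)).card = a / d := Nat.Ioc_filter_dvd_card_eq_div a d
  have h3 : ((Ioc 0 a).filter (fun h => d ∣ h)).card + ((Ioc a b).filter (fun h => d ∣ h)).card =
      ((Ioc 0 b).filter (fun h => d ∣ h)).card := by
    rw [← card_union_of_disjoint]
    · congr 1
      rw [← filter_union, Ioc_union_Ioc_eq_Ioc (Nat.zero_le a) hab]
    · apply disjoint_filter_filter
      rw [disjoint_left]
      intro x hx hx'
      rw [mem_Ioc] at hx hx'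
      omega
  rw [h1, h2] at h3
  have hd0 : (0 : ℝ) < d := by exact_mod_cast hd
  have h4 : (((Ioc a b).filter (fun h => d ∣ h)).card : ℝ) = ((b / d : ℕ) : ℝ) - ((a / d : ℕ) : ℝ) := by
    rw [eq_sub_iff_add_eq, add_comm]
    exact_mod_cast h3
  have h5 : ((b / d : ℕ) : ℝ) ≤ (b : ℝ) / d := Nat.cast_div_le
  have h6 : (a : ℝ) / d < ((a / d : ℕ) : ℝ) + 1 := by
    rw [div_lt_iff₀ hd0]
    have := Nat.lt_div_mul_add (a := a) hd
    have h7 : a < (a / d + 1) * d := by
      rw [add_mul, one_mul]; exact this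
    exact_mod_cast h7
  rw [h4, sub_div]
  linarith

lemma sum_prod_Ioc {a b : ℕ} (hab : a ≤ b) (hb : 2 ≤ b) :
    ∑ h ∈ Ioc a b, ∏ p ∈ h.primeFactors, (1 + 6 / (p : ℝ)) ≤
      ((b : ℝ) - a) * Real.exp 6 + Real.exp 120 * Real.log b ^ 6 := by
  set Pr := (Icc 1 b).filter Nat.Prime with hPr
  have h1 : ∀ h ∈ Ioc a b, ∏ p ∈ h.primeFactors, (1 + 6 / (p : ℝ)) =
      ∑ T ∈ Pr.powerset, if T ⊆ h.primeFactors then ∏ p ∈ T, (6 / (p : ℝ)) else 0 := by
    intro h hh
    rw [mem_Ioc] at hh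
    rw [prod_one_add, ← sum_filter]
    apply sum_congr _ (fun _ _ => rfl)
    ext T
    rw [mem_powerset, mem_filter, mem_powerset]
    constructor
    · intro hT
      refine ⟨fun p hp => ?_, hT⟩
      have hp' := hT hp
      rw [hPr, mem_filter, mem_Icc]
      have h2 := Nat.prime_of_mem_primeFactors hp'
      have h3 := Nat.le_of_dvd (by omega) (Nat.dvd_of_mem_primeFactors hp')
      exact ⟨⟨h2.pos, by omega⟩, h2⟩
    · exact fun hT => hT.2
  rw [sum_congr rfl h1, sum_comm]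
  have hab' : (0 : ℝ) ≤ (b : ℝ) - a := by
    have : (a : ℝ) ≤ b := by exact_mod_cast hab
    linarith
  have h2 : ∀ T ∈ Pr.powerset, (∑ h ∈ Ioc a b,
      if T ⊆ h.primeFactors then ∏ p ∈ T, (6 / (p : ℝ)) else 0) ≤
        ((b : ℝ) - a) * ∏ p ∈ T, (6 / (p : ℝ) ^ 2) + ∏ p ∈ T, (6 / (p : ℝ)) := by
    intro T hT
    rw [mem_powerset] at hT
    have hTp : ∀ p ∈ T, p.Prime := fun p hp => (mem_filter.1 (hT hp)).2
    rw [← sum_filter, sum_const, nsmul_eq_mul]
    have hpos : 0 < ∏ p ∈ T, p := prod_pos (fun p hp => (hTp p hp).pos)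
    have hcard : (((Ioc a b).filter (fun h => T ⊆ h.primeFactors)).card : ℝ) ≤
        ((b : ℝ) - a) / ((∏ p ∈ T, p : ℕ) : ℝ) + 1 := by
      have hsub : (Ioc a b).filter (fun h => T ⊆ h.primeFactors) ⊆
          (Ioc a b).filter (fun h => (∏ p ∈ T, p) ∣ h) := by
        intro h hh
        rw [mem_filter] at hh ⊢
        refine ⟨hh.1, ?_⟩
        exact (prod_dvd_prod_of_subset _ _ _ hh.2).trans (Nat.prod_primeFactors_dvd h)
      have h3 := card_le_card hsub
      calc (((Ioc a b).filter (fun h => T ⊆ h.primeFactors)).card : ℝ) ≤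
          (((Ioc a b).filter (fun h => (∏ p ∈ T, p) ∣ h)).card : ℝ) := by exact_mod_cast h3
        _ ≤ _ := card_dvd_Ioc hab hpos
    have hprod0 : 0 ≤ ∏ p ∈ T, (6 / (p : ℝ)) := prod_nonneg (fun p _ => by positivity)
    calc _ ≤ (((b : ℝ) - a) / ((∏ p ∈ T, p : ℕ) : ℝ) + 1) * ∏ p ∈ T, (6 / (p : ℝ)) :=
          mul_le_mul_of_nonneg_right hcard hprod0
      _ = ((b : ℝ) - a) * ∏ p ∈ T, (6 / (p : ℝ) ^ 2) + ∏ p ∈ T, (6 / (p : ℝ)) := by
        rw [add_mul, one_mul]
        congr 1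
        rw [Nat.cast_prod, div_mul_eq_mul_div, mul_div_assoc, ← prod_div_distrib]
        congr 1
        apply prod_congr rfl
        intro p _
        rw [div_div, sq]
  refine (sum_le_sum h2).trans ?_
  rw [sum_add_distrib, ← mul_sum, ← prod_one_add, ← prod_one_add]
  apply add_le_add
  · apply mul_le_mul_of_nonneg_left _ hab'
    have h3 : ∏ p ∈ Pr, (1 + 6 / (p : ℝ) ^ 2) ≤ Real.exp (∑ p ∈ Pr, 6 / (p : ℝ) ^ 2) := by
      rw [Real.exp_sum]
      apply Finset.prod_le_prod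
      · intro p _; positivity
      · intro p _
        rw [add_comm]
        exact Real.add_one_le_exp _
    refine h3.trans ?_
    rw [Real.exp_le_exp]
    have h4 : ∑ p ∈ Pr, 6 / (p : ℝ) ^ 2 = 6 * ∑ p ∈ Pr, ((p : ℝ) ^ 2)⁻¹ := by
      rw [mul_sum]
      apply sum_congr rfl
      intro p _
      rw [div_eq_mul_inv]
    rw [h4]
    have h5 : ∑ p ∈ Pr, ((p : ℝ) ^ 2)⁻¹ ≤ ∑ p ∈ Ioo 1 (b + 1), ((p : ℝ) ^ 2)⁻¹ := by
      apply sum_le_sum_of_subset_of_nonneg
      · intro p hp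
        rw [hPr, mem_filter, mem_Icc] at hp
        rw [mem_Ioo]
        have := hp.2.one_lt
        omega
      · intro p _ _; positivity
    have h6 := sum_Ioo_inv_sq_le (α := ℝ) 1 (b + 1)
    have h7 : (2 : ℝ) / (((1 : ℕ) : ℝ) + 1) = 1 := by norm_num
    linarith
  · have h3 : ∏ p ∈ Pr, (1 + 6 / (p : ℝ)) ≤ Real.exp (∑ p ∈ Pr, 6 / (p : ℝ)) := by
      rw [Real.exp_sum]
      apply Finset.prod_le_prod
      · intro p _; positivity
      · intro p _
        rw [add_comm]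
        exact Real.add_one_le_exp _
    refine h3.trans ?_
    have h4 : ∑ p ∈ Pr, 6 / (p : ℝ) = 6 * Pool.MP42e49e.FF b := by
      unfold Pool.MP42e49e.FF
      rw [mul_sum]
      apply sum_congr rfl
      intro p _
      ring
    rw [h4]
    have h5 := Pool.MP42e49e.FF_le hb
    have hb1 : (1 : ℝ) < b := by exact_mod_cast (by omega : 1 < b)
    have hlog : 0 < Real.log b := Real.log_pos hb1
    calc Real.exp (6 * Pool.MP42e49e.FF b)
        ≤ Real.exp (120 + 6 * Real.log (Real.log b)) := by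
          rw [Real.exp_le_exp]; linarith
      _ = Real.exp 120 * Real.log b ^ 6 := by
        rw [Real.exp_add]
        congr 1
        rw [show (6 : ℝ) * Real.log (Real.log b) = ((6 : ℕ) : ℝ) * Real.log (Real.log b) by norm_num,
          Real.exp_nat_mul, Real.exp_log hlog]

theorem sum_pairs_Ioc (N : ℕ) {a b y : ℕ} (hab : a ≤ b) (hb : 2 ≤ b) (hy : 2 ≤ y) :
    ∑ h ∈ Ioc a b, (pairs N h : ℝ) ≤
      N * (((b : ℝ) - a) * Real.exp 6 + Real.exp 120 * Real.log b ^ 6) / (Real.log y) ^ 2 +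
        3 * ((b : ℝ) - a) * (y : ℝ) ^ 12 := by
  have hlog : 0 < Real.log y := Real.log_pos (by exact_mod_cast hy)
  have hy1 : (1 : ℝ) ≤ y := by exact_mod_cast (by omega : 1 ≤ y)
  have h7 : (1 : ℝ) ≤ (y : ℝ) ^ 12 := one_le_pow₀ hy1
  have h1 : ∀ h ∈ Ioc a b, (pairs N h : ℝ) ≤
      N * (∏ p ∈ h.primeFactors, (1 + 6 / (p : ℝ))) / (Real.log y) ^ 2 + 3 * (y : ℝ) ^ 12 := by
    intro h hh
    rw [mem_Ioc] at hh
    have hprod : 0 ≤ ∏ p ∈ h.primeFactors, (1 + 6 / (p : ℝ)) := prod_nonneg (fun p _ => by positivity)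
    by_cases h2 : 2 ∣ h
    · refine (pairs_even N h y h2 (by omega) hy).trans ?_
      have := Dh_inv_sq_le h
      gcongr
    · have h3 : (pairs N h : ℝ) ≤ 1 := by exact_mod_cast pairs_odd N h h2
      have h4 : 0 ≤ N * (∏ p ∈ h.primeFactors, (1 + 6 / (p : ℝ))) / (Real.log y) ^ 2 := by positivity
      linarith
  refine (sum_le_sum h1).trans ?_
  rw [sum_add_distrib, sum_const, nsmul_eq_mul, Nat.card_Ioc, ← sum_div, ← mul_sum]
  have h8 := sum_prod_Ioc hab hb
  have h9 : (N : ℝ) * (∑ h ∈ Ioc a b, ∏ p ∈ h.primeFactors, (1 + 6 / (p : ℝ))) / (Real.log y) ^ 2 ≤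
      N * (((b : ℝ) - a) * Real.exp 6 + Real.exp 120 * Real.log b ^ 6) / (Real.log y) ^ 2 := by
    gcongr
  have h10 : ((b - a : ℕ) : ℝ) = (b : ℝ) - a := by
    rw [Nat.cast_sub hab]
  rw [h10]
  linarith

/-- The pair sieve over the shifts in an interval `(a, b]`, `b ≤ K log X`. -/
theorem pairs_interval : ∃ C : ℝ, 0 < C ∧ ∀ K η : ℝ, 0 < η → ∀ᶠ X : ℕ in atTop,
    ∀ a b : ℕ, a ≤ b → (b : ℝ) ≤ K * Real.log X →
      ∑ h ∈ Ioc a b, (pairs (2 * X) h : ℝ) ≤
        C * ((b : ℝ) - a) * X / Real.log X ^ 2 + η * X / Real.log X := by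
  refine ⟨5408 * Real.exp 6 + 1, by positivity, fun K η hη => ?_⟩
  set K' := max K 2 with hK'
  have hK2 : 2 ≤ K' := le_max_right _ _
  have hlogN : Tendsto (fun X : ℕ => Real.log X) atTop atTop :=
    Real.tendsto_log_atTop.comp tendsto_natCast_atTop_atTop
  have hKL : Tendsto (fun X : ℕ => K' * Real.log X) atTop atTop :=
    hlogN.const_mul_atTop (by linarith)
  set ε₁ : ℝ := η / (2 * (5408 * Real.exp 120) * K') with hε₁
  have hε₁pos : 0 < ε₁ := by positivity
  have e1 : ∀ᶠ X : ℕ in atTop, Real.log (K' * Real.log X) ^ 6 ≤ ε₁ * (K' * Real.log X) := by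
    have h1 := (Real.isLittleO_pow_log_id_atTop (n := 6)).bound hε₁pos
    have h2 := hKL.eventually (h1.and (eventually_ge_atTop 1))
    filter_upwards [h2] with X hX
    obtain ⟨h3, h4⟩ := hX
    have h5 : 0 ≤ Real.log (K' * Real.log X) := Real.log_nonneg h4
    rw [Real.norm_of_nonneg (by positivity), id, Real.norm_of_nonneg (by linarith)] at h3
    exact h3
  have e2 := hlogN.eventually_ge_atTop 208
  have e3 : ∀ᶠ X : ℕ in atTop, (6 * K' / η) ^ 2 * Real.log X ^ 4 ≤ X :=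
    eventually_log_pow 4 _ (by positivity)
  have e4 : ∀ᶠ X : ℕ in atTop, (1 / η) ^ 1 * Real.log X ^ 1 ≤ X := by
    have := eventually_log_pow 1 (1 / η) (by positivity)
    simpa using this
  filter_upwards [e1, e2, e3, e4, eventually_ge_atTop 10] with X h1 h2 h3 h4 h5 a b hab hbK
  set L := Real.log X with hL
  have hL0 : 0 < L := by linarith
  have hX0 : (0 : ℝ) < X := by exact_mod_cast (by omega : 0 < X)
  have hab' : (0 : ℝ) ≤ (b : ℝ) - a := by
    have : (a : ℝ) ≤ b := by exact_mod_cast hab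
    linarith
  by_cases hb : b < 2
  · -- at most the shift `1`
    have h6 : ∀ h ∈ Ioc a b, (pairs (2 * X) h : ℝ) ≤ 1 := by
      intro h hh
      rw [mem_Ioc] at hh
      have : ¬ 2 ∣ h := by omega
      exact_mod_cast pairs_odd (2 * X) h this
    have h7 : ∑ h ∈ Ioc a b, (pairs (2 * X) h : ℝ) ≤ 1 := by
      refine (sum_le_sum h6).trans ?_
      rw [sum_const, Nat.card_Ioc, nsmul_eq_mul, mul_one]
      exact_mod_cast (by omega : b - a ≤ 1)
    have h8 : 1 ≤ η * X / L := by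
      rw [le_div_iff₀ hL0, one_mul]
      rw [pow_one, pow_one, div_mul_eq_mul_div, one_mul, div_le_iff₀ hη] at h4
      linarith
    have h9 : 0 ≤ (5408 * Real.exp 6 + 1) * ((b : ℝ) - a) * X / L ^ 2 := by positivity
    linarith
  push Not at hb
  set t : ℝ := (X : ℝ) ^ ((1 : ℝ) / 26) with ht
  set y := ⌊t⌋₊ with hy
  have ht0 : 0 < t := Real.rpow_pos_of_pos hX0 _
  have hlogt : Real.log t = L / 26 := by
    rw [ht, Real.log_rpow hX0]; ring
  have ht4 : 4 ≤ t := by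
    have h6 := Real.log_le_sub_one_of_pos ht0
    linarith only [h2, hlogt, h6]
  have hyt : (y : ℝ) ≤ t := Nat.floor_le ht0.le
  have hty : t / 2 ≤ y := by
    have := Nat.lt_floor_add_one t
    have h7 : t < (y : ℝ) + 1 := this
    linarith only [ht4, this]
  have hy2 : 2 ≤ y := by
    have : (2 : ℝ) ≤ y := by linarith only [ht4, hty]
    exact_mod_cast this
  have hlogy : L / 52 ≤ Real.log y := by
    have h5 : Real.sqrt t ≤ y := by
      refine le_trans ?_ hty
      rw [Real.sqrt_le_left (by linarith only [ht4])]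
      nlinarith only [ht0, ht4]
    have h6 : Real.log (Real.sqrt t) ≤ Real.log y := Real.log_le_log (Real.sqrt_pos.2 ht0) h5
    rw [Real.log_sqrt ht0.le, hlogt] at h6
    linarith only [h6]
  have hy12 : (y : ℝ) ^ 12 ≤ Real.sqrt X := by
    have h6 : (y : ℝ) ^ 12 ≤ t ^ 13 := by
      calc (y : ℝ) ^ 12 ≤ t ^ 12 := by gcongr
        _ ≤ t ^ 13 := pow_le_pow_right₀ (by linarith only [ht4]) (by norm_num)
    have h7 : t ^ 13 = Real.sqrt X := by
      rw [ht, ← Real.rpow_natCast, ← Real.rpow_mul hX0.le, Real.sqrt_eq_rpow]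
      norm_num
    linarith only [h6, h7]
  have hmain := sum_pairs_Ioc (2 * X) hab hb hy2
  refine hmain.trans ?_
  have hb0 : (2 : ℝ) ≤ b := by exact_mod_cast hb
  have hbK' : (b : ℝ) ≤ K' * L := hbK.trans (by
    have : K ≤ K' := le_max_left _ _
    gcongr)
  have hlogb : Real.log b ^ 6 ≤ ε₁ * (K' * L) := by
    refine le_trans ?_ h1
    have h6 : 0 ≤ Real.log b := Real.log_nonneg (by linarith)
    have h7 : Real.log b ≤ Real.log (K' * L) := Real.log_le_log (by linarith) hbK'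
    gcongr
  have hlogy0 : 0 < L / 52 := by positivity
  have hnum : 0 ≤ ((2 * X : ℕ) : ℝ) * (((b : ℝ) - a) * Real.exp 6 + Real.exp 120 * Real.log b ^ 6) := by
    have : 0 ≤ Real.log b := Real.log_nonneg (by linarith)
    positivity
  have hA : ((2 * X : ℕ) : ℝ) * (((b : ℝ) - a) * Real.exp 6 + Real.exp 120 * Real.log b ^ 6) /
      Real.log y ^ 2 ≤
      ((2 * X : ℕ) : ℝ) * (((b : ℝ) - a) * Real.exp 6 + Real.exp 120 * Real.log b ^ 6) /
      (L / 52) ^ 2 := by
    apply div_le_div_of_nonneg_left hnum (by positivity)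
    gcongr
  have hB : ((2 * X : ℕ) : ℝ) * (((b : ℝ) - a) * Real.exp 6 + Real.exp 120 * Real.log b ^ 6) /
      (L / 52) ^ 2 = 5408 * Real.exp 6 * ((b : ℝ) - a) * X / L ^ 2 +
        5408 * Real.exp 120 * Real.log b ^ 6 * X / L ^ 2 := by
    push_cast
    field_simp
    ring
  have hC : 5408 * Real.exp 120 * Real.log b ^ 6 * X / L ^ 2 ≤ η / 2 * X / L := by
    rw [div_le_div_iff₀ (by positivity) hL0]
    have h6 : 5408 * Real.exp 120 * Real.log b ^ 6 ≤ η / 2 * L := by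
      calc 5408 * Real.exp 120 * Real.log b ^ 6 ≤ 5408 * Real.exp 120 * (ε₁ * (K' * L)) := by gcongr
        _ = η / 2 * L := by rw [hε₁]; field_simp
    calc 5408 * Real.exp 120 * Real.log b ^ 6 * X * L ≤ η / 2 * L * X * L := by gcongr
      _ = η / 2 * X * L ^ 2 := by ring
  have hD : 3 * ((b : ℝ) - a) * (y : ℝ) ^ 12 ≤ η / 2 * X / L := by
    have h6 : (b : ℝ) - a ≤ K' * L := by
      have : (0 : ℝ) ≤ a := Nat.cast_nonneg a
      linarith
    have h7 : 3 * ((b : ℝ) - a) * (y : ℝ) ^ 12 ≤ 3 * (K' * L) * Real.sqrt X := by gcongr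
    refine h7.trans ?_
    rw [le_div_iff₀ hL0]
    have h8 : 6 * K' / η * L ^ 2 ≤ Real.sqrt X := by
      apply Real.le_sqrt_of_sq_le
      have h8' : (6 * K' / η * L ^ 2) ^ (2 : ℕ) = (6 * K' / η) ^ (2 : ℕ) * L ^ (4 : ℕ) := by ring
      rw [h8']
      exact h3
    have h9 : Real.sqrt X ^ 2 = X := Real.sq_sqrt hX0.le
    have h10 : 6 * K' * L ^ 2 ≤ η * Real.sqrt X := by
      have := mul_le_mul_of_nonneg_left h8 hη.le
      calc 6 * K' * L ^ 2 = η * (6 * K' / η * L ^ 2) := by field_simp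
        _ ≤ _ := this
    calc 3 * (K' * L) * Real.sqrt X * L = (6 * K' * L ^ 2) * Real.sqrt X / 2 := by ring
      _ ≤ (η * Real.sqrt X) * Real.sqrt X / 2 := by gcongr
      _ = η / 2 * X := by rw [mul_assoc, ← sq, h9]; ring
  have hE : η / 2 * X / L + η / 2 * X / L = η * X / L := by ring
  have hF : 5408 * Real.exp 6 * ((b : ℝ) - a) * X / L ^ 2 ≤
      (5408 * Real.exp 6 + 1) * ((b : ℝ) - a) * X / L ^ 2 := by
    gcongr
    linarith
  linarith

end Pool.Agent.H.MP_711652_nt.G2
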