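import Mathlib
import Pool.Agent.H.MP_711652_nt.G2.ExactA
import Pool.Agent.H.MP_b3c6db_nt.WI6

/-!
# Theorem M (exactly `m` primes), part B: finite lemmas and the prime number theorem
-/

set_option autoImplicit false

namespace Pool.Agent.H.MP_711652_nt.G2

open Finset Filter Pool.Agent.H.MP_711652_nt

/-- indicator of the primes -/
def gp (k : ℕ) : ℕ := if k.Prime then 1 else 0

lemma gp_le (k : ℕ) : gp k ≤ 1 := by unfold gp; split_ifs <;> simp

lemma gp_sq (k : ℕ) : gp k ^ 2 = gp k := by unfold gp; split_ifs <;> simp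

/-- number of primes in `(n, n + H]` -/
def ff (H n : ℕ) : ℕ := ∑ j ∈ range H, gp (n + 1 + j)

lemma ff_step (H n : ℕ) : ff H (n + 1) + gp (n + 1) = ff H n + gp (n + 1 + H) := by
  have h1 : ∑ j ∈ range (H + 1), gp (n + 1 + j) = ff H n + gp (n + 1 + H) := by
    rw [sum_range_succ]; rfl
  have h2 : ∑ j ∈ range (H + 1), gp (n + 1 + j) = ff H (n + 1) + gp (n + 1) := by
    rw [sum_range_succ']
    unfold ff
    congr 1
    apply sum_congr rfl
    intro j _
    congr 1
    omega
  omega

lemma ff_sq (H n : ℕ) : (ff H n) ^ 2 =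
    ff H n + 2 * ∑ i ∈ range H, ∑ j ∈ range i, gp (n + 1 + i) * gp (n + 1 + j) := by
  induction H with
  | zero => simp [ff]
  | succ H ih =>
    have h1 : ff (H + 1) n = ff H n + gp (n + 1 + H) := by
      unfold ff; rw [sum_range_succ]
    have h2 : ∑ j ∈ range H, gp (n + 1 + H) * gp (n + 1 + j) = gp (n + 1 + H) * ff H n := by
      unfold ff; rw [mul_sum]
    rw [sum_range_succ, h2, h1]
    have h3 := gp_sq (n + 1 + H)
    calc (ff H n + gp (n + 1 + H)) ^ 2 =
        (ff H n) ^ 2 + 2 * (gp (n + 1 + H) * ff H n) + gp (n + 1 + H) ^ 2 := by ring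
      _ = _ := by rw [ih, h3]; ring

/-- `∑_{n < X} gp (n + a) gp (n + a + h) ≤ pairs (2 X) h`. -/
lemma sum_gp_pair (X a h : ℕ) (ha : a ≤ X) :
    ∑ n ∈ range X, gp (n + a) * gp (n + a + h) ≤ pairs (2 * X) h := by
  have h1 : ∑ n ∈ range X, gp (n + a) * gp (n + a + h) =
      ((range X).filter (fun n => (n + a).Prime ∧ (n + a + h).Prime)).card := by
    rw [card_filter]
    apply sum_congr rfl
    intro n _
    unfold gp
    by_cases h2 : (n + a).Prime <;> by_cases h3 : (n + a + h).Prime <;> simp [h2, h3]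
  rw [h1]
  unfold pairs
  apply card_le_card_of_injOn (fun n => n + a)
  · intro n hn
    rw [Finset.mem_coe, mem_filter, mem_range] at hn
    rw [Finset.mem_coe, mem_filter, mem_range]
    have hlt : n + a < 2 * X := by omega
    exact ⟨hlt, hn.2⟩
  · intro x _ y _ hxy
    simpa using hxy

/-- second moment -/
lemma sum_ff_sq_le (X H : ℕ) (hH : H ≤ X) :
    ∑ n ∈ range X, (ff H n) ^ 2 ≤
      ∑ n ∈ range X, ff H n + 2 * (H * ∑ h ∈ Ioc 0 H, pairs (2 * X) h) := by
  simp_rw [ff_sq]
  rw [sum_add_distrib, ← mul_sum]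
  apply Nat.add_le_add_left
  apply Nat.mul_le_mul_left
  rw [sum_comm]
  have h1 : ∀ i ∈ range H, ∑ n ∈ range X, ∑ j ∈ range i, gp (n + 1 + i) * gp (n + 1 + j) ≤
      ∑ h ∈ Ioc 0 H, pairs (2 * X) h := by
    intro i hi
    rw [mem_range] at hi
    rw [sum_comm]
    have h2 : ∀ j ∈ range i, ∑ n ∈ range X, gp (n + 1 + i) * gp (n + 1 + j) ≤
        pairs (2 * X) (i - j) := by
      intro j hj
      rw [mem_range] at hj
      have h3 := sum_gp_pair X (1 + j) (i - j) (by omega)
      refine le_trans (le_of_eq ?_) h3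
      apply sum_congr rfl
      intro n _
      rw [mul_comm]
      congr 2 <;> omega
    calc _ ≤ ∑ j ∈ range i, pairs (2 * X) (i - j) := sum_le_sum h2
      _ = ∑ h ∈ Ioc 0 i, pairs (2 * X) h := by
        apply sum_nbij' (fun j => i - j) (fun h => i - h)
        · intro j hj; rw [mem_range] at hj; rw [mem_Ioc]; omega
        · intro h hh; rw [mem_Ioc] at hh; rw [mem_range]; omega
        · intro j hj; rw [mem_range] at hj; omega
        · intro h hh; rw [mem_Ioc] at hh; omega
        · intro j _; rfl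
      _ ≤ _ := sum_le_sum_of_subset (Ioc_subset_Ioc_right hi.le)
  calc _ ≤ ∑ i ∈ range H, ∑ h ∈ Ioc 0 H, pairs (2 * X) h := sum_le_sum h1
    _ = _ := by rw [sum_const, card_range, smul_eq_mul]

lemma sum_gp_shift_le (X a : ℕ) (ha : a ≤ X) :
    ∑ n ∈ range X, gp (n + a) ≤ Nat.primeCounting (2 * X) := by
  have h1 : ∑ n ∈ range X, gp (n + a) = ((range X).filter (fun n => (n + a).Prime)).card := by
    rw [card_filter]; rfl
  rw [h1, ← primes_range_card]
  apply card_le_card_of_injOn (fun n => n + a)
  · intro n hn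
    rw [Finset.mem_coe, mem_filter, mem_range] at hn
    rw [Finset.mem_coe, mem_filter, mem_range]
    have hlt : n + a < 2 * X + 1 := by omega
    exact ⟨hlt, hn.2⟩
  · intro x _ y _ hxy
    simpa using hxy

lemma sum_gp_shift_ge (X a : ℕ) (ha : 1 ≤ a) :
    Nat.primeCounting X ≤ ∑ n ∈ range X, gp (n + a) + a := by
  have h1 : ∑ n ∈ range X, gp (n + a) = ((range X).filter (fun n => (n + a).Prime)).card := by
    rw [card_filter]; rfl
  rw [h1, ← primes_range_card]
  have h2 : (range (X + 1)).filter Nat.Prime ⊆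
      ((range X).filter (fun n => (n + a).Prime)).image (fun n => n + a) ∪ range a := by
    intro p hp
    rw [mem_filter, mem_range] at hp
    rw [mem_union, mem_image, mem_range]
    by_cases h3 : p < a
    · exact Or.inr h3
    · left
      refine ⟨p - a, ?_, by omega⟩
      rw [mem_filter, mem_range]
      refine ⟨by omega, ?_⟩
      rw [Nat.sub_add_cancel (by omega)]
      exact hp.2
  refine (card_le_card h2).trans ((card_union_le _ _).trans ?_)
  rw [card_range]
  exact Nat.add_le_add_right card_image_le _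

lemma sum_ff_le (X H : ℕ) (hH : H ≤ X) :
    ∑ n ∈ range X, ff H n ≤ H * Nat.primeCounting (2 * X) := by
  unfold ff
  rw [sum_comm]
  calc ∑ j ∈ range H, ∑ n ∈ range X, gp (n + 1 + j)
      ≤ ∑ j ∈ range H, Nat.primeCounting (2 * X) := by
        apply sum_le_sum
        intro j hj
        rw [mem_range] at hj
        have := sum_gp_shift_le X (1 + j) (by omega)
        simpa only [add_assoc] using this
    _ = _ := by rw [sum_const, card_range, smul_eq_mul]

lemma sum_ff_ge (X H : ℕ) :
    H * Nat.primeCounting X ≤ ∑ n ∈ range X, ff H n + H * H := by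
  unfold ff
  rw [sum_comm]
  calc H * Nat.primeCounting X = ∑ j ∈ range H, Nat.primeCounting X := by
        rw [sum_const, card_range, smul_eq_mul]
    _ ≤ ∑ j ∈ range H, (∑ n ∈ range X, gp (n + 1 + j) + H) := by
        apply sum_le_sum
        intro j hj
        rw [mem_range] at hj
        have := sum_gp_shift_ge X (1 + j) (by omega)
        simp only [← add_assoc] at this
        omega
    _ = _ := by rw [sum_add_distrib, sum_const, card_range, smul_eq_mul]

/-- a jump point of `ff H` -/
def Jp (H s : ℕ) : Prop := s.Prime ∨ (s + H).Prime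

/-- two close jump points in `(n, n + R + D]` -/
def Crowd (H D R n : ℕ) : Prop :=
  ∃ s h : ℕ, n < s ∧ s ≤ n + R ∧ 0 < h ∧ h ≤ D ∧ Jp H s ∧ Jp H (s + h)

lemma seg (H D R n m : ℕ) (h1 : m ≤ ff H (n + D)) (h0 : 1 ≤ m)
    (h2 : ∃ t, n + D ≤ t ∧ t ≤ n + R ∧ ff H t = 0) (hc : ¬ Crowd H D R n) :
    D ≤ ((Ioc n (n + R)).filter (fun u => ff H u = m)).card := by
  classical
  obtain ⟨t, ht1, ht2, ht3⟩ := h2
  have hex : ∃ s, n + D < s ∧ ff H s < m := by
    refine ⟨t, ?_, by omega⟩
    rcases ht1.eq_or_lt with h | h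
    · rw [h] at h1; omega
    · exact h
  set s := Nat.find hex with hs
  obtain ⟨hs1, hs2⟩ := Nat.find_spec hex
  rw [← hs] at hs1 hs2
  have hst : s ≤ t := by
    apply Nat.find_min' hex
    refine ⟨?_, by omega⟩
    rcases ht1.eq_or_lt with h | h
    · rw [h] at h1; omega
    · exact h
  have hs3 : m ≤ ff H (s - 1) := by
    by_contra hcon
    push Not at hcon
    have h5 : n + D < s - 1 := by
      by_contra h6
      have h7 : s - 1 = n + D := by omega
      rw [h7] at hcon
      omega
    have := Nat.find_min hex (m := s - 1) (by omega)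
    exact this ⟨h5, hcon⟩
  have hstep := ff_step H (s - 1)
  have hs4 : s - 1 + 1 = s := by omega
  rw [hs4] at hstep
  have hg1 := gp_le s
  have hg2 := gp_le (s + H)
  have hfs : ff H (s - 1) = m := by omega
  have hJs : Jp H s := by
    left
    by_contra hns
    have : gp s = 0 := by unfold gp; rw [if_neg hns]
    omega
  have hk : ∀ k : ℕ, k < D → ff H (s - 1 - k) = m := by
    intro k
    induction k with
    | zero => intro _; exact hfs
    | succ k ih =>
      intro hkD
      have h5 := ih (by omega)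
      set v := s - 1 - k with hv
      have h6 : s - 1 - (k + 1) = v - 1 := by omega
      rw [h6]
      have hstep := ff_step H (v - 1)
      have h7 : v - 1 + 1 = v := by omega
      rw [h7] at hstep
      have hnJ : ¬ Jp H v := by
        intro hJ
        apply hc
        refine ⟨v, k + 1, by omega, by omega, by omega, by omega, hJ, ?_⟩
        have : v + (k + 1) = s := by omega
        rw [this]
        exact hJs
      have h8 : gp v = 0 := by
        unfold gp; rw [if_neg (fun h => hnJ (Or.inl h))]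
      have h9 : gp (v + H) = 0 := by
        unfold gp; rw [if_neg (fun h => hnJ (Or.inr h))]
      omega
  calc D = ((range D).image (fun k => s - 1 - k)).card := by
        rw [card_image_of_injOn, card_range]
        intro x hx y hy hxy
        rw [Finset.mem_coe, mem_range] at hx hy
        simp only at hxy
        omega
    _ ≤ _ := by
        apply card_le_card
        intro u hu
        rw [mem_image] at hu
        obtain ⟨k, hk1, rfl⟩ := hu
        rw [mem_range] at hk1
        rw [mem_filter, mem_Ioc]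
        exact ⟨⟨by omega, by omega⟩, hk k hk1⟩

lemma dbl (A : Finset ℕ) (P : ℕ → Prop) [DecidablePred P] (X R k : ℕ) (hAX : A ⊆ range X)
    (hA : ∀ n ∈ A, k ≤ ((Ioc n (n + R)).filter P).card) :
    A.card * k ≤ R * ((range (X + R + 1)).filter P).card := by
  calc A.card * k = ∑ n ∈ A, k := by rw [sum_const, smul_eq_mul]
    _ ≤ ∑ n ∈ A, ((Ioc n (n + R)).filter P).card := sum_le_sum hA
    _ ≤ ∑ n ∈ A, ∑ u ∈ (range (X + R + 1)).filter P, if n < u ∧ u ≤ n + R then 1 else 0 := by
        apply sum_le_sum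
        intro n hn
        have hnX := hAX hn
        rw [mem_range] at hnX
        rw [← card_filter]
        apply card_le_card
        intro u hu
        rw [mem_filter, mem_Ioc] at hu
        rw [mem_filter, mem_filter, mem_range]
        exact ⟨⟨by omega, hu.2⟩, hu.1⟩
    _ = ∑ u ∈ (range (X + R + 1)).filter P, ∑ n ∈ A, if n < u ∧ u ≤ n + R then 1 else 0 := sum_comm
    _ ≤ ∑ u ∈ (range (X + R + 1)).filter P, R := by
        apply sum_le_sum
        intro u _
        rw [← card_filter]
        have : A.filter (fun n => n < u ∧ u ≤ n + R) ⊆ Ico (u - R) u := by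
          intro n hn
          rw [mem_filter] at hn
          rw [mem_Ico]
          omega
        refine (card_le_card this).trans ?_
        rw [Nat.card_Ico]
        omega
    _ = _ := by rw [sum_const, smul_eq_mul, mul_comm]

/-- number of crowded `n` -/
lemma crowd_card [∀ H D R, DecidablePred (Crowd H D R)] (X H D R : ℕ) (hDH : D < H)
    (hX : R + 1 + H + D ≤ X) :
    ((range X).filter (Crowd H D R)).card ≤
      R * (2 * ∑ h ∈ Ioc 0 D, pairs (4 * X) h + ∑ h ∈ Ioc H (H + D), pairs (4 * X) h +
        ∑ h ∈ Ioc (H - D - 1) (H - 1), pairs (4 * X) h) := by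
  classical
  have h1 : ((range X).filter (Crowd H D R)).card ≤
      ∑ n ∈ range X, ∑ s ∈ range (2 * X), ∑ h ∈ Ioc 0 D,
        if (n < s ∧ s ≤ n + R) ∧ Jp H s ∧ Jp H (s + h) then 1 else 0 := by
    rw [card_filter]
    apply sum_le_sum
    intro n hn
    rw [mem_range] at hn
    split_ifs with hc
    · obtain ⟨s, h, hs1, hs2, hh1, hh2, hJ1, hJ2⟩ := hc
      have hs : s ∈ range (2 * X) := by rw [mem_range]; omega
      have hh : h ∈ Ioc 0 D := by rw [mem_Ioc]; omega
      calc 1 = (if (n < s ∧ s ≤ n + R) ∧ Jp H s ∧ Jp H (s + h) then 1 else 0) := by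
            rw [if_pos ⟨⟨hs1, hs2⟩, hJ1, hJ2⟩]
        _ ≤ ∑ h ∈ Ioc 0 D, if (n < s ∧ s ≤ n + R) ∧ Jp H s ∧ Jp H (s + h) then 1 else 0 :=
            single_le_sum (f := fun h => if (n < s ∧ s ≤ n + R) ∧ Jp H s ∧ Jp H (s + h) then 1 else 0)
              (fun _ _ => Nat.zero_le _) hh
        _ ≤ _ := single_le_sum (f := fun s => ∑ h ∈ Ioc 0 D,
              if (n < s ∧ s ≤ n + R) ∧ Jp H s ∧ Jp H (s + h) then 1 else 0)
              (fun _ _ => Nat.zero_le _) hs
    · exact Nat.zero_le _
  refine h1.trans ?_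
  rw [sum_comm]
  have h2 : ∀ s ∈ range (2 * X), ∑ n ∈ range X, ∑ h ∈ Ioc 0 D,
      (if (n < s ∧ s ≤ n + R) ∧ Jp H s ∧ Jp H (s + h) then 1 else 0) ≤
      R * ∑ h ∈ Ioc 0 D, if Jp H s ∧ Jp H (s + h) then 1 else 0 := by
    intro s _
    rw [sum_comm, mul_sum]
    apply sum_le_sum
    intro h _
    by_cases hJ : Jp H s ∧ Jp H (s + h)
    · simp only [hJ, and_self, and_true, if_true, mul_one]
      rw [← card_filter]
      have : (range X).filter (fun n => n < s ∧ s ≤ n + R) ⊆ Ico (s - R) s := by
        intro n hn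
        rw [mem_filter] at hn
        rw [mem_Ico]
        omega
      refine (card_le_card this).trans ?_
      rw [Nat.card_Ico]
      omega
    · have : ∀ n ∈ range X, (if (n < s ∧ s ≤ n + R) ∧ Jp H s ∧ Jp H (s + h) then 1 else 0) = 0 := by
        intro n _
        rw [if_neg (fun h => hJ h.2)]
      rw [sum_eq_zero this]
      exact Nat.zero_le _
  refine (sum_le_sum h2).trans ?_
  rw [← mul_sum]
  apply Nat.mul_le_mul_left
  rw [sum_comm]
  have h3 : ∀ h ∈ Ioc 0 D, ∑ s ∈ range (2 * X), (if Jp H s ∧ Jp H (s + h) then 1 else 0) ≤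
      2 * pairs (4 * X) h + pairs (4 * X) (H + h) + pairs (4 * X) (H - h) := by
    intro h hh
    rw [mem_Ioc] at hh
    have h4 : ∀ s ∈ range (2 * X), (if Jp H s ∧ Jp H (s + h) then 1 else 0) ≤
        gp (s + 0) * gp (s + 0 + h) + gp (s + H) * gp (s + H + h) +
        gp (s + 0) * gp (s + 0 + (H + h)) + gp (s + h) * gp (s + h + (H - h)) := by
      intro s _
      have e1 : s + h + (H - h) = s + H := by omega
      have e2 : s + 0 + (H + h) = s + h + H := by omega
      have e3 : s + H + h = s + h + H := by omega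
      rw [e1, e2, e3, add_zero]
      unfold gp Jp
      by_cases a1 : s.Prime <;> by_cases a2 : (s + H).Prime <;> by_cases a3 : (s + h).Prime <;>
        by_cases a4 : (s + h + H).Prime <;> simp [a1, a2, a3, a4]
    have e4 : 4 * X = 2 * (2 * X) := by ring
    calc _ ≤ _ := sum_le_sum h4
      _ = ∑ s ∈ range (2 * X), gp (s + 0) * gp (s + 0 + h) +
          ∑ s ∈ range (2 * X), gp (s + H) * gp (s + H + h) +
          ∑ s ∈ range (2 * X), gp (s + 0) * gp (s + 0 + (H + h)) +
          ∑ s ∈ range (2 * X), gp (s + h) * gp (s + h + (H - h)) := by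
          rw [sum_add_distrib, sum_add_distrib, sum_add_distrib]
      _ ≤ pairs (4 * X) h + pairs (4 * X) h + pairs (4 * X) (H + h) + pairs (4 * X) (H - h) := by
          rw [e4]
          gcongr
          · exact sum_gp_pair (2 * X) 0 h (by omega)
          · exact sum_gp_pair (2 * X) H h (by omega)
          · exact sum_gp_pair (2 * X) 0 (H + h) (by omega)
          · exact sum_gp_pair (2 * X) h (H - h) (by omega)
      _ = _ := by ring
  refine (sum_le_sum h3).trans ?_
  rw [sum_add_distrib, sum_add_distrib, ← mul_sum]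
  apply le_of_eq
  congr 1
  · congr 1
    apply sum_nbij' (fun h => H + h) (fun h => h - H)
    · intro j hj; rw [mem_Ioc] at hj ⊢; omega
    · intro j hj; rw [mem_Ioc] at hj ⊢; omega
    · intro j hj; omega
    · intro j hj; rw [mem_Ioc] at hj; omega
    · intro j _; rfl
  · apply sum_nbij' (fun h => H - h) (fun h => H - h)
    · intro j hj; rw [mem_Ioc] at hj ⊢; omega
    · intro j hj; rw [mem_Ioc] at hj ⊢; omega
    · intro j hj; rw [mem_Ioc] at hj; omega
    · intro j hj; rw [mem_Ioc] at hj; omega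
    · intro j _; rfl

/-- The prime number theorem, lower bound. -/
theorem pnt_lower (ε : ℝ) (hε : 0 < ε) :
    ∀ᶠ X : ℕ in atTop, (1 - ε) * X ≤ (Nat.primeCounting X : ℝ) * Real.log X := by
  have h1 := B3WI.thetaq_asymp (q := 1) (a := 0) (by rw [isUnit_iff_exists_inv]; exact ⟨0, rfl⟩)
  rw [Nat.totient_one, Nat.cast_one, inv_one] at h1
  have h2 := h1.comp tendsto_natCast_atTop_atTop
  have h3 := h2.eventually (lt_mem_nhds (show 1 - ε < 1 by linarith))
  filter_upwards [h3, eventually_gt_atTop 0] with X hX hX0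
  have hX1 : (0 : ℝ) < X := by exact_mod_cast hX0
  simp only [Function.comp] at hX
  rw [lt_div_iff₀ hX1] at hX
  have h4 : B3WI.thetaq (q := 1) 0 (X : ℝ) ≤ Chebyshev.theta X := by
    unfold B3WI.thetaq
    rw [Nat.floor_natCast, Chebyshev.theta_eq_sum_Icc, Nat.floor_natCast, sum_filter]
    apply le_of_eq_of_le _ (sum_le_sum_of_subset_of_nonneg (s := Icc 1 X) (t := Icc 0 X) ?_ ?_)
    · apply sum_congr rfl
      intro k _
      have : ((k : ZMod 1)) = 0 := Subsingleton.elim _ _
      simp [this]
    · exact Icc_subset_Icc_left (Nat.zero_le 1)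
    · intro k _ _
      split_ifs with hk
      · exact Real.log_nonneg (by exact_mod_cast hk.one_lt.le)
      · exact le_rfl
  have h5 := Chebyshev.theta_le_pi_mul_log X
  linarith

end Pool.Agent.H.MP_711652_nt.G2
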