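import Pool.Agent.H.MP_711652_nt.G2.Small
import Pool.Agent.H.MP_711652_nt.LG.PrimeSum

/-!
# GAP2, SmallN: the numbers of the blocks of the small primes

The blocks are the primes in `(D ^ 2 ^ j, min (D ^ 2 ^ (j + 1)) z]`.
-/

set_option autoImplicit false

namespace Pool.Agent.H.MP_711652_nt.G2

open Finset Pool.Agent.H.MP_711652_nt.LG
open Pool.MP42e49e (FF window)

namespace SN

/-- the `j`-th block -/
def blk (D z j : ℕ) : Finset ℕ := (Ioc (D ^ 2 ^ j) (min (D ^ 2 ^ (j + 1)) z)).filter Nat.Prime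

theorem mem_blk {D z j p : ℕ} :
    p ∈ blk D z j ↔ (D ^ 2 ^ j < p ∧ p ≤ D ^ 2 ^ (j + 1) ∧ p ≤ z) ∧ p.Prime := by
  unfold blk
  rw [mem_filter, mem_Ioc, le_min_iff]

theorem pow_le_pow_two {D i j : ℕ} (hD : 1 ≤ D) (h : i ≤ j) : D ^ 2 ^ i ≤ D ^ 2 ^ j :=
  Nat.pow_le_pow_right hD (Nat.pow_le_pow_right (by norm_num) h)

theorem le_pow_two {D : ℕ} (hD : 1 ≤ D) (j : ℕ) : D ≤ D ^ 2 ^ j := by
  have := pow_le_pow_two hD (Nat.zero_le j)
  rwa [pow_zero, pow_one] at this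

theorem prod_blk {M : Type*} [CommMonoid M] (f : ℕ → M) {D z : ℕ} (hD : 1 ≤ D) (l : ℕ) :
    ∏ j ∈ range l, ∏ p ∈ blk D z j, f p =
      ∏ p ∈ (Ioc D (min (D ^ 2 ^ l) z)).filter Nat.Prime, f p := by
  induction l with
  | zero =>
    rw [prod_range_zero, pow_zero, pow_one, Ioc_eq_empty (by simp), filter_empty, prod_empty]
  | succ l ih =>
    rw [prod_range_succ, ih]
    have h1 := pow_le_pow_two hD (Nat.le_succ l)
    have h2 := le_pow_two hD l
    have hd : Disjoint ((Ioc D (min (D ^ 2 ^ l) z)).filter Nat.Prime) (blk D z l) := by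
      rw [disjoint_left]
      intro p hp hq
      rw [mem_blk] at hq
      rw [mem_filter, mem_Ioc, le_min_iff] at hp
      omega
    rw [← prod_union hd]
    refine prod_congr ?_ fun _ _ => rfl
    ext p
    rw [mem_union, mem_blk, mem_filter, mem_filter, mem_Ioc, mem_Ioc, le_min_iff, le_min_iff]
    constructor
    · rintro (⟨⟨a, b, c⟩, d⟩ | ⟨⟨a, b, c⟩, d⟩)
      · exact ⟨⟨a, b.trans h1, c⟩, d⟩
      · exact ⟨⟨lt_of_le_of_lt h2 a, b, c⟩, d⟩
    · rintro ⟨⟨a, b, c⟩, d⟩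
      rcases le_or_gt p (D ^ 2 ^ l) with h | h
      · exact Or.inl ⟨⟨a, h, c⟩, d⟩
      · exact Or.inr ⟨⟨h, b, c⟩, d⟩

theorem prod_blk' {M : Type*} [CommMonoid M] (f : ℕ → M) {D z : ℕ} (hD : 1 ≤ D) {l : ℕ}
    (hl : z ≤ D ^ 2 ^ l) :
    ∏ j ∈ range l, ∏ p ∈ blk D z j, f p = ∏ p ∈ (Ioc D z).filter Nat.Prime, f p := by
  rw [prod_blk f hD, min_eq_right hl]

/-- the number of blocks -/
theorem exists_l {D z : ℕ} (hD : 2 ≤ D) (hz : D ≤ z) :
    ∃ l : ℕ, z ≤ D ^ 2 ^ l ∧ D ^ (122 * 2 ^ l) ≤ D ^ 122 * z ^ 244 := by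
  classical
  have hex : ∃ l : ℕ, z ≤ D ^ 2 ^ l := by
    refine ⟨z, ?_⟩
    calc z ≤ 2 ^ z := Nat.lt_two_pow_self.le
      _ ≤ D ^ z := Nat.pow_le_pow_left hD z
      _ ≤ D ^ 2 ^ z := Nat.pow_le_pow_right (by omega) Nat.lt_two_pow_self.le
  obtain ⟨l, hl⟩ : ∃ l, l = Nat.find hex := ⟨_, rfl⟩
  have h1 : z ≤ D ^ 2 ^ l := by
    rw [hl]
    exact Nat.find_spec hex
  refine ⟨l, h1, ?_⟩
  rcases Nat.eq_zero_or_pos l with h0 | h0
  · rw [h0, pow_zero, mul_one]
    exact Nat.le_mul_of_pos_right _ (pow_pos (by omega) _)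
  · obtain ⟨k, rfl⟩ : ∃ k, l = k + 1 := ⟨l - 1, by omega⟩
    have h2 : D ^ 2 ^ k < z := by
      by_contra hcon
      have := Nat.find_min' hex (not_lt.1 hcon)
      omega
    calc D ^ (122 * 2 ^ (k + 1)) = (D ^ 2 ^ k) ^ 244 := by
          rw [← pow_mul]
          congr 1
          rw [pow_succ]
          ring
      _ ≤ z ^ 244 := Nat.pow_le_pow_left h2.le 244
      _ ≤ D ^ 122 * z ^ 244 := Nat.le_mul_of_pos_left _ (by positivity)

/-- the exponent of the level -/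
theorem expo (l : ℕ) :
    ∑ j ∈ range l, 2 ^ (j + 1) * (60 + (l - 1 - j)) + 122 + 2 * l = 122 * 2 ^ l := by
  induction l with
  | zero => simp
  | succ l ih =>
    rw [sum_range_succ']
    have e : ∑ k ∈ range l, 2 ^ (k + 1 + 1) * (60 + (l + 1 - 1 - (k + 1))) =
        2 * ∑ k ∈ range l, 2 ^ (k + 1) * (60 + (l - 1 - k)) := by
      rw [mul_sum]
      refine sum_congr rfl fun k hk => ?_
      rw [mem_range] at hk
      have : l + 1 - 1 - (k + 1) = l - 1 - k := by omega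
      rw [this, pow_succ]
      ring
    rw [e]
    have e2 : l + 1 - 1 - 0 = l := by omega
    rw [e2]
    have e3 : 122 * 2 ^ (l + 1) = 2 * (122 * 2 ^ l) := by
      rw [pow_succ]
      ring
    rw [e3, ← ih]
    ring

theorem card_blk {D z j : ℕ} (hD : 1 ≤ D) : (blk D z j).card + 1 ≤ D ^ 2 ^ (j + 1) := by
  have h0 : 1 ≤ D ^ 2 ^ j := Nat.one_le_pow _ _ (by omega)
  have h1 : (blk D z j).card ≤ min (D ^ 2 ^ (j + 1)) z - D ^ 2 ^ j := by
    unfold blk
    refine (card_filter_le _ _).trans ?_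
    rw [Nat.card_Ioc]
  have h2 : min (D ^ 2 ^ (j + 1)) z ≤ D ^ 2 ^ (j + 1) := min_le_left _ _
  have h3 : 1 ≤ D ^ 2 ^ (j + 1) := Nat.one_le_pow _ _ (by omega)
  omega

theorem level {D z l : ℕ} (hD : 2 ≤ D) (hz : D ≤ z) (hl : D ^ (122 * 2 ^ l) ≤ D ^ 122 * z ^ 244) :
    ∏ j ∈ range l, (((blk D z j).card : ℝ) + 1) ^ (60 + (l - 1 - j)) ≤ (z : ℝ) ^ 248 := by
  have h1 : ∏ j ∈ range l, ((blk D z j).card + 1) ^ (60 + (l - 1 - j)) ≤ z ^ 248 := by
    calc ∏ j ∈ range l, ((blk D z j).card + 1) ^ (60 + (l - 1 - j)) ≤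
          ∏ j ∈ range l, D ^ (2 ^ (j + 1) * (60 + (l - 1 - j))) := by
          refine prod_le_prod' fun j _ => ?_
          rw [pow_mul]
          exact Nat.pow_le_pow_left (card_blk (by omega)) _
      _ = D ^ ∑ j ∈ range l, 2 ^ (j + 1) * (60 + (l - 1 - j)) := by
          rw [prod_pow_eq_pow_sum]
      _ ≤ z ^ 248 := by
          have h2 := expo l
          obtain ⟨s, hs⟩ : ∃ s, s = ∑ j ∈ range l, 2 ^ (j + 1) * (60 + (l - 1 - j)) := ⟨_, rfl⟩
          rw [← hs] at h2 ⊢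
          have h3 : D ^ 122 * D ^ s ≤ D ^ 122 * z ^ 244 := by
            refine le_trans ?_ hl
            rw [← pow_add]
            exact Nat.pow_le_pow_right (by omega) (by omega)
          have h4 : D ^ s ≤ z ^ 244 := Nat.le_of_mul_le_mul_left h3 (by positivity)
          exact h4.trans (Nat.pow_le_pow_right (by omega) (by norm_num))
  have h2 : ((∏ j ∈ range l, ((blk D z j).card + 1) ^ (60 + (l - 1 - j)) : ℕ) : ℝ) ≤
      ((z ^ 248 : ℕ) : ℝ) := by exact_mod_cast h1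
  push_cast at h2
  exact h2

/-- the sum of a block -/
theorem sum_blk {D z : ℕ} (hD : Real.exp 40 ≤ D) (j : ℕ) :
    ∑ p ∈ blk D z j, 1 / (p : ℝ) ≤ 1 := by
  have hD0 : (0 : ℝ) < D := lt_of_lt_of_le (Real.exp_pos _) hD
  have hD2 : (2 : ℝ) ≤ D := by
    have := Real.add_one_le_exp (40 : ℝ)
    linarith
  have hDn : 2 ≤ D := by exact_mod_cast hD2
  have hl : 40 ≤ Real.log D := (Real.le_log_iff_exp_le hD0).2 hD
  obtain ⟨v, hv⟩ : ∃ v, v = D ^ 2 ^ j := ⟨_, rfl⟩
  obtain ⟨x, hx⟩ : ∃ x, x = min (D ^ 2 ^ (j + 1)) z := ⟨_, rfl⟩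
  have e : blk D z j = (Ioc v x).filter Nat.Prime := by
    rw [hv, hx]
    rfl
  rw [e]
  rcases le_or_gt v x with h | h
  · have hv2 : 2 ≤ v := by
      rw [hv]
      exact hDn.trans (le_pow_two (by omega) j)
    rw [PrimeSum_FF_sub h]
    have h1 := (window hv2 h).1
    have hlv : Real.log v = 2 ^ j * Real.log D := by
      rw [hv]
      push_cast
      rw [Real.log_pow]
      push_cast
      rfl
    have hlv40 : 40 ≤ Real.log v := by
      rw [hlv]
      have : (1 : ℝ) ≤ 2 ^ j := one_le_pow₀ (by norm_num)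
      nlinarith
    have hx0 : (0 : ℝ) < x := by
      have : 0 < x := by omega
      exact_mod_cast this
    have hv0 : (0 : ℝ) < v := by
      have : 0 < v := by omega
      exact_mod_cast this
    have hlx : Real.log x ≤ 2 * Real.log v := by
      have h2 : (x : ℝ) ≤ (v : ℝ) ^ 2 := by
        have : x ≤ v ^ 2 := by
          rw [hx, hv, ← pow_mul]
          refine (min_le_left _ _).trans (le_of_eq ?_)
          rw [pow_succ]
        exact_mod_cast this
      have h3 := Real.log_le_log hx0 h2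
      rw [Real.log_pow] at h3
      push_cast at h3
      exact h3
    have hvx : Real.log v ≤ Real.log x := Real.log_le_log hv0 (by exact_mod_cast h)
    have h2 : Real.log (Real.log x) ≤ Real.log 2 + Real.log (Real.log v) := by
      rw [← Real.log_mul (by norm_num) (by linarith)]
      exact Real.log_le_log (by linarith) hlx
    have h3 : 12 / Real.log v ≤ 3 / 10 := by
      rw [div_le_iff₀ (by linarith)]
      linarith
    have h4 := Real.log_two_lt_d9
    linarith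
  · rw [Ioc_eq_empty (by omega), filter_empty, sum_empty]
    exact zero_le_one

/-- the product over the small primes -/
theorem prod_small {D z : ℕ} (hD : Real.exp 40 ≤ D) (hz : D ≤ z) :
    ∏ p ∈ (Ioc D z).filter Nat.Prime, (1 - 1 / (p : ℝ)) ≤ 2 * (Real.log D / Real.log z) := by
  have hD0 : (0 : ℝ) < D := lt_of_lt_of_le (Real.exp_pos _) hD
  have hD2 : (2 : ℝ) ≤ D := by
    have := Real.add_one_le_exp (40 : ℝ)
    linarith
  have hDn : 2 ≤ D := by exact_mod_cast hD2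
  have hl : 40 ≤ Real.log D := (Real.le_log_iff_exp_le hD0).2 hD
  have hz0 : (0 : ℝ) < z := by
    have : 0 < z := by omega
    exact_mod_cast this
  have hlz : Real.log D ≤ Real.log z := Real.log_le_log hD0 (by exact_mod_cast hz)
  have h1 : ∏ p ∈ (Ioc D z).filter Nat.Prime, (1 - 1 / (p : ℝ)) ≤
      Real.exp (-(∑ p ∈ (Ioc D z).filter Nat.Prime, 1 / (p : ℝ))) := by
    rw [← sum_neg_distrib, Real.exp_sum]
    refine prod_le_prod ?_ ?_
    · intro p hp
      have hp1 : (1 : ℝ) ≤ p := by exact_mod_cast (mem_filter.1 hp).2.one_lt.le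
      have : 1 / (p : ℝ) ≤ 1 := by
        rw [div_le_one (by linarith)]
        exact hp1
      linarith
    · intro p _
      have := Real.add_one_le_exp (-(1 / (p : ℝ)))
      linarith
  refine h1.trans ?_
  rw [PrimeSum_FF_sub hz]
  have h2 := (window hDn hz).2
  have h3 : 12 / Real.log D ≤ 3 / 10 := by
    rw [div_le_iff₀ (by linarith)]
    linarith
  have h4 : Real.exp (-(FF z - FF D)) ≤
      Real.exp (3 / 10 + (Real.log (Real.log D) - Real.log (Real.log z))) :=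
    Real.exp_le_exp.2 (by linarith)
  refine h4.trans ?_
  rw [Real.exp_add, Real.exp_sub, Real.exp_log (by linarith), Real.exp_log (by linarith)]
  refine mul_le_mul_of_nonneg_right ?_ (by positivity)
  have h5 : Real.exp (3 / 10) ≤ Real.exp (1 / 2) := Real.exp_le_exp.2 (by norm_num)
  have h6 : Real.exp (1 / 2) * Real.exp (1 / 2) = Real.exp 1 := by
    rw [← Real.exp_add]
    norm_num
  have h7 := Real.exp_one_lt_d9
  have h8 := Real.exp_pos (1 / 2)
  nlinarith

theorem sum_inv_u {D : ℕ} (hD : 2 ≤ D) (l : ℕ) :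
    ∑ j ∈ range l, (1 : ℝ) / (D : ℝ) ^ 2 ^ j ≤ (2 : ℝ) / (D : ℝ) := by
  have hD1 : (2 : ℝ) ≤ D := by exact_mod_cast hD
  have hD0 : (0 : ℝ) < D := by linarith
  have h1 : ∀ j : ℕ, 1 / (D : ℝ) ^ 2 ^ j ≤ (1 / D) * (1 / 2) ^ j := by
    intro j
    have h2 : (D : ℝ) * 2 ^ j ≤ (D : ℝ) ^ 2 ^ j := by
      calc (D : ℝ) * 2 ^ j ≤ D * (D : ℝ) ^ j :=
            mul_le_mul_of_nonneg_left (pow_le_pow_left₀ (by norm_num) hD1 j) hD0.le
        _ = (D : ℝ) ^ (j + 1) := by
            rw [pow_succ]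
            ring
        _ ≤ (D : ℝ) ^ 2 ^ j := pow_le_pow_right₀ (by linarith) (Nat.succ_le_of_lt Nat.lt_two_pow_self)
    have h3 : (1 / (D : ℝ)) * (1 / 2) ^ j = 1 / ((D : ℝ) * 2 ^ j) := by
      rw [one_div_pow]
      field_simp
    rw [h3]
    exact one_div_le_one_div_of_le (by positivity) h2
  refine (sum_le_sum fun j _ => h1 j).trans ?_
  rw [← mul_sum]
  have h4 : ∑ j ∈ range l, (1 / 2 : ℝ) ^ j ≤ 2 := by
    have := sum_geometric_two_le l
    simpa using this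
  calc 1 / (D : ℝ) * ∑ j ∈ range l, (1 / 2 : ℝ) ^ j ≤ 1 / (D : ℝ) * 2 :=
        mul_le_mul_of_nonneg_left h4 (by positivity)
    _ = 2 / D := by ring

theorem prod_one_add_le {s : Finset ℕ} {f : ℕ → ℝ} (h : ∀ j ∈ s, 0 ≤ f j) :
    ∏ j ∈ s, (1 + f j) ≤ Real.exp (∑ j ∈ s, f j) := by
  rw [Real.exp_sum]
  refine prod_le_prod (fun j hj => by have := h j hj; linarith) fun j _ => ?_
  have := Real.add_one_le_exp (f j)
  linarith

theorem prod_eta {D : ℕ} (hD : 2 ≤ D) {κ η : ℝ} (hκ : 0 ≤ κ) (hη : 0 < η) (h1 : 2 * κ ≤ D)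
    (h2 : 4 * κ / η ≤ D) (l : ℕ) :
    ∏ j ∈ range l, (1 + κ / (D : ℝ) ^ 2 ^ j) ≤ 1 + η := by
  have hD1 : (2 : ℝ) ≤ D := by exact_mod_cast hD
  have hD0 : (0 : ℝ) < D := by linarith
  refine (prod_one_add_le fun j _ => by positivity).trans ?_
  have e : ∑ j ∈ range l, κ / (D : ℝ) ^ 2 ^ j = κ * ∑ j ∈ range l, 1 / (D : ℝ) ^ 2 ^ j := by
    rw [mul_sum]
    refine sum_congr rfl fun j _ => ?_
    ring
  have h3 : ∑ j ∈ range l, κ / (D : ℝ) ^ 2 ^ j ≤ 2 * κ / D := by
    rw [e]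
    calc κ * ∑ j ∈ range l, 1 / (D : ℝ) ^ 2 ^ j ≤ κ * (2 / D) :=
          mul_le_mul_of_nonneg_left (sum_inv_u hD l) hκ
      _ = 2 * κ / D := by ring
  obtain ⟨t, ht⟩ : ∃ t, t = 2 * κ / D := ⟨_, rfl⟩
  have ht0 : 0 ≤ t := by
    rw [ht]
    positivity
  have ht1 : t ≤ 1 := by
    rw [ht, div_le_one hD0]
    exact h1
  have ht2 : 2 * t ≤ η := by
    rw [ht]
    rw [div_le_iff₀ hη] at h2
    have : 2 * (2 * κ / D) = 4 * κ / D := by ring
    rw [this, div_le_iff₀ hD0]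
    linarith
  rw [← ht] at h3
  have h4 : Real.exp (∑ j ∈ range l, κ / (D : ℝ) ^ 2 ^ j) ≤ Real.exp t := Real.exp_le_exp.2 h3
  have h5 : Real.exp t ≤ 1 + 2 * t := by
    have h6 := Real.abs_exp_sub_one_le (x := t) (by rw [abs_of_nonneg ht0]; exact ht1)
    rw [abs_of_nonneg ht0] at h6
    have := le_abs_self (Real.exp t - 1)
    linarith
  linarith

theorem exp34 : Real.exp 34 ≤ 2 ^ 60 := by
  have h1 : Real.exp 34 = Real.exp 1 ^ 34 := by
    rw [← Real.exp_nat_mul]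
    norm_num
  have h2 := Real.exp_one_lt_d9
  rw [h1]
  calc Real.exp 1 ^ 34 ≤ (2.7182818286 : ℝ) ^ 34 :=
        pow_le_pow_left₀ (Real.exp_pos _).le h2.le 34
    _ ≤ 2 ^ 60 := by norm_num

theorem prod_nn (l : ℕ) :
    ∏ j ∈ range l, (1 + Real.exp 34 / 2 ^ (60 + (l - 1 - j) + 1)) ≤ 3 := by
  have e : ∏ j ∈ range l, (1 + Real.exp 34 / 2 ^ (60 + (l - 1 - j) + 1)) =
      ∏ j ∈ range l, (1 + Real.exp 34 / 2 ^ (60 + j + 1)) :=
    prod_range_reflect (fun j => 1 + Real.exp 34 / 2 ^ (60 + j + 1)) l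
  rw [e]
  refine (prod_one_add_le fun j _ => div_nonneg (Real.exp_pos _).le (by positivity)).trans ?_
  have h0 := exp34
  have h1 : ∀ j ∈ range l, Real.exp 34 / 2 ^ (60 + j + 1) ≤ (1 / 2) * (1 / 2 : ℝ) ^ j := by
    intro j _
    have h2 : (2 : ℝ) ^ (60 + j + 1) = 2 ^ 60 * (2 * 2 ^ j) := by
      rw [pow_succ, pow_add]
      ring
    have h3 : (1 / 2) * (1 / 2 : ℝ) ^ j = 2 ^ 60 / (2 ^ 60 * (2 * 2 ^ j)) := by
      rw [one_div_pow]
      field_simp
    rw [h2, h3]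
    exact div_le_div_of_nonneg_right h0 (by positivity)
  have h4 : ∑ j ∈ range l, Real.exp 34 / 2 ^ (60 + j + 1) ≤ 1 := by
    refine (sum_le_sum h1).trans ?_
    rw [← mul_sum]
    have := sum_geometric_two_le l
    have h5 : ∑ j ∈ range l, (1 / 2 : ℝ) ^ j ≤ 2 := by simpa using this
    linarith
  have h6 := Real.exp_le_exp.2 h4
  have h7 := Real.exp_one_lt_d9
  linarith

end SN

/-- the threshold for `D` -/
noncomputable def DK (K : ℕ) (η : ℝ) : ℝ :=
  Real.exp 40 + 24 * ((4 * K : ℕ) : ℝ) * Real.exp (33 * ((4 * K : ℕ) : ℝ)) * (1 + 1 / η)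

/-- **The small primes.** -/
theorem small_num {ι : Type*} [Fintype ι] [DecidableEq ι] {P : Finset ℕ} {A : ℕ → ι → ℕ → Prop}
    (h : Forms P A) {K : ℕ} (hK : 1 ≤ K) {η : ℝ} (hη : 0 < η) {D z : ℕ} (hD : DK K η ≤ D)
    (hz : D ≤ z) (hP : (Ioc D z).filter Nat.Prime ⊆ P) :
    ∃ Lam : ι → ℕ → ℝ, Small (∏ p ∈ (Ioc D z).filter Nat.Prime, p) Lam K
        (12 * (Real.log D / Real.log z)) η ((z : ℝ) ^ 248) ∧
      ∀ i m, (∀ p ∈ (Ioc D z).filter Nat.Prime, ¬ A p i m) → Lam i m = 1 := by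
  obtain ⟨κ, hκ⟩ : ∃ κ, κ = ((4 * K : ℕ) : ℝ) * Real.exp (33 * ((4 * K : ℕ) : ℝ)) := ⟨_, rfl⟩
  have hκ0 : 0 ≤ κ := by
    rw [hκ]
    exact mul_nonneg (by positivity) (Real.exp_pos _).le
  have hDκ : Real.exp 40 + 24 * κ * (1 + 1 / η) ≤ D := by
    refine le_trans (le_of_eq ?_) hD
    rw [hκ, DK]
    ring
  have hκη : 0 ≤ κ * (1 / η) := by positivity
  have hD40 : Real.exp 40 ≤ D := by nlinarith
  have hDκ1 : 24 * κ ≤ D := by
    have := Real.exp_pos 40
    nlinarith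
  have hDκ2 : 24 * (κ * (1 / η)) ≤ D := by
    have := Real.exp_pos 40
    nlinarith
  have hD41 : (41 : ℝ) ≤ D := by
    have := Real.add_one_le_exp (40 : ℝ)
    linarith
  have hDn : 41 ≤ D := by exact_mod_cast hD41
  have hD0 : (0 : ℝ) < D := by linarith
  obtain ⟨l, hl, hlev⟩ := SN.exists_l (by omega : 2 ≤ D) hz
  have hu : ∀ j : ℕ, (D : ℝ) ≤ (D : ℝ) ^ 2 ^ j := by
    intro j
    have := SN.le_pow_two (by omega : 1 ≤ D) j
    exact_mod_cast this
  have hη1 : ∏ j ∈ range l, (1 + 6 * ((4 * K : ℕ) : ℝ) * Real.exp (33 * ((4 * K : ℕ) : ℝ)) /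
      (D : ℝ) ^ 2 ^ j) ≤ 1 + min η 1 := by
    have := SN.prod_eta (by omega : 2 ≤ D) (κ := 6 * κ) (η := min η 1) (by linarith)
      (lt_min hη zero_lt_one) (by linarith) (by
        rw [div_le_iff₀ (lt_min hη zero_lt_one)]
        rcases min_choice η 1 with hm | hm
        · rw [hm]
          have h1 : 24 * (κ * (1 / η)) * η ≤ D * η := mul_le_mul_of_nonneg_right hDκ2 hη.le
          have h2 : 24 * (κ * (1 / η)) * η = 24 * κ := by
            field_simp
          linarith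
        · rw [hm]
          linarith) l
    refine le_trans (le_of_eq ?_) this
    refine prod_congr rfl fun j _ => ?_
    rw [hκ]
    ring
  have hS := small_of_blocks h l (SN.blk D z) (fun j => 60 + (l - 1 - j))
    (fun j _ p hp => hP (by
      rw [SN.mem_blk] at hp
      rw [mem_filter, mem_Ioc]
      have := SN.le_pow_two (by omega : 1 ≤ D) j
      exact ⟨⟨by omega, hp.1.2.2⟩, hp.2⟩))
    (fun i _ j _ hij => by
      rw [disjoint_left]
      intro p hp hq
      rw [SN.mem_blk] at hp hq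
      rcases lt_or_gt_of_ne hij with h1 | h1
      · have := SN.pow_le_pow_two (by omega : 1 ≤ D) (Nat.succ_le_of_lt h1)
        simp only [Nat.succ_eq_add_one] at this
        omega
      · have := SN.pow_le_pow_two (by omega : 1 ≤ D) (Nat.succ_le_of_lt h1)
        simp only [Nat.succ_eq_add_one] at this
        omega)
    (fun j => (D : ℝ) ^ 2 ^ j)
    (fun j _ p hp => by
      rw [SN.mem_blk] at hp
      have : D ^ 2 ^ j ≤ p := hp.1.1.le
      exact_mod_cast this)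
    (fun j _ => by positivity)
    (fun j _ p hp => by
      rw [SN.mem_blk] at hp
      have := SN.le_pow_two (by omega : 1 ≤ D) j
      omega)
    K hK
    (fun j _ => by
      refine le_trans ?_ (hu j)
      have : 8 * ((4 * K : ℕ) : ℝ) * Real.exp (33 * ((4 * K : ℕ) : ℝ)) = 8 * κ := by
        rw [hκ]
        ring
      rw [this]
      linarith)
    (fun j _ => SN.sum_blk hD40 j)
    (12 * (Real.log D / Real.log z)) η hη.le
    (hη1.trans (by
      have := min_le_left η 1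
      linarith))
    (by
      rw [prod_mul_distrib, prod_mul_distrib, SN.prod_blk' _ (by omega : 1 ≤ D) hl]
      have h1 := SN.prod_nn l
      have h2 := SN.prod_small hD40 hz
      have h3 : 1 + min η 1 ≤ 2 := by
        have := min_le_right η 1
        linarith
      have h4 := hη1.trans h3
      have h5 : 0 ≤ ∏ p ∈ (Ioc D z).filter Nat.Prime, (1 - 1 / (p : ℝ)) := by
        refine prod_nonneg fun p hp => ?_
        have hp1 : (1 : ℝ) ≤ p := by exact_mod_cast (mem_filter.1 hp).2.one_lt.le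
        have : 1 / (p : ℝ) ≤ 1 := by
          rw [div_le_one (by linarith)]
          exact hp1
        linarith
      have h6 : 0 ≤ ∏ j ∈ range l, (1 + Real.exp 34 / 2 ^ (60 + (l - 1 - j) + 1)) :=
        prod_nonneg fun j _ => add_nonneg zero_le_one (div_nonneg (Real.exp_pos _).le (by positivity))
      calc _ ≤ 2 * 3 * (2 * (Real.log D / Real.log z)) :=
            mul_le_mul (mul_le_mul h4 h1 h6 (by norm_num)) h2 h5 (by norm_num)
        _ = 12 * (Real.log D / Real.log z) := by ring)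
  refine ⟨LamB A l (SN.blk D z) (fun j => 60 + (l - 1 - j)), ?_, ?_⟩
  · rw [SN.prod_blk' (fun p => p) (by omega : 1 ≤ D) hl] at hS
    exact { hS with tame := fun i => (hS.tame i).mono (SN.level (by omega) hz hlev)
                    one_le := one_le_pow₀ (by
                      have : 1 ≤ z := by omega
                      exact_mod_cast this) }
  · intro i m hi
    refine LamB_eq_one fun j _ p hp => hi p ?_
    rw [SN.mem_blk] at hp
    rw [mem_filter, mem_Ioc]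
    have := SN.le_pow_two (by omega : 1 ≤ D) j
    exact ⟨⟨by omega, hp.1.2.2⟩, hp.2⟩

end Pool.Agent.H.MP_711652_nt.G2
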