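import Pool.Agent.H.MP_711652_nt.G2.BF3
import Pool.Agent.H.MP_711652_nt.G2.SmallN

/-!
# GAP3, Small2: the interface `Small` for positions which may coincide modulo some primes
-/

set_option autoImplicit false

namespace Pool.Agent.H.MP_711652_nt.G2

open Finset Pool.Agent.H.MP_711652_nt.LG
open Pool.Agent.H.MP_711652_nt.G2.BF (FormsC OKb del)

namespace BF

section

variable {ι : Type*} [DecidableEq ι]

/-- the interface from the blocks -/
theorem small_of_blocksC {P : Finset ℕ} {A : ℕ → ι → ℕ → Prop} {r : ℕ → ι → ℕ} (h : FormsC P A r) (l : ℕ)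
    (blk : ℕ → Finset ℕ) (nn : ℕ → ℕ) (hblk : ∀ j < l, blk j ⊆ P)
    (hdisj : ∀ i < l, ∀ j < l, i ≠ j → Disjoint (blk i) (blk j)) (g : ℕ → ℝ) (c : ℝ) (K : ℕ) (hK1 : 1 ≤ K)
    (hOK' : ∀ j < l, OKb r ((4 * K : ℕ) : ℝ) c (g j) (blk j).toList) (v η : ℝ) (hη : 0 ≤ η) (hv0 : 0 ≤ v)
    (hη' : ∏ j ∈ range l, (1 + 16 * del ((4 * K : ℕ) : ℝ) (g j)) ≤ 1 + η)
    (hv : ∏ j ∈ range l, ((1 + 16 * del ((4 * K : ℕ) : ℝ) (g j)) *
      (1 + Real.exp 33 * (1 / 2) ^ (nn j + 1)) * ∏ p ∈ blk j, (1 - 1 / (p : ℝ))) ≤ v) :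
    Small (∏ j ∈ range l, ∏ p ∈ blk j, p) (LamB A l blk nn) K v η
      (∏ j ∈ range l, (((blk j).card : ℝ) + 1) ^ nn j) := by
  obtain ⟨N, hN⟩ : ∃ N : ℝ, N = ((4 * K : ℕ) : ℝ) := ⟨_, rfl⟩
  rw [← hN] at hη' hv
  have hOK : ∀ j < l, OKb r N c (g j) (blk j).toList := by
    intro j hj
    rw [hN]
    exact hOK' j hj
  have hN1 : N = 4 * K := by rw [hN]; push_cast; ring
  have hK1' : (1 : ℝ) ≤ K := by exact_mod_cast hK1
  obtain ⟨bl, hbl⟩ : ∃ bl, bl = BE.bls l blk nn g := ⟨_, rfl⟩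
  have hOKb : ∀ b ∈ bl, OKb r N c b.u b.l := by
    intro b hb
    rw [hbl] at hb
    obtain ⟨j, hj, rfl⟩ := BE.mem_bls hb
    exact hOK j hj
  have hP : ∀ p ∈ BE.bP bl, p ∈ P := by
    intro p hp
    rw [hbl, BE.mem_bP_bls] at hp
    obtain ⟨j, hj, hp⟩ := hp
    exact hblk j hj hp
  have hnd : (BE.bP bl).Nodup := by
    rw [hbl]
    exact BE.nodup_bP_bls hdisj
  have hQ : BE.bQ bl = ∏ j ∈ range l, ∏ p ∈ blk j, p := by
    rw [hbl]
    exact BE.bQ_bls l blk nn g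
  have hQ0 : 0 < BE.bQ bl := by
    rw [← BE.bP_prod]
    exact BE.period_pos fun p hp => h.prime p (hP p hp)
  have hLam : ∀ i m, LamB A l blk nn i m = (BE.Lam A bl i m : ℝ) := by
    intro i m
    rw [hbl, BE.Lam_bls]
    rfl
  have hE : ∀ (a : ℕ) (S : Finset ι), E (∏ j ∈ range l, ∏ p ∈ blk j, p)
      (fun m => ∏ k ∈ S, LamB A l blk nn k m ^ a) = EC r (fun n w => (BE.lam n w : ℝ) ^ a) bl S := by
    intro a S
    unfold E
    rw [← hQ]
    have h1 : ∀ m, ∏ k ∈ S, LamB A l blk nn k m ^ a = ∏ k ∈ S, (BE.Lam A bl k m : ℝ) ^ a :=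
      fun m => prod_congr rfl fun k _ => by rw [hLam]
    rw [sum_congr rfl fun m _ => h1 m, sum_LamC h a S hP hnd]
    have : (BE.bQ bl : ℝ) ≠ 0 := by exact_mod_cast hQ0.ne'
    field_simp
  have hw2 : ∀ n, BE.Wt n (fun w => (BE.lam n w : ℝ) ^ 2) := BE.wt_two
  have hw4 : ∀ n, BE.Wt n (fun w => (BE.lam n w : ℝ) ^ 4) := BE.wt_four
  have hvv0 : 0 ≤ cvv N bl := cvv_nonneg hOKb
  have hvv : cvv N bl ≤ v := by
    refine le_trans (le_of_eq ?_) hv
    unfold cvv
    rw [hbl]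
    unfold BE.bls
    rw [List.map_map, BE.prod_range_list]
    refine prod_congr rfl fun j _ => ?_
    show cv N ⟨(blk j).toList, nn j, g j⟩ = _
    unfold cv
    rw [← BE.VV_toList 1 (blk j)]
  have hdd : cdd N bl ≤ 1 + η := by
    refine le_trans (le_of_eq ?_) hη'
    unfold cdd
    rw [hbl]
    unfold BE.bls
    rw [List.map_map, BE.prod_range_list]
    rfl
  have hbE : ∀ (a : ℕ), (∀ n, BE.Wt n (fun w => (BE.lam n w : ℝ) ^ a)) → ∀ S : Finset ι,
      0 ≤ EC r (fun n w => (BE.lam n w : ℝ) ^ a) bl S := fun a ha S => EC_nonneg ha bl S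
  refine ⟨by rw [← hQ]; exact hQ0, ?_, ?_, ?_, hv0, hη, ?_, ?_, ?_⟩
  · intro i m
    exact ⟨BE.Lam A bl i m, hLam i m⟩
  · intro i
    have h1 : LamB A l blk nn i = LamB (fun p (_ : Unit) m => A p i m) l blk nn () := by
      funext m
      rfl
    rw [h1]
    refine Tame.prod (range l) fun j hj => ?_
    rw [mem_range] at hj
    exact tame_lam (h.one i) (hblk j hj) (Finset.dvd_prod_of_mem (fun j => ∏ p ∈ blk j, p)
      (mem_range.2 hj)) (nn j) ()
  · calc (1 : ℝ) = ∏ j ∈ range l, (1 : ℝ) := by rw [prod_const_one]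
      _ ≤ ∏ j ∈ range l, (((blk j).card : ℝ) + 1) ^ nn j := by
          apply prod_le_prod (fun _ _ => zero_le_one)
          intro j _
          exact one_le_pow₀ (by
            have : (0 : ℝ) ≤ (blk j).card := Nat.cast_nonneg _
            linarith)
  · intro S hS i hi
    have hS' : (S.card : ℝ) ≤ K := by exact_mod_cast hS
    have h1 := EC_insert (h := fun n w => (BE.lam n w : ℝ) ^ 2) hw2 hOKb hi
      (show (S.card : ℝ) + 1 ≤ N by rw [hN1]; linarith)
    have h2 : (fun m => LamB A l blk nn i m ^ 2 * ∏ k ∈ S, LamB A l blk nn k m ^ 2) =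
        fun m => ∏ k ∈ insert i S, LamB A l blk nn k m ^ 2 := by
      funext m
      rw [prod_insert hi]
    rw [h2, hE, hE]
    exact h1.trans (mul_le_mul_of_nonneg_right hvv (hbE 2 hw2 S))
  · intro U hU
    have hU' : (U.card : ℝ) ≤ N := by
      rw [hN]
      exact_mod_cast hU
    rw [hE]
    refine (EC_le_pow (h := fun n w => (BE.lam n w : ℝ) ^ 4) hw4 hOKb U hU').trans ?_
    exact pow_le_pow_left₀ hvv0 hvv _
  · intro S T hST hS hT
    have hS' : (S.card : ℝ) ≤ K := by exact_mod_cast hS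
    have hT' : (T.card : ℝ) ≤ K := by exact_mod_cast hT
    have h1 := EC_union (h := fun n w => (BE.lam n w : ℝ) ^ 2) hw2 hOKb hST
      (show (S.card : ℝ) + T.card ≤ N by rw [hN1]; linarith)
    have h2 : (fun m => (∏ k ∈ S, LamB A l blk nn k m ^ 2) * ∏ k ∈ T, LamB A l blk nn k m ^ 2) =
        fun m => ∏ k ∈ S ∪ T, LamB A l blk nn k m ^ 2 := by
      funext m
      rw [prod_union hST]
    rw [h2, hE, hE, hE]
    exact h1.trans (mul_le_mul_of_nonneg_right hdd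
      (mul_nonneg (hbE 2 hw2 S) (hbE 2 hw2 T)))

end

/-- the coincidences in a block -/
theorem kap_list_le {ι : Type*} [DecidableEq ι] {r : ℕ → ι → ℕ} (s : Finset ℕ) {c : ℕ}
    (hh : ∀ i j, i ≠ j → (s.filter (fun p => r p i = r p j)).card ≤ c) (S : Finset ι) :
    (s.toList.map fun p => kap S (r p)).sum ≤ (S.card : ℝ) ^ 2 * c := by
  rw [Finset.sum_map_toList]
  have h1 : ∑ p ∈ s, kap S (r p) = ∑ i ∈ S, ∑ j ∈ S, ∑ p ∈ s,
      (if i ≠ j ∧ r p i = r p j then (1 : ℝ) else 0) := by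
    unfold kap
    rw [sum_comm]
    refine sum_congr rfl fun i _ => ?_
    rw [sum_comm]
  rw [h1]
  have h2 : ∀ i ∈ S, ∀ j ∈ S, ∑ p ∈ s, (if i ≠ j ∧ r p i = r p j then (1 : ℝ) else 0) ≤ c := by
    intro i _ j _
    by_cases hij : i = j
    · rw [sum_eq_zero fun p _ => if_neg fun h => h.1 hij]
      positivity
    · have h3 : ∑ p ∈ s, (if i ≠ j ∧ r p i = r p j then (1 : ℝ) else 0) =
          ((s.filter (fun p => r p i = r p j)).card : ℝ) := by
        rw [card_filter]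
        push_cast
        refine sum_congr rfl fun p _ => ?_
        by_cases h4 : r p i = r p j
        · rw [if_pos ⟨hij, h4⟩, if_pos h4]
        · rw [if_neg fun h => h4 h.2, if_neg h4]
      rw [h3]
      exact_mod_cast hh i j hij
  calc ∑ i ∈ S, ∑ j ∈ S, ∑ p ∈ s, (if i ≠ j ∧ r p i = r p j then (1 : ℝ) else 0) ≤
        ∑ i ∈ S, ∑ j ∈ S, (c : ℝ) := sum_le_sum fun i hi => sum_le_sum fun j hj => h2 i hi j hj
    _ = (S.card : ℝ) ^ 2 * c := by
        rw [sum_const, sum_const, nsmul_eq_mul, nsmul_eq_mul]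
        ring

theorem sum_inv_u {G : ℝ} (hG : 2 ≤ G) (l : ℕ) :
    ∑ j ∈ range l, (1 : ℝ) / G ^ 2 ^ j ≤ 2 / G := by
  have hG0 : 0 < G := by linarith
  have h1 : ∀ j : ℕ, 1 / G ^ 2 ^ j ≤ (1 / G) * (1 / 2) ^ j := by
    intro j
    have h2 : G * 2 ^ j ≤ G ^ 2 ^ j := by
      calc G * 2 ^ j ≤ G * G ^ j :=
            mul_le_mul_of_nonneg_left (pow_le_pow_left₀ (by norm_num) hG j) hG0.le
        _ = G ^ (j + 1) := by
            rw [pow_succ]
            ring
        _ ≤ G ^ 2 ^ j := pow_le_pow_right₀ (by linarith) (Nat.succ_le_of_lt Nat.lt_two_pow_self)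
    have h3 : (1 / G) * (1 / 2) ^ j = 1 / (G * 2 ^ j) := by
      rw [one_div_pow]
      field_simp
    rw [h3]
    exact one_div_le_one_div_of_le (by positivity) h2
  refine (sum_le_sum fun j _ => h1 j).trans ?_
  rw [← mul_sum]
  have h4 : ∑ j ∈ range l, (1 / 2 : ℝ) ^ j ≤ 2 := by
    have := sum_geometric_two_le l
    simpa using this
  calc 1 / G * ∑ j ∈ range l, (1 / 2 : ℝ) ^ j ≤ 1 / G * 2 :=
        mul_le_mul_of_nonneg_left h4 (by positivity)
    _ = 2 / G := by ring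

theorem prod_eta {G : ℝ} (hG : 2 ≤ G) {κ η : ℝ} (hκ : 0 ≤ κ) (hη : 0 < η) (h1 : 2 * κ ≤ G)
    (h2 : 4 * κ / η ≤ G) (l : ℕ) :
    ∏ j ∈ range l, (1 + κ / G ^ 2 ^ j) ≤ 1 + η := by
  have hG0 : 0 < G := by linarith
  refine (SN.prod_one_add_le fun j _ => by positivity).trans ?_
  have e : ∑ j ∈ range l, κ / G ^ 2 ^ j = κ * ∑ j ∈ range l, 1 / G ^ 2 ^ j := by
    rw [mul_sum]
    refine sum_congr rfl fun j _ => ?_
    ring
  have h3 : ∑ j ∈ range l, κ / G ^ 2 ^ j ≤ 2 * κ / G := by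
    rw [e]
    calc κ * ∑ j ∈ range l, 1 / G ^ 2 ^ j ≤ κ * (2 / G) :=
          mul_le_mul_of_nonneg_left (sum_inv_u hG l) hκ
      _ = 2 * κ / G := by ring
  obtain ⟨t, ht⟩ : ∃ t, t = 2 * κ / G := ⟨_, rfl⟩
  have ht0 : 0 ≤ t := by
    rw [ht]
    positivity
  have ht1 : t ≤ 1 := by
    rw [ht, div_le_one hG0]
    exact h1
  have ht2 : 2 * t ≤ η := by
    rw [ht]
    rw [div_le_iff₀ hη] at h2
    have : 2 * (2 * κ / G) = 4 * κ / G := by ring
    rw [this, div_le_iff₀ hG0]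
    linarith
  rw [← ht] at h3
  have h4 : Real.exp (∑ j ∈ range l, κ / G ^ 2 ^ j) ≤ Real.exp t := Real.exp_le_exp.2 h3
  have h5 : Real.exp t ≤ 1 + 2 * t := by
    have h6 := Real.abs_exp_sub_one_le (x := t) (by rw [abs_of_nonneg ht0]; exact ht1)
    rw [abs_of_nonneg ht0] at h6
    have := le_abs_self (Real.exp t - 1)
    linarith
  linarith

theorem exp17_le : Real.exp 17 ≤ 2 ^ 25 := by
  have h1 : Real.exp 17 = Real.exp 1 ^ 17 := by
    rw [← Real.exp_nat_mul]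
    norm_num
  have h2 := Real.exp_one_lt_d9
  rw [h1]
  calc Real.exp 1 ^ 17 ≤ (2.7182818286 : ℝ) ^ 17 :=
        pow_le_pow_left₀ (Real.exp_pos _).le h2.le 17
    _ ≤ 2 ^ 25 := by norm_num

end BF

/-- the number of the blocks -/
noncomputable def lv (D z : ℕ) : ℕ := by
  classical exact if h : 2 ≤ D ∧ D ≤ z then Classical.choose (SN.exists_l h.1 h.2) else 0

theorem lv_spec {D z : ℕ} (hD : 2 ≤ D) (hz : D ≤ z) :
    z ≤ D ^ 2 ^ lv D z ∧ D ^ (122 * 2 ^ lv D z) ≤ D ^ 122 * z ^ 244 := by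
  unfold lv
  rw [dif_pos ⟨hD, hz⟩]
  exact Classical.choose_spec (SN.exists_l hD hz)

/-- The weight of the small primes `(D, z]`: the value at the position `i` depends only on `A · i ·`. -/
noncomputable def LamF {ι : Type*} (D z : ℕ) (A : ℕ → ι → ℕ → Prop) (i : ι) (m : ℕ) : ℝ :=
  LamB A (lv D z) (SN.blk D z) (fun j => 60 + (lv D z - 1 - j)) i m

theorem LamF_comp {ι κ : Type*} (D z : ℕ) (A : ℕ → ι → ℕ → Prop) (f : κ → ι) (i : κ) (m : ℕ) :
    LamF D z (fun p k m => A p (f k) m) i m = LamF D z A (f i) m := rfl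

theorem LamF_eq_one {ι : Type*} {D z : ℕ} (hD : 1 ≤ D) {A : ℕ → ι → ℕ → Prop} {i : ι} {m : ℕ}
    (hi : ∀ p ∈ (Ioc D z).filter Nat.Prime, ¬ A p i m) : LamF D z A i m = 1 := by
  refine LamB_eq_one fun j _ p hp => hi p ?_
  rw [SN.mem_blk] at hp
  rw [mem_filter, mem_Ioc]
  have := SN.le_pow_two hD j
  exact ⟨⟨by omega, hp.1.2.2⟩, hp.2⟩

/-- **The small primes, coincidences allowed.** -/
theorem small_num2 {ι : Type*} [Fintype ι] [DecidableEq ι] {A : ℕ → ι → ℕ → Prop} {r : ℕ → ι → ℕ}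
    {D z K h : ℕ} {η : ℝ} (hK : 1 ≤ K) (hη : 0 < η) (hη1 : η ≤ 1)
    (hD : (2 ^ 40 * K * ((h : ℝ) + 1) / η) ^ 8 ≤ D) (hz : D ≤ z)
    (hF : FormsC ((Ioc D z).filter Nat.Prime) A r)
    (hcl : ∀ p ∈ (Ioc D z).filter Nat.Prime, ∀ i j k, i ≠ j → i ≠ k → j ≠ k → r p j = r p i → r p k ≠ r p i)
    (hh : ∀ i j, i ≠ j → (((Ioc D z).filter Nat.Prime).filter (fun p => r p i = r p j)).card ≤ h) :
    Small (∏ p ∈ (Ioc D z).filter Nat.Prime, p) (LamF D z A) K
        (12 * (Real.log D / Real.log z)) η ((z : ℝ) ^ 248) := by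
  obtain ⟨G, hG⟩ : ∃ G : ℝ, G = 2 ^ 40 * K * ((h : ℝ) + 1) / η := ⟨_, rfl⟩
  rw [← hG] at hD
  have hK1 : (1 : ℝ) ≤ K := by exact_mod_cast hK
  have hh0 : (0 : ℝ) ≤ h := Nat.cast_nonneg _
  have hGη : G * η = 2 ^ 40 * K * ((h : ℝ) + 1) := by
    rw [hG]
    field_simp
  have hKh : (1 : ℝ) ≤ K * ((h : ℝ) + 1) := by nlinarith
  have hG0 : 0 < G := by
    rw [hG]
    positivity
  have hGle : 2 ^ 40 * (K * ((h : ℝ) + 1)) ≤ G := by nlinarith
  have hG40 : (2 : ℝ) ^ 40 ≤ G := by nlinarith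
  have hG1 : 1 ≤ G := by linarith
  have hD40 : Real.exp 40 ≤ D := by
    have h1 : Real.exp 40 = Real.exp 1 ^ 40 := by
      rw [← Real.exp_nat_mul]
      norm_num
    have h2 := Real.exp_one_lt_d9
    rw [h1]
    calc Real.exp 1 ^ 40 ≤ (2.7182818286 : ℝ) ^ 40 :=
          pow_le_pow_left₀ (Real.exp_pos _).le h2.le 40
      _ ≤ (2 ^ 40) ^ 8 := by norm_num
      _ ≤ G ^ 8 := pow_le_pow_left₀ (by norm_num) hG40 8
      _ ≤ D := hD
  have hD41 : (41 : ℝ) ≤ D := by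
    have := Real.add_one_le_exp (40 : ℝ)
    linarith
  have hDn : 41 ≤ D := by exact_mod_cast hD41
  have hDR0 : (0 : ℝ) < D := by linarith
  obtain ⟨hl, hlev⟩ := lv_spec (by omega : 2 ≤ D) hz
  obtain ⟨l, hl'⟩ : ∃ l, l = lv D z := ⟨_, rfl⟩
  rw [← hl'] at hl hlev
  have h17 := BF.exp17_le
  have h17' := Real.exp_pos 17
  -- the blocks
  have hgj : ∀ j : ℕ, G ≤ G ^ 2 ^ j := by
    intro j
    calc G = G ^ 1 := (pow_one G).symm
      _ ≤ G ^ 2 ^ j := pow_le_pow_right₀ hG1 Nat.one_le_two_pow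
  have hsub : ∀ j, SN.blk D z j ⊆ (Ioc D z).filter Nat.Prime := by
    intro j p hp
    rw [SN.mem_blk] at hp
    rw [mem_filter, mem_Ioc]
    have := SN.le_pow_two (by omega : 1 ≤ D) j
    exact ⟨⟨by omega, hp.1.2.2⟩, hp.2⟩
  have hOK : ∀ j < l, OKb r ((4 * K : ℕ) : ℝ) (h : ℝ) (G ^ 2 ^ j) (SN.blk D z j).toList := by
    intro j _
    refine ⟨?_, ?_, ?_, hh0, ?_, ?_, ?_, ?_, ?_⟩
    · intro p hp
      rw [mem_toList, SN.mem_blk] at hp
      have := hp.2.two_le
      exact ⟨by omega, by omega⟩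
    · rw [BE.rs_toList]
      exact SN.sum_blk hD40 j
    · push_cast
      linarith
    · refine le_trans ?_ (hgj j)
      push_cast
      have h1 : 48 * Real.exp 17 * (4 * K * ((h : ℝ) + 1)) ≤ 48 * 2 ^ 25 * (4 * K * ((h : ℝ) + 1)) := by
        gcongr
      have h2 : 48 * (2 : ℝ) ^ 25 * (4 * K * ((h : ℝ) + 1)) ≤ 2 ^ 40 * (K * ((h : ℝ) + 1)) := by
        nlinarith
      linarith
    · intro p hp
      rw [mem_toList, SN.mem_blk] at hp
      have h1 : ((D ^ 2 ^ j : ℕ) : ℝ) ≤ p := by exact_mod_cast hp.1.1.le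
      push_cast at h1
      refine le_trans ?_ h1
      calc (G ^ 2 ^ j) ^ 8 = (G ^ 8) ^ 2 ^ j := by
            rw [← pow_mul, ← pow_mul, mul_comm]
        _ ≤ (D : ℝ) ^ 2 ^ j := pow_le_pow_left₀ (by positivity) hD _
    · intro p hp i
      rw [mem_toList] at hp
      exact hF.lt p (hsub j hp) i
    · intro p hp
      rw [mem_toList] at hp
      exact hcl p (hsub j hp)
    · intro S hS
      refine (BF.kap_list_le (SN.blk D z j) (c := h) (fun i k hik => ?_) S).trans ?_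
      · refine le_trans (card_le_card ?_) (hh i k hik)
        exact filter_subset_filter _ (hsub j)
      · have h1 : (0 : ℝ) ≤ S.card := Nat.cast_nonneg _
        exact mul_le_mul_of_nonneg_right (pow_le_pow_left₀ h1 hS 2) hh0
  have hdel : ∀ j : ℕ, 16 * del ((4 * K : ℕ) : ℝ) (G ^ 2 ^ j) = (64 * K * Real.exp 17) / G ^ 2 ^ j := by
    intro j
    unfold BF.del
    push_cast
    ring
  have hκ : 64 * K * Real.exp 17 ≤ 2 ^ 31 * (K * ((h : ℝ) + 1)) := by
    have h1 : 64 * K * Real.exp 17 ≤ 64 * K * 2 ^ 25 := by gcongr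
    nlinarith
  have hη2 : ∏ j ∈ range l, (1 + 16 * del ((4 * K : ℕ) : ℝ) (G ^ 2 ^ j)) ≤ 1 + η := by
    rw [prod_congr rfl fun j _ => by rw [hdel j]]
    refine BF.prod_eta (by linarith) (by positivity) hη ?_ ?_ l
    · nlinarith
    · rw [div_le_iff₀ hη, hGη]
      nlinarith
  have hv0 : 0 ≤ 12 * (Real.log D / Real.log z) := by
    have h1 : 0 ≤ Real.log D := Real.log_nonneg (by linarith)
    have h2 : 0 ≤ Real.log z := Real.log_nonneg (by
      have : (D : ℝ) ≤ z := by exact_mod_cast hz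
      linarith)
    positivity
  have hS := BF.small_of_blocksC hF l (SN.blk D z) (fun j => 60 + (l - 1 - j)) (fun j _ => hsub j)
    (fun i _ j _ hij => by
      rw [disjoint_left]
      intro p hp hq
      rw [SN.mem_blk] at hp hq
      rcases lt_or_gt_of_ne hij with h1 | h1
      · have := SN.pow_le_pow_two (by omega : 1 ≤ D) (Nat.succ_le_of_lt h1)
        simp only [Nat.succ_eq_add_one] at this
        omega
      · have := SN.pow_le_pow_two (by omega : 1 ≤ D) (Nat.succ_le_of_lt h1)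
        simp only [Nat.succ_eq_add_one] at this
        omega)
    (fun j => G ^ 2 ^ j) (h : ℝ) K hK hOK (12 * (Real.log D / Real.log z)) η hη.le hv0 hη2
    (by
      rw [prod_mul_distrib, prod_mul_distrib, SN.prod_blk' _ (by omega : 1 ≤ D) hl]
      have h1 : ∏ j ∈ range l, (1 + Real.exp 33 * (1 / 2) ^ (60 + (l - 1 - j) + 1)) ≤ 3 := by
        refine le_trans (prod_le_prod ?_ ?_) (SN.prod_nn l)
        · intro j _
          have := Real.exp_pos 33
          positivity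
        · intro j _
          have h5 : Real.exp 33 * (1 / 2) ^ (60 + (l - 1 - j) + 1) =
              Real.exp 33 / 2 ^ (60 + (l - 1 - j) + 1) := by
            rw [one_div, inv_pow]
            rfl
          rw [h5]
          have h6 : Real.exp 33 ≤ Real.exp 34 := Real.exp_le_exp.2 (by norm_num)
          have h7 := div_le_div_of_nonneg_right h6
            (show (0 : ℝ) ≤ 2 ^ (60 + (l - 1 - j) + 1) by positivity)
          linarith
      have h2 := SN.prod_small hD40 hz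
      have h4 : ∏ j ∈ range l, (1 + 16 * del ((4 * K : ℕ) : ℝ) (G ^ 2 ^ j)) ≤ 2 := by linarith
      have h5 : 0 ≤ ∏ p ∈ (Ioc D z).filter Nat.Prime, (1 - 1 / (p : ℝ)) := by
        refine prod_nonneg fun p hp => ?_
        have hp1 : (1 : ℝ) ≤ p := by exact_mod_cast (mem_filter.1 hp).2.one_lt.le
        have : 1 / (p : ℝ) ≤ 1 := by
          rw [div_le_one (by linarith)]
          exact hp1
        linarith
      have h6 : 0 ≤ ∏ j ∈ range l, (1 + Real.exp 33 * (1 / 2) ^ (60 + (l - 1 - j) + 1)) :=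
        prod_nonneg fun j _ => by
          have := Real.exp_pos 33
          positivity
      calc _ ≤ 2 * 3 * (2 * (Real.log D / Real.log z)) :=
            mul_le_mul (mul_le_mul h4 h1 h6 (by norm_num)) h2 h5 (by norm_num)
        _ = 12 * (Real.log D / Real.log z) := by ring)
  have hLF : LamF D z A = LamB A l (SN.blk D z) (fun j => 60 + (l - 1 - j)) := by
    funext i m
    unfold LamF
    rw [← hl']
  rw [hLF]
  rw [SN.prod_blk' (fun p => p) (by omega : 1 ≤ D) hl] at hS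
  exact { hS with tame := fun i => (hS.tame i).mono (SN.level (by omega) hz hlev)
                  one_le := one_le_pow₀ (by
                    have : 1 ≤ z := by omega
                    exact_mod_cast this) }

end Pool.Agent.H.MP_711652_nt.G2
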