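import Pool.Agent.H.MP_711652_nt.LG.MLC

/-!
# GAP2, NumS1: the normalising sum of the big primes
-/

set_option autoImplicit false

namespace Pool.Agent.H.MP_711652_nt.G2

open Finset Pool.Agent.H.MP_711652_nt.LG

/-- the primes of `(z, B]` -/
def Pbig (z B : ℕ) : Finset ℕ := (Ioc z B).filter Nat.Prime

theorem mem_Pbig {z B p : ℕ} : p ∈ Pbig z B ↔ z < p ∧ p ≤ B ∧ p.Prime := by
  unfold Pbig
  rw [mem_filter, mem_Ioc, and_assoc]

theorem Pbig_prime {z B : ℕ} : ∀ p ∈ Pbig z B, p.Prime := fun _ hp => (mem_Pbig.1 hp).2.2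

theorem Pbig_lt {z B : ℕ} : ∀ p ∈ Pbig z B, z < p := fun _ hp => (mem_Pbig.1 hp).1

theorem Pbig_le {z B : ℕ} : ∀ p ∈ Pbig z B, p ≤ B := fun _ hp => (mem_Pbig.1 hp).2.1

theorem numS1_QQ (z B : ℕ) : _root_.LG.QQ z B = QQ (Pbig z B) B := by
  ext S
  rw [_root_.LG.mem_QQ, mem_QQ, mlc_pr, Nat.cast_le, Finset.nonempty_iff_ne_empty]
  change S ⊆ Pbig z B ∧ _ ↔ _
  tauto

theorem numS1_S1 (z B : ℕ) : _root_.LG.S1 z B = S1 (Pbig z B) B := by
  rw [_root_.LG.S1, S1, numS1_QQ z B]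
  refine Finset.sum_congr rfl fun S hS => ?_
  rw [mem_QQ] at hS
  rw [mlc_ph fun p hp => Pbig_prime p (hS.2.1 hp), mlc_pr]

/-- `S1 ≥ c' n / log z`. -/
theorem S1_big_ge {z B n : ℕ} (hz : 2 ≤ z) (hB : z ^ (2 ^ n) ≤ B)
    (hn : 8 * Real.exp 21 ≤ n) :
    Real.exp (-21) / 8 * (n / Real.log z) ≤ S1 (Pbig z B) B := by
  have h1 := _root_.LG.S1_ge_gen hz hB
  rw [numS1_S1] at h1
  have h2 := _root_.LG.VV_ge hz
  have hz1 : (1 : ℝ) < z := by exact_mod_cast hz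
  have hlz : 0 < Real.log z := Real.log_pos hz1
  refine le_trans ?_ h1
  have h3 : (n : ℝ) * (Real.exp (-21) / Real.log z) ≤ n * _root_.LG.VV z :=
    mul_le_mul_of_nonneg_left h2 (Nat.cast_nonneg n)
  have h4 : 1 ≤ Real.exp (-21) / 8 * n := by
    have h5 : Real.exp (-21) * (8 * Real.exp 21) ≤ Real.exp (-21) * n :=
      mul_le_mul_of_nonneg_left hn (Real.exp_pos _).le
    have h6 : Real.exp (-21) * Real.exp 21 = 1 := by
      rw [← Real.exp_add]
      norm_num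
    nlinarith [h5, h6]
  have h5 : 1 / Real.log z ≤ Real.exp (-21) / 8 * n / Real.log z :=
    (div_le_div_iff_of_pos_right hlz).2 h4
  have h6 : Real.exp (-21) / 8 * (n / Real.log z) =
      (n : ℝ) * (Real.exp (-21) / Real.log z) / 4 - Real.exp (-21) / 8 * n / Real.log z := by
    ring
  rw [h6]
  linarith

theorem S1_big_pos {z B n : ℕ} (hz : 2 ≤ z) (hB : z ^ (2 ^ n) ≤ B)
    (hn : 8 * Real.exp 21 ≤ n) : 0 < S1 (Pbig z B) B := by
  have hz1 : (1 : ℝ) < z := by exact_mod_cast hz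
  have hlz : 0 < Real.log z := Real.log_pos hz1
  have hn0 : (0 : ℝ) < n := lt_of_lt_of_le (by positivity) hn
  exact lt_of_lt_of_le (by positivity) (S1_big_ge hz hB hn)

/-- The constant of the weights is at most `C log z / n`. -/
theorem c_big_le {z B n : ℕ} (hz : 2 ≤ z) (hB : z ^ (2 ^ n) ≤ B)
    (hn : 8 * Real.exp 21 ≤ n) :
    1 / S1 (Pbig z B) B ≤ 8 * Real.exp 21 * Real.log z / n := by
  have hz1 : (1 : ℝ) < z := by exact_mod_cast hz
  have hlz : 0 < Real.log z := Real.log_pos hz1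
  have hn0 : (0 : ℝ) < n := lt_of_lt_of_le (by positivity) hn
  have h1 := one_div_le_one_div_of_le (by positivity) (S1_big_ge hz hB hn)
  refine h1.trans (le_of_eq ?_)
  rw [Real.exp_neg]
  field_simp

theorem c_big_nonneg (z B : ℕ) : 0 ≤ 1 / S1 (Pbig z B) B := by
  refine div_nonneg zero_le_one (Finset.sum_nonneg fun T _ => ?_)
  exact div_nonneg zero_le_one (mul_nonneg (Nat.cast_nonneg _) (Real.log_natCast_nonneg _))

/-- The constant of the weights is at most `log z`. -/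
theorem c_big_le_log {z B n : ℕ} (hz : 2 ≤ z) (hB : z ^ (2 ^ n) ≤ B)
    (hn : 8 * Real.exp 21 ≤ n) : 1 / S1 (Pbig z B) B ≤ Real.log z := by
  have hz1 : (1 : ℝ) < z := by exact_mod_cast hz
  have hlz : 0 < Real.log z := Real.log_pos hz1
  have hn0 : (0 : ℝ) < n := lt_of_lt_of_le (by positivity) hn
  refine (c_big_le hz hB hn).trans ?_
  rw [div_le_iff₀ hn0, mul_comm]
  exact mul_le_mul_of_nonneg_left hn hlz.le

/-- The hypothesis `hlog` of the lemmas of `MLA`. -/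
theorem c_big_le_log_mem {z B n : ℕ} (hz : 2 ≤ z) (hB : z ^ (2 ^ n) ≤ B)
    (hn : 8 * Real.exp 21 ≤ n) : ∀ q ∈ Pbig z B, 1 / S1 (Pbig z B) B ≤ Real.log q := by
  intro q hq
  refine (c_big_le_log hz hB hn).trans (Real.log_le_log ?_ ?_)
  · exact_mod_cast (by omega : 0 < z)
  · exact_mod_cast (Pbig_lt q hq).le

/-- The weights of the big primes have sum 1. -/
theorem sum_gw_big {z B n : ℕ} (hz : 2 ≤ z) (hB : z ^ (2 ^ n) ≤ B)
    (hn : 8 * Real.exp 21 ≤ n) :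
    ∑ T ∈ QQ (Pbig z B) B, gw (1 / S1 (Pbig z B) B) (∏ p ∈ T, p) = 1 :=
  sum_gw Pbig_prime B (S1_big_pos hz hB hn)

end Pool.Agent.H.MP_711652_nt.G2
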