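import Pool.Agent.H.MP_711652_nt.G2.Defs
import Pool.Agent.H.MP_711652_nt.G2.NumS1

/-!
# GAP2, NumBig: the hypotheses `Big` for the primes of `(z, B]`
-/

set_option autoImplicit false

namespace Pool.Agent.H.MP_711652_nt.G2

open Finset Pool.Agent.H.MP_711652_nt.LG

theorem Pbig_level {z B Y K : ℕ} (hY : Y < z ^ (K + 1)) :
    ∀ T ⊆ Pbig z B, ∏ p ∈ T, p ≤ Y → T.card ≤ K := by
  intro T hT h
  have h1 : z ^ T.card ≤ ∏ p ∈ T, p := by
    refine prod_const z (s := T) ▸ prod_le_prod (fun _ _ => Nat.zero_le _) fun p hp => ?_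
    exact (Pbig_lt p (hT hp)).le
  by_contra h2
  have h3 : K + 1 ≤ T.card := by omega
  rcases Nat.eq_zero_or_pos z with hz | hz
  · rw [hz, zero_pow (by omega)] at hY
    omega
  · have h4 : z ^ (K + 1) ≤ z ^ T.card := Nat.pow_le_pow_right hz h3
    omega

/-- The primes of `(z, B]` satisfy `Big` with `D = z` and `c = 1 / S1`. -/
theorem big_num {z B Y K n : ℕ} (hz : 3 ≤ z) (hB : z ^ (2 ^ n) ≤ B)
    (hn : 8 * Real.exp 21 ≤ n) (hY1 : 1 ≤ Y) (hY : Y < z ^ (K + 1)) :
    Big (Pbig z B) B Y K (1 / S1 (Pbig z B) B) z where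
  prime := Pbig_prime
  hB := (Nat.one_le_pow _ _ (by omega)).trans hB
  hY := hY1
  hc := c_big_nonneg z B
  hD := by exact_mod_cast hz
  ge := fun p hp => by exact_mod_cast (Pbig_lt p hp).le
  clog := c_big_le_log (by omega) hB hn
  sum := sum_gw_big (by omega) hB hn
  level := Pbig_level hY

/-- The big primes do not divide the product of the small ones. -/
theorem Pbig_not_dvd {D z B : ℕ} : ∀ p ∈ Pbig z B, ¬ p ∣ ∏ q ∈ (Ioc D z).filter Nat.Prime, q := by
  intro p hp h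
  have hpp := Pbig_prime p hp
  rw [Prime.dvd_finset_prod_iff hpp.prime] at h
  obtain ⟨q, hq, h2⟩ := h
  rw [mem_filter, mem_Ioc] at hq
  have h3 := (Nat.prime_dvd_prime_iff_eq hpp hq.2).1 h2
  have h4 := Pbig_lt p hp
  omega

/-- The number of big primes hitting a position: if `A p i m` implies `p ∣ a i m` with `0 < a i m ≤ L` and
`L < z ^ (Om + 1)`, then at most `Om` primes of `(z, B]` hit. -/
theorem Pbig_hits {z B Om a L : ℕ} (ha : 0 < a) (haL : a ≤ L) (hL : L < z ^ (Om + 1)) :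
    {p | p ∈ Pbig z B ∧ p ∣ a}.ncard ≤ Om := by
  classical
  have h1 : {p | p ∈ Pbig z B ∧ p ∣ a} = ((Pbig z B).filter (fun p => p ∣ a) : Set ℕ) := by
    ext p
    simp
  rw [h1, Set.ncard_coe_finset]
  refine Pbig_level (K := Om) (Y := L) hL _ (filter_subset _ _) ?_
  refine le_trans ?_ haL
  refine Nat.le_of_dvd ha ?_
  refine Finset.prod_primes_dvd a (fun p hp => ?_) fun p hp => (mem_filter.1 hp).2
  exact (Pbig_prime p (mem_filter.1 hp).1).prime

end Pool.Agent.H.MP_711652_nt.G2
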