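import Pool.Agent.H.MP_711652_nt.LG.Diag4

/-!
# The tail bound with a weight on the used positions
-/

set_option autoImplicit false

namespace Pool.Agent.H.MP_711652_nt.G2

open Finset Pool.Agent.H.MP_711652_nt.LG

variable {ι : Type*} [Fintype ι] [DecidableEq ι]

/-- The positions used by `σ`. -/
def used (P : Finset ℕ) (σ : P → Option ι) : Finset ι :=
  univ.filter (fun i => ∃ p, σ p = some i)

theorem mem_used (P : Finset ℕ) (σ : P → Option ι) (i : ι) :
    i ∈ used P σ ↔ ∃ p, σ p = some i := by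
  simp [used]

/-- `∑_σ [DD σ ≤ Y] ∏_i u_i(r_i(σ)) * e (used σ)`. -/
noncomputable def SE (P : Finset ℕ) (Y : ℕ) (e : Finset ι → ℝ) (u : ι → ℕ → ℝ) : ℝ :=
  ∑ σ : P → Option ι, if DD P σ ≤ Y then (∏ i, u i (rr P σ i)) * e (used P σ) else 0

theorem used_c (P : Finset ℕ) (i : ι) (σ : P → Option ι) :
    used P (tilt1_c P i σ) = (used P σ).erase i := by
  ext j
  rw [mem_used, mem_erase, mem_used]
  constructor
  · rintro ⟨p, hp⟩
    by_cases h : σ p = some i
    · rw [show tilt1_c P i σ p = none from if_pos h] at hp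
      simp at hp
    · rw [show tilt1_c P i σ p = σ p from if_neg h] at hp
      refine ⟨?_, p, hp⟩
      rintro rfl
      exact h hp
  · rintro ⟨hj, p, hp⟩
    refine ⟨p, ?_⟩
    have h : ¬ σ p = some i := by
      rw [hp]
      intro h
      exact hj (Option.some.inj h)
    rw [show tilt1_c P i σ p = σ p from if_neg h]
    exact hp

theorem mem_used_of_rr (P : Finset ℕ) (σ : P → Option ι) (i : ι) (h : rr P σ i ≠ 1) :
    i ∈ used P σ := by
  rw [mem_used]
  by_contra hc
  push Not at hc
  exact h (prod_eq_one fun p _ => if_neg (hc p))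

theorem one_step_e (P : Finset ℕ) (hP : ∀ p ∈ P, p.Prime) (Y : ℕ) (e : Finset ι → ℝ)
    (he0 : ∀ S, 0 ≤ e S) (v : ℝ) (hv : 0 ≤ v) (K : ℕ)
    (he : ∀ S i, i ∉ S → S.card < K → e (insert i S) ≤ v * e S)
    (hK : ∀ σ : P → Option ι, DD P σ ≤ Y → (used P σ).card ≤ K)
    (i : ι) (u : ι → ℕ → ℝ) (hu : ∀ j n, 0 ≤ u j n) (hu1 : u i 1 = 0) :
    SE P Y e u ≤ (v * ∑ T ∈ P.powerset, u i (∏ p ∈ T, p)) * SE P Y e (Function.update u i del) := by
  classical
  have hv' : ∀ j n, 0 ≤ Function.update u i del j n := by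
    intro j n
    by_cases hj : j = i
    · subst hj
      rw [Function.update_self, del]
      split_ifs <;> norm_num
    · rw [Function.update_of_ne hj]; exact hu j n
  set F : Finset ℕ × (P → Option ι) → ℝ := fun x => u i (∏ p ∈ x.1, p) *
    (v * (if DD P x.2 ≤ Y then (∏ j, Function.update u i del j (rr P x.2 j)) * e (used P x.2)
      else 0)) with hF
  have hF0 : ∀ x, 0 ≤ F x := by
    intro x
    refine mul_nonneg (hu _ _) (mul_nonneg hv ?_)
    split_ifs
    · exact mul_nonneg (Finset.prod_nonneg fun j _ => hv' _ _) (he0 _)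
    · exact le_rfl
  have hR : (v * ∑ T ∈ P.powerset, u i (∏ p ∈ T, p)) * SE P Y e (Function.update u i del) =
      ∑ x ∈ P.powerset ×ˢ (univ : Finset (P → Option ι)), F x := by
    rw [SE, mul_comm v, mul_assoc, mul_sum, Finset.sum_mul_sum, Finset.sum_product]
  rw [hR]
  have hinj : Function.Injective fun σ : P → Option ι => (tilt1_T P i σ, tilt1_c P i σ) := by
    intro σ τ h
    simp only [Prod.mk.injEq] at h
    exact tilt1_inj P i σ τ h.1 h.2
  calc SE P Y e u ≤ ∑ σ : P → Option ι, F (tilt1_T P i σ, tilt1_c P i σ) := by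
        rw [SE]
        refine Finset.sum_le_sum fun σ _ => ?_
        by_cases h : DD P σ ≤ Y
        · rw [if_pos h]
          by_cases h1 : rr P σ i = 1
          · rw [← Finset.mul_prod_erase univ _ (Finset.mem_univ i), h1, hu1, zero_mul, zero_mul]
            exact hF0 _
          · simp only [hF]
            rw [if_pos ((tilt1_DD P hP i σ).trans h), ← tilt1_rr_self]
            rw [← Finset.mul_prod_erase univ _ (Finset.mem_univ i),
              ← Finset.mul_prod_erase univ (fun j => Function.update u i del j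
                (rr P (tilt1_c P i σ) j)) (Finset.mem_univ i), Function.update_self,
              tilt1_rr_c]
            rw [del, if_pos rfl, one_mul]
            have h2 : ∏ j ∈ univ.erase i, Function.update u i del j (rr P (tilt1_c P i σ) j) =
                ∏ j ∈ univ.erase i, u j (rr P σ j) := Finset.prod_congr rfl fun j hj => by
              have hji := Finset.ne_of_mem_erase hj
              rw [Function.update_of_ne hji, tilt1_rr_ne P i j hji]
            rw [h2]
            have hi := mem_used_of_rr P σ i h1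
            have h3 : insert i (used P (tilt1_c P i σ)) = used P σ := by
              rw [used_c, insert_erase hi]
            have h4 : i ∉ used P (tilt1_c P i σ) := by
              rw [used_c]
              exact notMem_erase i _
            have h5 : (used P (tilt1_c P i σ)).card < K := by
              refine lt_of_lt_of_le ?_ (hK σ h)
              rw [used_c]
              exact card_erase_lt_of_mem hi
            have h6 := he _ i h4 h5
            rw [h3] at h6
            have h7 : 0 ≤ u i (rr P σ i) * ∏ j ∈ univ.erase i, u j (rr P σ j) :=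
              mul_nonneg (hu _ _) (prod_nonneg fun j _ => hu _ _)
            calc (u i (rr P σ i) * ∏ j ∈ univ.erase i, u j (rr P σ j)) * e (used P σ)
                ≤ (u i (rr P σ i) * ∏ j ∈ univ.erase i, u j (rr P σ j)) *
                    (v * e (used P (tilt1_c P i σ))) := mul_le_mul_of_nonneg_left h6 h7
              _ = _ := by ring
        · rw [if_neg h]; exact hF0 _
    _ = ∑ x ∈ (univ : Finset (P → Option ι)).image
          fun σ => (tilt1_T P i σ, tilt1_c P i σ), F x := by
        rw [Finset.sum_image fun σ _ τ _ h => hinj h]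
    _ ≤ _ := by
        refine Finset.sum_le_sum_of_subset_of_nonneg ?_ fun x _ _ => hF0 x
        intro x hx
        obtain ⟨σ, -, rfl⟩ := Finset.mem_image.1 hx
        exact Finset.mem_product.2 ⟨Finset.mem_powerset.2 (tilt1_sub P i σ), Finset.mem_univ _⟩

theorem SE_mono (P : Finset ℕ) (Y : ℕ) (e : Finset ι → ℝ) (he0 : ∀ S, 0 ≤ e S) (u v : ι → ℕ → ℝ)
    (hu : ∀ j n, 0 ≤ u j n) (huv : ∀ j n, u j n ≤ v j n) : SE P Y e u ≤ SE P Y e v := by
  rw [SE, SE]
  refine Finset.sum_le_sum fun σ _ => ?_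
  split_ifs
  · exact mul_le_mul_of_nonneg_right
      (Finset.prod_le_prod (fun j _ => hu _ _) fun j _ => huv _ _) (he0 _)
  · exact le_rfl

theorem SE_add (P : Finset ℕ) (Y : ℕ) (e : Finset ι → ℝ) (u : ι → ℕ → ℝ) (i : ι) (a b : ℕ → ℝ) :
    SE P Y e (Function.update u i fun n => a n + b n) =
      SE P Y e (Function.update u i a) + SE P Y e (Function.update u i b) := by
  classical
  rw [SE, SE, SE, ← Finset.sum_add_distrib]
  refine Finset.sum_congr rfl fun σ _ => ?_
  split_ifs
  · rw [← Finset.mul_prod_erase univ _ (Finset.mem_univ i),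
      ← Finset.mul_prod_erase univ (fun j => Function.update u i a j (rr P σ j))
        (Finset.mem_univ i),
      ← Finset.mul_prod_erase univ (fun j => Function.update u i b j (rr P σ j))
        (Finset.mem_univ i), Function.update_self, Function.update_self, Function.update_self]
    have h : ∀ c : ℕ → ℝ, ∏ j ∈ univ.erase i, Function.update u i c j (rr P σ j) =
        ∏ j ∈ univ.erase i, u j (rr P σ j) := fun c =>
      Finset.prod_congr rfl fun j hj => by rw [Function.update_of_ne (Finset.ne_of_mem_erase hj)]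
    rw [h, h, h]
    ring
  · rw [add_zero]

/-- **Tilt inequality** with the weight `e` on the used positions. -/
theorem tilt_e (P : Finset ℕ) (hP : ∀ p ∈ P, p.Prime) (Y : ℕ) (e : Finset ι → ℝ)
    (he0 : ∀ S, 0 ≤ e S) (v : ℝ) (hv : 0 ≤ v) (K : ℕ)
    (he : ∀ S i, i ∉ S → S.card < K → e (insert i S) ≤ v * e S)
    (hK : ∀ σ : P → Option ι, DD P σ ≤ Y → (used P σ).card ≤ K) (w d : ι → ℕ → ℝ)
    (hw : ∀ i n, 0 ≤ w i n) (hd : ∀ i n, 0 ≤ d i n) (hw1 : ∀ i, w i 1 = 1) (hd1 : ∀ i, d i 1 = 0) :
    SE P Y e (fun i n => w i n * (1 + d i n)) ≤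
      (∏ i, (1 + v * ∑ T ∈ P.powerset, w i (∏ p ∈ T, p) * d i (∏ p ∈ T, p))) * SE P Y e w := by
  classical
  have hw' : ∀ s j n, 0 ≤ tilt2_w s w d j n := by
    intro s j n
    rw [tilt2_w]
    split_ifs
    · exact mul_nonneg (hw _ _) (by linarith [hd j n])
    · exact hw j n
  have hS : ∀ i, 0 ≤ v * ∑ T ∈ P.powerset, w i (∏ p ∈ T, p) * d i (∏ p ∈ T, p) := fun i =>
    mul_nonneg hv (Finset.sum_nonneg fun T _ => mul_nonneg (hw _ _) (hd _ _))
  have key : ∀ s : Finset ι, SE P Y e (tilt2_w s w d) ≤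
      (∏ i ∈ s, (1 + v * ∑ T ∈ P.powerset, w i (∏ p ∈ T, p) * d i (∏ p ∈ T, p))) * SE P Y e w := by
    intro s
    induction s using Finset.induction_on with
    | empty =>
      have : tilt2_w ∅ w d = w := by
        funext i n
        rw [tilt2_w, if_neg (notMem_empty i)]
      rw [this, Finset.prod_empty, one_mul]
    | insert i s hi ih =>
      have e1 : tilt2_w (insert i s) w d =
          Function.update (tilt2_w s w d) i fun n => w i n + w i n * d i n := by
        funext j n
        by_cases hj : j = i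
        · subst hj
          rw [Function.update_self, tilt2_w, if_pos (Finset.mem_insert_self _ _)]
          ring
        · rw [Function.update_of_ne hj, tilt2_w, tilt2_w]
          simp only [Finset.mem_insert, hj, false_or]
      have e2 : Function.update (tilt2_w s w d) i (fun n => w i n) = tilt2_w s w d := by
        have : (fun n => w i n) = tilt2_w s w d i := by
          funext n
          rw [tilt2_w, if_neg hi]
        rw [this, Function.update_eq_self]
      have h1 := one_step_e P hP Y e he0 v hv K he hK i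
        (Function.update (tilt2_w s w d) i fun n => w i n * d i n) (by
          intro j n
          by_cases hj : j = i
          · subst hj
            rw [Function.update_self]
            exact mul_nonneg (hw _ _) (hd _ _)
          · rw [Function.update_of_ne hj]
            exact hw' s j n) (by rw [Function.update_self, hd1, mul_zero])
      rw [Function.update_self, Function.update_idem] at h1
      have h2 : SE P Y e (Function.update (tilt2_w s w d) i del) ≤ SE P Y e (tilt2_w s w d) := by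
        refine SE_mono P Y e he0 _ _ ?_ ?_
        · intro j n
          by_cases hj : j = i
          · subst hj
            rw [Function.update_self]
            exact tilt2_del_nonneg n
          · rw [Function.update_of_ne hj]
            exact hw' s j n
        · intro j n
          by_cases hj : j = i
          · subst hj
            rw [Function.update_self, tilt2_w, if_neg hi, del]
            split_ifs with hn
            · rw [hn, hw1]
            · exact hw _ _
          · rw [Function.update_of_ne hj]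
      rw [e1, SE_add, e2, Finset.prod_insert hi]
      have h3 := h1.trans (mul_le_mul_of_nonneg_left h2 (hS i))
      calc SE P Y e (tilt2_w s w d) +
            SE P Y e (Function.update (tilt2_w s w d) i fun n => w i n * d i n) ≤
            SE P Y e (tilt2_w s w d) +
              (v * ∑ T ∈ P.powerset, w i (∏ p ∈ T, p) * d i (∏ p ∈ T, p)) *
              SE P Y e (tilt2_w s w d) := by linarith
        _ = (1 + v * ∑ T ∈ P.powerset, w i (∏ p ∈ T, p) * d i (∏ p ∈ T, p)) *
              SE P Y e (tilt2_w s w d) := by ring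
        _ ≤ _ := by
            rw [mul_assoc]
            exact mul_le_mul_of_nonneg_left ih (by linarith [hS i])
  have h := key univ
  have e3 : tilt2_w univ w d = fun i n => w i n * (1 + d i n) := by
    funext i n
    rw [tilt2_w, if_pos (mem_univ i)]
  rw [e3] at h
  exact h

/-- the weighted diagonal sum as an `SE` -/
theorem tailE_eq (P : Finset ℕ) (hP : ∀ p ∈ P, p.Prime) (c : ι → ℕ → ℝ) (Y : ℕ) (s : ℝ)
    (e : Finset ι → ℝ) :
    ∑ σ : P → Option ι, cf P c Y σ ^ 2 * ph P σ * e (used P σ) * (DD P σ : ℝ) ^ s =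
      SE P Y e (fun i n => c i n ^ 2 * (Nat.totient n : ℝ) * (1 + diag4_d s n)) := by
  unfold SE
  refine Finset.sum_congr rfl fun σ _ => ?_
  unfold cf
  by_cases h : DD P σ ≤ Y
  · rw [if_pos h, if_pos h, ph_eq_prod P hP σ, DD_eq_prod_rr P σ, ← Finset.prod_pow,
      Nat.cast_prod, ← Real.finsetProd_rpow _ _ (fun i _ => Nat.cast_nonneg _)]
    have h1 : (∏ i, c i (rr P σ i) ^ 2) * (∏ i, (Nat.totient (rr P σ i) : ℝ)) * e (used P σ) *
        ∏ i, ((rr P σ i : ℕ) : ℝ) ^ s = ((∏ i, c i (rr P σ i) ^ 2) *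
          (∏ i, (Nat.totient (rr P σ i) : ℝ)) * ∏ i, ((rr P σ i : ℕ) : ℝ) ^ s) * e (used P σ) := by
      ring
    rw [h1, ← Finset.prod_mul_distrib, ← Finset.prod_mul_distrib]
    congr 1
    refine Finset.prod_congr rfl fun i _ => ?_
    show _ = c i (rr P σ i) ^ 2 * (Nat.totient (rr P σ i) : ℝ) * (1 + diag4_d s (rr P σ i))
    rw [diag4_one_add s _ (diag4_rr_ne P hP σ i)]
  · rw [if_neg h, if_neg h]
    ring

/-- the diagonal sum as an `SE` -/
theorem diagE_eq (P : Finset ℕ) (hP : ∀ p ∈ P, p.Prime) (c : ι → ℕ → ℝ) (Y : ℕ)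
    (e : Finset ι → ℝ) :
    ∑ σ : P → Option ι, cf P c Y σ ^ 2 * ph P σ * e (used P σ) =
      SE P Y e (fun i n => c i n ^ 2 * (Nat.totient n : ℝ)) := by
  unfold SE
  refine Finset.sum_congr rfl fun σ _ => ?_
  unfold cf
  by_cases h : DD P σ ≤ Y
  · rw [if_pos h, if_pos h, ph_eq_prod P hP σ, ← Finset.prod_pow, ← Finset.prod_mul_distrib]
  · rw [if_neg h, if_neg h]
    ring

/-- **The tail bound.**  `e (insert i S) ≤ v * e S` for `i ∉ S`, `card S < K`, and every `σ` with
`DD σ ≤ Y` uses at most `K` positions. -/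
theorem tail_le_e (P : Finset ℕ) (hP : ∀ p ∈ P, p.Prime) (g : ι → ℕ → ℝ)
    (B Y : ℕ) (hB : 1 ≤ B) (hY : 1 ≤ Y) (s : ℝ) (hs : 0 ≤ s) (K' : ℝ)
    (hK' : ∀ i, ∑ T ∈ QQ P B, g i (∏ p ∈ T, p) ^ 2 * (Nat.totient (∏ p ∈ T, p) : ℝ) *
          (((∏ p ∈ T, p : ℕ) : ℝ) ^ s - 1) ≤ K')
    (e : Finset ι → ℝ) (he0 : ∀ S, 0 ≤ e S) (v : ℝ) (hv : 0 ≤ v) (K : ℕ)
    (he : ∀ S i, i ∉ S → S.card < K → e (insert i S) ≤ v * e S)
    (hK : ∀ σ : P → Option ι, DD P σ ≤ Y → (used P σ).card ≤ K) :
    ∑ σ ∈ (univ : Finset (P → Option ι)).filter (fun σ => Y < DD P σ * B),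
        cf P (chi g B) Y σ ^ 2 * ph P σ * e (used P σ) ≤
      ((B : ℝ) / Y) ^ s * Real.exp ((Fintype.card ι : ℝ) * v * K') *
        ∑ σ : P → Option ι, cf P (chi g B) Y σ ^ 2 * ph P σ * e (used P σ) := by
  have hB' : (0 : ℝ) < B := by exact_mod_cast hB
  have hY' : (0 : ℝ) < Y := by exact_mod_cast hY
  have hph : ∀ σ : P → Option ι, 0 ≤ ph P σ := fun σ => diag1_ph_nonneg P hP σ
  have hcf : ∀ σ : P → Option ι, 0 ≤ cf P (chi g B) Y σ ^ 2 * ph P σ * e (used P σ) := fun σ =>
    mul_nonneg (mul_nonneg (sq_nonneg _) (hph σ)) (he0 _)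
  have hBY : 0 ≤ ((B : ℝ) / Y) ^ s := Real.rpow_nonneg (div_nonneg hB'.le hY'.le) s
  -- step 1
  have s1 : ∑ σ ∈ (univ : Finset (P → Option ι)).filter (fun σ => Y < DD P σ * B),
        cf P (chi g B) Y σ ^ 2 * ph P σ * e (used P σ) ≤
      ((B : ℝ) / Y) ^ s *
        ∑ σ : P → Option ι, cf P (chi g B) Y σ ^ 2 * ph P σ * e (used P σ) *
          (DD P σ : ℝ) ^ s := by
    rw [Finset.mul_sum]
    have hnn : ∀ σ : P → Option ι,
        0 ≤ ((B : ℝ) / Y) ^ s * (cf P (chi g B) Y σ ^ 2 * ph P σ * e (used P σ) *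
          (DD P σ : ℝ) ^ s) := fun σ =>
      mul_nonneg hBY (mul_nonneg (hcf σ) (Real.rpow_nonneg (Nat.cast_nonneg _) s))
    refine le_trans (Finset.sum_le_sum fun σ hσ => ?_)
      (Finset.sum_le_sum_of_subset_of_nonneg (Finset.filter_subset _ _) fun σ _ _ => hnn σ)
    have hlt := (Finset.mem_filter.1 hσ).2
    have h1 : (1 : ℝ) ≤ (B : ℝ) / Y * DD P σ := by
      rw [div_mul_eq_mul_div, le_div_iff₀ hY', one_mul]
      have h2 : (Y : ℝ) < (DD P σ * B : ℕ) := by exact_mod_cast hlt
      rw [Nat.cast_mul] at h2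
      linarith [mul_comm (B : ℝ) (DD P σ : ℝ)]
    have h3 : (1 : ℝ) ≤ ((B : ℝ) / Y) ^ s * (DD P σ : ℝ) ^ s := by
      rw [← Real.mul_rpow (div_nonneg hB'.le hY'.le) (Nat.cast_nonneg _)]
      exact Real.one_le_rpow h1 hs
    calc cf P (chi g B) Y σ ^ 2 * ph P σ * e (used P σ) =
          1 * (cf P (chi g B) Y σ ^ 2 * ph P σ * e (used P σ)) := by ring
      _ ≤ (((B : ℝ) / Y) ^ s * (DD P σ : ℝ) ^ s) *
            (cf P (chi g B) Y σ ^ 2 * ph P σ * e (used P σ)) :=
          mul_le_mul_of_nonneg_right h3 (hcf σ)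
      _ = _ := by ring
  -- step 2
  have hw1 : ∀ i : ι, (chi g B i 1 ^ 2 * (Nat.totient 1 : ℝ)) = 1 := fun i => by
    unfold chi chg
    simp
  have hd1 : diag4_d s 1 = 0 := by
    unfold diag4_d
    simp
  have s2 := tilt_e P hP Y e he0 v hv K he hK (fun i n => chi g B i n ^ 2 * (Nat.totient n : ℝ))
    (fun _ n => diag4_d s n) (fun i n => mul_nonneg (sq_nonneg _) (Nat.cast_nonneg _))
    (fun _ n => diag4_d_nonneg s hs n) hw1 (fun _ => hd1)
  have hsum0 : ∀ i : ι, 0 ≤ ∑ T ∈ P.powerset,
      (chi g B i (∏ p ∈ T, p) ^ 2 * (Nat.totient (∏ p ∈ T, p) : ℝ)) * diag4_d s (∏ p ∈ T, p) :=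
    fun i => Finset.sum_nonneg fun T _ =>
      mul_nonneg (mul_nonneg (sq_nonneg _) (Nat.cast_nonneg _)) (diag4_d_nonneg s hs _)
  have hprod : (∏ i : ι, (1 + v * ∑ T ∈ P.powerset,
      (chi g B i (∏ p ∈ T, p) ^ 2 * (Nat.totient (∏ p ∈ T, p) : ℝ)) * diag4_d s (∏ p ∈ T, p))) ≤
      Real.exp ((Fintype.card ι : ℝ) * v * K') := by
    have h1 : (∏ i : ι, (1 + v * ∑ T ∈ P.powerset,
        (chi g B i (∏ p ∈ T, p) ^ 2 * (Nat.totient (∏ p ∈ T, p) : ℝ)) *
          diag4_d s (∏ p ∈ T, p))) ≤ ∏ _i : ι, Real.exp (v * K') := by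
      refine Finset.prod_le_prod (fun i _ => by have := mul_nonneg hv (hsum0 i); linarith)
        fun i _ => ?_
      rw [diag4_sum P hP g B s i]
      have h2 := Real.add_one_le_exp (v * K')
      have h3 := mul_le_mul_of_nonneg_left (hK' i) hv
      linarith
    refine h1.trans (le_of_eq ?_)
    rw [Finset.prod_const, Finset.card_univ, ← Real.exp_nat_mul, mul_assoc]
  have hSS : SE P Y e (fun i n => chi g B i n ^ 2 * (Nat.totient n : ℝ)) =
      ∑ σ : P → Option ι, cf P (chi g B) Y σ ^ 2 * ph P σ * e (used P σ) :=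
    (diagE_eq P hP (chi g B) Y e).symm
  have hSS0 : 0 ≤ SE P Y e (fun i n => chi g B i n ^ 2 * (Nat.totient n : ℝ)) := by
    rw [hSS]
    exact Finset.sum_nonneg fun σ _ => hcf σ
  have s3 : ∑ σ : P → Option ι, cf P (chi g B) Y σ ^ 2 * ph P σ * e (used P σ) *
        (DD P σ : ℝ) ^ s ≤
      Real.exp ((Fintype.card ι : ℝ) * v * K') *
        ∑ σ : P → Option ι, cf P (chi g B) Y σ ^ 2 * ph P σ * e (used P σ) := by
    rw [tailE_eq P hP (chi g B) Y s e, ← hSS]
    exact s2.trans (mul_le_mul_of_nonneg_right hprod hSS0)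
  calc _ ≤ _ := s1
    _ ≤ ((B : ℝ) / Y) ^ s * (Real.exp ((Fintype.card ι : ℝ) * v * K') *
        ∑ σ : P → Option ι, cf P (chi g B) Y σ ^ 2 * ph P σ * e (used P σ)) :=
        mul_le_mul_of_nonneg_left s3 hBY
    _ = _ := by ring

end Pool.Agent.H.MP_711652_nt.G2
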