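import Pool.Agent.H.MP_711652_nt.LG.Mean2

/-!
# GAP2, Tame1: averages over a period and tame functions
-/

set_option autoImplicit false

namespace Pool.Agent.H.MP_711652_nt.G2

open Finset

/-- the average over a period `Q` -/
noncomputable def E (Q : ℕ) (F : ℕ → ℝ) : ℝ := (∑ m ∈ range Q, F m) / Q

/-- `F` is a combination of indicators of residue classes to moduli dividing `Q`, the sum of the absolute values of the
coefficients is at most `c`. -/
inductive Tame (Q : ℕ) : (ℕ → ℝ) → ℝ → Prop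
  | ind (D r : ℕ) (hD : D ∣ Q) : Tame Q (fun m => if m % D = r then 1 else 0) 1
  | zero : Tame Q (fun _ => 0) 0
  | add {F G : ℕ → ℝ} {a b : ℝ} (hF : Tame Q F a) (hG : Tame Q G b) :
      Tame Q (fun m => F m + G m) (a + b)
  | smul {F : ℕ → ℝ} {a : ℝ} (s : ℝ) (hF : Tame Q F a) : Tame Q (fun m => s * F m) (|s| * a)
  | mono {F : ℕ → ℝ} {a b : ℝ} (hF : Tame Q F a) (h : a ≤ b) : Tame Q F b

/-- PROOF. Induction. -/
theorem Tame.nonneg {Q : ℕ} {F : ℕ → ℝ} {a : ℝ} (h : Tame Q F a) : 0 ≤ a := by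
  induction h with
  | ind D r hD => exact zero_le_one
  | zero => exact le_refl 0
  | add _ _ h1 h2 => exact add_nonneg h1 h2
  | smul s _ h1 => exact mul_nonneg (abs_nonneg s) h1
  | mono _ h h1 => exact h1.trans h

theorem Tame.periodic {Q : ℕ} {F : ℕ → ℝ} {a : ℝ} (h : Tame Q F a) : Function.Periodic F Q := by
  induction h with
  | ind D r hD =>
    intro m
    obtain ⟨k, rfl⟩ := hD
    simp only [Nat.add_mul_mod_self_left]
  | zero => intro m; rfl
  | add _ _ h1 h2 => intro m; simp only [h1 m, h2 m]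
  | smul s _ h1 => intro m; simp only [h1 m]
  | mono _ _ h1 => exact h1

theorem Tame.congr {Q : ℕ} {F G : ℕ → ℝ} {a : ℝ} (h : Tame Q F a) (hFG : ∀ m, F m = G m) :
    Tame Q G a := by
  have : F = G := funext hFG
  rwa [this] at h

/-- PROOF. `D = 1`, `r = 0`. -/
theorem Tame.const (Q : ℕ) (s : ℝ) : Tame Q (fun _ => s) |s| := by
  have h := (Tame.ind (Q := Q) 1 0 (one_dvd Q)).smul s
  rw [mul_one] at h
  refine h.congr fun m => ?_
  rw [if_pos (Nat.mod_one m), mul_one]

theorem Tame.of_dvd {Q Q' : ℕ} (hQ : Q ∣ Q') {F : ℕ → ℝ} {a : ℝ} (h : Tame Q F a) :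
    Tame Q' F a := by
  induction h with
  | ind D r hD => exact Tame.ind D r (hD.trans hQ)
  | zero => exact Tame.zero
  | add _ _ h1 h2 => exact h1.add h2
  | smul s _ h1 => exact h1.smul s
  | mono _ h h1 => exact h1.mono h

theorem Tame1_ind_ind {Q D r D' r' : ℕ} (hD : D ∣ Q) (hD' : D' ∣ Q) :
    Tame Q (fun m => (if m % D = r then (1 : ℝ) else 0) * (if m % D' = r' then 1 else 0)) (1 * 1) := by
  by_cases h : ∃ m0, m0 % D = r ∧ m0 % D' = r'
  · obtain ⟨m0, h1, h2⟩ := h
    rw [mul_one]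
    refine (Tame.ind (Nat.lcm D D') (m0 % Nat.lcm D D') (Nat.lcm_dvd hD hD')).congr fun m => ?_
    have key : m % Nat.lcm D D' = m0 % Nat.lcm D D' ↔ (m % D = r ∧ m % D' = r') := by
      subst h1 h2
      constructor
      · intro h
        exact ⟨Nat.ModEq.of_dvd (Nat.dvd_lcm_left D D') h,
          Nat.ModEq.of_dvd (Nat.dvd_lcm_right D D') h⟩
      · rintro ⟨h3, h4⟩
        have h5 : (D : ℤ) ∣ (m0 : ℤ) - m := (Nat.modEq_iff_dvd (n := D)).1 h3
        have h6 : (D' : ℤ) ∣ (m0 : ℤ) - m := (Nat.modEq_iff_dvd (n := D')).1 h4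
        have h7 : ((Nat.lcm D D' : ℕ) : ℤ) ∣ (m0 : ℤ) - m := by
          have := Int.coe_lcm_dvd h5 h6
          simpa [Int.lcm] using this
        exact (Nat.modEq_iff_dvd (n := Nat.lcm D D')).2 h7
    by_cases h3 : m % D = r
    · by_cases h4 : m % D' = r'
      · rw [if_pos h3, if_pos h4, if_pos (key.2 ⟨h3, h4⟩), mul_one]
      · rw [if_pos h3, if_neg h4, if_neg (fun h => h4 (key.1 h).2), mul_zero]
    · rw [if_neg h3, if_neg (fun h => h3 (key.1 h).1), zero_mul]
  · refine (Tame.zero.mono (b := 1 * 1) (by norm_num)).congr fun m => ?_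
    by_cases h3 : m % D = r
    · by_cases h4 : m % D' = r'
      · exact absurd ⟨m, h3, h4⟩ h
      · rw [if_neg h4, mul_zero]
    · rw [if_neg h3, zero_mul]

theorem Tame1_ind_mul {Q D r : ℕ} (hD : D ∣ Q) {G : ℕ → ℝ} {b : ℝ} (hG : Tame Q G b) :
    Tame Q (fun m => (if m % D = r then (1 : ℝ) else 0) * G m) (1 * b) := by
  induction hG with
  | ind D' r' hD' => exact Tame1_ind_ind hD hD'
  | zero => exact ((Tame.zero).congr fun m => by rw [mul_zero]).mono (by norm_num)
  | add _ _ h1 h2 =>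
    rw [mul_add]
    exact (h1.add h2).congr fun m => by rw [mul_add]
  | @smul F a s _ h1 =>
    rw [show 1 * (|s| * a) = |s| * (1 * a) by ring]
    exact (h1.smul s).congr fun m => by ring
  | mono _ h h1 => exact h1.mono (by linarith)

/-- PROOF. Induction on both; two residue classes mod `D`, `D'` (`r < D`, `r' < D'`, otherwise the function is `0`) meet in the empty set or
in one residue class mod `lcm D D'`, which divides `Q` (`Nat.lcm_dvd`, `Nat.chineseRemainder'`, or: let `m0` be a common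
element; `m` is a common element iff `m ≡ m0` mod `D` and mod `D'` iff `m ≡ m0` mod `lcm`). -/
theorem Tame.mul {Q : ℕ} {F G : ℕ → ℝ} {a b : ℝ} (hF : Tame Q F a) (hG : Tame Q G b) :
    Tame Q (fun m => F m * G m) (a * b) := by
  induction hF with
  | ind D r hD => exact Tame1_ind_mul hD hG
  | zero => exact ((Tame.zero).congr fun m => by rw [zero_mul]).mono (by rw [zero_mul])
  | add _ _ h1 h2 =>
    rw [add_mul]
    exact (h1.add h2).congr fun m => by rw [add_mul]
  | smul s _ h1 =>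
    rw [mul_assoc]
    exact (h1.smul s).congr fun m => by rw [mul_assoc]
  | mono _ h h1 => exact h1.mono (mul_le_mul_of_nonneg_right h hG.nonneg)

theorem Tame.sum {α : Type*} (s : Finset α) {Q : ℕ} {F : α → ℕ → ℝ} {a : α → ℝ}
    (h : ∀ i ∈ s, Tame Q (F i) (a i)) : Tame Q (fun m => ∑ i ∈ s, F i m) (∑ i ∈ s, a i) := by
  classical
  induction s using Finset.induction_on with
  | empty => exact (Tame.zero).congr fun m => by rw [Finset.sum_empty]
  | insert i s hi ih =>
    rw [Finset.sum_insert hi]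
    refine ((h i (Finset.mem_insert_self i s)).add
      (ih fun j hj => h j (Finset.mem_insert_of_mem hj))).congr fun m => ?_
    rw [Finset.sum_insert hi]

theorem Tame.prod {α : Type*} (s : Finset α) {Q : ℕ} {F : α → ℕ → ℝ} {a : α → ℝ}
    (h : ∀ i ∈ s, Tame Q (F i) (a i)) : Tame Q (fun m => ∏ i ∈ s, F i m) (∏ i ∈ s, a i) := by
  classical
  induction s using Finset.induction_on with
  | empty =>
    rw [Finset.prod_empty]
    have h1 := Tame.const Q 1
    rw [abs_one] at h1
    exact h1.congr fun m => by rw [Finset.prod_empty]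
  | insert i s hi ih =>
    rw [Finset.prod_insert hi]
    refine ((h i (Finset.mem_insert_self i s)).mul
      (ih fun j hj => h j (Finset.mem_insert_of_mem hj))).congr fun m => ?_
    rw [Finset.prod_insert hi]

theorem Tame1_count {D r : ℕ} (hD : 0 < D) (hr : r < D) (N : ℕ) :
    ∑ m ∈ range N, (if m % D = r then (1 : ℝ) else 0) =
      (N / D : ℕ) + (if r < N % D then (1 : ℝ) else 0) := by
  have h1 : ∑ m ∈ range N, (if m % D = r then (1 : ℝ) else 0) =
      ((N.count (· ≡ r [MOD D]) : ℕ) : ℝ) := by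
    rw [Nat.count_eq_card_filter_range, Finset.sum_boole]
    congr 2
    apply Finset.filter_congr
    intro m _
    rw [Nat.ModEq, Nat.mod_eq_of_lt hr]
  rw [h1, Nat.count_modEq_card N hD r, Nat.mod_eq_of_lt hr]
  push_cast
  rfl

theorem Tame1_transfer_ind {Q D r : ℕ} (hQ : 0 < Q) (hD : D ∣ Q) (N : ℕ) :
    |∑ m ∈ range N, (if m % D = r then (1 : ℝ) else 0) -
      N * E Q (fun m => if m % D = r then (1 : ℝ) else 0)| ≤ 1 := by
  have hD0 : 0 < D := Nat.pos_of_dvd_of_pos hD hQ
  by_cases hr : r < D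
  · rw [E, Tame1_count hD0 hr, Tame1_count hD0 hr, Nat.mod_eq_zero_of_dvd hD,
      if_neg (Nat.not_lt_zero r), add_zero]
    obtain ⟨k, rfl⟩ := hD
    have hk : 0 < k := Nat.pos_of_ne_zero (by rintro rfl; simp at hQ)
    have hkR : (0 : ℝ) < k := by exact_mod_cast hk
    have hDR : (0 : ℝ) < D := by exact_mod_cast hD0
    rw [Nat.mul_div_cancel_left k hD0]
    have h1 : ((k : ℕ) : ℝ) / ((D * k : ℕ) : ℝ) = 1 / D := by
      push_cast
      field_simp
    rw [h1]
    have h2 : (N : ℝ) = D * ((N / D : ℕ) : ℝ) + ((N % D : ℕ) : ℝ) := by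
      exact_mod_cast (Nat.div_add_mod N D).symm
    have h3 : (N : ℝ) * (1 / D) = ((N / D : ℕ) : ℝ) + ((N % D : ℕ) : ℝ) / D := by
      conv_lhs => rw [h2]
      field_simp
    rw [h3]
    have h4 : ((N % D : ℕ) : ℝ) / D ≤ 1 := by
      rw [div_le_one hDR]
      exact_mod_cast (Nat.mod_lt N hD0).le
    have h5 : 0 ≤ ((N % D : ℕ) : ℝ) / D := by positivity
    rw [abs_le]
    split_ifs with h6
    · constructor <;> linarith
    · constructor <;> linarith
  · have h0 : ∀ m, ¬ m % D = r := by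
      intro m h
      exact hr (h ▸ Nat.mod_lt m hD0)
    have h1 : ∀ M : ℕ, ∑ m ∈ range M, (if m % D = r then (1 : ℝ) else 0) = 0 := by
      intro M
      exact Finset.sum_eq_zero fun m _ => if_neg (h0 m)
    rw [E, h1, h1]
    norm_num

theorem Tame1_E_add (Q : ℕ) (F G : ℕ → ℝ) : E Q (fun m => F m + G m) = E Q F + E Q G := by
  rw [E, E, E, Finset.sum_add_distrib, add_div]

theorem Tame1_E_smul (Q : ℕ) (s : ℝ) (F : ℕ → ℝ) : E Q (fun m => s * F m) = s * E Q F := by
  rw [E, E, ← Finset.mul_sum, mul_div_assoc]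

/-- **Transfer.**  PROOF. Induction; for a residue class `r < D` the number of the `m < N` is `N / D` up to `1`, and `E Q = 1 / D`
(`D ∣ Q`, `Q > 0`); for `r ≥ D` both are `0`. -/
theorem Tame.transfer {Q : ℕ} (hQ : 0 < Q) {F : ℕ → ℝ} {a : ℝ} (h : Tame Q F a) (N : ℕ) :
    |∑ m ∈ range N, F m - N * E Q F| ≤ a := by
  induction h with
  | ind D r hD => exact Tame1_transfer_ind hQ hD N
  | zero =>
    rw [E]
    simp
  | @add F G a b _ _ h1 h2 =>
    rw [Finset.sum_add_distrib, Tame1_E_add]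
    have h3 : ∑ m ∈ range N, F m + ∑ m ∈ range N, G m - N * (E Q F + E Q G) =
        (∑ m ∈ range N, F m - N * E Q F) + (∑ m ∈ range N, G m - N * E Q G) := by ring
    rw [h3]
    exact (abs_add_le _ _).trans (add_le_add h1 h2)
  | @smul F a s _ h1 =>
    rw [← Finset.mul_sum, Tame1_E_smul]
    have h3 : s * ∑ m ∈ range N, F m - N * (s * E Q F) =
        s * (∑ m ∈ range N, F m - N * E Q F) := by ring
    rw [h3, abs_mul]
    exact mul_le_mul_of_nonneg_left h1 (abs_nonneg s)
  | mono _ h h1 => exact h1.trans h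

end Pool.Agent.H.MP_711652_nt.G2
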