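import Pool.Agent.H.MP_711652_nt.G2.F3B
import Pool.Agent.H.MP_711652_nt.G2.TailE
import Pool.Agent.H.MP_711652_nt.G2.Tame1

/-!
# MP_711652_nt, GAP2, F3: the fourth moment, final form (helper62)
-/

set_option autoImplicit false

namespace Pool.Agent.H.MP_711652_nt.G2

open Finset Pool.Agent.H.MP_711652_nt.LG

variable {ι : Type*} [Fintype ι] [DecidableEq ι]

theorem usedF_eq {P : Finset ℕ} (hP : ∀ p ∈ P, p.Prime) (σ : P → Option ι) :
    usedF P σ = used P σ := by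
  ext i
  rw [mem_used, usedF, mem_filter]
  constructor
  · rintro ⟨-, h⟩
    exact (mem_used P σ i).1 (mem_used_of_rr P σ i h)
  · rintro ⟨p, hp⟩
    refine ⟨mem_univ _, fun h => ?_⟩
    have h1 := (f3_dvd_rr hP σ i p).2 hp
    rw [h] at h1
    exact (hP p p.2).one_lt.ne' (Nat.dvd_one.1 h1)

/-- The mean of the fourth powers. -/
theorem f3_mean {Q0 K : ℕ} (hQ0 : 0 < Q0) {Lam : ι → ℕ → ℝ} {v c0 : ℝ} (hc0 : 1 ≤ c0)
    (htame : ∀ i, Tame Q0 (Lam i) c0)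
    (hfour : ∀ U : Finset ι, U.card ≤ 4 * K →
      E Q0 (fun m => ∏ k ∈ U, Lam k m ^ 4) ≤ v ^ U.card) (N : ℕ) (U : Finset ι)
    (hU : U.card ≤ 4 * K) :
    ∑ m ∈ range N, ∏ i ∈ U, Lam i m ^ 4 ≤ N * v ^ U.card + c0 ^ (16 * K) := by
  have h1 : ∀ i ∈ U, Tame Q0 (fun m => Lam i m ^ 4) (c0 ^ 4) := by
    intro i _
    have h2 := ((htame i).mul (htame i)).mul ((htame i).mul (htame i))
    have e : c0 * c0 * (c0 * c0) = c0 ^ 4 := by ring
    rw [e] at h2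
    exact h2.congr fun m => by ring
  have h2 := (Tame.prod U h1).transfer hQ0 N
  rw [Finset.prod_const, ← pow_mul] at h2
  have h3 := (abs_le.1 h2).2
  have h4 : (N : ℝ) * E Q0 (fun m => ∏ k ∈ U, Lam k m ^ 4) ≤ N * v ^ U.card :=
    mul_le_mul_of_nonneg_left (hfour U hU) (Nat.cast_nonneg _)
  have h5 : c0 ^ (4 * U.card) ≤ c0 ^ (16 * K) := pow_le_pow_right₀ hc0 (by omega)
  linarith

open Classical in
/-- **F3.** -/
theorem f3_final {P : Finset ℕ} (hP : ∀ p ∈ P, p.Prime) (A : ℕ → ι → ℕ → Prop)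
    (B Y K Om N : ℕ) {c : ℝ} (hc : 0 ≤ c) (hsum : ∑ T ∈ QQ P B, gw c (∏ p ∈ T, p) = 1)
    (hlog : ∀ q ∈ P, c ≤ Real.log q)
    (hOm : ∀ i, ∀ m < N, (P.filter (fun p => A p i m)).card ≤ Om)
    (hK : ∀ σ : P → Option ι, DD P σ ≤ Y → (used P σ).card ≤ K)
    {Q0 : ℕ} (hQ0 : 0 < Q0) {Lam : ι → ℕ → ℝ} {v c0 : ℝ} (hv : 0 ≤ v) (hc0 : 1 ≤ c0)
    (hint : ∀ i m, ∃ z : ℤ, Lam i m = z) (htame : ∀ i, Tame Q0 (Lam i) c0)
    (hfour : ∀ U : Finset ι, U.card ≤ 4 * K →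
      E Q0 (fun m => ∏ k ∈ U, Lam k m ^ 4) ≤ v ^ U.card) :
    ∑ m ∈ range N, (∑ σ : P → Option ι, cf P (chi (fun _ : ι => gw c) B) Y σ * Phi P A σ m *
        ∏ i ∈ used P σ, Lam i m) ^ 4 ≤
      (16 * 2 ^ (Om + 1)) ^ (4 * K) *
        (N * Real.exp (Fintype.card ι * v) + 2 ^ Fintype.card ι * c0 ^ (16 * K)) := by
  choose lam hlam using hint
  refine f3_moment hP A B Y K Om N hc hsum hlog (fun i m => P.filter (fun p => A p i m))
    (fun i m => filter_subset _ _) (fun i m _ p hp hA => mem_filter.2 ⟨hp, hA⟩) hOm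
    (fun σ hσ => by rw [usedF_eq hP]; exact hK σ hσ) lam hv (by positivity) ?_ _ ?_
  · intro U hU
    have h1 := f3_mean hQ0 hc0 htame hfour N U hU
    simpa only [hlam] using h1
  · intro m _
    refine (abs_sum_le_sum_abs _ _).trans (sum_le_sum fun σ _ => ?_)
    rw [abs_mul, abs_mul, abs_prod, usedF_eq hP]
    simp only [hlam]
    exact le_rfl

/-- The pointwise bound for the sums themselves. -/
theorem f3_abs_le {P : Finset ℕ} (hP : ∀ p ∈ P, p.Prime) (A : ℕ → ι → ℕ → Prop) (m : ℕ)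
    (B Y K Om : ℕ) {c : ℝ} (hc : 0 ≤ c) (hsum : ∑ T ∈ QQ P B, gw c (∏ p ∈ T, p) = 1)
    (hlog : ∀ q ∈ P, c ≤ Real.log q) (H : ι → Finset ℕ) (hH : ∀ i, H i ⊆ P)
    (hHA : ∀ i, ∀ p ∈ P, A p i m → p ∈ H i) (hOm : ∀ i, (H i).card ≤ Om)
    (hK : ∀ σ : P → Option ι, DD P σ ≤ Y → (used P σ).card ≤ K) (lam : ι → ℝ) :
    |∑ σ : P → Option ι, cf P (chi (fun _ : ι => gw c) B) Y σ * Phi P A σ m *
      ∏ i ∈ used P σ, lam i| ≤
      ∑ S ∈ (univ : Finset (Finset ι)).filter (fun S => S.card ≤ K),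
        ∏ i ∈ S, (2 ^ (Om + 1) * |lam i|) := by
  refine le_trans ?_ (f3_pointwise hP A m B Y K Om hc hsum hlog H hH hHA hOm
    (fun σ hσ => by rw [usedF_eq hP]; exact hK σ hσ) lam)
  refine (abs_sum_le_sum_abs _ _).trans (sum_le_sum fun σ _ => ?_)
  rw [abs_mul, abs_mul, abs_prod, usedF_eq hP]

end Pool.Agent.H.MP_711652_nt.G2
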