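import Pool.Agent.H.MP_711652_nt.G2.F2
import Pool.Agent.H.MP_711652_nt.G2.F3C

/-!
# GAP2, Defs: the big primes, the functions `Pw` and the diagonal `Mw`
-/

set_option autoImplicit false

namespace Pool.Agent.H.MP_711652_nt.G2

open Finset Pool.Agent.H.MP_711652_nt.LG

variable {ι : Type*} [Fintype ι] [DecidableEq ι]

/-- The hypotheses on the set `P` of the big primes: all are `≥ D`; the weight `gw c` has total mass 1 on the products `≤ B`;
a product of primes of `P` which is `≤ Y` has at most `K` factors. -/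
structure Big (P : Finset ℕ) (B Y K : ℕ) (c D : ℝ) : Prop where
  prime : ∀ p ∈ P, p.Prime
  hB : 1 ≤ B
  hY : 1 ≤ Y
  hc : 0 ≤ c
  hD : 3 ≤ D
  ge : ∀ p ∈ P, D ≤ (p : ℝ)
  clog : c ≤ Real.log D
  sum : ∑ T ∈ QQ P B, gw c (∏ p ∈ T, p) = 1
  level : ∀ T ⊆ P, ∏ p ∈ T, p ≤ Y → T.card ≤ K

/-- `Ψ_w`: the sifting function of one window (`ι` = the positions of the window). -/
noncomputable def Pw (P : Finset ℕ) (A : ℕ → ι → ℕ → Prop) (Lam : ι → ℕ → ℝ) (c : ℝ) (B Y m : ℕ) : ℝ :=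
  PsiL P A (chi (fun _ : ι => gw c) B) Y Lam m

/-- `M_w` -/
noncomputable def Mw (P : Finset ℕ) (Q0 : ℕ) (Lam : ι → ℕ → ℝ) (c : ℝ) (B Y : ℕ) : ℝ :=
  MM P (chi (fun _ : ι => gw c) B) Y Q0 Lam

/-- the pointwise majorant -/
noncomputable def Zw (K Om : ℕ) (Lam : ι → ℕ → ℝ) (m : ℕ) : ℝ :=
  ∑ S ∈ (univ : Finset (Finset ι)).filter (fun S => S.card ≤ K), ∏ i ∈ S, (2 ^ (Om + 1) * |Lam i m|)

/-- the norm of `Pw` -/
noncomputable def Nm (R Y K : ℕ) (cL : ℝ) : ℝ := 2 ^ R * (Y : ℝ) ^ 2 * cL ^ K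

theorem Pw_eq (P : Finset ℕ) (A : ℕ → ι → ℕ → Prop) (Lam : ι → ℕ → ℝ) (c : ℝ) (B Y m : ℕ) :
    Pw P A Lam c B Y m = ∑ σ : P → Option ι, cf P (chi (fun _ : ι => gw c) B) Y σ * Phi P A σ m *
      ∏ i ∈ used P σ, Lam i m := by
  unfold Pw PsiL LamS
  exact sum_congr rfl fun σ _ => by ring

theorem Mw_eq (P : Finset ℕ) (Q0 : ℕ) (Lam : ι → ℕ → ℝ) (c : ℝ) (B Y : ℕ) :
    Mw P Q0 Lam c B Y = ∑ σ : P → Option ι, cf P (chi (fun _ : ι => gw c) B) Y σ ^ 2 * ph P σ *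
      eS Q0 Lam (used P σ) := rfl

variable {P : Finset ℕ} {A : ℕ → ι → ℕ → Prop} {Q0 : ℕ}
  {Lam : ι → ℕ → ℝ} {K B Y : ℕ} {v η cL c D : ℝ}

/-- The used positions are at most as many as the primes which are somewhere. -/
theorem used_card_le_supp (P : Finset ℕ) (σ : P → Option ι) : (used P σ).card ≤ (abs_supp P σ).card := by
  classical
  unfold abs_supp
  rw [card_map]
  have h1 : (used P σ).card = ((used P σ).image some).card :=
    (card_image_of_injective _ (Option.some_injective _)).symm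
  rw [h1]
  have h2 : (used P σ).image some ⊆ ((univ : Finset P).filter (fun p => σ p ≠ none)).image σ := by
    intro t ht
    rw [mem_image] at ht
    obtain ⟨i, hi, rfl⟩ := ht
    rw [mem_used] at hi
    obtain ⟨p, hp⟩ := hi
    rw [mem_image]
    exact ⟨p, by rw [mem_filter]; exact ⟨mem_univ _, by rw [hp]; simp⟩, hp⟩
  exact (card_le_card h2).trans card_image_le

theorem used_card_le (hB : Big P B Y K c D) (σ : P → Option ι) (h : DD P σ ≤ Y) :
    (used P σ).card ≤ K :=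
  (used_card_le_supp P σ).trans (hB.level _ (abs_supp_sub P σ) (by rw [abs_DD_supp]; exact h))

/-- the Gram factor for sets of primes -/
theorem gram_le_set (hB : Big P B Y K c D) (R : ℕ) (hR : Fintype.card ι ≤ R)
    (hsmall : (K : ℝ) * (2 * R / D) ≤ 1) (T : Finset ℕ) (hT : T ⊆ P) (hTY : ∏ p ∈ T, p ≤ Y) :
    ∏ p ∈ T, (1 + ((Fintype.card ι : ℝ) - 1) / ((p : ℝ) - 1)) ≤ 1 + 4 * K * R / D := by
  have hD := hB.hD
  have hR' : (Fintype.card ι : ℝ) ≤ R := by exact_mod_cast hR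
  have hK : (T.card : ℝ) ≤ K := by exact_mod_cast hB.level T hT hTY
  have h0 : (0 : ℝ) ≤ Fintype.card ι := Nat.cast_nonneg _
  have h1 : (K : ℝ) * (2 * (Fintype.card ι : ℝ) / D) ≤ K * (2 * R / D) := by gcongr
  have h2 := gram_factor_le (T := T) (D := D) (R := (Fintype.card ι : ℝ)) (n := K) (by linarith) h0
    (fun p hp => hB.ge p (hT hp)) hK (h1.trans hsmall)
  refine h2.trans ?_
  have h3 : 2 * ((K : ℝ) * (2 * R / D)) = 4 * K * R / D := by ring
  linarith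

theorem hsum_chi (hB : Big P B Y K c D) (i : ι) :
    ∑ T ∈ QQ P B, (fun _ : ι => gw c) i (∏ p ∈ T, p) = 1 := hB.sum

/-- **F1.** -/
theorem f1b (hF : Forms P A) (hS : Small Q0 Lam K v η cL) (hcop : ∀ p ∈ P, ¬ p ∣ Q0)
    (hB : Big P B Y K c D) (R : ℕ) (hR : Fintype.card ι ≤ R) (hsmall : (K : ℝ) * (2 * R / D) ≤ 1)
    (N : ℕ) :
    N * ((1 - 4 * K * R / D) * Mw P Q0 Lam c B Y) - Nm R Y K cL ^ 2 ≤
      ∑ m ∈ range N, Pw P A Lam c B Y m ^ 2 := by
  have h1 := f1 hF hcop hS (fun _ => gw c) (fun _ n => gw_nonneg hB.hc n) B Y hB.hB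
    (hsum_chi hB) (fun σ hσ => used_card_le hB σ hσ) N (4 * K * R / D)
    (fun T hT hTY => gram_le_set hB R hR hsmall T hT hTY)
  have h2 : (2 ^ Fintype.card ι * (Y : ℝ) ^ 2 * cL ^ K) ^ 2 ≤ Nm R Y K cL ^ 2 := by
    have hc : 0 ≤ cL := zero_le_one.trans hS.one_le
    unfold Nm
    have h3 : (2 : ℝ) ^ Fintype.card ι ≤ 2 ^ R := pow_le_pow_right₀ (by norm_num) hR
    gcongr
  unfold Mw Pw
  linarith

theorem one_le_Mw (hS : Small Q0 Lam K v η cL) (hB : Big P B Y K c D) : 1 ≤ Mw P Q0 Lam c B Y :=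
  one_le_MM hB.prime _ (fun i => by simp [chi, chg]) Y hB.hY hS.pos Lam

/-- **F2.** -/
theorem f2b (hF : Forms P A) (hS : Small Q0 Lam K v η cL) (hcop : ∀ p ∈ P, ¬ p ∣ Q0)
    (hB : Big P B Y K c D) (R : ℕ) (hR : Fintype.card ι ≤ R) (hsmall : (K : ℝ) * (2 * R / D) ≤ 1)
    (s : ℝ) (hs : 0 ≤ s) (hsB : s * Real.log B ≤ 1) (N : ℕ) (S : Finset ℕ) (hSN : S ⊆ range N)
    (hbad : ∀ m ∈ S, ∃ i, (∀ p ∈ P, ¬ A p i m) ∧ Lam i m = 1) :
    ∑ m ∈ S, Pw P A Lam c B Y m ^ 2 ≤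
      N * (R * v * (((B : ℝ) / Y) ^ s * Real.exp (R * v * (2 * s * c)) + (K * (2 / (D - 1))) ^ 2 +
        4 * K * R / D) * Mw P Q0 Lam c B Y) + R * Nm R Y (K + 1) cL ^ 2 := by
  have hD := hB.hD
  have hD1 : (1 : ℝ) < D := by linarith
  have hv := hS.v_nonneg
  have hR' : (Fintype.card ι : ℝ) ≤ R := by exact_mod_cast hR
  have h0 : (0 : ℝ) ≤ Fintype.card ι := Nat.cast_nonneg _
  have hR0 : (0 : ℝ) ≤ R := Nat.cast_nonneg _
  have hK0 : (0 : ℝ) ≤ K := Nat.cast_nonneg _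
  have hc0 := hB.hc
  have hM := one_le_Mw (ι := ι) hS hB
  have hYpos : (0 : ℝ) < Y := by exact_mod_cast hB.hY
  have h1 := f2 hF hcop hS (fun _ => gw c) (fun _ n => gw_nonneg hB.hc n) B Y hB.hB hB.hY
    (hsum_chi hB) (fun σ hσ => used_card_le hB σ hσ) N s (4 * K * R / D) (K * (2 / (D - 1)))
    (((B : ℝ) / Y) ^ s * Real.exp (R * v * (2 * s * c))) (2 * s * c) hs (by positivity)
    (fun T hT hTY => gram_le_set hB R hR hsmall T hT hTY)
    (fun i T0 hT0 hTY => by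
      refine (sum_gw_meet hB.prime B hB.hc hB.sum D hD1 hB.clog hB.ge T0 hT0).trans ?_
      have h2 : (T0.card : ℝ) ≤ K := by exact_mod_cast hB.level T0 hT0 hTY
      have h3 : 0 ≤ 2 / (D - 1) := div_nonneg (by norm_num) (by linarith)
      exact mul_le_mul_of_nonneg_right h2 h3)
    (fun i => sum_cost hB.prime B hB.hc hB.sum s hs hsB)
    (by gcongr) S hSN
    (fun m hm => by
      obtain ⟨i, h2, h3⟩ := hbad m hm
      exact ⟨i, h3, h2⟩)
  have hc : 0 ≤ cL := zero_le_one.trans hS.one_le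
  have h2 : (2 ^ Fintype.card ι * (Y : ℝ) ^ 2 * cL ^ (K + 1)) ^ 2 ≤ Nm R Y (K + 1) cL ^ 2 := by
    unfold Nm
    have h3 : (2 : ℝ) ^ Fintype.card ι ≤ 2 ^ R := pow_le_pow_right₀ (by norm_num) hR
    gcongr
  refine h1.trans ?_
  obtain ⟨θ, hθ⟩ : ∃ θ : ℝ, θ = ((B : ℝ) / Y) ^ s * Real.exp (R * v * (2 * s * c)) := ⟨_, rfl⟩
  obtain ⟨t, ht⟩ : ∃ t : ℝ, t = (K : ℝ) * (2 / (D - 1)) := ⟨_, rfl⟩
  obtain ⟨e, he⟩ : ∃ e : ℝ, e = 4 * (K : ℝ) * R / D := ⟨_, rfl⟩
  have hθ0 : 0 ≤ θ := by rw [hθ]; positivity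
  have he0 : 0 ≤ e := by rw [he]; positivity
  unfold Mw at hM ⊢
  rw [← hθ, ← ht, ← he]
  have h4 : 0 ≤ (N : ℝ) * (v * ((t ^ 2 + θ + e) * MM P (chi (fun _ : ι => gw c) B) Y Q0 Lam)) +
      Nm R Y (K + 1) cL ^ 2 := by positivity
  calc (Fintype.card ι : ℝ) * (N * (v * ((t ^ 2 + θ + e) *
          MM P (chi (fun _ : ι => gw c) B) Y Q0 Lam)) +
        (2 ^ Fintype.card ι * (Y : ℝ) ^ 2 * cL ^ (K + 1)) ^ 2)
      ≤ (Fintype.card ι : ℝ) * (N * (v * ((t ^ 2 + θ + e) *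
          MM P (chi (fun _ : ι => gw c) B) Y Q0 Lam)) + Nm R Y (K + 1) cL ^ 2) := by gcongr
    _ ≤ (R : ℝ) * (N * (v * ((t ^ 2 + θ + e) *
          MM P (chi (fun _ : ι => gw c) B) Y Q0 Lam)) + Nm R Y (K + 1) cL ^ 2) :=
        mul_le_mul_of_nonneg_right hR' h4
    _ = _ := by ring

theorem f3b_Z (hS : Small Q0 Lam K v η cL) (Om R : ℕ) (hR : Fintype.card ι ≤ R) (N : ℕ) :
    ∑ m ∈ range N, Zw K Om Lam m ^ 4 ≤ (16 * 2 ^ (Om + 1)) ^ (4 * K) *
      (N * Real.exp (R * v) + 2 ^ R * cL ^ (16 * K)) := by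
  have hv := hS.v_nonneg
  have hc : 0 ≤ cL := zero_le_one.trans hS.one_le
  have hint := hS.int
  choose lam hlam using hint
  have h1 : ∀ m, Zw K Om Lam m ^ 4 ≤ (16 * 2 ^ (Om + 1)) ^ (4 * K) *
      ∑ U ∈ (univ : Finset (Finset ι)).filter (fun U => U.card ≤ 4 * K),
        ∏ i ∈ U, Lam i m ^ 4 := by
    intro m
    have h2 := f3_pow4 (fun i => lam i m) K (show (1 : ℝ) ≤ 2 ^ (Om + 1) from
      one_le_pow₀ (by norm_num))
    simp only [← hlam] at h2
    exact h2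
  refine (sum_le_sum fun m _ => h1 m).trans ?_
  rw [← mul_sum]
  refine mul_le_mul_of_nonneg_left ?_ (by positivity)
  rw [sum_comm]
  have h2 : ∀ U ∈ (univ : Finset (Finset ι)).filter (fun U => U.card ≤ 4 * K),
      ∑ m ∈ range N, ∏ i ∈ U, Lam i m ^ 4 ≤ N * v ^ U.card + cL ^ (16 * K) := fun U hU =>
    f3_mean hS.pos hS.one_le hS.tame hS.four N U (mem_filter.1 hU).2
  refine (sum_le_sum h2).trans ?_
  refine (sum_le_sum_of_subset_of_nonneg (filter_subset _ _) fun U _ _ => by positivity).trans ?_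
  rw [sum_add_distrib, sum_const, card_univ, Fintype.card_finset, nsmul_eq_mul, ← mul_sum]
  have h3 : ∑ U : Finset ι, v ^ U.card = (v + 1) ^ Fintype.card ι := by
    rw [← Fintype.sum_pow_mul_eq_add_pow]
    exact sum_congr rfl fun U _ => by rw [one_pow, mul_one]
  rw [h3]
  have hR' : (Fintype.card ι : ℝ) ≤ R := by exact_mod_cast hR
  have h4 : (v + 1) ^ Fintype.card ι ≤ Real.exp (R * v) := by
    calc (v + 1) ^ Fintype.card ι ≤ Real.exp v ^ Fintype.card ι :=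
          pow_le_pow_left₀ (by linarith) (Real.add_one_le_exp v) _
      _ = Real.exp (Fintype.card ι * v) := (Real.exp_nat_mul v _).symm
      _ ≤ Real.exp (R * v) := Real.exp_le_exp.2 (mul_le_mul_of_nonneg_right hR' hv)
  have h5 : ((2 ^ Fintype.card ι : ℕ) : ℝ) ≤ 2 ^ R := by
    push_cast
    exact pow_le_pow_right₀ (by norm_num) hR
  gcongr

open Classical in
theorem abs_Pw_le (hB : Big P B Y K c D) (A : ℕ → ι → ℕ → Prop) (Om m : ℕ)
    (hOm : ∀ i, {p | p ∈ P ∧ A p i m}.ncard ≤ Om) : |Pw P A Lam c B Y m| ≤ Zw K Om Lam m := by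
  rw [Pw_eq]
  refine f3_abs_le hB.prime A m B Y K Om hB.hc hB.sum
    (fun q hq => hB.clog.trans (Real.log_le_log (by linarith [hB.hD]) (hB.ge q hq)))
    (fun i => P.filter (fun p => A p i m)) (fun i => filter_subset _ _)
    (fun i p hp hA => mem_filter.2 ⟨hp, hA⟩) (fun i => ?_) (fun σ hσ => used_card_le hB σ hσ)
    (fun i => Lam i m)
  have h1 := hOm i
  have h2 : {p | p ∈ P ∧ A p i m} = ((P.filter (fun p => A p i m) : Finset ℕ) : Set ℕ) := by
    ext p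
    simp
  rwa [h2, Set.ncard_coe_finset] at h1

/-- **F3.** -/
theorem f3b (hS : Small Q0 Lam K v η cL) (hB : Big P B Y K c D) (A : ℕ → ι → ℕ → Prop) (Om R : ℕ)
    (hR : Fintype.card ι ≤ R) (N : ℕ) (hOm : ∀ m < N, ∀ i, {p | p ∈ P ∧ A p i m}.ncard ≤ Om) :
    ∑ m ∈ range N, Pw P A Lam c B Y m ^ 4 ≤ (16 * 2 ^ (Om + 1)) ^ (4 * K) *
      (N * Real.exp (R * v) + 2 ^ R * cL ^ (16 * K)) := by
  refine le_trans (sum_le_sum fun m hm => ?_) (f3b_Z hS Om R hR N)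
  have h1 := abs_Pw_le (Lam := Lam) hB A Om m (hOm m (mem_range.1 hm))
  have h2 := pow_le_pow_left₀ (abs_nonneg _) h1 4
  rwa [Even.pow_abs (by decide)] at h2

/-- The interface passes to subfamilies of the positions. -/
theorem Small.comp (hS : Small Q0 Lam K v η cL) {κ : Type*} [Fintype κ] [DecidableEq κ] (f : κ → ι)
    (hf : Function.Injective f) : Small Q0 (fun k => Lam (f k)) K v η cL where
  pos := hS.pos
  int := fun i m => hS.int (f i) m
  tame := fun i => hS.tame (f i)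
  one_le := hS.one_le
  v_nonneg := hS.v_nonneg
  η_nonneg := hS.η_nonneg
  ratio := by
    intro S hS' i hi
    have h1 := hS.ratio (S.map ⟨f, hf⟩) (by rw [card_map]; exact hS') (f i) (by
      rw [mem_map]
      rintro ⟨j, hj, hji⟩
      exact hi (hf hji ▸ hj))
    simpa only [prod_map, Function.Embedding.coeFn_mk] using h1
  four := by
    intro U hU
    have h1 := hS.four (U.map ⟨f, hf⟩) (by rw [card_map]; exact hU)
    simpa only [prod_map, Function.Embedding.coeFn_mk, card_map] using h1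
  split := by
    intro S T hST hS' hT'
    have h1 := hS.split (S.map ⟨f, hf⟩) (T.map ⟨f, hf⟩) (by
      rw [disjoint_map]
      exact hST) (by rw [card_map]; exact hS') (by rw [card_map]; exact hT')
    simpa only [prod_map, Function.Embedding.coeFn_mk] using h1

omit [Fintype ι] [DecidableEq ι] in
theorem Forms_comp (h : Forms P A) {κ : Type*} (f : κ → ι) (hf : Function.Injective f) :
    Forms P (fun p k m => A p (f k) m) where
  prime := h.prime
  per := fun p hp i m => h.per p hp (f i) m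
  one := fun p hp i => h.one p hp (f i)
  disj := fun p hp i j m hij => h.disj p hp (f i) (f j) m (fun e => hij (hf e))

end Pool.Agent.H.MP_711652_nt.G2
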