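import Pool.Agent.H.MP_711652_nt.G2.NumH

/-!
# GAP3, NumI: the numerical hypotheses of the finite core (helper55)
-/

set_option autoImplicit false

namespace Pool.Agent.H.MP_711652_nt.G2

open Filter Real

variable {A A₁ X n : ℕ} {e h : ℝ}

/-- the constant `c₂` -/
noncomputable def dc (A₁ : ℕ) (C₃ : ℝ) : ℝ := 1 / (19200000 * ((A₁ : ℝ) + 1) * (C₃ + 1))

theorem dc_pos {A₁ : ℕ} {C₃ : ℝ} (h : 0 < C₃) : 0 < dc A₁ C₃ := by
  unfold dc
  positivity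

theorem dc_le {A₁ : ℕ} {C₃ : ℝ} (h : 0 < C₃) : dc A₁ C₃ ≤ 1 / 1000 := by
  unfold dc
  have h0 : (0 : ℝ) ≤ A₁ := Nat.cast_nonneg _
  have h1 : (1 : ℝ) ≤ ((A₁ : ℝ) + 1) * (C₃ + 1) := by
    calc (1 : ℝ) = 1 * 1 := by norm_num
      _ ≤ _ := mul_le_mul (by linarith) (by linarith) zero_le_one (by linarith)
  refine one_div_le_one_div_of_le (by norm_num) ?_
  calc (1000 : ℝ) ≤ 19200000 * (((A₁ : ℝ) + 1) * (C₃ + 1)) := by linarith
    _ = _ := by ring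

/-- the number of positions of a window -/
noncomputable def dR (A₁ X n : ℕ) (C₃ : ℝ) : ℕ :=
  ⌊dc A₁ C₃ * n * Real.log X / Real.log (Real.log X)⌋₊

theorem Ctx.l0 (H : Ctx A A₁ X n e h) : 0 < Real.log (Real.log X) := by
  have := H.ev.l1
  linarith

/-- `n ≤ log log X` -/
theorem Ctx.nl (H : Ctx A A₁ X n e h) : (n : ℝ) ≤ Real.log (Real.log X) := by
  have h1 : (2 : ℝ) ^ n ≤ Real.log X ^ (1 / 2 : ℝ) := by
    refine H.adm.nh.trans ?_
    calc h ^ (1 / 25 : ℝ) ≤ (Real.log X ^ (1 / 20 : ℝ)) ^ (1 / 25 : ℝ) :=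
          Real.rpow_le_rpow (zero_le_one.trans H.h1) H.adm.hL (by norm_num)
      _ = Real.log X ^ (1 / 500 : ℝ) := by
          rw [← Real.rpow_mul H.L0.le]
          norm_num
      _ ≤ _ := Real.rpow_le_rpow_of_exponent_le H.L1 (by norm_num)
  have h2 := Real.log_le_log (by positivity) h1
  rw [Real.log_pow, Real.log_rpow H.L0] at h2
  have h3 := Real.log_two_gt_d9
  have h4 : (0 : ℝ) ≤ n := Nat.cast_nonneg n
  have h5 : (n : ℝ) * (1 / 2) ≤ n * Real.log 2 := mul_le_mul_of_nonneg_left (by linarith) h4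
  linarith

theorem Ctx.Rle (H : Ctx A A₁ X n e h) {C₃ : ℝ} (hC : 0 < C₃) : (dR A₁ X n C₃ : ℝ) ≤
    dc A₁ C₃ * n * Real.log X / Real.log (Real.log X) := by
  have h1 := H.L0
  have h2 := H.l0
  have h3 := dc_pos (A₁ := A₁) hC
  unfold dR
  exact Nat.floor_le (by positivity)

theorem Ctx.RL (H : Ctx A A₁ X n e h) {C₃ : ℝ} (hC : 0 < C₃) :
    (dR A₁ X n C₃ : ℝ) ≤ Real.log X / 1000 := by
  refine (H.Rle hC).trans ?_
  have hl := H.l0
  have hL := H.L0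
  rw [div_le_iff₀ hl]
  have h1 : dc A₁ C₃ * n ≤ 1 / 1000 * Real.log (Real.log X) :=
    mul_le_mul (dc_le hC) H.nl (Nat.cast_nonneg n) (by norm_num)
  have h2 := mul_le_mul_of_nonneg_right h1 hL.le
  linarith

theorem Ctx.R2 (H : Ctx A A₁ X n e h) {C₃ : ℝ} (hC : 0 < C₃) :
    (2 : ℝ) ^ dR A₁ X n C₃ ≤ (X : ℝ) ^ (1 / 100 : ℝ) := by
  refine (num_two_pow (H.RL hC)).trans ?_
  rw [num_rpow_eq H.X0]
  apply Real.exp_le_exp.2
  have := H.L0
  linarith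

/-- `V`: the bound for `R v` -/
noncomputable def dV (n : ℕ) (e C₃ : ℝ) : ℝ := 1 / (800000 * (C₃ + 1)) * n / da n e

theorem Ctx.Vle (H : Ctx A A₁ X n e h) {C₃ : ℝ} (hC : 0 < C₃) :
    dV n e C₃ ≤ n * (dE n e * 2 ^ n) := by
  unfold dV
  rw [H.inva]
  have h1 : 0 < C₃ + 1 := by linarith
  have h2 : 0 ≤ (n : ℝ) * (dE n e * 2 ^ n) := by
    have := H.E.2.2.1
    positivity
  have h3 : 800000 * (1 / (800000 * (C₃ + 1)) * (n : ℝ)) * (dE n e * 2 ^ n) =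
      (n * (dE n e * 2 ^ n)) / (C₃ + 1) := by
    field_simp
  rw [h3]
  exact div_le_self h2 (by linarith)

theorem Ctx.V0 (H : Ctx A A₁ X n e h) {C₃ : ℝ} (hC : 0 < C₃) : 0 ≤ dV n e C₃ := by
  have := H.a0
  unfold dV
  positivity

theorem Ctx.V2 (H : Ctx A A₁ X n e h) {C₃ : ℝ} (hC : 0 < C₃) :
    dV n e C₃ ≤ (dE n e * 2 ^ n) ^ 2 := by
  refine (H.Vle hC).trans ?_
  rw [sq]
  obtain ⟨h1, h2, h3, -, h5⟩ := H.E
  exact mul_le_mul_of_nonneg_right (h2.trans h5) (by linarith)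

theorem Ctx.VL (H : Ctx A A₁ X n e h) {C₃ : ℝ} (hC : 0 < C₃) : dV n e C₃ ≤ Real.log X := by
  refine (H.V2 hC).trans ?_
  have h1 := H.E1L
  have hL := H.L0
  have h2 : (dE n e * 2 ^ n) ^ 2 ≤ (2 * Real.log X ^ (11 / 500 : ℝ)) ^ 2 :=
    pow_le_pow_left₀ (by linarith [H.E.2.2.1]) h1 2
  have h3 : (2 * Real.log X ^ (11 / 500 : ℝ)) ^ 2 = 4 * Real.log X ^ (22 / 500 : ℝ) := by
    rw [mul_pow, ← Real.rpow_natCast (Real.log X ^ (11 / 500 : ℝ)), ← Real.rpow_mul hL.le]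
    norm_num
  have h4 : Real.log X ^ (22 / 500 : ℝ) ≤ Real.log X ^ (11 / 500 : ℝ) * Real.log X ^ (9 / 10 : ℝ) := by
    rw [← Real.rpow_add hL]
    exact Real.rpow_le_rpow_of_exponent_le H.L1 (by norm_num)
  have h5 := H.ev.sz
  have h6 : 0 ≤ Real.log X ^ (11 / 500 : ℝ) * Real.log X ^ (9 / 10 : ℝ) := by positivity
  linarith

theorem Ctx.logD (H : Ctx A A₁ X n e h) :
    Real.log (dD A₁ X) ≤ (A₁ + 1) * Real.log (Real.log X) := by
  have h1 := H.D_le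
  have h2 := H.D_ge
  have hL := H.L0
  have h3 : (0 : ℝ) < dD A₁ X := lt_of_lt_of_le (by positivity) h2
  have h4 := Real.log_le_log h3 h1
  rw [Real.log_pow] at h4
  have h5 := H.l0
  linarith

theorem Ctx.lz (H : Ctx A A₁ X n e h) : da n e * Real.log X / 2 ≤ Real.log (dz X n e) := by
  have h1 := H.z.2.2.1
  have h2 := H.aL4
  linarith

theorem Ctx.lB (H : Ctx A A₁ X n e h) : db n e * Real.log X / 2 ≤ Real.log (dB X n e) ∧
    0 < Real.log (dB X n e) := by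
  have h1 := H.B.2.2.1
  have h2 := H.aL4
  have h3 := mul_le_mul_of_nonneg_right H.ab H.L0.le
  constructor <;> linarith

/-- `R v ≤ V` -/
theorem Ctx.Rv (H : Ctx A A₁ X n e h) {C₃ : ℝ} (hC : 0 < C₃) :
    (dR A₁ X n C₃ : ℝ) * (12 * (Real.log (dD A₁ X) / Real.log (dz X n e))) ≤ dV n e C₃ := by
  have h3 := dc_pos (A₁ := A₁) hC
  refine (nd_Rv (A1 := A₁) (A' := dc A₁ C₃ * n) (by positivity) H.a0 H.L0 H.l0 (H.Rle hC)
    (Real.log_natCast_nonneg _) H.logD H.lz).trans (le_of_eq ?_)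
  have h4 : 0 < (A₁ : ℝ) + 1 := by positivity
  have h5 : 0 < C₃ + 1 := by linarith
  have h6 := H.a0
  unfold dV dc
  field_simp
  ring

theorem Ctx.Rv0 (H : Ctx A A₁ X n e h) {C₃ : ℝ} :
    0 ≤ (dR A₁ X n C₃ : ℝ) * (12 * (Real.log (dD A₁ X) / Real.log (dz X n e))) := by
  have h1 := Real.log_natCast_nonneg (dD A₁ X)
  have h2 := Real.log_natCast_nonneg (dz X n e)
  positivity

theorem nI_expo {Rv c lB L C₃ a b n : ℝ} (hC : 0 < C₃) (ha : 0 < a) (hb : 0 < b) (hL : 0 < L)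
    (hn : 0 < n) (hRv : Rv ≤ 1 / (800000 * (C₃ + 1)) * n / a) (hc : c ≤ C₃ * (a * L) / n)
    (hc0 : 0 ≤ c) (hlB : b * L / 2 ≤ lB) :
    Rv * (2 * (1 / lB) * c) ≤ 1 / 100000 / (2 * b) := by
  have hlB0 : 0 < b * L / 2 := by positivity
  have h1 : 1 / lB ≤ 1 / (b * L / 2) := one_div_le_one_div_of_le hlB0 hlB
  have h2 : 0 ≤ 1 / lB := one_div_nonneg.2 (hlB0.le.trans hlB)
  have h3 : 2 * (1 / lB) * c ≤ 2 * (1 / (b * L / 2)) * (C₃ * (a * L) / n) :=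
    mul_le_mul (by linarith) hc hc0 (by positivity)
  have h4 : 0 ≤ 2 * (1 / lB) * c := by positivity
  have h5 : 0 < C₃ + 1 := by linarith
  calc Rv * (2 * (1 / lB) * c) ≤ 1 / (800000 * (C₃ + 1)) * n / a * (2 * (1 / (b * L / 2)) *
        (C₃ * (a * L) / n)) := mul_le_mul hRv h3 h4 (by positivity)
    _ = 1 / 100000 / (2 * b) * (C₃ / (C₃ + 1)) := by
        field_simp
        norm_num
    _ ≤ 1 / 100000 / (2 * b) := by
        refine mul_le_of_le_one_right (by positivity) ?_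
        rw [div_le_one h5]
        linarith

theorem Ctx.yb (H : Ctx A A₁ X n e h) : 1 / 100000 / (2 * db n e) = 4 * dE n e := by
  have := H.E.1
  unfold db
  field_simp
  norm_num

theorem Ctx.theta (H : Ctx A A₁ X n e h) {C₃ c : ℝ} (hC : 0 < C₃) (hc0 : 0 ≤ c)
    (hc : c ≤ C₃ * Real.log (dz X n e) / n) :
    ((dB X n e : ℝ) / dY X) ^ (1 / Real.log (dB X n e)) *
      Real.exp ((dR A₁ X n C₃ : ℝ) * (12 * (Real.log (dD A₁ X) / Real.log (dz X n e))) *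
        (2 * (1 / Real.log (dB X n e)) * c)) ≤ Real.exp (2 - 4 * dE n e) := by
  obtain ⟨hlB, hlB0⟩ := H.lB
  have hn0 : (0 : ℝ) < n := by
    have := H.adm.n10
    have h1 : (10 : ℝ) ≤ n := by exact_mod_cast this
    linarith
  have hc' : c ≤ C₃ * (da n e * Real.log X) / n := by
    refine hc.trans (div_le_div_of_nonneg_right ?_ hn0.le)
    exact mul_le_mul_of_nonneg_left H.z.2.2.2.1 hC.le
  have hexpo := nI_expo hC H.a0 H.b0 H.L0 hn0 (H.Rv hC) hc' hc0 hlB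
  have hBpos : (0 : ℝ) < dB X n e := by
    have h1 : (2 : ℝ) ≤ dB X n e := by exact_mod_cast H.B.2.2.2.2
    linarith
  have hYpos : (0 : ℝ) < dY X := by
    have h1 : (2 : ℝ) ≤ dY X := by exact_mod_cast H.Y.2.2.2.2
    linarith
  rw [Real.rpow_def_of_pos (by positivity), Real.log_div hBpos.ne' hYpos.ne', mul_one_div,
    ← H.yb]
  have h1 := H.aL4
  have h2 := mul_le_mul_of_nonneg_right H.ab H.L0.le
  exact num_theta H.b0 hlB0 H.B.2.2.2.1 H.Y.2.2.1 (by linarith) hexpo H.L0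
    (Real.log_natCast_nonneg _)

/-- `ε` -/
noncomputable def dε (e : ℝ) : ℝ := Real.exp (-e) / 100

theorem dε_pos (e : ℝ) : 0 < dε e := by
  unfold dε
  positivity

theorem Ctx.ε1 (H : Ctx A A₁ X n e h) : dε e ≤ 1 / 100 := by
  unfold dε
  have h1 : Real.exp (-e) ≤ 1 := Real.exp_le_one_iff.2 (by linarith [H.adm.e0])
  linarith

theorem Ctx.εL (H : Ctx A A₁ X n e h) : 1 ≤ dε e * (100 * Real.log X ^ A) := by
  have h1 : Real.log X ^ A = Real.exp (A * Real.log (Real.log X)) := by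
    rw [Real.exp_nat_mul, Real.exp_log H.L0]
  unfold dε
  rw [h1]
  have h2 : Real.exp (-e) / 100 * (100 * Real.exp (A * Real.log (Real.log X))) =
      Real.exp (A * Real.log (Real.log X) - e) := by
    rw [show (A : ℝ) * Real.log (Real.log X) - e = -e + A * Real.log (Real.log X) by ring,
      Real.exp_add]
    ring
  rw [h2]
  exact Real.one_le_exp (by linarith [H.adm.eL])

/-- `C₄` -/
noncomputable def dC4 (n : ℕ) (e C₃ : ℝ) : ℝ :=
  2 * (16 * 2 ^ (dO n e + 1)) ^ (4 * dK n e) * Real.exp (dV n e C₃)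

theorem dC4_pos (n : ℕ) (e C₃ : ℝ) : 0 < dC4 n e C₃ := by
  unfold dC4
  positivity

theorem Ctx.C4le (H : Ctx A A₁ X n e h) {C₃ : ℝ} (hC : 0 < C₃) :
    dC4 n e C₃ ≤ Real.exp (h / 3) :=
  ng_C4 H.E.2.2.1 H.E.2.2.2.1 H.K17 H.Ole (H.V2 hC) H.hh (by linarith [H.h1])

theorem Ctx.C4M (H : Ctx A A₁ X n e h) {C₃ M : ℝ} (hC : 0 < C₃) (hM : Real.exp h ≤ M) :
    dC4 n e C₃ ≤ dε e * M := by
  refine (H.C4le hC).trans ?_
  have h1 : dε e * Real.exp h ≤ dε e * M := mul_le_mul_of_nonneg_left hM (dε_pos e).le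
  refine le_trans ?_ h1
  have h0 : 0 < h := by linarith [H.h1]
  -- `e ≤ h / 3`
  have h2 : e ≤ h / 3 := by
    have h3 : h ^ (2 / 5 : ℝ) * 3 ≤ h := by
      have h4 : (3 : ℝ) ≤ h ^ (3 / 5 : ℝ) := by
        have h5 : h ^ (3 / 25 : ℝ) ≤ h ^ (3 / 5 : ℝ) :=
          Real.rpow_le_rpow_of_exponent_le H.h1 (by norm_num)
        linarith [H.hh]
      calc h ^ (2 / 5 : ℝ) * 3 ≤ h ^ (2 / 5 : ℝ) * h ^ (3 / 5 : ℝ) :=
            mul_le_mul_of_nonneg_left h4 (by positivity)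
        _ = h := by
            rw [← Real.rpow_add h0]
            norm_num
    linarith [H.adm.eh]
  have h3 : (100 : ℝ) ≤ Real.exp (h / 3) := by
    have h4 := Real.add_one_le_exp (h / 3)
    have h5 : (300 : ℝ) ≤ h := le_trans (by norm_num) H.hbig
    linarith
  have h4 : Real.exp (h / 3) * 100 ≤ Real.exp (h / 3) * Real.exp (h / 3) :=
    mul_le_mul_of_nonneg_left h3 (Real.exp_pos _).le
  have h5 : Real.exp (h / 3) * Real.exp (h / 3) ≤ Real.exp (-e) * Real.exp h := by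
    rw [← Real.exp_add, ← Real.exp_add]
    exact Real.exp_le_exp.2 (by linarith)
  unfold dε
  linarith

/-- the terms with `1 / q` -/
theorem Ctx.G (H : Ctx A A₁ X n e h) {C₃ : ℝ} (hC : 0 < C₃) :
    4 ≤ (X : ℝ) ^ (da n e / 2) ∧
      32 * dK n e / (X : ℝ) ^ (da n e / 2) ≤ dε e / 10 ∧
      dV n e C₃ * ((4 * (dK n e : ℝ) ^ 2 + 8 * dK n e) / (X : ℝ) ^ (da n e / 2)) ≤ dε e / 4 ∧
      (1 + 10 / dε e) * (((2 * dO n e + 2) ^ 2 / (X : ℝ) ^ (da n e / 2)) * (dK n e : ℝ) ^ 4 *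
        dC4 n e C₃) ≤ dε e / 10 := by
  refine ng_G H.L1 (Ex := Real.exp (Real.log X ^ (1 / 20 : ℝ))) ?_ H.KL ?_ (H.VL hC)
    (dC4_pos n e C₃).le ?_ (H.ev.big.trans H.q_ge') (dε_pos e) (by linarith [H.ε1]) H.εL
  · have := H.L0
    exact Real.one_le_exp (by positivity)
  · have := H.OL
    linarith
  · refine (H.C4le hC).trans (Real.exp_le_exp.2 ?_)
    have h1 := H.h1
    have h2 := H.adm.hL
    linarith

/-- the terms with `1 / z` -/
theorem Ctx.sm (H : Ctx A A₁ X n e h) {C₃ : ℝ} (hC : 0 < C₃) :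
    16 * (dK n e : ℝ) * dR A₁ X n C₃ / dz X n e ≤ 32 * dK n e / (X : ℝ) ^ (da n e / 2) ∧
    ((dK n e : ℝ) * (2 / ((dz X n e : ℝ) - 1))) ^ 2 + 4 * dK n e * dR A₁ X n C₃ / dz X n e ≤
      (4 * (dK n e : ℝ) ^ 2 + 8 * dK n e) / (X : ℝ) ^ (da n e / 2) ∧
    ((2 * dO n e + 2) / ((dz X n e : ℝ) - 1)) ^ 2 ≤
      (2 * dO n e + 2) ^ 2 / (X : ℝ) ^ (da n e / 2) := by
  have hK : (1 : ℝ) ≤ dK n e := by exact_mod_cast H.K1
  have hRq : (dR A₁ X n C₃ : ℝ) ≤ (X : ℝ) ^ (da n e / 2) := by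
    have h1 := H.RL hC
    have h2 := H.q_ge'
    have h3 := H.ev.big
    have hL := H.L1
    have h4 : Real.log X ≤ Real.log X ^ (2 * A + 6) := le_self_pow₀ hL (by omega)
    have h5 : (1 : ℝ) ≤ Real.exp (Real.log X ^ (1 / 20 : ℝ)) := by
      have := H.L0
      exact Real.one_le_exp (by positivity)
    have h6 : (0 : ℝ) ≤ 100000000 * Real.log X ^ (2 * A + 6) := by linarith
    have h7 := le_mul_of_one_le_right h6 h5
    linarith
  obtain ⟨g1, g2, g3, -⟩ := num_small (K := (dK n e : ℝ)) (R := (dR A₁ X n C₃ : ℝ))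
    (G := 2 * dO n e + 2) hK (Nat.cast_nonneg _) (H.G hC).1 H.qz hRq
  exact ⟨g1, g2, g3⟩

theorem Ctx.hg (H : Ctx A A₁ X n e h) {C₃ : ℝ} (hC : 0 < C₃) :
    16 * (dK n e : ℝ) * dR A₁ X n C₃ / dz X n e ≤ dε e / 10 :=
  (H.sm hC).1.trans (H.G hC).2.1

theorem Ctx.hθ (H : Ctx A A₁ X n e h) {C₃ c : ℝ} (hC : 0 < C₃) (hc0 : 0 ≤ c)
    (hc : c ≤ C₃ * Real.log (dz X n e) / n) :
    (dR A₁ X n C₃ : ℝ) * (12 * (Real.log (dD A₁ X) / Real.log (dz X n e))) *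
      (((dB X n e : ℝ) / dY X) ^ (1 / Real.log (dB X n e)) *
      Real.exp ((dR A₁ X n C₃ : ℝ) * (12 * (Real.log (dD A₁ X) / Real.log (dz X n e))) *
        (2 * (1 / Real.log (dB X n e)) * c)) +
      ((dK n e : ℝ) * (2 / ((dz X n e : ℝ) - 1))) ^ 2 +
        4 * dK n e * dR A₁ X n C₃ / dz X n e) ≤ dε e / 2 := by
  have e1 : ∀ x y z w : ℝ, x * (y + z + w) = x * y + x * (z + w) := fun x y z w => by ring
  rw [e1]
  have h1 := H.theta hC hc0 hc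
  have h2 := (H.sm hC).2.1
  have h3 := H.Rv hC
  have hV := H.V0 hC
  have hR0 := H.Rv0 (C₃ := C₃)
  have h4 : dV n e C₃ * Real.exp (2 - 4 * dE n e) ≤ dε e / 4 := by
    have h5 := ng_theta H.adm.n10 H.adm.e0
    have h6 := mul_le_mul_of_nonneg_right (H.Vle hC) (Real.exp_pos (2 - 4 * dE n e)).le
    unfold dε
    linarith
  have h5 := (H.G hC).2.2.1
  have h6 : ∀ {a b c d : ℝ}, a ≤ b → c ≤ d → 0 ≤ a → 0 ≤ d → a * c ≤ b * d :=
    fun hab hcd ha hd => (mul_le_mul_of_nonneg_left hcd ha).trans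
      (mul_le_mul_of_nonneg_right hab hd)
  have h7 := h6 h3 h1 hR0 (Real.exp_pos _).le
  have h8 := h6 h3 h2 hR0 (by
    have h9 : (0 : ℝ) ≤ dK n e := Nat.cast_nonneg _
    have h10 : (0 : ℝ) ≤ (X : ℝ) ^ (da n e / 2) := by
      have := H.XR
      positivity
    positivity)
  linarith

theorem Ctx.hZ (H : Ctx A A₁ X n e h) {C₃ : ℝ} (hC : 0 < C₃) :
    (1 + 10 / dε e) * (((2 * dO n e + 2) / ((dz X n e : ℝ) - 1)) ^ 2 * (dK n e : ℝ) ^ 4 *
      dC4 n e C₃) ≤ dε e / 10 := by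
  refine le_trans ?_ (H.G hC).2.2.2
  have h1 := dε_pos e
  refine mul_le_mul_of_nonneg_left ?_ (by positivity)
  refine mul_le_mul_of_nonneg_right ?_ (dC4_pos n e C₃).le
  exact mul_le_mul_of_nonneg_right (H.sm hC).2.2 (by positivity)

theorem Ctx.h16 (H : Ctx A A₁ X n e h) {C₃ N : ℝ} (hC : 0 < C₃) (hN : (X : ℝ) ^ (4 / 5 : ℝ) ≤ N) :
    (2 : ℝ) ^ dR A₁ X n C₃ * ((dz X n e : ℝ) ^ 248) ^ (16 * dK n e) ≤ N :=
  num_h16 H.X0 (H.R2 hC) H.aK.1 hN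

theorem Ctx.hN (H : Ctx A A₁ X n e h) {C₃ N : ℝ} (hC : 0 < C₃) (hN : (X : ℝ) ^ (4 / 5 : ℝ) ≤ N) :
    100 * ((dR A₁ X n C₃ : ℝ) + 1) * (2 ^ dR A₁ X n C₃ * (dY X : ℝ) ^ 2 *
      ((dz X n e : ℝ) ^ 248) ^ (dK n e + 1)) ^ 4 ≤ dε e * N := by
  refine num_hN H.X0 (H.R2 hC) rfl H.aK.2.1 hN (dε_pos e) ?_
  rw [div_le_iff₀ (dε_pos e), num_rpow_eq H.X0]
  have h1 := H.ev.bigE
  have h2 := H.εL
  have h3 := mul_le_mul_of_nonneg_right h1 (dε_pos e).le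
  linarith

theorem Ctx.hC4 (H : Ctx A A₁ X n e h) {C₃ : ℝ} (hC : 0 < C₃) :
    2 * (16 * 2 ^ (dO n e + 1)) ^ (4 * dK n e) *
      Real.exp ((dR A₁ X n C₃ : ℝ) * (12 * (Real.log (dD A₁ X) / Real.log (dz X n e)))) ≤
        dC4 n e C₃ := by
  unfold dC4
  exact mul_le_mul_of_nonneg_left (Real.exp_le_exp.2 (H.Rv hC)) (by positivity)

/-- the number of coincidences -/
theorem Ctx.far (H : Ctx A A₁ X n e h) (hA : 1 ≤ A₁) : X ≤ (dD A₁ X + 1) ^ ⌈Real.log X⌉₊ := by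
  have h1 : (X : ℝ) ≤ ((dD A₁ X : ℝ) + 1) ^ ⌈Real.log X⌉₊ := by
    have h2 : Real.exp 1 ≤ (dD A₁ X : ℝ) + 1 := by
      have h3 := H.D_ge
      have h4 : Real.log X ≤ Real.log X ^ A₁ := le_self_pow₀ H.L1 (by omega)
      have h5 := H.ev.L1
      have h6 := Real.exp_one_lt_d9
      linarith
    calc (X : ℝ) = Real.exp (Real.log X) := (Real.exp_log H.XR).symm
      _ ≤ Real.exp (⌈Real.log X⌉₊ : ℝ) := Real.exp_le_exp.2 (Nat.le_ceil _)
      _ = Real.exp 1 ^ ⌈Real.log X⌉₊ := by rw [← Real.exp_nat_mul, mul_one]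
      _ ≤ _ := pow_le_pow_left₀ (Real.exp_pos _).le h2 _
  exact_mod_cast h1

theorem Ctx.hD (H : Ctx A A₁ X n e h) (hA : 8 * A + 25 ≤ A₁) :
    (2 ^ 40 * (dK n e : ℝ) * ((⌈Real.log X⌉₊ : ℝ) + 1) / (dε e / 10)) ^ 8 ≤ (dD A₁ X : ℝ) := by
  have hL := H.L1
  have hL0 := H.L0
  have hbig := H.ev.L1
  have h1 : ((⌈Real.log X⌉₊ : ℝ) + 1) ≤ 2 * Real.log X := by
    have := Nat.ceil_lt_add_one hL0.le
    linarith
  have h2 : 1 / (dε e / 10) ≤ 1000 * Real.log X ^ A := by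
    have := dε_pos e
    rw [div_le_iff₀ (by positivity)]
    linarith [H.εL]
  have h3 : 2 ^ 40 * (dK n e : ℝ) * ((⌈Real.log X⌉₊ : ℝ) + 1) / (dε e / 10) ≤
      Real.log X ^ (A + 3) := by
    have e1 : 2 ^ 40 * (dK n e : ℝ) * ((⌈Real.log X⌉₊ : ℝ) + 1) / (dε e / 10) =
        2 ^ 40 * (dK n e : ℝ) * ((⌈Real.log X⌉₊ : ℝ) + 1) * (1 / (dε e / 10)) := by ring
    rw [e1]
    have h4 : 2 ^ 40 * (dK n e : ℝ) * ((⌈Real.log X⌉₊ : ℝ) + 1) ≤
        2 ^ 40 * Real.log X * (2 * Real.log X) :=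
      mul_le_mul (mul_le_mul_of_nonneg_left H.KL (by norm_num)) h1 (by positivity) (by positivity)
    have h5 : 0 ≤ 1 / (dε e / 10) := by
      have := dε_pos e
      positivity
    have h6 := mul_le_mul h4 h2 h5 (by positivity)
    refine h6.trans ?_
    have e2 : 2 ^ 40 * Real.log X * (2 * Real.log X) * (1000 * Real.log X ^ A) =
        2199023255552000 * (Real.log X ^ (A + 2)) := by
      rw [pow_add]
      ring
    have e3 : Real.log X ^ (A + 3) = Real.log X * Real.log X ^ (A + 2) := by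
      rw [pow_add, pow_add]
      ring
    rw [e2, e3]
    exact mul_le_mul_of_nonneg_right (by linarith) (by positivity)
  have h4 : 0 ≤ 2 ^ 40 * (dK n e : ℝ) * ((⌈Real.log X⌉₊ : ℝ) + 1) / (dε e / 10) := by
    have := dε_pos e
    positivity
  refine (pow_le_pow_left₀ h4 h3 8).trans ?_
  refine le_trans ?_ H.D_ge
  rw [← pow_mul]
  have h5 : Real.log X ^ ((A + 3) * 8 + 1) ≤ Real.log X ^ A₁ := pow_le_pow_right₀ hL (by omega)
  have h6 : Real.log X ^ ((A + 3) * 8 + 1) = Real.log X ^ ((A + 3) * 8) * Real.log X := pow_succ _ _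
  have h7 : Real.log X ^ ((A + 3) * 8) * 2 ≤ Real.log X ^ ((A + 3) * 8) * Real.log X :=
    mul_le_mul_of_nonneg_left (by linarith) (by positivity)
  linarith

end Pool.Agent.H.MP_711652_nt.G2
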