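import Mathlib

/-!
# GAP2, Num: facts for `X → ∞` (helper55)
-/

set_option autoImplicit false

namespace Pool.Agent.H.MP_711652_nt.G2

open Filter Real

theorem num_log_tendsto : Tendsto (fun X : ℕ => Real.log X) atTop atTop :=
  Real.tendsto_log_atTop.comp tendsto_natCast_atTop_atTop

theorem num_ev_log (C : ℝ) : ∀ᶠ X : ℕ in atTop, C ≤ Real.log X :=
  num_log_tendsto.eventually_ge_atTop C

theorem num_ev_loglog (C : ℝ) : ∀ᶠ X : ℕ in atTop, C ≤ Real.log (Real.log X) :=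
  (Real.tendsto_log_atTop.comp num_log_tendsto).eventually_ge_atTop C

theorem num_rpow_eq {X : ℕ} (hX : 0 < X) (η : ℝ) :
    (X : ℝ) ^ η = Real.exp (η * Real.log X) := by
  rw [Real.rpow_def_of_pos (by exact_mod_cast hX), mul_comm]

/-- `exp (A log X / log log X) ≤ X ^ η` -/
theorem num_ev_exp (A η : ℝ) (hη : 0 < η) :
    ∀ᶠ X : ℕ in atTop, Real.exp (A * Real.log X / Real.log (Real.log X)) ≤ (X : ℝ) ^ η := by
  filter_upwards [num_ev_log 1, num_ev_loglog (|A| / η + 1), eventually_gt_atTop 0] with X h1 h2 h3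
  rw [num_rpow_eq h3]
  apply Real.exp_le_exp.2
  have h4 : 0 ≤ |A| / η := by positivity
  rw [div_le_iff₀ (by linarith)]
  have h5 : |A| ≤ η * Real.log (Real.log X) := by
    have h6 : |A| / η ≤ Real.log (Real.log X) := by linarith
    rw [div_le_iff₀ hη] at h6
    linarith
  have h7 : A * Real.log X ≤ |A| * Real.log X :=
    mul_le_mul_of_nonneg_right (le_abs_self A) (by linarith)
  have h8 : |A| * Real.log X ≤ (η * Real.log (Real.log X)) * Real.log X :=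
    mul_le_mul_of_nonneg_right h5 (by linarith)
  calc _ ≤ _ := h7.trans h8
    _ = _ := by ring

/-- `C (log X) ^ k ≤ X ^ η` -/
theorem num_ev_logpow (C : ℝ) (k : ℕ) (η : ℝ) (hη : 0 < η) :
    ∀ᶠ X : ℕ in atTop, C * Real.log X ^ k ≤ (X : ℝ) ^ η := by
  have h := (isLittleO_log_rpow_rpow_atTop (s := η) (k : ℝ) hη).bound
    (show (0 : ℝ) < 1 / (|C| + 1) by positivity)
  have h2 := tendsto_natCast_atTop_atTop.eventually h
  filter_upwards [h2, num_ev_log 1, eventually_gt_atTop 0] with X h3 h4 h5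
  have h6 : 0 ≤ Real.log X ^ k := pow_nonneg (by linarith) k
  rw [Real.rpow_natCast, Real.norm_of_nonneg h6, Real.norm_of_nonneg (by positivity)] at h3
  have h7 : (|C| + 1) * Real.log X ^ k ≤ (X : ℝ) ^ η := by
    calc (|C| + 1) * Real.log X ^ k ≤ (|C| + 1) * (1 / (|C| + 1) * (X : ℝ) ^ η) :=
          mul_le_mul_of_nonneg_left h3 (by positivity)
      _ = (X : ℝ) ^ η := by field_simp
  have h8 : C * Real.log X ^ k ≤ (|C| + 1) * Real.log X ^ k :=
    mul_le_mul_of_nonneg_right (by linarith [le_abs_self C]) h6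
  exact h8.trans h7

theorem num_ev_const (C η : ℝ) (hη : 0 < η) : ∀ᶠ X : ℕ in atTop, C ≤ (X : ℝ) ^ η := by
  filter_upwards [num_ev_logpow C 0 η hη] with X h
  simpa using h

/-- the floor of a power -/
theorem num_floor {X : ℕ} {a : ℝ} (h : 2 ≤ (X : ℝ) ^ a) (hX : 0 < X) :
    (X : ℝ) ^ a / 2 ≤ (⌊(X : ℝ) ^ a⌋₊ : ℝ) ∧ (⌊(X : ℝ) ^ a⌋₊ : ℝ) ≤ (X : ℝ) ^ a ∧
      a * Real.log X - 1 ≤ Real.log (⌊(X : ℝ) ^ a⌋₊ : ℝ) ∧
      Real.log (⌊(X : ℝ) ^ a⌋₊ : ℝ) ≤ a * Real.log X ∧ 2 ≤ ⌊(X : ℝ) ^ a⌋₊ := by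
  have h0 : 0 ≤ (X : ℝ) ^ a := by linarith
  have h1 : (⌊(X : ℝ) ^ a⌋₊ : ℝ) ≤ (X : ℝ) ^ a := Nat.floor_le h0
  have h2 := Nat.lt_floor_add_one ((X : ℝ) ^ a)
  have h3 : (X : ℝ) ^ a / 2 ≤ (⌊(X : ℝ) ^ a⌋₊ : ℝ) := by linarith
  have h4 : Real.log ((X : ℝ) ^ a) = a * Real.log X := by
    rw [num_rpow_eq hX, Real.log_exp]
  have h5 : 2 ≤ ⌊(X : ℝ) ^ a⌋₊ := Nat.le_floor (by exact_mod_cast h)
  have h6 : (2 : ℝ) ≤ (⌊(X : ℝ) ^ a⌋₊ : ℝ) := by exact_mod_cast h5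
  refine ⟨h3, h1, ?_, ?_, h5⟩
  · have h7 := Real.log_le_log (by linarith) h3
    rw [Real.log_div (by linarith) (by norm_num), h4] at h7
    have h8 := Real.log_two_lt_d9
    linarith
  · have h7 := Real.log_le_log (by linarith) h1
    rw [h4] at h7
    exact h7

/-- `X ^ (4/5) ≤ X / W + 1` for `W = primorial ⌊log X / 10⌋` -/
theorem num_N {X : ℕ} (hX : 0 < X) :
    (X : ℝ) ^ (4 / 5 : ℝ) ≤ ((X / primorial ⌊Real.log X / 10⌋₊ + 1 : ℕ) : ℝ) := by
  set W := primorial ⌊Real.log X / 10⌋₊ with hW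
  have hX0 : (0 : ℝ) < X := by exact_mod_cast hX
  have hX1 : (1 : ℝ) ≤ X := by exact_mod_cast hX
  have hlog : 0 ≤ Real.log X := Real.log_nonneg hX1
  have hW0 : 0 < W := primorial_pos _
  have hWR : (0 : ℝ) < W := by exact_mod_cast hW0
  have h1 : (W : ℝ) ≤ (X : ℝ) ^ (1 / 5 : ℝ) := by
    have h2 : (W : ℝ) ≤ (4 : ℝ) ^ ⌊Real.log X / 10⌋₊ := by
      exact_mod_cast primorial_le_four_pow _
    refine h2.trans ?_
    rw [num_rpow_eq hX, ← Real.rpow_natCast, Real.rpow_def_of_pos (by norm_num)]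
    apply Real.exp_le_exp.2
    have h3 : ((⌊Real.log X / 10⌋₊ : ℕ) : ℝ) ≤ Real.log X / 10 := Nat.floor_le (by positivity)
    have h4 : Real.log 4 = 2 * Real.log 2 := by
      rw [show (4 : ℝ) = 2 ^ 2 by norm_num, Real.log_pow]
      norm_num
    have h5 := Real.log_two_lt_d9
    have h6 : 0 < Real.log 2 := Real.log_pos (by norm_num)
    calc Real.log 4 * ((⌊Real.log X / 10⌋₊ : ℕ) : ℝ) ≤ Real.log 4 * (Real.log X / 10) :=
          mul_le_mul_of_nonneg_left h3 (by rw [h4]; positivity)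
      _ ≤ 2 * (Real.log X / 10) := mul_le_mul_of_nonneg_right (by rw [h4]; linarith) (by positivity)
      _ = 1 / 5 * Real.log X := by ring
  have h2 : (X : ℝ) / W < ((X / W + 1 : ℕ) : ℝ) := by
    rw [div_lt_iff₀ hWR]
    have h3 := Nat.lt_div_mul_add (a := X) hW0
    have h4 : X < (X / W + 1) * W := by
      rw [add_mul, one_mul]
      exact h3
    exact_mod_cast h4
  refine le_trans ?_ h2.le
  rw [le_div_iff₀ hWR]
  calc (X : ℝ) ^ (4 / 5 : ℝ) * W ≤ (X : ℝ) ^ (4 / 5 : ℝ) * (X : ℝ) ^ (1 / 5 : ℝ) :=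
        mul_le_mul_of_nonneg_left h1 (by positivity)
    _ = X := by
        rw [← Real.rpow_add hX0]
        norm_num

/-- choice of `b` -/
theorem num_choose_b (C δ y : ℝ) (hC : 0 < C) (hδ : 0 < δ) (hy : 0 < y) :
    ∃ b₀ : ℝ, 0 < b₀ ∧ ∀ b : ℝ, 0 < b → b ≤ b₀ →
      C / b * Real.exp (2 - y / (2 * b)) ≤ δ := by
  refine ⟨δ * y ^ 2 / (8 * C * Real.exp 2), by positivity, fun b hb hb0 => ?_⟩
  have h1 : (y / (2 * b)) ^ 2 / 2 ≤ Real.exp (y / (2 * b)) := by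
    have := Real.quadratic_le_exp_of_nonneg (show 0 ≤ y / (2 * b) by positivity)
    have h2 : 0 ≤ y / (2 * b) := by positivity
    linarith
  have h2 : (y / (2 * b)) ^ 2 / 2 = y ^ 2 / (8 * b ^ 2) := by
    field_simp
    ring
  rw [h2] at h1
  rw [Real.exp_sub]
  have h3 : 0 < Real.exp (y / (2 * b)) := Real.exp_pos _
  have h4 : 0 < Real.exp 2 := Real.exp_pos _
  have h5 : C / b * (Real.exp 2 / Real.exp (y / (2 * b))) ≤
      C / b * (Real.exp 2 / (y ^ 2 / (8 * b ^ 2))) := by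
    refine mul_le_mul_of_nonneg_left ?_ (by positivity)
    exact div_le_div_of_nonneg_left h4.le (by positivity) h1
  refine h5.trans ?_
  have h6 : C / b * (Real.exp 2 / (y ^ 2 / (8 * b ^ 2))) = 8 * C * Real.exp 2 / y ^ 2 * b := by
    field_simp
  rw [h6]
  calc 8 * C * Real.exp 2 / y ^ 2 * b ≤ 8 * C * Real.exp 2 / y ^ 2 *
        (δ * y ^ 2 / (8 * C * Real.exp 2)) := mul_le_mul_of_nonneg_left hb0 (by positivity)
    _ = δ := by field_simp

/-- the tail factor -/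
theorem num_theta {lB lY y b L r K' : ℝ} (hb : 0 < b) (hlB : 0 < lB) (h1 : lB ≤ b * L)
    (h2 : y * L - 1 ≤ lY) (hL : 1 ≤ b * L) (h3 : r * K' ≤ y / (2 * b)) (hL0 : 0 < L) (hlY : 0 ≤ lY) :
    Real.exp ((lB - lY) / lB) * Real.exp (r * K') ≤ Real.exp (2 - y / (2 * b)) := by
  rw [← Real.exp_add]
  apply Real.exp_le_exp.2
  have h4 : (lB - lY) / lB = 1 - lY / lB := by
    field_simp
  have h5 : lY / (b * L) ≤ lY / lB := div_le_div_of_nonneg_left hlY hlB h1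
  have h6 : (y * L - 1) / (b * L) ≤ lY / (b * L) := div_le_div_of_nonneg_right h2 (by positivity)
  have h7 : (y * L - 1) / (b * L) = y / b - 1 / (b * L) := by
    field_simp
  have h8 : 1 / (b * L) ≤ 1 := by
    rw [div_le_one (by positivity)]
    exact hL
  have h9 : y / b = y / (2 * b) + y / (2 * b) := by
    field_simp
    ring
  rw [h4]
  linarith

end Pool.Agent.H.MP_711652_nt.G2
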