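import Pool.Agent.H.MP_711652_nt.G2.Small2

/-!
# GAP3, SmallPair: the interface of `abs3` for linear forms (helper62)
-/

set_option autoImplicit false

namespace Pool.Agent.H.MP_711652_nt.G2

open Finset Pool.Agent.H.MP_711652_nt.LG
open Pool.Agent.H.MP_711652_nt.G2.BF (FormsC)

/-- the root of `W m + a` modulo `p` -/
def rootL (W a p : ℕ) : ℕ := ((-(a : ZMod p)) * (W : ZMod p)⁻¹).val

theorem rootL_iff {W a p : ℕ} (hp : p.Prime) (hW : ¬ p ∣ W) (m : ℕ) :
    p ∣ W * m + a ↔ m % p = rootL W a p := by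
  haveI : Fact p.Prime := ⟨hp⟩
  have hW0 : (W : ZMod p) ≠ 0 := fun h => hW ((ZMod.natCast_eq_zero_iff W p).1 h)
  rw [← ZMod.natCast_eq_zero_iff, rootL, ← ZMod.val_natCast]
  rw [(ZMod.val_injective p).eq_iff]
  push_cast
  constructor
  · intro h
    have h1 : (W : ZMod p) * m = -(a : ZMod p) := by linear_combination h
    rw [← h1]
    field_simp
  · intro h
    rw [h]
    field_simp
    ring

theorem rootL_eq {W a b p : ℕ} (hp : p.Prime) (hW : ¬ p ∣ W) (h : rootL W a p = rootL W b p) :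
    a ≡ b [MOD p] := by
  haveI : Fact p.Prime := ⟨hp⟩
  have hlt : rootL W a p < p := ZMod.val_lt _
  have h1 : p ∣ W * rootL W a p + a := (rootL_iff hp hW _).2 (Nat.mod_eq_of_lt hlt)
  have h2 : p ∣ W * rootL W a p + b := (rootL_iff hp hW _).2 (by rw [Nat.mod_eq_of_lt hlt, h])
  have h3 : W * rootL W a p + a ≡ W * rootL W a p + b [MOD p] :=
    ((Nat.modEq_zero_iff_dvd.2 h1)).trans (Nat.modEq_zero_iff_dvd.2 h2).symm
  exact Nat.ModEq.add_left_cancel' _ h3

/-- a number `n ≤ (D + 1)^h` has at most `h` prime factors above `D` -/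
theorem card_big_primes {D n h : ℕ} (hD : 1 ≤ D) (hn : 0 < n) (hle : n ≤ (D + 1) ^ h) (s : Finset ℕ)
    (hs : ∀ p ∈ s, p.Prime ∧ D < p ∧ p ∣ n) : s.card ≤ h := by
  have h1 : ∏ p ∈ s, p ∣ n := Finset.prod_primes_dvd n (fun p hp => (hs p hp).1.prime) fun p hp => (hs p hp).2.2
  have h2 : (D + 1) ^ s.card ≤ ∏ p ∈ s, p := by
    rw [← Finset.prod_const]
    exact Finset.prod_le_prod' fun p hp => (hs p hp).2.1
  have h3 : (D + 1) ^ s.card ≤ (D + 1) ^ h := h2.trans ((Nat.le_of_dvd hn h1).trans hle)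
  exact (Nat.pow_le_pow_iff_right (by omega)).1 h3

/-- **The interface for pairs of windows.** Positions `i : ι` with offsets `off i`; the windows have length at most `D`, all
offsets differ by at most `(D + 1)^h`. -/
theorem small_pair {ι : Type*} [Fintype ι] [DecidableEq ι] {α : Type*} (wd : α → Finset ι) (off : ι → ℕ)
    (hinj : Function.Injective off) {W D z K h : ℕ} {η : ℝ} (hK : 1 ≤ K) (hη : 0 < η) (hη1 : η ≤ 1)
    (hD : (2 ^ 40 * K * ((h : ℝ) + 1) / η) ^ 8 ≤ D) (hz : D ≤ z) (hW : ∀ p, p.Prime → D < p → ¬ p ∣ W)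
    (hwin : ∀ a, ∀ i ∈ wd a, ∀ j ∈ wd a, off i ≤ off j + D) (hfar : ∀ i j, off i ≤ off j + (D + 1) ^ h)
    (a b : α) :
    Small (∏ p ∈ (Ioc D z).filter Nat.Prime, p)
      (fun k : {i // i ∈ wd a ∪ wd b} => LamF D z (fun (p : ℕ) (i : ι) (m : ℕ) => p ∣ W * m + off i) k) K
      (12 * (Real.log D / Real.log z)) η ((z : ℝ) ^ 248) := by
  have hD1 : 1 ≤ D := by
    have h1 : (0 : ℝ) < (2 ^ 40 * K * ((h : ℝ) + 1) / η) ^ 8 := by
      have : (1 : ℝ) ≤ K := by exact_mod_cast hK
      positivity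
    have h2 : (0 : ℝ) < D := lt_of_lt_of_le h1 hD
    exact_mod_cast h2
  refine small_num2 (A := fun (p : ℕ) (k : {i // i ∈ wd a ∪ wd b}) (m : ℕ) => p ∣ W * m + off k)
    (r := fun p (k : {i // i ∈ wd a ∪ wd b}) => rootL W (off k) p) hK hη hη1 hD hz ?_ ?_ ?_
  · refine ⟨fun p hp => (mem_filter.1 hp).2, ?_, ?_⟩
    · intro p hp i
      haveI : Fact p.Prime := ⟨(mem_filter.1 hp).2⟩
      exact ZMod.val_lt _
    · intro p hp i m
      rw [mem_filter, mem_Ioc] at hp
      exact rootL_iff hp.2 (hW p hp.2 hp.1.1) m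
  · intro p hp i j k hij hik hjk h1 h2
    rw [mem_filter, mem_Ioc] at hp
    have hWp := hW p hp.2 hp.1.1
    have key : ∀ u v : {i // i ∈ wd a ∪ wd b}, u ≠ v → ∀ c : α, u.1 ∈ wd c → v.1 ∈ wd c →
        rootL W (off u) p = rootL W (off v) p → False := by
      intro u v huv c hu hv hr
      have h3 := rootL_eq hp.2 hWp hr
      have h4 := hwin c u.1 hu v.1 hv
      have h5 := hwin c v.1 hv u.1 hu
      have h6 : off u.1 = off v.1 := by
        rcases le_total (off u.1) (off v.1) with hle | hle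
        · have h7 := (Nat.modEq_iff_dvd' hle).1 h3
          rcases Nat.eq_zero_or_pos (off v.1 - off u.1) with h8 | h8
          · omega
          · have := Nat.le_of_dvd h8 h7
            omega
        · have h7 := (Nat.modEq_iff_dvd' hle).1 h3.symm
          rcases Nat.eq_zero_or_pos (off u.1 - off v.1) with h8 | h8
          · omega
          · have := Nat.le_of_dvd h8 h7
            omega
      exact huv (Subtype.ext (hinj h6))
    have hi := mem_union.1 i.2
    have hj := mem_union.1 j.2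
    have hk := mem_union.1 k.2
    rcases hi with hi | hi <;> rcases hj with hj | hj <;> rcases hk with hk | hk
    · exact key i j hij a hi hj h1.symm
    · exact key i j hij a hi hj h1.symm
    · exact key i k hik a hi hk h2.symm
    · exact key j k hjk b hj hk (h1.trans h2.symm)
    · exact key j k hjk a hj hk (h1.trans h2.symm)
    · exact key i k hik b hi hk h2.symm
    · exact key i j hij b hi hj h1.symm
    · exact key i j hij b hi hj h1.symm
  · intro i j hij
    have hne : off i.1 ≠ off j.1 := fun h => hij (Subtype.ext (hinj h))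
    rcases lt_or_gt_of_ne hne with hlt | hlt
    · refine card_big_primes (n := off j.1 - off i.1) hD1 (by omega) (by have := hfar j.1 i.1; omega) _ ?_
      intro p hp
      rw [mem_filter, mem_filter, mem_Ioc] at hp
      refine ⟨hp.1.2, hp.1.1.1, ?_⟩
      exact (Nat.modEq_iff_dvd' hlt.le).1 (rootL_eq hp.1.2 (hW p hp.1.2 hp.1.1.1) hp.2)
    · refine card_big_primes (n := off i.1 - off j.1) hD1 (by omega) (by have := hfar i.1 j.1; omega) _ ?_
      intro p hp
      rw [mem_filter, mem_filter, mem_Ioc] at hp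
      refine ⟨hp.1.2, hp.1.1.1, ?_⟩
      exact (Nat.modEq_iff_dvd' hlt.le).1 (rootL_eq hp.1.2 (hW p hp.1.2 hp.1.1.1) hp.2.symm)

end Pool.Agent.H.MP_711652_nt.G2
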