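import Pool.Agent.H.MP_711652_nt.G2.Pri

/-!
# GAP3: from the integers to the primes, uniform in `H`
-/

set_option autoImplicit false

namespace Pool.Agent.H.MP_711652_nt.G2

open Finset

/-- From integers to primes, uniformly in the length `H` and in the exceptional proportion `e`. -/
theorem pri_unif : ∃ C : ℝ, 0 < C ∧ ∃ X₁ : ℕ, ∀ X : ℕ, X₁ ≤ X → ∀ H g : ℕ,
    Real.log X ≤ H → H < X → ∀ e : ℝ, 0 ≤ e →
    (({n : ℕ | n < 2 * X ∧ ¬ HasRun n H g}.ncard : ℝ) ≤ e * X) →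
    ({p : ℕ | p ≤ X ∧ p.Prime ∧ ¬ ∃ k : ℕ, p ≤ Nat.nth Nat.Prime k ∧
        Nat.nth Nat.Prime k ≤ p + 2 * H ∧
        Nat.nth Nat.Prime k + g + 1 ≤ Nat.nth Nat.Prime (k + 1)}.ncard : ℝ) ≤
      C * Real.sqrt e * X / Real.log X := by
  classical
  obtain ⟨c, C, hc, hC, X₁, hX₁⟩ := basic_estimates
  obtain ⟨X₄, hX₄⟩ := Filter.eventually_atTop.1
    ((Real.tendsto_log_atTop.comp tendsto_natCast_atTop_atTop).eventually_ge_atTop (1 : ℝ))
  refine ⟨Real.sqrt (6 * C), Real.sqrt_pos.2 (by positivity), X₁ + X₄ + 1,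
    fun X hX H g hLH hHX e he hE' => ?_⟩
  obtain ⟨-, -, -, -, hsec⟩ := hX₁ X (by omega)
  have hlog1 : 1 ≤ Real.log X := hX₄ X (by omega)
  have hXpos : (0 : ℝ) < X := by exact_mod_cast (by omega : 0 < X)
  set L := Real.log X with hL
  set b := ⌈L⌉₊ with hb
  have hLb : L ≤ b := Nat.le_ceil _
  have hb0 : 0 < b := by
    have : (0 : ℝ) < b := by linarith
    exact_mod_cast this
  have hHb : b ≤ H := Nat.ceil_le.2 hLH
  set E := (range (2 * X)).filter (fun n => ¬ HasRun n H g) with hE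
  have hEcard : (E.card : ℝ) ≤ e * X := by
    have h2 : {n : ℕ | n < 2 * X ∧ ¬ HasRun n H g} = (E : Set ℕ) := by
      ext n
      rw [hE, coe_filter]
      simp only [mem_range]
    rw [h2, Set.ncard_coe_finset] at hE'
    exact hE'
  set S := (range (X + 1)).filter (fun p => p.Prime ∧ ¬ ∃ k : ℕ, p ≤ Nat.nth Nat.Prime k ∧
        Nat.nth Nat.Prime k ≤ p + 2 * H ∧
        Nat.nth Nat.Prime k + g + 1 ≤ Nat.nth Nat.Prime (k + 1)) with hS
  have hSc : {p : ℕ | p ≤ X ∧ p.Prime ∧ ¬ ∃ k : ℕ, p ≤ Nat.nth Nat.Prime k ∧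
        Nat.nth Nat.Prime k ≤ p + 2 * H ∧
        Nat.nth Nat.Prime k + g + 1 ≤ Nat.nth Nat.Prime (k + 1)} = (S : Set ℕ) := by
    ext n
    rw [hS, coe_filter]
    simp only [mem_range, Nat.lt_succ_iff]
  rw [hSc, Set.ncard_coe_finset]
  have key := bad_sq_le b X H (2 * X) hb0 E S (filter_subset _ _) (by
    intro p hp
    rw [hS, mem_filter, mem_range] at hp
    exact ⟨hp.2.1, by omega⟩) (by
    intro p hpS n h1 h2
    rw [hS, mem_filter, mem_range] at hpS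
    obtain ⟨hpX, hp, hPp⟩ := hpS
    rw [hE, mem_filter, mem_range]
    exact ⟨by omega, fun hr => hPp (gap_of_run hp h1 h2 hr)⟩)
  set B := S.card with hB
  have hMb : (X / b + 1) * b ≤ 2 * X := by
    have h1 : X / b * b ≤ X := Nat.div_mul_le_self X b
    rw [add_mul, one_mul]
    have : b ≤ X := by omega
    omega
  have hS' := hsec (X / b + 1) hMb
  have hbr : (0 : ℝ) < b := by exact_mod_cast hb0
  have hHbr : (b : ℝ) ≤ H := by exact_mod_cast hHb
  have hHpos : (0 : ℝ) < H := by linarith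
  have key2 : ((B : ℝ) * H) ^ 2 ≤
      (e * X) * ((3 * (H / b)) * ((2 * H) * (C * X / b))) := by
    have h1 : ((B : ℝ) * H) ^ 2 ≤ (E.card : ℝ) * (((H / b : ℕ) + 2) * ((b + H) *
        ∑ k ∈ range (X / b + 1), ((Fb b k : ℕ) : ℝ) ^ 2)) := by exact_mod_cast key
    refine h1.trans ?_
    have h2 : ((H / b : ℕ) : ℝ) ≤ (H : ℝ) / b := Nat.cast_div_le
    have h3 : (1 : ℝ) ≤ (H : ℝ) / b := by rw [le_div_iff₀ hbr]; linarith
    have h4 : (((H / b : ℕ) : ℝ) + 2) ≤ 3 * ((H : ℝ) / b) := by linarith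
    have h5 : (0 : ℝ) ≤ ∑ k ∈ range (X / b + 1), ((Fb b k : ℕ) : ℝ) ^ 2 := by positivity
    gcongr
    linarith
  have hsq : Real.sqrt (6 * C) ^ 2 = 6 * C := Real.sq_sqrt (by positivity)
  have hsqe : Real.sqrt e ^ 2 = e := Real.sq_sqrt he
  have key3 : (B : ℝ) ^ 2 ≤ (Real.sqrt (6 * C) * Real.sqrt e * X / b) ^ 2 := by
    have h1 : ((B : ℝ) * H) ^ 2 ≤ (Real.sqrt (6 * C) * Real.sqrt e * X / b) ^ 2 * (H : ℝ) ^ 2 := by
      refine key2.trans (le_of_eq ?_)
      rw [div_pow, mul_pow, mul_pow, hsq, hsqe]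
      field_simp
      ring
    rw [mul_pow] at h1
    exact le_of_mul_le_mul_right h1 (by positivity)
  have key4 : (B : ℝ) ≤ Real.sqrt (6 * C) * Real.sqrt e * X / b := by
    exact (sq_le_sq₀ (by positivity) (by positivity)).1 key3
  refine key4.trans ?_
  have : 0 < L := by linarith
  gcongr

end Pool.Agent.H.MP_711652_nt.G2
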