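import Pool.Agent.H.MP_711652_nt.G2.AllH
import Pool.Agent.H.MP_711652_nt.G2.PriU

/-!
# GAP3, (F): almost all primes, all `H` at once
-/

set_option autoImplicit false

namespace Pool.Agent.H.MP_711652_nt.G2

open Finset Filter

lemma exp_cbrt_small2 (C : ℝ) (hC : 0 < C) : ∃ u₁ : ℝ, 1 ≤ u₁ ∧ ∀ u : ℝ, u₁ ≤ u →
    C * Real.exp (-(1 / 2 * u ^ (1 / 3 : ℝ))) ≤ 1 / (4 * u) := by
  have h1 : ∀ᶠ w : ℝ in atTop, (32 * C) * w ^ 3 ≤ Real.exp w := by
    have h2 := (Real.isLittleO_pow_exp_atTop (n := 3)).bound (c := 1 / (32 * C)) (by positivity)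
    filter_upwards [h2, eventually_ge_atTop 0] with w hw hw0
    rw [Real.norm_of_nonneg (by positivity), Real.norm_of_nonneg (Real.exp_pos _).le] at hw
    rw [one_div_mul_eq_div, le_div_iff₀ (by positivity)] at hw
    linarith
  have h2 : Tendsto (fun u : ℝ => 1 / 2 * u ^ (1 / 3 : ℝ)) atTop atTop :=
    (tendsto_rpow_atTop (by norm_num)).const_mul_atTop (by norm_num)
  obtain ⟨u₁, hu₁⟩ := eventually_atTop.1 ((h2.eventually h1).and (eventually_ge_atTop 1))
  refine ⟨max u₁ 1, le_max_right _ _, fun u hu => ?_⟩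
  obtain ⟨h3, h4⟩ := hu₁ u ((le_max_left _ _).trans hu)
  have h5 : (u ^ (1 / 3 : ℝ)) ^ 3 = u := by
    rw [← Real.rpow_natCast, ← Real.rpow_mul (by linarith)]
    norm_num
  have h6 : (1 / 2 * u ^ (1 / 3 : ℝ)) ^ 3 = u / 8 := by
    rw [mul_pow, h5]; ring
  rw [h6] at h3
  have h7 : 0 < Real.exp (1 / 2 * u ^ (1 / 3 : ℝ)) := Real.exp_pos _
  rw [Real.exp_neg, ← div_eq_mul_inv, div_le_div_iff₀ h7 (by linarith)]
  linarith

lemma ev_exp_pow2 (B C : ℝ) : ∀ᶠ L : ℝ in atTop,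
    C * Real.exp (-(3 / 2 * (L ^ (1 / 20 : ℝ)) ^ (1 / 3 : ℝ))) ≤ L ^ (-B) := by
  filter_upwards [ev_exp_pow (4 / 3 * (B + 1)), eventually_ge_atTop C, eventually_ge_atTop 1]
    with L h1 h2 h3
  have hL0 : 0 < L := by linarith
  set w := (L ^ (1 / 20 : ℝ)) ^ (1 / 3 : ℝ) with hw
  have h4 : Real.exp (-(3 / 2 * w)) ≤ L ^ (-(B + 1)) := by
    rw [Real.rpow_def_of_pos hL0, Real.exp_le_exp] at h1 ⊢
    linarith
  have h5 : L ^ (-B) = L * L ^ (-(B + 1)) := by
    have : -B = 1 + -(B + 1) := by ring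
    rw [this, Real.rpow_add hL0, Real.rpow_one]
  rw [h5]
  have h6 : 0 < Real.exp (-(3 / 2 * w)) := Real.exp_pos _
  calc C * Real.exp (-(3 / 2 * w)) ≤ L * Real.exp (-(3 / 2 * w)) := by gcongr
    _ ≤ L * L ^ (-(B + 1)) := by gcongr

/-- The scales. -/
theorem scales (A C u₀ : ℝ) (hA : 0 < A) (hC : 0 < C) :
    ∃ v₀ : ℝ, ∃ X₀ : ℕ, ∀ X : ℕ, X₀ ≤ X → ∀ M : ℝ, Real.exp v₀ ≤ M →
      ∃ (J : ℕ) (uu : ℕ → ℝ),
        (∀ j, u₀ ≤ uu j ∧ uu j ≤ Real.log X ^ (1 / 20 : ℝ)) ∧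
        (∀ H : ℝ, M * Real.log X ≤ H → H ≤ X → ∃ j ∈ range (J + 1),
          Real.exp (uu j) * Real.log X ≤ H ∧
          Real.log (Real.log (H / Real.log X)) ≤ 40 * Real.log (uu j)) ∧
        ∑ j ∈ range (J + 1), (C * Real.exp (-(3 / 2 * uu j ^ (1 / 3 : ℝ))) +
            C * Real.log X ^ (-(A + 3))) ≤
          Real.exp (-(Real.log M ^ (1 / 3 : ℝ))) + Real.log X ^ (-A) := by
  classical
  obtain ⟨u₁, hu₁, hexp⟩ := exp_cbrt_small2 C hC
  set v₀ : ℝ := max (max u₀ u₁) 2 with hv₀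
  have hv₀0 : u₀ ≤ v₀ := (le_max_left _ _).trans (le_max_left _ _)
  have hv₀1 : u₁ ≤ v₀ := (le_max_right _ _).trans (le_max_left _ _)
  have hv₀2 : 2 ≤ v₀ := le_max_right _ _
  have t20 : Tendsto (fun L : ℝ => L ^ (1 / 20 : ℝ)) atTop atTop := tendsto_rpow_atTop (by norm_num)
  have e1 := ev_L (t20.eventually_ge_atTop v₀)
  have e2 := ev_L (ev_exp_pow2 (A + 3) C)
  have e4 := ev_L (eventually_ge_atTop (8 + C))
  obtain ⟨X₁, hX₁⟩ := eventually_atTop.1 ((e1.and e2).and e4)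
  refine ⟨v₀, X₁ + 1, fun X hX M hM => ?_⟩
  obtain ⟨⟨f1, f2⟩, f4⟩ := hX₁ X (by omega)
  have hX0 : (0 : ℝ) < X := by exact_mod_cast (by omega : 0 < X)
  set L := Real.log X with hL
  have hL0 : 0 < L := by linarith
  have hL1 : 1 ≤ L := by linarith
  have hM0 : 0 < M := lt_of_lt_of_le (Real.exp_pos _) hM
  have hlogM : v₀ ≤ Real.log M := by
    rw [Real.le_log_iff_exp_le hM0]; exact hM
  set S := L ^ (1 / 20 : ℝ) with hS
  set v := min (Real.log M) S with hv
  have hvv₀ : v₀ ≤ v := le_min hlogM f1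
  have hv0 : 0 < v := by linarith
  set uu : ℕ → ℝ := fun j => min (2 ^ j * v) S with huu
  have huv : ∀ j, v ≤ uu j := by
    intro j
    apply le_min _ (min_le_right _ _)
    have : (1 : ℝ) ≤ 2 ^ j := one_le_pow₀ (by norm_num)
    nlinarith
  set J := ⌈L⌉₊ with hJ
  have hSL : S ≤ L := by
    calc S = L ^ (1 / 20 : ℝ) := rfl
      _ ≤ L ^ (1 : ℝ) := Real.rpow_le_rpow_of_exponent_le hL1 (by norm_num)
      _ = L := Real.rpow_one L
  have hJL : (J : ℝ) ≤ L + 1 := (Nat.ceil_lt_add_one hL0.le).le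
  have hLA : 0 < L ^ (-(A + 3)) := Real.rpow_pos_of_pos hL0 _
  refine ⟨J, uu, fun j => ⟨hv₀0.trans (hvv₀.trans (huv j)), min_le_right _ _⟩, ?_, ?_⟩
  · intro H hH1 hH2
    set u := Real.log (H / L) with hu
    have hHL : M ≤ H / L := by rw [le_div_iff₀ hL0]; exact hH1
    have huM : Real.log M ≤ u := Real.log_le_log hM0 hHL
    have hHpos : 0 < H := lt_of_lt_of_le (by positivity) hH1
    have huL : u ≤ L := by
      have h1 : H / L ≤ X := by
        rw [div_le_iff₀ hL0]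
        nlinarith
      exact Real.log_le_log (by positivity) h1
    set U := min u S with hU
    have hvU : v ≤ U := le_min ((min_le_left _ _).trans huM) (min_le_right _ _)
    obtain ⟨j, hj1, hj2⟩ := exists_nat_pow_near (x := U / v) (y := (2 : ℝ))
      (by rw [le_div_iff₀ hv0]; linarith) (by norm_num)
    rw [le_div_iff₀ hv0] at hj1
    rw [div_lt_iff₀ hv0] at hj2
    have hjJ : j < J + 1 := by
      have h1 : (j : ℝ) < 2 ^ j := by exact_mod_cast Nat.lt_two_pow_self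
      have h2 : (2 : ℝ) ^ j ≤ 2 ^ j * v := by
        have : (0 : ℝ) < 2 ^ j := by positivity
        nlinarith
      have h3 : (j : ℝ) < L := by
        have : U ≤ S := min_le_right _ _
        linarith
      have h4 : (j : ℝ) < J := lt_of_lt_of_le h3 (Nat.le_ceil _)
      have : j < J := by exact_mod_cast h4
      omega
    have huj : uu j = 2 ^ j * v := min_eq_left (hj1.trans (min_le_right _ _))
    have huj2 : uu j ≤ u := by rw [huj]; exact hj1.trans (min_le_left _ _)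
    have hujU : U < 2 * uu j := by
      rw [huj]
      calc U < 2 ^ (j + 1) * v := hj2
        _ = 2 * (2 ^ j * v) := by ring
    have huj3 : 2 ≤ uu j := by linarith [huv j]
    have hlogj : 0 < Real.log (uu j) := Real.log_pos (by linarith)
    have hlog2 : Real.log (2 * uu j) ≤ 2 * Real.log (uu j) := by
      rw [Real.log_mul (by norm_num) (by linarith)]
      have : Real.log 2 ≤ Real.log (uu j) := Real.log_le_log (by norm_num) huj3
      linarith
    have hlogu : Real.log u ≤ 40 * Real.log (uu j) := by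
      rcases min_choice u S with h1 | h1
      · have h2 : u < 2 * uu j := by
          rw [hU, h1] at hujU; exact hujU
        have h3 : Real.log u ≤ Real.log (2 * uu j) := Real.log_le_log (by linarith) h2.le
        linarith
      · have h2 : S < 2 * uu j := by
          rw [hU, h1] at hujU; exact hujU
        have h3 : Real.log S ≤ Real.log (2 * uu j) :=
          Real.log_le_log (by linarith [min_le_right (Real.log M) S]) h2.le
        have h4 : Real.log S = 1 / 20 * Real.log L := by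
          rw [hS, Real.log_rpow hL0]
        have h5 : Real.log u ≤ Real.log L := Real.log_le_log (by linarith) huL
        linarith
    refine ⟨j, mem_range.2 hjJ, ?_, hlogu⟩
    have h1 : Real.exp (uu j) ≤ H / L := by
      rw [← Real.le_log_iff_exp_le (by positivity)]
      exact huj2
    rw [le_div_iff₀ hL0] at h1
    exact h1
  · have hone : ∀ j, C * Real.exp (-(3 / 2 * uu j ^ (1 / 3 : ℝ))) + C * L ^ (-(A + 3)) ≤
        Real.exp (-(Real.log M ^ (1 / 3 : ℝ))) * ((1 / 2) ^ j / 4) + (1 + C) * L ^ (-(A + 3)) := by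
      intro j
      by_cases hsat : 2 ^ j * v ≤ S
      · have hu : uu j = 2 ^ j * v := min_eq_left hsat
        by_cases hMS : Real.log M ≤ S
        · have hvM : v = Real.log M := min_eq_left hMS
          have h3 : C * Real.exp (-(3 / 2 * uu j ^ (1 / 3 : ℝ))) ≤
              Real.exp (-(Real.log M ^ (1 / 3 : ℝ))) * ((1 / 2) ^ j / 4) := by
            have h4 : C * Real.exp (-(3 / 2 * uu j ^ (1 / 3 : ℝ))) =
                Real.exp (-(uu j ^ (1 / 3 : ℝ))) *
                  (C * Real.exp (-(1 / 2 * uu j ^ (1 / 3 : ℝ)))) := by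
              rw [mul_left_comm, ← Real.exp_add]; congr 2; ring
            rw [h4]
            have h5 : Real.log M ^ (1 / 3 : ℝ) ≤ uu j ^ (1 / 3 : ℝ) := by
              apply Real.rpow_le_rpow (by linarith) _ (by norm_num)
              rw [← hvM]; exact huv j
            have h6 : C * Real.exp (-(1 / 2 * uu j ^ (1 / 3 : ℝ))) ≤ (1 / 2) ^ j / 4 := by
              refine (hexp (uu j) (hv₀1.trans (hvv₀.trans (huv j)))).trans ?_
              rw [hu]
              have h7 : (1 : ℝ) ≤ v := by linarith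
              have h8 : (0 : ℝ) < 2 ^ j := by positivity
              rw [one_div_pow, div_div, one_div]
              rw [one_div]
              apply inv_anti₀ (by positivity)
              nlinarith
            have h9 : Real.exp (-(uu j ^ (1 / 3 : ℝ))) ≤ Real.exp (-(Real.log M ^ (1 / 3 : ℝ))) := by
              rw [Real.exp_le_exp]; linarith
            exact mul_le_mul h9 h6 (by positivity) (Real.exp_pos _).le
          linarith
        · push Not at hMS
          have hvS : v = S := min_eq_right hMS.le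
          have huS : uu j = S := le_antisymm (min_le_right _ _) (by rw [← hvS]; exact huv j)
          rw [huS]
          have h3 : 0 ≤ Real.exp (-(Real.log M ^ (1 / 3 : ℝ))) * ((1 / 2) ^ j / 4) := by positivity
          linarith
      · push Not at hsat
        have huS : uu j = S := min_eq_right hsat.le
        rw [huS]
        have h3 : 0 ≤ Real.exp (-(Real.log M ^ (1 / 3 : ℝ))) * ((1 / 2) ^ j / 4) := by positivity
        linarith
    refine (sum_le_sum fun j _ => hone j).trans ?_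
    rw [sum_add_distrib, ← mul_sum, sum_const, card_range, nsmul_eq_mul]
    push_cast
    have h1 : ∑ j ∈ range (J + 1), ((1 / 2 : ℝ) ^ j / 4) ≤ 1 / 2 := by
      rw [← sum_div]
      have h2 := sum_geometric_two_le (J + 1)
      linarith
    have h3 : Real.exp (-(Real.log M ^ (1 / 3 : ℝ))) * ∑ j ∈ range (J + 1), ((1 / 2 : ℝ) ^ j / 4) ≤
        Real.exp (-(Real.log M ^ (1 / 3 : ℝ))) * (1 / 2) :=
      mul_le_mul_of_nonneg_left h1 (Real.exp_pos _).le
    have hJ2 : ((J : ℝ) + 1) * ((1 + C) * L ^ (-(A + 3))) ≤ L ^ (-A) := by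
      have h1 : L ^ (-(A + 3)) = L ^ (-A) * (1 / L ^ 3) := by
        have h2 : -(A + 3) = -A + (-3 : ℝ) := by ring
        rw [h2, Real.rpow_add hL0, Real.rpow_neg hL0.le 3, one_div]
        norm_num
      rw [h1]
      have h2 : 0 < L ^ (-A) := Real.rpow_pos_of_pos hL0 _
      have h3 : ((J : ℝ) + 1) * (1 + C) * (1 / L ^ 3) ≤ 1 := by
        rw [mul_one_div, div_le_one (by positivity)]
        have h4 : L ^ 3 = L * L * L := by ring
        have h5 : (J : ℝ) + 1 ≤ 2 * L := by linarith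
        have h6 : 1 + C ≤ L := by linarith
        have h7 : ((J : ℝ) + 1) * (1 + C) ≤ (2 * L) * L := by gcongr
        rw [h4]
        nlinarith [mul_pos hL0 hL0]
      calc ((J : ℝ) + 1) * ((1 + C) * (L ^ (-A) * (1 / L ^ 3))) =
            (((J : ℝ) + 1) * (1 + C) * (1 / L ^ 3)) * L ^ (-A) := by ring
        _ ≤ 1 * L ^ (-A) := by gcongr
        _ = L ^ (-A) := one_mul _
    have h4 : 0 < Real.exp (-(Real.log M ^ (1 / 3 : ℝ))) := Real.exp_pos _
    linarith

lemma hasRun_of_void2 {n H g : ℕ} {H' s : ℝ} (hH : H' ≤ H) (hg : (g : ℝ) ≤ s)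
    (hv : Void n H' s) : HasRun n H g := by
  obtain ⟨t, h1, h2, h3⟩ := hv
  refine ⟨t - n, ?_, fun k k1 k2 => h3 (n + k) (by omega) ?_⟩
  · have h4 : (((t - n : ℕ) : ℝ)) = t - n := by rw [Nat.cast_sub h1]
    have : (((t - n : ℕ) : ℝ)) + (g : ℝ) ≤ H := by
      rw [h4]; linarith
    exact_mod_cast this
  · have h5 : n + k ≤ t + g := by omega
    have h6 : (((n + k : ℕ) : ℝ)) ≤ t + g := by exact_mod_cast h5
    linarith

lemma cbrt_sub_one {u : ℝ} (hu : 1 ≤ u) : u ^ (1 / 3 : ℝ) ≤ (u - 1) ^ (1 / 3 : ℝ) + 1 := by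
  set x := (u - 1) ^ (1 / 3 : ℝ) with hx
  have hx0 : 0 ≤ x := Real.rpow_nonneg (by linarith) _
  have hx3 : x ^ 3 = u - 1 := by
    rw [hx, ← Real.rpow_natCast, ← Real.rpow_mul (by linarith)]
    norm_num
  have h1 : u ≤ (x + 1) ^ 3 := by nlinarith [sq_nonneg x]
  calc u ^ (1 / 3 : ℝ) ≤ ((x + 1) ^ 3) ^ (1 / 3 : ℝ) :=
        Real.rpow_le_rpow (by linarith) h1 (by norm_num)
    _ = x + 1 := by
      rw [← Real.rpow_natCast, ← Real.rpow_mul (by linarith)]
      norm_num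

/-- One scale, primes. -/
theorem oneScaleP (h : OneScale) : ∃ C : ℝ, 0 < C ∧ ∀ A : ℝ, 0 < A → ∃ c : ℝ, 0 < c ∧ ∃ u₀ : ℝ,
    ∃ X₀ : ℕ, ∀ X : ℕ, X₀ ≤ X → ∀ u : ℝ, u₀ ≤ u → u ≤ Real.log X ^ (1 / 20 : ℝ) →
      ({p : ℕ | p ≤ X ∧ p.Prime ∧ ¬ ∃ k : ℕ, p ≤ Nat.nth Nat.Prime k ∧
        (Nat.nth Nat.Prime k : ℝ) ≤ p + Real.exp u * Real.log X ∧
        c * Real.log X * Real.log u ≤
          (Nat.nth Nat.Prime (k + 1) : ℝ) - Nat.nth Nat.Prime k}.ncard : ℝ) ≤
      (C * Real.exp (-(3 / 2 * u ^ (1 / 3 : ℝ))) + C * Real.log X ^ (-A)) * X / Real.log X := by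
  classical
  obtain ⟨C₁, hC₁, X₁, hX₁⟩ := pri_unif
  refine ⟨C₁ * 2 * Real.exp (3 / 2), by positivity, fun A hA => ?_⟩
  obtain ⟨c, hc, u₀, hu₀, X₀, hX₀⟩ := h (2 * A) (by linarith)
  have e1 : ∀ᶠ L : ℝ in atTop, L ^ (1 / 20 : ℝ) + Real.log L + 1 ≤ L := by
    have h1 := (isLittleO_rpow_exp_atTop (1 : ℝ))
    have h2 : ∀ᶠ L : ℝ in atTop, L ^ (1 / 20 : ℝ) ≤ 1 / 4 * L := by
      have h3 : Tendsto (fun L : ℝ => L ^ (19 / 20 : ℝ)) atTop atTop :=
        tendsto_rpow_atTop (by norm_num)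
      filter_upwards [h3.eventually_ge_atTop 4, eventually_ge_atTop 1] with L h4 h5
      have h6 : L = L ^ (1 / 20 : ℝ) * L ^ (19 / 20 : ℝ) := by
        rw [← Real.rpow_add (by linarith)]
        norm_num
      have h7 : 0 ≤ L ^ (1 / 20 : ℝ) := by positivity
      nlinarith
    have h8 : ∀ᶠ L : ℝ in atTop, Real.log L ≤ 1 / 4 * L := by
      have h9 := (Real.isLittleO_log_id_atTop).bound (c := 1 / 4) (by norm_num)
      filter_upwards [h9, eventually_ge_atTop 1] with w hw hw1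
      rw [id, Real.norm_of_nonneg (Real.log_nonneg hw1), Real.norm_of_nonneg (by linarith)] at hw
      exact hw
    filter_upwards [h2, h8, eventually_ge_atTop 4] with L h9 h10 h11
    linarith
  obtain ⟨X₂, hX₂⟩ := eventually_atTop.1 ((ev_L e1).and (ev_L (eventually_ge_atTop (20 : ℝ))))
  refine ⟨c / 2, by positivity, max (u₀ + 1) 4, X₀ + X₁ + X₂ + 1, fun X hX u hu hu2 => ?_⟩
  obtain ⟨f1, f2⟩ := hX₂ X (by omega)
  have hX0 : (0 : ℝ) < X := by exact_mod_cast (by omega : 0 < X)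
  set L := Real.log X with hL
  have hL0 : 0 < L := by linarith
  have hu4 : 4 ≤ u := (le_max_right _ _).trans hu
  have huu₀ : u₀ ≤ u - 1 := by
    have := (le_max_left (u₀ + 1) 4).trans hu
    linarith
  -- the logarithm at `2 X`
  set L' := Real.log ((2 * X : ℕ) : ℝ) with hL'
  have hLL' : L' = L + Real.log 2 := by
    rw [hL', Nat.cast_mul, Real.log_mul (by norm_num) hX0.ne', hL]
    push_cast
    ring
  have hlog2a : 0 < Real.log 2 := Real.log_pos (by norm_num)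
  have hlog2b : Real.log 2 ≤ 1 := by
    have := Real.log_two_lt_d9
    linarith
  have hL'L : L ≤ L' := by linarith
  have hone := hX₀ (2 * X) (by omega) (u - 1) huu₀ (by
    have h1 : L ^ (1 / 20 : ℝ) ≤ L' ^ (1 / 20 : ℝ) :=
      Real.rpow_le_rpow hL0.le hL'L (by norm_num)
    linarith)
  rw [← hL'] at hone
  set H := ⌊Real.exp u * L / 2⌋₊ with hH
  have hexpu : 4 ≤ Real.exp u := by
    have := Real.add_one_le_exp u
    linarith
  have hHu : (H : ℝ) ≤ Real.exp u * L / 2 := Nat.floor_le (by positivity)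
  have hHl : Real.exp u * L / 2 - 1 < H := Nat.sub_one_lt_floor _
  have hLH : L ≤ H := by nlinarith
  have hHX : H < X := by
    have h1 : Real.exp u * L ≤ X := by
      have h2 : (X : ℝ) = Real.exp L := (Real.exp_log hX0).symm
      have h3 : Real.exp u * L = Real.exp (u + Real.log L) := by
        rw [Real.exp_add, Real.exp_log hL0]
      rw [h2, h3, Real.exp_le_exp]
      linarith
    have h4 : (H : ℝ) < X := by
      have : 0 < Real.exp u * L := by positivity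
      linarith
    exact_mod_cast h4
  have hlogu : 0 < Real.log (u - 1) := Real.log_pos (by linarith)
  set g := ⌊c * L' * Real.log (u - 1)⌋₊ with hg
  have hgu : (g : ℝ) ≤ c * L' * Real.log (u - 1) := Nat.floor_le (by positivity)
  have hgl : c * L' * Real.log (u - 1) < g + 1 := Nat.lt_floor_add_one _
  have hexp1 : Real.exp (u - 1) * L' ≤ H := by
    have h1 : Real.exp (u - 1) = Real.exp u * Real.exp (-1) := by
      rw [← Real.exp_add]; congr 1
    have h2 : Real.exp (-1) ≤ 2 / 5 := by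
      have h3 := Real.exp_one_gt_d9
      rw [Real.exp_neg, inv_le_comm₀ (Real.exp_pos _) (by norm_num)]
      linarith
    have h3 : L' ≤ L * (21 / 20) := by linarith
    have h4 : Real.exp (u - 1) * L' ≤ Real.exp u * (2 / 5) * (L * (21 / 20)) := by
      rw [h1]; gcongr
    nlinarith
  set e : ℝ := 2 * (Real.exp (-(3 * (u - 1) ^ (1 / 3 : ℝ))) + L ^ (-(2 * A))) with he
  have hLA : 0 < L ^ (-(2 * A)) := Real.rpow_pos_of_pos hL0 _
  have he0 : 0 ≤ e := by
    rw [he]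
    have := Real.exp_pos (-(3 * (u - 1) ^ (1 / 3 : ℝ)))
    positivity
  have hbad : ({n : ℕ | n < 2 * X ∧ ¬ HasRun n H g}.ncard : ℝ) ≤ e * X := by
    have h1 : {n : ℕ | n < 2 * X ∧ ¬ HasRun n H g} ⊆
        {n : ℕ | n < 2 * X ∧ ¬ Void n (Real.exp (u - 1) * L') (c * L' * Real.log (u - 1))} := by
      rintro n ⟨hn1, hn2⟩
      exact ⟨hn1, fun hv => hn2 (hasRun_of_void2 hexp1 hgu hv)⟩
    have h2 := Set.ncard_le_ncard h1 ((Set.finite_Iio (2 * X)).subset (fun n hn => hn.1))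
    have h3 : ({n : ℕ | n < 2 * X ∧ ¬ HasRun n H g}.ncard : ℝ) ≤
      ({n : ℕ | n < 2 * X ∧ ¬ Void n (Real.exp (u - 1) * L') (c * L' * Real.log (u - 1))}.ncard : ℝ) := by
      exact_mod_cast h2
    refine (h3.trans hone).trans ?_
    have h4 : L' ^ (-(2 * A)) ≤ L ^ (-(2 * A)) :=
      Real.rpow_le_rpow_of_nonpos hL0 hL'L (by linarith)
    rw [he]
    push_cast
    calc (Real.exp (-(3 * (u - 1) ^ (1 / 3 : ℝ))) + L' ^ (-(2 * A))) * (2 * X)
        ≤ (Real.exp (-(3 * (u - 1) ^ (1 / 3 : ℝ))) + L ^ (-(2 * A))) * (2 * X) := by gcongr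
      _ = _ := by ring
  have hpri := hX₁ X (by omega) H g hLH hHX e he0 hbad
  have hincl : {p : ℕ | p ≤ X ∧ p.Prime ∧ ¬ ∃ k : ℕ, p ≤ Nat.nth Nat.Prime k ∧
        (Nat.nth Nat.Prime k : ℝ) ≤ p + Real.exp u * L ∧
        c / 2 * L * Real.log u ≤
          (Nat.nth Nat.Prime (k + 1) : ℝ) - Nat.nth Nat.Prime k} ⊆
      {p : ℕ | p ≤ X ∧ p.Prime ∧ ¬ ∃ k : ℕ, p ≤ Nat.nth Nat.Prime k ∧
        Nat.nth Nat.Prime k ≤ p + 2 * H ∧
        Nat.nth Nat.Prime k + g + 1 ≤ Nat.nth Nat.Prime (k + 1)} := by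
    rintro p ⟨hp1, hp2, hp3⟩
    refine ⟨hp1, hp2, fun hk => hp3 ?_⟩
    obtain ⟨k, k1, k2, k3⟩ := hk
    refine ⟨k, k1, ?_, ?_⟩
    · have h1 : (Nat.nth Nat.Prime k : ℝ) ≤ p + 2 * H := by exact_mod_cast k2
      linarith
    · have h1 : (Nat.nth Nat.Prime k : ℝ) + g + 1 ≤ Nat.nth Nat.Prime (k + 1) := by
        exact_mod_cast k3
      have h2 : Real.log u ≤ 2 * Real.log (u - 1) := by
        have h3 : 2 * Real.log (u - 1) = Real.log ((u - 1) ^ 2) := by
          rw [Real.log_pow]; push_cast; ring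
        rw [h3]
        apply Real.log_le_log (by linarith)
        nlinarith
      have h4 : c / 2 * L * Real.log u ≤ c * L' * Real.log (u - 1) := by
        calc c / 2 * L * Real.log u ≤ c / 2 * L * (2 * Real.log (u - 1)) := by gcongr
          _ = c * L * Real.log (u - 1) := by ring
          _ ≤ c * L' * Real.log (u - 1) := by gcongr
      linarith
  have hfin : {p : ℕ | p ≤ X ∧ p.Prime ∧ ¬ ∃ k : ℕ, p ≤ Nat.nth Nat.Prime k ∧
        Nat.nth Nat.Prime k ≤ p + 2 * H ∧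
        Nat.nth Nat.Prime k + g + 1 ≤ Nat.nth Nat.Prime (k + 1)}.Finite :=
    (Set.finite_Iic X).subset (fun n hn => hn.1)
  have h1 := Set.ncard_le_ncard hincl hfin
  have h2 : ({p : ℕ | p ≤ X ∧ p.Prime ∧ ¬ ∃ k : ℕ, p ≤ Nat.nth Nat.Prime k ∧
        (Nat.nth Nat.Prime k : ℝ) ≤ p + Real.exp u * L ∧
        c / 2 * L * Real.log u ≤
          (Nat.nth Nat.Prime (k + 1) : ℝ) - Nat.nth Nat.Prime k}.ncard : ℝ) ≤
      C₁ * Real.sqrt e * X / L := by
    refine le_trans ?_ hpri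
    exact_mod_cast h1
  refine h2.trans ?_
  have hsq : Real.sqrt e ≤ 2 * Real.exp (3 / 2) *
      (Real.exp (-(3 / 2 * u ^ (1 / 3 : ℝ))) + L ^ (-A)) := by
    rw [Real.sqrt_le_left (by positivity)]
    have h3 := cbrt_sub_one (u := u) (by linarith)
    have h4 : Real.exp (-(3 * (u - 1) ^ (1 / 3 : ℝ))) ≤
        Real.exp 3 * Real.exp (-(3 / 2 * u ^ (1 / 3 : ℝ))) ^ 2 := by
      rw [← Real.exp_nat_mul, ← Real.exp_add, Real.exp_le_exp]
      push_cast
      linarith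
    have h5 : L ^ (-(2 * A)) = (L ^ (-A)) ^ 2 := by
      rw [← Real.rpow_natCast, ← Real.rpow_mul hL0.le]
      congr 1
      push_cast
      ring
    have h6 : Real.exp (3 / 2) ^ 2 = Real.exp 3 := by
      rw [← Real.exp_nat_mul]
      congr 1
      push_cast
      ring
    have h7 : 0 < L ^ (-A) := Real.rpow_pos_of_pos hL0 _
    have h8 : 0 < Real.exp (-(3 / 2 * u ^ (1 / 3 : ℝ))) := Real.exp_pos _
    have h9 : 1 ≤ Real.exp 3 := Real.one_le_exp (by norm_num)
    rw [he, h5, mul_pow, mul_pow, h6]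
    set x := Real.exp (-(3 / 2 * u ^ (1 / 3 : ℝ)))
    set y := L ^ (-A)
    calc 2 * (Real.exp (-(3 * (u - 1) ^ (1 / 3 : ℝ))) + y ^ 2)
        ≤ 2 * (Real.exp 3 * x ^ 2 + Real.exp 3 * y ^ 2) := by
          gcongr
          nlinarith [sq_nonneg y]
      _ ≤ 2 ^ 2 * Real.exp 3 * (x + y) ^ 2 := by
          have h10 : 0 ≤ Real.exp 3 * (x * y) := by positivity
          have h11 : 0 ≤ Real.exp 3 * x ^ 2 := by positivity
          have h12 : 0 ≤ Real.exp 3 * y ^ 2 := by positivity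
          nlinarith
  calc C₁ * Real.sqrt e * X / L ≤ C₁ * (2 * Real.exp (3 / 2) *
      (Real.exp (-(3 / 2 * u ^ (1 / 3 : ℝ))) + L ^ (-A))) * X / L := by gcongr
    _ = (C₁ * 2 * Real.exp (3 / 2) * Real.exp (-(3 / 2 * u ^ (1 / 3 : ℝ))) +
        C₁ * 2 * Real.exp (3 / 2) * L ^ (-A)) * X / L := by ring

theorem allP_of_oneScale (h : OneScale) : AllP := by
  classical
  intro A hA
  obtain ⟨C, hC, hone⟩ := oneScaleP h
  obtain ⟨c, hc, u₀, X₀, hX₀⟩ := hone (A + 3) (by linarith)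
  obtain ⟨v₀, X₁, hX₁⟩ := scales A C (max u₀ 2) hA hC
  obtain ⟨X₂, hX₂⟩ := eventually_atTop.1 (ev_L (eventually_ge_atTop (1 : ℝ)))
  refine ⟨c / 40, by positivity, Real.exp v₀, X₀ + X₁ + X₂ + 1, fun X hX M hM => ?_⟩
  have hX0 : (0 : ℝ) < X := by exact_mod_cast (by omega : 0 < X)
  have hL1 := hX₂ X (by omega)
  obtain ⟨J, uu, g1, g2, g3⟩ := hX₁ X (by omega) M hM
  set L := Real.log X with hL
  have hL0 : 0 < L := by linarith
  set E : ℕ → Finset ℕ := fun j => (range (X + 1)).filter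
    (fun p => p.Prime ∧ ¬ ∃ k : ℕ, p ≤ Nat.nth Nat.Prime k ∧
        (Nat.nth Nat.Prime k : ℝ) ≤ p + Real.exp (uu j) * L ∧
        c * L * Real.log (uu j) ≤
          (Nat.nth Nat.Prime (k + 1) : ℝ) - Nat.nth Nat.Prime k) with hE
  have hEcard : ∀ j, ((E j).card : ℝ) ≤
      (C * Real.exp (-(3 / 2 * uu j ^ (1 / 3 : ℝ))) + C * L ^ (-(A + 3))) * (X / L) := by
    intro j
    have h1 := hX₀ X (by omega) (uu j) ((le_max_left _ _).trans (g1 j).1) (g1 j).2
    have h2 : {p : ℕ | p ≤ X ∧ p.Prime ∧ ¬ ∃ k : ℕ, p ≤ Nat.nth Nat.Prime k ∧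
        (Nat.nth Nat.Prime k : ℝ) ≤ p + Real.exp (uu j) * L ∧
        c * L * Real.log (uu j) ≤
          (Nat.nth Nat.Prime (k + 1) : ℝ) - Nat.nth Nat.Prime k} = (E j : Set ℕ) := by
      ext n
      rw [hE]
      simp only [Set.mem_setOf_eq, coe_filter, mem_range, Nat.lt_succ_iff]
    rw [h2, Set.ncard_coe_finset] at h1
    refine h1.trans (le_of_eq ?_)
    ring
  have hsub : {p : ℕ | p ≤ X ∧ p.Prime ∧ ¬ ∀ H : ℝ, M * L ≤ H → H ≤ X →
        ∃ k : ℕ, p ≤ Nat.nth Nat.Prime k ∧ (Nat.nth Nat.Prime k : ℝ) ≤ p + H ∧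
          c / 40 * L * Real.log (Real.log (H / L)) ≤
            (Nat.nth Nat.Prime (k + 1) : ℝ) - Nat.nth Nat.Prime k} ⊆
      (((range (J + 1)).biUnion E : Finset ℕ) : Set ℕ) := by
    rintro p ⟨hpX, hp, hn⟩
    rw [Finset.mem_coe, mem_biUnion]
    by_contra hcon
    push Not at hcon
    apply hn
    intro H hH1 hH2
    obtain ⟨j, hj, hj1, hj2⟩ := g2 H hH1 hH2
    have hnj := hcon j hj
    rw [hE] at hnj
    simp only [mem_filter, mem_range, Nat.lt_succ_iff, not_and, not_not] at hnj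
    obtain ⟨k, k1, k2, k3⟩ := hnj hpX hp
    refine ⟨k, k1, by linarith, le_trans ?_ k3⟩
    have h1 : 0 < c * L := by positivity
    calc c / 40 * L * Real.log (Real.log (H / L)) = (c * L / 40) * Real.log (Real.log (H / L)) := by
          ring
      _ ≤ (c * L / 40) * (40 * Real.log (uu j)) := by gcongr
      _ = c * L * Real.log (uu j) := by ring
  have h1 := Set.ncard_le_ncard hsub (Finset.finite_toSet _)
  rw [Set.ncard_coe_finset] at h1
  have h2 : ({p : ℕ | p ≤ X ∧ p.Prime ∧ ¬ ∀ H : ℝ, M * L ≤ H → H ≤ X →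
        ∃ k : ℕ, p ≤ Nat.nth Nat.Prime k ∧ (Nat.nth Nat.Prime k : ℝ) ≤ p + H ∧
          c / 40 * L * Real.log (Real.log (H / L)) ≤
            (Nat.nth Nat.Prime (k + 1) : ℝ) - Nat.nth Nat.Prime k}.ncard : ℝ) ≤
      ∑ j ∈ range (J + 1), ((E j).card : ℝ) := by
    exact_mod_cast h1.trans card_biUnion_le
  refine h2.trans ((sum_le_sum fun j _ => hEcard j).trans ?_)
  rw [← sum_mul]
  have h3 : 0 < (X : ℝ) / L := by positivity
  calc (∑ j ∈ range (J + 1), (C * Real.exp (-(3 / 2 * uu j ^ (1 / 3 : ℝ))) +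
        C * L ^ (-(A + 3)))) * (X / L)
      ≤ (Real.exp (-(Real.log M ^ (1 / 3 : ℝ))) + L ^ (-A)) * (X / L) := by gcongr
    _ = (Real.exp (-(Real.log M ^ (1 / 3 : ℝ))) + L ^ (-A)) * X / L := by ring

end Pool.Agent.H.MP_711652_nt.G2
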