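import Pool.Agent.H.MP_711652_nt.G2.AllH

/-!
# GAP3, (F): from one residue to all `n < X`, one scale
-/

set_option autoImplicit false

namespace Pool.Agent.H.MP_711652_nt.G2

open Finset Filter

/-- One point. -/
lemma void_of_window {X n W D j Lam : ℕ} {H s : ℝ} (hW : W = primorial D)
    (hs : s ≤ Lam) (hD : (D : ℝ) ≤ (X : ℝ) ^ (1 / 10 : ℝ)) (hn : (X : ℝ) ^ (1 / 10 : ℝ) ≤ n)
    (hj : (((j + 1) * Lam : ℕ) : ℝ) ≤ H)
    (hv : ∀ k : ℕ, j * Lam < k → k ≤ (j + 1) * Lam → Nat.Coprime (n % W + k) W →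
      ∃ p : ℕ, p.Prime ∧ (p : ℝ) ≤ (X : ℝ) ^ (1 / 10 : ℝ) ∧ p ∣ W * (n / W) + n % W + k) :
    Void n H s := by
  refine ⟨n + j * Lam, Nat.le_add_right _ _, ?_, ?_⟩
  · push_cast at hj ⊢
    nlinarith
  · intro q hq1 hq2 hq
    have hq3 : q ≤ n + (j + 1) * Lam := by
      have h1 : (q : ℝ) ≤ ((n + (j + 1) * Lam : ℕ) : ℝ) := by
        push_cast at hq2 ⊢
        nlinarith
      exact_mod_cast h1
    obtain ⟨k, rfl⟩ : ∃ k, q = n + k := ⟨q - n, by omega⟩
    have hk1 : j * Lam < k := by omega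
    have hk2 : k ≤ (j + 1) * Lam := by omega
    have hk0 : 0 < k := by omega
    have hnk : (X : ℝ) ^ (1 / 10 : ℝ) < ((n + k : ℕ) : ℝ) := by
      push_cast
      have : (0 : ℝ) < k := by exact_mod_cast hk0
      linarith
    have hdm : W * (n / W) + n % W = n := Nat.div_add_mod n W
    by_cases hc : Nat.Coprime (n % W + k) W
    · obtain ⟨p, hp, hpX, hpd⟩ := hv k hk1 hk2 hc
      rw [hdm] at hpd
      have h1 : p = n + k := (Nat.prime_dvd_prime_iff_eq hp hq).1 hpd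
      rw [h1] at hpX
      linarith
    · obtain ⟨p, hp, hp1, hp2⟩ := Nat.Prime.not_coprime_iff_dvd.1 hc
      have hpD : p ≤ D := by
        rw [hW] at hp2
        exact (Nat.Prime.dvd_primorial_iff hp).1 hp2
      have hpd : p ∣ n + k := by
        have h1 : n + k = W * (n / W) + (n % W + k) := by omega
        rw [h1]
        exact dvd_add (Dvd.dvd.mul_right hp2 _) hp1
      have h1 : p = n + k := (Nat.prime_dvd_prime_iff_eq hp hq).1 hpd
      have h2 : ((n + k : ℕ) : ℝ) ≤ D := by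
        rw [← h1]; exact_mod_cast hpD
      linarith

lemma primorial_small : ∀ᶠ X : ℕ in atTop,
    ((primorial ⌊Real.log X / 10⌋₊ : ℕ) : ℝ) ≤ X / 2 ∧
    ((⌊Real.log X / 10⌋₊ : ℕ) : ℝ) ≤ (X : ℝ) ^ (1 / 10 : ℝ) := by
  filter_upwards [ev_L (eventually_ge_atTop (4 : ℝ)), eventually_ge_atTop 1] with X hL hX1
  have hX0 : (0 : ℝ) < X := by exact_mod_cast hX1
  set L := Real.log X with hLdef
  have hL0 : 0 < L := by linarith
  have hfl : ((⌊L / 10⌋₊ : ℕ) : ℝ) ≤ L / 10 := Nat.floor_le (by positivity)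
  constructor
  · have h1 : ((primorial ⌊L / 10⌋₊ : ℕ) : ℝ) ≤ (4 : ℝ) ^ ⌊L / 10⌋₊ := by
      exact_mod_cast primorial_le_four_pow _
    have h2 : (4 : ℝ) ^ ⌊L / 10⌋₊ ≤ Real.exp (L / 2) := by
      have h3 : (4 : ℝ) ≤ Real.exp 2 := by
        have := Real.add_one_le_exp (1 : ℝ)
        have h4 : Real.exp 2 = Real.exp 1 * Real.exp 1 := by rw [← Real.exp_add]; norm_num
        rw [h4]
        nlinarith
      calc (4 : ℝ) ^ ⌊L / 10⌋₊ ≤ (Real.exp 2) ^ ⌊L / 10⌋₊ := by gcongr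
        _ = Real.exp (⌊L / 10⌋₊ * 2) := by rw [← Real.exp_nat_mul]
        _ ≤ Real.exp (L / 2) := by
          rw [Real.exp_le_exp]
          linarith
    have h5 : Real.exp (L / 2) * 2 ≤ X := by
      have h6 : (2 : ℝ) ≤ Real.exp (L / 2) := by
        have := Real.add_one_le_exp (L / 2)
        linarith
      calc Real.exp (L / 2) * 2 ≤ Real.exp (L / 2) * Real.exp (L / 2) := by gcongr
        _ = Real.exp L := by rw [← Real.exp_add]; congr 1; ring
        _ = X := Real.exp_log hX0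
    linarith
  · have h1 : (X : ℝ) ^ (1 / 10 : ℝ) = Real.exp (L / 10) := by
      rw [Real.rpow_def_of_pos hX0]
      congr 1
      ring
    rw [h1]
    have := Real.add_one_le_exp (L / 10)
    linarith

lemma ev_pow_X2 (B : ℝ) : ∀ᶠ X : ℕ in atTop,
    (X : ℝ) ^ (1 / 10 : ℝ) + 1 ≤ 1 / 4 * Real.log X ^ (-B) * X := by
  -- `8 L ^ B ≤ exp (9 L / 10)`
  have h1 : ∀ᶠ L : ℝ in atTop, 8 * L ^ B ≤ Real.exp (9 / 10 * L) := by
    have h2 := (isLittleO_rpow_exp_pos_mul_atTop B (b := 9 / 10) (by norm_num)).bound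
      (c := 1 / 8) (by norm_num)
    filter_upwards [h2, eventually_ge_atTop 0] with w hw hw0
    rw [Real.norm_of_nonneg (by positivity), Real.norm_of_nonneg (Real.exp_pos _).le] at hw
    linarith
  filter_upwards [ev_L h1, ev_L (eventually_ge_atTop 1), eventually_ge_atTop 1] with X h2 h3 h4
  have hX : (0 : ℝ) < X := by exact_mod_cast h4
  set L := Real.log X with hL
  have hL0 : 0 < L := by linarith
  have h5 : (X : ℝ) ^ (1 / 10 : ℝ) = Real.exp (L / 10) := by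
    rw [Real.rpow_def_of_pos hX]
    congr 1
    ring
  have h6 : (X : ℝ) = Real.exp (L / 10) * Real.exp (9 / 10 * L) := by
    rw [← Real.exp_add]
    have : L / 10 + 9 / 10 * L = L := by ring
    rw [this, Real.exp_log hX]
  have h7 : 1 ≤ Real.exp (L / 10) := Real.one_le_exp (by positivity)
  have h8 : L ^ (-B) * L ^ B = 1 := by
    rw [← Real.rpow_add hL0, neg_add_cancel, Real.rpow_zero]
  have h9 : 0 < L ^ (-B) := Real.rpow_pos_of_pos hL0 _
  rw [h5]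
  have h10 : 1 / 4 * L ^ (-B) * (X : ℝ) ≥ 1 / 4 * L ^ (-B) * (Real.exp (L / 10) * (8 * L ^ B)) := by
    rw [h6]
    gcongr
  have h11 : 1 / 4 * L ^ (-B) * (Real.exp (L / 10) * (8 * L ^ B)) = 2 * Real.exp (L / 10) := by
    calc _ = 2 * Real.exp (L / 10) * (L ^ (-B) * L ^ B) := by ring
      _ = _ := by rw [h8, mul_one]
  linarith

theorem oneScale_of_coreS (h : CoreS) : OneScale := by
  classical
  intro A hA
  obtain ⟨c, hc, u₀, hu₀, X₀, hX₀⟩ := h A hA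
  obtain ⟨X₁, hX₁⟩ := eventually_atTop.1 (primorial_small.and ((ev_pow_X2 A).and
    (ev_L (eventually_ge_atTop (1 : ℝ)))))
  refine ⟨c, hc, u₀, hu₀, X₀ + X₁ + 1, fun X hX u hu hu2 => ?_⟩
  obtain ⟨⟨f1, f2⟩, f3, f4⟩ := hX₁ X (by omega)
  have hX0 : (0 : ℝ) < X := by exact_mod_cast (by omega : 0 < X)
  set L := Real.log X with hL
  have hL0 : 0 < L := by linarith
  have hu1 : 0 < u := by linarith
  set D := ⌊L / 10⌋₊ with hD
  obtain ⟨W, hW⟩ : ∃ W : ℕ, W = primorial D := ⟨_, rfl⟩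
  have hW0 : 0 < W := by rw [hW]; exact primorial_pos D
  have hlogu : 0 ≤ Real.log u := Real.log_nonneg (by linarith)
  have hcore := hX₀ X (by omega) u hu hu2
  rw [← hL, ← hD, ← hW] at hcore
  rw [← hW] at f1
  set Lam := LamW c u X with hLam
  have hLam1 : c * L * Real.log u ≤ Lam := Nat.le_ceil _
  set δ : ℝ := Real.exp (-(3 * u ^ (1 / 3 : ℝ))) + L ^ (-A) with hδ
  have hδ0 : L ^ (-A) ≤ δ := by
    rw [hδ]
    have := Real.exp_pos (-(3 * u ^ (1 / 3 : ℝ)))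
    linarith
  have hLA : 0 < L ^ (-A) := Real.rpow_pos_of_pos hL0 _
  have hδpos : 0 < δ := by linarith
  set N := X / W + 1 with hN
  set Bad : ℕ → Finset ℕ := fun ν => (range N).filter fun m =>
        ¬ ∃ j : ℕ, (((j + 1) * Lam : ℕ) : ℝ) ≤ Real.exp u * L ∧
          ∀ k : ℕ, j * Lam < k → k ≤ (j + 1) * Lam →
            Nat.Coprime (ν + k) W → ∃ p : ℕ, p.Prime ∧
              (p : ℝ) ≤ (X : ℝ) ^ (1 / 10 : ℝ) ∧ p ∣ W * m + ν + k with hBad
  have hBadcard : ∀ ν ∈ range W, ((Bad ν).card : ℝ) ≤ 1 / 2 * δ * N := by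
    intro ν hν
    rw [mem_range] at hν
    exact hcore ν hν
  have hsub : {n : ℕ | n < X ∧ ¬ Void n (Real.exp u * L) (c * L * Real.log u)} ⊆
      ((range (⌊(X : ℝ) ^ (1 / 10 : ℝ)⌋₊ + 1) ∪
        (range W).biUnion (fun ν => (Bad ν).image (fun m => W * m + ν)) : Finset ℕ) : Set ℕ) := by
    rintro n ⟨hnX, hn⟩
    rw [Finset.mem_coe, mem_union, mem_biUnion]
    by_cases h1 : n < ⌊(X : ℝ) ^ (1 / 10 : ℝ)⌋₊ + 1
    · left; rw [mem_range]; exact h1
    · right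
      have h2 : (X : ℝ) ^ (1 / 10 : ℝ) < n := by
        rw [← Nat.floor_lt (by positivity)]
        omega
      refine ⟨n % W, mem_range.2 (Nat.mod_lt _ hW0), ?_⟩
      rw [mem_image]
      refine ⟨n / W, ?_, Nat.div_add_mod n W⟩
      rw [hBad]
      simp only [mem_filter, mem_range]
      refine ⟨?_, ?_⟩
      · have : n / W ≤ X / W := Nat.div_le_div_right hnX.le
        omega
      · rintro ⟨j, hj1, hj2⟩
        exact hn (void_of_window hW hLam1 f2 h2.le hj1 hj2)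
  have h1 := Set.ncard_le_ncard hsub (Finset.finite_toSet _)
  rw [Set.ncard_coe_finset] at h1
  have h2 : (range (⌊(X : ℝ) ^ (1 / 10 : ℝ)⌋₊ + 1) ∪
        (range W).biUnion (fun ν => (Bad ν).image (fun m => W * m + ν))).card ≤
      (⌊(X : ℝ) ^ (1 / 10 : ℝ)⌋₊ + 1) + ∑ ν ∈ range W, (Bad ν).card := by
    refine (card_union_le _ _).trans ?_
    rw [card_range]
    apply Nat.add_le_add_left
    refine card_biUnion_le.trans ?_
    exact sum_le_sum fun ν _ => card_image_le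
  have h3 : ({n : ℕ | n < X ∧ ¬ Void n (Real.exp u * L) (c * L * Real.log u)}.ncard : ℝ) ≤
      (⌊(X : ℝ) ^ (1 / 10 : ℝ)⌋₊ + 1) + ∑ ν ∈ range W, ((Bad ν).card : ℝ) := by
    exact_mod_cast h1.trans h2
  refine h3.trans ?_
  have h4 : ∑ ν ∈ range W, ((Bad ν).card : ℝ) ≤ W * (1 / 2 * δ * N) := by
    refine (sum_le_sum hBadcard).trans (le_of_eq ?_)
    rw [sum_const, card_range, nsmul_eq_mul]
  have h5 : (W : ℝ) * N ≤ 3 / 2 * X := by
    have h6 : W * (X / W) ≤ X := Nat.mul_div_le X W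
    have h7 : ((W * (X / W) : ℕ) : ℝ) ≤ X := by exact_mod_cast h6
    have h8 : ((N : ℕ) : ℝ) = ((X / W : ℕ) : ℝ) + 1 := by rw [hN]; push_cast; ring
    rw [h8]
    rw [Nat.cast_mul] at h7
    linarith
  have h6 : (⌊(X : ℝ) ^ (1 / 10 : ℝ)⌋₊ : ℝ) ≤ (X : ℝ) ^ (1 / 10 : ℝ) := Nat.floor_le (by positivity)
  have h7 : (W : ℝ) * (1 / 2 * δ * N) ≤ 3 / 4 * δ * X := by
    calc (W : ℝ) * (1 / 2 * δ * N) = 1 / 2 * δ * (W * N) := by ring
      _ ≤ 1 / 2 * δ * (3 / 2 * X) := by gcongr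
      _ = 3 / 4 * δ * X := by ring
  have h8 : 1 / 4 * L ^ (-A) * X ≤ 1 / 4 * δ * X := by gcongr
  calc ((⌊(X : ℝ) ^ (1 / 10 : ℝ)⌋₊ : ℝ) + 1) + ∑ ν ∈ range W, ((Bad ν).card : ℝ)
      ≤ 1 / 4 * δ * X + 3 / 4 * δ * X := by linarith
    _ = δ * X := by ring

end Pool.Agent.H.MP_711652_nt.G2
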