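import Pool.Agent.H.MP_711652_nt.G2.StmtR
import Pool.Agent.H.MP_711652_nt.G2.AllP
import Pool.Agent.H.MP_711652_nt.G2.OneS

/-!
# GAP3: Theorem A** from the two one-scale theorems
-/

set_option autoImplicit false

namespace Pool.Agent.H.MP_711652_nt.G2

open Finset Filter

lemma Void.mono_s {n : ℕ} {H s s' : ℝ} (h : s ≤ s') (hv : Void n H s') : Void n H s := by
  obtain ⟨t, h1, h2, h3⟩ := hv
  exact ⟨t, h1, by linarith, fun k hk hk2 => h3 k hk (by linarith)⟩

lemma GapMeets.mono {n : ℕ} {H H' s s' : ℝ} (hH : H' ≤ H) (hs : s ≤ s') (h : GapMeets n H' s') :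
    GapMeets n H s := by
  obtain ⟨k, hk⟩ := h
  refine ⟨k, ?_⟩
  have h1 : min (Nat.nth Nat.Prime (k + 1) : ℝ) (n + H') ≤
      min (Nat.nth Nat.Prime (k + 1) : ℝ) (n + H) := min_le_min_left _ (by linarith)
  linarith

/-- One level, integers and primes. -/
theorem level : ∃ C₁ : ℝ, 0 < C₁ ∧ ∃ X₁ : ℕ, ∀ X : ℕ, X₁ ≤ X → ∀ H s e : ℝ,
    Real.log X ≤ H → H + 1 < X → 0 ≤ s → s ≤ H → 0 ≤ e → e ≤ 4 →
    (({n : ℕ | n < 2 * X ∧ ¬ Void n H s}.ncard : ℝ) ≤ e * X) →
    ({n : ℕ | n < X ∧ 2 ≤ n ∧ ¬ GapMeets n (8 * H) s}.ncard : ℝ) ≤ C₁ * Real.sqrt e * X ∧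
    ({p : ℕ | p < X ∧ p.Prime ∧ ¬ GapMeets p (8 * H) s}.ncard : ℝ) ≤
      C₁ * Real.sqrt e * X / Real.log X := by
  obtain ⟨C, hC, X₁, hX₁⟩ := pri_unif
  obtain ⟨X₂, hX₂⟩ := eventually_atTop.1 (ev_L (eventually_ge_atTop (1 : ℝ)))
  refine ⟨max C 2, lt_max_of_lt_left hC, X₁ + X₂ + 1, fun X hX H s e hH hHX hs hsH he0 he4 hbad => ?_⟩
  have hX0 : (0 : ℝ) < X := by exact_mod_cast (by omega : 0 < X)
  have hL1 := hX₂ X (by omega)
  have hH1 : 1 ≤ H := hL1.trans hH
  have hsqe : Real.sqrt e * Real.sqrt e = e := Real.mul_self_sqrt he0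
  have hsq2 : Real.sqrt e ≤ 2 := by
    rw [Real.sqrt_le_left (by norm_num)]
    linarith
  have hsq0 : 0 ≤ Real.sqrt e := Real.sqrt_nonneg e
  have hfin : {n : ℕ | n < 2 * X ∧ ¬ Void n H s}.Finite :=
    (Set.finite_Iio (2 * X)).subset (fun n hn => hn.1)
  constructor
  · have h1 : {n : ℕ | n < X ∧ 2 ≤ n ∧ ¬ GapMeets n (8 * H) s} ⊆ {n : ℕ | n < 2 * X ∧ ¬ Void n H s} := by
      rintro n ⟨hn1, hn2, hn3⟩
      exact ⟨by omega, fun hv => hn3 (gapMeets_of_void' hn2 (by linarith) le_rfl hv)⟩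
    have h2 : ({n : ℕ | n < X ∧ 2 ≤ n ∧ ¬ GapMeets n (8 * H) s}.ncard : ℝ) ≤
        ({n : ℕ | n < 2 * X ∧ ¬ Void n H s}.ncard : ℝ) := by
      exact_mod_cast Set.ncard_le_ncard h1 hfin
    refine (h2.trans hbad).trans ?_
    have h3 : e ≤ max C 2 * Real.sqrt e := by
      calc e = Real.sqrt e * Real.sqrt e := hsqe.symm
        _ ≤ 2 * Real.sqrt e := by gcongr
        _ ≤ max C 2 * Real.sqrt e := by
          gcongr
          exact le_max_right _ _
    gcongr
  · set Hn := ⌈H⌉₊ with hHn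
    have hHn1 : H ≤ Hn := Nat.le_ceil H
    have hHn2 : (Hn : ℝ) < H + 1 := Nat.ceil_lt_add_one (by linarith)
    have hHnX : Hn < X := by
      have : (Hn : ℝ) < X := by linarith
      exact_mod_cast this
    set g := ⌊s⌋₊ with hg
    have hgs : (g : ℝ) ≤ s := Nat.floor_le hs
    have hgs2 : s < g + 1 := Nat.lt_floor_add_one s
    have hbad2 : ({n : ℕ | n < 2 * X ∧ ¬ HasRun n Hn g}.ncard : ℝ) ≤ e * X := by
      have h1 : {n : ℕ | n < 2 * X ∧ ¬ HasRun n Hn g} ⊆ {n : ℕ | n < 2 * X ∧ ¬ Void n H s} := by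
        rintro n ⟨hn1, hn2⟩
        exact ⟨hn1, fun hv => hn2 (hasRun_of_void2 hHn1 hgs hv)⟩
      refine le_trans ?_ hbad
      exact_mod_cast Set.ncard_le_ncard h1 hfin
    have hpri := hX₁ X (by omega) Hn g (hH.trans hHn1) hHnX e he0 hbad2
    have h1 : {p : ℕ | p < X ∧ p.Prime ∧ ¬ GapMeets p (8 * H) s} ⊆
        {p : ℕ | p ≤ X ∧ p.Prime ∧ ¬ ∃ k : ℕ, p ≤ Nat.nth Nat.Prime k ∧
        Nat.nth Nat.Prime k ≤ p + 2 * Hn ∧
        Nat.nth Nat.Prime k + g + 1 ≤ Nat.nth Nat.Prime (k + 1)} := by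
      rintro p ⟨hp1, hp2, hp3⟩
      refine ⟨hp1.le, hp2, fun hk => hp3 ?_⟩
      obtain ⟨k, k1, k2, k3⟩ := hk
      refine ⟨k, ?_⟩
      have k1' : (p : ℝ) ≤ Nat.nth Nat.Prime k := by exact_mod_cast k1
      have k2' : (Nat.nth Nat.Prime k : ℝ) ≤ p + 2 * Hn := by exact_mod_cast k2
      have k3' : (Nat.nth Nat.Prime k : ℝ) + g + 1 ≤ Nat.nth Nat.Prime (k + 1) := by
        exact_mod_cast k3
      rw [max_eq_left k1']
      apply le_min <;> linarith
    have h2 : ({p : ℕ | p < X ∧ p.Prime ∧ ¬ GapMeets p (8 * H) s}.ncard : ℝ) ≤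
        C * Real.sqrt e * X / Real.log X := by
      refine le_trans ?_ hpri
      exact_mod_cast Set.ncard_le_ncard h1 ((Set.finite_Iic X).subset (fun n hn => hn.1))
    refine h2.trans ?_
    have h3 : 0 < Real.log X := by linarith
    gcongr
    exact le_max_left _ _

lemma cbrt_sub_three {u : ℝ} (hu : 3 ≤ u) : u ^ (1 / 3 : ℝ) ≤ (u - 3) ^ (1 / 3 : ℝ) + 2 := by
  set x := (u - 3) ^ (1 / 3 : ℝ) with hx
  have hx0 : 0 ≤ x := Real.rpow_nonneg (by linarith) _
  have hx3 : x ^ 3 = u - 3 := by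
    rw [hx, ← Real.rpow_natCast, ← Real.rpow_mul (by linarith)]
    norm_num
  have h1 : u ≤ (x + 2) ^ 3 := by nlinarith [sq_nonneg x]
  calc u ^ (1 / 3 : ℝ) ≤ ((x + 2) ^ 3) ^ (1 / 3 : ℝ) :=
        Real.rpow_le_rpow (by linarith) h1 (by norm_num)
    _ = x + 2 := by
      rw [← Real.rpow_natCast, ← Real.rpow_mul (by linarith)]
      norm_num

/-- facts for large `L` -/
lemma evL_facts (c : ℝ) (hc : 0 < c) : ∀ᶠ L : ℝ in atTop,
    100 ≤ L ∧ 8 ≤ Real.log L ∧ 1 ≤ Real.log (Real.log (Real.log L)) ∧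
    4 * Real.log (Real.log (Real.log L)) ≤ Real.log (Real.log L) ∧
    L ^ (1 / 20 : ℝ) + Real.log L + 3 ≤ L ∧
    c * (L + 1) * (Real.log (L + 1)) ^ 2 ≤ Real.exp (Real.sqrt L) := by
  have t1 : Tendsto (fun L : ℝ => Real.log L) atTop atTop := Real.tendsto_log_atTop
  have t2 := Real.tendsto_log_atTop.comp t1
  have t3 := Real.tendsto_log_atTop.comp t2
  have e1 : ∀ᶠ w : ℝ in atTop, 4 * Real.log w ≤ w := by
    have h9 := (Real.isLittleO_log_id_atTop).bound (c := 1 / 4) (by norm_num)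
    filter_upwards [h9, eventually_ge_atTop 1] with w hw hw1
    rw [id, Real.norm_of_nonneg (Real.log_nonneg hw1), Real.norm_of_nonneg (by linarith)] at hw
    linarith
  have e2 := t2.eventually e1
  have e3 : ∀ᶠ L : ℝ in atTop, L ^ (1 / 20 : ℝ) + Real.log L + 3 ≤ L := by
    have h3 : Tendsto (fun L : ℝ => L ^ (19 / 20 : ℝ)) atTop atTop :=
      tendsto_rpow_atTop (by norm_num)
    filter_upwards [h3.eventually_ge_atTop 4, eventually_ge_atTop 12, e1] with L h4 h5 h8
    have h6 : L = L ^ (1 / 20 : ℝ) * L ^ (19 / 20 : ℝ) := by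
      rw [← Real.rpow_add (by linarith)]
      norm_num
    have h7 : 0 ≤ L ^ (1 / 20 : ℝ) := by positivity
    nlinarith
  have e4 : ∀ᶠ L : ℝ in atTop, c * (L + 1) * (Real.log (L + 1)) ^ 2 ≤ Real.exp (Real.sqrt L) := by
    have h1 := (isLittleO_rpow_exp_atTop (6 : ℝ)).bound (c := 1 / (8 * c)) (by positivity)
    have h2 : Tendsto (fun L : ℝ => Real.sqrt L) atTop atTop := Real.tendsto_sqrt_atTop
    filter_upwards [h2.eventually h1, eventually_ge_atTop 1] with L h3 h4
    have hs : 0 ≤ Real.sqrt L := Real.sqrt_nonneg L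
    rw [Real.norm_of_nonneg (by positivity), Real.norm_of_nonneg (Real.exp_pos _).le,
      one_div_mul_eq_div, le_div_iff₀ (by positivity)] at h3
    have h5 : Real.sqrt L ^ (6 : ℝ) = L ^ 3 := by
      have h6 : Real.sqrt L ^ (6 : ℝ) = (Real.sqrt L ^ 2) ^ 3 := by
        rw [← pow_mul]
        exact_mod_cast Real.rpow_natCast (Real.sqrt L) 6
      rw [h6, Real.sq_sqrt (by linarith)]
    rw [h5] at h3
    have h7 : Real.log (L + 1) ≤ L := by
      have := Real.log_le_sub_one_of_pos (show 0 < L + 1 by linarith)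
      linarith
    have h8 : 0 ≤ Real.log (L + 1) := Real.log_nonneg (by linarith)
    calc c * (L + 1) * (Real.log (L + 1)) ^ 2 ≤ c * (2 * L) * L ^ 2 := by
          gcongr
          linarith
      _ = 2 * c * L ^ 3 := by ring
      _ ≤ L ^ 3 * (8 * c) := by
        have : 0 ≤ c * L ^ 3 := by positivity
        linarith
      _ ≤ _ := h3
  filter_upwards [eventually_ge_atTop 100, t1.eventually_ge_atTop 8, t3.eventually_ge_atTop 1, e2, e3,
    e4] with L h1 h2 h3 h4 h5 h6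
  exact ⟨h1, h2, h3, h4, h5, h6⟩

/-- The `u`-scales. -/
theorem levelU (h : OneScale) (hlev : ∃ C₁ : ℝ, 0 < C₁ ∧ ∃ X₁ : ℕ, ∀ X : ℕ, X₁ ≤ X → ∀ H s e : ℝ,
    Real.log X ≤ H → H + 1 < X → 0 ≤ s → s ≤ H → 0 ≤ e → e ≤ 4 →
    (({n : ℕ | n < 2 * X ∧ ¬ Void n H s}.ncard : ℝ) ≤ e * X) →
    ({n : ℕ | n < X ∧ 2 ≤ n ∧ ¬ GapMeets n (8 * H) s}.ncard : ℝ) ≤ C₁ * Real.sqrt e * X ∧
    ({p : ℕ | p < X ∧ p.Prime ∧ ¬ GapMeets p (8 * H) s}.ncard : ℝ) ≤
      C₁ * Real.sqrt e * X / Real.log X) :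
    ∃ C : ℝ, 0 < C ∧ ∀ A : ℝ, 0 < A → ∃ c : ℝ, 0 < c ∧ ∃ u₀ : ℝ, ∃ X₀ : ℕ, ∀ X : ℕ, X₀ ≤ X →
      ∀ u : ℝ, u₀ ≤ u → u ≤ Real.log X ^ (1 / 20 : ℝ) →
      ({n : ℕ | n < X ∧ 2 ≤ n ∧ ¬ GapMeets n (Real.exp u * Real.log X)
        (c * Real.log X * Real.log u)}.ncard : ℝ) ≤
        (C * Real.exp (-(3 / 2 * u ^ (1 / 3 : ℝ))) + C * Real.log X ^ (-A)) * X ∧
      ({p : ℕ | p < X ∧ p.Prime ∧ ¬ GapMeets p (Real.exp u * Real.log X)
        (c * Real.log X * Real.log u)}.ncard : ℝ) ≤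
        (C * Real.exp (-(3 / 2 * u ^ (1 / 3 : ℝ))) + C * Real.log X ^ (-A)) * X / Real.log X := by
  obtain ⟨C₁, hC₁, X₁, hX₁⟩ := hlev
  refine ⟨C₁ * 2 * Real.exp 3, by positivity, fun A hA => ?_⟩
  obtain ⟨c', hc', u₀, hu₀, X₀, hX₀⟩ := h (2 * A) (by linarith)
  set c := min c' 1 with hc
  have hc0 : 0 < c := lt_min hc' one_pos
  have hcc' : c ≤ c' := min_le_left _ _
  have hc1 : c ≤ 1 := min_le_right _ _
  obtain ⟨X₂, hX₂⟩ := eventually_atTop.1 (ev_L (evL_facts 1 one_pos))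
  refine ⟨c / 2, by positivity, max (u₀ + 3) 12, X₀ + X₁ + X₂ + 3, fun X hX u hu hu2 => ?_⟩
  obtain ⟨f1, f2, f3, f4, f5, f6⟩ := hX₂ X (by omega)
  have hX0 : (0 : ℝ) < X := by exact_mod_cast (by omega : 0 < X)
  set L := Real.log X with hL
  have hL0 : 0 < L := by linarith
  have hu12 : 12 ≤ u := (le_max_right _ _).trans hu
  have huu₀ : u₀ ≤ u - 3 := by
    have := (le_max_left (u₀ + 3) 12).trans hu
    linarith
  set L' := Real.log ((2 * X : ℕ) : ℝ) with hL'
  have hLL' : L' = L + Real.log 2 := by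
    rw [hL', Nat.cast_mul, Real.log_mul (by norm_num) hX0.ne', hL]
    push_cast
    ring
  have hlog2a : 0 < Real.log 2 := Real.log_pos (by norm_num)
  have hlog2b : Real.log 2 ≤ 1 := by
    have := Real.log_two_lt_d9
    linarith
  have hL'L : L ≤ L' := by linarith
  have hL'0 : 0 < L' := by linarith
  have hone := hX₀ (2 * X) (by omega) (u - 3) huu₀ (by
    have h1 : L ^ (1 / 20 : ℝ) ≤ L' ^ (1 / 20 : ℝ) :=
      Real.rpow_le_rpow hL0.le hL'L (by norm_num)
    linarith)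
  rw [← hL'] at hone
  have hlogu : 0 < Real.log (u - 3) := Real.log_pos (by linarith)
  set H := Real.exp (u - 3) * L' with hH
  set s := c * L' * Real.log (u - 3) with hs
  have hs0 : 0 ≤ s := by positivity
  have hsH : s ≤ H := by
    have h1 : Real.log (u - 3) ≤ Real.exp (u - 3) := by
      have h2 := Real.log_le_sub_one_of_pos (show 0 < u - 3 by linarith)
      have h3 := Real.add_one_le_exp (u - 3)
      linarith
    calc s = c * L' * Real.log (u - 3) := rfl
      _ ≤ 1 * L' * Real.exp (u - 3) := by gcongr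
      _ = H := by rw [hH]; ring
  have hexp8 : 8 * H ≤ Real.exp u * L := by
    have h1 : Real.exp u = Real.exp (u - 3) * Real.exp 3 := by
      rw [← Real.exp_add]; congr 1; ring
    have h2 : 20 ≤ Real.exp 3 := by
      have h3 : Real.exp 3 = Real.exp 1 ^ 3 := by rw [← Real.exp_nat_mul]; norm_num
      rw [h3]
      have h4 := Real.exp_one_gt_d9
      have h5 : (2.718 : ℝ) ^ 3 ≤ Real.exp 1 ^ 3 := by gcongr; linarith
      have h6 : (20 : ℝ) ≤ 2.718 ^ 3 := by norm_num
      linarith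
    have h3 : L' ≤ L * (101 / 100) := by linarith
    have h4 : 0 < Real.exp (u - 3) := Real.exp_pos _
    rw [hH, h1]
    calc 8 * (Real.exp (u - 3) * L') ≤ 8 * (Real.exp (u - 3) * (L * (101 / 100))) := by gcongr
      _ ≤ Real.exp (u - 3) * 20 * L := by
        have : 0 < Real.exp (u - 3) * L := by positivity
        nlinarith
      _ ≤ Real.exp (u - 3) * Real.exp 3 * L := by gcongr
  have hHL : L ≤ H := by
    have h1 : 1 ≤ Real.exp (u - 3) := Real.one_le_exp (by linarith)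
    nlinarith
  have hHX : H + 1 < X := by
    have h1 : Real.exp u * L ≤ X := by
      have h2 : (X : ℝ) = Real.exp L := (Real.exp_log hX0).symm
      have h3 : Real.exp u * L = Real.exp (u + Real.log L) := by
        rw [Real.exp_add, Real.exp_log hL0]
      rw [h2, h3, Real.exp_le_exp]
      linarith
    linarith
  set e : ℝ := 2 * (Real.exp (-(3 * (u - 3) ^ (1 / 3 : ℝ))) + L ^ (-(2 * A))) with he
  have hLA : 0 < L ^ (-(2 * A)) := Real.rpow_pos_of_pos hL0 _
  have hLA1 : L ^ (-(2 * A)) ≤ 1 := Real.rpow_le_one_of_one_le_of_nonpos (by linarith) (by linarith)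
  have hex1 : Real.exp (-(3 * (u - 3) ^ (1 / 3 : ℝ))) ≤ 1 := by
    rw [Real.exp_le_one_iff]
    have : 0 ≤ (u - 3) ^ (1 / 3 : ℝ) := Real.rpow_nonneg (by linarith) _
    linarith
  have hex0 := Real.exp_pos (-(3 * (u - 3) ^ (1 / 3 : ℝ)))
  have he0 : 0 ≤ e := by
    rw [he]; positivity
  have he4 : e ≤ 4 := by rw [he]; linarith
  have hbad : ({n : ℕ | n < 2 * X ∧ ¬ Void n H s}.ncard : ℝ) ≤ e * X := by
    have h1 : {n : ℕ | n < 2 * X ∧ ¬ Void n H s} ⊆
        {n : ℕ | n < 2 * X ∧ ¬ Void n (Real.exp (u - 3) * L') (c' * L' * Real.log (u - 3))} := by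
      rintro n ⟨hn1, hn2⟩
      refine ⟨hn1, fun hv => hn2 (Void.mono_s ?_ hv)⟩
      rw [hs]
      gcongr
    have h2 := Set.ncard_le_ncard h1 ((Set.finite_Iio (2 * X)).subset (fun n hn => hn.1))
    have h3 : ({n : ℕ | n < 2 * X ∧ ¬ Void n H s}.ncard : ℝ) ≤
      ({n : ℕ | n < 2 * X ∧ ¬ Void n (Real.exp (u - 3) * L') (c' * L' * Real.log (u - 3))}.ncard : ℝ) := by
      exact_mod_cast h2
    refine (h3.trans hone).trans ?_
    have h4 : L' ^ (-(2 * A)) ≤ L ^ (-(2 * A)) :=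
      Real.rpow_le_rpow_of_nonpos hL0 hL'L (by linarith)
    rw [he]
    push_cast
    calc (Real.exp (-(3 * (u - 3) ^ (1 / 3 : ℝ))) + L' ^ (-(2 * A))) * (2 * X)
        ≤ (Real.exp (-(3 * (u - 3) ^ (1 / 3 : ℝ))) + L ^ (-(2 * A))) * (2 * X) := by gcongr
      _ = _ := by ring
  obtain ⟨g1, g2⟩ := hX₁ X (by omega) H s e hHL hHX hs0 hsH he0 he4 hbad
  have hsq : C₁ * Real.sqrt e ≤ C₁ * 2 * Real.exp 3 * Real.exp (-(3 / 2 * u ^ (1 / 3 : ℝ))) +
      C₁ * 2 * Real.exp 3 * L ^ (-A) := by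
    have hsq' : Real.sqrt e ≤ 2 * Real.exp 3 *
        (Real.exp (-(3 / 2 * u ^ (1 / 3 : ℝ))) + L ^ (-A)) := by
      rw [Real.sqrt_le_left (by positivity)]
      have h3 := cbrt_sub_three (u := u) (by linarith)
      have h4 : Real.exp (-(3 * (u - 3) ^ (1 / 3 : ℝ))) ≤
          Real.exp 6 * Real.exp (-(3 / 2 * u ^ (1 / 3 : ℝ))) ^ 2 := by
        rw [← Real.exp_nat_mul, ← Real.exp_add, Real.exp_le_exp]
        push_cast
        linarith
      have h5 : L ^ (-(2 * A)) = (L ^ (-A)) ^ 2 := by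
        rw [← Real.rpow_natCast, ← Real.rpow_mul hL0.le]
        congr 1
        push_cast
        ring
      have h6 : Real.exp 3 ^ 2 = Real.exp 6 := by
        rw [← Real.exp_nat_mul]
        congr 1
        push_cast
        ring
      have h7 : 0 < L ^ (-A) := Real.rpow_pos_of_pos hL0 _
      have h8 : 0 < Real.exp (-(3 / 2 * u ^ (1 / 3 : ℝ))) := Real.exp_pos _
      have h9 : 1 ≤ Real.exp 6 := Real.one_le_exp (by norm_num)
      rw [he, h5, mul_pow, mul_pow, h6]
      set x := Real.exp (-(3 / 2 * u ^ (1 / 3 : ℝ)))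
      set y := L ^ (-A)
      calc 2 * (Real.exp (-(3 * (u - 3) ^ (1 / 3 : ℝ))) + y ^ 2)
          ≤ 2 * (Real.exp 6 * x ^ 2 + Real.exp 6 * y ^ 2) := by
            gcongr
            nlinarith [sq_nonneg y]
        _ ≤ 2 ^ 2 * Real.exp 6 * (x + y) ^ 2 := by
            have h10 : 0 ≤ Real.exp 6 * (x * y) := by positivity
            have h11 : 0 ≤ Real.exp 6 * x ^ 2 := by positivity
            have h12 : 0 ≤ Real.exp 6 * y ^ 2 := by positivity
            nlinarith
    calc C₁ * Real.sqrt e ≤ C₁ * (2 * Real.exp 3 *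
        (Real.exp (-(3 / 2 * u ^ (1 / 3 : ℝ))) + L ^ (-A))) := by gcongr
      _ = _ := by ring
  have hlen : c / 2 * L * Real.log u ≤ s := by
    have h2 : Real.log u ≤ 2 * Real.log (u - 3) := by
      have h3 : 2 * Real.log (u - 3) = Real.log ((u - 3) ^ 2) := by
        rw [Real.log_pow]; push_cast; ring
      rw [h3]
      apply Real.log_le_log (by linarith)
      nlinarith
    calc c / 2 * L * Real.log u ≤ c / 2 * L * (2 * Real.log (u - 3)) := by gcongr
      _ = c * L * Real.log (u - 3) := by ring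
      _ ≤ c * L' * Real.log (u - 3) := by gcongr
      _ = s := rfl
  constructor
  · have h1 : ({n : ℕ | n < X ∧ 2 ≤ n ∧ ¬ GapMeets n (Real.exp u * L)
        (c / 2 * L * Real.log u)}.ncard : ℝ) ≤
        ({n : ℕ | n < X ∧ 2 ≤ n ∧ ¬ GapMeets n (8 * H) s}.ncard : ℝ) := by
      refine Nat.cast_le.2 (Set.ncard_le_ncard ?_ ((Set.finite_Iio X).subset (fun n hn => hn.1)))
      rintro n ⟨hn1, hn2, hn3⟩
      exact ⟨hn1, hn2, fun hg => hn3 (hg.mono hexp8 hlen)⟩
    refine (h1.trans g1).trans ?_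
    gcongr
  · have h1 : ({p : ℕ | p < X ∧ p.Prime ∧ ¬ GapMeets p (Real.exp u * L)
        (c / 2 * L * Real.log u)}.ncard : ℝ) ≤
        ({p : ℕ | p < X ∧ p.Prime ∧ ¬ GapMeets p (8 * H) s}.ncard : ℝ) := by
      refine Nat.cast_le.2 (Set.ncard_le_ncard ?_ ((Set.finite_Iio X).subset (fun n hn => hn.1)))
      rintro n ⟨hn1, hn2, hn3⟩
      exact ⟨hn1, hn2, fun hg => hn3 (hg.mono hexp8 hlen)⟩
    refine (h1.trans g2).trans ?_
    gcongr

/-- The Rankin factor at neighbouring parameters. -/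
lemma Rk_compare {L L' ψ ψ' : ℝ} (hL8 : 8 ≤ Real.log L) (hL3 : 1 ≤ Real.log (Real.log (Real.log L)))
    (hL100 : 100 ≤ L) (h1 : L ≤ L') (h2 : L' ≤ L + 1) (hψ : 1 ≤ ψ) (hψ' : ψ ≤ ψ')
    (hψ4 : ψ' ≤ 4 * ψ) : Rk L ψ ≤ 4 * Rk L' ψ' := by
  have hL0 : 0 < L := by linarith
  have hL'0 : 0 < L' := by linarith
  have hψ0 : 0 < ψ := by linarith
  have hψ'0 : 0 < ψ' := by linarith
  have l1 : Real.log L ≤ Real.log L' := Real.log_le_log hL0 h1
  have l1p : 0 < Real.log L := by linarith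
  have l1p' : 0 < Real.log L' := by linarith
  have hloglog : 0 < Real.log (Real.log L) := by
    apply Real.log_pos; linarith
  have l2 : Real.log (Real.log L) ≤ Real.log (Real.log L') := Real.log_le_log l1p l1
  have hloglog' : 0 < Real.log (Real.log L') := by linarith
  have l3 : Real.log (Real.log (Real.log L)) ≤ Real.log (Real.log (Real.log L')) :=
    Real.log_le_log hloglog l2
  have l3p : 0 < Real.log (Real.log (Real.log L)) := by linarith
  have l3p' : 0 < Real.log (Real.log (Real.log L')) := by linarith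
  have l4 : Real.log L' ≤ 2 * Real.log L := by
    have h3 : 2 * Real.log L = Real.log (L ^ 2) := by rw [Real.log_pow]; norm_num
    rw [h3]
    apply Real.log_le_log (by linarith)
    nlinarith
  have l5 : Real.log (Real.log L') ≤ 2 * Real.log (Real.log L) := by
    have h3 : 2 * Real.log (Real.log L) = Real.log (Real.log L ^ 2) := by
      rw [Real.log_pow]; norm_num
    rw [h3]
    apply Real.log_le_log (by linarith)
    nlinarith
  have hψL : 8 ≤ ψ * Real.log L := by nlinarith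
  have hden : 0 < Real.log (ψ * Real.log L) := Real.log_pos (by linarith)
  have l6 : Real.log (ψ' * Real.log L') ≤ 2 * Real.log (ψ * Real.log L) := by
    have h3 : 2 * Real.log (ψ * Real.log L) = Real.log ((ψ * Real.log L) ^ 2) := by
      rw [Real.log_pow]; norm_num
    rw [h3]
    apply Real.log_le_log (by positivity)
    have h4 : ψ' * Real.log L' ≤ (4 * ψ) * (2 * Real.log L) := by gcongr
    nlinarith
  have hden' : 0 < Real.log (ψ' * Real.log L') := by
    refine hden.trans_le (Real.log_le_log (by linarith) ?_)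
    gcongr
  unfold Rk
  rcases le_total 1 (Real.log L * Real.log (Real.log (Real.log L)) /
    (Real.log (Real.log L) * Real.log (ψ * Real.log L))) with h3 | h3
  · rw [max_eq_right h3]
    have h4 : Real.log L * Real.log (Real.log (Real.log L)) /
        (Real.log (Real.log L) * Real.log (ψ * Real.log L)) ≤
        4 * (Real.log L' * Real.log (Real.log (Real.log L')) /
        (Real.log (Real.log L') * Real.log (ψ' * Real.log L'))) := by
      rw [← mul_div_assoc, div_le_div_iff₀ (mul_pos hloglog hden) (mul_pos hloglog' hden')]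
      calc Real.log L * Real.log (Real.log (Real.log L)) *
            (Real.log (Real.log L') * Real.log (ψ' * Real.log L'))
          ≤ Real.log L' * Real.log (Real.log (Real.log L')) *
            ((2 * Real.log (Real.log L)) * (2 * Real.log (ψ * Real.log L))) := by gcongr
        _ = _ := by ring
    exact h4.trans (by gcongr; exact le_max_right _ _)
  · rw [max_eq_left h3]
    have := le_max_left 1 (Real.log L' * Real.log (Real.log (Real.log L')) /
        (Real.log (Real.log L') * Real.log (ψ' * Real.log L')))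
    linarith

/-- The factor is `1` for `ψ ≥ sqrt L / 4`. -/
lemma Rk_eq_one {L ψ : ℝ} (hL8 : 8 ≤ Real.log L) (hL3 : 1 ≤ Real.log (Real.log (Real.log L)))
    (hL4 : 4 * Real.log (Real.log (Real.log L)) ≤ Real.log (Real.log L))
    (hL100 : 100 ≤ L) (hψ : Real.sqrt L / 4 ≤ ψ) : Rk L ψ = 1 := by
  unfold Rk
  apply max_eq_left
  have hL0 : 0 < L := by linarith
  have l1p : 0 < Real.log L := by linarith
  have hloglog : 0 < Real.log (Real.log L) := by
    apply Real.log_pos; linarith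
  have hsq : Real.sqrt L * Real.sqrt L = L := Real.mul_self_sqrt hL0.le
  have hsq0 : 0 < Real.sqrt L := Real.sqrt_pos.2 hL0
  have h1 : Real.log L / 2 ≤ Real.log (ψ * Real.log L) := by
    have h2 : Real.log (Real.sqrt L) = Real.log L / 2 := Real.log_sqrt hL0.le
    rw [← h2]
    apply Real.log_le_log hsq0
    nlinarith
  rw [div_le_one (by nlinarith)]
  nlinarith

/-- The `ψ`-scales. -/
theorem levelR (h : OneScaleR) : ∃ C : ℝ, 0 < C ∧ ∀ A : ℝ, 0 < A → ∃ c : ℝ, 0 < c ∧
    ∃ X₀ : ℕ, ∀ X : ℕ, X₀ ≤ X → ∀ ψ : ℝ, 2 ≤ ψ → ψ ≤ Real.sqrt (Real.log X) →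
      ({n : ℕ | n < X ∧ 2 ≤ n ∧ ¬ GapMeets n (8 * Real.exp (Real.log ((2 * X : ℕ) : ℝ) / ψ))
        (c * Real.log ((2 * X : ℕ) : ℝ) * Real.log (Real.log ((2 * X : ℕ) : ℝ)) *
          Rk (Real.log ((2 * X : ℕ) : ℝ)) ψ)}.ncard : ℝ) ≤ C * Real.log X ^ (-A) * X ∧
      ({p : ℕ | p < X ∧ p.Prime ∧ ¬ GapMeets p (8 * Real.exp (Real.log ((2 * X : ℕ) : ℝ) / ψ))
        (c * Real.log ((2 * X : ℕ) : ℝ) * Real.log (Real.log ((2 * X : ℕ) : ℝ)) *
          Rk (Real.log ((2 * X : ℕ) : ℝ)) ψ)}.ncard : ℝ) ≤ C * Real.log X ^ (-A) * X / Real.log X := by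
  obtain ⟨C₁, hC₁, X₁, hX₁⟩ := level
  refine ⟨C₁ * 2, by positivity, fun A hA => ?_⟩
  obtain ⟨c', hc', X₀, hX₀⟩ := h (2 * A) (by linarith)
  set c := min c' 1 with hc
  have hc0 : 0 < c := lt_min hc' one_pos
  have hcc' : c ≤ c' := min_le_left _ _
  have hc1 : c ≤ 1 := min_le_right _ _
  obtain ⟨X₂, hX₂⟩ := eventually_atTop.1 ((ev_L (evL_facts 1 one_pos)).and
    (ev_L (eventually_ge_atTop (Real.exp (Real.exp (Real.exp 1))))))
  refine ⟨c, hc0, X₀ + X₁ + X₂ + 3, fun X hX ψ hψ2 hψ => ?_⟩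
  obtain ⟨⟨f1, f2, f3, f4, f5, f6⟩, f7⟩ := hX₂ X (by omega)
  have hX0 : (0 : ℝ) < X := by exact_mod_cast (by omega : 0 < X)
  set L := Real.log X with hL
  have hL0 : 0 < L := by linarith
  set L' := Real.log ((2 * X : ℕ) : ℝ) with hL'
  have hLL' : L' = L + Real.log 2 := by
    rw [hL', Nat.cast_mul, Real.log_mul (by norm_num) hX0.ne', hL]
    push_cast
    ring
  have hlog2a : 0 < Real.log 2 := Real.log_pos (by norm_num)
  have hlog2b : Real.log 2 ≤ 1 := by
    have := Real.log_two_lt_d9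
    linarith
  have hL'L : L ≤ L' := by linarith
  have hL'1 : L' ≤ L + 1 := by linarith
  have hL'0 : 0 < L' := by linarith
  have hψ0 : 0 < ψ := by linarith
  have hsqL : Real.sqrt L ≤ Real.sqrt L' := Real.sqrt_le_sqrt hL'L
  have hsqL'0 : 0 < Real.sqrt L' := Real.sqrt_pos.2 hL'0
  have hsqL' : Real.sqrt L' * Real.sqrt L' = L' := Real.mul_self_sqrt hL'0.le
  have hone := hX₀ (2 * X) (by omega) ψ (by linarith) (hψ.trans hsqL)
  rw [← hL'] at hone
  have hlL' : 0 < Real.log L' := by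
    have := Real.log_le_log hL0 hL'L
    linarith
  have hRk1 := one_le_Rk L' ψ
  have hRk2 : Rk L' ψ ≤ Real.log L' := Rk_le (f7.trans hL'L) (by linarith)
  set H := Real.exp (L' / ψ) with hH
  set s := c * L' * Real.log L' * Rk L' ψ with hs
  have hs0 : 0 ≤ s := by positivity
  have hexpH : Real.exp (Real.sqrt L) ≤ H := by
    rw [hH, Real.exp_le_exp, le_div_iff₀ hψ0]
    calc Real.sqrt L * ψ ≤ Real.sqrt L' * Real.sqrt L' := by
          gcongr
          exact hψ.trans hsqL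
      _ = L' := hsqL'
  have hlogL'1 : Real.log L' ≤ Real.log (L + 1) := Real.log_le_log hL'0 hL'1
  have hRk3 : Rk L' ψ ≤ Real.log (L + 1) := hRk2.trans hlogL'1
  have hlL1 : 0 < Real.log (L + 1) := by linarith
  have hsH : s ≤ H := by
    calc s = c * L' * Real.log L' * Rk L' ψ := rfl
      _ ≤ 1 * (L + 1) * Real.log (L + 1) * Real.log (L + 1) := by
        gcongr
      _ = 1 * (L + 1) * (Real.log (L + 1)) ^ 2 := by ring
      _ ≤ Real.exp (Real.sqrt L) := f6
      _ ≤ H := hexpH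
  have hLH : L ≤ H := by
    have h1 : 1 ≤ Real.log (L + 1) := by
      have := Real.log_le_log hL0 (by linarith : L ≤ L + 1)
      linarith
    have h2 : 1 ≤ (Real.log (L + 1)) ^ 2 := one_le_pow₀ h1
    calc L ≤ 1 * (L + 1) * (Real.log (L + 1)) ^ 2 := by nlinarith
      _ ≤ Real.exp (Real.sqrt L) := f6
      _ ≤ H := hexpH
  have hHX : H + 1 < X := by
    have h2 : (X : ℝ) = Real.exp L := (Real.exp_log hX0).symm
    have h3 : L' / ψ ≤ (L + 1) / 2 := by
      apply div_le_div₀ (by linarith) hL'1 (by norm_num) hψ2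
    have h4 : H ≤ Real.exp ((L + 1) / 2) := by
      rw [hH, Real.exp_le_exp]; exact h3
    have h5 : Real.exp ((L + 1) / 2) * Real.exp 2 ≤ Real.exp L := by
      rw [← Real.exp_add, Real.exp_le_exp]
      linarith
    have h6 : 3 ≤ Real.exp 2 := by
      have := Real.add_one_le_exp (2 : ℝ)
      linarith
    have h7 : 0 < Real.exp ((L + 1) / 2) := Real.exp_pos _
    rw [h2]
    nlinarith
  set e : ℝ := 2 * L ^ (-(2 * A)) with he
  have hLA : 0 < L ^ (-(2 * A)) := Real.rpow_pos_of_pos hL0 _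
  have hLA1 : L ^ (-(2 * A)) ≤ 1 := Real.rpow_le_one_of_one_le_of_nonpos (by linarith) (by linarith)
  have he0 : 0 ≤ e := by
    rw [he]; positivity
  have he4 : e ≤ 4 := by rw [he]; linarith
  have hbad : ({n : ℕ | n < 2 * X ∧ ¬ Void n H s}.ncard : ℝ) ≤ e * X := by
    have h1 : {n : ℕ | n < 2 * X ∧ ¬ Void n H s} ⊆
        {n : ℕ | n < 2 * X ∧ ¬ Void n H (c' * L' * Real.log L' * Rk L' ψ)} := by
      rintro n ⟨hn1, hn2⟩
      refine ⟨hn1, fun hv => hn2 (Void.mono_s ?_ hv)⟩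
      rw [hs]
      gcongr
    have h2 := Set.ncard_le_ncard h1 ((Set.finite_Iio (2 * X)).subset (fun n hn => hn.1))
    have h3 : ({n : ℕ | n < 2 * X ∧ ¬ Void n H s}.ncard : ℝ) ≤
      ({n : ℕ | n < 2 * X ∧ ¬ Void n H (c' * L' * Real.log L' * Rk L' ψ)}.ncard : ℝ) := by
      exact_mod_cast h2
    refine (h3.trans hone).trans ?_
    have h4 : L' ^ (-(2 * A)) ≤ L ^ (-(2 * A)) :=
      Real.rpow_le_rpow_of_nonpos hL0 hL'L (by linarith)
    rw [he]
    push_cast
    calc L' ^ (-(2 * A)) * (2 * X) ≤ L ^ (-(2 * A)) * (2 * X) := by gcongr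
      _ = _ := by ring
  obtain ⟨g1, g2⟩ := hX₁ X (by omega) H s e hLH hHX hs0 hsH he0 he4 hbad
  have hsq : C₁ * Real.sqrt e ≤ C₁ * 2 * L ^ (-A) := by
    have h7 : 0 < L ^ (-A) := Real.rpow_pos_of_pos hL0 _
    have hsq' : Real.sqrt e ≤ 2 * L ^ (-A) := by
      rw [Real.sqrt_le_left (by positivity)]
      have h5 : L ^ (-(2 * A)) = (L ^ (-A)) ^ 2 := by
        rw [← Real.rpow_natCast, ← Real.rpow_mul hL0.le]
        congr 1
        push_cast
        ring
      rw [he, h5]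
      nlinarith
    calc C₁ * Real.sqrt e ≤ C₁ * (2 * L ^ (-A)) := by gcongr
      _ = _ := by ring
  constructor
  · refine g1.trans ?_
    gcongr
  · refine g2.trans ?_
    gcongr

theorem astar_of (h : OneScale) (hR : OneScaleR) : AStar := by
  classical
  intro A hA
  obtain ⟨CU, hCU, hU⟩ := levelU h level
  obtain ⟨CR, hCR, hRR⟩ := levelR hR
  obtain ⟨c₁, hc₁, u₀, X₀, hX₀⟩ := hU (A + 4) (by linarith)
  obtain ⟨c₂, hc₂, X₁, hX₁⟩ := hRR (A + 4) (by linarith)
  obtain ⟨v₀, X₂, hX₂⟩ := scales (A + 1) (2 * CU) (max u₀ 2) (by linarith) (by positivity)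
  obtain ⟨X₃, hX₃⟩ := eventually_atTop.1 (((ev_L (evL_facts 1 one_pos)).and
    (ev_L (eventually_ge_atTop (4 + CR)))).and (ev_pow_X (A + 1)))
  set c := min (c₁ / 40) (c₂ / 4) with hc
  have hc0 : 0 < c := lt_min (by positivity) (by positivity)
  have hcc₁ : c ≤ c₁ / 40 := min_le_left _ _
  have hcc₂ : c ≤ c₂ / 4 := min_le_right _ _
  refine ⟨c, hc0, max (Real.exp v₀) 3, X₀ + X₁ + X₂ + X₃ + 3, fun X hX M hM => ?_⟩
  obtain ⟨⟨⟨f1, f2, f3, f4, f5, f6⟩, f7⟩, f8⟩ := hX₃ X (by omega)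
  have hMv : Real.exp v₀ ≤ M := (le_max_left _ _).trans hM
  have hM3 : 3 ≤ M := (le_max_right _ _).trans hM
  obtain ⟨J, uu, g1, g2, g3⟩ := hX₂ X (by omega) M hMv
  have hX0 : (0 : ℝ) < X := by exact_mod_cast (by omega : 0 < X)
  have hUj := fun j => hX₀ X (by omega) (uu j) ((le_max_left _ _).trans (g1 j).1) (g1 j).2
  have hRj := hX₁ X (by omega)
  set L := Real.log X with hL
  have hL0 : 0 < L := by linarith
  set L' := Real.log ((2 * X : ℕ) : ℝ) with hL'
  have hLL' : L' = L + Real.log 2 := by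
    rw [hL', Nat.cast_mul, Real.log_mul (by norm_num) hX0.ne', hL]
    push_cast
    ring
  have hlog2a : 0 < Real.log 2 := Real.log_pos (by norm_num)
  have hlog2b : Real.log 2 ≤ 1 := by
    have := Real.log_two_lt_d9
    linarith
  have hL'L : L ≤ L' := by linarith
  have hL'1 : L' ≤ L + 1 := by linarith
  have hL'0 : 0 < L' := by linarith
  have hsqL : Real.sqrt L * Real.sqrt L = L := Real.mul_self_sqrt hL0.le
  have hsq10 : 10 ≤ Real.sqrt L := by
    rw [Real.le_sqrt (by norm_num) hL0.le]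
    linarith
  set K := ⌈L⌉₊ with hK
  have hKL : (K : ℝ) ≤ L + 1 := (Nat.ceil_lt_add_one hL0.le).le
  set ps : ℕ → ℝ := fun j => min (2 ^ (j + 2)) (Real.sqrt L) with hps
  have hps2 : ∀ j, 2 ≤ ps j := by
    intro j
    apply le_min _ (by linarith)
    have h1 : (1 : ℝ) ≤ 2 ^ j := one_le_pow₀ (by norm_num)
    calc (2 : ℝ) ≤ 4 * 2 ^ j := by linarith
      _ = 2 ^ (j + 2) := by ring
  have hpsL : ∀ j, ps j ≤ Real.sqrt L := fun j => min_le_right _ _
  -- the key step
  have key : ∀ n : ℕ,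
      (∀ j ∈ range (J + 1), GapMeets n (Real.exp (uu j) * L) (c₁ * L * Real.log (uu j))) →
      (∀ j ∈ range (K + 1), GapMeets n (8 * Real.exp (L' / ps j))
        (c₂ * L' * Real.log L' * Rk L' (ps j))) → GapsAll c X M n := by
    intro n h1 h2 H hH1 hH2
    rw [← hL] at hH1 ⊢
    have hHpos : 0 < H := lt_of_lt_of_le (by positivity) hH1
    have hHL3 : 3 ≤ H / L := by
      rw [le_div_iff₀ hL0]
      nlinarith
    have hHL : L ≤ H := by nlinarith
    have hlogHL1 : 1 ≤ Real.log (H / L) := by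
      rw [Real.le_log_iff_exp_le (by positivity)]
      have := Real.exp_one_lt_d9
      linarith
    have hll0 : 0 ≤ Real.log (Real.log (H / L)) := Real.log_nonneg hlogHL1
    have hHLX : H / L ≤ X := by
      rw [div_le_iff₀ hL0]
      nlinarith
    have hlogHL2 : Real.log (H / L) ≤ L := Real.log_le_log (by positivity) hHLX
    have hllL : Real.log (Real.log (H / L)) ≤ Real.log L := Real.log_le_log (by linarith) hlogHL2
    have hlH8 : 8 ≤ Real.log H := f2.trans (Real.log_le_log hL0 hHL)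
    have hlH0 : 0 < Real.log H := by linarith
    have hlHL : Real.log H ≤ L := Real.log_le_log hHpos hH2
    set ψ := L / Real.log H with hψ
    have hψ1 : 1 ≤ ψ := by
      rw [hψ, le_div_iff₀ hlH0]
      linarith
    have hψ0 : 0 < ψ := by linarith
    have hlH : L / ψ = Real.log H := by
      rw [hψ]
      field_simp
    have hRk1 := one_le_Rk L ψ
    by_cases hcase : ψ ≤ Real.sqrt L / 4
    · obtain ⟨j, hj1, hj2⟩ := exists_nat_pow_near (x := ψ) (y := (2 : ℝ)) hψ1 (by norm_num)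
      have hj4 : (2 : ℝ) ^ (j + 2) = 4 * 2 ^ j := by ring
      have hj5 : (2 : ℝ) ^ (j + 2) = 2 * 2 ^ (j + 1) := by ring
      have hpsj : ps j = 2 ^ (j + 2) := by
        apply min_eq_left
        rw [hj4]
        linarith
      have hjK : j < K + 1 := by
        have h3 : (j : ℝ) < 2 ^ j := by exact_mod_cast Nat.lt_two_pow_self
        have h4 : (j : ℝ) < L := by nlinarith
        have h5 : (j : ℝ) < K := lt_of_lt_of_le h4 (Nat.le_ceil _)
        have : j < K := by exact_mod_cast h5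
        omega
      have hg := h2 j (mem_range.2 hjK)
      rw [hpsj] at hg
      have hψa : 2 * ψ ≤ 2 ^ (j + 2) := by rw [hj5]; linarith
      have hψb : (2 : ℝ) ^ (j + 2) ≤ 4 * ψ := by rw [hj4]; linarith
      refine hg.mono ?_ ?_
      · have h3 : L' / 2 ^ (j + 2) ≤ (L + 1) / (2 * ψ) :=
          div_le_div₀ (by linarith) hL'1 (by positivity) hψa
        have h4 : (L + 1) / (2 * ψ) ≤ Real.log H / 2 + 1 / 2 := by
          have h5 : (L + 1) / (2 * ψ) = L / ψ / 2 + 1 / ψ / 2 := by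
            field_simp
          have h6 : 1 / ψ ≤ 1 := by
            rw [div_le_one hψ0]; exact hψ1
          rw [h5, hlH]
          linarith
        have h7 : 4 * Real.sqrt L ≤ Real.log H := by
          rw [← hlH, le_div_iff₀ hψ0]
          nlinarith
        have h8 : Real.exp (L' / 2 ^ (j + 2)) ≤ Real.exp (Real.log H - 3) := by
          rw [Real.exp_le_exp]
          linarith
        have h9 : Real.exp (Real.log H - 3) * Real.exp 3 = H := by
          rw [← Real.exp_add, sub_add_cancel, Real.exp_log hHpos]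
        have h10 : 8 ≤ Real.exp 3 := by
          have h3 : Real.exp 3 = Real.exp 1 ^ 3 := by rw [← Real.exp_nat_mul]; norm_num
          rw [h3]
          have h4 := Real.exp_one_gt_d9
          have h5 : (2 : ℝ) ^ 3 ≤ Real.exp 1 ^ 3 := by gcongr; linarith
          have h6 : (8 : ℝ) ≤ 2 ^ 3 := by norm_num
          linarith
        have h11 : 0 < Real.exp (Real.log H - 3) := Real.exp_pos _
        nlinarith
      · have h3 := Rk_compare f2 f3 f1 hL'L hL'1 hψ1 (by linarith : ψ ≤ 2 ^ (j + 2)) hψb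
        have h4 : Real.log L ≤ Real.log L' := Real.log_le_log hL0 hL'L
        have h5 : 0 < Real.log L := by linarith
        have h6 : 0 < Rk L ψ := by linarith
        have h7 : 0 < Real.log L' := by linarith
        have h8 : Real.log (Real.log (H / L)) ≤ Real.log L' := hllL.trans h4
        calc c * L * Real.log (Real.log (H / L)) * Rk L ψ
            ≤ (c₂ / 4) * L' * Real.log L' * (4 * Rk L' (2 ^ (j + 2))) := by
              gcongr
          _ = _ := by ring
    · push Not at hcase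
      have hRk : Rk L ψ = 1 := Rk_eq_one f2 f3 f4 f1 hcase.le
      rw [hRk, mul_one]
      obtain ⟨j, hj, hj1, hj2⟩ := g2 H hH1 hH2
      refine (h1 j hj).mono hj1 ?_
      calc c * L * Real.log (Real.log (H / L)) ≤ (c₁ / 40) * L * (40 * Real.log (uu j)) := by
            gcongr
        _ = c₁ * L * Real.log (uu j) := by ring
  -- the number of `ψ`-scales
  have hLA4 : 0 < L ^ (-(A + 4)) := Real.rpow_pos_of_pos hL0 _
  have hLA1 : 0 < L ^ (-(A + 1)) := Real.rpow_pos_of_pos hL0 _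
  have hK2 : ((K : ℝ) + 1) * (CR * L ^ (-(A + 4))) ≤ L ^ (-(A + 1)) := by
    have h1 : L ^ (-(A + 4)) = L ^ (-(A + 1)) * (1 / L ^ 3) := by
      have h2 : -(A + 4) = -(A + 1) + (-3 : ℝ) := by ring
      rw [h2, Real.rpow_add hL0, Real.rpow_neg hL0.le 3, one_div]
      norm_num
    rw [h1]
    have h3 : ((K : ℝ) + 1) * CR * (1 / L ^ 3) ≤ 1 := by
      rw [mul_one_div, div_le_one (by positivity)]
      have h4 : L ^ 3 = L * L * L := by ring
      have h5 : (K : ℝ) + 1 ≤ 2 * L := by linarith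
      have h6 : CR ≤ L := by linarith
      have h7 : ((K : ℝ) + 1) * CR ≤ (2 * L) * L := by gcongr
      rw [h4]
      nlinarith [mul_pos hL0 hL0]
    calc ((K : ℝ) + 1) * (CR * (L ^ (-(A + 1)) * (1 / L ^ 3))) =
          (((K : ℝ) + 1) * CR * (1 / L ^ 3)) * L ^ (-(A + 1)) := by ring
      _ ≤ 1 * L ^ (-(A + 1)) := by gcongr
      _ = L ^ (-(A + 1)) := one_mul _
  have hA1 : 8 * L ^ (-(A + 1)) ≤ L ^ (-A) := by
    have h5 : L ^ (-A) = L * L ^ (-(A + 1)) := by
      have : -A = 1 + -(A + 1) := by ring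
      rw [this, Real.rpow_add hL0, Real.rpow_one]
    rw [h5]
    gcongr
    linarith
  have hexp : (A + 1) + 3 = A + 4 := by ring
  rw [hexp] at g3
  have g3' : ∑ j ∈ range (J + 1), (CU * Real.exp (-(3 / 2 * uu j ^ (1 / 3 : ℝ))) +
      CU * L ^ (-(A + 4))) ≤
      1 / 2 * (Real.exp (-(Real.log M ^ (1 / 3 : ℝ))) + L ^ (-(A + 1))) := by
    have h1 : ∑ j ∈ range (J + 1), (2 * CU * Real.exp (-(3 / 2 * uu j ^ (1 / 3 : ℝ))) +
        2 * CU * L ^ (-(A + 4))) = 2 * ∑ j ∈ range (J + 1),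
        (CU * Real.exp (-(3 / 2 * uu j ^ (1 / 3 : ℝ))) + CU * L ^ (-(A + 4))) := by
      rw [mul_sum]
      exact sum_congr rfl fun j _ => by ring
    rw [h1] at g3
    linarith
  have hint : ({n : ℕ | n < X ∧ ¬ GapsAll c X M n}.ncard : ℝ) ≤
      1 / 2 * (Real.exp (-(Real.log M ^ (1 / 3 : ℝ))) + L ^ (-(A + 1))) * X +
        L ^ (-(A + 1)) * X + 2 := by
    set E : ℕ → Finset ℕ := fun j => (range X).filter
      (fun n => 2 ≤ n ∧ ¬ GapMeets n (Real.exp (uu j) * L) (c₁ * L * Real.log (uu j))) with hE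
    set F : ℕ → Finset ℕ := fun j => (range X).filter
      (fun n => 2 ≤ n ∧ ¬ GapMeets n (8 * Real.exp (L' / ps j))
        (c₂ * L' * Real.log L' * Rk L' (ps j))) with hF
    have hEcard : ∀ j, ((E j).card : ℝ) ≤
        (CU * Real.exp (-(3 / 2 * uu j ^ (1 / 3 : ℝ))) + CU * L ^ (-(A + 4))) * X := by
      intro j
      have h1 := (hUj j).1
      have h2 : {n : ℕ | n < X ∧ 2 ≤ n ∧ ¬ GapMeets n (Real.exp (uu j) * L)
          (c₁ * L * Real.log (uu j))} = (E j : Set ℕ) := by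
        ext n
        rw [hE]
        simp only [Set.mem_ofPred_eq, coe_filter, mem_range]
      rw [h2, Set.ncard_coe_finset] at h1
      exact h1
    have hFcard : ∀ j, ((F j).card : ℝ) ≤ (CR * L ^ (-(A + 4))) * X := by
      intro j
      have h1 := (hRj (ps j) (hps2 j) (hpsL j)).1
      have h2 : {n : ℕ | n < X ∧ 2 ≤ n ∧ ¬ GapMeets n (8 * Real.exp (L' / ps j))
          (c₂ * L' * Real.log L' * Rk L' (ps j))} = (F j : Set ℕ) := by
        ext n
        rw [hF]
        simp only [Set.mem_ofPred_eq, coe_filter, mem_range]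
      rw [h2, Set.ncard_coe_finset] at h1
      exact h1
    have hsub : {n : ℕ | n < X ∧ ¬ GapsAll c X M n} ⊆
        (((range (J + 1)).biUnion E ∪ (range (K + 1)).biUnion F ∪ range 2 : Finset ℕ) : Set ℕ) := by
      rintro n ⟨hnX, hn⟩
      rw [Finset.mem_coe, mem_union, mem_union, mem_biUnion, mem_biUnion]
      by_contra hcon
      push Not at hcon
      obtain ⟨⟨hc1, hc2⟩, hc3⟩ := hcon
      have hn2 : 2 ≤ n := by
        rw [mem_range] at hc3
        omega
      apply hn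
      apply key n
      · intro j hj
        have h1 := hc1 j hj
        rw [hE] at h1
        simp only [mem_filter, mem_range, not_and, not_not] at h1
        exact h1 hnX hn2
      · intro j hj
        have h1 := hc2 j hj
        rw [hF] at h1
        simp only [mem_filter, mem_range, not_and, not_not] at h1
        exact h1 hnX hn2
    have h1 := Set.ncard_le_ncard hsub (Finset.finite_toSet _)
    rw [Set.ncard_coe_finset] at h1
    have h2 : ({n : ℕ | n < X ∧ ¬ GapsAll c X M n}.ncard : ℝ) ≤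
        ∑ j ∈ range (J + 1), ((E j).card : ℝ) + ∑ j ∈ range (K + 1), ((F j).card : ℝ) + 2 := by
      have h3 : ((range (J + 1)).biUnion E ∪ (range (K + 1)).biUnion F ∪ range 2).card ≤
          ∑ j ∈ range (J + 1), (E j).card + ∑ j ∈ range (K + 1), (F j).card + 2 := by
        refine (card_union_le _ _).trans ?_
        rw [card_range]
        have h4 := card_union_le ((range (J + 1)).biUnion E) ((range (K + 1)).biUnion F)
        have h5 : ((range (J + 1)).biUnion E).card ≤ ∑ j ∈ range (J + 1), (E j).card :=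
          card_biUnion_le
        have h6 : ((range (K + 1)).biUnion F).card ≤ ∑ j ∈ range (K + 1), (F j).card :=
          card_biUnion_le
        omega
      exact_mod_cast h1.trans h3
    have hs1 : ∑ j ∈ range (J + 1), ((E j).card : ℝ) ≤
        1 / 2 * (Real.exp (-(Real.log M ^ (1 / 3 : ℝ))) + L ^ (-(A + 1))) * X := by
      refine (sum_le_sum fun j _ => hEcard j).trans ?_
      rw [← sum_mul]
      gcongr
    have hs2 : ∑ j ∈ range (K + 1), ((F j).card : ℝ) ≤ L ^ (-(A + 1)) * X := by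
      refine (sum_le_sum fun j _ => hFcard j).trans ?_
      rw [sum_const, card_range, nsmul_eq_mul]
      push_cast
      rw [← mul_assoc]
      gcongr
    linarith
  have hpri : ({p : ℕ | p < X ∧ p.Prime ∧ ¬ GapsAll c X M p}.ncard : ℝ) ≤
      1 / 2 * (Real.exp (-(Real.log M ^ (1 / 3 : ℝ))) + L ^ (-(A + 1))) * (X / L) +
        L ^ (-(A + 1)) * (X / L) := by
    set E : ℕ → Finset ℕ := fun j => (range X).filter
      (fun n => n.Prime ∧ ¬ GapMeets n (Real.exp (uu j) * L) (c₁ * L * Real.log (uu j))) with hE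
    set F : ℕ → Finset ℕ := fun j => (range X).filter
      (fun n => n.Prime ∧ ¬ GapMeets n (8 * Real.exp (L' / ps j))
        (c₂ * L' * Real.log L' * Rk L' (ps j))) with hF
    have hEcard : ∀ j, ((E j).card : ℝ) ≤
        (CU * Real.exp (-(3 / 2 * uu j ^ (1 / 3 : ℝ))) + CU * L ^ (-(A + 4))) * (X / L) := by
      intro j
      have h1 := (hUj j).2
      have h2 : {p : ℕ | p < X ∧ p.Prime ∧ ¬ GapMeets p (Real.exp (uu j) * L)
          (c₁ * L * Real.log (uu j))} = (E j : Set ℕ) := by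
        ext n
        rw [hE]
        simp only [Set.mem_ofPred_eq, coe_filter, mem_range]
      rw [h2, Set.ncard_coe_finset] at h1
      refine h1.trans (le_of_eq ?_)
      ring
    have hFcard : ∀ j, ((F j).card : ℝ) ≤ (CR * L ^ (-(A + 4))) * (X / L) := by
      intro j
      have h1 := (hRj (ps j) (hps2 j) (hpsL j)).2
      have h2 : {p : ℕ | p < X ∧ p.Prime ∧ ¬ GapMeets p (8 * Real.exp (L' / ps j))
          (c₂ * L' * Real.log L' * Rk L' (ps j))} = (F j : Set ℕ) := by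
        ext n
        rw [hF]
        simp only [Set.mem_ofPred_eq, coe_filter, mem_range]
      rw [h2, Set.ncard_coe_finset] at h1
      refine h1.trans (le_of_eq ?_)
      ring
    have hsub : {p : ℕ | p < X ∧ p.Prime ∧ ¬ GapsAll c X M p} ⊆
        (((range (J + 1)).biUnion E ∪ (range (K + 1)).biUnion F : Finset ℕ) : Set ℕ) := by
      rintro p ⟨hpX, hp, hn⟩
      rw [Finset.mem_coe, mem_union, mem_biUnion, mem_biUnion]
      by_contra hcon
      push Not at hcon
      obtain ⟨hc1, hc2⟩ := hcon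
      apply hn
      apply key p
      · intro j hj
        have h1 := hc1 j hj
        rw [hE] at h1
        simp only [mem_filter, mem_range, not_and, not_not] at h1
        exact h1 hpX hp
      · intro j hj
        have h1 := hc2 j hj
        rw [hF] at h1
        simp only [mem_filter, mem_range, not_and, not_not] at h1
        exact h1 hpX hp
    have h1 := Set.ncard_le_ncard hsub (Finset.finite_toSet _)
    rw [Set.ncard_coe_finset] at h1
    have h2 : ({p : ℕ | p < X ∧ p.Prime ∧ ¬ GapsAll c X M p}.ncard : ℝ) ≤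
        ∑ j ∈ range (J + 1), ((E j).card : ℝ) + ∑ j ∈ range (K + 1), ((F j).card : ℝ) := by
      have h3 : ((range (J + 1)).biUnion E ∪ (range (K + 1)).biUnion F).card ≤
          ∑ j ∈ range (J + 1), (E j).card + ∑ j ∈ range (K + 1), (F j).card := by
        have h4 := card_union_le ((range (J + 1)).biUnion E) ((range (K + 1)).biUnion F)
        have h5 : ((range (J + 1)).biUnion E).card ≤ ∑ j ∈ range (J + 1), (E j).card :=
          card_biUnion_le
        have h6 : ((range (K + 1)).biUnion F).card ≤ ∑ j ∈ range (K + 1), (F j).card :=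
          card_biUnion_le
        omega
      exact_mod_cast h1.trans h3
    have hXL : 0 < (X : ℝ) / L := by positivity
    have hs1 : ∑ j ∈ range (J + 1), ((E j).card : ℝ) ≤
        1 / 2 * (Real.exp (-(Real.log M ^ (1 / 3 : ℝ))) + L ^ (-(A + 1))) * (X / L) := by
      refine (sum_le_sum fun j _ => hEcard j).trans ?_
      rw [← sum_mul]
      gcongr
    have hs2 : ∑ j ∈ range (K + 1), ((F j).card : ℝ) ≤ L ^ (-(A + 1)) * (X / L) := by
      refine (sum_le_sum fun j _ => hFcard j).trans ?_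
      rw [sum_const, card_range, nsmul_eq_mul]
      push_cast
      rw [← mul_assoc]
      gcongr
    linarith
  have hpri2 : L * ({p : ℕ | p < X ∧ p.Prime ∧ ¬ GapsAll c X M p}.ncard : ℝ) ≤
      1 / 2 * (Real.exp (-(Real.log M ^ (1 / 3 : ℝ))) + L ^ (-(A + 1))) * X +
        L ^ (-(A + 1)) * X := by
    calc L * ({p : ℕ | p < X ∧ p.Prime ∧ ¬ GapsAll c X M p}.ncard : ℝ)
        ≤ L * (1 / 2 * (Real.exp (-(Real.log M ^ (1 / 3 : ℝ))) + L ^ (-(A + 1))) * (X / L) +
          L ^ (-(A + 1)) * (X / L)) := by gcongr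
      _ = _ := by field_simp
  have hs3 : 8 * L ^ (-(A + 1)) * X ≤ L ^ (-A) * X := by gcongr
  have h4 : 0 < L ^ (-(A + 1)) * X := by positivity
  linarith

end Pool.Agent.H.MP_711652_nt.G2
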