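import Mathlib

/-!
# GAP2, PZ: the Paley-Zygmund step (finite, no number theory)
-/

set_option autoImplicit false

namespace Pool.Agent.H.MP_711652_nt.G2

open Finset

open Classical in
/-- PROOF. `A m = (1 / |W|) ∑_w F w m ^ 2 / M w`.  `∑ A ≥ (1 - ε) N`; the sum of `A` over the `m` which are bad for all `w` is `≤ ε N`;
`∑ A ^ 2 ≤ ((1 + ε) + C / |W|) N ≤ (1 + 2 ε) N` (`M w ≥ 1`; `h4` for `w ≠ w'`, `h3` for `w = w'`).  Cauchy-Schwarz over the good `m`: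
`(1 - 2 ε)^2 N^2 ≤ (number of good m) (1 + 2 ε) N`, and `(1 - 2 ε)^2 ≥ (1 - 6 ε) (1 + 2 ε)`. -/
theorem pz {α : Type*} (W : Finset α) (hW : W.Nonempty) (N : ℕ) (F : α → ℕ → ℝ) (M : α → ℝ)
    (hM : ∀ w ∈ W, 1 ≤ M w) (bad : ℕ → α → Prop) (ε C : ℝ) (hε : 0 < ε) (hε1 : ε ≤ 1 / 10)
    (h1 : ∀ w ∈ W, (1 - ε) * N * M w ≤ ∑ m ∈ range N, F w m ^ 2)
    (h2 : ∀ w ∈ W, ∑ m ∈ (range N).filter (fun m => bad m w), F w m ^ 2 ≤ ε * N * M w)
    (h3 : ∀ w ∈ W, ∑ m ∈ range N, F w m ^ 4 ≤ C * N)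
    (h4 : ∀ w ∈ W, ∀ w' ∈ W, w ≠ w' →
      ∑ m ∈ range N, F w m ^ 2 * F w' m ^ 2 ≤ (1 + ε) * N * M w * M w')
    (hC : C ≤ ε * W.card) :
    (((range N).filter (fun m => ∀ w ∈ W, bad m w)).card : ℝ) ≤ 6 * ε * N := by
  rcases Nat.eq_zero_or_pos N with hN | hN
  · subst hN
    simp
  have hNR : (0 : ℝ) < N := by exact_mod_cast hN
  have hWc : (0 : ℝ) < W.card := by exact_mod_cast hW.card_pos
  have hMp : ∀ w ∈ W, 0 < M w := fun w hw => lt_of_lt_of_le one_pos (hM w hw)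
  set A : ℕ → ℝ := fun m => (∑ w ∈ W, F w m ^ 2 / M w) / W.card with hA
  have hA0 : ∀ m, 0 ≤ A m := fun m =>
    div_nonneg (Finset.sum_nonneg fun w hw => div_nonneg (sq_nonneg _) (hMp w hw).le) hWc.le
  set B := (range N).filter (fun m => ∀ w ∈ W, bad m w) with hB
  set G := (range N).filter (fun m => ¬ ∀ w ∈ W, bad m w) with hG
  have hsum : ∀ s : Finset ℕ, ∑ m ∈ s, A m = (∑ w ∈ W, (∑ m ∈ s, F w m ^ 2) / M w) / W.card := by
    intro s
    rw [hA, ← Finset.sum_div, Finset.sum_comm]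
    congr 1
    refine Finset.sum_congr rfl fun w _ => ?_
    rw [Finset.sum_div]
  have e1 : (1 - ε) * N ≤ ∑ m ∈ range N, A m := by
    rw [hsum, le_div_iff₀ hWc]
    have : ∑ w ∈ W, (1 - ε) * N ≤ ∑ w ∈ W, (∑ m ∈ range N, F w m ^ 2) / M w := by
      refine Finset.sum_le_sum fun w hw => ?_
      rw [le_div_iff₀ (hMp w hw)]
      exact h1 w hw
    rw [Finset.sum_const, nsmul_eq_mul] at this
    linarith
  have e2 : ∑ m ∈ B, A m ≤ ε * N := by
    rw [hsum, div_le_iff₀ hWc]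
    have : ∑ w ∈ W, (∑ m ∈ B, F w m ^ 2) / M w ≤ ∑ w ∈ W, ε * N := by
      refine Finset.sum_le_sum fun w hw => ?_
      rw [div_le_iff₀ (hMp w hw)]
      refine le_trans (Finset.sum_le_sum_of_subset_of_nonneg ?_ fun _ _ _ => sq_nonneg _) (h2 w hw)
      intro m hm
      rw [hB, Finset.mem_filter] at hm
      rw [Finset.mem_filter]
      exact ⟨hm.1, hm.2 w hw⟩
    rw [Finset.sum_const, nsmul_eq_mul] at this
    linarith
  have hsplit : ∑ m ∈ B, A m + ∑ m ∈ G, A m = ∑ m ∈ range N, A m :=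
    Finset.sum_filter_add_sum_filter_not _ _ _
  have e3 : (1 - 2 * ε) * N ≤ ∑ m ∈ G, A m := by linarith
  -- the second moment
  have hsq : ∀ m, A m ^ 2 =
      (∑ w ∈ W, ∑ w' ∈ W, F w m ^ 2 * F w' m ^ 2 / (M w * M w')) / (W.card : ℝ) ^ 2 := by
    intro m
    rw [hA, div_pow, sq (∑ w ∈ W, F w m ^ 2 / M w), Finset.sum_mul_sum]
    congr 1
    refine Finset.sum_congr rfl fun w _ => Finset.sum_congr rfl fun w' _ => ?_
    rw [div_mul_div_comm]
  have hS : ∑ m ∈ range N, A m ^ 2 =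
      (∑ w ∈ W, ∑ w' ∈ W, (∑ m ∈ range N, F w m ^ 2 * F w' m ^ 2) / (M w * M w')) /
        (W.card : ℝ) ^ 2 := by
    rw [Finset.sum_congr rfl fun m _ => hsq m, ← Finset.sum_div, Finset.sum_comm]
    congr 1
    refine Finset.sum_congr rfl fun w _ => ?_
    rw [Finset.sum_comm]
    refine Finset.sum_congr rfl fun w' _ => ?_
    rw [Finset.sum_div]
  have hterm : ∀ w ∈ W, ∀ w' ∈ W,
      (∑ m ∈ range N, F w m ^ 2 * F w' m ^ 2) / (M w * M w') ≤
        (1 + ε) * N + (if w = w' then C * N else 0) := by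
    intro w hw w' hw'
    by_cases h : w = w'
    · subst h
      rw [if_pos rfl]
      have h5 : ∑ m ∈ range N, F w m ^ 2 * F w m ^ 2 = ∑ m ∈ range N, F w m ^ 4 :=
        Finset.sum_congr rfl fun m _ => by ring
      rw [h5]
      have h6 : 0 ≤ ∑ m ∈ range N, F w m ^ 4 := Finset.sum_nonneg fun m _ => by positivity
      have h7 : (∑ m ∈ range N, F w m ^ 4) / (M w * M w) ≤ ∑ m ∈ range N, F w m ^ 4 := by
        apply div_le_self h6
        nlinarith [hM w hw]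
      have h8 : 0 ≤ (1 + ε) * N := by positivity
      linarith [h3 w hw]
    · rw [if_neg h, add_zero, div_le_iff₀ (mul_pos (hMp w hw) (hMp w' hw'))]
      calc _ ≤ (1 + ε) * N * M w * M w' := h4 w hw w' hw' h
        _ = (1 + ε) * N * (M w * M w') := by ring
  have e4 : ∑ m ∈ range N, A m ^ 2 ≤ (1 + 2 * ε) * N := by
    rw [hS, div_le_iff₀ (by positivity)]
    have h5 : ∑ w ∈ W, ∑ w' ∈ W, (∑ m ∈ range N, F w m ^ 2 * F w' m ^ 2) / (M w * M w') ≤
        ∑ w ∈ W, ∑ w' ∈ W, ((1 + ε) * N + (if w = w' then C * N else 0)) :=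
      Finset.sum_le_sum fun w hw => Finset.sum_le_sum fun w' hw' => hterm w hw w' hw'
    refine h5.trans ?_
    have h6 : ∑ w ∈ W, ∑ w' ∈ W, ((1 + ε) * (N : ℝ) + (if w = w' then C * N else 0)) =
        (W.card : ℝ) ^ 2 * ((1 + ε) * N) + W.card * (C * N) := by
      simp only [Finset.sum_add_distrib, Finset.sum_const, nsmul_eq_mul, Finset.sum_ite_eq]
      rw [Finset.sum_congr rfl fun w hw => if_pos hw, Finset.sum_const, nsmul_eq_mul]
      ring
    rw [h6]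
    have h7 : (W.card : ℝ) * (C * N) ≤ W.card * (ε * W.card * N) := by
      gcongr
    nlinarith
  have e5 : ∑ m ∈ G, A m ^ 2 ≤ (1 + 2 * ε) * N :=
    (Finset.sum_le_sum_of_subset_of_nonneg (Finset.filter_subset _ _)
      fun _ _ _ => sq_nonneg _).trans e4
  have e6 : (∑ m ∈ G, A m) ^ 2 ≤ G.card * ∑ m ∈ G, A m ^ 2 := sq_sum_le_card_mul_sum_sq
  have e7 : ((1 - 2 * ε) * N) ^ 2 ≤ G.card * ((1 + 2 * ε) * N) := by
    have h5 : 0 ≤ (1 - 2 * ε) * N := mul_nonneg (by linarith) hNR.le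
    calc ((1 - 2 * ε) * N) ^ 2 ≤ (∑ m ∈ G, A m) ^ 2 := pow_le_pow_left₀ h5 e3 2
      _ ≤ G.card * ∑ m ∈ G, A m ^ 2 := e6
      _ ≤ G.card * ((1 + 2 * ε) * N) := by gcongr
  have e8 : (1 - 2 * ε) ^ 2 * N ≤ G.card * (1 + 2 * ε) := by
    have h5 : (1 - 2 * ε) ^ 2 * N * N ≤ G.card * (1 + 2 * ε) * N := by nlinarith
    exact le_of_mul_le_mul_right h5 hNR
  have e9 : (1 - 6 * ε) * N ≤ G.card := by
    have h5 : (1 - 6 * ε) * N * (1 + 2 * ε) ≤ G.card * (1 + 2 * ε) := by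
      refine le_trans ?_ e8
      nlinarith [mul_nonneg (sq_nonneg ε) hNR.le]
    exact le_of_mul_le_mul_right h5 (by linarith)
  have e10 : (B.card : ℝ) + G.card = N := by
    have := Finset.card_filter_add_card_filter_not (s := range N) (fun m => ∀ w ∈ W, bad m w)
    rw [Finset.card_range] at this
    exact_mod_cast this
  linarith

end Pool.Agent.H.MP_711652_nt.G2
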