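import Pool.Agent.H.MP_711652_nt.G2.F4
import Pool.Agent.H.MP_711652_nt.G2.PZ

/-!
# GAP3, Abs3: the abstract theorem, with the interface for the small primes only for pairs of windows
-/

set_option autoImplicit false

namespace Pool.Agent.H.MP_711652_nt.G2

open Finset Pool.Agent.H.MP_711652_nt.LG

open Classical in
/-- PROOF. `pz` with `F a = Pw` of the window `wd a` (type `wd a` of positions, `Forms_comp`, `Small.comp` along the inclusion), `M a = Mw`, `C = C4`.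
`h1`: `f1b`; `h2`: `f2b`; `h3`: `f3b`; `h4`: `f4` for `wd a ⊕ wd b` with `δ = ε / 10`, `R` replaced by `2 R`. -/
theorem abs3 {ι : Type*} [Fintype ι] [DecidableEq ι] {P : Finset ℕ} {A : ℕ → ι → ℕ → Prop}
    (hF : Forms P A) {Q0 : ℕ} {Lam : ι → ℕ → ℝ} {K B Y : ℕ} {v η cL c D : ℝ}
    (hcop : ∀ p ∈ P, ¬ p ∣ Q0) (hB : Big P B Y K c D)
    {α : Type*} (W : Finset α) (hW : W.Nonempty) (wd : α → Finset ι)
    (hS2 : ∀ a ∈ W, ∀ b ∈ W, Small Q0 (fun k : {i // i ∈ wd a ∪ wd b} => Lam k) K v η cL)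
    (hdisj : ∀ a ∈ W, ∀ b ∈ W, a ≠ b → Disjoint (wd a) (wd b)) (R : ℕ)
    (hR : ∀ a ∈ W, (wd a).card ≤ R) (N Om : ℕ) (hOm : ∀ m < N, ∀ i, {p | p ∈ P ∧ A p i m}.ncard ≤ Om)
    (ε s C4 : ℝ) (hε : 0 < ε) (hε1 : ε ≤ 1 / 10) (hs : 0 ≤ s) (hsB : s * Real.log B ≤ 1)
    (hC4 : 2 * (16 * 2 ^ (Om + 1)) ^ (4 * K) * Real.exp (R * v) ≤ C4)
    (h16 : 2 ^ R * cL ^ (16 * K) ≤ (N : ℝ))
    (hN : 100 * ((R : ℝ) + 1) * (2 ^ R * (Y : ℝ) ^ 2 * cL ^ (K + 1)) ^ 4 ≤ ε * N)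
    (hg : 16 * (K : ℝ) * R / D ≤ ε / 10)
    (hθ : R * v * (((B : ℝ) / Y) ^ s * Real.exp (R * v * (2 * s * c)) +
      (K * (2 / (D - 1))) ^ 2 + 4 * K * R / D) ≤ ε / 2)
    (hη : η ≤ ε / 10)
    (hZ : (1 + 10 / ε) * (((2 * Om + 2) / (D - 1)) ^ 2 * (K : ℝ) ^ 4 * C4) ≤ ε / 10)
    (hW4 : C4 ≤ ε * W.card) :
    (((range N).filter (fun m => ∀ a ∈ W, ∃ i ∈ wd a, (∀ p ∈ P, ¬ A p i m) ∧ Lam i m = 1)).card : ℝ) ≤
      6 * ε * N := by
  obtain ⟨a0, ha0⟩ := hW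
  have hS := hS2 a0 ha0 a0 ha0
  have hD := hB.hD
  have hD0 : 0 < D := by linarith
  have hY1 : (1 : ℝ) ≤ Y := by exact_mod_cast hB.hY
  have hc1 := hS.one_le
  have hc0 : 0 ≤ cL := by linarith
  have hR0 : (0 : ℝ) ≤ R := Nat.cast_nonneg R
  have hK0 : (0 : ℝ) ≤ K := Nat.cast_nonneg K
  have hN0 : (0 : ℝ) ≤ N := Nat.cast_nonneg N
  have hη0 := hS.η_nonneg
  have hv0 := hS.v_nonneg
  -- the norms
  obtain ⟨T, hT⟩ : ∃ T : ℝ, T = 2 ^ R * (Y : ℝ) ^ 2 * cL ^ (K + 1) := ⟨_, rfl⟩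
  rw [← hT] at hN
  have h2R : (1 : ℝ) ≤ 2 ^ R := one_le_pow₀ (by norm_num)
  have hY2 : (1 : ℝ) ≤ (Y : ℝ) ^ 2 := one_le_pow₀ hY1
  have hT1 : 1 ≤ T := by
    rw [hT]
    have h1 : (1 : ℝ) ≤ cL ^ (K + 1) := one_le_pow₀ hc1
    have h2 : (1 : ℝ) ≤ 2 ^ R * (Y : ℝ) ^ 2 := one_le_mul_of_one_le_of_one_le h2R hY2
    exact one_le_mul_of_one_le_of_one_le h2 h1
  have hT4 : (T : ℝ) ^ 4 ≤ ε * N / 100 := by
    have h1 : 0 ≤ (R : ℝ) * T ^ 4 := by positivity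
    linarith
  have hT24 : T ^ 2 ≤ T ^ 4 := pow_le_pow_right₀ hT1 (by norm_num)
  have hRT : (R : ℝ) * T ^ 2 ≤ ε * N / 100 := by
    have h1 : (R : ℝ) * T ^ 2 ≤ R * T ^ 4 := mul_le_mul_of_nonneg_left hT24 hR0
    have h2 : 0 ≤ T ^ 4 := by positivity
    linarith
  have hNmK : Nm R Y K cL ≤ T := by
    rw [hT, Nm]
    exact mul_le_mul_of_nonneg_left (pow_le_pow_right₀ hc1 (Nat.le_succ K)) (by positivity)
  have hNm0 : ∀ k, 0 ≤ Nm R Y k cL := fun k => by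
    rw [Nm]
    positivity
  have hNmK1 : Nm R Y (K + 1) cL = T := by rw [hT, Nm]
  -- the Gram factor
  have hg0 : 0 ≤ 16 * (K : ℝ) * R / D := by positivity
  have hg4 : 4 * (K : ℝ) * R / D ≤ ε / 40 := by
    have e : 16 * (K : ℝ) * R / D = 4 * (4 * K * R / D) := by ring
    linarith
  have hsmall : (K : ℝ) * (2 * R / D) ≤ 1 := by
    have e : 16 * (K : ℝ) * R / D = 8 * (K * (2 * R / D)) := by ring
    linarith
  have hsmall2 : ((2 * K : ℕ) : ℝ) * (2 * ((2 * R : ℕ) : ℝ) / D) ≤ 1 := by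
    have e : ((2 * K : ℕ) : ℝ) * (2 * ((2 * R : ℕ) : ℝ) / D) = 16 * (K : ℝ) * R / D / 2 := by
      push_cast
      ring
    rw [e]
    linarith
  -- the fourth moments
  have h4N : (16 * 2 ^ (Om + 1)) ^ (4 * K) * (N * Real.exp (R * v) + 2 ^ R * cL ^ (16 * K)) ≤
      C4 * N := by
    have e1 : (1 : ℝ) ≤ Real.exp (R * v) := Real.one_le_exp (by positivity)
    have e2 : (N : ℝ) * Real.exp (R * v) + 2 ^ R * cL ^ (16 * K) ≤ 2 * (N * Real.exp (R * v)) := by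
      have : (N : ℝ) * 1 ≤ N * Real.exp (R * v) := mul_le_mul_of_nonneg_left e1 hN0
      linarith
    have e3 : (0 : ℝ) ≤ (16 * 2 ^ (Om + 1)) ^ (4 * K) := by positivity
    calc (16 * 2 ^ (Om + 1)) ^ (4 * K) * ((N : ℝ) * Real.exp (R * v) + 2 ^ R * cL ^ (16 * K)) ≤
          (16 * 2 ^ (Om + 1)) ^ (4 * K) * (2 * (N * Real.exp (R * v))) :=
          mul_le_mul_of_nonneg_left e2 e3
      _ = (2 * (16 * 2 ^ (Om + 1)) ^ (4 * K) * Real.exp (R * v)) * N := by ring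
      _ ≤ C4 * N := mul_le_mul_of_nonneg_right hC4 hN0
  have hSw : ∀ a ∈ W, Small Q0 (fun k : {i // i ∈ wd a} => Lam k) K v η cL := fun a ha =>
    (hS2 a ha a ha).comp (fun k : {i // i ∈ wd a} => (⟨k.1, mem_union_left _ k.2⟩ : {i // i ∈ wd a ∪ wd a}))
      (fun x y hxy => Subtype.ext (congrArg (fun z : {i // i ∈ wd a ∪ wd a} => z.1) hxy))
  have hFw : ∀ a, Forms P (fun p (k : {i // i ∈ wd a}) m => A p k m) := fun a =>
    Forms_comp hF Subtype.val Subtype.val_injective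
  have hcard : ∀ a ∈ W, Fintype.card {i // i ∈ wd a} ≤ R := fun a ha => by
    rw [Fintype.card_coe]
    exact hR a ha
  refine le_trans (le_of_eq ?_) (pz W ⟨a0, ha0⟩ N
    (fun a m => Pw P (fun p (k : {i // i ∈ wd a}) m => A p k m) (fun k => Lam k) c B Y m)
    (fun a => Mw P Q0 (fun k : {i // i ∈ wd a} => Lam k) c B Y)
    (fun a ha => one_le_Mw (hSw a ha) hB)
    (fun m a => ∃ i ∈ wd a, (∀ p ∈ P, ¬ A p i m) ∧ Lam i m = 1) ε C4 hε hε1 ?_ ?_ ?_ ?_ hW4)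
  · congr!
  · -- F1
    intro a ha
    have h1 := f1b (hFw a) (hSw a ha) hcop hB R (hcard a ha) hsmall N
    have hM := one_le_Mw (ι := {i // i ∈ wd a}) (Lam := fun k => Lam k) (hSw a ha) hB
    obtain ⟨M, hMd⟩ : ∃ M : ℝ, M = Mw P Q0 (fun k : {i // i ∈ wd a} => Lam k) c B Y := ⟨_, rfl⟩
    rw [← hMd] at h1 hM ⊢
    refine le_trans ?_ h1
    have h2 : Nm R Y K cL ^ 2 ≤ ε * N / 100 :=
      (pow_le_pow_left₀ (hNm0 K) hNmK 2).trans (hT24.trans hT4)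
    have hNM : (N : ℝ) ≤ N * M := by nlinarith
    have h3 : (4 * (K : ℝ) * R / D) * (N * M) ≤ ε / 40 * (N * M) :=
      mul_le_mul_of_nonneg_right hg4 (by positivity)
    have h5 : ε * N ≤ ε * (N * M) := mul_le_mul_of_nonneg_left hNM hε.le
    have h6 : 0 ≤ ε * (N * M) := by positivity
    have e : (N : ℝ) * ((1 - 4 * K * R / D) * M) = N * M - (4 * (K : ℝ) * R / D) * (N * M) := by
      ring
    rw [e]
    nlinarith
  · -- F2
    intro a ha
    have h1 := f2b (hFw a) (hSw a ha) hcop hB R (hcard a ha) hsmall s hs hsB N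
      ((range N).filter (fun m => ∃ i ∈ wd a, (∀ p ∈ P, ¬ A p i m) ∧ Lam i m = 1))
      (Finset.filter_subset _ _) (fun m hm => by
        obtain ⟨i, hi, h2⟩ := (mem_filter.1 hm).2
        exact ⟨⟨i, hi⟩, h2⟩)
    have hM := one_le_Mw (ι := {i // i ∈ wd a}) (Lam := fun k => Lam k) (hSw a ha) hB
    obtain ⟨M, hMd⟩ : ∃ M : ℝ, M = Mw P Q0 (fun k : {i // i ∈ wd a} => Lam k) c B Y := ⟨_, rfl⟩
    rw [← hMd] at h1 hM ⊢
    refine le_trans (le_of_eq (by congr!)) (h1.trans ?_)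
    rw [hNmK1]
    have hM0 : 0 ≤ M := by linarith
    have h3 := mul_le_mul_of_nonneg_right hθ hM0
    have h4 := mul_le_mul_of_nonneg_left h3 hN0
    have hNM : (N : ℝ) ≤ N * M := by nlinarith
    have h5 : ε * N ≤ ε * (N * M) := mul_le_mul_of_nonneg_left hNM hε.le
    have h6 : 0 ≤ ε * (N * M) := by positivity
    nlinarith
  · -- F3
    intro a ha
    refine (f3b (hSw a ha) hB (fun p (k : {i // i ∈ wd a}) m => A p k m) Om R (hcard a ha) N
      (fun m hm i => hOm m hm i)).trans h4N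
  · -- F4
    intro a ha b hb hab
    have hinj : Function.Injective (Sum.elim (Subtype.val : {i // i ∈ wd a} → ι)
        (Subtype.val : {i // i ∈ wd b} → ι)) := by
      refine Function.Injective.sumElim Subtype.val_injective Subtype.val_injective ?_
      intro x y hxy
      exact Finset.disjoint_left.1 (hdisj a ha b hb hab) x.2 (hxy ▸ y.2)
    have hSab : Small Q0 (fun k => Lam (Sum.elim (Subtype.val : {i // i ∈ wd a} → ι)
        (Subtype.val : {i // i ∈ wd b} → ι) k)) K v η cL := by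
      have h0 := (hS2 a ha b hb).comp (Sum.elim
        (fun k : {i // i ∈ wd a} => (⟨k.1, mem_union_left _ k.2⟩ : {i // i ∈ wd a ∪ wd b}))
        (fun k : {i // i ∈ wd b} => (⟨k.1, mem_union_right _ k.2⟩ : {i // i ∈ wd a ∪ wd b}))) (by
          intro x y hxy
          apply hinj
          have h1 := congrArg (fun z : {i // i ∈ wd a ∪ wd b} => z.1) hxy
          rcases x with x | x <;> rcases y with y | y <;> exact h1)
      have e0 : (fun k : {i // i ∈ wd a} ⊕ {i // i ∈ wd b} => Lam (Sum.elim (Subtype.val : {i // i ∈ wd a} → ι)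
          (Subtype.val : {i // i ∈ wd b} → ι) k)) = fun k => Lam ((Sum.elim
        (fun k : {i // i ∈ wd a} => (⟨k.1, mem_union_left _ k.2⟩ : {i // i ∈ wd a ∪ wd b}))
        (fun k : {i // i ∈ wd b} => (⟨k.1, mem_union_right _ k.2⟩ : {i // i ∈ wd a ∪ wd b})) k).1) := by
        funext k
        rcases k with k | k <;> rfl
      rw [e0]
      exact h0
    have hFab := Forms_comp hF _ hinj
    have hZa := (f3b_Z (hSw a ha) Om R (hcard a ha) N).trans h4N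
    have hZb := (f3b_Z (hSw b hb) Om R (hcard b hb) N).trans h4N
    have h1 := f4 hFab hSab hcop hB (2 * R) (by
      have e1 := hcard a ha
      have e2 := hcard b hb
      omega) hsmall2 N Om (fun m hm i => hOm m hm _) (ε / 10) (by positivity) (C4 * N) hZa hZb
    refine h1.trans ?_
    have hMa := one_le_Mw (ι := {i // i ∈ wd a}) (Lam := fun k => Lam k) (hSw a ha) hB
    have hMb := one_le_Mw (ι := {i // i ∈ wd b}) (Lam := fun k => Lam k) (hSw b hb) hB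
    have e1 : Mw P Q0 (fun k : {i // i ∈ wd a} => (fun k => Lam (Sum.elim
        (Subtype.val : {i // i ∈ wd a} → ι) (Subtype.val : {i // i ∈ wd b} → ι) k))
        (Sum.inl k)) c B Y = Mw P Q0 (fun k : {i // i ∈ wd a} => Lam k) c B Y := rfl
    have e2 : Mw P Q0 (fun k : {i // i ∈ wd b} => (fun k => Lam (Sum.elim
        (Subtype.val : {i // i ∈ wd a} → ι) (Subtype.val : {i // i ∈ wd b} → ι) k))
        (Sum.inr k)) c B Y = Mw P Q0 (fun k : {i // i ∈ wd b} => Lam k) c B Y := rfl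
    rw [e1, e2]
    obtain ⟨M, hMd⟩ : ∃ M : ℝ, M = Mw P Q0 (fun k : {i // i ∈ wd a} => Lam k) c B Y := ⟨_, rfl⟩
    obtain ⟨M', hMd'⟩ : ∃ M : ℝ, M = Mw P Q0 (fun k : {i // i ∈ wd b} => Lam k) c B Y := ⟨_, rfl⟩
    rw [← hMd] at hMa ⊢
    rw [← hMd'] at hMb ⊢
    have hMM : 1 ≤ M * M' := one_le_mul_of_one_le_of_one_le hMa hMb
    obtain ⟨q, hq⟩ : ∃ q : ℝ, q = N * (M * M') := ⟨_, rfl⟩
    have hNq : (N : ℝ) ≤ q := by
      rw [hq]
      nlinarith
    have hq0 : 0 ≤ q := hN0.trans hNq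
    -- the norm
    have hn1 : (2 ^ (2 * R) * (Y : ℝ) ^ 4 * cL ^ (2 * K)) ^ 2 ≤ ε * N / 100 := by
      have e3 : (2 ^ (2 * R) * (Y : ℝ) ^ 4 * cL ^ (2 * K)) ^ 2 = Nm R Y K cL ^ 4 := by
        rw [Nm]
        ring
      rw [e3]
      exact (pow_le_pow_left₀ (hNm0 K) hNmK 4).trans hT4
    have hn2 : ε * N / 100 ≤ ε * q / 100 := by
      have := mul_le_mul_of_nonneg_left hNq hε.le
      linarith
    -- the factors
    have hf1 : 1 + 8 * (K : ℝ) * ((2 * R : ℕ) : ℝ) / D ≤ 1 + ε / 10 := by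
      have e4 : 8 * (K : ℝ) * ((2 * R : ℕ) : ℝ) / D = 16 * K * R / D := by
        push_cast
        ring
      rw [e4]
      linarith
    have hf0 : 0 ≤ 1 + 8 * (K : ℝ) * ((2 * R : ℕ) : ℝ) / D := by positivity
    have hf2 : (1 + 8 * (K : ℝ) * ((2 * R : ℕ) : ℝ) / D) * (1 + η) ≤
        (1 + ε / 10) * (1 + ε / 10) :=
      mul_le_mul hf1 (by linarith) (by linarith) (by positivity)
    have hf3 : (N : ℝ) * ((1 + 8 * (K : ℝ) * ((2 * R : ℕ) : ℝ) / D) * (1 + η)) * M * M' ≤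
        (1 + ε / 10) * (1 + ε / 10) * q := by
      have e5 : (N : ℝ) * ((1 + 8 * (K : ℝ) * ((2 * R : ℕ) : ℝ) / D) * (1 + η)) * M * M' =
          ((1 + 8 * (K : ℝ) * ((2 * R : ℕ) : ℝ) / D) * (1 + η)) * q := by
        rw [hq]
        ring
      rw [e5]
      exact mul_le_mul_of_nonneg_right hf2 hq0
    have hf4 : (1 + 1 / (ε / 10)) * (((2 * (Om : ℝ) + 2) / (D - 1)) ^ 2 * (K : ℝ) ^ 4 * (C4 * N)) ≤
        ε / 10 * q := by
      have e6 : 1 / (ε / 10) = 10 / ε := by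
        field_simp
      rw [e6]
      have e7 : (1 + 10 / ε) * (((2 * (Om : ℝ) + 2) / (D - 1)) ^ 2 * (K : ℝ) ^ 4 * (C4 * N)) =
          ((1 + 10 / ε) * (((2 * (Om : ℝ) + 2) / (D - 1)) ^ 2 * (K : ℝ) ^ 4 * C4)) * N := by ring
      rw [e7]
      exact (mul_le_mul_of_nonneg_right hZ hN0).trans
        (mul_le_mul_of_nonneg_left hNq (by positivity))
    have hfin : (1 + ε / 10) * ((1 + ε / 10) * (1 + ε / 10) * q + ε * q / 100) + ε / 10 * q ≤
        (1 + ε) * q := by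
      have e8 : (1 + ε) * q - ((1 + ε / 10) * ((1 + ε / 10) * (1 + ε / 10) * q + ε * q / 100) +
          ε / 10 * q) = ε * q * (59 / 100 - 31 / 1000 * ε - ε ^ 2 / 1000) := by ring
      have h9 : 0 ≤ 59 / 100 - 31 / 1000 * ε - ε ^ 2 / 1000 := by nlinarith
      have h10 : 0 ≤ ε * q * (59 / 100 - 31 / 1000 * ε - ε ^ 2 / 1000) :=
        mul_nonneg (mul_nonneg hε.le hq0) h9
      linarith
    have e9 : (1 + ε) * (N : ℝ) * M * M' = (1 + ε) * q := by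
      rw [hq]
      ring
    rw [e9]
    refine le_trans ?_ hfin
    refine add_le_add (mul_le_mul_of_nonneg_left ?_ (by positivity)) hf4
    exact add_le_add hf3 (hn1.trans hn2)

end Pool.Agent.H.MP_711652_nt.G2
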