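import Pool.Agent.H.MP_711652_nt.G2.StmtA

/-!
# GAP3, (F): all `H` at once
-/

set_option autoImplicit false

namespace Pool.Agent.H.MP_711652_nt.G2

open Finset Filter

lemma gapMeets_of_void' {n : ℕ} {H H' s s' : ℝ} (hn : 2 ≤ n) (hH : H' ≤ H) (hs : s ≤ s')
    (h : Void n H' s') : GapMeets n H s := by
  obtain ⟨t, hnt, htg, hv⟩ := h
  have hinf := Nat.infinite_setOfPred_prime
  have hc1 : Nat.count Nat.Prime 2 < Nat.count Nat.Prime (t + 1) :=
    Nat.count_strict_mono Nat.prime_two (by omega)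
  obtain ⟨c, hc⟩ : ∃ c, Nat.count Nat.Prime (t + 1) = c + 1 :=
    ⟨Nat.count Nat.Prime (t + 1) - 1, by omega⟩
  have h4 : Nat.nth Nat.Prime c < t + 1 := Nat.nth_lt_of_lt_count (by omega)
  have h5 : t + 1 ≤ Nat.nth Nat.Prime (c + 1) := by
    rw [← hc]
    exact Nat.le_nth_count hinf (t + 1)
  have h6 : (Nat.nth Nat.Prime (c + 1)).Prime := Nat.prime_nth_prime (c + 1)
  have h7 : (t : ℝ) + s' ≤ Nat.nth Nat.Prime (c + 1) := by
    by_contra h8
    push Not at h8
    exact hv _ (by omega) h8.le h6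
  refine ⟨c, ?_⟩
  have h8 : max (Nat.nth Nat.Prime c : ℝ) n ≤ t := by
    apply max_le
    · exact_mod_cast (by omega : Nat.nth Nat.Prime c ≤ t)
    · exact_mod_cast hnt
  have h9 : (t : ℝ) + s' ≤ min (Nat.nth Nat.Prime (c + 1) : ℝ) (n + H) := by
    apply le_min h7
    linarith
  linarith

lemma exp_cbrt_small : ∃ u₁ : ℝ, 1 ≤ u₁ ∧ ∀ u : ℝ, u₁ ≤ u → Real.exp (-(u ^ (1 / 3 : ℝ))) ≤ 1 / (4 * u) := by
  -- with `w = u ^ (1/3)`: `4 w ^ 3 ≤ exp w` for large `w`
  have h1 : ∀ᶠ w : ℝ in atTop, 4 * w ^ 3 ≤ Real.exp w := by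
    have h2 := (Real.isLittleO_pow_exp_atTop (n := 3)).bound (c := 1 / 4) (by norm_num)
    filter_upwards [h2, eventually_ge_atTop 0] with w hw hw0
    rw [Real.norm_of_nonneg (by positivity), Real.norm_of_nonneg (Real.exp_pos _).le] at hw
    linarith
  have h2 : Tendsto (fun u : ℝ => u ^ (1 / 3 : ℝ)) atTop atTop := tendsto_rpow_atTop (by norm_num)
  obtain ⟨u₁, hu₁⟩ := eventually_atTop.1 ((h2.eventually h1).and (eventually_ge_atTop 1))
  refine ⟨max u₁ 1, le_max_right _ _, fun u hu => ?_⟩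
  obtain ⟨h3, h4⟩ := hu₁ u ((le_max_left _ _).trans hu)
  have h5 : (u ^ (1 / 3 : ℝ)) ^ 3 = u := by
    rw [← Real.rpow_natCast, ← Real.rpow_mul (by linarith)]
    norm_num
  rw [h5] at h3
  rw [Real.exp_neg, ← one_div]
  exact one_div_le_one_div_of_le (by linarith) h3

lemma ev_L {P : ℝ → Prop} (h : ∀ᶠ L : ℝ in atTop, P L) : ∀ᶠ X : ℕ in atTop, P (Real.log X) :=
  (Real.tendsto_log_atTop.comp tendsto_natCast_atTop_atTop).eventually h

/-- powers of `L` against `exp (-2 L ^ (1 / 60))` -/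
lemma ev_exp_pow (B : ℝ) : ∀ᶠ L : ℝ in atTop,
    Real.exp (-(2 * (L ^ (1 / 20 : ℝ)) ^ (1 / 3 : ℝ))) ≤ L ^ (-B) := by
  have h2 : Tendsto (fun L : ℝ => L ^ (1 / 60 : ℝ)) atTop atTop := tendsto_rpow_atTop (by norm_num)
  have h1 : ∀ᶠ w : ℝ in atTop, (60 * |B|) * Real.log w ≤ 2 * w := by
    have h3 := (Real.isLittleO_log_id_atTop).bound (c := 1 / (60 * |B| + 1)) (by positivity)
    filter_upwards [h3, eventually_ge_atTop 1] with w hw hw1
    have hlog : 0 ≤ Real.log w := Real.log_nonneg hw1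
    rw [id, Real.norm_of_nonneg hlog, Real.norm_of_nonneg (by linarith)] at hw
    have hB : 0 ≤ 60 * |B| := by positivity
    calc (60 * |B|) * Real.log w ≤ (60 * |B|) * (1 / (60 * |B| + 1) * w) := by gcongr
      _ = (60 * |B|) / (60 * |B| + 1) * w := by ring
      _ ≤ 1 * w := by
        gcongr
        rw [div_le_one (by positivity)]
        linarith
      _ ≤ 2 * w := by linarith
  filter_upwards [h2.eventually h1, eventually_ge_atTop 1] with L hL hL1
  have hL0 : 0 < L := by linarith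
  have e1 : (L ^ (1 / 20 : ℝ)) ^ (1 / 3 : ℝ) = L ^ (1 / 60 : ℝ) := by
    rw [← Real.rpow_mul hL0.le]
    norm_num
  rw [e1, Real.rpow_def_of_pos hL0 (-B)]
  rw [Real.exp_le_exp]
  rw [Real.log_rpow hL0] at hL
  have hlog : 0 ≤ Real.log L := Real.log_nonneg hL1
  have h4 : B * Real.log L ≤ |B| * Real.log L := by
    gcongr
    exact le_abs_self B
  nlinarith

lemma ev_pow_X (B : ℝ) : ∀ᶠ X : ℕ in atTop, 4 ≤ Real.log X ^ (-B) * X := by
  -- `4 L ^ B ≤ exp L`
  have h1 : ∀ᶠ L : ℝ in atTop, 4 * L ^ B ≤ Real.exp L := by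
    have h2 := (isLittleO_rpow_exp_atTop B).bound (c := 1 / 4) (by norm_num)
    filter_upwards [h2, eventually_ge_atTop 0] with w hw hw0
    rw [Real.norm_of_nonneg (by positivity), Real.norm_of_nonneg (Real.exp_pos _).le] at hw
    linarith
  filter_upwards [ev_L h1, ev_L (eventually_ge_atTop 1), eventually_ge_atTop 1] with X h2 h3 h4
  have hX : (0 : ℝ) < X := by exact_mod_cast h4
  rw [Real.exp_log hX] at h2
  have hL : 0 < Real.log X := by linarith
  rw [Real.rpow_neg hL.le]
  have h5 : 0 < Real.log X ^ B := by positivity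
  rw [inv_mul_eq_div, le_div_iff₀ h5]
  exact h2

theorem allH_of_oneScale (h : OneScale) : AllH := by
  classical
  intro A hA
  obtain ⟨c₁, hc₁, u₀, hu₀, X₀, hX₀⟩ := h (A + 3) (by linarith)
  obtain ⟨u₁, hu₁, hexp⟩ := exp_cbrt_small
  set v₀ : ℝ := max (max u₀ u₁) 2 with hv₀
  have hv₀0 : u₀ ≤ v₀ := (le_max_left _ _).trans (le_max_left _ _)
  have hv₀1 : u₁ ≤ v₀ := (le_max_right _ _).trans (le_max_left _ _)
  have hv₀2 : 2 ≤ v₀ := le_max_right _ _
  have t20 : Tendsto (fun L : ℝ => L ^ (1 / 20 : ℝ)) atTop atTop := tendsto_rpow_atTop (by norm_num)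
  have e1 := ev_L (t20.eventually_ge_atTop v₀)
  have e2 := ev_L (ev_exp_pow (A + 3))
  have e3 := ev_pow_X A
  have e4 := ev_L (eventually_ge_atTop (8 : ℝ))
  obtain ⟨X₁, hX₁⟩ := eventually_atTop.1 ((e1.and e2).and (e3.and e4))
  refine ⟨c₁ / 40, by positivity, Real.exp v₀, X₀ + X₁ + 1, fun X hX M hM => ?_⟩
  obtain ⟨⟨f1, f2⟩, f3, f4⟩ := hX₁ X (by omega)
  have hX0 : (0 : ℝ) < X := by exact_mod_cast (by omega : 0 < X)
  set L := Real.log X with hL
  have hL0 : 0 < L := by linarith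
  have hL1 : 1 ≤ L := by linarith
  have hM0 : 0 < M := lt_of_lt_of_le (Real.exp_pos _) hM
  have hlogM : v₀ ≤ Real.log M := by
    rw [Real.le_log_iff_exp_le hM0]; exact hM
  set S := L ^ (1 / 20 : ℝ) with hS
  have hSL : S ≤ L := by
    calc S = L ^ (1 / 20 : ℝ) := rfl
      _ ≤ L ^ (1 : ℝ) := Real.rpow_le_rpow_of_exponent_le hL1 (by norm_num)
      _ = L := Real.rpow_one L
  set v := min (Real.log M) S with hv
  have hvv₀ : v₀ ≤ v := le_min hlogM f1
  have hv0 : 0 < v := by linarith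
  set uu : ℕ → ℝ := fun j => min (2 ^ j * v) S with huu
  have huv : ∀ j, v ≤ uu j := by
    intro j
    apply le_min _ (min_le_right _ _)
    have : (1 : ℝ) ≤ 2 ^ j := one_le_pow₀ (by norm_num)
    nlinarith
  set J := ⌈L⌉₊ with hJ
  have hJL : (J : ℝ) ≤ L + 1 := (Nat.ceil_lt_add_one hL0.le).le
  set E : ℕ → Finset ℕ := fun j => (range X).filter
    (fun n => ¬ Void n (Real.exp (uu j) * L) (c₁ * L * Real.log (uu j))) with hE
  have hEcard : ∀ j, ((E j).card : ℝ) ≤
      (Real.exp (-(Real.log M ^ (1 / 3 : ℝ))) * ((1 / 2) ^ j / 4) + 2 * L ^ (-(A + 3))) * X := by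
    intro j
    have h1 := hX₀ X (by omega) (uu j) (hv₀0.trans (hvv₀.trans (huv j))) (min_le_right _ _)
    have h2 : {n : ℕ | n < X ∧ ¬ Void n (Real.exp (uu j) * L) (c₁ * L * Real.log (uu j))} =
        (E j : Set ℕ) := by
      ext n
      simp [hE]
    rw [h2, Set.ncard_coe_finset] at h1
    have h32 : Real.exp (-(3 * uu j ^ (1 / 3 : ℝ))) ≤ Real.exp (-(2 * uu j ^ (1 / 3 : ℝ))) := by
      rw [Real.exp_le_exp]
      have : 0 ≤ uu j ^ (1 / 3 : ℝ) := Real.rpow_nonneg (by linarith [huv j]) _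
      linarith
    refine h1.trans ?_
    apply mul_le_mul_of_nonneg_right _ hX0.le
    refine (add_le_add_left h32 _).trans ?_
    have hLA : 0 < L ^ (-(A + 3)) := Real.rpow_pos_of_pos hL0 _
    by_cases hsat : 2 ^ j * v ≤ S
    · -- not saturated
      have hu : uu j = 2 ^ j * v := min_eq_left hsat
      by_cases hMS : Real.log M ≤ S
      · have hvM : v = Real.log M := min_eq_left hMS
        have h3 : Real.exp (-(2 * uu j ^ (1 / 3 : ℝ))) ≤
            Real.exp (-(Real.log M ^ (1 / 3 : ℝ))) * ((1 / 2) ^ j / 4) := by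
          have h4 : Real.exp (-(2 * uu j ^ (1 / 3 : ℝ))) =
              Real.exp (-(uu j ^ (1 / 3 : ℝ))) * Real.exp (-(uu j ^ (1 / 3 : ℝ))) := by
            rw [← Real.exp_add]; congr 1; ring
          rw [h4]
          have h5 : Real.log M ^ (1 / 3 : ℝ) ≤ uu j ^ (1 / 3 : ℝ) := by
            apply Real.rpow_le_rpow (by linarith) _ (by norm_num)
            rw [← hvM]; exact huv j
          have h6 : Real.exp (-(uu j ^ (1 / 3 : ℝ))) ≤ (1 / 2) ^ j / 4 := by
            refine (hexp (uu j) (hv₀1.trans (hvv₀.trans (huv j)))).trans ?_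
            rw [hu]
            have h7 : (1 : ℝ) ≤ v := by linarith
            have h8 : (0 : ℝ) < 2 ^ j := by positivity
            rw [one_div_pow, div_div, one_div]
            rw [one_div]
            apply inv_anti₀ (by positivity)
            nlinarith
          have h9 : Real.exp (-(uu j ^ (1 / 3 : ℝ))) ≤ Real.exp (-(Real.log M ^ (1 / 3 : ℝ))) := by
            rw [Real.exp_le_exp]; linarith
          exact mul_le_mul h9 h6 (Real.exp_pos _).le (Real.exp_pos _).le
        linarith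
      · push Not at hMS
        have hvS : v = S := min_eq_right hMS.le
        have huS : uu j = S := le_antisymm (min_le_right _ _) (by rw [← hvS]; exact huv j)
        rw [huS]
        have h3 : 0 ≤ Real.exp (-(Real.log M ^ (1 / 3 : ℝ))) * ((1 / 2) ^ j / 4) := by positivity
        linarith
    · push Not at hsat
      have huS : uu j = S := min_eq_right hsat.le
      rw [huS]
      have h3 : 0 ≤ Real.exp (-(Real.log M ^ (1 / 3 : ℝ))) * ((1 / 2) ^ j / 4) := by positivity
      linarith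
  have hsub : {n : ℕ | n < X ∧ ¬ ∀ H : ℝ, M * L ≤ H → H ≤ X →
        GapMeets n H (c₁ / 40 * L * Real.log (Real.log (H / L)))} ⊆
      ((range 2 ∪ (range (J + 1)).biUnion E : Finset ℕ) : Set ℕ) := by
    rintro n ⟨hnX, hn⟩
    rw [Finset.mem_coe, mem_union, mem_biUnion]
    by_contra hcon
    push Not at hcon
    obtain ⟨hn2, hnE⟩ := hcon
    rw [mem_range, not_lt] at hn2
    apply hn
    intro H hH1 hH2
    set u := Real.log (H / L) with hu
    have hHL : M ≤ H / L := by rw [le_div_iff₀ hL0]; exact hH1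
    have huM : Real.log M ≤ u := Real.log_le_log hM0 hHL
    have hHpos : 0 < H := lt_of_lt_of_le (by positivity) hH1
    have huL : u ≤ L := by
      have h1 : H / L ≤ X := by
        rw [div_le_iff₀ hL0]
        nlinarith
      exact Real.log_le_log (by positivity) h1
    set U := min u S with hU
    have hvU : v ≤ U := le_min ((min_le_left _ _).trans huM) (min_le_right _ _)
    -- the scale
    obtain ⟨j, hj1, hj2⟩ := exists_nat_pow_near (x := U / v) (y := (2 : ℝ))
      (by rw [le_div_iff₀ hv0]; linarith) (by norm_num)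
    rw [le_div_iff₀ hv0] at hj1
    rw [div_lt_iff₀ hv0] at hj2
    have hjJ : j < J + 1 := by
      have h1 : (j : ℝ) < 2 ^ j := by exact_mod_cast Nat.lt_two_pow_self
      have h2 : (2 : ℝ) ^ j ≤ 2 ^ j * v := by
        have : (0 : ℝ) < 2 ^ j := by positivity
        nlinarith
      have h3 : (j : ℝ) < L := by
        have : U ≤ S := min_le_right _ _
        linarith
      have h4 : (j : ℝ) < J := lt_of_lt_of_le h3 (Nat.le_ceil _)
      have : j < J := by exact_mod_cast h4
      omega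
    have huj : uu j = 2 ^ j * v := min_eq_left (hj1.trans (min_le_right _ _))
    have huj2 : uu j ≤ u := by rw [huj]; exact hj1.trans (min_le_left _ _)
    have hujU : U < 2 * uu j := by
      rw [huj]
      calc U < 2 ^ (j + 1) * v := hj2
        _ = 2 * (2 ^ j * v) := by ring
    have huj3 : 2 ≤ uu j := by linarith [huv j]
    have hnj := hnE j (mem_range.2 hjJ)
    have hvoid : Void n (Real.exp (uu j) * L) (c₁ * L * Real.log (uu j)) := by
      by_contra h1
      apply hnj
      rw [hE]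
      simp only [mem_filter, mem_range]
      exact ⟨hnX, h1⟩
    have hlogj : 0 < Real.log (uu j) := Real.log_pos (by linarith)
    have hlog2 : Real.log (2 * uu j) ≤ 2 * Real.log (uu j) := by
      rw [Real.log_mul (by norm_num) (by linarith)]
      have : Real.log 2 ≤ Real.log (uu j) := Real.log_le_log (by norm_num) huj3
      linarith
    have hlogu : Real.log u ≤ 40 * Real.log (uu j) := by
      rcases min_choice u S with h1 | h1
      · have h2 : u < 2 * uu j := by
          rw [hU, h1] at hujU; exact hujU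
        have h3 : Real.log u ≤ Real.log (2 * uu j) := Real.log_le_log (by linarith) h2.le
        linarith
      · have h2 : S < 2 * uu j := by
          rw [hU, h1] at hujU; exact hujU
        have h3 : Real.log S ≤ Real.log (2 * uu j) :=
          Real.log_le_log (by linarith [min_le_right (Real.log M) S]) h2.le
        have h4 : Real.log S = 1 / 20 * Real.log L := by
          rw [hS, Real.log_rpow hL0]
        have h5 : Real.log u ≤ Real.log L := Real.log_le_log (by linarith) huL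
        linarith
    refine gapMeets_of_void' hn2 ?_ ?_ hvoid
    · have h1 : Real.exp (uu j) ≤ H / L := by
        rw [← Real.le_log_iff_exp_le (by positivity)]
        exact huj2
      rw [le_div_iff₀ hL0] at h1
      exact h1
    · have h1 : 0 < c₁ * L := by positivity
      calc c₁ / 40 * L * Real.log u = (c₁ * L / 40) * Real.log u := by ring
        _ ≤ (c₁ * L / 40) * (40 * Real.log (uu j)) := by gcongr
        _ = c₁ * L * Real.log (uu j) := by ring
  have hcard : ({n : ℕ | n < X ∧ ¬ ∀ H : ℝ, M * L ≤ H → H ≤ X →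
        GapMeets n H (c₁ / 40 * L * Real.log (Real.log (H / L)))}.ncard : ℝ) ≤
      2 + ∑ j ∈ range (J + 1), ((E j).card : ℝ) := by
    have h1 := Set.ncard_le_ncard hsub (Finset.finite_toSet _)
    rw [Set.ncard_coe_finset] at h1
    have h2 : (range 2 ∪ (range (J + 1)).biUnion E).card ≤ 2 + ∑ j ∈ range (J + 1), (E j).card := by
      refine (card_union_le _ _).trans ?_
      rw [card_range]
      exact Nat.add_le_add_left card_biUnion_le _
    exact_mod_cast h1.trans h2
  refine hcard.trans ?_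
  have hsum : ∑ j ∈ range (J + 1), ((E j).card : ℝ) ≤
      (Real.exp (-(Real.log M ^ (1 / 3 : ℝ))) / 2 + (J + 1) * (2 * L ^ (-(A + 3)))) * X := by
    refine (sum_le_sum fun j _ => hEcard j).trans ?_
    rw [← sum_mul, sum_add_distrib, ← mul_sum, sum_const, card_range, nsmul_eq_mul]
    apply mul_le_mul_of_nonneg_right _ hX0.le
    push_cast
    have h1 : ∑ j ∈ range (J + 1), ((1 / 2 : ℝ) ^ j / 4) ≤ 1 / 2 := by
      rw [← sum_div]
      have h2 := sum_geometric_two_le (J + 1)
      linarith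
    have h3 : Real.exp (-(Real.log M ^ (1 / 3 : ℝ))) * ∑ j ∈ range (J + 1), ((1 / 2 : ℝ) ^ j / 4) ≤
        Real.exp (-(Real.log M ^ (1 / 3 : ℝ))) * (1 / 2) :=
      mul_le_mul_of_nonneg_left h1 (Real.exp_pos _).le
    linarith
  have hJ2 : ((J : ℝ) + 1) * (2 * L ^ (-(A + 3))) ≤ 1 / 2 * L ^ (-A) := by
    have h1 : L ^ (-(A + 3)) = L ^ (-A) * (1 / L ^ 3) := by
      have h2 : -(A + 3) = -A + (-3 : ℝ) := by ring
      rw [h2, Real.rpow_add hL0, Real.rpow_neg hL0.le 3, one_div]
      norm_num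
    rw [h1]
    have h2 : 0 < L ^ (-A) := Real.rpow_pos_of_pos hL0 _
    have h3 : ((J : ℝ) + 1) * 2 * (1 / L ^ 3) ≤ 1 / 2 := by
      rw [mul_one_div, div_le_iff₀ (by positivity)]
      have h4 : L ^ 3 = L * L * L := by ring
      nlinarith [mul_le_mul f4 f4 (by norm_num) hL0.le]
    calc ((J : ℝ) + 1) * (2 * (L ^ (-A) * (1 / L ^ 3))) =
          (((J : ℝ) + 1) * 2 * (1 / L ^ 3)) * L ^ (-A) := by ring
      _ ≤ 1 / 2 * L ^ (-A) := by gcongr
  have h2X : 2 ≤ 1 / 2 * L ^ (-A) * X := by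
    have : 4 ≤ L ^ (-A) * X := f3
    linarith
  have hexp0 : 0 < Real.exp (-(Real.log M ^ (1 / 3 : ℝ))) := Real.exp_pos _
  calc 2 + ∑ j ∈ range (J + 1), ((E j).card : ℝ)
      ≤ 1 / 2 * L ^ (-A) * X +
        (Real.exp (-(Real.log M ^ (1 / 3 : ℝ))) / 2 + (J + 1) * (2 * L ^ (-(A + 3)))) * X :=
        add_le_add h2X hsum
    _ ≤ 1 / 2 * L ^ (-A) * X +
        (Real.exp (-(Real.log M ^ (1 / 3 : ℝ))) / 2 + 1 / 2 * L ^ (-A)) * X := by gcongr
    _ ≤ (Real.exp (-(Real.log M ^ (1 / 3 : ℝ))) + L ^ (-A)) * X := by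
        nlinarith

end Pool.Agent.H.MP_711652_nt.G2
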