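import Mathlib

/-!
# One block of small primes: expectation over the hits, decoupling

`EX S l f` is the expectation of `f w`, `w i` = number of the primes of the list `l` which hit the position `i`,
when the prime `p` hits each position of `S` with probability `1 / p`, and at most one.
-/

set_option autoImplicit false

namespace Pool.Agent.H.MP_711652_nt.G2.BE

open Finset

variable {ι : Type*} [DecidableEq ι]

/-- The expectation over the hits of the primes of `l` at the positions of `S`. -/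
noncomputable def EX (S : Finset ι) : List ℕ → ((ι → ℕ) → ℝ) → ℝ
  | [], f => f 0
  | p :: l, f => (1 - (S.card : ℝ) / p) * EX S l f +
      ∑ i ∈ S, 1 / (p : ℝ) * EX S l (fun w => f (w + Pi.single i 1))

/-- the primes are large in comparison with the number of positions -/
def Big (n : ℕ) (l : List ℕ) : Prop := ∀ p ∈ l, 0 < p ∧ 2 * n ≤ p

theorem Big.cons {n p : ℕ} {l : List ℕ} (h : Big n (p :: l)) : Big n l := fun q hq =>
  h q (List.mem_cons_of_mem _ hq)

theorem Big.mono {n k : ℕ} {l : List ℕ} (h : Big n l) (hk : k ≤ n) : Big k l := fun q hq =>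
  ⟨(h q hq).1, by have := (h q hq).2; omega⟩

theorem Big.div {n p : ℕ} {l : List ℕ} (h : Big n (p :: l)) : (n : ℝ) / p ≤ 1 / 2 := by
  obtain ⟨h1, h2⟩ := h p List.mem_cons_self
  have h1' : (0 : ℝ) < p := by exact_mod_cast h1
  have h2' : 2 * (n : ℝ) ≤ p := by exact_mod_cast h2
  rw [div_le_iff₀ h1']
  linarith

theorem EX_mono {S : Finset ι} {l : List ℕ} (hl : Big S.card l) {f g : (ι → ℕ) → ℝ}
    (h : ∀ w, f w ≤ g w) : EX S l f ≤ EX S l g := by
  induction l generalizing f g with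
  | nil => exact h 0
  | cons p l ih =>
    have h1 := hl.div
    rw [EX, EX]
    apply add_le_add
    · exact mul_le_mul_of_nonneg_left (ih hl.cons h) (by linarith)
    · exact sum_le_sum fun i _ => mul_le_mul_of_nonneg_left (ih hl.cons fun w => h _) (by positivity)

theorem EX_zero (S : Finset ι) (l : List ℕ) : EX S l (fun _ => 0) = 0 := by
  induction l with
  | nil => rfl
  | cons p l ih =>
    rw [EX, ih, mul_zero, zero_add]
    exact sum_eq_zero fun i _ => by rw [mul_zero]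

theorem EX_nonneg {S : Finset ι} {l : List ℕ} (hl : Big S.card l) {f : (ι → ℕ) → ℝ}
    (h : ∀ w, 0 ≤ f w) : 0 ≤ EX S l f := by
  rw [← EX_zero S l]
  exact EX_mono hl h

theorem EX_add (S : Finset ι) (l : List ℕ) (f g : (ι → ℕ) → ℝ) :
    EX S l (fun w => f w + g w) = EX S l f + EX S l g := by
  induction l generalizing f g with
  | nil => rfl
  | cons p l ih =>
    rw [EX, EX, EX, ih]
    have h1 : ∀ i ∈ S, 1 / (p : ℝ) * EX S l (fun w => f (w + Pi.single i 1) +
        g (w + Pi.single i 1)) = 1 / (p : ℝ) * EX S l (fun w => f (w + Pi.single i 1)) +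
        1 / (p : ℝ) * EX S l (fun w => g (w + Pi.single i 1)) := by
      intro i _
      rw [ih, mul_add]
    rw [sum_congr rfl h1, sum_add_distrib]
    ring

theorem EX_mul (S : Finset ι) (l : List ℕ) (c : ℝ) (f : (ι → ℕ) → ℝ) :
    EX S l (fun w => c * f w) = c * EX S l f := by
  induction l generalizing f with
  | nil => rfl
  | cons p l ih =>
    rw [EX, EX, ih]
    have h1 : ∀ i ∈ S, 1 / (p : ℝ) * EX S l (fun w => c * f (w + Pi.single i 1)) =
        c * (1 / (p : ℝ) * EX S l (fun w => f (w + Pi.single i 1))) := by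
      intro i _
      rw [ih]
      ring
    rw [sum_congr rfl h1, ← mul_sum]
    ring

/-- `∏ (1 - κ/p)` -/
noncomputable def VV (κ : ℝ) (l : List ℕ) : ℝ := (l.map fun p : ℕ => 1 - κ / (p : ℝ)).prod

/-- sum of the reciprocals -/
noncomputable def rs (l : List ℕ) : ℝ := (l.map fun p : ℕ => 1 / (p : ℝ)).sum

theorem VV_cons (κ : ℝ) (p : ℕ) (l : List ℕ) : VV κ (p :: l) = (1 - κ / p) * VV κ l := by
  unfold VV
  rw [List.map_cons, List.prod_cons]

theorem VV_nil (κ : ℝ) : VV κ [] = 1 := rfl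

theorem rs_cons (p : ℕ) (l : List ℕ) : rs (p :: l) = 1 / (p : ℝ) + rs l := by
  unfold rs
  rw [List.map_cons, List.sum_cons]

theorem rs_nil : rs [] = 0 := rfl

theorem rs_nonneg (l : List ℕ) : 0 ≤ rs l := by
  induction l with
  | nil => exact le_rfl
  | cons p l ih =>
    rw [rs_cons]
    positivity

/-- `∏ (1 + κ/p) ≤ exp (κ ∑ 1/p)` -/
theorem VV_le_exp {κ : ℝ} (hκ : 0 ≤ κ) (l : List ℕ) : VV (-κ) l ≤ Real.exp (κ * rs l) := by
  induction l with
  | nil => rw [VV_nil, rs_nil, mul_zero, Real.exp_zero]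
  | cons p l ih =>
    rw [VV_cons, rs_cons, mul_add, Real.exp_add]
    have h1 : 1 - -κ / (p : ℝ) ≤ Real.exp (κ * (1 / p)) := by
      have := Real.add_one_le_exp (κ * (1 / (p : ℝ)))
      have e : 1 - -κ / (p : ℝ) = κ * (1 / p) + 1 := by ring
      linarith
    have h2 : 0 ≤ 1 - -κ / (p : ℝ) := by
      have : 0 ≤ κ / (p : ℝ) := by positivity
      have e : 1 - -κ / (p : ℝ) = 1 + κ / p := by ring
      linarith
    calc (1 - -κ / (p : ℝ)) * VV (-κ) l ≤ (1 - -κ / (p : ℝ)) * Real.exp (κ * rs l) :=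
          mul_le_mul_of_nonneg_left ih h2
      _ ≤ _ := mul_le_mul_of_nonneg_right h1 (Real.exp_pos _).le

theorem exp_le_one_sub {t : ℝ} (h0 : 0 ≤ t) (h1 : t ≤ 1 / 2) : Real.exp (-(2 * t)) ≤ 1 - t := by
  have h7 : 1 - t = (1 + t / (1 - t))⁻¹ := by
    have h8 : 1 - t ≠ 0 := by linarith
    have h9 : 1 + t / (1 - t) = (1 - t)⁻¹ := by
      field_simp
      ring
    rw [h9, inv_inv]
  rw [h7, Real.exp_neg]
  apply inv_anti₀
  · have : 0 < 1 - t := by linarith
    positivity
  · have h8 := Real.add_one_le_exp (2 * t)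
    have h9 : t / (1 - t) ≤ 2 * t := by
      rw [div_le_iff₀ (by linarith)]
      nlinarith
    linarith

/-- `∏ (1 - n/p) ≥ exp (- 2 n ∑ 1/p)` -/
theorem VV_ge {n : ℕ} {l : List ℕ} (hl : Big n l) : Real.exp (-(2 * n * rs l)) ≤ VV n l := by
  induction l with
  | nil => rw [VV_nil, rs_nil, mul_zero, neg_zero, Real.exp_zero]
  | cons p l ih =>
    have h1 := ih hl.cons
    have h2 := hl.div
    have h3 : 0 ≤ (n : ℝ) / p := by positivity
    rw [VV_cons, rs_cons]
    have e : Real.exp (-(2 * n * (1 / (p : ℝ) + rs l))) =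
        Real.exp (-(2 * (n / p))) * Real.exp (-(2 * n * rs l)) := by
      rw [← Real.exp_add]
      congr 1
      ring
    rw [e]
    exact mul_le_mul (exp_le_one_sub h3 h2) h1 (Real.exp_pos _).le (by linarith)

theorem VV_pos {n : ℕ} {l : List ℕ} (hl : Big n l) : 0 < VV n l :=
  (Real.exp_pos _).trans_le (VV_ge hl)

/-- the number of hits at the positions of `S` -/
def hits (S : Finset ι) (w : ι → ℕ) : ℕ := ∑ i ∈ S, w i

theorem hits_add (S : Finset ι) (w : ι → ℕ) {i : ι} (hi : i ∈ S) :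
    hits S (w + Pi.single i 1) = hits S w + 1 := by
  unfold hits
  simp only [Pi.add_apply]
  rw [sum_add_distrib]
  congr 1
  rw [sum_eq_single i]
  · simp
  · intro j _ hj
    simp [hj]
  · intro h
    exact absurd hi h

/-- the generating function of the number of hits -/
theorem EX_pow (S : Finset ι) (l : List ℕ) (c : ℝ) :
    EX S l (fun w => c ^ hits S w) = VV (-((c - 1) * S.card)) l := by
  induction l with
  | nil =>
    rw [EX, VV_nil]
    have : hits S (0 : ι → ℕ) = 0 := by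
      unfold hits
      exact sum_eq_zero fun _ _ => rfl
    rw [this, pow_zero]
  | cons p l ih =>
    rw [EX, ih, VV_cons]
    have h1 : ∀ i ∈ S, 1 / (p : ℝ) * EX S l (fun w => c ^ hits S (w + Pi.single i 1)) =
        1 / (p : ℝ) * (c * VV (-((c - 1) * S.card)) l) := by
      intro i hi
      congr 1
      rw [← ih, ← EX_mul]
      congr 1
      funext w
      rw [hits_add S w hi, pow_succ]
      ring
    rw [sum_congr rfl h1, sum_const, nsmul_eq_mul]
    ring

/-- no hit -/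
theorem EX_ge (S : Finset ι) {l : List ℕ} (hl : Big S.card l) {f : (ι → ℕ) → ℝ}
    (h : ∀ w, 0 ≤ f w) : f 0 * VV S.card l ≤ EX S l f := by
  induction l generalizing f with
  | nil => rw [EX, VV_nil, mul_one]
  | cons p l ih =>
    have h1 := hl.div
    rw [EX, VV_cons]
    have h2 : 0 ≤ ∑ i ∈ S, 1 / (p : ℝ) * EX S l (fun w => f (w + Pi.single i 1)) :=
      sum_nonneg fun i _ => mul_nonneg (by positivity) (EX_nonneg hl.cons fun w => h _)
    have h3 := mul_le_mul_of_nonneg_left (ih hl.cons h) (show 0 ≤ 1 - (S.card : ℝ) / p by linarith)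
    calc f 0 * ((1 - (S.card : ℝ) / p) * VV S.card l) =
          (1 - (S.card : ℝ) / p) * (f 0 * VV S.card l) := by ring
      _ ≤ _ := by linarith

/-- `f` does not depend on the hits at the positions of `T`. -/
def Indep (T : Finset ι) (f : (ι → ℕ) → ℝ) : Prop := ∀ i ∈ T, ∀ w, f (w + Pi.single i 1) = f w

theorem Indep.shift {T : Finset ι} {f : (ι → ℕ) → ℝ} (h : Indep T f) (j : ι) :
    Indep T (fun w => f (w + Pi.single j 1)) := by
  intro i hi w
  show f (w + Pi.single i 1 + Pi.single j 1) = f (w + Pi.single j 1)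
  rw [add_right_comm]
  exact h i hi _

/-- the joint expectation in comparison with the product -/
theorem decouple_aux {S T : Finset ι} (hST : Disjoint S T) {κ : ℝ} (hκ : 0 ≤ κ) {l : List ℕ}
    (hl : Big (S ∪ T).card l)
    (h1 : ∀ p ∈ l, 1 ≤ (1 + κ) * (1 - (S.card : ℝ) / p))
    (h2 : ∀ p ∈ l, 1 ≤ (1 + κ) * (1 - (T.card : ℝ) / p))
    {f g : (ι → ℕ) → ℝ} (hf : ∀ w, 0 ≤ f w) (hg : ∀ w, 0 ≤ g w) (hfT : Indep T f)
    (hgS : Indep S g) :
    EX (S ∪ T) l (fun w => f w * g w) ≤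
      EX S l (fun w => (1 + κ) ^ hits S w * f w) * EX T l (fun w => (1 + κ) ^ hits T w * g w) := by
  have hc : (S ∪ T).card = S.card + T.card := card_union_of_disjoint hST
  have hcS : S.card ≤ (S ∪ T).card := card_le_card subset_union_left
  have hcT : T.card ≤ (S ∪ T).card := card_le_card subset_union_right
  induction l generalizing f g with
  | nil =>
    rw [EX, EX, EX]
    have e : ∀ R : Finset ι, hits R (0 : ι → ℕ) = 0 := fun R => by
      unfold hits
      exact sum_eq_zero fun _ _ => rfl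
    rw [e, e, pow_zero, one_mul, one_mul]
  | cons p l ih =>
    have hl' := hl.cons
    have h1' : ∀ q ∈ l, 1 ≤ (1 + κ) * (1 - (S.card : ℝ) / q) := fun q hq =>
      h1 q (List.mem_cons_of_mem _ hq)
    have h2' : ∀ q ∈ l, 1 ≤ (1 + κ) * (1 - (T.card : ℝ) / q) := fun q hq =>
      h2 q (List.mem_cons_of_mem _ hq)
    have a1 := h1 p List.mem_cons_self
    have a2 := h2 p List.mem_cons_self
    have hpS := (hl.mono hcS).div
    have hpT := (hl.mono hcT).div
    have hpST := hl.div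
    have hp0 : 0 ≤ 1 / (p : ℝ) := by positivity
    have hκ1 : 0 ≤ 1 + κ := by linarith
    -- names
    obtain ⟨F, hF⟩ : ∃ F, F = EX S l (fun w => (1 + κ) ^ hits S w * f w) := ⟨_, rfl⟩
    obtain ⟨G, hG⟩ : ∃ G, G = EX T l (fun w => (1 + κ) ^ hits T w * g w) := ⟨_, rfl⟩
    obtain ⟨Fi, hFi⟩ : ∃ Fi : ι → ℝ, Fi = fun i => EX S l (fun w => (1 + κ) ^ hits S w *
      f (w + Pi.single i 1)) := ⟨_, rfl⟩
    obtain ⟨Gj, hGj⟩ : ∃ Gj : ι → ℝ, Gj = fun j => EX T l (fun w => (1 + κ) ^ hits T w *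
      g (w + Pi.single j 1)) := ⟨_, rfl⟩
    have hF0 : 0 ≤ F := by
      rw [hF]
      exact EX_nonneg (hl'.mono hcS) fun w => mul_nonneg (by positivity) (hf w)
    have hG0 : 0 ≤ G := by
      rw [hG]
      exact EX_nonneg (hl'.mono hcT) fun w => mul_nonneg (by positivity) (hg w)
    have hFi0 : ∀ i, 0 ≤ Fi i := fun i => by
      rw [hFi]
      exact EX_nonneg (hl'.mono hcS) fun w => mul_nonneg (by positivity) (hf _)
    have hGj0 : ∀ j, 0 ≤ Gj j := fun j => by
      rw [hGj]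
      exact EX_nonneg (hl'.mono hcT) fun w => mul_nonneg (by positivity) (hg _)
    -- the right hand side
    have eS : EX S (p :: l) (fun w => (1 + κ) ^ hits S w * f w) =
        (1 - (S.card : ℝ) / p) * F + (1 + κ) * (1 / (p : ℝ)) * ∑ i ∈ S, Fi i := by
      rw [EX, ← hF]
      congr 1
      rw [mul_sum]
      refine sum_congr rfl fun i hi => ?_
      rw [hFi]
      have : (fun w => (1 + κ) ^ hits S (w + Pi.single i 1) * f (w + Pi.single i 1)) =
          fun w => (1 + κ) * ((1 + κ) ^ hits S w * f (w + Pi.single i 1)) := by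
        funext w
        rw [hits_add S w hi, pow_succ]
        ring
      rw [this, EX_mul]
      ring
    have eT : EX T (p :: l) (fun w => (1 + κ) ^ hits T w * g w) =
        (1 - (T.card : ℝ) / p) * G + (1 + κ) * (1 / (p : ℝ)) * ∑ j ∈ T, Gj j := by
      rw [EX, ← hG]
      congr 1
      rw [mul_sum]
      refine sum_congr rfl fun i hi => ?_
      rw [hGj]
      have : (fun w => (1 + κ) ^ hits T (w + Pi.single i 1) * g (w + Pi.single i 1)) =
          fun w => (1 + κ) * ((1 + κ) ^ hits T w * g (w + Pi.single i 1)) := by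
        funext w
        rw [hits_add T w hi, pow_succ]
        ring
      rw [this, EX_mul]
      ring
    -- the left hand side
    have b0 : EX (S ∪ T) l (fun w => f w * g w) ≤ F * G := by
      rw [hF, hG]
      exact ih hl' h1' h2' hf hg hfT hgS
    have b1 : ∀ i ∈ S, EX (S ∪ T) l (fun w => f (w + Pi.single i 1) * g (w + Pi.single i 1)) ≤
        Fi i * G := by
      intro i hi
      have e : (fun w => f (w + Pi.single i 1) * g (w + Pi.single i 1)) =
          fun w => f (w + Pi.single i 1) * g w := by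
        funext w
        rw [hgS i hi w]
      rw [e, hFi, hG]
      exact ih hl' h1' h2' (fun w => hf _) hg (hfT.shift i) hgS
    have b2 : ∀ j ∈ T, EX (S ∪ T) l (fun w => f (w + Pi.single j 1) * g (w + Pi.single j 1)) ≤
        F * Gj j := by
      intro j hj
      have e : (fun w => f (w + Pi.single j 1) * g (w + Pi.single j 1)) =
          fun w => f w * g (w + Pi.single j 1) := by
        funext w
        rw [hfT j hj w]
      rw [e, hF, hGj]
      exact ih hl' h1' h2' hf (fun w => hg _) hfT (hgS.shift j)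
    have b3 : ∑ i ∈ S ∪ T, 1 / (p : ℝ) * EX (S ∪ T) l (fun w => f (w + Pi.single i 1) *
        g (w + Pi.single i 1)) ≤ 1 / (p : ℝ) * ((∑ i ∈ S, Fi i) * G) +
        1 / (p : ℝ) * (F * ∑ j ∈ T, Gj j) := by
      rw [sum_union hST, sum_mul, mul_sum, mul_sum, mul_sum]
      exact add_le_add (sum_le_sum fun i hi => mul_le_mul_of_nonneg_left (b1 i hi) hp0)
        (sum_le_sum fun j hj => mul_le_mul_of_nonneg_left (b2 j hj) hp0)
    rw [eS, eT, EX]
    obtain ⟨x, hx⟩ : ∃ x, x = (S.card : ℝ) / p := ⟨_, rfl⟩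
    obtain ⟨z, hz⟩ : ∃ z, z = (T.card : ℝ) / p := ⟨_, rfl⟩
    have hxz : ((S ∪ T).card : ℝ) / p = x + z := by
      rw [hc, hx, hz]
      push_cast
      ring
    rw [← hx] at a1 hpS ⊢
    rw [← hz] at a2 hpT ⊢
    have hx0 : 0 ≤ x := by rw [hx]; positivity
    have hz0 : 0 ≤ z := by rw [hz]; positivity
    rw [hxz] at hpST ⊢
    obtain ⟨A, hA⟩ : ∃ A, A = ∑ i ∈ S, Fi i := ⟨_, rfl⟩
    obtain ⟨B, hB⟩ : ∃ B, B = ∑ j ∈ T, Gj j := ⟨_, rfl⟩
    have hA0 : 0 ≤ A := by rw [hA]; exact sum_nonneg fun i _ => hFi0 i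
    have hB0 : 0 ≤ B := by rw [hB]; exact sum_nonneg fun i _ => hGj0 i
    rw [← hA, ← hB] at b3 ⊢
    obtain ⟨q, hq⟩ : ∃ q, q = 1 / (p : ℝ) := ⟨_, rfl⟩
    rw [← hq] at b3 hp0 ⊢
    have c0 : (1 - (x + z)) * EX (S ∪ T) l (fun w => f w * g w) ≤ (1 - x) * (1 - z) * (F * G) := by
      have hFG : 0 ≤ F * G := mul_nonneg hF0 hG0
      calc (1 - (x + z)) * EX (S ∪ T) l (fun w => f w * g w) ≤ (1 - (x + z)) * (F * G) :=
            mul_le_mul_of_nonneg_left b0 (by linarith)
        _ ≤ (1 - x) * (1 - z) * (F * G) := by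
            apply mul_le_mul_of_nonneg_right _ hFG
            nlinarith [mul_nonneg hx0 hz0]
    have c1 : q * (A * G) ≤ (1 + κ) * q * A * ((1 - z) * G) := by
      have h3 : 0 ≤ q * (A * G) := mul_nonneg hp0 (mul_nonneg hA0 hG0)
      calc q * (A * G) = q * (A * G) * 1 := by ring
        _ ≤ q * (A * G) * ((1 + κ) * (1 - z)) := mul_le_mul_of_nonneg_left a2 h3
        _ = _ := by ring
    have c2 : q * (F * B) ≤ (1 - x) * F * ((1 + κ) * q * B) := by
      have h3 : 0 ≤ q * (F * B) := mul_nonneg hp0 (mul_nonneg hF0 hB0)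
      calc q * (F * B) = q * (F * B) * 1 := by ring
        _ ≤ q * (F * B) * ((1 + κ) * (1 - x)) := mul_le_mul_of_nonneg_left a1 h3
        _ = _ := by ring
    have c3 : 0 ≤ (1 + κ) * q * A * ((1 + κ) * q * B) := by positivity
    calc _ ≤ (1 - x) * (1 - z) * (F * G) + (q * (A * G) + q * (F * B)) := add_le_add c0 b3
      _ ≤ ((1 - x) * F + (1 + κ) * q * A) * ((1 - z) * G + (1 + κ) * q * B) := by
          have e : ((1 - x) * F + (1 + κ) * q * A) * ((1 - z) * G + (1 + κ) * q * B) =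
              (1 - x) * (1 - z) * (F * G) + (1 - x) * F * ((1 + κ) * q * B) +
              (1 + κ) * q * A * ((1 - z) * G) + (1 + κ) * q * A * ((1 + κ) * q * B) := by ring
          rw [e]
          linarith

/-- `(1 + κ) ^ n ≤ 1 + κ 2 ^ n` for `κ ≤ 1` -/
theorem pow_one_add_le {κ : ℝ} (h0 : 0 ≤ κ) (h1 : κ ≤ 1) (n : ℕ) :
    (1 + κ) ^ n ≤ 1 + κ * 2 ^ n := by
  have h : (1 + κ) ^ n ≤ 1 + κ * (2 ^ n - 1) := by
    induction n with
    | zero => simp
    | succ n ih =>
      have h2 : (1 : ℝ) ≤ 2 ^ n := one_le_pow₀ (by norm_num)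
      obtain ⟨X, hX⟩ : ∃ X : ℝ, X = 2 ^ n := ⟨_, rfl⟩
      have h3 : (1 + κ) ^ (n + 1) ≤ (1 + κ * (2 ^ n - 1)) * (1 + κ) := by
        rw [pow_succ]
        exact mul_le_mul_of_nonneg_right ih (by linarith)
      refine h3.trans ?_
      rw [pow_succ, ← hX]
      rw [← hX] at h2
      have h4 : κ * (κ * (X - 1)) ≤ 1 * (κ * (X - 1)) :=
        mul_le_mul_of_nonneg_right h1 (mul_nonneg h0 (by linarith))
      nlinarith
  linarith

/-- the weights `(1 + κ) ^ hits` can be removed -/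
theorem EX_weight (S : Finset ι) {l : List ℕ} (hl : Big S.card l) (hs : rs l ≤ 1) {κ : ℝ}
    (h0 : 0 ≤ κ) (h1 : κ ≤ 1) {f : (ι → ℕ) → ℝ} (hf : ∀ w, 0 ≤ f w) (hf0 : 1 ≤ f 0)
    (hf1 : ∀ w, f w ≤ 16 ^ hits S w) :
    EX S l (fun w => (1 + κ) ^ hits S w * f w) ≤
      (1 + κ * Real.exp (33 * S.card)) * EX S l f := by
  have h2 : EX S l (fun w => (1 + κ) ^ hits S w * f w) ≤
      EX S l (fun w => f w + κ * 32 ^ hits S w) := by
    apply EX_mono hl
    intro w
    have h3 := mul_le_mul_of_nonneg_right (pow_one_add_le h0 h1 (hits S w)) (hf w)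
    have h4 : κ * 2 ^ hits S w * f w ≤ κ * 2 ^ hits S w * 16 ^ hits S w :=
      mul_le_mul_of_nonneg_left (hf1 w) (by positivity)
    have h5 : κ * 2 ^ hits S w * 16 ^ hits S w = κ * (32 : ℝ) ^ hits S w := by
      rw [mul_assoc, ← mul_pow]
      norm_num
    linarith
  refine h2.trans ?_
  rw [EX_add, EX_mul, EX_pow]
  have h3 : VV (-((32 - 1) * (S.card : ℝ))) l ≤ Real.exp (31 * S.card) := by
    have h4 := VV_le_exp (κ := (32 - 1) * (S.card : ℝ)) (by positivity) l
    refine h4.trans (Real.exp_le_exp.2 ?_)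
    have h5 : (32 - 1) * (S.card : ℝ) * rs l ≤ (32 - 1) * (S.card : ℝ) * 1 :=
      mul_le_mul_of_nonneg_left hs (by positivity)
    linarith
  have h4 : Real.exp (-(2 * S.card)) ≤ EX S l f := by
    have h5 := EX_ge S hl hf
    have h6 := VV_ge hl
    have h7 : Real.exp (-(2 * S.card)) ≤ Real.exp (-(2 * S.card * rs l)) := by
      apply Real.exp_le_exp.2
      have h8 : 2 * (S.card : ℝ) * rs l ≤ 2 * (S.card : ℝ) * 1 :=
        mul_le_mul_of_nonneg_left hs (by positivity)
      linarith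
    have h8 : VV S.card l ≤ f 0 * VV S.card l := le_mul_of_one_le_left (VV_pos hl).le hf0
    linarith
  have h5 : Real.exp (31 * S.card) ≤ Real.exp (33 * S.card) * EX S l f := by
    have e : Real.exp (31 * (S.card : ℝ)) = Real.exp (33 * S.card) * Real.exp (-(2 * S.card)) := by
      rw [← Real.exp_add]
      congr 1
      ring
    rw [e]
    exact mul_le_mul_of_nonneg_left h4 (Real.exp_pos _).le
  have h6 : κ * VV (-((32 - 1) * (S.card : ℝ))) l ≤ κ * (Real.exp (33 * S.card) * EX S l f) :=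
    mul_le_mul_of_nonneg_left (h3.trans h5) h0
  linarith

/-- **Decoupling** -/
theorem decouple {S T : Finset ι} (hST : Disjoint S T) {n : ℕ} (hS : S.card ≤ n) (hT : T.card ≤ n)
    {u : ℝ} (hu : 2 * n ≤ u) (hu1 : 1 ≤ u) {l : List ℕ} (hs : rs l ≤ 1) (hl0 : ∀ p ∈ l, u ≤ (p : ℝ))
    (hl : Big (2 * n) l)
    {f g : (ι → ℕ) → ℝ} (hf : ∀ w, 0 ≤ f w) (hf0 : 1 ≤ f 0) (hf1 : ∀ w, f w ≤ 16 ^ hits S w)
    (hfT : Indep T f) (hg : ∀ w, 0 ≤ g w) (hg0 : 1 ≤ g 0) (hg1 : ∀ w, g w ≤ 16 ^ hits T w)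
    (hgS : Indep S g) :
    EX (S ∪ T) l (fun w => f w * g w) ≤
      (1 + 2 * n / u * Real.exp (33 * n)) ^ 2 * (EX S l f * EX T l g) := by
  obtain ⟨κ, hκ⟩ : ∃ κ : ℝ, κ = 2 * n / u := ⟨_, rfl⟩
  have hu0 : 0 < u := by linarith
  have hκ0 : 0 ≤ κ := by rw [hκ]; positivity
  have hκ1 : κ ≤ 1 := by
    rw [hκ, div_le_one hu0]
    exact hu
  have hc : (S ∪ T).card ≤ 2 * n := by
    rw [card_union_of_disjoint hST]
    omega
  have key : ∀ k : ℕ, k ≤ n → ∀ p ∈ l, 1 ≤ (1 + κ) * (1 - (k : ℝ) / p) := by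
    intro k hk p hp
    have hpu := hl0 p hp
    have hp0 : (0 : ℝ) < p := by linarith
    have h1 : (k : ℝ) / p ≤ κ / 2 := by
      rw [hκ]
      have hk' : (k : ℝ) ≤ n := by exact_mod_cast hk
      calc (k : ℝ) / p ≤ (n : ℝ) / u := div_le_div₀ (Nat.cast_nonneg _) hk' hu0 hpu
        _ = 2 * n / u / 2 := by ring
    nlinarith
  have h1 := decouple_aux hST hκ0 (hl.mono hc) (key _ hS) (key _ hT) hf hg hfT hgS
  have hlS : Big S.card l := hl.mono (by omega)
  have hlT : Big T.card l := hl.mono (by omega)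
  have h2 := EX_weight S hlS hs hκ0 hκ1 hf hf0 hf1
  have h3 := EX_weight T hlT hs hκ0 hκ1 hg hg0 hg1
  rw [← hκ]
  have hS' : (S.card : ℝ) ≤ n := by exact_mod_cast hS
  have hT' : (T.card : ℝ) ≤ n := by exact_mod_cast hT
  have eS0 : 0 ≤ EX S l f := EX_nonneg hlS hf
  have eT0 : 0 ≤ EX T l g := EX_nonneg hlT hg
  have h4 : (1 + κ * Real.exp (33 * S.card)) * EX S l f ≤
      (1 + κ * Real.exp (33 * n)) * EX S l f := by
    apply mul_le_mul_of_nonneg_right _ eS0
    have := mul_le_mul_of_nonneg_left (Real.exp_le_exp.2 (show 33 * (S.card : ℝ) ≤ 33 * n by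
      linarith)) hκ0
    linarith
  have h5 : (1 + κ * Real.exp (33 * T.card)) * EX T l g ≤
      (1 + κ * Real.exp (33 * n)) * EX T l g := by
    apply mul_le_mul_of_nonneg_right _ eT0
    have := mul_le_mul_of_nonneg_left (Real.exp_le_exp.2 (show 33 * (T.card : ℝ) ≤ 33 * n by
      linarith)) hκ0
    linarith
  have h6 : 0 ≤ EX T l (fun w => (1 + κ) ^ hits T w * g w) :=
    EX_nonneg hlT fun w => mul_nonneg (by positivity) (hg w)
  have h7 : 0 ≤ (1 + κ * Real.exp (33 * n)) * EX S l f := by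
    have := Real.exp_pos (33 * (n : ℝ))
    positivity
  calc _ ≤ _ := h1
    _ ≤ ((1 + κ * Real.exp (33 * n)) * EX S l f) * ((1 + κ * Real.exp (33 * n)) * EX T l g) :=
        mul_le_mul (h2.trans h4) (h3.trans h5) h6 h7
    _ = _ := by ring

end Pool.Agent.H.MP_711652_nt.G2.BE
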