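import Pool.Agent.H.MP_711652_nt.G2.BE1
import Pool.Agent.H.MP_711652_nt.LG.Mean2

/-!
# The average over a period of a function of the hits is `EX`
-/

set_option autoImplicit false

namespace Pool.Agent.H.MP_711652_nt.G2.BE

open Finset
open Pool.Agent.H.MP_711652_nt.LG (Forms mean1_crt mean2_one)

variable {ι : Type*} [DecidableEq ι]

open Classical in
/-- The number of primes of the list `l` which hit the position `i` at `m`. -/
noncomputable def om (A : ℕ → ι → ℕ → Prop) : List ℕ → ℕ → ι → ℕ
  | [], _ => 0
  | p :: l, m => fun i => om A l m i + if A p i m then 1 else 0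

/-- `f` depends only on the values at the positions of `S`. -/
def DepOn (S : Finset ι) (f : (ι → ℕ) → ℝ) : Prop := ∀ w w' : ι → ℕ, (∀ i ∈ S, w i = w' i) → f w = f w'

theorem DepOn.shift {S : Finset ι} {f : (ι → ℕ) → ℝ} (h : DepOn S f) (j : ι) :
    DepOn S (fun w => f (w + Pi.single j 1)) := by
  intro w w' hw
  apply h
  intro i hi
  rw [Pi.add_apply, Pi.add_apply, hw i hi]

theorem DepOn.indep {S T : Finset ι} (hST : Disjoint S T) {f : (ι → ℕ) → ℝ} (h : DepOn S f) :
    Indep T f := by
  intro j hj w
  apply h
  intro i hi
  rw [Pi.add_apply]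
  have : i ≠ j := fun e => (Finset.disjoint_left.1 hST) hi (e ▸ hj)
  simp [this]

theorem om_periodic {P : Finset ℕ} {A : ℕ → ι → ℕ → Prop} (h : Forms P A) (l : List ℕ)
    (hl : ∀ p ∈ l, p ∈ P) : Function.Periodic (om A l) l.prod := by
  classical
  induction l with
  | nil => intro m; rfl
  | cons p l ih =>
    intro m
    have h1 := ih fun q hq => hl q (List.mem_cons_of_mem _ hq)
    have hp := hl p List.mem_cons_self
    have h2 : Function.Periodic (om A l) (p :: l).prod := by
      rw [List.prod_cons]
      exact_mod_cast h1.nat_mul p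
    have h3 : ∀ i, Function.Periodic (fun m => A p i m) (p :: l).prod := by
      intro i
      have h4 : Function.Periodic (fun m => A p i m) p := fun m => propext (h.per p hp i m)
      have h5 := h4.nat_mul l.prod
      rw [Nat.cast_id] at h5
      rw [List.prod_cons, mul_comm]
      exact h5
    funext i
    show om A l (m + (p :: l).prod) i + _ = om A l m i + _
    rw [h2 m]
    have h5 := h3 i m
    simp only at h5
    simp only [h5]

theorem period_pos {l : List ℕ} (hl : ∀ p ∈ l, p.Prime) : 0 < l.prod := by
  induction l with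
  | nil => simp
  | cons p l ih =>
    rw [List.prod_cons]
    exact Nat.mul_pos (hl p List.mem_cons_self).pos (ih fun q hq => hl q (List.mem_cons_of_mem _ hq))

theorem coprime_prod {p : ℕ} (hp : p.Prime) {l : List ℕ} (hl : ∀ q ∈ l, q.Prime) (hpl : p ∉ l) :
    Nat.Coprime p l.prod := by
  induction l with
  | nil => simp
  | cons q l ih =>
    rw [List.prod_cons]
    rw [List.mem_cons, not_or] at hpl
    exact Nat.Coprime.mul_right ((Nat.coprime_primes hp (hl q List.mem_cons_self)).2 hpl.1)
      (ih (fun x hx => hl x (List.mem_cons_of_mem _ hx)) hpl.2)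

/-- **The average over a period.** -/
theorem sum_om {P : Finset ℕ} {A : ℕ → ι → ℕ → Prop} (h : Forms P A) (S : Finset ι) (l : List ℕ)
    (hl : ∀ p ∈ l, p ∈ P) (hnd : l.Nodup) (f : (ι → ℕ) → ℝ) (hf : DepOn S f) :
    ∑ m ∈ range l.prod, f (om A l m) = (l.prod : ℝ) * EX S l f := by
  classical
  induction l generalizing f with
  | nil =>
    rw [List.prod_nil, range_one, sum_singleton, EX]
    simp only [om, Nat.cast_one, one_mul]
  | cons p l ih =>
    rw [List.nodup_cons] at hnd
    have hl' : ∀ q ∈ l, q ∈ P := fun q hq => hl q (List.mem_cons_of_mem _ hq)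
    have hp := hl p List.mem_cons_self
    have hpp := h.prime p hp
    have hp0 : (p : ℝ) ≠ 0 := by exact_mod_cast hpp.ne_zero
    have hlp : ∀ q ∈ l, q.Prime := fun q hq => h.prime q (hl' q hq)
    have hq0 := period_pos hlp
    have hcop := coprime_prod hpp hlp hnd.1
    -- pointwise
    have hpt : ∀ m, f (om A (p :: l) m) =
        (1 - ∑ i ∈ S, if A p i m then (1 : ℝ) else 0) * f (om A l m) +
        ∑ i ∈ S, (if A p i m then (1 : ℝ) else 0) * f (om A l m + Pi.single i 1) := by
      intro m
      by_cases hex : ∃ i ∈ S, A p i m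
      · obtain ⟨i, hi, hA⟩ := hex
        have hne : ∀ j, j ≠ i → ¬ A p j m := fun j hj hAj => h.disj p hp j i m hj hAj hA
        have e1 : ∑ j ∈ S, (if A p j m then (1 : ℝ) else 0) = 1 := by
          rw [sum_eq_single i, if_pos hA]
          · intro j _ hj
            rw [if_neg (hne j hj)]
          · intro h3
            exact absurd hi h3
        have e2 : ∑ j ∈ S, (if A p j m then (1 : ℝ) else 0) * f (om A l m + Pi.single j 1) =
            f (om A l m + Pi.single i 1) := by
          rw [sum_eq_single i, if_pos hA, one_mul]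
          · intro j _ hj
            rw [if_neg (hne j hj), zero_mul]
          · intro h3
            exact absurd hi h3
        rw [e1, e2, sub_self, zero_mul, zero_add]
        apply hf
        intro j _
        show om A l m j + (if A p j m then 1 else 0) = om A l m j + (Pi.single i 1 : ι → ℕ) j
        by_cases hj : j = i
        · rw [hj, if_pos hA, Pi.single_eq_same]
        · rw [if_neg (hne j hj), Pi.single_eq_of_ne hj]
      · push Not at hex
        rw [sum_eq_zero fun i hi => if_neg (hex i hi),
          sum_eq_zero fun i hi => by rw [if_neg (hex i hi), zero_mul], sub_zero, one_mul, add_zero]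
        apply hf
        intro j hj
        show om A l m j + (if A p j m then 1 else 0) = om A l m j
        rw [if_neg (hex j hj), add_zero]
    have hperA : ∀ i, Function.Periodic (fun m => if A p i m then (1 : ℝ) else 0) p := by
      intro i m
      simp only [h.per p hp i m]
    have hper1 : Function.Periodic (fun m => 1 - ∑ i ∈ S, if A p i m then (1 : ℝ) else 0) p := by
      intro m
      show 1 - _ = 1 - _
      congr 1
      exact sum_congr rfl fun i _ => hperA i m
    have hperf : ∀ g : (ι → ℕ) → ℝ, Function.Periodic (fun m => g (om A l m)) l.prod := by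
      intro g m
      show g (om A l (m + l.prod)) = g (om A l m)
      rw [om_periodic h l hl' m]
    rw [sum_congr rfl fun m _ => hpt m, sum_add_distrib, sum_comm, List.prod_cons,
      mean1_crt _ _ hpp.pos hq0 hcop hper1 (hperf f), ih hl' hnd.2 f hf]
    have h2 : ∀ i ∈ S, ∑ m ∈ range (p * l.prod), (if A p i m then (1 : ℝ) else 0) *
        f (om A l m + Pi.single i 1) = (l.prod : ℝ) * EX S l (fun w => f (w + Pi.single i 1)) := by
      intro i _
      have h4 := mean1_crt (fun m => if A p i m then (1 : ℝ) else 0)
        (fun m => f (om A l m + Pi.single i 1)) hpp.pos hq0 hcop (hperA i)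
        (hperf fun w => f (w + Pi.single i 1))
      have h5 := mean2_one h hp i
      have h6 := ih hl' hnd.2 _ (hf.shift i)
      rw [h4, h6, h5, one_mul]
    have h3 : ∑ m ∈ range p, (1 - ∑ i ∈ S, if A p i m then (1 : ℝ) else 0) = p - S.card := by
      rw [sum_sub_distrib, sum_const, card_range, nsmul_eq_mul, mul_one, sum_comm,
        sum_congr rfl fun i _ => mean2_one h hp i, sum_const, nsmul_eq_mul, mul_one]
    rw [sum_congr rfl h2, h3, ← mul_sum, EX, ← mul_sum]
    push_cast
    field_simp

end Pool.Agent.H.MP_711652_nt.G2.BE
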