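import Pool.Agent.H.MP_711652_nt.G2.BE2

/-!
# The Brun–Hooley weight of one block
-/

set_option autoImplicit false

namespace Pool.Agent.H.MP_711652_nt.G2.BE

open Finset

/-- truncated inclusion-exclusion -/
def lam (n w : ℕ) : ℤ := ∑ i ∈ range (n + 1), (-1) ^ i * (w.choose i : ℤ)

theorem lam_zero (n : ℕ) : lam n 0 = 1 := by
  unfold lam
  rw [sum_range_succ']
  simp

theorem lam_succ (n w : ℕ) : lam n (w + 1) = (-1) ^ n * (w.choose n : ℤ) :=
  Int.alternating_sum_range_choose_eq_choose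

theorem lam_small {n w : ℕ} (h1 : 1 ≤ w) (h2 : w ≤ n) : lam n w = 0 := by
  obtain ⟨k, rfl⟩ : ∃ k, w = k + 1 := ⟨w - 1, by omega⟩
  rw [lam_succ, Nat.choose_eq_zero_of_lt (by omega)]
  simp

theorem lam_abs_le (n w : ℕ) : |(lam n w : ℝ)| ≤ 2 ^ w := by
  cases w with
  | zero => rw [lam_zero]; simp
  | succ k =>
    rw [lam_succ]
    push_cast
    rw [abs_mul, abs_pow, abs_neg, abs_one, one_pow, one_mul, Nat.abs_cast]
    have h1 : k.choose n ≤ 2 ^ k := Nat.choose_le_two_pow k n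
    have h2 : ((k.choose n : ℕ) : ℝ) ≤ ((2 ^ k : ℕ) : ℝ) := by exact_mod_cast h1
    push_cast at h2
    refine h2.trans ?_
    rw [pow_succ]
    have : (0 : ℝ) ≤ 2 ^ k := by positivity
    linarith

/-- `h` is a block weight (`λ ^ 2` or `λ ^ 4`) of order `n`. -/
structure Wt (n : ℕ) (h : ℕ → ℝ) : Prop where
  zero : h 0 = 1
  nonneg : ∀ w, 0 ≤ h w
  le : ∀ w, h w ≤ 16 ^ w
  tail : ∀ w, h w ≤ 0 ^ w + (1 / 2) ^ (n + 1) * 32 ^ w

theorem lam_two_le (n w : ℕ) : (lam n w : ℝ) ^ 2 ≤ (lam n w : ℝ) ^ 4 := by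
  have h : (lam n w) ^ 2 ≤ (lam n w) ^ 4 := by
    by_cases h0 : lam n w = 0
    · rw [h0]; norm_num
    · have h1 : 1 ≤ (lam n w) ^ 2 := by
        have := pow_pos (abs_pos.2 h0) 2
        rw [sq_abs] at this
        omega
      have h2 : (lam n w) ^ 4 = (lam n w) ^ 2 * (lam n w) ^ 2 := by ring
      rw [h2]
      exact le_mul_of_one_le_left (by positivity) h1
  exact_mod_cast h

theorem wt_four (n : ℕ) : Wt n (fun w => (lam n w : ℝ) ^ 4) where
  zero := by rw [lam_zero]; simp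
  nonneg w := by positivity
  le w := by
    have h1 := pow_le_pow_left₀ (abs_nonneg _) (lam_abs_le n w) 4
    rw [show |(lam n w : ℝ)| ^ 4 = (lam n w : ℝ) ^ 4 from Even.pow_abs (by decide) _] at h1
    refine h1.trans (le_of_eq ?_)
    rw [← pow_mul, mul_comm, pow_mul]
    norm_num
  tail w := by
    rcases Nat.eq_zero_or_pos w with rfl | hw
    · rw [lam_zero]
      have : (0 : ℝ) ≤ (1 / 2) ^ (n + 1) * 32 ^ 0 := by positivity
      simp only [Int.cast_one, one_pow, pow_zero] at this ⊢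
      linarith
    · rcases le_or_gt w n with h2 | h2
      · rw [lam_small hw h2]
        have : (0 : ℝ) ≤ 0 ^ w + (1 / 2) ^ (n + 1) * 32 ^ w := by positivity
        simpa using this
      · have h1 := pow_le_pow_left₀ (abs_nonneg _) (lam_abs_le n w) 4
        rw [show |(lam n w : ℝ)| ^ 4 = (lam n w : ℝ) ^ 4 from Even.pow_abs (by decide) _] at h1
        have h3 : ((2 : ℝ) ^ w) ^ 4 = (1 / 2) ^ w * 32 ^ w := by
          rw [← mul_pow, ← pow_mul, mul_comm, pow_mul]
          norm_num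
        have h4 : (1 / 2 : ℝ) ^ w ≤ (1 / 2) ^ (n + 1) :=
          pow_le_pow_of_le_one (by norm_num) (by norm_num) (by omega)
        have h5 := mul_le_mul_of_nonneg_right h4 (show (0 : ℝ) ≤ 32 ^ w by positivity)
        have h6 : (0 : ℝ) ≤ 0 ^ w := by positivity

        linarith

theorem wt_two (n : ℕ) : Wt n (fun w => (lam n w : ℝ) ^ 2) where
  zero := by rw [lam_zero]; simp
  nonneg w := by positivity
  le w := (lam_two_le n w).trans ((wt_four n).le w)
  tail w := (lam_two_le n w).trans ((wt_four n).tail w)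

variable {ι : Type*} [DecidableEq ι]

/-- the product of the weights at the positions of `S` -/
def wp (h : ℕ → ℝ) (S : Finset ι) (w : ι → ℕ) : ℝ := ∏ i ∈ S, h (w i)

section

variable {n : ℕ} {h : ℕ → ℝ}

theorem wp_nonneg (hh : Wt n h) (S : Finset ι) (w : ι → ℕ) : 0 ≤ wp h S w :=
  prod_nonneg fun _ _ => hh.nonneg _

theorem wp_zero (hh : Wt n h) (S : Finset ι) : wp h S (0 : ι → ℕ) = 1 :=
  prod_eq_one fun _ _ => hh.zero

theorem wp_le (hh : Wt n h) (S : Finset ι) (w : ι → ℕ) : wp h S w ≤ 16 ^ hits S w := by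
  unfold wp hits
  rw [← prod_pow_eq_pow_sum]
  exact prod_le_prod (fun _ _ => hh.nonneg _) fun _ _ => hh.le _

theorem wp_depOn (h : ℕ → ℝ) (S : Finset ι) : DepOn S (wp h S) := by
  intro w w' hw
  unfold wp
  exact prod_congr rfl fun i hi => by rw [hw i hi]

theorem wp_union (h : ℕ → ℝ) {S T : Finset ι} (hST : Disjoint S T) (w : ι → ℕ) :
    wp h (S ∪ T) w = wp h S w * wp h T w := prod_union hST

/-- one position -/
theorem EX_one (hh : Wt n h) (i : ι) {l : List ℕ} (hl : Big 1 l) (hs : rs l ≤ 1) :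
    EX {i} l (wp h {i}) ≤ VV 1 l * (1 + Real.exp 33 * (1 / 2) ^ (n + 1)) := by
  have hl' : Big ({i} : Finset ι).card l := by rw [card_singleton]; exact hl
  have h1 : EX {i} l (wp h {i}) ≤
      EX {i} l (fun w => 0 ^ hits {i} w + (1 / 2) ^ (n + 1) * 32 ^ hits {i} w) := by
    apply EX_mono hl'
    intro w
    unfold wp hits
    rw [prod_singleton, sum_singleton]
    exact hh.tail _
  refine h1.trans ?_
  rw [EX_add, EX_mul, EX_pow, EX_pow, card_singleton]
  have h2 : VV (-((0 - 1) * ((1 : ℕ) : ℝ))) l = VV 1 l := by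
    congr 1
    norm_num
  have h3 : VV (-((32 - 1) * ((1 : ℕ) : ℝ))) l ≤ Real.exp 31 := by
    have h4 := VV_le_exp (κ := (32 - 1) * ((1 : ℕ) : ℝ)) (by norm_num) l
    refine h4.trans (Real.exp_le_exp.2 ?_)
    norm_num
    linarith
  have h4 : Real.exp (-2) ≤ VV 1 l := by
    have h5 := VV_ge hl
    push_cast at h5
    refine le_trans (Real.exp_le_exp.2 ?_) h5
    linarith
  have h5 : Real.exp 31 ≤ VV 1 l * Real.exp 33 := by
    have e : Real.exp 31 = Real.exp (-2) * Real.exp 33 := by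
      rw [← Real.exp_add]
      norm_num
    rw [e]
    exact mul_le_mul_of_nonneg_right h4 (Real.exp_pos _).le
  rw [h2]
  have h6 : (1 / 2 : ℝ) ^ (n + 1) * VV (-((32 - 1) * ((1 : ℕ) : ℝ))) l ≤
      (1 / 2) ^ (n + 1) * (VV 1 l * Real.exp 33) :=
    mul_le_mul_of_nonneg_left (h3.trans h5) (by positivity)
  linarith

/-- the decoupling constant -/
noncomputable def dc (N : ℕ) (u : ℝ) : ℝ := (1 + 2 * N / u * Real.exp (33 * N)) ^ 2

theorem one_le_dc (N : ℕ) {u : ℝ} (hu : 0 ≤ u) : 1 ≤ dc N u := by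
  unfold dc
  apply one_le_pow₀
  have : 0 ≤ 2 * N / u * Real.exp (33 * N) := mul_nonneg (by positivity) (Real.exp_pos _).le
  linarith

/-- two disjoint sets of positions, one block -/
theorem EX_union (hh : Wt n h) {S T : Finset ι} (hST : Disjoint S T) {N : ℕ} (hS : S.card ≤ N)
    (hT : T.card ≤ N) {u : ℝ} (hu : 2 * N ≤ u) (hu1 : 1 ≤ u) {l : List ℕ} (hs : rs l ≤ 1)
    (hl0 : ∀ p ∈ l, u ≤ (p : ℝ)) (hl : Big (2 * N) l) :
    EX (S ∪ T) l (wp h (S ∪ T)) ≤ dc N u * (EX S l (wp h S) * EX T l (wp h T)) := by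
  have e : wp h (S ∪ T) = fun w => wp h S w * wp h T w := funext fun w => wp_union h hST w
  rw [e]
  exact decouple hST hS hT hu hu1 hs hl0 hl (wp_nonneg hh S) (wp_zero hh S).ge (wp_le hh S)
    ((wp_depOn h S).indep hST) (wp_nonneg hh T) (wp_zero hh T).ge (wp_le hh T)
    ((wp_depOn h T).indep hST.symm)

/-- one more position, one block -/
theorem EX_insert (hh : Wt n h) {S : Finset ι} {i : ι} (hi : i ∉ S) {N : ℕ} (hS : S.card ≤ N)
    (hN : 1 ≤ N) {u : ℝ} (hu : 2 * N ≤ u) (hu1 : 1 ≤ u) {l : List ℕ} (hs : rs l ≤ 1)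
    (hl0 : ∀ p ∈ l, u ≤ (p : ℝ)) (hl : Big (2 * N) l) :
    EX (insert i S) l (wp h (insert i S)) ≤
      dc N u * (1 + Real.exp 33 * (1 / 2) ^ (n + 1)) * VV 1 l * EX S l (wp h S) := by
  have h1 : insert i S = S ∪ {i} := by
    rw [union_comm]
    rfl
  rw [h1]
  have hd : Disjoint S {i} := Finset.disjoint_singleton_right.2 hi
  have h2 := EX_union hh hd hS (by rw [card_singleton]; exact hN) hu hu1 hs hl0 hl
  have h3 := EX_one hh i (hl.mono (show 1 ≤ 2 * N by omega)) hs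
  have h4 : 0 ≤ EX S l (wp h S) := EX_nonneg (hl.mono (by omega)) (wp_nonneg hh S)
  have h5 : 0 ≤ dc N u := zero_le_one.trans (one_le_dc N (by linarith))
  refine h2.trans ?_
  calc dc N u * (EX S l (wp h S) * EX {i} l (wp h {i})) ≤
        dc N u * (EX S l (wp h S) * (VV 1 l * (1 + Real.exp 33 * (1 / 2) ^ (n + 1)))) :=
        mul_le_mul_of_nonneg_left (mul_le_mul_of_nonneg_left h3 h4) h5
    _ = _ := by ring

end

end Pool.Agent.H.MP_711652_nt.G2.BE
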