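import Pool.Agent.H.MP_711652_nt.G2.BE3

/-!
# The Brun–Hooley weight `Lam`: all blocks

`Lam A bl i m = ∏_{blocks b} λ_{n_b}(number of the primes of b which hit i at m)`.
-/

set_option autoImplicit false

namespace Pool.Agent.H.MP_711652_nt.G2.BE

open Finset
open Pool.Agent.H.MP_711652_nt.LG (Forms mean1_crt)

/-- A block: its primes, the order of the truncation, a lower bound for the primes. -/
structure Blk where
  l : List ℕ
  n : ℕ
  u : ℝ

/-- The product of all primes of the blocks. -/
def bQ (bl : List Blk) : ℕ := (bl.map fun b => b.l.prod).prod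

theorem bQ_cons (b : Blk) (bl : List Blk) : bQ (b :: bl) = b.l.prod * bQ bl := by
  unfold bQ
  rw [List.map_cons, List.prod_cons]

/-- All the primes of the blocks. -/
def bP (bl : List Blk) : List ℕ := (bl.map fun b => b.l).flatten

theorem bP_cons (b : Blk) (bl : List Blk) : bP (b :: bl) = b.l ++ bP bl := by
  unfold bP
  rw [List.map_cons, List.flatten_cons]

theorem bP_prod (bl : List Blk) : (bP bl).prod = bQ bl := by
  induction bl with
  | nil => rfl
  | cons b bl ih => rw [bP_cons, bQ_cons, List.prod_append, ih]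

variable {ι : Type*} [DecidableEq ι]

omit [DecidableEq ι] in
/-- The integer valued weight. -/
noncomputable def Lam (A : ℕ → ι → ℕ → Prop) (bl : List Blk) (i : ι) (m : ℕ) : ℤ :=
  (bl.map fun b => lam b.n (om A b.l m i)).prod

omit [DecidableEq ι] in
theorem Lam_nil (A : ℕ → ι → ℕ → Prop) (i : ι) (m : ℕ) : Lam A [] i m = 1 := rfl

omit [DecidableEq ι] in
theorem Lam_cons (A : ℕ → ι → ℕ → Prop) (b : Blk) (bl : List Blk) (i : ι) (m : ℕ) :
    Lam A (b :: bl) i m = lam b.n (om A b.l m i) * Lam A bl i m := by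
  unfold Lam
  rw [List.map_cons, List.prod_cons]

omit [DecidableEq ι] in
theorem om_eq_zero (A : ℕ → ι → ℕ → Prop) (i : ι) (m : ℕ) {l : List ℕ} (h : ∀ p ∈ l, ¬ A p i m) :
    om A l m i = 0 := by
  induction l with
  | nil => rfl
  | cons p l ih =>
    show om A l m i + _ = 0
    rw [ih fun q hq => h q (List.mem_cons_of_mem _ hq), if_neg (h p List.mem_cons_self)]

omit [DecidableEq ι] in
/-- **(S0)** `Lam = 1` if no small prime hits the position. -/
theorem Lam_eq_one (A : ℕ → ι → ℕ → Prop) (i : ι) (m : ℕ) {bl : List Blk}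
    (h : ∀ p ∈ bP bl, ¬ A p i m) : Lam A bl i m = 1 := by
  induction bl with
  | nil => rfl
  | cons b bl ih =>
    rw [bP_cons] at h
    rw [Lam_cons, ih fun q hq => h q (List.mem_append_right _ hq),
      om_eq_zero A i m fun q hq => h q (List.mem_append_left _ hq), lam_zero, one_mul]

omit [DecidableEq ι] in
theorem Lam_periodic {P : Finset ℕ} {A : ℕ → ι → ℕ → Prop} (h : Forms P A) (i : ι) {bl : List Blk}
    (hbl : ∀ p ∈ bP bl, p ∈ P) : Function.Periodic (Lam A bl i) (bQ bl) := by
  classical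
  induction bl with
  | nil => intro m; rfl
  | cons b bl ih =>
    rw [bP_cons] at hbl
    have h1 := ih fun q hq => hbl q (List.mem_append_right _ hq)
    have h2 : Function.Periodic (om A b.l) b.l.prod :=
      om_periodic h b.l fun q hq => hbl q (List.mem_append_left _ hq)
    intro m
    rw [Lam_cons, Lam_cons, bQ_cons]
    have h3 := h1.nat_mul b.l.prod m
    have h4 := h2.nat_mul (bQ bl) m
    rw [Nat.cast_id] at h3 h4
    rw [h3, mul_comm (b.l.prod), h4]

/-- The average over a period, blockwise. -/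
noncomputable def EB (h : ℕ → ℕ → ℝ) (bl : List Blk) (S : Finset ι) : ℝ :=
  (bl.map fun b => EX S b.l (wp (h b.n) S)).prod

theorem EB_nil (h : ℕ → ℕ → ℝ) (S : Finset ι) : EB h [] S = 1 := rfl

theorem EB_cons (h : ℕ → ℕ → ℝ) (b : Blk) (bl : List Blk) (S : Finset ι) :
    EB h (b :: bl) S = EX S b.l (wp (h b.n) S) * EB h bl S := by
  unfold EB
  rw [List.map_cons, List.prod_cons]

/-- **The average over a period of the product of the weights.** -/
theorem sum_Lam {P : Finset ℕ} {A : ℕ → ι → ℕ → Prop} (hA : Forms P A) (a : ℕ) (S : Finset ι)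
    {bl : List Blk} (hbl : ∀ p ∈ bP bl, p ∈ P) (hnd : (bP bl).Nodup) :
    ∑ m ∈ range (bQ bl), ∏ k ∈ S, (Lam A bl k m : ℝ) ^ a =
      (bQ bl : ℝ) * EB (fun n w => (lam n w : ℝ) ^ a) bl S := by
  induction bl with
  | nil =>
    show ∑ m ∈ range 1, _ = ((1 : ℕ) : ℝ) * 1
    rw [range_one, sum_singleton]
    simp [Lam_nil]
  | cons b bl ih =>
    rw [bP_cons] at hbl hnd
    have hb : ∀ p ∈ b.l, p ∈ P := fun q hq => hbl q (List.mem_append_left _ hq)
    have hbl' : ∀ p ∈ bP bl, p ∈ P := fun q hq => hbl q (List.mem_append_right _ hq)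
    rw [List.nodup_append] at hnd
    have hQ1 : 0 < b.l.prod := period_pos fun p hp => hA.prime p (hb p hp)
    have hQ2 : 0 < bQ bl := by
      rw [← bP_prod]
      exact period_pos fun p hp => hA.prime p (hbl' p hp)
    have hcop : Nat.Coprime b.l.prod (bQ bl) := by
      rw [← bP_prod]
      apply Nat.Coprime.symm
      have : ∀ l : List ℕ, (∀ p ∈ l, p ∈ P) → (∀ p ∈ l, p ∉ bP bl) →
          Nat.Coprime (bP bl).prod l.prod := by
        intro l
        induction l with
        | nil => intro _ _; simp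
        | cons p l ihl =>
          intro h1 h2
          rw [List.prod_cons]
          exact Nat.Coprime.mul_right
            (coprime_prod (hA.prime p (h1 p List.mem_cons_self))
              (fun q hq => hA.prime q (hbl' q hq)) (h2 p List.mem_cons_self)).symm
            (ihl (fun q hq => h1 q (List.mem_cons_of_mem _ hq))
              fun q hq => h2 q (List.mem_cons_of_mem _ hq))
      exact this b.l hb fun p hp hp2 => hnd.2.2 p hp p hp2 rfl
    have h1 : ∀ m, ∏ k ∈ S, (Lam A (b :: bl) k m : ℝ) ^ a =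
        wp (fun w => (lam b.n w : ℝ) ^ a) S (om A b.l m) * ∏ k ∈ S, (Lam A bl k m : ℝ) ^ a := by
      intro m
      unfold wp
      rw [← prod_mul_distrib]
      refine prod_congr rfl fun k _ => ?_
      rw [Lam_cons]
      push_cast
      rw [mul_pow]
    have hp1 : Function.Periodic (fun m => wp (fun w => (lam b.n w : ℝ) ^ a) S (om A b.l m))
        b.l.prod := by
      intro m
      show wp _ S (om A b.l (m + b.l.prod)) = wp _ S (om A b.l m)
      rw [om_periodic hA b.l hb m]
    have hp2 : Function.Periodic (fun m => ∏ k ∈ S, (Lam A bl k m : ℝ) ^ a) (bQ bl) := by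
      intro m
      refine prod_congr rfl fun k _ => ?_
      rw [Lam_periodic hA k hbl' m]
    rw [sum_congr rfl fun m _ => h1 m, bQ_cons,
      mean1_crt (fun m => wp (fun w => (lam b.n w : ℝ) ^ a) S (om A b.l m))
        (fun m => ∏ k ∈ S, (Lam A bl k m : ℝ) ^ a) hQ1 hQ2 hcop hp1 hp2,
      sum_om hA S b.l hb hnd.1 _ (wp_depOn _ S), ih hbl' hnd.2.1, EB_cons]
    push_cast
    ring

/-- The conditions on a block. -/
structure BlkOK (N : ℕ) (b : Blk) : Prop where
  rs : rs b.l ≤ 1
  ge : ∀ p ∈ b.l, b.u ≤ (p : ℝ)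
  N : 4 * (N : ℝ) ≤ b.u
  one : 1 ≤ b.u

theorem BlkOK.big {N : ℕ} {b : Blk} (h : BlkOK N b) : Big (2 * N) b.l := by
  intro p hp
  have h1 := h.ge p hp
  have h2 := h.N
  have h3 := h.one
  constructor
  · have : (0 : ℝ) < p := by linarith
    exact_mod_cast this
  · have : ((2 * (2 * N) : ℕ) : ℝ) ≤ p := by
      push_cast
      linarith
    exact_mod_cast this

/-- The one-step factor of a block. -/
noncomputable def bv (N : ℕ) (b : Blk) : ℝ :=
  dc N b.u * (1 + Real.exp 33 * (1 / 2) ^ (b.n + 1)) * VV 1 b.l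

/-- The one-step factor. -/
noncomputable def vv (N : ℕ) (bl : List Blk) : ℝ := (bl.map (bv N)).prod

/-- The decoupling factor. -/
noncomputable def dd (N : ℕ) (bl : List Blk) : ℝ := (bl.map fun b => dc N b.u).prod

variable {h : ℕ → ℕ → ℝ}

theorem EB_nonneg (hh : ∀ n, Wt n (h n)) {N : ℕ} {bl : List Blk} (hbl : ∀ b ∈ bl, BlkOK N b)
    {S : Finset ι} (hS : S.card ≤ 2 * N) : 0 ≤ EB h bl S := by
  induction bl with
  | nil => exact zero_le_one
  | cons b bl ih =>
    rw [EB_cons]
    exact mul_nonneg (EX_nonneg ((hbl b List.mem_cons_self).big.mono hS) (wp_nonneg (hh _) S))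
      (ih fun x hx => hbl x (List.mem_cons_of_mem _ hx))

theorem vv_nonneg {N : ℕ} (hN : 1 ≤ N) {bl : List Blk} (hbl : ∀ b ∈ bl, BlkOK N b) :
    0 ≤ vv N bl := by
  induction bl with
  | nil => exact zero_le_one
  | cons b bl ih =>
    unfold vv
    rw [List.map_cons, List.prod_cons]
    have h1 := hbl b List.mem_cons_self
    have h2 : 0 ≤ dc N b.u := zero_le_one.trans (one_le_dc N (by linarith [h1.one]))
    have h3 := VV_pos (n := 1) (h1.big.mono (by omega))
    push_cast at h3
    exact mul_nonneg (mul_nonneg (mul_nonneg h2 (by positivity)) h3.le)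
      (ih fun x hx => hbl x (List.mem_cons_of_mem _ hx))

/-- **(S3)** one more position. -/
theorem EB_insert (hh : ∀ n, Wt n (h n)) {N : ℕ} (hN : 1 ≤ N) {bl : List Blk}
    (hbl : ∀ b ∈ bl, BlkOK N b) {S : Finset ι} {i : ι} (hi : i ∉ S) (hS : S.card ≤ N) :
    EB h bl (insert i S) ≤ vv N bl * EB h bl S := by
  induction bl with
  | nil =>
    rw [EB_nil, EB_nil]
    show (1 : ℝ) ≤ 1 * 1
    norm_num
  | cons b bl ih =>
    have h1 := hbl b List.mem_cons_self
    have hbl' : ∀ x ∈ bl, BlkOK N x := fun x hx => hbl x (List.mem_cons_of_mem _ hx)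
    have h2 := ih hbl'
    have hN0 : (0 : ℝ) ≤ N := Nat.cast_nonneg _
    have h3 := EX_insert (hh b.n) hi hS hN (by linarith [h1.N]) h1.one h1.rs h1.ge h1.big
    have h4 : 0 ≤ EX (insert i S) b.l (wp (h b.n) (insert i S)) :=
      EX_nonneg (h1.big.mono (by rw [card_insert_of_notMem hi]; omega)) (wp_nonneg (hh _) _)
    have h5 : 0 ≤ EX S b.l (wp (h b.n) S) :=
      EX_nonneg (h1.big.mono (by omega)) (wp_nonneg (hh _) _)
    have h6 : 0 ≤ bv N b * EX S b.l (wp (h b.n) S) := h4.trans h3
    have h7 : 0 ≤ EB h bl (insert i S) := EB_nonneg hh hbl' (by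
      rw [card_insert_of_notMem hi]
      omega)
    rw [EB_cons, EB_cons]
    have e : vv N (b :: bl) = bv N b * vv N bl := by
      unfold vv
      rw [List.map_cons, List.prod_cons]
    rw [e]
    calc EX (insert i S) b.l (wp (h b.n) (insert i S)) * EB h bl (insert i S) ≤
          (bv N b * EX S b.l (wp (h b.n) S)) * (vv N bl * EB h bl S) :=
          mul_le_mul h3 h2 h7 h6
      _ = _ := by ring

/-- **(S4)** -/
theorem EB_le_pow (hh : ∀ n, Wt n (h n)) {N : ℕ} (hN : 1 ≤ N) {bl : List Blk}
    (hbl : ∀ b ∈ bl, BlkOK N b) (S : Finset ι) (hS : S.card ≤ N) :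
    EB h bl S ≤ vv N bl ^ S.card := by
  induction S using Finset.induction_on with
  | empty =>
    rw [card_empty, pow_zero]
    have : ∀ bl : List Blk, EB h bl (∅ : Finset ι) = 1 := by
      intro bl
      induction bl with
      | nil => rfl
      | cons b bl ih =>
        rw [EB_cons, ih, mul_one]
        have e : wp (h b.n) (∅ : Finset ι) = fun _ => (1 : ℝ) := by
          funext w
          unfold wp
          rw [prod_empty]
        rw [e]
        have : ∀ l : List ℕ, EX (∅ : Finset ι) l (fun _ => (1 : ℝ)) = 1 := by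
          intro l
          induction l with
          | nil => rfl
          | cons p l ih => rw [EX, ih, card_empty, sum_empty]; simp
        exact this _
    rw [this]
  | insert i S hi ih =>
    rw [card_insert_of_notMem hi] at hS ⊢
    have h1 := EB_insert hh hN hbl hi (show S.card ≤ N by omega)
    have h2 := ih (by omega)
    refine h1.trans ?_
    rw [pow_succ, mul_comm]
    exact mul_le_mul_of_nonneg_right h2 (vv_nonneg hN hbl)

/-- **(S5)** two disjoint sets of positions. -/
theorem EB_union (hh : ∀ n, Wt n (h n)) {N : ℕ} {bl : List Blk}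
    (hbl : ∀ b ∈ bl, BlkOK N b) {S T : Finset ι} (hST : Disjoint S T) (hS : S.card ≤ N)
    (hT : T.card ≤ N) : EB h bl (S ∪ T) ≤ dd N bl * (EB h bl S * EB h bl T) := by
  induction bl with
  | nil =>
    rw [EB_nil, EB_nil, EB_nil]
    show (1 : ℝ) ≤ 1 * (1 * 1)
    norm_num
  | cons b bl ih =>
    have h1 := hbl b List.mem_cons_self
    have hbl' : ∀ x ∈ bl, BlkOK N x := fun x hx => hbl x (List.mem_cons_of_mem _ hx)
    have h2 := ih hbl'
    have hN0 : (0 : ℝ) ≤ N := Nat.cast_nonneg _
    have h3 := EX_union (hh b.n) hST hS hT (by linarith [h1.N]) h1.one h1.rs h1.ge h1.big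
    have hc : (S ∪ T).card ≤ 2 * N := by
      rw [card_union_of_disjoint hST]
      omega
    have h4 : 0 ≤ EX (S ∪ T) b.l (wp (h b.n) (S ∪ T)) :=
      EX_nonneg (h1.big.mono hc) (wp_nonneg (hh _) _)
    have h7 : 0 ≤ EB h bl (S ∪ T) := EB_nonneg hh hbl' hc
    rw [EB_cons, EB_cons, EB_cons]
    have e : dd N (b :: bl) = dc N b.u * dd N bl := by
      unfold dd
      rw [List.map_cons, List.prod_cons]
    rw [e]
    calc EX (S ∪ T) b.l (wp (h b.n) (S ∪ T)) * EB h bl (S ∪ T) ≤
          (dc N b.u * (EX S b.l (wp (h b.n) S) * EX T b.l (wp (h b.n) T))) *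
            (dd N bl * (EB h bl S * EB h bl T)) :=
          mul_le_mul h3 h2 h7 (h4.trans h3)
      _ = _ := by ring

end Pool.Agent.H.MP_711652_nt.G2.BE
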