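import Pool.Agent.H.MP_711652_nt.G2.Tame3

/-!
# GAP2, BH0: the truncated alternating sum
-/

set_option autoImplicit false

namespace Pool.Agent.H.MP_711652_nt.G2

open Finset Pool.Agent.H.MP_711652_nt.LG

/-- the number of the primes of `S` which hit `i` at `m` -/
noncomputable def om {ι : Type*} (A : ℕ → ι → ℕ → Prop) (S : Finset ℕ) (i : ι) (m : ℕ) : ℕ := by
  classical exact (S.filter (fun p => A p i m)).card

/-- `∑_{j ≤ n} (-1)^j C(w, j)` -/
def lam (n w : ℕ) : ℤ := ∑ j ∈ range (n + 1), (-1) ^ j * (w.choose j : ℤ)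

theorem lam_zero (n : ℕ) : lam n 0 = 1 := by
  unfold lam
  rw [Finset.sum_eq_single 0]
  · simp
  · intro j _ hj
    rw [Nat.choose_eq_zero_of_lt (Nat.pos_of_ne_zero hj)]
    simp
  · intro h
    exact absurd (Finset.mem_range.2 (Nat.succ_pos n)) h

theorem BH0_closed (n w : ℕ) : lam n (w + 1) = (-1) ^ n * (w.choose n : ℤ) :=
  Int.alternating_sum_range_choose_eq_choose

/-- PROOF. `Int.alternating_sum_range_choose_of_ne` or the closed form `(-1)^n C(w - 1, n)`. -/
theorem lam_eq_zero {n w : ℕ} (h1 : 1 ≤ w) (h2 : w ≤ n) : lam n w = 0 := by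
  obtain ⟨v, rfl⟩ := Nat.exists_eq_add_of_le' h1
  rw [BH0_closed, Nat.choose_eq_zero_of_lt (by omega)]
  simp

theorem abs_lam_le (n w : ℕ) : |lam n w| ≤ 2 ^ w := by
  rcases Nat.eq_zero_or_pos w with rfl | h
  · rw [lam_zero]; simp
  · obtain ⟨v, rfl⟩ := Nat.exists_eq_add_of_le' (Nat.succ_le_of_lt h)
    rw [BH0_closed, abs_mul, abs_pow, abs_neg, abs_one, one_pow, one_mul, Nat.abs_cast]
    have h1 : v.choose n ≤ 2 ^ v := Nat.choose_le_two_pow v n
    have h2 : (2 : ℕ) ^ v ≤ 2 ^ (v + 1) := Nat.pow_le_pow_right (by norm_num) (Nat.le_succ v)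
    exact_mod_cast h1.trans h2

variable {ι : Type*} [Fintype ι] [DecidableEq ι] {P : Finset ℕ} {A : ℕ → ι → ℕ → Prop}

open Classical in
theorem BH0_prod (A : ℕ → ι → ℕ → Prop) (T : Finset ℕ) (i : ι) (m : ℕ) :
    ∏ p ∈ T, (if A p i m then (1 : ℝ) else 0) = if (∀ p ∈ T, A p i m) then 1 else 0 := by
  by_cases h : ∀ p ∈ T, A p i m
  · rw [if_pos h]
    exact Finset.prod_eq_one fun p hp => if_pos (h p hp)
  · rw [if_neg h]
    push Not at h
    obtain ⟨p, hp, hp2⟩ := h
    exact Finset.prod_eq_zero hp (if_neg hp2)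

open Classical in
/-- PROOF. `C(om, j)` is the number of the subsets `T` of `{p ∈ S | A p i m}` with `|T| = j`. -/
theorem lam_om_eq (A : ℕ → ι → ℕ → Prop) (S : Finset ℕ) (i : ι) (n m : ℕ) :
    (lam n (om A S i m) : ℝ) = ∑ T ∈ S.powerset.filter (fun T => T.card ≤ n),
      (-1) ^ T.card * ∏ p ∈ T, (if A p i m then (1 : ℝ) else 0) := by
  have hom : om A S i m = (S.filter (fun p => A p i m)).card := rfl
  have h1 : ∀ j : ℕ, ((om A S i m).choose j : ℝ) =
      ∑ T ∈ S.powersetCard j, ∏ p ∈ T, (if A p i m then (1 : ℝ) else 0) := by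
    intro j
    rw [hom, ← Finset.card_powersetCard]
    rw [Finset.sum_congr rfl (fun T _ => BH0_prod A T i m), ← Finset.sum_filter,
      Finset.sum_const, nsmul_eq_mul, mul_one]
    congr 2
    ext T
    simp only [Finset.mem_powersetCard, Finset.mem_filter, Finset.subset_iff]
    constructor
    · rintro ⟨h1, h2⟩
      exact ⟨⟨fun x hx => (h1 hx).1, h2⟩, fun x hx => (h1 hx).2⟩
    · rintro ⟨⟨h1, h2⟩, h3⟩
      exact ⟨fun x hx => ⟨h1 hx, h3 x hx⟩, h2⟩
  have h2 : S.powerset.filter (fun T => T.card ≤ n) =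
      (range (n + 1)).biUnion (fun j => S.powersetCard j) := by
    ext T
    simp only [Finset.mem_filter, Finset.mem_powerset, Finset.mem_biUnion, Finset.mem_range,
      Finset.mem_powersetCard]
    constructor
    · rintro ⟨h1, h2⟩
      exact ⟨T.card, Nat.lt_succ_of_le h2, h1, rfl⟩
    · rintro ⟨j, hj, h1, h2⟩
      exact ⟨h1, by omega⟩
  rw [h2, Finset.sum_biUnion]
  · unfold lam
    push_cast
    refine Finset.sum_congr rfl fun j _ => ?_
    rw [h1 j, Finset.mul_sum]
    refine Finset.sum_congr rfl fun T hT => ?_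
    rw [(Finset.mem_powersetCard.1 hT).2]
  · intro a _ b _ hab
    exact Finset.pairwise_disjoint_powersetCard S hab

theorem BH0_sum_choose (s n : ℕ) : ∑ j ∈ range (n + 1), s.choose j ≤ (s + 1) ^ n := by
  induction n with
  | zero => simp
  | succ n ih =>
    rw [Finset.sum_range_succ]
    have h1 : s.choose (n + 1) ≤ s ^ (n + 1) := Nat.choose_le_pow s (n + 1)
    have h2 : s ^ n ≤ (s + 1) ^ n := Nat.pow_le_pow_left (Nat.le_succ s) n
    calc ∑ j ∈ range (n + 1), s.choose j + s.choose (n + 1)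
        ≤ (s + 1) ^ n + s * s ^ n := by
          rw [pow_succ'] at h1; exact Nat.add_le_add ih h1
      _ ≤ (s + 1) ^ n + s * (s + 1) ^ n := Nat.add_le_add_left (Nat.mul_le_mul_left s h2) _
      _ = (s + 1) ^ (n + 1) := by ring

theorem BH0_card (S : Finset ℕ) (n : ℕ) :
    (S.powerset.filter (fun T => T.card ≤ n)).card ≤ (S.card + 1) ^ n := by
  classical
  have h2 : S.powerset.filter (fun T => T.card ≤ n) =
      (range (n + 1)).biUnion (fun j => S.powersetCard j) := by
    ext T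
    simp only [Finset.mem_filter, Finset.mem_powerset, Finset.mem_biUnion, Finset.mem_range,
      Finset.mem_powersetCard]
    constructor
    · rintro ⟨h1, h2⟩
      exact ⟨T.card, Nat.lt_succ_of_le h2, h1, rfl⟩
    · rintro ⟨j, hj, h1, h2⟩
      exact ⟨h1, by omega⟩
  rw [h2]
  refine Finset.card_biUnion_le.trans ?_
  rw [Finset.sum_congr rfl (fun j _ => Finset.card_powersetCard j S)]
  exact BH0_sum_choose _ _

/-- PROOF. `lam_om_eq`, `tame_hit`, `Tame.prod`, `Tame.sum`; the number of the subsets of `S` with at most `n` elements is at most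
`(|S| + 1)^n`. -/
theorem tame_lam (h : Forms P A) {S : Finset ℕ} (hS : S ⊆ P) {Q : ℕ} (hQ : (∏ p ∈ S, p) ∣ Q)
    (n : ℕ) (i : ι) :
    Tame Q (fun m => (lam n (om A S i m) : ℝ)) (((S.card : ℝ) + 1) ^ n) := by
  classical
  have h1 : Tame Q (fun m => ∑ T ∈ S.powerset.filter (fun T => T.card ≤ n),
      (-1) ^ T.card * ∏ p ∈ T, (if A p i m then (1 : ℝ) else 0))
      (∑ T ∈ S.powerset.filter (fun T => T.card ≤ n), 1) := by
    refine Tame.sum _ fun T hT => ?_
    have hTS : T ⊆ S := Finset.mem_powerset.1 (Finset.mem_filter.1 hT).1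
    have h2 := Tame.prod T (Q := Q) (F := fun p m => if A p i m then (1 : ℝ) else 0)
      (a := fun _ => 1) (fun p hp => tame_hit h (hS (hTS hp))
        ((Finset.dvd_prod_of_mem (fun q : ℕ => q) (hTS hp)).trans hQ) i)
    have h3 := h2.smul ((-1) ^ T.card)
    refine h3.mono ?_
    rw [abs_pow, abs_neg, abs_one, one_pow, one_mul, Finset.prod_const_one]
  refine (h1.congr fun m => (lam_om_eq A S i n m).symm).mono ?_
  rw [Finset.sum_const, nsmul_eq_mul, mul_one]
  exact_mod_cast BH0_card S n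

end Pool.Agent.H.MP_711652_nt.G2
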