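import Pool.Agent.H.MP_711652_nt.G2.BE4
import Pool.Agent.H.MP_711652_nt.G2.BH0

/-!
# Bridge: the blocks `blk j`, `j < l`, as a list
-/

set_option autoImplicit false

namespace Pool.Agent.H.MP_711652_nt.G2.BE

open Finset
open Pool.Agent.H.MP_711652_nt.LG (Forms)

theorem prod_range_list {M : Type*} [CommMonoid M] (f : ℕ → M) (n : ℕ) :
    ((List.range n).map f).prod = ∏ i ∈ Finset.range n, f i := by
  induction n with
  | zero => simp
  | succ n ih =>
    rw [List.range_succ, List.map_append, List.prod_append, ih, Finset.prod_range_succ]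
    simp

theorem prod_toList (s : Finset ℕ) : s.toList.prod = ∏ p ∈ s, p := by
  have := Finset.prod_map_toList s (fun p : ℕ => p)
  rwa [List.map_id'] at this

theorem rs_toList (s : Finset ℕ) : rs s.toList = ∑ p ∈ s, 1 / (p : ℝ) := by
  unfold rs
  exact Finset.sum_map_toList s _

theorem VV_toList (κ : ℝ) (s : Finset ℕ) : VV κ s.toList = ∏ p ∈ s, (1 - κ / (p : ℝ)) := by
  unfold VV
  exact Finset.prod_map_toList s _

theorem om_bridge {ι : Type*} (A : ℕ → ι → ℕ → Prop) (S : Finset ℕ) (i : ι) (m : ℕ) :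
    om A S.toList m i = G2.om A S i m := by
  classical
  have h : ∀ l : List ℕ, om A l m i = (l.map fun p => if A p i m then 1 else 0).sum := by
    intro l
    induction l with
    | nil => rfl
    | cons p l ih =>
      rw [List.map_cons, List.sum_cons, ← ih]
      show om A l m i + _ = _
      rw [add_comm]
  rw [h, Finset.sum_map_toList]
  unfold G2.om
  rw [Finset.card_filter]

/-- the list of the blocks -/
noncomputable def bls (l : ℕ) (blk : ℕ → Finset ℕ) (nn : ℕ → ℕ) (u : ℕ → ℝ) : List Blk :=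
  (List.range l).map fun j => ⟨(blk j).toList, nn j, u j⟩

theorem mem_bls {l : ℕ} {blk : ℕ → Finset ℕ} {nn : ℕ → ℕ} {u : ℕ → ℝ} {b : Blk}
    (h : b ∈ bls l blk nn u) : ∃ j < l, b = ⟨(blk j).toList, nn j, u j⟩ := by
  unfold bls at h
  rw [List.mem_map] at h
  obtain ⟨j, hj, rfl⟩ := h
  exact ⟨j, List.mem_range.1 hj, rfl⟩

theorem bQ_bls (l : ℕ) (blk : ℕ → Finset ℕ) (nn : ℕ → ℕ) (u : ℕ → ℝ) :
    bQ (bls l blk nn u) = ∏ j ∈ range l, ∏ p ∈ blk j, p := by
  unfold bQ bls
  rw [List.map_map]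
  have : ((fun b : Blk => b.l.prod) ∘ fun j => (⟨(blk j).toList, nn j, u j⟩ : Blk)) =
      fun j => ∏ p ∈ blk j, p := by
    funext j
    exact prod_toList _
  rw [this, prod_range_list]

theorem mem_bP_bls {l : ℕ} {blk : ℕ → Finset ℕ} {nn : ℕ → ℕ} {u : ℕ → ℝ} {p : ℕ} :
    p ∈ bP (bls l blk nn u) ↔ ∃ j < l, p ∈ blk j := by
  unfold bP bls
  rw [List.map_map, List.mem_flatten]
  constructor
  · rintro ⟨L, hL, hp⟩
    rw [List.mem_map] at hL
    obtain ⟨j, hj, rfl⟩ := hL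
    exact ⟨j, List.mem_range.1 hj, Finset.mem_toList.1 hp⟩
  · rintro ⟨j, hj, hp⟩
    exact ⟨(blk j).toList, List.mem_map.2 ⟨j, List.mem_range.2 hj, rfl⟩, Finset.mem_toList.2 hp⟩

theorem nodup_bP_bls {l : ℕ} {blk : ℕ → Finset ℕ} {nn : ℕ → ℕ} {u : ℕ → ℝ}
    (hdisj : ∀ i < l, ∀ j < l, i ≠ j → Disjoint (blk i) (blk j)) :
    (bP (bls l blk nn u)).Nodup := by
  unfold bP bls
  rw [List.map_map, List.nodup_flatten]
  constructor
  · intro L hL
    rw [List.mem_map] at hL
    obtain ⟨j, _, rfl⟩ := hL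
    exact (blk j).nodup_toList
  · rw [List.pairwise_map]
    have h1 : (List.range l).Pairwise (· < ·) := List.pairwise_lt_range
    refine h1.imp_of_mem ?_
    intro i j hi hj hij p hp1 hp2
    have h2 := hdisj i (List.mem_range.1 hi) j (List.mem_range.1 hj) (by omega)
    exact (Finset.disjoint_left.1 h2) (Finset.mem_toList.1 hp1) (Finset.mem_toList.1 hp2)

theorem Lam_bls {ι : Type*} (A : ℕ → ι → ℕ → Prop) (l : ℕ) (blk : ℕ → Finset ℕ) (nn : ℕ → ℕ)
    (u : ℕ → ℝ) (i : ι) (m : ℕ) : (Lam A (bls l blk nn u) i m : ℝ) =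
      ∏ j ∈ range l, (G2.lam (nn j) (G2.om A (blk j) i m) : ℝ) := by
  unfold Lam bls
  rw [List.map_map, prod_range_list]
  push_cast
  refine prod_congr rfl fun j _ => ?_
  show ((lam (nn j) (om A (blk j).toList m i) : ℤ) : ℝ) = _
  rw [om_bridge]
  rfl

end Pool.Agent.H.MP_711652_nt.G2.BE
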