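import Pool.Agent.H.MP_711652_nt.G2.BE3

/-!
# GAP3, BF1: the product formula for positions which may coincide modulo some primes

`ER r l f`: the average of `f (hits)` over independent uniform residues modulo the primes of the list `l`; the
position `i` is hit by `p` iff the residue is `r p i`.  `E1`: one position.
-/

set_option autoImplicit false

namespace Pool.Agent.H.MP_711652_nt.G2.BF

open Finset
open Pool.Agent.H.MP_711652_nt.G2.BE (VV rs Big VV_cons VV_nil rs_cons rs_nil rs_nonneg VV_ge VV_pos VV_le_exp)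

variable {ι : Type*}

/-- the positions hit by the residue `t` modulo `p` -/
def hit (r : ℕ → ι → ℕ) (p t : ℕ) : ι → ℕ := fun i => if r p i = t then 1 else 0

/-- average over independent residues -/
noncomputable def ER (r : ℕ → ι → ℕ) : List ℕ → ((ι → ℕ) → ℝ) → ℝ
  | [], f => f 0
  | p :: l, f => (∑ t ∈ range p, ER r l (fun w => f (w + hit r p t))) / p

/-- one position -/
noncomputable def E1 : List ℕ → (ℕ → ℝ) → ℕ → ℝ
  | [], g, d => g d
  | p :: l, g, d => (1 - 1 / (p : ℝ)) * E1 l g d + 1 / (p : ℝ) * E1 l g (d + 1)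

theorem ER_mono (r : ℕ → ι → ℕ) (l : List ℕ) {f g : (ι → ℕ) → ℝ} (h : ∀ w, f w ≤ g w) :
    ER r l f ≤ ER r l g := by
  induction l generalizing f g with
  | nil => exact h 0
  | cons p l ih =>
    rw [ER, ER]
    exact div_le_div_of_nonneg_right (sum_le_sum fun t _ => ih fun w => h _) (Nat.cast_nonneg _)

theorem ER_add (r : ℕ → ι → ℕ) (l : List ℕ) (f g : (ι → ℕ) → ℝ) :
    ER r l (fun w => f w + g w) = ER r l f + ER r l g := by
  induction l generalizing f g with
  | nil => rfl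
  | cons p l ih =>
    rw [ER, ER, ER, ← add_div, ← sum_add_distrib]
    congr 1
    exact sum_congr rfl fun t _ => ih _ _

theorem ER_mul (r : ℕ → ι → ℕ) (l : List ℕ) (c : ℝ) (f : (ι → ℕ) → ℝ) :
    ER r l (fun w => c * f w) = c * ER r l f := by
  induction l generalizing f with
  | nil => rfl
  | cons p l ih =>
    rw [ER, ER, ← mul_div_assoc, mul_sum]
    congr 1
    exact sum_congr rfl fun t _ => ih _

theorem ER_zero (r : ℕ → ι → ℕ) (l : List ℕ) : ER r l (fun _ => 0) = 0 := by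
  have := ER_mul r l 0 (fun _ => 0)
  simpa using this

theorem ER_nonneg (r : ℕ → ι → ℕ) (l : List ℕ) {f : (ι → ℕ) → ℝ} (h : ∀ w, 0 ≤ f w) :
    0 ≤ ER r l f := by
  rw [← ER_zero r l]
  exact ER_mono r l h

theorem ER_sum {β : Type*} (r : ℕ → ι → ℕ) (l : List ℕ) (T : Finset β) (f : β → (ι → ℕ) → ℝ) :
    ER r l (fun w => ∑ b ∈ T, f b w) = ∑ b ∈ T, ER r l (f b) := by
  classical
  induction T using Finset.induction_on with
  | empty => simp only [sum_empty]; exact ER_zero r l
  | insert b T hb ih =>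
    rw [sum_insert hb, ← ih, ← ER_add]
    congr 1
    funext w
    rw [sum_insert hb]

/-! ### one position -/

section one

variable {l : List ℕ}

theorem Big.one_div {p : ℕ} (h : Big 1 (p :: l)) : 0 ≤ 1 / (p : ℝ) ∧ 0 < 1 - 1 / (p : ℝ) := by
  have h1 := h.div
  push_cast at h1
  refine ⟨by positivity, by linarith⟩

theorem E1_mono (hl : Big 1 l) {f g : ℕ → ℝ} (h : ∀ w, f w ≤ g w) (d : ℕ) : E1 l f d ≤ E1 l g d := by
  induction l generalizing d with
  | nil => exact h d
  | cons p l ih =>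
    rw [E1, E1]
    obtain ⟨h1, h2⟩ := Big.one_div hl
    exact add_le_add (mul_le_mul_of_nonneg_left (ih hl.cons d) h2.le)
      (mul_le_mul_of_nonneg_left (ih hl.cons (d + 1)) h1)

theorem E1_mul (c : ℝ) (f : ℕ → ℝ) (l : List ℕ) (d : ℕ) : E1 l (fun w => c * f w) d = c * E1 l f d := by
  induction l generalizing d with
  | nil => rfl
  | cons p l ih =>
    rw [E1, E1, ih, ih]
    ring

theorem E1_add (f g : ℕ → ℝ) (l : List ℕ) (d : ℕ) :
    E1 l (fun w => f w + g w) d = E1 l f d + E1 l g d := by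
  induction l generalizing d with
  | nil => rfl
  | cons p l ih =>
    rw [E1, E1, E1, ih, ih]
    ring

theorem E1_nonneg (hl : Big 1 l) {g : ℕ → ℝ} (h : ∀ w, 0 ≤ g w) (d : ℕ) : 0 ≤ E1 l g d := by
  induction l generalizing d with
  | nil => exact h d
  | cons p l ih =>
    rw [E1]
    obtain ⟨h1, h2⟩ := Big.one_div hl
    exact add_nonneg (mul_nonneg h2.le (ih hl.cons d)) (mul_nonneg h1 (ih hl.cons (d + 1)))

theorem E1_pos (hl : Big 1 l) {g : ℕ → ℝ} (h : ∀ w, 0 < g w) (d : ℕ) : 0 < E1 l g d := by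
  induction l generalizing d with
  | nil => exact h d
  | cons p l ih =>
    rw [E1]
    obtain ⟨h1, h2⟩ := Big.one_div hl
    exact add_pos_of_pos_of_nonneg (mul_pos h2 (ih hl.cons d)) (mul_nonneg h1 (ih hl.cons (d + 1)).le)

theorem E1_ratio (hl : Big 1 l) {g : ℕ → ℝ} {Q : ℝ} (h : ∀ w, g (w + 1) ≤ Q * g w) (d : ℕ) :
    E1 l g (d + 1) ≤ Q * E1 l g d := by
  induction l generalizing d with
  | nil => exact h d
  | cons p l ih =>
    rw [E1, E1]
    obtain ⟨h1, h2⟩ := Big.one_div hl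
    have h3 := mul_le_mul_of_nonneg_left (ih hl.cons d) h2.le
    have h4 := mul_le_mul_of_nonneg_left (ih hl.cons (d + 1)) h1
    linarith

theorem E1_pow (c : ℝ) (l : List ℕ) (d : ℕ) : E1 l (fun w => c ^ w) d = c ^ d * VV (-(c - 1)) l := by
  induction l generalizing d with
  | nil => rw [E1, VV_nil, mul_one]
  | cons p l ih =>
    rw [E1, ih, ih, VV_cons, pow_succ]
    ring

theorem E1_ge (hl : Big 1 l) {g : ℕ → ℝ} (h : ∀ w, 0 ≤ g w) (d : ℕ) : g d * VV 1 l ≤ E1 l g d := by
  induction l generalizing d with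
  | nil => rw [E1, VV_nil, mul_one]
  | cons p l ih =>
    rw [E1, VV_cons]
    obtain ⟨h1, h2⟩ := Big.one_div hl
    have h3 := mul_le_mul_of_nonneg_left (ih hl.cons d) h2.le
    have h4 := mul_nonneg h1 (E1_nonneg hl.cons h (d + 1))
    linarith

end one

/-! ### one prime -/

/-- `∏ (1 + y_i / p) - 1` -/
theorem prod_sub_one [DecidableEq ι] {S : Finset ι} {y : ι → ℝ} {Q p N : ℝ} (hp : 0 < p) (hQ : 0 ≤ Q)
    (hy : ∀ i ∈ S, |y i| ≤ Q) (hN : (S.card : ℝ) ≤ N) (hNQ : 4 * (N * Q) ≤ p) :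
    |∏ i ∈ S, (1 + y i / p) - 1| ≤ 2 * (N * Q / p) := by
  obtain ⟨q, hq⟩ : ∃ q, q = Q / p := ⟨_, rfl⟩
  have hq0 : 0 ≤ q := by rw [hq]; positivity
  have hN0 : 0 ≤ N := (Nat.cast_nonneg _).trans hN
  have hNq : N * q ≤ 1 / 4 := by
    rw [hq, mul_div_assoc', div_le_iff₀ hp]
    linarith
  have e0 : N * Q / p = N * q := by rw [hq]; ring
  rw [e0]
  have key : ∀ T : Finset ι, T ⊆ S → |∏ i ∈ T, (1 + y i / p) - 1| ≤ (1 + q) ^ T.card - 1 := by
    intro T
    induction T using Finset.induction_on with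
    | empty => intro _; simp
    | insert i T hi ih =>
      intro hT
      have hTS : T ⊆ S := (subset_insert i T).trans hT
      have h1 := ih hTS
      have hiS : i ∈ S := hT (mem_insert_self i T)
      rw [prod_insert hi, card_insert_of_notMem hi, pow_succ]
      obtain ⟨x, hx⟩ : ∃ x, x = ∏ j ∈ T, (1 + y j / p) := ⟨_, rfl⟩
      rw [← hx] at h1 ⊢
      obtain ⟨z, hz⟩ : ∃ z, z = (1 + q) ^ T.card := ⟨_, rfl⟩
      rw [← hz] at h1 ⊢
      have h2 : |y i / p| ≤ q := by
        rw [abs_div, abs_of_pos hp, hq]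
        exact div_le_div_of_nonneg_right (hy i hiS) hp.le
      have e : (1 + y i / p) * x - 1 = (x - 1) + y i / p * (x - 1) + y i / p := by ring
      rw [e]
      have h3 : |y i / p * (x - 1)| ≤ q * (z - 1) := by
        rw [abs_mul]
        exact mul_le_mul h2 h1 (abs_nonneg _) hq0
      calc |(x - 1) + y i / p * (x - 1) + y i / p| ≤ |x - 1| + |y i / p * (x - 1)| + |y i / p| :=
            abs_add_three _ _ _
        _ ≤ (z - 1) + q * (z - 1) + q := by linarith
        _ = z * (1 + q) - 1 := by ring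
  refine (key S (Subset.refl S)).trans ?_
  have h1 : (1 + q) ^ S.card ≤ Real.exp (N * q) := by
    calc (1 + q) ^ S.card ≤ Real.exp q ^ S.card := by
          apply pow_le_pow_left₀ (by linarith)
          have := Real.add_one_le_exp q
          linarith
      _ = Real.exp (S.card * q) := (Real.exp_nat_mul q S.card).symm
      _ ≤ Real.exp (N * q) := Real.exp_le_exp.2 (mul_le_mul_of_nonneg_right hN hq0)
  have h2 := Real.abs_exp_sub_one_le (x := N * q) (by
    rw [abs_of_nonneg (mul_nonneg hN0 hq0)]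
    linarith)
  rw [abs_of_nonneg (mul_nonneg hN0 hq0)] at h2
  have h3 := le_abs_self (Real.exp (N * q) - 1)
  linarith

theorem prod_coinc {S : Finset ι} {y : ι → ℝ} {Q : ℝ} (hy : ∀ i ∈ S, |y i| ≤ Q) (hc : S.card ≤ 1) :
    |∏ i ∈ S, (1 + y i) - 1| ≤ Q * S.card := by
  rcases Nat.le_one_iff_eq_zero_or_eq_one.1 hc with h | h
  · rw [card_eq_zero.1 h]
    simp
  · obtain ⟨a, ha⟩ := card_eq_one.1 h
    rw [ha, prod_singleton, card_singleton]
    have := hy a (by rw [ha]; exact mem_singleton_self a)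
    push_cast
    rw [mul_one]
    have e : 1 + y a - 1 = y a := by ring
    rw [e]
    exact this

/-- the number of the ordered pairs which coincide -/
noncomputable def kap [DecidableEq ι] (S : Finset ι) (ρ : ι → ℕ) : ℝ :=
  ∑ i ∈ S, ∑ j ∈ S, if i ≠ j ∧ ρ i = ρ j then 1 else 0

theorem kap_nonneg [DecidableEq ι] (S : Finset ι) (ρ : ι → ℕ) : 0 ≤ kap S ρ :=
  sum_nonneg fun _ _ => sum_nonneg fun _ _ => by split_ifs <;> norm_num

theorem kap_insert [DecidableEq ι] {T : Finset ι} {a : ι} (ha : a ∉ T) (ρ : ι → ℕ) :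
    kap T ρ + ((T.filter (fun j => ρ j = ρ a)).card : ℝ) ≤ kap (insert a T) ρ := by
  unfold kap
  rw [sum_insert ha]
  have h1 : ∑ i ∈ T, ∑ j ∈ T, (if i ≠ j ∧ ρ i = ρ j then (1 : ℝ) else 0) ≤
      ∑ i ∈ T, ∑ j ∈ insert a T, (if i ≠ j ∧ ρ i = ρ j then (1 : ℝ) else 0) := by
    refine sum_le_sum fun i _ => ?_
    refine sum_le_sum_of_subset_of_nonneg (subset_insert a T) fun _ _ _ => ?_
    split_ifs <;> norm_num
  have h2 : ((T.filter (fun j => ρ j = ρ a)).card : ℝ) ≤
      ∑ j ∈ insert a T, (if a ≠ j ∧ ρ a = ρ j then (1 : ℝ) else 0) := by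
    rw [card_filter]
    push_cast
    rw [sum_insert ha]
    have h3 : ∑ j ∈ T, (if ρ j = ρ a then (1 : ℝ) else 0) ≤
        ∑ j ∈ T, (if a ≠ j ∧ ρ a = ρ j then (1 : ℝ) else 0) := by
      refine sum_le_sum fun j hj => ?_
      have hja : a ≠ j := fun h => ha (h ▸ hj)
      by_cases h4 : ρ j = ρ a
      · rw [if_pos h4, if_pos ⟨hja, h4.symm⟩]
      · rw [if_neg h4]
        split_ifs <;> norm_num
    have h4 : (0 : ℝ) ≤ if a ≠ a ∧ ρ a = ρ a then (1 : ℝ) else 0 := by split_ifs <;> norm_num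
    linarith
  linarith

theorem one_prime [DecidableEq ι] {S : Finset ι} {ρ : ι → ℕ} {p : ℕ} (hp : 0 < p) (hρ : ∀ i ∈ S, ρ i < p)
    {y : ι → ℝ} {Q N : ℝ} (hQ : 0 ≤ Q) (hy : ∀ i ∈ S, |y i| ≤ Q) (hN : (S.card : ℝ) ≤ N)
    (hNQ : 4 * (N * Q) ≤ p) (hcl : ∀ i ∈ S, (S.filter (fun j => j ≠ i ∧ ρ j = ρ i)).card ≤ 1) :
    |(∑ t ∈ range p, ∏ i ∈ S, (1 + if ρ i = t then y i else 0)) / p - ∏ i ∈ S, (1 + y i / p)| ≤
      Q ^ 2 / p * kap S ρ + 2 * N * S.card * Q ^ 2 / p ^ 2 := by
  have hp' : (0 : ℝ) < p := by exact_mod_cast hp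
  have hN0 : 0 ≤ N := (Nat.cast_nonneg _).trans hN
  have key : ∀ T : Finset ι, T ⊆ S →
      |(∑ t ∈ range p, ∏ i ∈ T, (1 + if ρ i = t then y i else 0)) / p - ∏ i ∈ T, (1 + y i / p)| ≤
      Q ^ 2 / p * kap T ρ + 2 * N * T.card * Q ^ 2 / p ^ 2 := by
    intro T
    induction T using Finset.induction_on with
    | empty =>
      intro _
      simp only [prod_empty, sum_const, card_range, nsmul_eq_mul, mul_one, card_empty, Nat.cast_zero,
        mul_zero, zero_mul, zero_div, add_zero]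
      rw [div_self hp'.ne', sub_self, abs_zero]
      exact mul_nonneg (by positivity) (kap_nonneg _ _)
    | insert a T ha ih =>
      intro hT
      have hTS : T ⊆ S := (subset_insert a T).trans hT
      have haS : a ∈ S := hT (mem_insert_self a T)
      have h1 := ih hTS
      obtain ⟨J, hJ⟩ : ∃ J, J = (∑ t ∈ range p, ∏ i ∈ T, (1 + if ρ i = t then y i else 0)) / p := ⟨_, rfl⟩
      obtain ⟨V, hV⟩ : ∃ V, V = ∏ i ∈ T, (1 + y i / p) := ⟨_, rfl⟩
      obtain ⟨c, hc⟩ : ∃ c, c = ∏ i ∈ T.filter (fun j => ρ j = ρ a), (1 + y i) := ⟨_, rfl⟩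
      rw [← hJ, ← hV] at h1
      have e1 : (∑ t ∈ range p, ∏ i ∈ insert a T, (1 + if ρ i = t then y i else 0)) / p =
          J + y a / p * c := by
        have h2 : ∀ t ∈ range p, ∏ i ∈ insert a T, (1 + if ρ i = t then y i else 0) =
            ∏ i ∈ T, (1 + if ρ i = t then y i else 0) +
            (if ρ a = t then y a * ∏ i ∈ T, (1 + if ρ i = t then y i else 0) else 0) := by
          intro t _
          rw [prod_insert ha]
          split_ifs <;> ring
        rw [sum_congr rfl h2, sum_add_distrib, sum_ite_eq, if_pos (mem_range.2 (hρ a haS)), add_div, hJ, hc,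
          prod_filter]
        congr 1
        have h3 : ∏ i ∈ T, (1 + if ρ i = ρ a then y i else 0) =
            ∏ i ∈ T, (if ρ i = ρ a then 1 + y i else 1) := by
          refine prod_congr rfl fun i _ => ?_
          split_ifs <;> ring
        rw [h3]
        ring
      have e2 : ∏ i ∈ insert a T, (1 + y i / p) = V + y a / p * V := by
        rw [prod_insert ha, ← hV]
        ring
      have h2 : |c - 1| ≤ Q * (T.filter (fun j => ρ j = ρ a)).card := by
        rw [hc]
        apply prod_coinc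
        · intro i hi
          exact hy i (hTS (mem_filter.1 hi).1)
        · refine le_trans (card_le_card ?_) (hcl a haS)
          intro j hj
          rw [mem_filter] at hj ⊢
          exact ⟨hTS hj.1, fun e => ha (e ▸ hj.1), hj.2⟩
      have h3 : |V - 1| ≤ 2 * (N * Q / p) := by
        rw [hV]
        refine prod_sub_one hp' hQ (fun i hi => hy i (hTS hi)) (le_trans ?_ hN) hNQ
        exact_mod_cast card_le_card hTS
      have h4 : |y a / p| ≤ Q / p := by
        rw [abs_div, abs_of_pos hp']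
        exact div_le_div_of_nonneg_right (hy a haS) hp'.le
      have h5 := kap_insert ha ρ
      rw [e1, e2, card_insert_of_notMem ha]
      obtain ⟨k, hk⟩ : ∃ k : ℝ, k = (T.filter (fun j => ρ j = ρ a)).card := ⟨_, rfl⟩
      rw [← hk] at h2 h5
      have e3 : J + y a / p * c - (V + y a / p * V) = (J - V) + y a / p * ((c - 1) - (V - 1)) := by ring
      rw [e3]
      have h6 : |(c - 1) - (V - 1)| ≤ Q * k + 2 * (N * Q / p) := by
        have := abs_sub (c - 1) (V - 1)
        linarith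
      have h7 : |y a / p * ((c - 1) - (V - 1))| ≤ Q / p * (Q * k + 2 * (N * Q / p)) := by
        rw [abs_mul]
        exact mul_le_mul h4 h6 (abs_nonneg _) (by positivity)
      have h8 : Q ^ 2 / p * (kap T ρ + k) ≤ Q ^ 2 / p * kap (insert a T) ρ :=
        mul_le_mul_of_nonneg_left h5 (by positivity)
      have e4 : Q / p * (Q * k + 2 * (N * Q / p)) = Q ^ 2 / p * k + 2 * N * Q ^ 2 / p ^ 2 := by
        field_simp
      push_cast
      calc |(J - V) + y a / p * ((c - 1) - (V - 1))| ≤ |J - V| + |y a / p * ((c - 1) - (V - 1))| :=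
            abs_add_le _ _
        _ ≤ (Q ^ 2 / p * kap T ρ + 2 * N * T.card * Q ^ 2 / p ^ 2) +
            (Q ^ 2 / p * k + 2 * N * Q ^ 2 / p ^ 2) := by
            rw [← e4]
            exact add_le_add h1 h7
        _ = Q ^ 2 / p * (kap T ρ + k) + 2 * N * (T.card + 1) * Q ^ 2 / p ^ 2 := by ring
        _ ≤ _ := by linarith
  exact key S (Subset.refl S)

/-! ### the product formula -/

/-- a product over positions -/
def PF (S : Finset ι) (g : ι → ℕ → ℝ) (d : ι → ℕ) (w : ι → ℕ) : ℝ := ∏ i ∈ S, g i (d i + w i)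

theorem PF_shift (S : Finset ι) (g : ι → ℕ → ℝ) (d w h : ι → ℕ) :
    PF S g d (w + h) = PF S g (d + h) w := by
  unfold PF
  refine prod_congr rfl fun i _ => ?_
  rw [Pi.add_apply, Pi.add_apply]
  congr 1
  omega

/-- the error at one prime -/
noncomputable def tau [DecidableEq ι] (S : Finset ι) (r : ℕ → ι → ℕ) (Q N : ℝ) (p : ℕ) : ℝ :=
  2 * (Q ^ 2 / p * kap S (r p) + 2 * N * S.card * Q ^ 2 / p ^ 2)

theorem tau_nonneg [DecidableEq ι] (S : Finset ι) (r : ℕ → ι → ℕ) {Q N : ℝ} (hN : 0 ≤ N) (p : ℕ) :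
    0 ≤ tau S r Q N p := by
  unfold tau
  have := kap_nonneg S (r p)
  positivity

/-- **The product formula.** -/
theorem prod_formula [DecidableEq ι] {S : Finset ι} {r : ℕ → ι → ℕ} {l : List ℕ} (hl : Big 1 l)
    (hr : ∀ p ∈ l, ∀ i ∈ S, r p i < p) {Q N : ℝ} (hQ : 1 ≤ Q) (hN : (S.card : ℝ) ≤ N)
    (hNQ : ∀ p ∈ l, 4 * (N * Q) ≤ (p : ℝ))
    (hcl : ∀ p ∈ l, ∀ i ∈ S, (S.filter (fun j => j ≠ i ∧ r p j = r p i)).card ≤ 1)
    {g : ι → ℕ → ℝ} (hg : ∀ i w, 0 < g i w) (hgQ : ∀ i w, g i (w + 1) ≤ Q * g i w) (d : ι → ℕ) :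
    |ER r l (PF S g d) - ∏ i ∈ S, E1 l (g i) (d i)| ≤
      ((l.map fun p => 1 + tau S r Q N p).prod - 1) * ∏ i ∈ S, E1 l (g i) (d i) := by
  have hN0 : 0 ≤ N := (Nat.cast_nonneg _).trans hN
  induction l generalizing d with
  | nil =>
    simp only [List.map_nil, List.prod_nil, sub_self, zero_mul]
    have : ER r [] (PF S g d) = ∏ i ∈ S, E1 [] (g i) (d i) := by
      show PF S g d 0 = _
      unfold PF
      exact prod_congr rfl fun i _ => rfl
    rw [this, sub_self, abs_zero]
  | cons p l ih =>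
    have ih' := ih hl.cons (fun q hq => hr q (List.mem_cons_of_mem _ hq))
      (fun q hq => hNQ q (List.mem_cons_of_mem _ hq)) (fun q hq => hcl q (List.mem_cons_of_mem _ hq))
    have hp1 : 0 < p := (hl p List.mem_cons_self).1
    have hp : (0 : ℝ) < p := by exact_mod_cast hp1
    have hQ0 : 0 ≤ Q := by linarith
    obtain ⟨T, hT⟩ : ∃ T, T = (l.map fun p => 1 + tau S r Q N p).prod := ⟨_, rfl⟩
    have hT1 : 1 ≤ T := by
      rw [hT]
      have : ∀ l : List ℕ, 1 ≤ (l.map fun p => 1 + tau S r Q N p).prod := by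
        intro l
        induction l with
        | nil => simp
        | cons q l ih =>
          rw [List.map_cons, List.prod_cons]
          have := tau_nonneg S r (Q := Q) hN0 q
          nlinarith
      exact this l
    obtain ⟨a, ha⟩ : ∃ a : ι → ℝ, a = fun i => E1 l (g i) (d i) := ⟨_, rfl⟩
    obtain ⟨b, hb⟩ : ∃ b : ι → ℝ, b = fun i => E1 l (g i) (d i + 1) := ⟨_, rfl⟩
    obtain ⟨y, hy⟩ : ∃ y : ι → ℝ, y = fun i => b i / a i - 1 := ⟨_, rfl⟩
    have ha0 : ∀ i, 0 < a i := fun i => by rw [ha]; exact E1_pos hl.cons (hg i) _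
    have hb0 : ∀ i, 0 < b i := fun i => by rw [hb]; exact E1_pos hl.cons (hg i) _
    have hba : ∀ i, b i ≤ Q * a i := fun i => by
      rw [hb, ha]
      exact E1_ratio hl.cons (hgQ i) _
    have hyQ : ∀ i, |y i| ≤ Q := by
      intro i
      have h1 : b i / a i ≤ Q := by
        rw [div_le_iff₀ (ha0 i)]
        exact hba i
      have h2 : 0 < b i / a i := div_pos (hb0 i) (ha0 i)
      rw [hy, abs_le]
      constructor <;> linarith
    have hay : ∀ i, a i * (1 + y i) = b i := by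
      intro i
      have := (ha0 i).ne'
      rw [hy]
      field_simp
      ring
    obtain ⟨Aa, hAa⟩ : ∃ Aa, Aa = ∏ i ∈ S, a i := ⟨_, rfl⟩
    have hAa0 : 0 < Aa := by
      rw [hAa]
      exact prod_pos fun i _ => ha0 i
    obtain ⟨Vt, hVt⟩ : ∃ Vt : ℕ → ℝ, Vt = fun t => ∏ i ∈ S, E1 l (g i) ((d + hit r p t) i) := ⟨_, rfl⟩
    have e1 : ∀ t, Vt t = Aa * ∏ i ∈ S, (1 + if r p i = t then y i else 0) := by
      intro t
      rw [hVt, hAa, ← prod_mul_distrib]
      refine prod_congr rfl fun i _ => ?_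
      simp only [Pi.add_apply, hit]
      split_ifs
      · rw [hay i, hb]
      · rw [ha, add_zero, add_zero, mul_one]
    have e2 : ∏ i ∈ S, E1 (p :: l) (g i) (d i) = Aa * ∏ i ∈ S, (1 + y i / p) := by
      rw [hAa, ← prod_mul_distrib]
      refine prod_congr rfl fun i _ => ?_
      rw [E1]
      have h1 : E1 l (g i) (d i) = a i := by rw [ha]
      have h2 : E1 l (g i) (d i + 1) = b i := by rw [hb]
      rw [h1, h2, ← hay i]
      field_simp
      ring
    obtain ⟨J, hJ⟩ : ∃ J, J = (∑ t ∈ range p, ∏ i ∈ S, (1 + if r p i = t then y i else 0)) / p := ⟨_, rfl⟩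
    obtain ⟨V, hV⟩ : ∃ V, V = ∏ i ∈ S, (1 + y i / p) := ⟨_, rfl⟩
    have h1 : |J - V| ≤ Q ^ 2 / p * kap S (r p) + 2 * N * S.card * Q ^ 2 / p ^ 2 := by
      rw [hJ, hV]
      exact one_prime hp1 (hr p List.mem_cons_self) hQ0 (fun i _ => hyQ i) hN
        (hNQ p List.mem_cons_self) (hcl p List.mem_cons_self)
    have h2 : 1 / 2 ≤ V := by
      have h3 := prod_sub_one (S := S) hp hQ0 (fun i _ => hyQ i) hN (hNQ p List.mem_cons_self)
      rw [← hV] at h3
      have h4 : N * Q / p ≤ 1 / 4 := by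
        rw [div_le_iff₀ hp]
        have := hNQ p List.mem_cons_self
        linarith
      have h5 := neg_abs_le (V - 1)
      linarith
    have hτ0 := tau_nonneg S r (Q := Q) hN0 p
    have h3 : |J - V| ≤ tau S r Q N p * V := by
      have : tau S r Q N p * (1 / 2) ≤ tau S r Q N p * V := mul_le_mul_of_nonneg_left h2 hτ0
      have e : tau S r Q N p * (1 / 2) = Q ^ 2 / p * kap S (r p) + 2 * N * S.card * Q ^ 2 / p ^ 2 := by
        unfold tau
        ring
      linarith
    -- the average over the residue of `p`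
    have h4 : |ER r (p :: l) (PF S g d) - Aa * J| ≤ (T - 1) * (Aa * J) := by
      have e3 : ER r (p :: l) (PF S g d) = (∑ t ∈ range p, ER r l (PF S g (d + hit r p t))) / p := by
        rw [ER]
        congr 1
        refine sum_congr rfl fun t _ => ?_
        congr 1
        funext w
        exact PF_shift S g d w _
      have e4 : Aa * J = (∑ t ∈ range p, Vt t) / p := by
        rw [hJ, mul_div_assoc', mul_sum]
        congr 1
        exact sum_congr rfl fun t _ => (e1 t).symm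
      rw [e3, e4, ← sub_div, ← sum_sub_distrib, abs_div, abs_of_pos hp, mul_div_assoc', mul_sum]
      apply div_le_div_of_nonneg_right _ hp.le
      refine (abs_sum_le_sum_abs _ _).trans (sum_le_sum fun t _ => ?_)
      have := ih' (d + hit r p t)
      rw [hVt, hT]
      exact this
    have e5 : ∏ i ∈ S, E1 (p :: l) (g i) (d i) = Aa * V := by rw [e2, hV]
    rw [e5, List.map_cons, List.prod_cons, ← hT]
    have h5 : |Aa * J - Aa * V| ≤ tau S r Q N p * (Aa * V) := by
      rw [← mul_sub, abs_mul, abs_of_pos hAa0]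
      calc Aa * |J - V| ≤ Aa * (tau S r Q N p * V) := mul_le_mul_of_nonneg_left h3 hAa0.le
        _ = _ := by ring
    have h6 : Aa * J ≤ (1 + tau S r Q N p) * (Aa * V) := by
      have := le_abs_self (Aa * J - Aa * V)
      linarith
    have h7 : (T - 1) * (Aa * J) ≤ (T - 1) * ((1 + tau S r Q N p) * (Aa * V)) :=
      mul_le_mul_of_nonneg_left h6 (by linarith)
    have h8 := abs_add_le (ER r (p :: l) (PF S g d) - Aa * J) (Aa * J - Aa * V)
    rw [show ER r (p :: l) (PF S g d) - Aa * J + (Aa * J - Aa * V) =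
      ER r (p :: l) (PF S g d) - Aa * V by ring] at h8
    have e6 : ((1 + tau S r Q N p) * T - 1) * (Aa * V) =
        (T - 1) * ((1 + tau S r Q N p) * (Aa * V)) + tau S r Q N p * (Aa * V) := by ring
    rw [e6]
    linarith

end Pool.Agent.H.MP_711652_nt.G2.BF
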