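import Pool.Agent.H.MP_711652_nt.G2.BF1

/-!
# GAP3, BF2: one block, two-sided bounds
-/

set_option autoImplicit false

namespace Pool.Agent.H.MP_711652_nt.G2.BF

open Finset
open Pool.Agent.H.MP_711652_nt.G2.BE (VV rs Big VV_cons VV_nil rs_cons rs_nil rs_nonneg VV_ge VV_pos VV_le_exp
  Wt wp)

variable {ι : Type*} [DecidableEq ι]

/-- The hypotheses on a block: `N` = bound for the number of the positions, `h` = bound for the number of the
primes at which two given positions coincide. -/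
structure OKb (r : ℕ → ι → ℕ) (N h G : ℝ) (l : List ℕ) : Prop where
  big : Big 1 l
  rs1 : rs l ≤ 1
  N1 : 1 ≤ N
  h0 : 0 ≤ h
  gG : 48 * Real.exp 17 * (N * (h + 1)) ≤ G
  ge : ∀ p ∈ l, G ^ 8 ≤ (p : ℝ)
  lt : ∀ p ∈ l, ∀ i, r p i < p
  cl : ∀ p ∈ l, ∀ i j k, i ≠ j → i ≠ k → j ≠ k → r p j = r p i → r p k ≠ r p i
  kp : ∀ S : Finset ι, (S.card : ℝ) ≤ N → (l.map fun p => kap S (r p)).sum ≤ N ^ 2 * h

/-- the error of a block -/
noncomputable def del (N G : ℝ) : ℝ := N * Real.exp 17 / G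

theorem exp17 : (2 : ℝ) ^ 17 ≤ Real.exp 17 := by
  have h1 : Real.exp 17 = Real.exp 1 ^ 17 := by
    rw [← Real.exp_nat_mul]
    norm_num
  rw [h1]
  apply pow_le_pow_left₀ (by norm_num)
  have := Real.add_one_le_exp (1 : ℝ)
  linarith

section consts

variable {r : ℕ → ι → ℕ} {N h G : ℝ} {l : List ℕ}

theorem OKb.one_le_G (H : OKb r N h G l) : 1 ≤ G := by
  have h1 := H.gG
  have h2 := exp17
  have h3 : 1 ≤ N * (h + 1) := by
    have := H.N1
    have := H.h0
    nlinarith
  nlinarith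

theorem OKb.del_le (H : OKb r N h G l) : del N G ≤ 1 / 48 := by
  have hG := H.one_le_G
  unfold del
  rw [div_le_div_iff₀ (by linarith) (by norm_num)]
  have h1 := H.gG
  have h2 := Real.exp_pos 17
  have h3 : N ≤ N * (h + 1) := by
    have := H.N1
    have := H.h0
    nlinarith
  have h4 := mul_le_mul_of_nonneg_left h3 h2.le
  linarith

theorem OKb.del_nonneg (H : OKb r N h G l) : 0 ≤ del N G := by
  have hG := H.one_le_G
  have := H.N1
  have h2 := Real.exp_pos 17
  unfold del
  positivity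

end consts

theorem prod_one_add_le_exp {l : List ℕ} {t : ℕ → ℝ} (ht : ∀ p ∈ l, 0 ≤ t p) :
    (l.map fun p => 1 + t p).prod ≤ Real.exp (l.map t).sum := by
  induction l with
  | nil => simp
  | cons p l ih =>
    rw [List.map_cons, List.prod_cons, List.map_cons, List.sum_cons, Real.exp_add]
    have h1 := ht p List.mem_cons_self
    have h2 := Real.add_one_le_exp (t p)
    have h3 : 0 ≤ (l.map fun p => 1 + t p).prod := by
      apply List.prod_nonneg
      intro x hx
      rw [List.mem_map] at hx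
      obtain ⟨q, hq, rfl⟩ := hx
      have := ht q (List.mem_cons_of_mem _ hq)
      linarith
    exact mul_le_mul (by linarith) (ih fun q hq => ht q (List.mem_cons_of_mem _ hq)) h3 (Real.exp_pos _).le

theorem sum_tau_le {S : Finset ι} {r : ℕ → ι → ℕ} {N Q u : ℝ} (hN : (S.card : ℝ) ≤ N) (hu : 0 < u)
    (l : List ℕ) (hl : ∀ p ∈ l, u ≤ (p : ℝ)) :
    (l.map fun p => tau S r Q N p).sum ≤
      2 * Q ^ 2 / u * (l.map fun p => kap S (r p)).sum + 4 * N ^ 2 * Q ^ 2 / u * rs l := by
  have hN0 : 0 ≤ N := (Nat.cast_nonneg _).trans hN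
  induction l with
  | nil => simp [rs_nil]
  | cons p l ih =>
    have h1 := ih fun q hq => hl q (List.mem_cons_of_mem _ hq)
    have h2 := hl p List.mem_cons_self
    have hp : (0 : ℝ) < p := by linarith
    rw [List.map_cons, List.sum_cons, List.map_cons, List.sum_cons, rs_cons]
    have h3 : tau S r Q N p ≤ 2 * Q ^ 2 / u * kap S (r p) + 4 * N ^ 2 * Q ^ 2 / u * (1 / p) := by
      unfold tau
      have h4 : Q ^ 2 / p * kap S (r p) ≤ Q ^ 2 / u * kap S (r p) :=
        mul_le_mul_of_nonneg_right (div_le_div_of_nonneg_left (by positivity) hu h2) (kap_nonneg _ _)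
      have h5 : 2 * N * S.card * Q ^ 2 / p ^ 2 ≤ 2 * N ^ 2 * Q ^ 2 / u * (1 / p) := by
        have e : 2 * N ^ 2 * Q ^ 2 / u * (1 / p) = 2 * N * N * Q ^ 2 / (u * p) := by
          field_simp
        rw [e]
        apply div_le_div₀ (by positivity) _ (by positivity)
        · rw [pow_two (p : ℝ)]
          exact mul_le_mul_of_nonneg_right h2 hp.le
        · gcongr
      have e : 2 * (Q ^ 2 / u * kap S (r p) + 2 * N ^ 2 * Q ^ 2 / u * (1 / p)) =
          2 * Q ^ 2 / u * kap S (r p) + 4 * N ^ 2 * Q ^ 2 / u * (1 / p) := by ring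
      rw [← e]
      linarith
    linarith

section block

variable {r : ℕ → ι → ℕ} {N h G : ℝ} {l : List ℕ}

theorem OKb.T_le (H : OKb r N h G l) {S : Finset ι} (hS : (S.card : ℝ) ≤ N) :
    (l.map fun p => 1 + tau S r (32 * G) N p).prod ≤ 1 + del N G := by
  have hG := H.one_le_G
  have hN := H.N1
  have hN0 : 0 ≤ N := by linarith
  have hG0 : 0 < G := by linarith
  have hh := H.h0
  have h1 := sum_tau_le (r := r) (Q := 32 * G) hS (u := G ^ 8) (by positivity) l H.ge
  have h2 := H.kp S hS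
  have h3 := H.rs1
  have h17 := exp17
  have hGN : 4096 * (N * (h + 1)) ≤ G := by
    refine le_trans ?_ H.gG
    apply mul_le_mul_of_nonneg_right _ (by positivity)
    linarith
  have h4 : (l.map fun p => tau S r (32 * G) N p).sum ≤ N / G := by
    have h5 : 2 * (32 * G) ^ 2 / G ^ 8 * (l.map fun p => kap S (r p)).sum ≤
        2 * (32 * G) ^ 2 / G ^ 8 * (N ^ 2 * h) := mul_le_mul_of_nonneg_left h2 (by positivity)
    have h6 : 4 * N ^ 2 * (32 * G) ^ 2 / G ^ 8 * rs l ≤ 4 * N ^ 2 * (32 * G) ^ 2 / G ^ 8 * 1 :=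
      mul_le_mul_of_nonneg_left h3 (by positivity)
    have h7 : 2 * (32 * G) ^ 2 / G ^ 8 * (N ^ 2 * h) + 4 * N ^ 2 * (32 * G) ^ 2 / G ^ 8 * 1 ≤ N / G := by
      have e : 2 * (32 * G) ^ 2 / G ^ 8 * (N ^ 2 * h) + 4 * N ^ 2 * (32 * G) ^ 2 / G ^ 8 * 1 =
          (2048 * (N ^ 2 * h) + 4096 * N ^ 2) / G ^ 6 := by
        field_simp
        ring
      rw [e, div_le_div_iff₀ (by positivity) hG0]
      have h8 : 2048 * (N ^ 2 * h) + 4096 * N ^ 2 ≤ N * G := by
        have h9 := mul_le_mul_of_nonneg_left hGN hN0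
        have h10 : 0 ≤ N ^ 2 * h := by positivity
        nlinarith
      have h9 : G ^ 2 ≤ G ^ 6 := pow_le_pow_right₀ hG (by norm_num)
      calc (2048 * (N ^ 2 * h) + 4096 * N ^ 2) * G ≤ (N * G) * G := mul_le_mul_of_nonneg_right h8 hG0.le
        _ = N * G ^ 2 := by ring
        _ ≤ N * G ^ 6 := mul_le_mul_of_nonneg_left h9 hN0
    linarith
  have h5 : (l.map fun p => 1 + tau S r (32 * G) N p).prod ≤ Real.exp (N / G) :=
    (prod_one_add_le_exp fun p _ => tau_nonneg S r hN0 p).trans (Real.exp_le_exp.2 h4)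
  have h6 : N / G ≤ 1 := by
    rw [div_le_one hG0]
    nlinarith
  have h7 : 0 ≤ N / G := by positivity
  have h8 := Real.abs_exp_sub_one_le (x := N / G) (by rw [abs_of_nonneg h7]; exact h6)
  rw [abs_of_nonneg h7] at h8
  have h9 := le_abs_self (Real.exp (N / G) - 1)
  have h10 : 2 * (N / G) ≤ del N G := by
    unfold del
    rw [mul_div_assoc']
    apply div_le_div_of_nonneg_right _ hG0.le
    nlinarith
  linarith

/-- the perturbed weight -/
noncomputable def ft (G : ℝ) (f : ℕ → ℝ) (w : ℕ) : ℝ := f w + 1 / G * 16 ^ w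

theorem ft_pos {f : ℕ → ℝ} (hG : 0 < G) (hf : ∀ w, 0 ≤ f w) (w : ℕ) : 0 < ft G f w := by
  unfold ft
  have := hf w
  positivity

theorem ft_ratio {f : ℕ → ℝ} (hG : 1 ≤ G) (hf : ∀ w, 0 ≤ f w) (hf2 : ∀ w, f w ≤ 16 ^ w) (w : ℕ) :
    ft G f (w + 1) ≤ 32 * G * ft G f w := by
  unfold ft
  have hG0 : 0 < G := by linarith
  have h1 := hf2 (w + 1)
  have h2 := hf w
  have h3 : 1 / G ≤ 1 := by
    rw [div_le_one hG0]
    exact hG
  have h4 : (0 : ℝ) < 16 ^ w := by positivity
  have e : 32 * G * (f w + 1 / G * 16 ^ w) = 32 * G * f w + 32 * 16 ^ w := by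
    field_simp
  rw [e]
  have h5 : 0 ≤ 32 * G * f w := by positivity
  have h6 : 1 / G * 16 ^ (w + 1) ≤ 1 * 16 ^ (w + 1) := mul_le_mul_of_nonneg_right h3 (by positivity)
  have e2 : (16 : ℝ) ^ (w + 1) = 16 * 16 ^ w := by rw [pow_succ]; ring
  rw [e2] at h1 h6 ⊢
  linarith

theorem tele (S : Finset ι) (a b : ι → ℝ) (ha : ∀ i, 0 ≤ a i) (hab : ∀ i, a i ≤ b i) :
    ∏ i ∈ S, b i - ∏ i ∈ S, a i ≤ ∑ i ∈ S, ∏ j ∈ S, (if j = i then b j - a j else b j) := by
  induction S using Finset.induction_on with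
  | empty => simp
  | insert x T hx ih =>
    rw [prod_insert hx, prod_insert hx, sum_insert hx]
    have e1 : ∏ j ∈ insert x T, (if j = x then b j - a j else b j) = (b x - a x) * ∏ j ∈ T, b j := by
      rw [prod_insert hx, if_pos rfl]
      congr 1
      refine prod_congr rfl fun j hj => ?_
      rw [if_neg (fun e : j = x => hx (e ▸ hj))]
    have e2 : ∀ i ∈ T, ∏ j ∈ insert x T, (if j = i then b j - a j else b j) =
        b x * ∏ j ∈ T, (if j = i then b j - a j else b j) := by
      intro i hi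
      rw [prod_insert hx, if_neg (fun e : x = i => hx (e ▸ hi))]
    rw [e1, sum_congr rfl e2, ← mul_sum]
    have h1 : 0 ≤ b x := (ha x).trans (hab x)
    have h2 : ∏ i ∈ T, a i ≤ ∏ i ∈ T, b i := prod_le_prod (fun i _ => ha i) fun i _ => hab i
    have h3 := mul_le_mul_of_nonneg_left ih h1
    have h4 := mul_le_mul_of_nonneg_left h2 (sub_nonneg.2 (hab x))
    nlinarith

theorem prod_one_change {S : Finset ι} {i : ι} (hi : i ∈ S) (c m : ℝ) :
    ∏ j ∈ S, (if j = i then c * m else m) = c * m ^ S.card := by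
  have : ∀ j ∈ S, (if j = i then c * m else m) = (if j = i then c else 1) * m := by
    intro j _
    split_ifs <;> ring
  rw [prod_congr rfl this, prod_mul_distrib, prod_const, prod_ite_eq' S i, if_pos hi]

variable {n : ℕ} {f : ℕ → ℝ}

theorem OKb.VV_ge (H : OKb r N h G l) : Real.exp (-2) ≤ VV 1 l := by
  have h5 := BE.VV_ge H.big
  push_cast at h5
  refine le_trans (Real.exp_le_exp.2 ?_) h5
  have := H.rs1
  linarith

theorem OKb.M_ge (H : OKb r N h G l) (hf : Wt n f) : Real.exp (-2) ≤ E1 l f 0 := by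
  have h1 := E1_ge H.big hf.nonneg 0
  rw [hf.zero, one_mul] at h1
  exact H.VV_ge.trans h1

theorem OKb.M16 (H : OKb r N h G l) : E1 l (fun w => (16 : ℝ) ^ w) 0 ≤ Real.exp 15 := by
  rw [E1_pow, pow_zero, one_mul]
  have h4 := VV_le_exp (κ := 15) (by norm_num) l
  have e : -((16 : ℝ) - 1) = -15 := by norm_num
  rw [e]
  refine h4.trans (Real.exp_le_exp.2 ?_)
  have := H.rs1
  linarith

theorem OKb.M_le (H : OKb r N h G l) (hf : Wt n f) :
    E1 l f 0 ≤ VV 1 l * (1 + Real.exp 33 * (1 / 2) ^ (n + 1)) := by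
  have h1 : E1 l f 0 ≤ E1 l (fun w => 0 ^ w + (1 / 2) ^ (n + 1) * 32 ^ w) 0 :=
    E1_mono H.big (fun w => hf.tail w) 0
  refine h1.trans ?_
  rw [E1_add, E1_mul, E1_pow, E1_pow, pow_zero, pow_zero, one_mul, one_mul]
  have h2 : VV (-((0 : ℝ) - 1)) l = VV 1 l := by
    congr 1
    norm_num
  have h3 : VV (-((32 : ℝ) - 1)) l ≤ Real.exp 31 := by
    have h4 := VV_le_exp (κ := (32 : ℝ) - 1) (by norm_num) l
    refine h4.trans (Real.exp_le_exp.2 ?_)
    have := H.rs1
    linarith
  have h4 := H.VV_ge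
  have h5 : Real.exp 31 ≤ VV 1 l * Real.exp 33 := by
    have e : Real.exp 31 = Real.exp (-2) * Real.exp 33 := by
      rw [← Real.exp_add]
      norm_num
    rw [e]
    exact mul_le_mul_of_nonneg_right h4 (Real.exp_pos _).le
  rw [h2]
  have h6 : (1 / 2 : ℝ) ^ (n + 1) * VV (-((32 : ℝ) - 1)) l ≤
      (1 / 2) ^ (n + 1) * (VV 1 l * Real.exp 33) :=
    mul_le_mul_of_nonneg_left (h3.trans h5) (by positivity)
  linarith

theorem OKb.Mt_le (H : OKb r N h G l) (hf : Wt n f) :
    E1 l (ft G f) 0 ≤ E1 l f 0 * (1 + Real.exp 17 / G) := by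
  have hG := H.one_le_G
  have hG0 : 0 < G := by linarith
  unfold ft
  rw [E1_add, E1_mul]
  have h1 := H.M_ge hf
  have h2 := H.M16
  have h3 : Real.exp 15 ≤ E1 l f 0 * Real.exp 17 := by
    have e : Real.exp 15 = Real.exp (-2) * Real.exp 17 := by
      rw [← Real.exp_add]
      norm_num
    rw [e]
    exact mul_le_mul_of_nonneg_right h1 (Real.exp_pos _).le
  have h4 : 1 / G * E1 l (fun w => (16 : ℝ) ^ w) 0 ≤ 1 / G * (E1 l f 0 * Real.exp 17) :=
    mul_le_mul_of_nonneg_left (h2.trans h3) (by positivity)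
  have e : E1 l f 0 * (1 + Real.exp 17 / G) = E1 l f 0 + 1 / G * (E1 l f 0 * Real.exp 17) := by ring
  rw [e]
  linarith

theorem OKb.Mt_ge (H : OKb r N h G l) : E1 l f 0 ≤ E1 l (ft G f) 0 := by
  have hG := H.one_le_G
  apply E1_mono H.big
  intro w
  unfold ft
  have : (0 : ℝ) ≤ 1 / G * 16 ^ w := by positivity
  linarith

theorem OKb.prod (H : OKb r N h G l) {S : Finset ι} (hS : (S.card : ℝ) ≤ N) {g : ι → ℕ → ℝ}
    (hg : ∀ i w, 0 < g i w) (hgQ : ∀ i w, g i (w + 1) ≤ 32 * G * g i w) :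
    |ER r l (PF S g 0) - ∏ i ∈ S, E1 l (g i) 0| ≤ del N G * ∏ i ∈ S, E1 l (g i) 0 := by
  have hG := H.one_le_G
  have hN0 : 0 ≤ N := by linarith [H.N1]
  have h1 := prod_formula H.big (fun p hp i _ => H.lt p hp i) (show 1 ≤ 32 * G by linarith) hS
    (fun p hp => by
      refine le_trans ?_ (H.ge p hp)
      have h2 : 128 * N ≤ G := by
        refine le_trans ?_ H.gG
        have h3 : N ≤ N * (h + 1) := by
          have := H.h0
          nlinarith
        have h17 := exp17
        nlinarith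
      have h3 : G ^ 2 ≤ G ^ 8 := pow_le_pow_right₀ hG (by norm_num)
      have h4 : 128 * N * G ≤ G * G := mul_le_mul_of_nonneg_right h2 (by linarith)
      nlinarith)
    (fun p hp i hi => by
      rw [card_le_one]
      intro j hj k hk
      rw [mem_filter] at hj hk
      by_contra hjk
      exact H.cl p hp i j k hj.2.1.symm hk.2.1.symm hjk hj.2.2 hk.2.2)
    hg hgQ (0 : ι → ℕ)
  refine h1.trans ?_
  apply mul_le_mul_of_nonneg_right
  · have := H.T_le hS
    linarith
  · exact prod_nonneg fun i _ => (E1_pos H.big (hg i) _).le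

/-- **Upper bound.** -/
theorem OKb.upper (H : OKb r N h G l) {S : Finset ι} (hS : (S.card : ℝ) ≤ N) (hf : Wt n f) :
    ER r l (wp f S) ≤ (1 + 4 * del N G) * E1 l f 0 ^ S.card := by
  have hG := H.one_le_G
  have hG0 : 0 < G := by linarith
  have hN0 : 0 ≤ N := by linarith [H.N1]
  have h1 : ER r l (wp f S) ≤ ER r l (PF S (fun _ => ft G f) 0) := by
    apply ER_mono
    intro w
    unfold wp PF
    refine prod_le_prod (fun i _ => hf.nonneg _) fun i _ => ?_
    rw [Pi.zero_apply, zero_add]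
    unfold ft
    have : (0 : ℝ) ≤ 1 / G * 16 ^ w i := by positivity
    linarith
  have h2 := H.prod hS (g := fun _ => ft G f) (fun _ => ft_pos hG0 hf.nonneg)
    (fun _ => ft_ratio hG hf.nonneg hf.le)
  rw [prod_const] at h2
  have h3 := (le_abs_self _).trans h2
  obtain ⟨δ, hδ⟩ : ∃ δ, δ = del N G := ⟨_, rfl⟩
  have hδ1 := H.del_le
  have hδ0 := H.del_nonneg
  rw [← hδ] at hδ1 hδ0 h3 ⊢
  have hM := H.M_ge hf
  have hM0 : 0 < E1 l f 0 := (Real.exp_pos _).trans_le hM
  have h4 : E1 l (ft G f) 0 ^ S.card ≤ E1 l f 0 ^ S.card * (1 + 2 * δ) := by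
    have h5 : E1 l (ft G f) 0 ^ S.card ≤ (E1 l f 0 * (1 + Real.exp 17 / G)) ^ S.card :=
      pow_le_pow_left₀ (hM0.le.trans H.Mt_ge) (H.Mt_le hf) _
    rw [mul_pow] at h5
    refine h5.trans (mul_le_mul_of_nonneg_left ?_ (by positivity))
    have h6 : (1 + Real.exp 17 / G) ^ S.card ≤ Real.exp δ := by
      have hq : 0 ≤ Real.exp 17 / G := div_nonneg (Real.exp_pos _).le hG0.le
      calc (1 + Real.exp 17 / G) ^ S.card ≤ Real.exp (Real.exp 17 / G) ^ S.card := by
            apply pow_le_pow_left₀ (by linarith)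
            have := Real.add_one_le_exp (Real.exp 17 / G)
            linarith
        _ = Real.exp (S.card * (Real.exp 17 / G)) := (Real.exp_nat_mul _ _).symm
        _ ≤ Real.exp δ := by
            apply Real.exp_le_exp.2
            rw [hδ, del, mul_div_assoc]
            exact mul_le_mul_of_nonneg_right hS hq
    have h7 := Real.abs_exp_sub_one_le (x := δ) (by rw [abs_of_nonneg hδ0]; linarith)
    rw [abs_of_nonneg hδ0] at h7
    have h8 := le_abs_self (Real.exp δ - 1)
    linarith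
  have hP : 0 ≤ E1 l f 0 ^ S.card := by positivity
  calc ER r l (wp f S) ≤ ER r l (PF S (fun _ => ft G f) 0) := h1
    _ ≤ (1 + δ) * E1 l (ft G f) 0 ^ S.card := by linarith
    _ ≤ (1 + δ) * (E1 l f 0 ^ S.card * (1 + 2 * δ)) := mul_le_mul_of_nonneg_left h4 (by linarith)
    _ = ((1 + δ) * (1 + 2 * δ)) * E1 l f 0 ^ S.card := by ring
    _ ≤ (1 + 4 * δ) * E1 l f 0 ^ S.card := by
        apply mul_le_mul_of_nonneg_right _ hP
        nlinarith

/-- **Lower bound.** -/
theorem OKb.lower (H : OKb r N h G l) {S : Finset ι} (hS : (S.card : ℝ) ≤ N) (hf : Wt n f) :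
    (1 - 3 * del N G) * E1 l f 0 ^ S.card ≤ ER r l (wp f S) := by
  have hG := H.one_le_G
  have hG0 : 0 < G := by linarith
  have hN0 : 0 ≤ N := by linarith [H.N1]
  obtain ⟨δ, hδ⟩ : ∃ δ, δ = del N G := ⟨_, rfl⟩
  have hδ1 := H.del_le
  have hδ0 := H.del_nonneg
  have hM := H.M_ge hf
  have hM0 : 0 < E1 l f 0 := (Real.exp_pos _).trans_le hM
  have hMt := H.Mt_ge (f := f)
  obtain ⟨m, hm⟩ : ∃ m, m = E1 l (ft G f) 0 := ⟨_, rfl⟩
  rw [← hm] at hMt
  have hm0 : 0 < m := hM0.trans_le hMt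
  have h2 := H.prod hS (g := fun _ => ft G f) (fun _ => ft_pos hG0 hf.nonneg)
    (fun _ => ft_ratio hG hf.nonneg hf.le)
  rw [prod_const, ← hm] at h2
  -- one factor changed
  have h3 : ∀ i ∈ S, ER r l (PF S (fun j => if j = i then (fun w => 1 / G * 16 ^ w) else ft G f) 0) ≤
      (1 + δ) * (Real.exp 17 / G * m ^ S.card) := by
    intro i hi
    have h4 := H.prod hS (g := fun j => if j = i then (fun w => 1 / G * 16 ^ w) else ft G f)
      (fun j w => by
        by_cases hj : j = i
        · simp only [if_pos hj]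
          positivity
        · simp only [if_neg hj]
          exact ft_pos hG0 hf.nonneg w)
      (fun j w => by
        by_cases hj : j = i
        · simp only [if_pos hj]
          have e : 32 * G * (1 / G * (16 : ℝ) ^ w) = 32 * G * (16 * (1 / G * 16 ^ w)) / 16 := by ring
          have h5 : (1 / G * (16 : ℝ) ^ (w + 1)) = 16 * (1 / G * 16 ^ w) := by
            rw [pow_succ]
            ring
          rw [h5]
          have h6 : 0 < 1 / G * (16 : ℝ) ^ w := by positivity
          nlinarith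
        · simp only [if_neg hj]
          exact ft_ratio hG hf.nonneg hf.le w)
    have h5 : ∏ j ∈ S, E1 l (if j = i then (fun w => 1 / G * 16 ^ w) else ft G f) 0 ≤
        Real.exp 17 / G * m ^ S.card := by
      rw [← prod_one_change hi]
      refine prod_le_prod ?_ ?_
      · intro j _
        split_ifs
        · exact E1_nonneg H.big (fun w => by positivity) 0
        · exact E1_nonneg H.big (fun w => (ft_pos hG0 hf.nonneg w).le) 0
      · intro j _
        split_ifs
        · rw [E1_mul]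
          have h6 := H.M16
          have h7 : Real.exp 15 ≤ Real.exp 17 * m := by
            have e : Real.exp 15 = Real.exp 17 * Real.exp (-2) := by
              rw [← Real.exp_add]
              norm_num
            rw [e]
            exact mul_le_mul_of_nonneg_left (hM.trans hMt) (Real.exp_pos _).le
          have e : Real.exp 17 / G * m = 1 / G * (Real.exp 17 * m) := by ring
          rw [e]
          exact mul_le_mul_of_nonneg_left (h6.trans h7) (by positivity)
        · exact hm.ge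
    have h6 := (le_abs_self _).trans h4
    rw [← hδ] at h6
    have h7 : ER r l (PF S (fun j => if j = i then (fun w => 1 / G * 16 ^ w) else ft G f) 0) ≤
        (1 + δ) * ∏ j ∈ S, E1 l (if j = i then (fun w => 1 / G * 16 ^ w) else ft G f) 0 := by linarith
    refine h7.trans (mul_le_mul_of_nonneg_left h5 ?_)
    rw [hδ]
    linarith
  have h4 : ER r l (PF S (fun _ => ft G f) 0) ≤ ER r l (wp f S) +
      ∑ i ∈ S, ER r l (PF S (fun j => if j = i then (fun w => 1 / G * 16 ^ w) else ft G f) 0) := by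
    rw [← ER_sum, ← ER_add]
    apply ER_mono
    intro w
    have h5 := tele S (fun i => f (w i)) (fun i => ft G f (w i)) (fun i => hf.nonneg _) (fun i => by
      unfold ft
      have : (0 : ℝ) ≤ 1 / G * 16 ^ w i := by positivity
      linarith)
    have e1 : PF S (fun _ => ft G f) 0 w = ∏ i ∈ S, ft G f (w i) := by
      unfold PF
      refine prod_congr rfl fun i _ => ?_
      rw [Pi.zero_apply, zero_add]
    have e2 : ∑ i ∈ S, PF S (fun j => if j = i then (fun w => 1 / G * 16 ^ w) else ft G f) 0 w =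
        ∑ i ∈ S, ∏ j ∈ S, (if j = i then ft G f (w j) - f (w j) else ft G f (w j)) := by
      refine sum_congr rfl fun i _ => ?_
      unfold PF
      refine prod_congr rfl fun j _ => ?_
      rw [Pi.zero_apply, zero_add]
      by_cases hj : j = i
      · simp only [if_pos hj]
        unfold ft
        ring
      · simp only [if_neg hj]
    rw [e1, e2]
    unfold wp
    linarith
  have h5 : ∑ i ∈ S, ER r l (PF S (fun j => if j = i then (fun w => 1 / G * 16 ^ w) else ft G f) 0) ≤
      (1 + δ) * (δ * m ^ S.card) := by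
    refine (sum_le_sum h3).trans ?_
    rw [sum_const, nsmul_eq_mul]
    have hmp : 0 ≤ m ^ S.card := by positivity
    have h6 : (S.card : ℝ) * (Real.exp 17 / G) ≤ δ := by
      rw [hδ, del, mul_div_assoc]
      exact mul_le_mul_of_nonneg_right hS (div_nonneg (Real.exp_pos _).le hG0.le)
    have hd : 0 ≤ 1 + δ := by rw [hδ]; linarith
    calc (S.card : ℝ) * ((1 + δ) * (Real.exp 17 / G * m ^ S.card)) =
          (1 + δ) * (((S.card : ℝ) * (Real.exp 17 / G)) * m ^ S.card) := by ring
      _ ≤ (1 + δ) * (δ * m ^ S.card) :=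
          mul_le_mul_of_nonneg_left (mul_le_mul_of_nonneg_right h6 hmp) hd
  have h6 := neg_abs_le (ER r l (PF S (fun _ => ft G f) 0) - m ^ S.card)
  rw [← hδ] at hδ1 hδ0 h2 ⊢
  have h7 : (1 - 3 * δ) * E1 l f 0 ^ S.card ≤ (1 - 3 * δ) * m ^ S.card :=
    mul_le_mul_of_nonneg_left (pow_le_pow_left₀ hM0.le hMt _) (by linarith)
  have hmp : 0 ≤ m ^ S.card := by positivity
  have h8 : (1 - 3 * δ) * m ^ S.card ≤ (1 - δ - (1 + δ) * δ) * m ^ S.card := by
    apply mul_le_mul_of_nonneg_right _ hmp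
    nlinarith
  linarith

end block

end Pool.Agent.H.MP_711652_nt.G2.BF
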