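import Pool.Agent.H.MP_711652_nt.G2.BF2
import Pool.Agent.H.MP_711652_nt.G2.BE5

/-!
# GAP3, BF3: the average over a period, all blocks
-/

set_option autoImplicit false

namespace Pool.Agent.H.MP_711652_nt.G2.BF

open Finset
open Pool.Agent.H.MP_711652_nt.LG (Forms mean1_crt)
open Pool.Agent.H.MP_711652_nt.G2.BE (VV rs Big Wt wp wp_nonneg Blk bQ bP bQ_cons bP_cons bP_prod Lam Lam_nil Lam_cons
  period_pos coprime_prod)

variable {ι : Type*}

/-- The positions are residue classes; they may coincide. -/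
structure FormsC (P : Finset ℕ) (A : ℕ → ι → ℕ → Prop) (r : ℕ → ι → ℕ) : Prop where
  prime : ∀ p ∈ P, p.Prime
  lt : ∀ p ∈ P, ∀ i, r p i < p
  iff : ∀ p ∈ P, ∀ i m, A p i m ↔ m % p = r p i

variable {P : Finset ℕ} {A : ℕ → ι → ℕ → Prop} {r : ℕ → ι → ℕ}

/-- one position -/
theorem FormsC.one (h : FormsC P A r) (i : ι) : Forms P (fun p (_ : Unit) m => A p i m) where
  prime := h.prime
  per p hp _ m := by rw [h.iff p hp, h.iff p hp, Nat.add_mod_right]
  one p hp _ := ⟨r p i, h.lt p hp i, fun m hm => by rw [h.iff p hp, Nat.mod_eq_of_lt hm]⟩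
  disj p hp a b m hab := absurd (Subsingleton.elim a b) hab

theorem om_unit (A : ℕ → ι → ℕ → Prop) (l : List ℕ) (m : ℕ) (i : ι) :
    BE.om A l m i = BE.om (fun p (_ : Unit) m => A p i m) l m () := by
  induction l with
  | nil => rfl
  | cons p l ih =>
    show BE.om A l m i + _ = BE.om (fun p (_ : Unit) m => A p i m) l m () + _
    rw [ih]

theorem om_per (h : FormsC P A r) (l : List ℕ) (hl : ∀ p ∈ l, p ∈ P) :
    Function.Periodic (BE.om A l) l.prod := by
  intro m
  funext i
  rw [om_unit A l (m + l.prod) i, om_unit A l m i, BE.om_periodic (h.one i) l hl m]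

theorem Lam_unit (A : ℕ → ι → ℕ → Prop) (bl : List Blk) (i : ι) (m : ℕ) :
    Lam A bl i m = Lam (fun p (_ : Unit) m => A p i m) bl () m := by
  induction bl with
  | nil => rfl
  | cons b bl ih => rw [Lam_cons, Lam_cons, ih, om_unit]

theorem Lam_per (h : FormsC P A r) (i : ι) {bl : List Blk} (hbl : ∀ p ∈ bP bl, p ∈ P) :
    Function.Periodic (Lam A bl i) (bQ bl) := by
  intro m
  rw [Lam_unit A bl i (m + bQ bl), Lam_unit A bl i m, BE.Lam_periodic (h.one i) () hbl m]

theorem om_cons_hit (h : FormsC P A r) {p : ℕ} (hp : p ∈ P) (l : List ℕ) (m : ℕ) :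
    BE.om A (p :: l) m = BE.om A l m + hit r p (m % p) := by
  classical
  funext i
  show BE.om A l m i + (if A p i m then 1 else 0) = BE.om A l m i + hit r p (m % p) i
  congr 1
  unfold hit
  by_cases h1 : A p i m
  · rw [if_pos h1, if_pos ((h.iff p hp i m).1 h1).symm]
  · rw [if_neg h1, if_neg fun h2 => h1 ((h.iff p hp i m).2 h2.symm)]

/-- **The average over a period.** -/
theorem sum_omC (h : FormsC P A r) (l : List ℕ) (hl : ∀ p ∈ l, p ∈ P) (hnd : l.Nodup)
    (f : (ι → ℕ) → ℝ) :
    ∑ m ∈ range l.prod, f (BE.om A l m) = (l.prod : ℝ) * ER r l f := by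
  induction l generalizing f with
  | nil =>
    rw [List.prod_nil, range_one, sum_singleton, ER, Nat.cast_one, one_mul]
    rfl
  | cons p l ih =>
    rw [List.nodup_cons] at hnd
    have hl' : ∀ q ∈ l, q ∈ P := fun q hq => hl q (List.mem_cons_of_mem _ hq)
    have hp := hl p List.mem_cons_self
    have hpp := h.prime p hp
    have hp0 : (p : ℝ) ≠ 0 := by exact_mod_cast hpp.ne_zero
    have hlp : ∀ q ∈ l, q.Prime := fun q hq => h.prime q (hl' q hq)
    have hq0 := period_pos hlp
    have hcop := coprime_prod hpp hlp hnd.1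
    have hpt : ∀ m ∈ range (p :: l).prod, f (BE.om A (p :: l) m) =
        ∑ t ∈ range p, (if m % p = t then (1 : ℝ) else 0) * f (BE.om A l m + hit r p t) := by
      intro m _
      rw [om_cons_hit h hp, sum_eq_single (m % p)]
      · rw [if_pos rfl, one_mul]
      · intro t _ ht
        rw [if_neg fun e => ht e.symm, zero_mul]
      · intro h1
        exact absurd (mem_range.2 (Nat.mod_lt m hpp.pos)) h1
    have hper1 : ∀ t, Function.Periodic (fun m => if m % p = t then (1 : ℝ) else 0) p := by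
      intro t m
      simp only [Nat.add_mod_right]
    have hperf : ∀ g : (ι → ℕ) → ℝ, Function.Periodic (fun m => g (BE.om A l m)) l.prod := by
      intro g m
      show g (BE.om A l (m + l.prod)) = g (BE.om A l m)
      rw [om_per h l hl' m]
    have h1 : ∀ t ∈ range p, ∑ m ∈ range (p :: l).prod,
        (if m % p = t then (1 : ℝ) else 0) * f (BE.om A l m + hit r p t) =
        (l.prod : ℝ) * ER r l (fun w => f (w + hit r p t)) := by
      intro t ht
      rw [List.prod_cons, mean1_crt (fun m => if m % p = t then (1 : ℝ) else 0)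
        (fun m => f (BE.om A l m + hit r p t)) hpp.pos hq0 hcop (hper1 t)
        (hperf fun w => f (w + hit r p t))]
      have h6 := ih hl' hnd.2 (fun w => f (w + hit r p t))
      rw [h6]
      have h2 : ∑ m ∈ range p, (if m % p = t then (1 : ℝ) else 0) = 1 := by
        rw [sum_eq_single t]
        · rw [if_pos (Nat.mod_eq_of_lt (mem_range.1 ht))]
        · intro m hm hmt
          rw [if_neg]
          rw [Nat.mod_eq_of_lt (mem_range.1 hm)]
          exact hmt
        · intro h3
          exact absurd ht h3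
      rw [h2, one_mul]
    rw [sum_congr rfl hpt, sum_comm, sum_congr rfl h1, ← mul_sum, ER, List.prod_cons]
    push_cast
    field_simp

section

variable [DecidableEq ι]

/-- The average over a period, blockwise. -/
noncomputable def EC (r : ℕ → ι → ℕ) (h : ℕ → ℕ → ℝ) (bl : List Blk) (S : Finset ι) : ℝ :=
  (bl.map fun b => ER r b.l (wp (h b.n) S)).prod

omit [DecidableEq ι] in
theorem EC_nil (r : ℕ → ι → ℕ) (h : ℕ → ℕ → ℝ) (S : Finset ι) : EC r h [] S = 1 := rfl

omit [DecidableEq ι] in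
theorem EC_cons (r : ℕ → ι → ℕ) (h : ℕ → ℕ → ℝ) (b : Blk) (bl : List Blk) (S : Finset ι) :
    EC r h (b :: bl) S = ER r b.l (wp (h b.n) S) * EC r h bl S := by
  unfold EC
  rw [List.map_cons, List.prod_cons]

omit [DecidableEq ι] in
/-- **The average over a period of the product of the weights.** -/
theorem sum_LamC (hA : FormsC P A r) (a : ℕ) (S : Finset ι)
    {bl : List Blk} (hbl : ∀ p ∈ bP bl, p ∈ P) (hnd : (bP bl).Nodup) :
    ∑ m ∈ range (bQ bl), ∏ k ∈ S, (Lam A bl k m : ℝ) ^ a =
      (bQ bl : ℝ) * EC r (fun n w => (BE.lam n w : ℝ) ^ a) bl S := by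
  induction bl with
  | nil =>
    show ∑ m ∈ range 1, _ = ((1 : ℕ) : ℝ) * 1
    rw [range_one, sum_singleton]
    simp [Lam_nil]
  | cons b bl ih =>
    rw [bP_cons] at hbl hnd
    have hb : ∀ p ∈ b.l, p ∈ P := fun q hq => hbl q (List.mem_append_left _ hq)
    have hbl' : ∀ p ∈ bP bl, p ∈ P := fun q hq => hbl q (List.mem_append_right _ hq)
    rw [List.nodup_append] at hnd
    have hQ1 : 0 < b.l.prod := period_pos fun p hp => hA.prime p (hb p hp)
    have hQ2 : 0 < bQ bl := by
      rw [← bP_prod]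
      exact period_pos fun p hp => hA.prime p (hbl' p hp)
    have hcop : Nat.Coprime b.l.prod (bQ bl) := by
      rw [← bP_prod]
      apply Nat.Coprime.symm
      have : ∀ l : List ℕ, (∀ p ∈ l, p ∈ P) → (∀ p ∈ l, p ∉ bP bl) →
          Nat.Coprime (bP bl).prod l.prod := by
        intro l
        induction l with
        | nil => intro _ _; simp
        | cons p l ihl =>
          intro h1 h2
          rw [List.prod_cons]
          exact Nat.Coprime.mul_right
            (coprime_prod (hA.prime p (h1 p List.mem_cons_self))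
              (fun q hq => hA.prime q (hbl' q hq)) (h2 p List.mem_cons_self)).symm
            (ihl (fun q hq => h1 q (List.mem_cons_of_mem _ hq))
              fun q hq => h2 q (List.mem_cons_of_mem _ hq))
      exact this b.l hb fun p hp hp2 => hnd.2.2 p hp p hp2 rfl
    have h1 : ∀ m, ∏ k ∈ S, (Lam A (b :: bl) k m : ℝ) ^ a =
        wp (fun w => (BE.lam b.n w : ℝ) ^ a) S (BE.om A b.l m) * ∏ k ∈ S, (Lam A bl k m : ℝ) ^ a := by
      intro m
      unfold wp
      rw [← prod_mul_distrib]
      refine prod_congr rfl fun k _ => ?_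
      rw [Lam_cons]
      push_cast
      rw [mul_pow]
    have hp1 : Function.Periodic (fun m => wp (fun w => (BE.lam b.n w : ℝ) ^ a) S (BE.om A b.l m))
        b.l.prod := by
      intro m
      show wp _ S (BE.om A b.l (m + b.l.prod)) = wp _ S (BE.om A b.l m)
      rw [om_per hA b.l hb m]
    have hp2 : Function.Periodic (fun m => ∏ k ∈ S, (Lam A bl k m : ℝ) ^ a) (bQ bl) := by
      intro m
      refine prod_congr rfl fun k _ => ?_
      rw [Lam_per hA k hbl' m]
    rw [sum_congr rfl fun m _ => h1 m, bQ_cons,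
      mean1_crt (fun m => wp (fun w => (BE.lam b.n w : ℝ) ^ a) S (BE.om A b.l m))
        (fun m => ∏ k ∈ S, (Lam A bl k m : ℝ) ^ a) hQ1 hQ2 hcop hp1 hp2,
      sum_omC hA b.l hb hnd.1 _, ih hbl' hnd.2.1, EC_cons]
    push_cast
    ring

variable {N c : ℝ} {h : ℕ → ℕ → ℝ}

/-- The one-step factor of a block. -/
noncomputable def cv (N : ℝ) (b : Blk) : ℝ :=
  (1 + 16 * del N b.u) * (1 + Real.exp 33 * (1 / 2) ^ (b.n + 1)) * VV 1 b.l

/-- The one-step factor. -/
noncomputable def cvv (N : ℝ) (bl : List Blk) : ℝ := (bl.map (cv N)).prod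

/-- The decoupling factor. -/
noncomputable def cdd (N : ℝ) (bl : List Blk) : ℝ := (bl.map fun b => 1 + 16 * del N b.u).prod

omit [DecidableEq ι] in
theorem EC_nonneg (hh : ∀ n, Wt n (h n)) (bl : List Blk) (S : Finset ι) : 0 ≤ EC r h bl S := by
  classical
  induction bl with
  | nil => exact zero_le_one
  | cons b bl ih =>
    rw [EC_cons]
    exact mul_nonneg (ER_nonneg r b.l (wp_nonneg (hh _) S)) ih

theorem cvv_nonneg {bl : List Blk} (hbl : ∀ b ∈ bl, OKb r N c b.u b.l) : 0 ≤ cvv N bl := by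
  induction bl with
  | nil => exact zero_le_one
  | cons b bl ih =>
    unfold cvv
    rw [List.map_cons, List.prod_cons]
    have h1 := hbl b List.mem_cons_self
    have h2 := h1.del_nonneg
    have h3 := h1.VV_ge
    have h4 := Real.exp_pos (-2)
    exact mul_nonneg (mul_nonneg (by linarith) (by positivity)) (by linarith)
      |> fun h => mul_nonneg h (ih fun x hx => hbl x (List.mem_cons_of_mem _ hx))

/-- one more position, one block -/
theorem ER_insert {n : ℕ} {f : ℕ → ℝ} {G : ℝ} {l : List ℕ} (H : OKb r N c G l) (hf : Wt n f)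
    {S : Finset ι} {i : ι} (hi : i ∉ S) (hS : (S.card : ℝ) + 1 ≤ N) :
    ER r l (wp f (insert i S)) ≤
      (1 + 16 * del N G) * (1 + Real.exp 33 * (1 / 2) ^ (n + 1)) * VV 1 l * ER r l (wp f S) := by
  have h1 := H.upper (S := insert i S) (by rw [card_insert_of_notMem hi]; push_cast; exact hS) hf
  have h2 := H.lower (S := S) (by linarith) hf
  have h3 := H.M_le hf
  have h4 := H.del_le
  have h5 := H.del_nonneg
  have hM := H.M_ge hf
  have hM0 : 0 < E1 l f 0 := (Real.exp_pos _).trans_le hM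
  rw [card_insert_of_notMem hi] at h1
  obtain ⟨δ, hδ⟩ : ∃ δ, δ = del N G := ⟨_, rfl⟩
  rw [← hδ] at h1 h2 h4 h5 ⊢
  obtain ⟨m, hm⟩ : ∃ m, m = E1 l f 0 := ⟨_, rfl⟩
  rw [← hm] at h1 h2 h3 hM0
  obtain ⟨E, hE⟩ : ∃ E, E = ER r l (wp f S) := ⟨_, rfl⟩
  rw [← hE] at h2 ⊢
  have hE0 : 0 ≤ E := by
    rw [hE]
    exact ER_nonneg r l (wp_nonneg hf S)
  have h6 : (1 + 4 * δ) * m ^ (S.card + 1) ≤ (1 + 16 * δ) * m * ((1 - 3 * δ) * m ^ S.card) := by
    have e : (1 + 16 * δ) * m * ((1 - 3 * δ) * m ^ S.card) =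
        ((1 + 16 * δ) * (1 - 3 * δ)) * m ^ (S.card + 1) := by
      rw [pow_succ]
      ring
    rw [e]
    apply mul_le_mul_of_nonneg_right _ (by positivity)
    nlinarith
  calc ER r l (wp f (insert i S)) ≤ _ := h1
    _ ≤ _ := h6
    _ ≤ (1 + 16 * δ) * m * E := mul_le_mul_of_nonneg_left h2 (by positivity)
    _ ≤ (1 + 16 * δ) * (VV 1 l * (1 + Real.exp 33 * (1 / 2) ^ (n + 1))) * E :=
        mul_le_mul_of_nonneg_right (mul_le_mul_of_nonneg_left h3 (by positivity)) hE0
    _ = _ := by ring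

/-- two disjoint sets of positions, one block -/
theorem ER_union {n : ℕ} {f : ℕ → ℝ} {G : ℝ} {l : List ℕ} (H : OKb r N c G l) (hf : Wt n f)
    {S T : Finset ι} (hST : Disjoint S T) (hS : (S.card : ℝ) + T.card ≤ N) :
    ER r l (wp f (S ∪ T)) ≤ (1 + 16 * del N G) * (ER r l (wp f S) * ER r l (wp f T)) := by
  have hc : (S ∪ T).card = S.card + T.card := card_union_of_disjoint hST
  have h1 := H.upper (S := S ∪ T) (by rw [hc]; push_cast; exact hS) hf
  have hT0 : (0 : ℝ) ≤ T.card := Nat.cast_nonneg _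
  have hS0 : (0 : ℝ) ≤ S.card := Nat.cast_nonneg _
  have h2 := H.lower (S := S) (by linarith) hf
  have h3 := H.lower (S := T) (by linarith) hf
  have h4 := H.del_le
  have h5 := H.del_nonneg
  have hM := H.M_ge hf
  have hM0 : 0 < E1 l f 0 := (Real.exp_pos _).trans_le hM
  rw [hc] at h1
  obtain ⟨δ, hδ⟩ : ∃ δ, δ = del N G := ⟨_, rfl⟩
  rw [← hδ] at h1 h2 h3 h4 h5 ⊢
  obtain ⟨m, hm⟩ : ∃ m, m = E1 l f 0 := ⟨_, rfl⟩
  rw [← hm] at h1 h2 h3 hM0
  have h6 : (1 + 4 * δ) * m ^ (S.card + T.card) ≤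
      (1 + 16 * δ) * (((1 - 3 * δ) * m ^ S.card) * ((1 - 3 * δ) * m ^ T.card)) := by
    have e : (1 + 16 * δ) * (((1 - 3 * δ) * m ^ S.card) * ((1 - 3 * δ) * m ^ T.card)) =
        ((1 + 16 * δ) * (1 - 3 * δ) ^ 2) * m ^ (S.card + T.card) := by
      rw [pow_add]
      ring
    rw [e]
    apply mul_le_mul_of_nonneg_right _ (by positivity)
    have h7 : 0 ≤ δ * (1 / 48 - δ) := mul_nonneg h5 (by linarith)
    have h8 : 0 ≤ δ ^ 3 := by positivity
    nlinarith
  have h7 : 0 ≤ (1 - 3 * δ) * m ^ S.card := mul_nonneg (by linarith) (by positivity)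
  have h8 : 0 ≤ (1 - 3 * δ) * m ^ T.card := mul_nonneg (by linarith) (by positivity)
  calc ER r l (wp f (S ∪ T)) ≤ _ := h1
    _ ≤ _ := h6
    _ ≤ _ := mul_le_mul_of_nonneg_left (mul_le_mul h2 h3 h8 (h7.trans h2)) (by linarith)

theorem EC_insert (hh : ∀ n, Wt n (h n)) {bl : List Blk}
    (hbl : ∀ b ∈ bl, OKb r N c b.u b.l) {S : Finset ι} {i : ι} (hi : i ∉ S)
    (hS : (S.card : ℝ) + 1 ≤ N) : EC r h bl (insert i S) ≤ cvv N bl * EC r h bl S := by
  induction bl with
  | nil =>
    rw [EC_nil, EC_nil]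
    show (1 : ℝ) ≤ 1 * 1
    norm_num
  | cons b bl ih =>
    have h1 := hbl b List.mem_cons_self
    have hbl' : ∀ x ∈ bl, OKb r N c x.u x.l := fun x hx => hbl x (List.mem_cons_of_mem _ hx)
    have h2 := ih hbl'
    have h3 := ER_insert h1 (hh b.n) hi hS
    have h5 : 0 ≤ ER r b.l (wp (h b.n) S) := ER_nonneg r b.l (wp_nonneg (hh _) S)
    have h4 : 0 ≤ ER r b.l (wp (h b.n) (insert i S)) := ER_nonneg r b.l (wp_nonneg (hh _) _)
    have h7 : 0 ≤ EC r h bl (insert i S) := EC_nonneg hh bl _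
    rw [EC_cons, EC_cons]
    have e : cvv N (b :: bl) = cv N b * cvv N bl := by
      unfold cvv
      rw [List.map_cons, List.prod_cons]
    rw [e]
    calc ER r b.l (wp (h b.n) (insert i S)) * EC r h bl (insert i S) ≤
          (cv N b * ER r b.l (wp (h b.n) S)) * (cvv N bl * EC r h bl S) :=
          mul_le_mul h3 h2 h7 (h4.trans h3)
      _ = _ := by ring

theorem EC_le_pow (hh : ∀ n, Wt n (h n)) {bl : List Blk}
    (hbl : ∀ b ∈ bl, OKb r N c b.u b.l) (S : Finset ι) (hS : (S.card : ℝ) ≤ N) :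
    EC r h bl S ≤ cvv N bl ^ S.card := by
  induction S using Finset.induction_on with
  | empty =>
    rw [card_empty, pow_zero]
    have h1 : ∀ bl : List Blk, (∀ b ∈ bl, OKb r N c b.u b.l) → EC r h bl (∅ : Finset ι) ≤ 1 := by
      intro bl
      induction bl with
      | nil => intro _; exact le_rfl
      | cons b bl ih =>
        intro hbl
        have h1 := hbl b List.mem_cons_self
        rw [EC_cons]
        have e : wp (h b.n) (∅ : Finset ι) = fun _ => (1 : ℝ) := by
          funext w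
          unfold wp
          rw [prod_empty]
        rw [e]
        have h2 : ∀ l : List ℕ, (∀ p ∈ l, 0 < p) → ER r l (fun _ => (1 : ℝ)) = 1 := by
          intro l
          induction l with
          | nil => intro _; rfl
          | cons p l ih =>
            intro hl
            have hp : (p : ℝ) ≠ 0 := by
              have := hl p List.mem_cons_self
              positivity
            rw [ER, ih fun q hq => hl q (List.mem_cons_of_mem _ hq), sum_const, card_range,
              nsmul_eq_mul, mul_one, div_self hp]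
        rw [h2 b.l fun p hp => (h1.big p hp).1, one_mul]
        exact ih fun x hx => hbl x (List.mem_cons_of_mem _ hx)
    exact h1 bl hbl
  | insert i S hi ih =>
    rw [card_insert_of_notMem hi] at hS ⊢
    push_cast at hS
    have h1 := EC_insert hh hbl hi hS
    have h2 := ih (by linarith)
    refine h1.trans ?_
    rw [pow_succ, mul_comm]
    exact mul_le_mul_of_nonneg_right h2 (cvv_nonneg hbl)

theorem EC_union (hh : ∀ n, Wt n (h n)) {bl : List Blk}
    (hbl : ∀ b ∈ bl, OKb r N c b.u b.l) {S T : Finset ι} (hST : Disjoint S T)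
    (hS : (S.card : ℝ) + T.card ≤ N) :
    EC r h bl (S ∪ T) ≤ cdd N bl * (EC r h bl S * EC r h bl T) := by
  induction bl with
  | nil =>
    rw [EC_nil, EC_nil, EC_nil]
    show (1 : ℝ) ≤ 1 * (1 * 1)
    norm_num
  | cons b bl ih =>
    have h1 := hbl b List.mem_cons_self
    have hbl' : ∀ x ∈ bl, OKb r N c x.u x.l := fun x hx => hbl x (List.mem_cons_of_mem _ hx)
    have h2 := ih hbl'
    have h3 := ER_union h1 (hh b.n) hST hS
    have h4 : 0 ≤ ER r b.l (wp (h b.n) (S ∪ T)) := ER_nonneg r b.l (wp_nonneg (hh _) _)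
    have h7 : 0 ≤ EC r h bl (S ∪ T) := EC_nonneg hh bl _
    rw [EC_cons, EC_cons, EC_cons]
    have e : cdd N (b :: bl) = (1 + 16 * del N b.u) * cdd N bl := by
      unfold cdd
      rw [List.map_cons, List.prod_cons]
    rw [e]
    calc ER r b.l (wp (h b.n) (S ∪ T)) * EC r h bl (S ∪ T) ≤
          ((1 + 16 * del N b.u) * (ER r b.l (wp (h b.n) S) * ER r b.l (wp (h b.n) T))) *
            (cdd N bl * (EC r h bl S * EC r h bl T)) :=
          mul_le_mul h3 h2 h7 (h4.trans h3)
      _ = _ := by ring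

end

end Pool.Agent.H.MP_711652_nt.G2.BF
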