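import Pool.Agent.H.MP_711652_nt.G2.BH0

/-!
# GAP2, BH1: the pattern of the hits in one block
-/

set_option autoImplicit false

namespace Pool.Agent.H.MP_711652_nt.G2

open Finset Pool.Agent.H.MP_711652_nt.LG

variable {ι : Type*} [Fintype ι] [DecidableEq ι] {P : Finset ℕ} {A : ℕ → ι → ℕ → Prop}

open Classical in
/-- which position of `U` is hit by the prime `p ∈ S` at `m` -/
noncomputable def pat (A : ℕ → ι → ℕ → Prop) (S : Finset ℕ) (U : Finset ι) (m : ℕ) : S → Option ι :=
  fun p => if h : ∃ i ∈ U, A p i m then some h.choose else none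

/-- the probability of the pattern `α` on `U` -/
noncomputable def pw (S : Finset ℕ) (U : Finset ι) (α : S → Option ι) : ℝ :=
  ∏ p : S, (α p).elim (1 - (U.card : ℝ) / ((p : ℕ) : ℝ)) (fun i => if i ∈ U then 1 / ((p : ℕ) : ℝ) else 0)

/-- the number of the primes which hit -/
def nh {S : Finset ℕ} (α : S → Option ι) : ℕ := ((univ : Finset S).filter (fun p => α p ≠ none)).card

/-- the number of the primes which hit `i` -/
def nhi {S : Finset ℕ} (α : S → Option ι) (i : ι) : ℕ :=
  ((univ : Finset S).filter (fun p => α p = some i)).card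

theorem BH1_some (h : Forms P A) {S : Finset ℕ} (hS : S ⊆ P) (U : Finset ι) (m : ℕ) (p : S) (i : ι) :
    pat A S U m p = some i ↔ i ∈ U ∧ A p i m := by
  classical
  unfold pat
  by_cases hh : ∃ i ∈ U, A p i m
  · rw [dif_pos hh, Option.some.injEq]
    constructor
    · rintro rfl
      exact hh.choose_spec
    · rintro ⟨_, h2⟩
      by_contra hne
      exact h.disj p (hS p.2) _ _ m hne hh.choose_spec.2 h2
  · rw [dif_neg hh]
    constructor
    · intro h1
      exact absurd h1 (by simp)
    · rintro ⟨h1, h2⟩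
      exact absurd ⟨i, h1, h2⟩ hh

theorem BH1_none {S : Finset ℕ} (U : Finset ι) (m : ℕ) (p : S) :
    pat A S U m p = none ↔ ∀ i ∈ U, ¬ A p i m := by
  classical
  unfold pat
  by_cases hh : ∃ i ∈ U, A p i m
  · rw [dif_pos hh]
    constructor
    · intro h1
      exact absurd h1 (by simp)
    · intro h1
      obtain ⟨i, h2, h3⟩ := hh
      exact absurd h3 (h1 i h2)
  · rw [dif_neg hh]
    constructor
    · intro _ i hi hA
      exact hh ⟨i, hi, hA⟩
    · intro _
      rfl

open Classical in
/-- the indicator of a hit -/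
noncomputable def BH1_b (A : ℕ → ι → ℕ → Prop) (p : ℕ) (i : ι) (m : ℕ) : ℝ := if A p i m then 1 else 0

theorem BH1_b_mul (h : Forms P A) {p : ℕ} (hp : p ∈ P) {i j : ι} (hij : i ≠ j) (m : ℕ) :
    BH1_b A p i m * BH1_b A p j m = 0 := by
  unfold BH1_b
  by_cases h1 : A p i m
  · rw [if_neg (h.disj p hp i j m hij h1), mul_zero]
  · rw [if_neg h1, zero_mul]

theorem BH1_b_mean (h : Forms P A) {p : ℕ} (hp : p ∈ P) (i : ι) :
    E p (fun m => BH1_b A p i m) = 1 / (p : ℝ) := by
  obtain ⟨r, hr, hr2⟩ := h.one p hp i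
  rw [E]
  congr 1
  rw [Finset.sum_eq_single r]
  · unfold BH1_b
    rw [if_pos ((hr2 r hr).2 rfl)]
  · intro m hm hne
    unfold BH1_b
    rw [if_neg (fun h1 => hne ((hr2 m (Finset.mem_range.1 hm)).1 h1))]
  · intro h1
    exact absurd (Finset.mem_range.2 hr) h1

theorem BH1_b_per (h : Forms P A) {p : ℕ} (hp : p ∈ P) (i : ι) :
    Function.Periodic (fun m => BH1_b A p i m) p := by
  intro m
  show BH1_b A p i (m + p) = BH1_b A p i m
  unfold BH1_b
  by_cases h1 : A p i m
  · rw [if_pos h1, if_pos ((h.per p hp i m).2 h1)]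
  · rw [if_neg h1, if_neg (fun h2 => h1 ((h.per p hp i m).1 h2))]

/-- the local indicator -/
noncomputable def BH1_l (A : ℕ → ι → ℕ → Prop) (U : Finset ι) (p : ℕ) (t : Option ι) (m : ℕ) : ℝ :=
  t.elim (1 - ∑ i ∈ U, BH1_b A p i m) (fun i => if i ∈ U then BH1_b A p i m else 0)

theorem BH1_l_eq (h : Forms P A) {S : Finset ℕ} (hS : S ⊆ P) (U : Finset ι) (m : ℕ) (p : S)
    (t : Option ι) : BH1_l A U p t m = if pat A S U m p = t then 1 else 0 := by
  classical
  rcases t with _ | i
  · simp only [BH1_l, Option.elim_none]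
    by_cases h1 : pat A S U m p = none
    · rw [if_pos h1]
      rw [BH1_none] at h1
      rw [Finset.sum_eq_zero, sub_zero]
      intro i hi
      unfold BH1_b
      rw [if_neg (h1 i hi)]
    · rw [if_neg h1]
      rw [BH1_none] at h1
      push Not at h1
      obtain ⟨i, hi, hA⟩ := h1
      rw [Finset.sum_eq_single i]
      · unfold BH1_b
        rw [if_pos hA, sub_self]
      · intro j _ hj
        unfold BH1_b
        rw [if_neg (h.disj p (hS p.2) i j m (Ne.symm hj) hA)]
      · intro h2
        exact absurd hi h2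
  · simp only [BH1_l, Option.elim_some]
    by_cases h1 : pat A S U m p = some i
    · rw [if_pos h1]
      rw [BH1_some h hS] at h1
      unfold BH1_b
      rw [if_pos h1.1, if_pos h1.2]
    · rw [if_neg h1]
      rw [BH1_some h hS] at h1
      unfold BH1_b
      by_cases h2 : i ∈ U
      · rw [if_pos h2, if_neg (fun h3 => h1 ⟨h2, h3⟩)]
      · rw [if_neg h2]

theorem BH1_l_per (h : Forms P A) {p : ℕ} (hp : p ∈ P) (U : Finset ι) (t : Option ι) :
    Function.Periodic (fun m => BH1_l A U p t m) p := by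
  intro m
  have hb : ∀ i, BH1_b A p i (m + p) = BH1_b A p i m := fun i => BH1_b_per h hp i m
  simp only [BH1_l, hb]

theorem BH1_l_mean (h : Forms P A) {p : ℕ} (hp : p ∈ P) (U : Finset ι) (t : Option ι) :
    E p (fun m => BH1_l A U p t m) =
      t.elim (1 - (U.card : ℝ) / (p : ℝ)) (fun i => if i ∈ U then 1 / (p : ℝ) else 0) := by
  have hp0 := (h.prime p hp).pos
  rcases t with _ | i
  · simp only [BH1_l, Option.elim_none]
    have h1 : (fun m => 1 - ∑ i ∈ U, BH1_b A p i m) =
        fun m => (1 : ℝ) + (-1) * ∑ i ∈ U, BH1_b A p i m := by funext m; ring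
    rw [h1, E_add, E_smul, E_sum, E_const hp0, Finset.sum_congr rfl (fun i _ => BH1_b_mean h hp i),
      Finset.sum_const, nsmul_eq_mul]
    ring
  · simp only [BH1_l, Option.elim_some]
    by_cases h2 : i ∈ U
    · simp only [if_pos h2]
      exact BH1_b_mean h hp i
    · simp only [if_neg h2]
      exact E_const hp0 0

theorem BH1_ll_mean (h : Forms P A) {p : ℕ} (hp : p ∈ P) (U V : Finset ι) (hUV : Disjoint U V)
    (t u : Option ι) :
    E p (fun m => BH1_l A U p t m * BH1_l A V p u m) =
      t.elim (u.elim (1 - ((U.card : ℝ) + V.card) / (p : ℝ)) (fun j => if j ∈ V then 1 / (p : ℝ) else 0))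
        (fun i => u.elim (if i ∈ U then 1 / (p : ℝ) else 0) (fun _ => 0)) := by
  have hp0 := (h.prime p hp).pos
  have hne : ∀ i ∈ U, ∀ j ∈ V, i ≠ j := fun i hi j hj hij =>
    Finset.disjoint_left.1 hUV hi (hij ▸ hj)
  rcases t with _ | i <;> rcases u with _ | j
  · simp only [BH1_l, Option.elim_none]
    have h1 : (fun m => (1 - ∑ i ∈ U, BH1_b A p i m) * (1 - ∑ i ∈ V, BH1_b A p i m)) =
        fun m => (1 : ℝ) + ((-1) * ∑ i ∈ U, BH1_b A p i m + (-1) * ∑ i ∈ V, BH1_b A p i m) := by
      funext m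
      have h2 : (∑ i ∈ U, BH1_b A p i m) * ∑ i ∈ V, BH1_b A p i m = 0 := by
        rw [Finset.sum_mul_sum]
        exact Finset.sum_eq_zero fun i hi => Finset.sum_eq_zero fun j hj =>
          BH1_b_mul h hp (hne i hi j hj) m
      linear_combination h2
    rw [h1, E_add, E_add, E_smul, E_smul, E_sum, E_sum, E_const hp0,
      Finset.sum_congr rfl (fun i _ => BH1_b_mean h hp i),
      Finset.sum_congr rfl (fun i _ => BH1_b_mean h hp i),
      Finset.sum_const, Finset.sum_const, nsmul_eq_mul, nsmul_eq_mul]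
    ring
  · simp only [BH1_l, Option.elim_none, Option.elim_some]
    by_cases h2 : j ∈ V
    · simp only [if_pos h2]
      rw [← BH1_b_mean h hp j]
      congr 1
      funext m
      have h3 : (∑ i ∈ U, BH1_b A p i m) * BH1_b A p j m = 0 := by
        rw [Finset.sum_mul]
        exact Finset.sum_eq_zero fun i hi => BH1_b_mul h hp (hne i hi j h2) m
      linear_combination -h3
    · simp only [if_neg h2, mul_zero]
      exact E_const hp0 0
  · simp only [BH1_l, Option.elim_none, Option.elim_some]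
    by_cases h2 : i ∈ U
    · simp only [if_pos h2]
      rw [← BH1_b_mean h hp i]
      congr 1
      funext m
      have h3 : BH1_b A p i m * (∑ j ∈ V, BH1_b A p j m) = 0 := by
        rw [Finset.mul_sum]
        exact Finset.sum_eq_zero fun j hj => BH1_b_mul h hp (hne i h2 j hj) m
      linear_combination -h3
    · simp only [if_neg h2, zero_mul]
      exact E_const hp0 0
  · simp only [BH1_l, Option.elim_some]
    have h1 : (fun m => (if i ∈ U then BH1_b A p i m else 0) * (if j ∈ V then BH1_b A p j m else 0)) =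
        fun _ => (0 : ℝ) := by
      funext m
      by_cases h2 : i ∈ U
      · by_cases h3 : j ∈ V
        · rw [if_pos h2, if_pos h3]
          exact BH1_b_mul h hp (hne i h2 j h3) m
        · rw [if_neg h3, mul_zero]
      · rw [if_neg h2, zero_mul]
    rw [h1]
    exact E_const hp0 0

theorem BH1_full (h : Forms P A) {S : Finset ℕ} (hS : S ⊆ P) (F : S → ℕ → ℝ)
    (hF : ∀ p : S, Function.Periodic (F p) p) :
    E (∏ p ∈ S, p) (fun m => ∏ p : S, F p m) = ∏ p : S, E p (F p) := by
  rw [← Finset.prod_coe_sort S]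
  refine E_prod (univ : Finset S) (fun p => (p : ℕ)) (fun p _ => (h.prime p (hS p.2)).pos) ?_ F
    (fun p _ => hF p)
  intro p _ q _ hpq
  exact (Nat.coprime_primes (h.prime p (hS p.2)) (h.prime q (hS q.2))).2
    (fun h1 => hpq (Subtype.ext h1))

theorem BH1_expand (h : Forms P A) {S : Finset ℕ} (hS : S ⊆ P) (U : Finset ι)
    (f : (S → Option ι) → ℝ) (m : ℕ) :
    f (pat A S U m) = ∑ α : S → Option ι, f α * ∏ p : S, BH1_l A U p (α p) m := by
  classical
  rw [Finset.sum_eq_single (pat A S U m)]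
  · rw [Finset.prod_eq_one, mul_one]
    intro p _
    rw [BH1_l_eq h hS, if_pos rfl]
  · intro α _ hα
    obtain ⟨p, hp⟩ : ∃ p, pat A S U m p ≠ α p := by
      by_contra h1
      push Not at h1
      exact hα (funext h1).symm
    rw [Finset.prod_eq_zero (Finset.mem_univ p), mul_zero]
    rw [BH1_l_eq h hS, if_neg hp]
  · intro h1
    exact absurd (Finset.mem_univ _) h1

theorem om_eq_nhi (h : Forms P A) {S : Finset ℕ} (hS : S ⊆ P) (U : Finset ι) {i : ι} (hi : i ∈ U)
    (m : ℕ) : om A S i m = nhi (pat A S U m) i := by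
  classical
  unfold om nhi
  rw [Finset.card_filter, Finset.card_filter, ← Finset.sum_coe_sort S]
  apply Finset.sum_congr rfl
  intro p _
  by_cases h1 : A p i m
  · rw [if_pos h1, if_pos ((BH1_some h hS U m p i).2 ⟨hi, h1⟩)]
  · rw [if_neg h1, if_neg (fun h2 => h1 ((BH1_some h hS U m p i).1 h2).2)]

/-- PROOF. `f (pat m) = ∑_α f α [pat m = α]`, and `[pat m = α] = ∏_p` of local functions with means `1 / p` resp. `1 - |U| / p`
(at most one position is hit by `p`); `E_prod`. -/
theorem E_pat (h : Forms P A) {S : Finset ℕ} (hS : S ⊆ P) (U : Finset ι) (f : (S → Option ι) → ℝ) :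
    E (∏ p ∈ S, p) (fun m => f (pat A S U m)) = ∑ α : S → Option ι, pw S U α * f α := by
  have h1 : (fun m => f (pat A S U m)) = fun m =>
      ∑ α : S → Option ι, f α * ∏ p : S, BH1_l A U p (α p) m :=
    funext fun m => BH1_expand h hS U f m
  rw [h1, E_sum]
  apply Finset.sum_congr rfl
  intro α _
  rw [E_smul, BH1_full h hS _ (fun p => BH1_l_per h (hS p.2) U (α p)), mul_comm (f α)]
  congr 1
  unfold pw
  exact Finset.prod_congr rfl fun p _ => BH1_l_mean h (hS p.2) U (α p)

/-- the joint probability of the patterns `α` on `U` and `β` on `V` (disjoint) -/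
noncomputable def pw2 (S : Finset ℕ) (U V : Finset ι) (α β : S → Option ι) : ℝ :=
  ∏ p : S, (α p).elim
    ((β p).elim (1 - ((U.card : ℝ) + V.card) / ((p : ℕ) : ℝ)) (fun j => if j ∈ V then 1 / ((p : ℕ) : ℝ) else 0))
    (fun i => (β p).elim (if i ∈ U then 1 / ((p : ℕ) : ℝ) else 0) (fun _ => 0))

/-- PROOF. As `E_pat`: the function `[pat U m = α] [pat V m = β]` is a product of local functions. -/
theorem E_pat2 (h : Forms P A) {S : Finset ℕ} (hS : S ⊆ P) (U V : Finset ι) (hUV : Disjoint U V)
    (f g : (S → Option ι) → ℝ) :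
    E (∏ p ∈ S, p) (fun m => f (pat A S U m) * g (pat A S V m)) =
      ∑ α : S → Option ι, ∑ β : S → Option ι, pw2 S U V α β * (f α * g β) := by
  have h1 : (fun m => f (pat A S U m) * g (pat A S V m)) = fun m =>
      ∑ α : S → Option ι, ∑ β : S → Option ι,
        (f α * g β) * ∏ p : S, (BH1_l A U p (α p) m * BH1_l A V p (β p) m) := by
    funext m
    rw [BH1_expand h hS U f m, BH1_expand h hS V g m, Finset.sum_mul_sum]
    apply Finset.sum_congr rfl
    intro α _
    apply Finset.sum_congr rfl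
    intro β _
    rw [Finset.prod_mul_distrib]
    ring
  rw [h1, E_sum]
  apply Finset.sum_congr rfl
  intro α _
  rw [E_sum]
  apply Finset.sum_congr rfl
  intro β _
  rw [E_smul, BH1_full h hS _ (fun p m => by
      have e1 : BH1_l A U p (α p) (m + p) = BH1_l A U p (α p) m :=
        BH1_l_per h (hS p.2) U (α p) m
      have e2 : BH1_l A V p (β p) (m + p) = BH1_l A V p (β p) m :=
        BH1_l_per h (hS p.2) V (β p) m
      show BH1_l A U p (α p) (m + p) * BH1_l A V p (β p) (m + p) = _
      rw [e1, e2]), mul_comm (f α * g β)]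
  congr 1
  unfold pw2
  exact Finset.prod_congr rfl fun p _ => BH1_ll_mean h (hS p.2) U V hUV (α p) (β p)

end Pool.Agent.H.MP_711652_nt.G2
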