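import Pool.Agent.H.MP_711652_nt.G2.BH1

/-!
# GAP2, BH2: decoupling in one block
-/

set_option autoImplicit false

namespace Pool.Agent.H.MP_711652_nt.G2

open Finset Pool.Agent.H.MP_711652_nt.LG

variable {ι : Type*} [Fintype ι] [DecidableEq ι] {P : Finset ℕ} {A : ℕ → ι → ℕ → Prop}

/-- functions between the indicator of no hit and `16 ^ (number of hits)` -/
def Adm {S : Finset ℕ} (f : (S → Option ι) → ℝ) : Prop :=
  1 ≤ f (fun _ => none) ∧ ∀ α, 0 ≤ f α ∧ f α ≤ 16 ^ nh α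

omit [Fintype ι] in
private theorem BH2_pow {S : Finset ℕ} (x : ℝ) (α : S → Option ι) :
    x ^ nh α = ∏ p : S, if α p ≠ none then x else 1 := by
  rw [Finset.prod_ite, Finset.prod_const, Finset.prod_const_one, mul_one]
  rfl

omit [Fintype ι] in
private theorem BH2_local_nonneg (U : Finset ι) (p : ℝ) (hp : 0 < p) (hU : (U.card : ℝ) ≤ p)
    (t : Option ι) :
    0 ≤ t.elim (1 - (U.card : ℝ) / p) (fun i => if i ∈ U then 1 / p else 0) := by
  cases t with
  | none =>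
    simp only [Option.elim]
    rw [sub_nonneg, div_le_one hp]
    exact hU
  | some i =>
    simp only [Option.elim]
    split_ifs
    · positivity
    · exact le_refl _

omit [Fintype ι] in
private theorem BH2_pw_nonneg {S : Finset ℕ} (hS : ∀ p ∈ S, 0 < (p : ℝ)) (U : Finset ι)
    (hU : ∀ p ∈ S, (U.card : ℝ) ≤ p) (α : S → Option ι) : 0 ≤ pw S U α :=
  Finset.prod_nonneg fun p _ => BH2_local_nonneg U _ (hS p p.2) (hU p p.2) _

/-- PROOF. Factor by factor: for `p` hit once the left factor is `1 / p` and `(1 / p)(1 - |V| / p)(1 + 2K/u) ≥ 1 / p`; for `p` not hit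
`1 - (a + b) / p ≤ (1 - a / p)(1 - b / p)`; for `p` hit twice the left side is `0`. -/
theorem pw2_le {S : Finset ℕ} (U V : Finset ι) (K : ℕ) (hU : U.card ≤ K) (hV : V.card ≤ K) (u : ℝ)
    (hu : ∀ p ∈ S, u ≤ (p : ℝ)) (hK : 2 * (K : ℝ) ≤ u) (hu0 : 0 < u) (α β : S → Option ι) :
    pw2 S U V α β ≤ pw S U α * pw S V β * (1 + 2 * K / u) ^ nh α * (1 + 2 * K / u) ^ nh β := by
  have hUR : (U.card : ℝ) ≤ K := by exact_mod_cast hU
  have hVR : (V.card : ℝ) ≤ K := by exact_mod_cast hV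
  have hK0 : (0 : ℝ) ≤ K := Nat.cast_nonneg K
  rw [BH2_pow, BH2_pow, pw, pw, ← Finset.prod_mul_distrib, ← Finset.prod_mul_distrib,
    ← Finset.prod_mul_distrib, pw2]
  have key : ∀ c : ℝ, 0 ≤ c → c ≤ K → ∀ p : ℝ, u ≤ p → 1 ≤ (1 - c / p) * (1 + 2 * K / u) := by
    intro c hc hcK p hp
    have hp0 : 0 < p := lt_of_lt_of_le hu0 hp
    have h1 : c / p ≤ K / u := by
      rw [div_le_div_iff₀ hp0 hu0]
      exact mul_le_mul hcK hp hu0.le hK0
    have h2 : (K : ℝ) / u ≤ 1 / 2 := by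
      rw [div_le_iff₀ hu0]
      linarith
    have h3 : 0 ≤ (K : ℝ) / u := by positivity
    have h4 : 2 * (K : ℝ) / u = 2 * (K / u) := by ring
    rw [h4]
    have h5 : (1 - K / u) * (1 + 2 * (K / u)) ≤ (1 - c / p) * (1 + 2 * (K / u)) :=
      mul_le_mul_of_nonneg_right (by linarith) (by linarith)
    have h6 : 1 ≤ (1 - (K : ℝ) / u) * (1 + 2 * (K / u)) := by nlinarith
    linarith
  refine Finset.prod_le_prod ?_ ?_
  · intro p _
    have hp := hu p p.2
    have hp0 : (0 : ℝ) < ((p : ℕ) : ℝ) := lt_of_lt_of_le hu0 hp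
    rcases α p with _ | i <;> rcases β p with _ | j <;> simp only [Option.elim]
    · rw [sub_nonneg, div_le_one hp0]
      linarith
    · split_ifs
      · positivity
      · exact le_refl _
    · split_ifs
      · positivity
      · exact le_refl _
    · exact le_refl _
  · intro p _
    have hp := hu p p.2
    have hp0 : (0 : ℝ) < ((p : ℕ) : ℝ) := lt_of_lt_of_le hu0 hp
    have ha : (0 : ℝ) ≤ U.card := Nat.cast_nonneg _
    have hb : (0 : ℝ) ≤ V.card := Nat.cast_nonneg _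
    rcases α p with _ | i <;> rcases β p with _ | j <;>
      simp only [Option.elim, ne_eq, not_true_eq_false, if_false, mul_one, reduceCtorEq,
        not_false_eq_true, if_true]
    · have h1 : 0 ≤ (U.card : ℝ) / ((p : ℕ) : ℝ) * ((V.card : ℝ) / ((p : ℕ) : ℝ)) := by positivity
      have h2 : ((U.card : ℝ) + V.card) / ((p : ℕ) : ℝ) =
          (U.card : ℝ) / ((p : ℕ) : ℝ) + (V.card : ℝ) / ((p : ℕ) : ℝ) := add_div _ _ _
      rw [h2]
      nlinarith
    · split_ifs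
      · have h1 := key _ ha hUR _ hp
        have h2 : (1 - (U.card : ℝ) / ((p : ℕ) : ℝ)) * (1 / ((p : ℕ) : ℝ)) * (1 + 2 * K / u) =
            (1 / ((p : ℕ) : ℝ)) * ((1 - (U.card : ℝ) / ((p : ℕ) : ℝ)) * (1 + 2 * K / u)) := by ring
        rw [h2]
        exact le_mul_of_one_le_right (by positivity) h1
      · simp
    · split_ifs
      · have h1 := key _ hb hVR _ hp
        have h2 : (1 / ((p : ℕ) : ℝ)) * (1 - (V.card : ℝ) / ((p : ℕ) : ℝ)) * (1 + 2 * K / u) =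
            (1 / ((p : ℕ) : ℝ)) * ((1 - (V.card : ℝ) / ((p : ℕ) : ℝ)) * (1 + 2 * K / u)) := by ring
        rw [h2]
        exact le_mul_of_one_le_right (by positivity) h1
      · simp
    · split_ifs <;> positivity

/-- PROOF. The sum is `∏_p (1 - |U| / p + x |U| / p)` (`Finset.prod_univ_sum`), at most `exp ((x - 1) |U| ∑ 1 / p)`. -/
theorem sum_pw_pow {S : Finset ℕ} (hS : ∀ p ∈ S, p.Prime) (U : Finset ι) (x : ℝ) (hx : 1 ≤ x) (K : ℕ)
    (hU : U.card ≤ K) (hK : ∀ p ∈ S, (K : ℝ) ≤ p) (hs : ∑ p ∈ S, 1 / (p : ℝ) ≤ 1) :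
    ∑ α : S → Option ι, pw S U α * x ^ nh α ≤ Real.exp ((x - 1) * K) := by
  have hUR : (U.card : ℝ) ≤ K := by exact_mod_cast hU
  have h1 : ∑ α : S → Option ι, pw S U α * x ^ nh α =
      ∏ p : S, ∑ t : Option ι, (t.elim (1 - (U.card : ℝ) / ((p : ℕ) : ℝ))
        (fun i => if i ∈ U then 1 / ((p : ℕ) : ℝ) else 0)) * (if t ≠ none then x else 1) := by
    rw [Finset.prod_univ_sum]
    simp only [Fintype.piFinset_univ]
    refine Finset.sum_congr rfl fun α _ => ?_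
    rw [BH2_pow, pw, ← Finset.prod_mul_distrib]
  have h2 : ∀ p : S, ∑ t : Option ι, (t.elim (1 - (U.card : ℝ) / ((p : ℕ) : ℝ))
        (fun i => if i ∈ U then 1 / ((p : ℕ) : ℝ) else 0)) * (if t ≠ none then x else 1) =
      1 + (x - 1) * (U.card * (1 / ((p : ℕ) : ℝ))) := by
    intro p
    rw [Fintype.sum_option]
    simp only [Option.elim, ne_eq, not_true_eq_false, if_false, mul_one, reduceCtorEq,
        not_false_eq_true, if_true]
    have h3 : ∑ i : ι, (if i ∈ U then 1 / ((p : ℕ) : ℝ) else 0) * x =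
        U.card * (1 / ((p : ℕ) : ℝ)) * x := by
      rw [← Finset.sum_mul, Finset.sum_ite_mem, Finset.univ_inter, Finset.sum_const, nsmul_eq_mul]
    rw [h3]
    ring
  rw [h1, Finset.prod_congr rfl fun p _ => h2 p]
  have h4 : ∏ p : S, (1 + (x - 1) * (U.card * (1 / ((p : ℕ) : ℝ)))) ≤
      ∏ p : S, Real.exp ((x - 1) * (U.card * (1 / ((p : ℕ) : ℝ)))) := by
    refine Finset.prod_le_prod ?_ ?_
    · intro p _
      have : 0 ≤ (x - 1) * (U.card * (1 / ((p : ℕ) : ℝ))) :=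
        mul_nonneg (by linarith) (by positivity)
      linarith
    · intro p _
      have := Real.add_one_le_exp ((x - 1) * (U.card * (1 / ((p : ℕ) : ℝ))))
      linarith
  refine le_trans h4 ?_
  rw [← Real.exp_sum, Real.exp_le_exp, ← Finset.mul_sum, ← Finset.mul_sum]
  have h5 : ∑ p : S, 1 / ((p : ℕ) : ℝ) = ∑ p ∈ S, 1 / (p : ℝ) :=
    Finset.sum_coe_sort S (fun p : ℕ => 1 / (p : ℝ))
  rw [h5]
  refine mul_le_mul_of_nonneg_left ?_ (by linarith)
  have h6 : (0 : ℝ) ≤ U.card := Nat.cast_nonneg _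
  nlinarith

/-- PROOF. `pw S U none = ∏ (1 - |U| / p) ≥ ∏ exp (- 2 |U| / p) ≥ exp (- 2 K)`. -/
theorem pw_none_ge {S : Finset ℕ} (hS : ∀ p ∈ S, p.Prime) (U : Finset ι) (K : ℕ) (hU : U.card ≤ K)
    (hK : ∀ p ∈ S, 2 * (K : ℝ) ≤ p) (hs : ∑ p ∈ S, 1 / (p : ℝ) ≤ 1) :
    Real.exp (-(2 * (K : ℝ))) ≤ pw S U (fun _ => none) := by
  have hUR : (U.card : ℝ) ≤ K := by exact_mod_cast hU
  have hc : (0 : ℝ) ≤ U.card := Nat.cast_nonneg _
  have h1 : ∏ p : S, Real.exp (-(2 * U.card) * (1 / ((p : ℕ) : ℝ))) ≤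
      pw S U (fun _ => none) := by
    rw [pw]
    refine Finset.prod_le_prod (fun p _ => (Real.exp_pos _).le) ?_
    intro p _
    have hp0 : (0 : ℝ) < ((p : ℕ) : ℝ) := by exact_mod_cast (hS p p.2).pos
    simp only [Option.elim]
    set t : ℝ := (U.card : ℝ) / ((p : ℕ) : ℝ) with ht
    have ht0 : 0 ≤ t := by positivity
    have ht1 : t ≤ 1 / 2 := by
      rw [ht, div_le_iff₀ hp0]
      have := hK p p.2
      linarith
    have he : -(2 * (U.card : ℝ)) * (1 / ((p : ℕ) : ℝ)) = -(2 * t) := by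
      rw [ht]
      ring
    rw [he, Real.exp_neg, inv_le_iff_one_le_mul₀ (Real.exp_pos _)]
    have h2 := Real.add_one_le_exp (2 * t)
    have h3 : (1 - t) * (2 * t + 1) ≤ (1 - t) * Real.exp (2 * t) :=
      mul_le_mul_of_nonneg_left h2 (by linarith)
    nlinarith
  refine le_trans ?_ h1
  rw [← Real.exp_sum, Real.exp_le_exp, ← Finset.mul_sum]
  have h5 : ∑ p : S, 1 / ((p : ℕ) : ℝ) = ∑ p ∈ S, 1 / (p : ℝ) :=
    Finset.sum_coe_sort S (fun p : ℕ => 1 / (p : ℝ))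
  rw [h5]
  have h6 : (0 : ℝ) ≤ ∑ p ∈ S, 1 / (p : ℝ) := Finset.sum_nonneg fun p _ => by positivity
  nlinarith

private theorem BH2_nat (h : ℕ) : (h : ℝ) * (5 / 4) ^ h ≤ 2 ^ h := by
  have h1 : ∀ k : ℕ, 2 ≤ k → (k : ℝ) ≤ (8 / 5) ^ k := by
    intro k hk
    induction k, hk using Nat.le_induction with
    | base => norm_num
    | succ k hk ih =>
      rw [pow_succ]
      push_cast
      have : (2 : ℝ) ≤ k := by exact_mod_cast hk
      nlinarith
  have h2 : (h : ℝ) ≤ (8 / 5) ^ h := by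
    rcases Nat.lt_or_ge h 2 with h3 | h3
    · interval_cases h <;> norm_num
    · exact h1 h h3
  have h4 : (2 : ℝ) ^ h = (8 / 5) ^ h * (5 / 4) ^ h := by
    rw [← mul_pow]
    norm_num
  rw [h4]
  exact mul_le_mul_of_nonneg_right h2 (by positivity)

private theorem BH2_pow_le (κ : ℝ) (h0 : 0 ≤ κ) (h1 : κ ≤ 1 / 4) (h : ℕ) :
    (1 + κ) ^ h ≤ 1 + κ * 2 ^ h := by
  have h2 : ∀ n : ℕ, (1 + κ) ^ n ≤ 1 + κ * (n * (1 + κ) ^ n) := by
    intro n
    induction n with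
    | zero => simp
    | succ n ih =>
      have h3 : 1 ≤ (1 + κ) ^ (n + 1) := one_le_pow₀ (by linarith)
      have h4 : (1 + κ) ^ (n + 1) = (1 + κ) * (1 + κ) ^ n := by ring
      have h5 : (1 + κ) * (1 + κ) ^ n ≤ (1 + κ) * (1 + κ * (n * (1 + κ) ^ n)) :=
        mul_le_mul_of_nonneg_left ih (by linarith)
      have h6 : (1 + κ) * (1 + κ * (n * (1 + κ) ^ n)) = 1 + κ + κ * (n * (1 + κ) ^ (n + 1)) := by
        ring
      have h7 : κ * ((n + 1 : ℕ) * (1 + κ) ^ (n + 1)) =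
          κ * (n * (1 + κ) ^ (n + 1)) + κ * (1 + κ) ^ (n + 1) := by
        push_cast
        ring
      have h8 : κ ≤ κ * (1 + κ) ^ (n + 1) := le_mul_of_one_le_right h0 h3
      rw [h7, h4]
      rw [h4] at h8
      linarith [h5, h6, h4]
  refine le_trans (h2 h) ?_
  have h3 : (h : ℝ) * (1 + κ) ^ h ≤ 2 ^ h := by
    refine le_trans ?_ (BH2_nat h)
    refine mul_le_mul_of_nonneg_left ?_ (Nat.cast_nonneg _)
    exact pow_le_pow_left₀ (by linarith) (by linarith) h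
  have := mul_le_mul_of_nonneg_left h3 h0
  linarith

private theorem BH2_one {S : Finset ℕ} (hS : ∀ p ∈ S, p.Prime) (U : Finset ι) (K : ℕ)
    (hU : U.card ≤ K) (κ : ℝ) (h0 : 0 ≤ κ) (h1 : κ ≤ 1 / 4)
    (hK : ∀ p ∈ S, 2 * (K : ℝ) ≤ p) (hs : ∑ p ∈ S, 1 / (p : ℝ) ≤ 1)
    (f : (S → Option ι) → ℝ) (hf : Adm f) :
    ∑ α : S → Option ι, pw S U α * (1 + κ) ^ nh α * f α ≤
      (1 + κ * Real.exp (33 * K)) * ∑ α : S → Option ι, pw S U α * f α := by
  have hK0 : (0 : ℝ) ≤ K := Nat.cast_nonneg K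
  have hUR : (U.card : ℝ) ≤ K := by exact_mod_cast hU
  have hpos : ∀ p ∈ S, (0 : ℝ) < p := fun p hp => by exact_mod_cast (hS p hp).pos
  have hUp : ∀ p ∈ S, (U.card : ℝ) ≤ p := fun p hp => by linarith [hK p hp]
  have hpw := BH2_pw_nonneg hpos U hUp
  have h2 : ∑ α : S → Option ι, pw S U α * (1 + κ) ^ nh α * f α ≤
      ∑ α : S → Option ι, (pw S U α * f α + κ * (pw S U α * 32 ^ nh α)) := by
    refine Finset.sum_le_sum fun α _ => ?_
    have h3 := BH2_pow_le κ h0 h1 (nh α)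
    obtain ⟨hf0, hf1⟩ := hf.2 α
    have h4 : (1 + κ) ^ nh α * f α ≤ f α + κ * 32 ^ nh α := by
      have h5 : (1 + κ) ^ nh α * f α ≤ (1 + κ * 2 ^ nh α) * f α :=
        mul_le_mul_of_nonneg_right h3 hf0
      have h6 : κ * 2 ^ nh α * f α ≤ κ * 2 ^ nh α * 16 ^ nh α :=
        mul_le_mul_of_nonneg_left hf1 (by positivity)
      have h7 : κ * 2 ^ nh α * 16 ^ nh α = κ * (32 : ℝ) ^ nh α := by
        rw [mul_assoc, ← mul_pow]
        norm_num
      linarith
    have h8 := mul_le_mul_of_nonneg_left h4 (hpw α)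
    linarith
  refine le_trans h2 ?_
  rw [Finset.sum_add_distrib, ← Finset.mul_sum]
  have h3 := sum_pw_pow hS U 32 (by norm_num) K hU (fun p hp => by linarith [hK p hp]) hs
  have h4 : Real.exp (-(2 * (K : ℝ))) ≤ ∑ α : S → Option ι, pw S U α * f α := by
    have h5 := pw_none_ge hS U K hU hK hs
    have h6 : pw S U (fun _ => none) * f (fun _ => none) ≤
        ∑ α : S → Option ι, pw S U α * f α :=
      Finset.single_le_sum (f := fun α : S → Option ι => pw S U α * f α)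
        (fun α _ => mul_nonneg (hpw α) (hf.2 α).1) (Finset.mem_univ _)
    have h7 : pw S U (fun _ => none) ≤ pw S U (fun _ => none) * f (fun _ => none) :=
      le_mul_of_one_le_right (hpw _) hf.1
    linarith
  have h5 : Real.exp (33 * K) * Real.exp (-(2 * (K : ℝ))) = Real.exp ((32 - 1) * K) := by
    rw [← Real.exp_add]
    congr 1
    ring
  have h6 : Real.exp ((32 - 1) * K) ≤
      Real.exp (33 * K) * ∑ α : S → Option ι, pw S U α * f α := by
    rw [← h5]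
    exact mul_le_mul_of_nonneg_left h4 (Real.exp_pos _).le
  have h7 := mul_le_mul_of_nonneg_left (le_trans h3 h6) h0
  linarith

/-- **Decoupling.**  PROOF. `E_pat2`, `pw2_le`: the left side is at most the product of `∑ pw S U α (1 + κ)^(nh α) f α` and the same for `V`, `g`,
`κ = 2 K / u ≤ 1 / 4`.  And `(1 + κ)^h f ≤ f + κ h (1 + κ)^h 16^h ≤ f + κ 32^h` (`h (5/4)^h ≤ 2^h`), so the sum is at most
`E f + κ exp (31 K) ≤ (1 + κ exp (33 K)) E f` as `E f ≥ pw S U none ≥ exp (- 2 K)`.  Finally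
`(1 + t)^2 ≤ 1 + 3 t` for `t = κ exp (33 K) ≤ 1`. -/
theorem decouple (h : Forms P A) {S : Finset ℕ} (hS : S ⊆ P) (U V : Finset ι) (hUV : Disjoint U V)
    (K : ℕ) (hU : U.card ≤ K) (hV : V.card ≤ K) (u : ℝ) (hu : ∀ p ∈ S, u ≤ (p : ℝ)) (hu0 : 0 < u)
    (hbig : 8 * K * Real.exp (33 * K) ≤ u) (hs : ∑ p ∈ S, 1 / (p : ℝ) ≤ 1)
    (f g : (S → Option ι) → ℝ) (hf : Adm f) (hg : Adm g) :
    E (∏ p ∈ S, p) (fun m => f (pat A S U m) * g (pat A S V m)) ≤
      (1 + 6 * K * Real.exp (33 * K) / u) * (E (∏ p ∈ S, p) (fun m => f (pat A S U m)) *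
        E (∏ p ∈ S, p) (fun m => g (pat A S V m))) := by
  have hK0 : (0 : ℝ) ≤ K := Nat.cast_nonneg K
  have hexp : 1 ≤ Real.exp (33 * (K : ℝ)) := Real.one_le_exp (by positivity)
  have h8K : 8 * (K : ℝ) ≤ u :=
    le_trans (le_mul_of_one_le_right (by positivity) hexp) hbig
  have hSp : ∀ p ∈ S, p.Prime := fun p hp => h.prime p (hS hp)
  have hpK : ∀ p ∈ S, 2 * (K : ℝ) ≤ p := fun p hp => by linarith [hu p hp]
  set κ : ℝ := 2 * K / u with hκ
  have hκ0 : 0 ≤ κ := by positivity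
  have hκ1 : κ ≤ 1 / 4 := by
    rw [hκ, div_le_iff₀ hu0]
    linarith
  set t : ℝ := κ * Real.exp (33 * K) with ht
  have ht0 : 0 ≤ t := by positivity
  have ht1 : t ≤ 1 := by
    rw [ht, hκ, div_mul_eq_mul_div, div_le_one hu0]
    have : 0 ≤ (K : ℝ) * Real.exp (33 * K) := by positivity
    linarith
  rw [E_pat2 h hS U V hUV f g, E_pat h hS U f, E_pat h hS V g]
  have h1 : ∑ α : S → Option ι, ∑ β : S → Option ι, pw2 S U V α β * (f α * g β) ≤
      (∑ α : S → Option ι, pw S U α * (1 + κ) ^ nh α * f α) *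
        ∑ β : S → Option ι, pw S V β * (1 + κ) ^ nh β * g β := by
    rw [Finset.sum_mul_sum]
    refine Finset.sum_le_sum fun α _ => Finset.sum_le_sum fun β _ => ?_
    have h2 := pw2_le U V K hU hV u hu (by linarith) hu0 α β
    have h3 : 0 ≤ f α * g β := mul_nonneg (hf.2 α).1 (hg.2 β).1
    refine le_trans (mul_le_mul_of_nonneg_right h2 h3) (le_of_eq ?_)
    rw [hκ]
    ring
  have hF := BH2_one hSp U K hU κ hκ0 hκ1 hpK hs f hf
  have hG := BH2_one hSp V K hV κ hκ0 hκ1 hpK hs g hg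
  have hUR : (U.card : ℝ) ≤ K := by exact_mod_cast hU
  have hVR : (V.card : ℝ) ≤ K := by exact_mod_cast hV
  have hpos : ∀ p ∈ S, (0 : ℝ) < p := fun p hp => by exact_mod_cast (hSp p hp).pos
  have hpwU := BH2_pw_nonneg hpos U (fun p hp => by linarith [hpK p hp])
  have hpwV := BH2_pw_nonneg hpos V (fun p hp => by linarith [hpK p hp])
  have hF0 : 0 ≤ ∑ α : S → Option ι, pw S U α * f α :=
    Finset.sum_nonneg fun α _ => mul_nonneg (hpwU α) (hf.2 α).1
  have hG0 : 0 ≤ ∑ β : S → Option ι, pw S V β * g β :=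
    Finset.sum_nonneg fun β _ => mul_nonneg (hpwV β) (hg.2 β).1
  have hG1 : 0 ≤ ∑ β : S → Option ι, pw S V β * (1 + κ) ^ nh β * g β :=
    Finset.sum_nonneg fun β _ => mul_nonneg (mul_nonneg (hpwV β) (by positivity)) (hg.2 β).1
  refine le_trans h1 (le_trans (mul_le_mul hF hG hG1 (mul_nonneg (by positivity) hF0)) ?_)
  have h4 : 6 * (K : ℝ) * Real.exp (33 * K) / u = 3 * t := by
    rw [ht, hκ]
    ring
  rw [h4]
  have h5 : (1 + t) * (1 + t) ≤ 1 + 3 * t := by nlinarith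
  have h6 : (1 + t) * (∑ α : S → Option ι, pw S U α * f α) *
      ((1 + t) * ∑ β : S → Option ι, pw S V β * g β) =
      ((1 + t) * (1 + t)) * ((∑ α : S → Option ι, pw S U α * f α) *
        ∑ β : S → Option ι, pw S V β * g β) := by ring
  rw [← ht, h6]
  exact mul_le_mul_of_nonneg_right h5 (mul_nonneg hF0 hG0)

end Pool.Agent.H.MP_711652_nt.G2
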