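import Pool.Agent.H.MP_711652_nt.G2.BH2

/-!
# GAP2, BH3: the weights in one block
-/

set_option autoImplicit false

namespace Pool.Agent.H.MP_711652_nt.G2

open Finset Pool.Agent.H.MP_711652_nt.LG

variable {ι : Type*} [Fintype ι] [DecidableEq ι] {P : Finset ℕ} {A : ℕ → ι → ℕ → Prop}

omit [Fintype ι] in
theorem BH3_pow {S : Finset ℕ} (x : ℝ) (α : S → Option ι) (i : ι) :
    x ^ nhi α i = ∏ p : S, if α p = some i then x else 1 := by
  rw [Finset.prod_ite, Finset.prod_const, Finset.prod_const_one, mul_one]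
  rfl

theorem BH3_gen (S : Finset ℕ) (i : ι) (x : ℝ) :
    ∑ α : S → Option ι, pw S {i} α * x ^ nhi α i =
      ∏ p ∈ S, (1 - 1 / (p : ℝ) + x / (p : ℝ)) := by
  have h1 : ∑ α : S → Option ι, pw S {i} α * x ^ nhi α i =
      ∏ p : S, ∑ t : Option ι, (t.elim (1 - ((({i} : Finset ι).card : ℕ) : ℝ) / ((p : ℕ) : ℝ))
        (fun j => if j ∈ ({i} : Finset ι) then 1 / ((p : ℕ) : ℝ) else 0)) *
          (if t = some i then x else 1) := by
    rw [Finset.prod_univ_sum]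
    simp only [Fintype.piFinset_univ]
    refine Finset.sum_congr rfl fun α _ => ?_
    rw [BH3_pow, pw, ← Finset.prod_mul_distrib]
  rw [h1, ← Finset.prod_coe_sort S]
  refine Finset.prod_congr rfl fun p _ => ?_
  rw [Fintype.sum_option]
  simp only [Option.elim, Finset.card_singleton, Nat.cast_one, reduceCtorEq, if_false, mul_one]
  rw [Finset.sum_eq_single i]
  · simp only [Finset.mem_singleton, if_true]
    ring
  · intro j _ hj
    rw [if_neg (by simpa using hj), zero_mul]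
  · intro hh
    exact absurd (Finset.mem_univ i) hh

omit [Fintype ι] in
theorem BH3_pw_nonneg {S : Finset ℕ} (hS : ∀ p ∈ S, 1 ≤ (p : ℝ)) (i : ι) (α : S → Option ι) :
    0 ≤ pw S {i} α := by
  unfold pw
  refine Finset.prod_nonneg fun p _ => ?_
  have hp := hS p p.2
  have hp0 : (0 : ℝ) < ((p : ℕ) : ℝ) := by linarith
  rcases α p with _ | j
  · simp only [Option.elim, Finset.card_singleton, Nat.cast_one]
    rw [sub_nonneg, div_le_one hp0]
    exact hp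
  · simp only [Option.elim]
    split_ifs
    · positivity
    · exact le_refl _

theorem BH3_lam4 (n w : ℕ) : (lam n w : ℝ) ^ 4 ≤ 0 ^ w + 32 ^ w / 2 ^ (n + 1) := by
  rcases Nat.eq_zero_or_pos w with rfl | hw
  · rw [lam_zero]
    have : (0 : ℝ) ≤ 1 / 2 ^ (n + 1) := by positivity
    simp only [Int.cast_one, one_pow, pow_zero]
    linarith
  · have h0 : (0 : ℝ) ≤ 0 ^ w := by positivity
    rcases Nat.lt_or_ge n w with h1 | h1
    · have h2 : |(lam n w : ℝ)| ≤ 2 ^ w := by exact_mod_cast abs_lam_le n w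
      have h3 : (lam n w : ℝ) ^ 4 ≤ 16 ^ w := by
        have h4 : (lam n w : ℝ) ^ 4 = |(lam n w : ℝ)| ^ 4 := by
          rw [← abs_pow, abs_of_nonneg (by positivity)]
        rw [h4]
        calc |(lam n w : ℝ)| ^ 4 ≤ (2 ^ w) ^ 4 := pow_le_pow_left₀ (abs_nonneg _) h2 4
          _ = 16 ^ w := by rw [← pow_mul, mul_comm w 4, pow_mul]; norm_num
      have h5 : (16 : ℝ) ^ w ≤ 32 ^ w / 2 ^ (n + 1) := by
        rw [le_div_iff₀ (by positivity)]
        calc (16 : ℝ) ^ w * 2 ^ (n + 1) ≤ 16 ^ w * 2 ^ w :=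
              mul_le_mul_of_nonneg_left (pow_le_pow_right₀ (by norm_num) h1) (by positivity)
          _ = 32 ^ w := by rw [← mul_pow]; norm_num
      linarith
    · rw [lam_eq_zero hw h1]
      have h2 : (0 : ℝ) ≤ 32 ^ w / 2 ^ (n + 1) := by positivity
      simp only [Int.cast_zero]
      have h3 : (0 : ℝ) ^ 4 = 0 := by norm_num
      rw [h3]
      linarith

/-- PROOF. `E_pat` with `U = {i}`: the sum over the set `T` of the primes hitting `i` of `∏_T (1/p) ∏_{T^c} (1 - 1/p) lam(|T|)^4`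
`≤ V (1 + ∑_{|T| > n} ∏_T 16 / (p - 1)) ≤ V (1 + 2^(-(n+1)) ∏ (1 + 32 / (p - 1)))` and `∑ 32 / (p - 1) ≤ 34` as `p ≥ 34`. -/
theorem one_pos (h : Forms P A) {S : Finset ℕ} (hS : S ⊆ P) (n : ℕ) (i : ι)
    (hp : ∀ p ∈ S, 34 ≤ p) (hs : ∑ p ∈ S, 1 / (p : ℝ) ≤ 1) :
    E (∏ p ∈ S, p) (fun m => (lam n (om A S i m) : ℝ) ^ 4) ≤
      (1 + Real.exp 34 / 2 ^ (n + 1)) * ∏ p ∈ S, (1 - 1 / (p : ℝ)) := by
  have hp1 : ∀ p ∈ S, (34 : ℝ) ≤ p := fun p hp' => by exact_mod_cast hp p hp'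
  have h1 : E (∏ p ∈ S, p) (fun m => (lam n (om A S i m) : ℝ) ^ 4) =
      ∑ α : S → Option ι, pw S {i} α * (lam n (nhi α i) : ℝ) ^ 4 := by
    rw [← E_pat h hS {i} (fun α => (lam n (nhi α i) : ℝ) ^ 4)]
    congr 1
    funext m
    rw [om_eq_nhi h hS {i} (Finset.mem_singleton_self i) m]
  have h2 : ∑ α : S → Option ι, pw S {i} α * (lam n (nhi α i) : ℝ) ^ 4 ≤
      ∑ α : S → Option ι, pw S {i} α * (0 ^ nhi α i + 32 ^ nhi α i / 2 ^ (n + 1)) :=
    Finset.sum_le_sum fun α _ => mul_le_mul_of_nonneg_left (BH3_lam4 n _)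
      (BH3_pw_nonneg (fun p hp' => by linarith [hp1 p hp']) i α)
  have h3 : ∑ α : S → Option ι, pw S {i} α * (0 ^ nhi α i + 32 ^ nhi α i / 2 ^ (n + 1)) =
      ∏ p ∈ S, (1 - 1 / (p : ℝ) + 0 / (p : ℝ)) +
        (∏ p ∈ S, (1 - 1 / (p : ℝ) + 32 / (p : ℝ))) / 2 ^ (n + 1) := by
    rw [← BH3_gen S i 0, ← BH3_gen S i 32, Finset.sum_div, ← Finset.sum_add_distrib]
    exact Finset.sum_congr rfl fun α _ => by ring
  have h4 : ∏ p ∈ S, (1 - 1 / (p : ℝ) + 0 / (p : ℝ)) = ∏ p ∈ S, (1 - 1 / (p : ℝ)) :=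
    Finset.prod_congr rfl fun p _ => by ring
  have h5 : ∏ p ∈ S, (1 - 1 / (p : ℝ) + 32 / (p : ℝ)) ≤
      Real.exp 34 * ∏ p ∈ S, (1 - 1 / (p : ℝ)) := by
    have h6 : ∏ p ∈ S, (1 - 1 / (p : ℝ) + 32 / (p : ℝ)) ≤
        ∏ p ∈ S, (Real.exp (34 * (1 / (p : ℝ))) * (1 - 1 / (p : ℝ))) := by
      refine Finset.prod_le_prod ?_ ?_
      · intro p hp'
        have h7 := hp1 p hp'
        have h8 : 1 / (p : ℝ) ≤ 1 := by
          rw [div_le_one (by linarith)]
          linarith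
        have h9 : (0 : ℝ) ≤ 32 / (p : ℝ) := div_nonneg (by norm_num) (by linarith)
        linarith
      · intro p hp'
        have h7 := hp1 p hp'
        obtain ⟨y, hy⟩ : ∃ y : ℝ, y = 1 / (p : ℝ) := ⟨_, rfl⟩
        have h8 : 32 / (p : ℝ) = 32 * y := by rw [hy]; ring
        have hy0 : 0 ≤ y := by
          rw [hy]
          exact div_nonneg (by norm_num) (by linarith)
        have hy1 : y ≤ 1 / 34 := by
          rw [hy]
          exact div_le_div_of_nonneg_left (by norm_num) (by norm_num) h7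
        rw [h8, ← hy]
        have h9 := Real.add_one_le_exp (34 * y)
        have h10 : (34 * y + 1) * (1 - y) ≤ Real.exp (34 * y) * (1 - y) :=
          mul_le_mul_of_nonneg_right h9 (by linarith)
        nlinarith
    refine h6.trans ?_
    rw [Finset.prod_mul_distrib, ← Real.exp_sum, ← Finset.mul_sum]
    refine mul_le_mul_of_nonneg_right ?_ ?_
    · rw [Real.exp_le_exp]
      linarith
    · refine Finset.prod_nonneg fun p hp' => ?_
      have h7 := hp1 p hp'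
      rw [sub_nonneg, div_le_one (by linarith)]
      linarith
  rw [h1]
  refine h2.trans ?_
  rw [h3, h4]
  have h6 : (∏ p ∈ S, (1 - 1 / (p : ℝ) + 32 / (p : ℝ))) / 2 ^ (n + 1) ≤
      (Real.exp 34 * ∏ p ∈ S, (1 - 1 / (p : ℝ))) / 2 ^ (n + 1) :=
    div_le_div_of_nonneg_right h5 (by positivity)
  have h7 : (1 + Real.exp 34 / 2 ^ (n + 1)) * ∏ p ∈ S, (1 - 1 / (p : ℝ)) =
      ∏ p ∈ S, (1 - 1 / (p : ℝ)) + (Real.exp 34 * ∏ p ∈ S, (1 - 1 / (p : ℝ))) / 2 ^ (n + 1) := by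
    ring
  rw [h7]
  linarith

/-- PROOF. `lam ^ 2 ≤ lam ^ 4` (integers). -/
theorem one_pos_two (h : Forms P A) {S : Finset ℕ} (hS : S ⊆ P) (n : ℕ) (i : ι)
    (hp : ∀ p ∈ S, 34 ≤ p) (hs : ∑ p ∈ S, 1 / (p : ℝ) ≤ 1) :
    E (∏ p ∈ S, p) (fun m => (lam n (om A S i m) : ℝ) ^ 2) ≤
      (1 + Real.exp 34 / 2 ^ (n + 1)) * ∏ p ∈ S, (1 - 1 / (p : ℝ)) := by
  refine le_trans (E_mono _ fun m => ?_) (one_pos h hS n i hp hs)
  have h1 : (lam n (om A S i m)) ^ 2 ≤ (lam n (om A S i m)) ^ 4 := by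
    obtain ⟨z, hz⟩ : ∃ z : ℤ, z = lam n (om A S i m) := ⟨_, rfl⟩
    rw [← hz]
    rcases eq_or_ne z 0 with h0 | h0
    · rw [h0]
      norm_num
    · have h2 : 1 ≤ z ^ 2 := by
        have := pow_pos (abs_pos.2 h0) 2
        rw [sq_abs] at this
        omega
      nlinarith
  exact_mod_cast h1

/-- PROOF. The function is `∏_{k ∈ U} lam (nhi α k) ^ a` of the pattern; `|lam n w| ≤ 2 ^ w`, `a ≤ 4`, and the sum of the `nhi α k` over `k ∈ U` is at most `nh α`. -/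
theorem adm_lam (S : Finset ℕ) (U : Finset ι) (n a : ℕ) (ha : a = 2 ∨ a = 4) :
    Adm (fun α : S → Option ι => ∏ k ∈ U, (lam n (nhi α k) : ℝ) ^ a) := by
  constructor
  · have h1 : ∀ k ∈ U, (lam n (nhi (fun _ : S => (none : Option ι)) k) : ℝ) ^ a = 1 := by
      intro k _
      have h2 : nhi (fun _ : S => (none : Option ι)) k = 0 := by
        unfold nhi
        rw [Finset.card_eq_zero, Finset.filter_eq_empty_iff]
        intro p _ h3
        exact absurd h3 (by simp)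
      rw [h2, lam_zero]
      simp
    show 1 ≤ ∏ k ∈ U, (lam n (nhi (fun _ : S => (none : Option ι)) k) : ℝ) ^ a
    rw [Finset.prod_congr rfl h1, Finset.prod_const_one]
  · intro α
    have hk : ∀ k, 0 ≤ (lam n (nhi α k) : ℝ) ^ a ∧ (lam n (nhi α k) : ℝ) ^ a ≤ 16 ^ nhi α k := by
      intro k
      have h2 : |(lam n (nhi α k) : ℝ)| ≤ 2 ^ nhi α k := by exact_mod_cast abs_lam_le n (nhi α k)
      have h3 : ∀ b : ℕ, Even b → b ≤ 4 → 0 ≤ (lam n (nhi α k) : ℝ) ^ b ∧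
          (lam n (nhi α k) : ℝ) ^ b ≤ 16 ^ nhi α k := by
        intro b hb hb4
        refine ⟨hb.pow_nonneg _, ?_⟩
        rw [← hb.pow_abs]
        calc |(lam n (nhi α k) : ℝ)| ^ b ≤ (2 ^ nhi α k) ^ b := pow_le_pow_left₀ (abs_nonneg _) h2 b
          _ ≤ (2 ^ nhi α k) ^ 4 := pow_le_pow_right₀ (one_le_pow₀ (by norm_num)) hb4
          _ = 16 ^ nhi α k := by rw [← pow_mul, mul_comm _ 4, pow_mul]; norm_num
      rcases ha with rfl | rfl
      · exact h3 2 (by decide) (by norm_num)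
      · exact h3 4 (by decide) le_rfl
    refine ⟨Finset.prod_nonneg fun k _ => (hk k).1, ?_⟩
    refine (Finset.prod_le_prod (fun k _ => (hk k).1) (fun k _ => (hk k).2)).trans ?_
    rw [Finset.prod_pow_eq_pow_sum]
    refine pow_le_pow_right₀ (by norm_num) ?_
    have h4 : ∑ k ∈ U, nhi α k =
        (U.biUnion fun k => (univ : Finset S).filter (fun p => α p = some k)).card := by
      rw [Finset.card_biUnion]
      · rfl
      · intro x _ y _ hxy
        rw [Function.onFun, Finset.disjoint_left]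
        intro p h5 h6
        rw [Finset.mem_filter] at h5 h6
        exact hxy (Option.some_injective _ (h5.2.symm.trans h6.2))
    rw [h4]
    unfold nh
    refine Finset.card_le_card fun p hp => ?_
    rw [Finset.mem_biUnion] at hp
    obtain ⟨k, _, hk2⟩ := hp
    rw [Finset.mem_filter] at hk2 ⊢
    exact ⟨Finset.mem_univ _, by rw [hk2.2]; simp⟩

/-- PROOF. `decouple` with `adm_lam`, `om_eq_nhi`. -/
theorem block_split (h : Forms P A) {S : Finset ℕ} (hS : S ⊆ P) (U V : Finset ι) (hUV : Disjoint U V)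
    (K : ℕ) (hU : U.card ≤ K) (hV : V.card ≤ K) (u : ℝ) (hu : ∀ p ∈ S, u ≤ (p : ℝ)) (hu0 : 0 < u)
    (hbig : 8 * K * Real.exp (33 * K) ≤ u) (hs : ∑ p ∈ S, 1 / (p : ℝ) ≤ 1) (n a : ℕ)
    (ha : a = 2 ∨ a = 4) :
    E (∏ p ∈ S, p) (fun m => (∏ k ∈ U, (lam n (om A S k m) : ℝ) ^ a) *
        ∏ k ∈ V, (lam n (om A S k m) : ℝ) ^ a) ≤
      (1 + 6 * K * Real.exp (33 * K) / u) *
        (E (∏ p ∈ S, p) (fun m => ∏ k ∈ U, (lam n (om A S k m) : ℝ) ^ a) *
        E (∏ p ∈ S, p) (fun m => ∏ k ∈ V, (lam n (om A S k m) : ℝ) ^ a)) := by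
  have h1 := decouple h hS U V hUV K hU hV u hu hu0 hbig hs
    (fun α : S → Option ι => ∏ k ∈ U, (lam n (nhi α k) : ℝ) ^ a)
    (fun α : S → Option ι => ∏ k ∈ V, (lam n (nhi α k) : ℝ) ^ a)
    (adm_lam S U n a ha) (adm_lam S V n a ha)
  have h2 : ∀ W : Finset ι, ∀ m, ∏ k ∈ W, (lam n (om A S k m) : ℝ) ^ a =
      ∏ k ∈ W, (lam n (nhi (pat A S W m) k) : ℝ) ^ a := fun W m =>
    Finset.prod_congr rfl fun k hk => by rw [om_eq_nhi h hS W hk m]
  simp only [h2 U, h2 V]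
  exact h1

/-- PROOF. `block_split` with `V = {i}`, `one_pos`, `one_pos_two`. -/
theorem block_ratio (h : Forms P A) {S : Finset ℕ} (hS : S ⊆ P) (U : Finset ι) (i : ι) (hi : i ∉ U)
    (K : ℕ) (hK1 : 1 ≤ K) (hU : U.card ≤ K) (u : ℝ) (hu : ∀ p ∈ S, u ≤ (p : ℝ)) (hu0 : 0 < u)
    (hp : ∀ p ∈ S, 34 ≤ p) (hbig : 8 * K * Real.exp (33 * K) ≤ u) (hs : ∑ p ∈ S, 1 / (p : ℝ) ≤ 1)
    (n a : ℕ) (ha : a = 2 ∨ a = 4) :
    E (∏ p ∈ S, p) (fun m => (lam n (om A S i m) : ℝ) ^ a * ∏ k ∈ U, (lam n (om A S k m) : ℝ) ^ a) ≤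
      (1 + 6 * K * Real.exp (33 * K) / u) * (1 + Real.exp 34 / 2 ^ (n + 1)) *
        (∏ p ∈ S, (1 - 1 / (p : ℝ))) *
        E (∏ p ∈ S, p) (fun m => ∏ k ∈ U, (lam n (om A S k m) : ℝ) ^ a) := by
  have h1 := block_split h hS {i} U (Finset.disjoint_singleton_left.2 hi) K
    (by rw [Finset.card_singleton]; exact hK1) hU u hu hu0 hbig hs n a ha
  simp only [Finset.prod_singleton] at h1
  refine h1.trans ?_
  have h2 : E (∏ p ∈ S, p) (fun m => (lam n (om A S i m) : ℝ) ^ a) ≤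
      (1 + Real.exp 34 / 2 ^ (n + 1)) * ∏ p ∈ S, (1 - 1 / (p : ℝ)) := by
    rcases ha with rfl | rfl
    · exact one_pos_two h hS n i hp hs
    · exact one_pos h hS n i hp hs
  have he : Even a := by
    rcases ha with rfl | rfl
    · decide
    · decide
  have h3 : 0 ≤ E (∏ p ∈ S, p) (fun m => ∏ k ∈ U, (lam n (om A S k m) : ℝ) ^ a) :=
    E_nonneg _ fun m => Finset.prod_nonneg fun k _ => he.pow_nonneg _
  have h4 : 0 ≤ 1 + 6 * (K : ℝ) * Real.exp (33 * K) / u := by positivity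
  have h5 := mul_le_mul_of_nonneg_left (mul_le_mul_of_nonneg_right h2 h3) h4
  refine h5.trans (le_of_eq ?_)
  ring

end Pool.Agent.H.MP_711652_nt.G2
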