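import Pool.Agent.H.MP_711652_nt.G2.NumBig

/-!
# GAP3, (T2b): the hypotheses `Big` for the primes of `(z, B]` outside a thin exceptional set `Ex`
-/

set_option autoImplicit false

namespace Pool.Agent.H.MP_711652_nt.G2

open Finset Pool.Agent.H.MP_711652_nt.LG

/-- Removing an exceptional set of small reciprocal sum costs at most the factor `49/50` in `S1`. -/
theorem S1_thin_ge {z B n : ℕ} {P : Finset ℕ} (hz : 3 ≤ z) (hB : z ^ (2 ^ n) ≤ B)
    (hn : 8 * Real.exp 21 ≤ n) (hP : P ⊆ Pbig z B)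
    (hEx : ∑ q ∈ Pbig z B \ P, 1 / ((q : ℝ) - 1) ≤ 1 / 100) :
    49 / 50 * S1 (Pbig z B) B ≤ S1 P B := by
  classical
  set P0 := Pbig z B with hP0
  have hpos : 0 < S1 P0 B := S1_big_pos (by omega) hB hn
  have hc0 : 0 ≤ 1 / S1 P0 B := c_big_nonneg z B
  have hsum : ∑ T ∈ QQ P0 B, gw (1 / S1 P0 B) (∏ p ∈ T, p) = 1 := sum_gw_big (by omega) hB hn
  have hlog := c_big_le_log_mem (z := z) (B := B) (n := n) (by omega) hB hn
  -- the sets which meet the exceptional set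
  have h1 : ∑ T ∈ (QQ P0 B).filter (fun T => ¬ T ⊆ P), gw (1 / S1 P0 B) (∏ p ∈ T, p) ≤ 1 / 50 := by
    have h2 : (QQ P0 B).filter (fun T => ¬ T ⊆ P) ⊆
        (P0 \ P).biUnion (fun q => (QQ P0 B).filter (fun T => q ∈ T)) := by
      intro T hT
      rw [mem_filter] at hT
      obtain ⟨hT, hTP⟩ := hT
      obtain ⟨q, hqT, hqP⟩ := Finset.not_subset.1 hTP
      rw [mem_biUnion]
      refine ⟨q, mem_sdiff.2 ⟨(mem_QQ.1 hT).2.1 hqT, hqP⟩, mem_filter.2 ⟨hT, hqT⟩⟩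
    refine (Finset.sum_le_sum_of_subset_of_nonneg h2 fun _ _ _ => gw_nonneg hc0 _).trans ?_
    refine (sum_biUnion_le_of_nonneg (P0 \ P) _ _ fun _ => gw_nonneg hc0 _).trans ?_
    have h3 : ∀ q ∈ P0 \ P, ∑ T ∈ (QQ P0 B).filter (fun T => q ∈ T),
        gw (1 / S1 P0 B) (∏ p ∈ T, p) ≤ 2 * (1 / ((q : ℝ) - 1)) := by
      intro q hq
      have hq0 := (mem_sdiff.1 hq).1
      refine (sum_gw_mem Pbig_prime B hc0 hsum q hq0 (hlog q hq0)).trans (le_of_eq (by ring))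
    refine (Finset.sum_le_sum h3).trans ?_
    rw [← Finset.mul_sum]
    linarith
  have h2 : (QQ P0 B).filter (fun T => T ⊆ P) = QQ P B := by
    ext T
    rw [mem_filter, mem_QQ, mem_QQ]
    constructor
    · rintro ⟨⟨h3, -, h5⟩, h6⟩
      exact ⟨h3, h6, h5⟩
    · rintro ⟨h3, h4, h5⟩
      exact ⟨⟨h3, h4.trans hP, h5⟩, h4⟩
  have h3 := Finset.sum_filter_add_sum_filter_not (QQ P0 B) (fun T => T ⊆ P)
    (fun T => gw (1 / S1 P0 B) (∏ p ∈ T, p))
  rw [hsum, h2] at h3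
  have h4 : ∑ T ∈ QQ P B, gw (1 / S1 P0 B) (∏ p ∈ T, p) = 1 / S1 P0 B * S1 P B := by
    have h5 : ∀ T ∈ QQ P B, gw (1 / S1 P0 B) (∏ p ∈ T, p)
        = (1 / S1 P0 B) * (1 / ((Nat.totient (∏ p ∈ T, p) : ℝ) *
          Real.log ((∏ p ∈ T, p : ℕ) : ℝ))) := by
      intro T hT
      rw [mem_QQ] at hT
      rw [gw_of_two_le _ (two_le_prod_of_QQ (fun p hp => Pbig_prime p (hP hp)) hT.2.1 hT.1)]
      ring
    rw [Finset.sum_congr rfl h5, ← Finset.mul_sum]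
    rfl
  rw [h4] at h3
  have h5 : 49 / 50 ≤ 1 / S1 P0 B * S1 P B := by linarith
  have h6 : 49 / 50 * S1 P0 B ≤ (1 / S1 P0 B * S1 P B) * S1 P0 B :=
    mul_le_mul_of_nonneg_right h5 hpos.le
  refine h6.trans (le_of_eq ?_)
  field_simp

theorem S1_thin_pos {z B n : ℕ} {P : Finset ℕ} (hz : 3 ≤ z) (hB : z ^ (2 ^ n) ≤ B)
    (hn : 8 * Real.exp 21 ≤ n) (hP : P ⊆ Pbig z B)
    (hEx : ∑ q ∈ Pbig z B \ P, 1 / ((q : ℝ) - 1) ≤ 1 / 100) : 0 < S1 P B := by
  have h1 := S1_thin_ge hz hB hn hP hEx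
  have h2 := S1_big_pos (z := z) (B := B) (n := n) (by omega) hB hn
  linarith

theorem c_thin_nonneg (P : Finset ℕ) (B : ℕ) : 0 ≤ 1 / S1 P B := by
  refine div_nonneg zero_le_one (Finset.sum_nonneg fun T _ => ?_)
  exact div_nonneg zero_le_one (mul_nonneg (Nat.cast_nonneg _) (Real.log_natCast_nonneg _))

/-- The constant of the weights is at most `C log z / n`. -/
theorem c_thin_le {z B n : ℕ} {P : Finset ℕ} (hz : 3 ≤ z) (hB : z ^ (2 ^ n) ≤ B)
    (hn : 8 * Real.exp 21 ≤ n) (hP : P ⊆ Pbig z B)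
    (hEx : ∑ q ∈ Pbig z B \ P, 1 / ((q : ℝ) - 1) ≤ 1 / 100) :
    1 / S1 P B ≤ 9 * Real.exp 21 * Real.log z / n := by
  have h1 := S1_thin_ge hz hB hn hP hEx
  have h2 := S1_big_pos (z := z) (B := B) (n := n) (by omega) hB hn
  have h3 := c_big_le (z := z) (B := B) (n := n) (by omega) hB hn
  have hz1 : (1 : ℝ) < z := by exact_mod_cast (by omega : 1 < z)
  have hlz : 0 < Real.log z := Real.log_pos hz1
  have hn0 : (0 : ℝ) < n := lt_of_lt_of_le (by positivity) hn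
  have h4 : 1 / S1 P B ≤ 1 / (49 / 50 * S1 (Pbig z B) B) :=
    one_div_le_one_div_of_le (by positivity) h1
  have h5 : 1 / (49 / 50 * S1 (Pbig z B) B) = 50 / 49 * (1 / S1 (Pbig z B) B) := by
    field_simp
  rw [h5] at h4
  have h6 : 50 / 49 * (1 / S1 (Pbig z B) B) ≤ 50 / 49 * (8 * Real.exp 21 * Real.log z / n) :=
    mul_le_mul_of_nonneg_left h3 (by norm_num)
  have h7 : 50 / 49 * (8 * Real.exp 21 * Real.log z / n) ≤ 9 * Real.exp 21 * Real.log z / n := by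
    have h8 : 0 ≤ Real.exp 21 * Real.log z / n := by positivity
    have h9 : 50 / 49 * (8 * Real.exp 21 * Real.log z / n) =
        400 / 49 * (Real.exp 21 * Real.log z / n) := by ring
    have h10 : 9 * Real.exp 21 * Real.log z / n = 9 * (Real.exp 21 * Real.log z / n) := by ring
    rw [h9, h10]
    exact mul_le_mul_of_nonneg_right (by norm_num) h8
  exact h4.trans (h6.trans h7)

theorem c_thin_le_log {z B n : ℕ} {P : Finset ℕ} (hz : 3 ≤ z) (hB : z ^ (2 ^ n) ≤ B)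
    (hn : 9 * Real.exp 21 ≤ n) (hP : P ⊆ Pbig z B)
    (hEx : ∑ q ∈ Pbig z B \ P, 1 / ((q : ℝ) - 1) ≤ 1 / 100) :
    1 / S1 P B ≤ Real.log z := by
  have hz1 : (1 : ℝ) < z := by exact_mod_cast (by omega : 1 < z)
  have hlz : 0 < Real.log z := Real.log_pos hz1
  have hn0 : (0 : ℝ) < n := lt_of_lt_of_le (by positivity) hn
  have hn8 : 8 * Real.exp 21 ≤ n := by
    have := Real.exp_pos 21
    linarith
  refine (c_thin_le hz hB hn8 hP hEx).trans ?_
  rw [div_le_iff₀ hn0, mul_comm]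
  exact mul_le_mul_of_nonneg_left hn hlz.le

/-- The level for subsets. -/
theorem thin_level {z B Y K : ℕ} {P : Finset ℕ} (hP : P ⊆ Pbig z B) (hY : Y < z ^ (K + 1)) :
    ∀ T ⊆ P, ∏ p ∈ T, p ≤ Y → T.card ≤ K := fun T hT h => Pbig_level hY T (hT.trans hP) h

/-- **(T2b)** The primes of `(z, B]` outside a thin exceptional set satisfy `Big` with `D = z` and `c = 1 / S1`. -/
theorem big_thin {z B Y K n : ℕ} {P : Finset ℕ} (hz : 3 ≤ z) (hB : z ^ (2 ^ n) ≤ B)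
    (hn : 9 * Real.exp 21 ≤ n) (hY1 : 1 ≤ Y) (hY : Y < z ^ (K + 1)) (hP : P ⊆ Pbig z B)
    (hEx : ∑ q ∈ Pbig z B \ P, 1 / ((q : ℝ) - 1) ≤ 1 / 100) :
    Big P B Y K (1 / S1 P B) z where
  prime := fun p hp => Pbig_prime p (hP hp)
  hB := (Nat.one_le_pow _ _ (by omega)).trans hB
  hY := hY1
  hc := c_thin_nonneg P B
  hD := by exact_mod_cast hz
  ge := fun p hp => by exact_mod_cast (Pbig_lt p (hP hp)).le
  clog := c_thin_le_log hz hB hn hP hEx
  sum := sum_gw (fun p hp => Pbig_prime p (hP hp)) B (S1_thin_pos hz hB (by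
    have := Real.exp_pos 21
    linarith) hP hEx)
  level := thin_level hP hY

theorem thin_not_dvd {D z B : ℕ} {P : Finset ℕ} (hP : P ⊆ Pbig z B) :
    ∀ p ∈ P, ¬ p ∣ ∏ q ∈ (Ioc D z).filter Nat.Prime, q := fun p hp => Pbig_not_dvd p (hP hp)

theorem thin_hits {z B Om a L : ℕ} {P : Finset ℕ} (hP : P ⊆ Pbig z B) (ha : 0 < a) (haL : a ≤ L)
    (hL : L < z ^ (Om + 1)) : {p | p ∈ P ∧ p ∣ a}.ncard ≤ Om := by
  refine le_trans (Set.ncard_le_ncard (t := {p | p ∈ Pbig z B ∧ p ∣ a}) ?_ ?_)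
    (Pbig_hits ha haL hL)
  · rintro p ⟨h1, h2⟩
    exact ⟨hP h1, h2⟩
  · exact (Finset.finite_toSet (Pbig z B)).subset fun p hp => hp.1

/-- The reciprocal sum of an exceptional set of few primes `> z`. -/
theorem thin_sum_of_card {z B : ℕ} {E : Finset ℕ} (hE : E ⊆ Pbig z B)
    (hcard : 100 * E.card ≤ z) : ∑ q ∈ E, 1 / ((q : ℝ) - 1) ≤ 1 / 100 := by
  rcases E.eq_empty_or_nonempty with hE0 | hE0
  · rw [hE0, sum_empty]
    norm_num
  have hE1 : 0 < E.card := hE0.card_pos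
  have hz0 : (0 : ℝ) < z := by
    have : 0 < z := by omega
    exact_mod_cast this
  have h1 : ∀ q ∈ E, 1 / ((q : ℝ) - 1) ≤ 1 / z := by
    intro q hq
    have h2 : z + 1 ≤ q := Pbig_lt q (hE hq)
    have h3 : (z : ℝ) + 1 ≤ q := by exact_mod_cast h2
    exact one_div_le_one_div_of_le hz0 (by linarith)
  refine (sum_le_sum h1).trans ?_
  rw [sum_const, nsmul_eq_mul, mul_one_div, div_le_div_iff₀ hz0 (by norm_num)]
  have h2 : (100 : ℝ) * E.card ≤ z := by exact_mod_cast hcard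
  linarith

end Pool.Agent.H.MP_711652_nt.G2
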