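import Pool.Agent.H.MP_711652_nt.G2.CoreF3
import Pool.Agent.H.MP_711652_nt.G2.NumI

/-!
# GAP3, CoreD: the general core (helper55)
-/

set_option autoImplicit false

namespace Pool.Agent.H.MP_711652_nt.G2

open Finset Filter Pool.Agent.H.MP_711652_nt.LG

theorem coreD : CoreD := by
  intro A A₁ hA C₃ hC
  obtain ⟨X₀, hX₀⟩ := eventually_atTop.1 ((nd_ev (ev_EvL A A₁)).and (eventually_ge_atTop 1))
  refine ⟨dc A₁ C₃, dc_pos hC, 3600000000 ^ 9, X₀, ?_⟩
  intro X hX n e h hadm P c hBig hc hPz W hW M wd hM hdisj hcard hwin hfar hPd N hN hpos hLim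
  obtain ⟨h1, h2⟩ := hX₀ X hX
  have H : Ctx A A₁ X n e h := ⟨h2, h1, hadm⟩
  have hM0 : 0 < M := by
    have h3 : (0 : ℝ) < M := lt_of_lt_of_le (Real.exp_pos h) hM
    exact_mod_cast h3
  have hε := dε_pos e
  have hε1 := H.ε1
  exact core_finite3 hM0 (D := dD A₁ X) (z := dz X n e) (B := dB X n e) (Y := dY X)
    (K := dK n e) (Om := dO n e) (R := dR A₁ X n C₃) (N := N) (W := W) (h := ⌈Real.log X⌉₊)
    (Lim := X ^ 2) (ε := dε e) (C4 := dC4 n e C₃) (η := dε e / 10) (c := c) (P := P) hBig hPz wd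
    hdisj (fun j => Nat.le_floor (hcard j)) hwin
    (fun i j k hk l hl => (hfar i j k hk l hl).trans
      (Nat.add_le_add_left (H.far (by omega)) l)) hPd hW H.K1 (by positivity) (by linarith)
    (H.hD hA) (by have := H.Dz; omega) hpos hLim H.X2 hε (by linarith)
    (by have := H.B.2.2.2.2; omega)
    (H.hC4 hC) (H.h16 hC hN) (H.hN hC hN) (H.hg hC) (H.hθ hC hBig.hc hc) le_rfl (H.hZ hC)
    (H.C4M hC hM)

end Pool.Agent.H.MP_711652_nt.G2
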