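import Pool.Agent.H.MP_42e49e_nt.SelSmall

/-!
# GAP3, SvJ: upper bound sieve for the positions of an interval, every residue (helper65)
-/

set_option autoImplicit false

namespace Pool.Agent.H.MP_711652_nt.G2

open Finset
open Pool.Agent.H.MP_3e6494_nt (prm mem_prm)
open Pool.MP42e49e (cls cls_card cls_inter sieveP sieveP_sifted sieveP_G nuI nuI_apply)
open Pool.Agent.H.MP_711652_nt (Gsum selberg_bound)

theorem svJ_rem {y u B : ℕ} {d : ℕ} (hd : d ∣ (sieveP y 1 0 u B).prodPrimes) :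
    |(sieveP y 1 0 u B).rem d| ≤ d := by
  have hd' : d ∣ ∏ q ∈ prm u, q := hd
  have hd0 : 0 < d := Nat.pos_of_dvd_of_pos hd' (prod_pos fun q hq => (mem_prm.1 hq).1.pos)
  obtain ⟨e, he⟩ := cls_inter (Nat.coprime_one_left d) y 0 B
  have h1 : (sieveP y 1 0 u B).multSum d = ((cls y (1 * d) e).card : ℝ) := by
    unfold BoundingSieve.multSum sieveP
    simp only
    rw [sum_image (fun a _ b _ h => Nat.add_left_cancel h), ← he, card_filter]
    push_cast
    rfl
  have h2 := cls_card (Nat.mul_pos one_pos hd0) y e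
  have h3 : (sieveP y 1 0 u B).rem d = ((cls y (1 * d) e).card : ℝ) - y / ((1 * d : ℕ) : ℝ) := by
    rw [BoundingSieve.rem, h1]
    change _ - nuI d * ((y : ℝ) / ((1 : ℕ) : ℝ)) = _
    rw [nuI_apply, Nat.cast_mul]
    congr 1
    have hd1 : (0 : ℝ) < d := by exact_mod_cast hd0
    field_simp
  rw [h3]
  refine h2.trans ?_
  exact_mod_cast hd0

theorem svJ_sel {y : ℕ} {t : ℝ} (ht : 1 ≤ t) (h14 : 14 * t ≤ Real.log y) (B : ℕ) :
    (((Ioc 0 y).filter fun k => Nat.Coprime (∏ q ∈ prm ⌊Real.exp t⌋₊, q) (B + k)).card : ℝ) ≤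
      3 * ((y : ℝ) / t) := by
  obtain ⟨u, hu⟩ : ∃ u : ℕ, u = ⌊Real.exp t⌋₊ := ⟨_, rfl⟩
  rw [← hu]
  have hy0 : (0 : ℝ) < y := by
    rcases Nat.eq_zero_or_pos y with h | h
    · rw [h, Nat.cast_zero, Real.log_zero] at h14
      linarith
    · exact_mod_cast h
  have hu0 : 1 ≤ u := by
    rw [hu]
    exact Nat.le_floor (by
      rw [Nat.cast_one]
      exact Real.one_le_exp (by linarith))
  have h1 : ((Ioc 0 y).filter fun k => Nat.Coprime (∏ q ∈ prm u, q) (B + k)) =
      (cls y 1 0).filter fun n => Nat.Coprime (∏ q ∈ prm u, q) (B + n) := by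
    ext k
    unfold cls
    simp only [mem_filter, mem_Ioc, mem_Icc, one_dvd, and_true]
    constructor
    · rintro ⟨⟨h1, h2⟩, h3⟩
      exact ⟨⟨h1, h2⟩, h3⟩
    · rintro ⟨⟨h1, h2⟩, h3⟩
      exact ⟨⟨h1, h2⟩, h3⟩
  have h2 := selberg_bound (s := sieveP y 1 0 u B) (z := u) hu0
    (fun d hd => by
      change (nuI d)⁻¹ ≤ d
      rw [nuI_apply, inv_inv])
    (fun d hd => svJ_rem hd)
  rw [sieveP_sifted, ← h1] at h2
  have hXe : Real.exp (14 * t) ≤ y := by
    rwa [Real.le_log_iff_exp_le hy0] at h14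
  have hmass : (sieveP y 1 0 u B).totalMass = y := by
    change (y : ℝ) / ((1 : ℕ) : ℝ) = y
    rw [Nat.cast_one, div_one]
  rw [hmass] at h2
  have hlog : t ≤ Real.log ((u : ℝ) + 1) := by
    rw [Real.le_log_iff_exp_le (by positivity), hu]
    exact (Nat.lt_floor_add_one _).le
  have hG : t / 2 ≤ Gsum (sieveP y 1 0 u B) u :=
    le_trans (by linarith) (sieveP_G (y := y) (p := 1) (c := 0) (B := B))
  have h3 : (y : ℝ) * (Gsum (sieveP y 1 0 u B) u)⁻¹ ≤ y * (2 / t) := by
    apply mul_le_mul_of_nonneg_left _ hy0.le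
    rw [inv_le_comm₀ (by linarith) (by positivity), inv_div]
    exact hG
  have h4 : (u : ℝ) ^ 6 ≤ y / t := by
    have h5 : (u : ℝ) ≤ Real.exp t := by
      rw [hu]
      exact Nat.floor_le (Real.exp_pos _).le
    have h6 : (u : ℝ) ^ 6 ≤ Real.exp (6 * t) := by
      have e : Real.exp (6 * t) = Real.exp t ^ 6 := by
        rw [← Real.exp_nat_mul]
        norm_num
      rw [e]
      exact pow_le_pow_left₀ (Nat.cast_nonneg _) h5 6
    rw [le_div_iff₀ (by linarith)]
    have h7 : t ≤ Real.exp (8 * t) := by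
      have := Real.add_one_le_exp (8 * t)
      linarith
    calc (u : ℝ) ^ 6 * t ≤ Real.exp (6 * t) * Real.exp (8 * t) :=
          mul_le_mul h6 h7 (by linarith) (by positivity)
      _ = Real.exp (14 * t) := by
          rw [← Real.exp_add]
          congr 1
          ring
      _ ≤ y := hXe
  calc _ ≤ (y : ℝ) * (Gsum (sieveP y 1 0 u B) u)⁻¹ + (u : ℝ) ^ 6 := h2
    _ ≤ y * (2 / t) + y / t := add_le_add h3 h4
    _ = 3 * (y / t) := by ring

/-- **Upper bound sieve for an interval of positions**, every shift `ν`. -/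
theorem svJ {D H : ℕ} (hD : 2 ≤ D) (hH : D ^ 2 ≤ H) (ν : ℕ) :
    (((Ioc 0 H).filter fun k => Nat.Coprime (ν + k) (primorial D)).card : ℝ) ≤
      21 * (H / Real.log D) := by
  have hD1 : (1 : ℝ) < D := by exact_mod_cast hD
  have hlD : 0 < Real.log D := Real.log_pos hD1
  have hH0 : (0 : ℝ) ≤ H := Nat.cast_nonneg H
  rcases le_or_gt (Real.log D) 21 with h1 | h1
  · have h2 : (((Ioc 0 H).filter fun k => Nat.Coprime (ν + k) (primorial D)).card : ℝ) ≤ H := by
      have := card_filter_le (Ioc 0 H) fun k => Nat.Coprime (ν + k) (primorial D)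
      rw [Nat.card_Ioc, Nat.sub_zero] at this
      exact_mod_cast this
    refine h2.trans ?_
    rw [← mul_div_assoc, le_div_iff₀ hlD]
    nlinarith
  · set t := Real.log D / 7 with ht
    have ht1 : 1 ≤ t := by
      rw [ht]
      linarith
    have h2 : 14 * t ≤ Real.log H := by
      have h3 : ((D : ℝ)) ^ 2 ≤ H := by exact_mod_cast hH
      have h4 := Real.log_le_log (by positivity) h3
      rw [Real.log_pow] at h4
      push_cast at h4
      rw [ht]
      linarith
    have h3 := svJ_sel ht1 h2 ν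
    have h4 : 3 * ((H : ℝ) / t) = 21 * (H / Real.log D) := by
      rw [ht]
      field_simp
      ring
    rw [h4] at h3
    refine le_trans (Nat.cast_le.2 (card_le_card ?_)) h3
    intro k hk
    rw [mem_filter] at hk ⊢
    refine ⟨hk.1, ?_⟩
    refine Nat.Coprime.prod_left fun q hq => ?_
    obtain ⟨hqp, hqu⟩ := mem_prm.1 hq
    have hqD : q ≤ D := by
      have h5 : (q : ℝ) ≤ Real.exp t := (Nat.le_floor_iff (Real.exp_pos t).le).1 hqu
      have h6 : Real.exp t ≤ D := by
        calc Real.exp t ≤ Real.exp (Real.log D) := Real.exp_le_exp.2 (by rw [ht]; linarith)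
          _ = D := Real.exp_log (by linarith)
      exact_mod_cast h5.trans h6
    have hqd : q ∣ primorial D := by
      unfold primorial
      refine Finset.dvd_prod_of_mem (fun p => p) ?_
      rw [mem_filter, mem_range]
      exact ⟨by omega, hqp⟩
    exact Nat.Coprime.coprime_dvd_left hqd hk.2.symm

/-- The form for GAP3: `D = ⌊log X / 10⌋`, `H ≥ (log X) ^ 2`. -/
theorem svJ_log {L : ℝ} (hL : 400 ≤ L) {H : ℕ} (hH : L ^ 2 ≤ H) (ν : ℕ) :
    (((Ioc 0 H).filter fun k => Nat.Coprime (ν + k) (primorial ⌊L / 10⌋₊)).card : ℝ) ≤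
      42 * (H / Real.log L) := by
  set D := ⌊L / 10⌋₊ with hD
  have hDL : (D : ℝ) ≤ L / 10 := Nat.floor_le (by linarith)
  have hDlow : L / 20 ≤ D := by
    have := Nat.lt_floor_add_one (L / 10)
    rw [← hD] at this
    linarith
  have hD2 : 2 ≤ D := by
    have h1 : (2 : ℝ) ≤ D := by linarith
    exact_mod_cast h1
  have hlogL : 0 < Real.log L := Real.log_pos (by linarith)
  have hlogD : Real.log L / 2 ≤ Real.log D := by
    have h1 : Real.sqrt L ≤ L / 20 := by
      rw [Real.sqrt_le_left (by linarith)]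
      nlinarith
    have h2 : Real.log (Real.sqrt L) ≤ Real.log D :=
      Real.log_le_log (Real.sqrt_pos.2 (by linarith)) (h1.trans hDlow)
    rwa [Real.log_sqrt (by linarith)] at h2
  have hDH : D ^ 2 ≤ H := by
    have h1 : ((D : ℝ)) ^ 2 ≤ H := by
      refine le_trans (pow_le_pow_left₀ (Nat.cast_nonneg _) hDL 2) (le_trans ?_ hH)
      exact pow_le_pow_left₀ (by linarith) (by linarith) 2
    exact_mod_cast h1
  refine (svJ hD2 hDH ν).trans ?_
  have h1 : (H : ℝ) / Real.log D ≤ H / (Real.log L / 2) :=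
    div_le_div_of_nonneg_left (Nat.cast_nonneg H) (by linarith) hlogD
  have h2 : (H : ℝ) / (Real.log L / 2) = 2 * (H / Real.log L) := by
    field_simp
  rw [h2] at h1
  linarith

end Pool.Agent.H.MP_711652_nt.G2
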