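import Pool.Agent.H.MP_711652_nt.G2.StmtD
import Pool.Agent.H.MP_711652_nt.G2.OneS
import Pool.Agent.H.MP_711652_nt.G2.SvJ
import Pool.Agent.H.MP_711652_nt.G2.Num

/-!
# GAP3: `CoreS` from the general core `CoreD`
-/

set_option autoImplicit false

namespace Pool.Agent.H.MP_711652_nt.G2

open Finset Filter

/-- the number of scales -/
noncomputable def nU (u : ℝ) : ℕ := ⌊Real.logb 2 (u / 2) / 25⌋₊

lemma nU_facts (h₀ : ℝ) : ∃ u₀ : ℝ, 4 ≤ u₀ ∧ ∀ u : ℝ, u₀ ≤ u →
    h₀ ≤ u / 2 ∧ 10 ≤ nU u ∧ 8 * Real.exp 21 ≤ nU u ∧ (2 : ℝ) ^ nU u ≤ (u / 2) ^ (1 / 25 : ℝ) ∧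
      Real.log u / 100 ≤ nU u ∧ 3 * u ^ (1 / 3 : ℝ) ≤ (u / 2) ^ (2 / 5 : ℝ) ∧
      Real.exp (u / 2) + 1 ≤ Real.exp u / (2 * Real.log u) := by
  have e1 : ∀ᶠ u : ℝ in atTop, 8 * Real.exp 21 + 11 ≤ Real.logb 2 (u / 2) / 25 := by
    have h1 : Tendsto (fun u : ℝ => Real.logb 2 (u / 2) / 25) atTop atTop := by
      apply Tendsto.atTop_div_const (by norm_num)
      exact (Real.tendsto_logb_atTop (by norm_num)).comp
        (tendsto_id.atTop_div_const (by norm_num))
    exact h1.eventually_ge_atTop _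
  have e2 : ∀ᶠ u : ℝ in atTop, 6 ≤ u ^ (1 / 15 : ℝ) :=
    (tendsto_rpow_atTop (by norm_num)).eventually_ge_atTop _
  have e3 : ∀ᶠ u : ℝ in atTop, 2 * Real.log u ≤ Real.exp (u / 2) / 2 := by
    have h1 := (isLittleO_rpow_exp_pos_mul_atTop (1 : ℝ) (b := 1 / 2) (by norm_num)).bound
      (c := 1 / 4) (by norm_num)
    filter_upwards [h1, eventually_ge_atTop 1] with u h2 h3
    rw [Real.rpow_one, Real.norm_of_nonneg (by linarith), Real.norm_of_nonneg (Real.exp_pos _).le] at h2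
    have h4 := Real.log_le_sub_one_of_pos (show 0 < u by linarith)
    have h5 : (1 : ℝ) / 2 * u = u / 2 := by ring
    rw [h5] at h2
    linarith
  obtain ⟨u₀, hu₀⟩ := eventually_atTop.1 ((e1.and e2).and (e3.and (eventually_ge_atTop (2 * |h₀| + 4))))
  refine ⟨max u₀ 4, le_max_right _ _, fun u hu => ?_⟩
  obtain ⟨⟨f1, f2⟩, f3, f4⟩ := hu₀ u ((le_max_left _ _).trans hu)
  have hu4 : 4 ≤ u := (le_max_right _ _).trans hu
  have hu0 : 0 < u := by linarith
  have habs : h₀ ≤ |h₀| := le_abs_self h₀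
  have hexp : 0 < Real.exp 21 := Real.exp_pos _
  set x := Real.logb 2 (u / 2) / 25 with hx
  have hx0 : 0 ≤ x := by linarith
  have hnl : x - 1 < nU u := Nat.sub_one_lt_floor _
  have hnu : (nU u : ℝ) ≤ x := Nat.floor_le hx0
  refine ⟨by linarith [abs_nonneg h₀], ?_, by linarith, ?_, ?_, ?_, ?_⟩
  · have : (10 : ℝ) ≤ nU u := by linarith
    exact_mod_cast this
  · rw [← Real.rpow_natCast]
    calc (2 : ℝ) ^ ((nU u : ℕ) : ℝ) ≤ (2 : ℝ) ^ x :=
          Real.rpow_le_rpow_of_exponent_le (by norm_num) hnu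
      _ = (u / 2) ^ (1 / 25 : ℝ) := by
        have h1 : x = Real.logb 2 (u / 2) * (1 / 25) := by rw [hx]; ring
        rw [h1, Real.rpow_mul (by norm_num), Real.rpow_logb (by norm_num) (by norm_num) (by linarith)]
  · have h1 : x / 2 ≤ nU u := by linarith
    have h2 : Real.log u / 50 ≤ x := by
      rw [hx, Real.logb, div_div]
      have h3 : Real.log u / 2 ≤ Real.log (u / 2) := by
        have h4 : Real.log (u / 2) = Real.log u - Real.log 2 := Real.log_div hu0.ne' (by norm_num)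
        have h5 : Real.log 4 ≤ Real.log u := Real.log_le_log (by norm_num) hu4
        have h6 : Real.log 4 = 2 * Real.log 2 := by
          rw [show (4 : ℝ) = 2 ^ 2 by norm_num, Real.log_pow]; norm_num
        linarith
      have h7 : Real.log 2 ≤ 1 := by
        have := Real.log_two_lt_d9
        linarith
      have h8 : 0 < Real.log 2 := Real.log_pos (by norm_num)
      have h9 : 0 ≤ Real.log (u / 2) := Real.log_nonneg (by linarith)
      rw [div_le_div_iff₀ (by norm_num) (by positivity)]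
      nlinarith
    linarith
  · have h1 : u ^ (2 / 5 : ℝ) = u ^ (1 / 3 : ℝ) * u ^ (1 / 15 : ℝ) := by
      rw [← Real.rpow_add hu0]; norm_num
    have h2 : (u / 2) ^ (2 / 5 : ℝ) = u ^ (2 / 5 : ℝ) / 2 ^ (2 / 5 : ℝ) :=
      Real.div_rpow hu0.le (by norm_num) _
    have h3 : (2 : ℝ) ^ (2 / 5 : ℝ) ≤ 2 := by
      calc (2 : ℝ) ^ (2 / 5 : ℝ) ≤ (2 : ℝ) ^ (1 : ℝ) :=
            Real.rpow_le_rpow_of_exponent_le (by norm_num) (by norm_num)
        _ = 2 := Real.rpow_one 2
    have h4 : (0 : ℝ) < (2 : ℝ) ^ (2 / 5 : ℝ) := by positivity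
    rw [h2, le_div_iff₀ h4, h1]
    have h5 : 0 < u ^ (1 / 3 : ℝ) := by positivity
    nlinarith [mul_le_mul_of_nonneg_left f2 h5.le, mul_le_mul_of_nonneg_left h3 h5.le]
  · have hlog : 0 < Real.log u := Real.log_pos (by linarith)
    rw [le_div_iff₀ (by positivity)]
    have h1 : Real.exp u = Real.exp (u / 2) * Real.exp (u / 2) := by
      rw [← Real.exp_add]; congr 1; ring
    have h2 : 1 ≤ Real.exp (u / 2) := Real.one_le_exp (by linarith)
    rw [h1]
    nlinarith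

lemma log_le_rpow_ev : ∀ᶠ L : ℝ in atTop,
    L ^ (1 / 20 : ℝ) + Real.log L + 1 ≤ L ^ (9 / 10 : ℝ) := by
  have h2 : ∀ᶠ L : ℝ in atTop, L ^ (1 / 20 : ℝ) ≤ 1 / 4 * L ^ (9 / 10 : ℝ) := by
    have h3 : Tendsto (fun L : ℝ => L ^ (17 / 20 : ℝ)) atTop atTop :=
      tendsto_rpow_atTop (by norm_num)
    filter_upwards [h3.eventually_ge_atTop 4, eventually_ge_atTop 1] with L h4 h5
    have h6 : L ^ (9 / 10 : ℝ) = L ^ (1 / 20 : ℝ) * L ^ (17 / 20 : ℝ) := by
      rw [← Real.rpow_add (by linarith)]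
      norm_num
    have h7 : 0 ≤ L ^ (1 / 20 : ℝ) := by positivity
    nlinarith
  have h8 : ∀ᶠ L : ℝ in atTop, Real.log L ≤ 1 / 4 * L ^ (9 / 10 : ℝ) := by
    have h9 := (isLittleO_log_rpow_atTop (r := 9 / 10) (by norm_num)).bound
      (c := 1 / 4) (by norm_num)
    filter_upwards [h9, eventually_ge_atTop 1] with w hw hw1
    rw [Real.norm_of_nonneg (Real.log_nonneg hw1), Real.norm_of_nonneg (by positivity)] at hw
    exact hw
  have h10 : ∀ᶠ L : ℝ in atTop, 4 ≤ L ^ (9 / 10 : ℝ) :=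
    (tendsto_rpow_atTop (by norm_num)).eventually_ge_atTop _
  filter_upwards [h2, h8, h10] with L h9 h10 h11
  linarith

/-- every window has few positions -/
lemma window_card {L c u : ℝ} {Lam ν W j : ℕ} (hc : 0 < c) (hW : W = primorial ⌊L / 10⌋₊)
    (hL : 10 ^ 6 ≤ L) (hcL : 1 ≤ c * L ^ (1 / 3 : ℝ)) (hu : 1 ≤ Real.log u)
    (hLam1 : c * L * Real.log u ≤ Lam) (hLam2 : (Lam : ℝ) ≤ 2 * (c * L * Real.log u)) :
    (((Ioc (j * Lam) ((j + 1) * Lam)).filter (fun k => Nat.Coprime (ν + k) W)).card : ℝ) ≤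
      168 * c * Real.log u * (L / Real.log L) := by
  have hL0 : 0 < L := by linarith
  set x := L ^ (1 / 3 : ℝ) with hx
  have hx0 : 0 < x := by positivity
  have hx3 : x ^ 3 = L := by
    rw [hx, ← Real.rpow_natCast, ← Real.rpow_mul hL0.le]
    norm_num
  have hx100 : 100 ≤ x := by
    by_contra hcon
    push Not at hcon
    have : x ^ 3 < 100 ^ 3 := by gcongr
    rw [hx3] at this
    linarith
  set D := ⌊x⌋₊ with hD
  have hDu : (D : ℝ) ≤ x := Nat.floor_le hx0.le
  have hDl : x - 1 < D := Nat.sub_one_lt_floor _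
  have hD2 : 2 ≤ D := by
    have : (2 : ℝ) ≤ D := by linarith
    exact_mod_cast this
  have hDL : D ≤ ⌊L / 10⌋₊ := by
    apply Nat.floor_le_floor
    rw [← hx3]
    nlinarith [sq_nonneg x]
  have hDLam : D ^ 2 ≤ Lam := by
    have h1 : (D : ℝ) ^ 2 ≤ Lam := by
      calc (D : ℝ) ^ 2 ≤ x ^ 2 := by gcongr
        _ ≤ (c * x) * x ^ 2 := by nlinarith [sq_nonneg x]
        _ = c * L := by rw [← hx3]; ring
        _ ≤ c * L * Real.log u := by
          have : 0 < c * L := by positivity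
          nlinarith
        _ ≤ Lam := hLam1
    exact_mod_cast h1
  have h1 := svJ hD2 hDLam (ν + j * Lam)
  have hdvd : primorial D ∣ W := by
    rw [hW]
    unfold primorial
    apply prod_dvd_prod_of_subset
    intro p hp
    rw [mem_filter, mem_range] at hp ⊢
    exact ⟨by omega, hp.2⟩
  have h2 : ((Ioc (j * Lam) ((j + 1) * Lam)).filter (fun k => Nat.Coprime (ν + k) W)).card ≤
      ((Ioc 0 Lam).filter fun k => Nat.Coprime (ν + j * Lam + k) (primorial D)).card := by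
    apply card_le_card_of_injOn (fun k => k - j * Lam)
    · intro k hk
      rw [Finset.mem_coe, mem_filter, mem_Ioc] at hk
      rw [Finset.mem_coe, mem_filter, mem_Ioc]
      obtain ⟨⟨k1, k2⟩, k3⟩ := hk
      have k4 : (j + 1) * Lam = j * Lam + Lam := by ring
      have k6 : 0 < k - j * Lam ∧ k - j * Lam ≤ Lam := by
        generalize j * Lam = q at *
        omega
      refine ⟨k6, ?_⟩
      have k5 : ν + j * Lam + (k - j * Lam) = ν + k := by omega
      show Nat.Coprime (ν + j * Lam + (k - j * Lam)) (primorial D)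
      rw [k5]
      exact Nat.Coprime.coprime_dvd_right hdvd k3
    · intro k hk l hl hkl
      rw [Finset.mem_coe, mem_filter, mem_Ioc] at hk hl
      simp only at hkl
      omega
  have h3 : (((Ioc (j * Lam) ((j + 1) * Lam)).filter (fun k => Nat.Coprime (ν + k) W)).card : ℝ) ≤
      21 * (Lam / Real.log D) := le_trans (by exact_mod_cast h2) h1
  have hlogL : 0 < Real.log L := Real.log_pos (by linarith)
  have hlogD : 1 / 4 * Real.log L ≤ Real.log D := by
    have h4 : x / 2 ≤ D := by linarith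
    have h5 : Real.log (x / 2) ≤ Real.log D := Real.log_le_log (by positivity) h4
    have h6 : Real.log (x / 2) = 1 / 3 * Real.log L - Real.log 2 := by
      rw [Real.log_div hx0.ne' (by norm_num), hx, Real.log_rpow hL0]
    have h7 : 12 * Real.log 2 ≤ Real.log L := by
      have h8 : 12 * Real.log 2 = Real.log (2 ^ 12) := by rw [Real.log_pow]; norm_num
      rw [h8]
      apply Real.log_le_log (by norm_num)
      linarith
    linarith
  have h4 : 0 < 1 / 4 * Real.log L := by positivity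
  calc _ ≤ 21 * (Lam / Real.log D) := h3
    _ ≤ 21 * (2 * (c * L * Real.log u) / (1 / 4 * Real.log L)) := by gcongr
    _ = 168 * c * Real.log u * (L / Real.log L) := by field_simp; ring

theorem coreS_of_coreD (hD : CoreD) (hF : DFacts) : CoreS := by
  classical
  intro A hA
  set A' := ⌈A⌉₊ with hA'
  have hAA' : A ≤ A' := Nat.le_ceil A
  set A₁ := 8 * A' + 25 with hA₁
  obtain ⟨c₂, hc₂, h₀, X₀, hX₀⟩ := hD A' A₁ le_rfl (8 * Real.exp 21) (by positivity)
  obtain ⟨h₀', X₀', hX₀'⟩ := hF A' A₁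
  set c : ℝ := min 1 (c₂ / 16800) with hc
  have hc0 : 0 < c := lt_min one_pos (by positivity)
  have hc1 : c ≤ 1 := min_le_left _ _
  have hc2 : c ≤ c₂ / 16800 := min_le_right _ _
  obtain ⟨u₀, hu₀4, hu₀⟩ := nU_facts (max h₀ h₀')
  have e1 := ev_L log_le_rpow_ev
  have e2 : ∀ᶠ L : ℝ in atTop, 1 ≤ c * L ^ (1 / 3 : ℝ) :=
    ((tendsto_rpow_atTop (by norm_num)).const_mul_atTop hc0).eventually_ge_atTop _
  have e3 := ev_L (eventually_ge_atTop (max (10 ^ 6) (1 / c)))
  obtain ⟨X₁, hX₁⟩ := eventually_atTop.1 ((e1.and (ev_L e2)).and (e3.and primorial_small))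
  refine ⟨c, hc0, u₀, by linarith, X₀ + X₀' + X₁ + 3, fun X hX u hu hu2 ν hν => ?_⟩
  obtain ⟨⟨f1, f2⟩, f3, f4, f5⟩ := hX₁ X (by omega)
  have hX0 : (0 : ℝ) < X := by exact_mod_cast (by omega : 0 < X)
  have hX3 : 3 ≤ X := by omega
  obtain ⟨g1, g2, g3, g4, g5, g6, g7⟩ := hu₀ u hu
  set L := Real.log X with hL
  have hL6 : 10 ^ 6 ≤ L := (le_max_left _ _).trans f3
  have hLc : 1 / c ≤ L := (le_max_right _ _).trans f3
  have hL0 : 0 < L := by linarith
  have hL1 : 1 ≤ L := by linarith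
  have hu4 : 4 ≤ u := hu₀4.trans hu
  have hlogu : 1 ≤ Real.log u := by
    rw [Real.le_log_iff_exp_le (by linarith)]
    have := Real.exp_one_lt_d9
    linarith
  set n := nU u with hn
  set h := u / 2 with hh
  set e := min (3 * u ^ (1 / 3 : ℝ)) (A * Real.log L) with he
  have hlogL : 0 < Real.log L := Real.log_pos (by linarith)
  have hloglog : Real.log (Real.log X) = Real.log L := rfl
  have he0 : 0 ≤ e := le_min (by positivity) (by positivity)
  have hAdm : ∀ h₁ : ℝ, h₁ ≤ max h₀ h₀' → Adm A' h₁ X n e h := by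
    intro h₁ hh₁
    refine ⟨g2, he0, ?_, (min_le_left _ _).trans g6, g4, hh₁.trans g1, ?_⟩
    · refine (min_le_right _ _).trans ?_
      rw [hloglog]
      gcongr
    · have : h ≤ u := by rw [hh]; linarith
      exact this.trans hu2
  obtain ⟨d1, d2, d3, d4, d5, d6, d7, d8, d9, d10, d11⟩ :=
    hX₀' X (by omega) n e h (hAdm h₀' (le_max_right _ _))
  obtain ⟨hBig, hcS⟩ := big_full d1 d2 g3 d4 d5
  have hcore := hX₀ X (by omega) n e h (hAdm h₀ (le_max_left _ _)) _ _ hBig hcS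
    (fun p hp => by
      have := mem_Pbig.1 hp
      exact ⟨this.1, this.2.1⟩)
  -- the modulus
  obtain ⟨W, hW⟩ : ∃ W : ℕ, W = primorial ⌊L / 10⌋₊ := ⟨_, rfl⟩
  rw [← hW] at hν ⊢
  rw [← hW] at f4
  have hD1 : L ^ 25 / 2 ≤ dD A₁ X := by
    refine le_trans ?_ d9
    have : L ^ 25 ≤ L ^ A₁ := pow_le_pow_right₀ hL1 (by omega)
    linarith
  have hL25 : 4 * L ^ 2 ≤ L ^ 25 := by
    have h1 : L ^ 25 = L ^ 2 * L ^ 23 := by ring
    have h2 : 4 ≤ L ^ 23 := by
      calc (4 : ℝ) ≤ L := by linarith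
        _ = L ^ 1 := (pow_one L).symm
        _ ≤ L ^ 23 := pow_le_pow_right₀ hL1 (by norm_num)
    rw [h1]
    have : 0 < L ^ 2 := by positivity
    nlinarith
  have hWD : ∀ p : ℕ, p.Prime → dD A₁ X < p → ¬ p ∣ W := by
    intro p hp hpD hpW
    rw [hW, Nat.Prime.dvd_primorial_iff hp] at hpW
    have h1 : (p : ℝ) ≤ L / 10 := by
      refine le_trans (by exact_mod_cast hpW) (Nat.floor_le (by positivity))
    have h2 : (dD A₁ X : ℝ) < p := by exact_mod_cast hpD
    nlinarith [sq_nonneg L]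
  -- the windows
  set Lam := LamW c u X with hLam
  have hcL : 1 ≤ c * L := by
    rw [div_le_iff₀ hc0] at hLc
    linarith
  have hLam1 : c * L * Real.log u ≤ Lam := Nat.le_ceil _
  have hLam2 : (Lam : ℝ) ≤ 2 * (c * L * Real.log u) := by
    have h1 : (Lam : ℝ) < c * L * Real.log u + 1 := Nat.ceil_lt_add_one (by positivity)
    have h2 : 1 ≤ c * L * Real.log u := by nlinarith
    linarith
  have hLamR : 0 < (Lam : ℝ) := by
    have : 0 < c * L * Real.log u := by positivity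
    linarith
  have hLam0 : 0 < Lam := by exact_mod_cast hLamR
  set HR := Real.exp u * L with hHR
  have hHR0 : 0 < HR := by positivity
  set M := ⌊HR / Lam⌋₊ with hM
  have hMu : (M : ℝ) ≤ HR / Lam := Nat.floor_le (by positivity)
  have hMl : HR / Lam - 1 < M := Nat.sub_one_lt_floor _
  have hexpM : Real.exp h ≤ M := by
    have h1 : Real.exp u / (2 * Real.log u) ≤ HR / Lam := by
      rw [div_le_div_iff₀ (by positivity) hLamR]
      calc Real.exp u * Lam ≤ Real.exp u * (2 * (c * L * Real.log u)) := by gcongr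
        _ = c * (Real.exp u * L * (2 * Real.log u)) := by ring
        _ ≤ 1 * (Real.exp u * L * (2 * Real.log u)) := by gcongr
        _ = HR * (2 * Real.log u) := by rw [hHR]; ring
    linarith
  set wd : Fin M → Finset ℕ := fun j =>
    ((Ioc ((j : ℕ) * Lam) (((j : ℕ) + 1) * Lam)).filter (fun k => Nat.Coprime (ν + k) W)).image
      (fun k => ν + k) with hwd
  have hmem : ∀ (j : Fin M) (q : ℕ), q ∈ wd j → ∃ k, (j : ℕ) * Lam < k ∧ k ≤ ((j : ℕ) + 1) * Lam ∧
      Nat.Coprime (ν + k) W ∧ ν + k = q := by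
    intro j q hq
    rw [hwd] at hq
    simp only [mem_image, mem_filter, mem_Ioc] at hq
    obtain ⟨k, ⟨⟨k1, k2⟩, k3⟩, k4⟩ := hq
    exact ⟨k, k1, k2, k3, k4⟩
  have hkH : ∀ (j : Fin M) (k : ℕ), k ≤ ((j : ℕ) + 1) * Lam → (k : ℝ) ≤ HR := by
    intro j k hk
    have h1 : ((j : ℕ) + 1) ≤ M := j.2
    have h2 : (k : ℝ) ≤ (M : ℝ) * Lam := by
      have : k ≤ M * Lam := hk.trans (Nat.mul_le_mul_right _ h1)
      exact_mod_cast this
    rw [le_div_iff₀ hLamR] at hMu
    linarith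
  have hHRexp : HR = Real.exp (u + Real.log L) := by
    rw [hHR, Real.exp_add, Real.exp_log hL0]
  have hHR9 : HR < Real.exp (L ^ (9 / 10 : ℝ)) := by
    rw [hHRexp, Real.exp_lt_exp]
    linarith
  have hL9 : L ^ (9 / 10 : ℝ) ≤ L := by
    calc L ^ (9 / 10 : ℝ) ≤ L ^ (1 : ℝ) := Real.rpow_le_rpow_of_exponent_le hL1 (by norm_num)
      _ = L := Real.rpow_one L
  have hHRX : HR ≤ X := by
    have h1 : (X : ℝ) = Real.exp L := (Real.exp_log hX0).symm
    rw [h1]
    refine hHR9.le.trans ?_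
    rw [Real.exp_le_exp]
    exact hL9
  have hdisj : ∀ i j, i ≠ j → Disjoint (wd i) (wd j) := by
    intro i j hij
    rw [Finset.disjoint_left]
    intro q hq1 hq2
    obtain ⟨k, k1, k2, -, k4⟩ := hmem i q hq1
    obtain ⟨l, l1, l2, -, l4⟩ := hmem j q hq2
    have hkl : k = l := by omega
    subst hkl
    apply hij
    apply Fin.ext
    have h1 : (i : ℕ) * Lam < ((j : ℕ) + 1) * Lam := lt_of_lt_of_le k1 l2
    have h2 : (j : ℕ) * Lam < ((i : ℕ) + 1) * Lam := lt_of_lt_of_le l1 k2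
    have h3 := Nat.lt_of_mul_lt_mul_right h1
    have h4 := Nat.lt_of_mul_lt_mul_right h2
    omega
  have hcard : ∀ j, ((wd j).card : ℝ) ≤ c₂ * n * L / Real.log L := by
    intro j
    have h1 : ((wd j).card : ℝ) ≤ (((Ioc ((j : ℕ) * Lam) (((j : ℕ) + 1) * Lam)).filter
        (fun k => Nat.Coprime (ν + k) W)).card : ℝ) := by
      rw [hwd]
      exact_mod_cast card_image_le
    have h2 := window_card (ν := ν) (j := (j : ℕ)) hc0 hW hL6 f2 hlogu hLam1 hLam2
    refine (h1.trans h2).trans ?_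
    have h3 : 168 * c * Real.log u ≤ c₂ * n := by
      calc 168 * c * Real.log u ≤ 168 * (c₂ / 16800) * Real.log u := by gcongr
        _ = c₂ * (Real.log u / 100) := by ring
        _ ≤ c₂ * n := by gcongr
    calc 168 * c * Real.log u * (L / Real.log L) ≤ c₂ * n * (L / Real.log L) := by gcongr
      _ = c₂ * n * L / Real.log L := by ring
  have hLamD : Lam ≤ dD A₁ X := by
    have h1 : Real.log u ≤ L := by
      have h2 := Real.log_le_sub_one_of_pos (show 0 < u by linarith)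
      have h3 : L ^ (1 / 20 : ℝ) ≤ L := by
        calc L ^ (1 / 20 : ℝ) ≤ L ^ (1 : ℝ) := Real.rpow_le_rpow_of_exponent_le hL1 (by norm_num)
          _ = L := Real.rpow_one L
      linarith
    have h2 : (Lam : ℝ) ≤ dD A₁ X := by
      calc (Lam : ℝ) ≤ 2 * (c * L * Real.log u) := hLam2
        _ ≤ 2 * (1 * L * L) := by gcongr
        _ = 4 * L ^ 2 / 2 := by ring
        _ ≤ L ^ 25 / 2 := by linarith
        _ ≤ dD A₁ X := hD1
    exact_mod_cast h2
  have hwin : ∀ j, ∀ k ∈ wd j, ∀ l ∈ wd j, k ≤ l + dD A₁ X := by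
    intro j q hq r hr
    obtain ⟨k, k1, k2, -, k4⟩ := hmem j q hq
    obtain ⟨l, l1, l2, -, l4⟩ := hmem j r hr
    have h1 : ((j : ℕ) + 1) * Lam = (j : ℕ) * Lam + Lam := by ring
    omega
  have hfar : ∀ i j, ∀ k ∈ wd i, ∀ l ∈ wd j, k ≤ l + X := by
    intro i j q hq r hr
    obtain ⟨k, k1, k2, -, k4⟩ := hmem i q hq
    obtain ⟨l, l1, l2, -, l4⟩ := hmem j r hr
    have h1 : (k : ℝ) ≤ X := (hkH i k k2).trans hHRX
    have h2 : k ≤ X := by exact_mod_cast h1
    omega
  have hP : ∀ p ∈ Pbig (dz X n e) (dB X n e), ∀ i j, ∀ k ∈ wd i, ∀ l ∈ wd j, k ≠ l →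
      ¬ k ≡ l [MOD p] := by
    intro p hp i j q hq r hr hqr hmod
    obtain ⟨k, k1, k2, -, k4⟩ := hmem i q hq
    obtain ⟨l, l1, l2, -, l4⟩ := hmem j r hr
    have hpz : dz X n e < p := (mem_Pbig.1 hp).1
    have hpH : HR < p := by
      have h1 : (dz X n e : ℝ) < p := by exact_mod_cast hpz
      have h2 : Real.exp (L ^ (9 / 10 : ℝ)) ≤ dz X n e := d7
      linarith
    have hk : k < p := by
      have h1 : (k : ℝ) < p := (hkH i k k2).trans_lt hpH
      exact_mod_cast h1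
    have hl : l < p := by
      have h1 : (l : ℝ) < p := (hkH j l l2).trans_lt hpH
      exact_mod_cast h1
    rw [← k4, ← l4] at hmod
    have h1 : k ≡ l [MOD p] := Nat.ModEq.add_left_cancel' _ hmod
    have h2 : k = l := Nat.ModEq.eq_of_lt_of_lt h1 hk hl
    apply hqr
    rw [← k4, ← l4, h2]
  have hNN : (X : ℝ) ^ (4 / 5 : ℝ) ≤ ((X / W + 1 : ℕ) : ℝ) := by
    have := num_N (X := X) (by omega)
    rw [← hL, ← hW] at this
    exact this
  have hWX : W ≤ X := by
    have h1 : (W : ℝ) ≤ X := by linarith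
    exact_mod_cast h1
  have hpos : ∀ j, ∀ k ∈ wd j, 0 < k := by
    intro j q hq
    obtain ⟨k, k1, k2, -, k4⟩ := hmem j q hq
    omega
  have hsize : ∀ m < X / W + 1, ∀ j, ∀ k ∈ wd j, W * m + k ≤ X ^ 2 := by
    intro m hm j q hq
    obtain ⟨k, k1, k2, -, k4⟩ := hmem j q hq
    have h1 : (k : ℝ) ≤ X := (hkH j k k2).trans hHRX
    have h2 : k ≤ X := by exact_mod_cast h1
    have h3 : W * m ≤ X := by
      calc W * m ≤ W * (X / W) := Nat.mul_le_mul_left _ (by omega)
        _ ≤ X := Nat.mul_div_le X W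
    have h4 : 3 * X ≤ X ^ 2 := by nlinarith
    omega
  have hfin := hcore W hWD M wd hexpM hdisj hcard hwin hfar hP (X / W + 1) hNN hpos hsize
  have hδ : 6 * (Real.exp (-e) / 100) ≤
      1 / 2 * (Real.exp (-(3 * u ^ (1 / 3 : ℝ))) + L ^ (-A)) := by
    have h1 : Real.exp (-e) ≤ Real.exp (-(3 * u ^ (1 / 3 : ℝ))) + L ^ (-A) := by
      have hp1 : 0 < Real.exp (-(3 * u ^ (1 / 3 : ℝ))) := Real.exp_pos _
      have hp2 : 0 < L ^ (-A) := Real.rpow_pos_of_pos hL0 _
      rcases min_choice (3 * u ^ (1 / 3 : ℝ)) (A * Real.log L) with h2 | h2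
      · rw [he, h2]; linarith
      · rw [he, h2]
        have h3 : Real.exp (-(A * Real.log L)) = L ^ (-A) := by
          rw [Real.rpow_def_of_pos hL0]
          congr 1; ring
        rw [h3]; linarith
    have h2 : 0 < Real.exp (-e) := Real.exp_pos _
    linarith
  have hN0 : (0 : ℝ) ≤ ((X / W + 1 : ℕ) : ℝ) := Nat.cast_nonneg _
  refine le_trans ?_ (hfin.trans (mul_le_mul_of_nonneg_right hδ hN0))
  refine Nat.cast_le.2 (card_le_card ?_)
  intro m hm
  simp only [mem_filter] at hm ⊢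
  refine ⟨hm.1, fun j => ?_⟩
  by_contra hcon
  push Not at hcon
  apply hm.2
  refine ⟨j, ?_, ?_⟩
  · have h1 := hkH j (((j : ℕ) + 1) * Lam) le_rfl
    exact h1
  · intro k k1 k2 k3
    have hq : ν + k ∈ wd j := by
      rw [hwd]
      simp only [mem_image, mem_filter, mem_Ioc]
      exact ⟨k, ⟨⟨k1, k2⟩, k3⟩, rfl⟩
    by_cases hs : ∀ p : ℕ, p.Prime → dD A₁ X < p → p ≤ dz X n e → ¬ p ∣ W * m + (ν + k)
    · obtain ⟨p, hp, hpd⟩ := hcon (ν + k) hq hs
      have h1 := mem_Pbig.1 hp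
      refine ⟨p, h1.2.2, ?_, by rw [add_assoc]; exact hpd⟩
      refine le_trans ?_ d6
      exact_mod_cast h1.2.1
    · push Not at hs
      obtain ⟨p, hp, hp1, hp2, hp3⟩ := hs
      refine ⟨p, hp, ?_, by rw [add_assoc]; exact hp3⟩
      refine le_trans ?_ d6
      exact_mod_cast hp2.trans d3

end Pool.Agent.H.MP_711652_nt.G2
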