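import Pool.Agent.H.MP_711652_nt.G2.StmtD
import Pool.Agent.H.MP_711652_nt.G2.Abs3
import Pool.Agent.H.MP_711652_nt.G2.SmallPair

/-!
# GAP3, CoreF3: the finite part of the general core (helper62)
-/

set_option autoImplicit false

namespace Pool.Agent.H.MP_711652_nt.G2

open Finset Filter Pool.Agent.H.MP_711652_nt.LG

open Classical in
/-- The finite part of the general core: windows `wd j`, small primes of `(D, z]`, big primes `P` of `(z, B]`. -/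
theorem core_finite3 {M : ℕ} (hM0 : 0 < M) {D z B Y K Om R N W h Lim : ℕ} {ε C4 η c : ℝ} {P : Finset ℕ}
    (hBig : Big P B Y K c z) (hPz : ∀ p ∈ P, z < p ∧ p ≤ B)
    (wd : Fin M → Finset ℕ) (hdisj : ∀ i j, i ≠ j → Disjoint (wd i) (wd j)) (hcard : ∀ j, (wd j).card ≤ R)
    (hwin : ∀ j, ∀ k ∈ wd j, ∀ l ∈ wd j, k ≤ l + D)
    (hfar : ∀ i j, ∀ k ∈ wd i, ∀ l ∈ wd j, k ≤ l + (D + 1) ^ h)
    (hPd : ∀ p ∈ P, ∀ i j, ∀ k ∈ wd i, ∀ l ∈ wd j, k ≠ l → ¬ k ≡ l [MOD p])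
    (hW : ∀ p, p.Prime → D < p → ¬ p ∣ W)
    (hK : 1 ≤ K) (hη : 0 < η) (hη1 : η ≤ 1) (hD : (2 ^ 40 * K * ((h : ℝ) + 1) / η) ^ 8 ≤ D) (hDz : D ≤ z)
    (hpos : ∀ j, ∀ k ∈ wd j, 0 < k) (hLim : ∀ m < N, ∀ j, ∀ k ∈ wd j, W * m + k ≤ Lim)
    (hLim2 : Lim < z ^ (Om + 1)) (hε : 0 < ε) (hε1 : ε ≤ 1 / 10) (hB1 : 1 < B)
    (hC4 : 2 * (16 * 2 ^ (Om + 1)) ^ (4 * K) *
      Real.exp (R * (12 * (Real.log D / Real.log z))) ≤ C4)
    (h16 : 2 ^ R * ((z : ℝ) ^ 248) ^ (16 * K) ≤ (N : ℝ))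
    (hN : 100 * ((R : ℝ) + 1) * (2 ^ R * (Y : ℝ) ^ 2 * ((z : ℝ) ^ 248) ^ (K + 1)) ^ 4 ≤ ε * N)
    (hg : 16 * (K : ℝ) * R / z ≤ ε / 10)
    (hθ : R * (12 * (Real.log D / Real.log z)) * (((B : ℝ) / Y) ^ (1 / Real.log B) *
      Real.exp (R * (12 * (Real.log D / Real.log z)) * (2 * (1 / Real.log B) * c)) +
      (K * (2 / ((z : ℝ) - 1))) ^ 2 + 4 * K * R / z) ≤ ε / 2)
    (hη' : η ≤ ε / 10)
    (hZ : (1 + 10 / ε) * (((2 * Om + 2) / ((z : ℝ) - 1)) ^ 2 * (K : ℝ) ^ 4 * C4) ≤ ε / 10)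
    (hW4 : C4 ≤ ε * M) :
    (((range N).filter fun m => ∀ j, ∃ k ∈ wd j, (∀ p : ℕ, p.Prime → D < p → p ≤ z → ¬ p ∣ W * m + k) ∧
      ∀ p ∈ P, ¬ p ∣ W * m + k).card : ℝ) ≤ 6 * ε * N := by
  obtain ⟨J, hJ⟩ : ∃ J : Finset ℕ, J = univ.biUnion wd := ⟨_, rfl⟩
  have hwJ : ∀ j, ∀ k ∈ wd j, k ∈ J := fun j k hk => by
    rw [hJ, mem_biUnion]
    exact ⟨j, mem_univ j, hk⟩
  have hJw : ∀ k ∈ J, ∃ j, k ∈ wd j := by
    intro k hk
    rw [hJ, mem_biUnion] at hk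
    obtain ⟨j, -, hj⟩ := hk
    exact ⟨j, hj⟩
  obtain ⟨A, hA⟩ : ∃ A : ℕ → {k // k ∈ J} → ℕ → Prop,
      A = fun (p : ℕ) (i : {k // k ∈ J}) (m : ℕ) => p ∣ W * m + (i : ℕ) := ⟨_, rfl⟩
  have hD1 : 1 ≤ D := by
    have h1 : (0 : ℝ) < (2 ^ 40 * K * ((h : ℝ) + 1) / η) ^ 8 := by
      have : (1 : ℝ) ≤ K := by exact_mod_cast hK
      positivity
    have h2 : (0 : ℝ) < D := lt_of_lt_of_le h1 hD
    exact_mod_cast h2
  have hF : Forms P A := by
    rw [hA]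
    refine forms_linear P W (fun i : {k // k ∈ J} => (i : ℕ)) hBig.prime
      (fun p hp => hW p (hBig.prime p hp) (lt_of_le_of_lt hDz (hPz p hp).1)) ?_
    intro p hp i j hij
    obtain ⟨a, ha⟩ := hJw i i.2
    obtain ⟨b, hb⟩ := hJw j j.2
    exact hPd p hp a b i ha j hb fun h => hij (Subtype.ext h)
  have hcop : ∀ p ∈ P, ¬ p ∣ ∏ q ∈ (Ioc D z).filter Nat.Prime, q := by
    intro p hp hdvd
    have hpp := hBig.prime p hp
    obtain ⟨q, hq, hpq⟩ := (Prime.dvd_finset_prod_iff hpp.prime _).1 hdvd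
    rw [mem_filter, mem_Ioc] at hq
    have h1 := (Nat.prime_dvd_prime_iff_eq hpp hq.2).1 hpq
    have h2 := (hPz p hp).1
    omega
  have hlB : 0 < Real.log B := Real.log_pos (by exact_mod_cast hB1)
  have hne : Nonempty (Fin M) := ⟨⟨0, hM0⟩⟩
  have key := abs3 (Lam := LamF D z A) (η := η) (v := 12 * (Real.log D / Real.log z)) (cL := (z : ℝ) ^ 248)
    hF hcop hBig (univ : Finset (Fin M)) univ_nonempty
    (fun j => (univ : Finset {k // k ∈ J}).filter (fun i => (i : ℕ) ∈ wd j))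
    (by
      intro a _ b _
      rw [hA]
      refine small_pair (ι := {k // k ∈ J}) (α := Fin M)
        (fun j => (univ : Finset {k // k ∈ J}).filter (fun i => (i : ℕ) ∈ wd j))
        (fun i : {k // k ∈ J} => (i : ℕ)) Subtype.val_injective hK hη hη1 hD hDz hW ?_ ?_ a b
      · intro j i hi l hl
        rw [mem_filter] at hi hl
        exact hwin j i hi.2 l hl.2
      · intro i l
        obtain ⟨a, ha⟩ := hJw i i.2
        obtain ⟨b, hb⟩ := hJw l l.2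
        exact hfar a b i ha l hb)
    (by
      intro a _ b _ hab
      rw [Finset.disjoint_left]
      intro i hi hi2
      rw [mem_filter] at hi hi2
      exact (Finset.disjoint_left.1 (hdisj a b hab)) hi.2 hi2.2)
    R
    (by
      intro a _
      refine le_trans ?_ (hcard a)
      refine card_le_card_of_injOn (fun i => (i : ℕ)) ?_ ?_
      · intro i hi
        rw [mem_coe, mem_filter] at hi
        exact hi.2
      · intro i _ j _ hij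
        exact Subtype.ext hij)
    N Om
    (by
      intro m hm i
      rw [hA]
      obtain ⟨a, ha⟩ := hJw i i.2
      have hfin : {p | p ∈ Pbig z B ∧ p ∣ W * m + (i : ℕ)}.Finite :=
        (Pbig z B).finite_toSet.subset fun p hp => hp.1
      refine le_trans (Set.ncard_le_ncard ?_ hfin) (Pbig_hits (L := Lim) ?_ ?_ hLim2)
      · intro p hp
        exact ⟨mem_Pbig.2 ⟨(hPz p hp.1).1, (hPz p hp.1).2, hBig.prime p hp.1⟩, hp.2⟩
      · have := hpos a i ha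
        omega
      · exact hLim m hm a i ha)
    ε (1 / Real.log B) C4 hε hε1 (by positivity)
    (by rw [one_div, inv_mul_cancel₀ hlB.ne']) hC4 h16 hN hg hθ hη' hZ
    (by rw [card_univ, Fintype.card_fin]; exact hW4)
  refine le_trans ?_ key
  refine Nat.cast_le.2 (card_le_card ?_)
  intro m hm
  simp only [mem_filter] at hm ⊢
  refine ⟨hm.1, fun j _ => ?_⟩
  obtain ⟨k, hk, hk1, hk2⟩ := hm.2 j
  refine ⟨⟨k, hwJ j k hk⟩, ⟨mem_univ _, hk⟩, ?_, ?_⟩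
  · intro p hp hAp
    rw [hA] at hAp
    exact hk2 p hp hAp
  · refine LamF_eq_one hD1 fun p hp hAp => ?_
    rw [mem_filter, mem_Ioc] at hp
    rw [hA] at hAp
    exact hk1 p hp.2 hp.1.1 hp.1.2 hAp

end Pool.Agent.H.MP_711652_nt.G2
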