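import Pool.Agent.H.MP_711652_nt.G2.Num

/-!
# GAP2, NumC: more facts for `X → ∞`, the numerical hypotheses of `abs2` (helper55)
-/

set_option autoImplicit false

namespace Pool.Agent.H.MP_711652_nt.G2

open Filter Real

/-- lower bound for a power of the floor of `X ^ a` -/
theorem num_pow_gt (a β C : ℝ) (k : ℕ) (ha : 0 < a) (h : β < a * k) :
    ∀ᶠ X : ℕ in atTop, C * (X : ℝ) ^ β < (⌊(X : ℝ) ^ a⌋₊ : ℝ) ^ k := by
  filter_upwards [num_ev_const 2 a ha, num_ev_const (C * 2 ^ k + 1) (a * k - β) (by linarith),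
    eventually_gt_atTop 0] with X h1 h2 h3
  obtain ⟨e1, -, -, -, -⟩ := num_floor h1 h3
  have hX : (0 : ℝ) < X := by exact_mod_cast h3
  have h4 : ((X : ℝ) ^ a / 2) ^ k ≤ (⌊(X : ℝ) ^ a⌋₊ : ℝ) ^ k :=
    pow_le_pow_left₀ (by positivity) e1 k
  refine lt_of_lt_of_le ?_ h4
  rw [div_pow, lt_div_iff₀ (by positivity)]
  have h5 : ((X : ℝ) ^ a) ^ k = (X : ℝ) ^ (a * k - β) * (X : ℝ) ^ β := by
    rw [← Real.rpow_add hX, ← Real.rpow_natCast, ← Real.rpow_mul hX.le]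
    congr 1
    ring
  rw [h5]
  have h6 : (0 : ℝ) < (X : ℝ) ^ β := Real.rpow_pos_of_pos hX β
  calc C * (X : ℝ) ^ β * 2 ^ k = (C * 2 ^ k) * (X : ℝ) ^ β := by ring
    _ < (X : ℝ) ^ (a * k - β) * (X : ℝ) ^ β :=
        mul_lt_mul_of_pos_right (by linarith) h6

/-- upper bound for a power of the floor of `X ^ a` -/
theorem num_pow_le {X : ℕ} {a : ℝ} (hX : 0 < X) (k : ℕ) :
    (⌊(X : ℝ) ^ a⌋₊ : ℝ) ^ k ≤ (X : ℝ) ^ (a * k) := by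
  have hX0 : (0 : ℝ) < X := by exact_mod_cast hX
  have h1 : (⌊(X : ℝ) ^ a⌋₊ : ℝ) ≤ (X : ℝ) ^ a := Nat.floor_le (by positivity)
  calc (⌊(X : ℝ) ^ a⌋₊ : ℝ) ^ k ≤ ((X : ℝ) ^ a) ^ k := pow_le_pow_left₀ (Nat.cast_nonneg _) h1 k
    _ = (X : ℝ) ^ (a * k) := by rw [← Real.rpow_natCast, ← Real.rpow_mul hX0.le]

theorem num_pow_floor {X n : ℕ} {a b : ℝ} (hX : 0 < X) (hab : a * 2 ^ n = b) :
    ⌊(X : ℝ) ^ a⌋₊ ^ (2 ^ n) ≤ ⌊(X : ℝ) ^ b⌋₊ := by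
  apply Nat.le_floor
  have h := num_pow_le (a := a) hX (2 ^ n)
  push_cast at h ⊢
  rw [hab] at h
  exact h

/-- the terms with `1 / z` -/
theorem num_small {q z K R G : ℝ} (hK : 1 ≤ K) (hR : 0 ≤ R) (hq : 4 ≤ q) (hz : q ^ 2 / 2 ≤ z)
    (hRq : R ≤ q) :
    16 * K * R / z ≤ 32 * K / q ∧
    (K * (2 / (z - 1))) ^ 2 + 4 * K * R / z ≤ (4 * K ^ 2 + 8 * K) / q ∧
    (G / (z - 1)) ^ 2 ≤ G ^ 2 / q ∧ K * (2 * R / z) ≤ 4 * K / q := by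
  have hq0 : 0 < q := by linarith
  have hqq : q ^ 2 = q * q := sq q
  have hz0 : 0 < z := by nlinarith
  have hz1 : q ≤ z - 1 := by nlinarith
  have h1 : R / z ≤ 2 / q := by
    rw [div_le_div_iff₀ hz0 hq0]
    nlinarith
  have h2 : 0 ≤ R / z := by positivity
  have hi : (1 / (z - 1)) ^ 2 ≤ 1 / q := by
    have e1 : 1 / (z - 1) ≤ 1 / q := one_div_le_one_div_of_le hq0 hz1
    have e2 : 0 ≤ 1 / (z - 1) := by
      apply one_div_nonneg.2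
      linarith
    have e3 : 1 / q ≤ 1 := by
      rw [div_le_one hq0]
      linarith
    have e4 : 0 ≤ 1 / q := by positivity
    calc (1 / (z - 1)) ^ 2 ≤ (1 / q) ^ 2 := pow_le_pow_left₀ e2 e1 2
      _ = (1 / q) * (1 / q) := sq _
      _ ≤ 1 * (1 / q) := mul_le_mul_of_nonneg_right e3 e4
      _ = 1 / q := one_mul _
  refine ⟨?_, ?_, ?_, ?_⟩
  · calc 16 * K * R / z = 16 * K * (R / z) := by ring
      _ ≤ 16 * K * (2 / q) := mul_le_mul_of_nonneg_left h1 (by positivity)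
      _ = 32 * K / q := by ring
  · have e1 : (K * (2 / (z - 1))) ^ 2 = 4 * K ^ 2 * (1 / (z - 1)) ^ 2 := by
      ring
    have e2 : 4 * K ^ 2 * (1 / (z - 1)) ^ 2 ≤ 4 * K ^ 2 * (1 / q) :=
      mul_le_mul_of_nonneg_left hi (by positivity)
    have e3 : 4 * K * R / z ≤ 4 * K * (2 / q) := by
      calc 4 * K * R / z = 4 * K * (R / z) := by ring
        _ ≤ _ := mul_le_mul_of_nonneg_left h1 (by positivity)
    rw [e1]
    calc _ ≤ 4 * K ^ 2 * (1 / q) + 4 * K * (2 / q) := add_le_add e2 e3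
      _ = _ := by ring
  · calc (G / (z - 1)) ^ 2 = G ^ 2 * (1 / (z - 1)) ^ 2 := by ring
      _ ≤ G ^ 2 * (1 / q) := mul_le_mul_of_nonneg_left hi (by positivity)
      _ = _ := by ring
  · calc K * (2 * R / z) = 2 * K * (R / z) := by ring
      _ ≤ 2 * K * (2 / q) := mul_le_mul_of_nonneg_left h1 (by positivity)
      _ = 4 * K / q := by ring

/-- `2 ^ R ≤ exp (A L / log L)` -/
theorem num_two_pow {R : ℕ} {u : ℝ} (h : (R : ℝ) ≤ u) : (2 : ℝ) ^ R ≤ Real.exp u := by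
  have h2 : (2 : ℝ) ≤ Real.exp 1 := by
    have := Real.add_one_le_exp (1 : ℝ)
    linarith
  calc (2 : ℝ) ^ R ≤ Real.exp 1 ^ R := pow_le_pow_left₀ (by norm_num) h2 R
    _ = Real.exp (R : ℝ) := by rw [← Real.exp_nat_mul, mul_one]
    _ ≤ Real.exp u := Real.exp_le_exp.2 h

theorem num_nat_le_two_pow (R : ℕ) : (R : ℝ) + 1 ≤ 2 ^ R := by
  have : R + 1 ≤ 2 ^ R := Nat.lt_two_pow_self
  exact_mod_cast this

/-- `h16` -/
theorem num_h16 {X K R : ℕ} {a N : ℝ} (hX : 1 ≤ X) (hR : (2 : ℝ) ^ R ≤ (X : ℝ) ^ (1 / 100 : ℝ))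
    (hK : a * K ≤ 3 / 100000) (hN : (X : ℝ) ^ (4 / 5 : ℝ) ≤ N) :
    (2 : ℝ) ^ R * (((⌊(X : ℝ) ^ a⌋₊ : ℕ) : ℝ) ^ 248) ^ (16 * K) ≤ N := by
  have hX0 : (0 : ℝ) < X := by exact_mod_cast hX
  have hX1 : (1 : ℝ) ≤ X := by exact_mod_cast hX
  refine le_trans ?_ hN
  have h1 : (((⌊(X : ℝ) ^ a⌋₊ : ℕ) : ℝ) ^ 248) ^ (16 * K) ≤ (X : ℝ) ^ (3968 * (a * K)) := by
    rw [← pow_mul]
    refine (num_pow_le hX _).trans (le_of_eq ?_)
    congr 1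
    push_cast
    ring
  calc (2 : ℝ) ^ R * (((⌊(X : ℝ) ^ a⌋₊ : ℕ) : ℝ) ^ 248) ^ (16 * K)
      ≤ (X : ℝ) ^ (1 / 100 : ℝ) * (X : ℝ) ^ (3968 * (a * K)) :=
        mul_le_mul hR h1 (by positivity) (by positivity)
    _ = (X : ℝ) ^ (1 / 100 + 3968 * (a * K)) := by rw [← Real.rpow_add hX0]
    _ ≤ (X : ℝ) ^ (4 / 5 : ℝ) := Real.rpow_le_rpow_of_exponent_le hX1 (by linarith)

/-- `hN` -/
theorem num_hN {X K R : ℕ} {a y N ε : ℝ} (hX : 1 ≤ X)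
    (hR : (2 : ℝ) ^ R ≤ (X : ℝ) ^ (1 / 100 : ℝ)) (hy : y = 1 / 100000)
    (hK : a * (K + 1) ≤ 4 / 100000) (hN : (X : ℝ) ^ (4 / 5 : ℝ) ≤ N) (hε : 0 < ε)
    (hbig : 100 / ε ≤ (X : ℝ) ^ (7 / 10 : ℝ)) :
    100 * ((R : ℝ) + 1) * (2 ^ R * ((⌊(X : ℝ) ^ y⌋₊ : ℕ) : ℝ) ^ 2 *
      (((⌊(X : ℝ) ^ a⌋₊ : ℕ) : ℝ) ^ 248) ^ (K + 1)) ^ 4 ≤ ε * N := by
  have hX0 : (0 : ℝ) < X := by exact_mod_cast hX
  have hX1 : (1 : ℝ) ≤ X := by exact_mod_cast hX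
  have h1 : (((⌊(X : ℝ) ^ a⌋₊ : ℕ) : ℝ) ^ 248) ^ (K + 1) ≤ (X : ℝ) ^ (248 * (a * (K + 1))) := by
    rw [← pow_mul]
    refine (num_pow_le hX _).trans (le_of_eq ?_)
    congr 1
    push_cast
    ring
  have h2 : ((⌊(X : ℝ) ^ y⌋₊ : ℕ) : ℝ) ^ 2 ≤ (X : ℝ) ^ (y * 2) := by
    have := num_pow_le (X := X) (a := y) hX 2
    exact_mod_cast this
  have h3 : (2 : ℝ) ^ R * ((⌊(X : ℝ) ^ y⌋₊ : ℕ) : ℝ) ^ 2 *
      (((⌊(X : ℝ) ^ a⌋₊ : ℕ) : ℝ) ^ 248) ^ (K + 1) ≤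
      (X : ℝ) ^ (1 / 100 + y * 2 + 248 * (a * (K + 1))) := by
    rw [Real.rpow_add hX0, Real.rpow_add hX0]
    exact mul_le_mul (mul_le_mul hR h2 (by positivity) (by positivity)) h1 (by positivity)
      (by positivity)
  have h4 : ((2 : ℝ) ^ R * ((⌊(X : ℝ) ^ y⌋₊ : ℕ) : ℝ) ^ 2 *
      (((⌊(X : ℝ) ^ a⌋₊ : ℕ) : ℝ) ^ 248) ^ (K + 1)) ^ 4 ≤
      (X : ℝ) ^ ((1 / 100 + y * 2 + 248 * (a * (K + 1))) * 4) := by
    calc _ ≤ ((X : ℝ) ^ (1 / 100 + y * 2 + 248 * (a * (K + 1)))) ^ 4 :=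
          pow_le_pow_left₀ (by positivity) h3 4
      _ = _ := by
          rw [← Real.rpow_natCast, ← Real.rpow_mul hX0.le]
          norm_num
  have h5 : (R : ℝ) + 1 ≤ (X : ℝ) ^ (1 / 100 : ℝ) := (num_nat_le_two_pow R).trans hR
  calc 100 * ((R : ℝ) + 1) * (2 ^ R * ((⌊(X : ℝ) ^ y⌋₊ : ℕ) : ℝ) ^ 2 *
      (((⌊(X : ℝ) ^ a⌋₊ : ℕ) : ℝ) ^ 248) ^ (K + 1)) ^ 4
      ≤ 100 * (X : ℝ) ^ (1 / 100 : ℝ) *
        (X : ℝ) ^ ((1 / 100 + y * 2 + 248 * (a * (K + 1))) * 4) :=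
        mul_le_mul (mul_le_mul_of_nonneg_left h5 (by norm_num)) h4 (by positivity) (by positivity)
    _ = 100 * (X : ℝ) ^ (1 / 100 + (1 / 100 + y * 2 + 248 * (a * (K + 1))) * 4) := by
        rw [mul_assoc, ← Real.rpow_add hX0]
    _ ≤ 100 * (X : ℝ) ^ (1 / 10 : ℝ) := by
        refine mul_le_mul_of_nonneg_left ?_ (by norm_num)
        refine Real.rpow_le_rpow_of_exponent_le hX1 ?_
        rw [hy]
        linarith
    _ = ε * (100 / ε * (X : ℝ) ^ (1 / 10 : ℝ)) := by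
        field_simp
    _ ≤ ε * ((X : ℝ) ^ (7 / 10 : ℝ) * (X : ℝ) ^ (1 / 10 : ℝ)) := by
        refine mul_le_mul_of_nonneg_left ?_ hε.le
        exact mul_le_mul_of_nonneg_right hbig (by positivity)
    _ ≤ ε * N := by
        refine mul_le_mul_of_nonneg_left (le_trans (le_of_eq ?_) hN) hε.le
        rw [← Real.rpow_add hX0]
        norm_num

/-- the product `R v` -/
theorem num_Rv {R L a A lD lz : ℝ} (hA : 0 < A) (ha : 0 < a) (hL : 0 < L) (hlL : 0 < Real.log L)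
    (hR : R ≤ A * L / Real.log L) (hlD0 : 0 ≤ lD) (hlD : lD ≤ 3 * Real.log L)
    (hlz : a * L / 2 ≤ lz) : R * (12 * (lD / lz)) ≤ 72 * A / a := by
  have hlz0 : 0 < a * L / 2 := by positivity
  have h1 : lD / lz ≤ 3 * Real.log L / (a * L / 2) :=
    div_le_div₀ (by positivity) hlD hlz0 hlz
  have h2 : 12 * (lD / lz) ≤ 12 * (3 * Real.log L / (a * L / 2)) := by linarith
  have h3 : 0 ≤ 12 * (lD / lz) := by
    have : 0 ≤ lD / lz := div_nonneg hlD0 (hlz0.le.trans hlz)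
    linarith
  calc R * (12 * (lD / lz)) ≤ A * L / Real.log L * (12 * (3 * Real.log L / (a * L / 2))) :=
        mul_le_mul hR h2 h3 (by positivity)
    _ = 72 * A / a := by
        field_simp
        norm_num

/-- the exponent in the tilt -/
theorem num_expo {Rv c lB L A a b n y : ℝ} (hA : 0 < A) (ha : 0 < a) (hb : 0 < b) (hL : 0 < L)
    (hn : 0 < n) (hRv : Rv ≤ 72 * A / a) (hc : c ≤ 8 * Real.exp 21 * (a * L) / n)
    (hc0 : 0 ≤ c) (hlB : b * L / 2 ≤ lB) (hn2 : 4608 * Real.exp 21 * A / y ≤ n) (hy : 0 < y) :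
    Rv * (2 * (1 / lB) * c) ≤ y / (2 * b) := by
  have hlB0 : 0 < b * L / 2 := by positivity
  have h1 : 1 / lB ≤ 1 / (b * L / 2) := one_div_le_one_div_of_le hlB0 hlB
  have h2 : 0 ≤ 1 / lB := one_div_nonneg.2 (hlB0.le.trans hlB)
  have h3 : 2 * (1 / lB) * c ≤ 2 * (1 / (b * L / 2)) * (8 * Real.exp 21 * (a * L) / n) :=
    mul_le_mul (by linarith) hc hc0 (by positivity)
  have h4 : 0 ≤ 2 * (1 / lB) * c := by positivity
  calc Rv * (2 * (1 / lB) * c) ≤ 72 * A / a * (2 * (1 / (b * L / 2)) *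
        (8 * Real.exp 21 * (a * L) / n)) := mul_le_mul hRv h3 h4 (by positivity)
    _ = 2304 * Real.exp 21 * A / (b * n) := by
        field_simp
        norm_num
    _ ≤ y / (2 * b) := by
        rw [div_le_iff₀ hy] at hn2
        rw [div_le_div_iff₀ (by positivity) (by positivity)]
        nlinarith [hn2, hb]

end Pool.Agent.H.MP_711652_nt.G2
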