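import Mathlib

/-!
# GAP2 (Theorem G): the statements.  Text: team-store `h44_711652_G_TEXT.md` (helper44)
-/

set_option autoImplicit false

namespace Pool.Agent.H.MP_711652_nt.G2

/-- There is a run of integers, all in `(n, n + T log X]`, of length `lambda log X`, without prime. -/
def VoidNear (lam T : ℝ) (X n : ℕ) : Prop :=
  ∃ t : ℕ, n ≤ t ∧ (t : ℝ) + lam * Real.log X ≤ n + T * Real.log X ∧
    ∀ k : ℕ, t < k → (k : ℝ) ≤ t + lam * Real.log X → ¬ k.Prime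

/-- Theorem I: all but `ε X` of the integers `n < X`. -/
def ThmI : Prop :=
  ∀ lam ε : ℝ, 0 < lam → 0 < ε → ∃ T : ℝ, 0 < T ∧ ∃ X₀ : ℕ, ∀ X : ℕ, X₀ ≤ X →
    ({n : ℕ | n < X ∧ ¬ VoidNear lam T X n}.ncard : ℝ) ≤ ε * X

/-- A long gap between consecutive primes starts in `[p, p + T log X]`. -/
def GapNear (lam T : ℝ) (X p : ℕ) : Prop :=
  ∃ k : ℕ, p ≤ Nat.nth Nat.Prime k ∧ (Nat.nth Nat.Prime k : ℝ) ≤ p + T * Real.log X ∧
    lam * Real.log X ≤ (Nat.nth Nat.Prime (k + 1) : ℝ) - Nat.nth Nat.Prime k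

/-- Theorem G: all but `ε X / log X` of the primes `p ≤ X`. -/
def ThmG : Prop :=
  ∀ lam ε : ℝ, 0 < lam → 0 < ε → ∃ T : ℝ, 0 < T ∧ ∃ X₀ : ℕ, ∀ X : ℕ, X₀ ≤ X →
    ({p : ℕ | p ≤ X ∧ p.Prime ∧ ¬ GapNear lam T X p}.ncard : ℝ) ≤ ε * X / Real.log X

end Pool.Agent.H.MP_711652_nt.G2
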