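import Pool.Agent.H.MP_711652_nt.G2.Res
import Pool.Agent.H.MP_711652_nt.G2.Stmt

/-!
# MP_711652_nt, GAP2, Res: Theorem I from the statement for one residue (helper91)
-/

set_option autoImplicit false

namespace Pool.Agent.H.MP_711652_nt.G2

open Finset Pool.Agent.H.MP_711652_nt.LG

open Classical in
/-- The statement for one residue `ν` modulo `W = primorial ⌊log X / 10⌋`: if `M₀` disjoint windows
in `(0, T log X]` consist of positions `k` with `(ν + k, W) = 1` and have at most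
`A log X / log log X` positions each, then for all but `ε N` of the `m < N = X / W + 1` one of the
windows is void: every position `k` in it has a prime `p ≤ X^(1/10)`, `p ∣ W m + ν + k`. -/
def Core : Prop :=
  ∀ A ε : ℝ, 0 < A → 0 < ε → ∃ M₀ : ℕ, ∀ T : ℝ, ∃ X₀ : ℕ, ∀ X : ℕ, X₀ ≤ X →
    ∀ ν : ℕ, ν < primorial ⌊Real.log X / 10⌋₊ → ∀ w : Fin M₀ → Finset ℕ,
      (∀ i j, i ≠ j → Disjoint (w i) (w j)) →
      (∀ j, ∀ k ∈ w j, 0 < k ∧ (k : ℝ) ≤ T * Real.log X ∧
        Nat.Coprime (ν + k) (primorial ⌊Real.log X / 10⌋₊)) →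
      (∀ j, ((w j).card : ℝ) ≤ A * Real.log X / Real.log (Real.log X)) →
      (((range (X / primorial ⌊Real.log X / 10⌋₊ + 1)).filter fun m =>
        ∀ j, ∃ k ∈ w j, ∀ p : ℕ, p.Prime →
          p ∣ primorial ⌊Real.log X / 10⌋₊ * m + ν + k → (X : ℝ) ^ (1 / 10 : ℝ) < p).card : ℝ) ≤
        ε * ((X / primorial ⌊Real.log X / 10⌋₊ + 1 : ℕ) : ℝ)

theorem VoidNear.mono {lam lam' T : ℝ} {X n : ℕ} (h : lam ≤ lam') (hv : VoidNear lam' T X n) :
    VoidNear lam T X n := by
  obtain ⟨t, h1, h2, h3⟩ := hv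
  have hL : 0 ≤ Real.log X := Real.log_natCast_nonneg X
  have h4 : lam * Real.log X ≤ lam' * Real.log X := mul_le_mul_of_nonneg_right h hL
  exact ⟨t, h1, by linarith, fun k hk hk2 => h3 k hk (by linarith)⟩

/-- One point: if one window is void at `m` then `n = W m + ν` is not exceptional. -/
theorem res_void {lam T : ℝ} {X n h j : ℕ} (D W : ℕ) (hW : W = primorial D)
    (hD : (D : ℝ) ≤ (X : ℝ) ^ (1 / 10 : ℝ)) (hn : (X : ℝ) ^ (1 / 10 : ℝ) ≤ n)
    (hh : lam * Real.log X ≤ h) (hT : (j : ℝ) * h + lam * Real.log X ≤ T * Real.log X)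
    (hv : ∀ k ∈ (Ioc (j * h) ((j + 1) * h)).filter (fun k => Nat.Coprime (n % W + k) W),
      ∃ p : ℕ, p.Prime ∧ p ∣ n + k ∧ (p : ℝ) ≤ (X : ℝ) ^ (1 / 10 : ℝ)) :
    VoidNear lam T X n := by
  refine ⟨n + j * h, Nat.le_add_right _ _, ?_, ?_⟩
  · push_cast
    linarith
  · intro k hk1 hk2 hkp
    have hk3 : k ≤ n + (j + 1) * h := by
      have : (k : ℝ) ≤ (n + (j + 1) * h : ℕ) := by
        push_cast at hk2 ⊢
        linarith
      exact_mod_cast this
    obtain ⟨i, rfl⟩ : ∃ i, k = n + i := ⟨k - n, by omega⟩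
    have hi1 : j * h < i := by omega
    have hi2 : i ≤ (j + 1) * h := by omega
    have hi0 : 0 < i := by omega
    -- a small prime divides `n + i`
    have key : ∃ p : ℕ, p.Prime ∧ p ∣ n + i ∧ (p : ℝ) ≤ (X : ℝ) ^ (1 / 10 : ℝ) := by
      by_cases hc : Nat.Coprime (n % W + i) W
      · exact hv i (mem_filter.2 ⟨mem_Ioc.2 ⟨hi1, hi2⟩, hc⟩)
      · obtain ⟨p, hp, hp1, hp2⟩ := Nat.Prime.not_coprime_iff_dvd.1 hc
        refine ⟨p, hp, ?_, ?_⟩
        · have h5 : n + i = W * (n / W) + (n % W + i) := by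
            have := Nat.div_add_mod n W
            omega
          rw [h5]
          exact dvd_add (hp2.mul_right _) hp1
        · have h6 : p ≤ D := by
            rw [hW] at hp2
            have h7 : p ∈ (primorial D).primeFactors :=
              Nat.mem_primeFactors.2 ⟨hp, hp2, (primorial_pos D).ne'⟩
            rw [primeFactors_primorial, Nat.primesLE_eq_filter_range, mem_filter, mem_range] at h7
            omega
          exact le_trans (by exact_mod_cast h6) hD
    obtain ⟨p, hp, hpd, hpX⟩ := key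
    have h8 : p = n + i := (Nat.prime_dvd_prime_iff_eq hp hkp).1 hpd
    have h9 : (p : ℝ) = n + i := by exact_mod_cast h8
    have h10 : (0 : ℝ) < i := by exact_mod_cast hi0
    linarith

/-- The counting step. -/
theorem res_count {X W N B : ℕ} (hW : 0 < W) (hN : X ≤ W * N) (S : Finset ℕ)
    (hS : ∀ n ∈ S, n < X) (bad : Finset ℕ) (E : ℕ → Finset ℕ) (δ : ℝ) (hδ : 0 ≤ δ)
    (hbad : (bad.card : ℝ) ≤ δ * W) (hE : ∀ ν < W, ν ∉ bad → ((E ν).card : ℝ) ≤ δ * N)
    (hS2 : ∀ n ∈ S, n < B ∨ n % W ∈ bad ∨ n / W ∈ E (n % W)) :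
    (S.card : ℝ) ≤ B + 2 * δ * (W * N) := by
  classical
  set f : ℕ → ℕ × ℕ := fun n => (n % W, n / W) with hf
  set U : Finset (ℕ × ℕ) :=
    (range W ×ˢ range N).filter (fun x => x.1 ∈ bad ∨ x.2 ∈ E x.1) with hU
  have h1 : S ⊆ range B ∪ S.filter fun n => ¬ n < B := by
    intro n hn
    rw [mem_union, mem_range, mem_filter]
    tauto
  have h2 : (S.filter fun n => ¬ n < B).card ≤ U.card := by
    refine card_le_card_of_injOn f ?_ ?_
    · intro n hn
      rw [mem_coe, mem_filter] at hn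
      have h3 := hS2 n hn.1
      rw [mem_coe, hU, mem_filter, mem_product, mem_range, mem_range]
      refine ⟨⟨Nat.mod_lt _ hW, ?_⟩, ?_⟩
      · exact Nat.div_lt_of_lt_mul ((hS n hn.1).trans_le hN)
      · tauto
    · intro a _ b _ hab
      rw [hf] at hab
      simp only [Prod.mk.injEq] at hab
      rw [← Nat.div_add_mod a W, ← Nat.div_add_mod b W, hab.1, hab.2]
  have h3 : (U.card : ℝ) ≤ ∑ ν ∈ range W, ((if ν ∈ bad then (N : ℝ) else 0) + δ * N) := by
    rw [hU, card_filter, Nat.cast_sum, sum_product]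
    refine sum_le_sum fun ν hν => ?_
    by_cases hb : ν ∈ bad
    · rw [if_pos hb]
      have h4 : ∀ m ∈ range N, ((if (ν, m).1 ∈ bad ∨ (ν, m).2 ∈ E (ν, m).1 then 1 else 0 : ℕ) : ℝ)
          ≤ 1 := by
        intro m _
        split_ifs <;> norm_num
      have h5 := sum_le_sum h4
      rw [sum_const, card_range, nsmul_eq_mul, mul_one] at h5
      have h6 : 0 ≤ δ * N := mul_nonneg hδ (Nat.cast_nonneg _)
      linarith
    · rw [if_neg hb, zero_add]
      refine le_trans ?_ (hE ν (mem_range.1 hν) hb)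
      rw [← Nat.cast_sum, ← card_filter]
      refine Nat.cast_le.2 (card_le_card ?_)
      intro m hm
      rw [mem_filter] at hm
      tauto
  have h4 : ∑ ν ∈ range W, ((if ν ∈ bad then (N : ℝ) else 0) + δ * N) ≤ 2 * δ * (W * N) := by
    rw [sum_add_distrib, sum_const, card_range, nsmul_eq_mul]
    have h5 : ∑ ν ∈ range W, (if ν ∈ bad then (N : ℝ) else 0) ≤ bad.card * N := by
      rw [← sum_filter, sum_const, nsmul_eq_mul]
      refine mul_le_mul_of_nonneg_right ?_ (Nat.cast_nonneg _)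
      refine Nat.cast_le.2 (card_le_card ?_)
      intro ν hν
      exact (mem_filter.1 hν).2
    have h6 : (bad.card : ℝ) * N ≤ δ * W * N :=
      mul_le_mul_of_nonneg_right hbad (Nat.cast_nonneg _)
    have h7 : 2 * δ * (W * N) = δ * W * N + W * (δ * N) := by ring
    rw [h7]
    linarith
  have h5 : S.card ≤ B + U.card := by
    refine (card_le_card h1).trans ((card_union_le _ _).trans ?_)
    rw [card_range]
    exact Nat.add_le_add_left h2 _
  have h6 : (S.card : ℝ) ≤ B + U.card := by exact_mod_cast h5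
  linarith

/-- Theorem I from the statement for one residue. -/
theorem thmI_of_core (hC : Core) : ThmI := by
  classical
  intro lam0 ε hlam0 hε
  obtain ⟨C, hC0, hgood⟩ := res_good
  set lam : ℝ := max lam0 1 with hlam
  have hlam1 : 1 ≤ lam := le_max_right _ _
  set δ : ℝ := ε / 8 with hδ
  have hδ0 : 0 < δ := by positivity
  obtain ⟨M₀, hM₀⟩ := hC (8 * C * lam / δ) δ (by positivity) hδ0
  set T : ℝ := 2 * M₀ * (lam + 1) + 1 with hT
  obtain ⟨X₁, hX₁⟩ := hM₀ T
  refine ⟨T, by positivity, ?_⟩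
  -- conditions for large `X`
  have e1 : ∀ᶠ X : ℕ in Filter.atTop, 400 ≤ Real.log X := by
    have := Real.tendsto_log_atTop.comp tendsto_natCast_atTop_atTop
    exact this.eventually_ge_atTop 400
  have e2 : ∀ᶠ X : ℕ in Filter.atTop, (X : ℝ) ^ (1 / 10 : ℝ) + 1 ≤ 4 * δ * X := by
    have h1 : ∀ᶠ x : ℝ in Filter.atTop, x ^ (1 / 10 : ℝ) ≤ 2 * δ * x := by
      have h2 := (tendsto_rpow_atTop (show (0 : ℝ) < 9 / 10 by norm_num)).eventually_ge_atTop
        (1 / (2 * δ))
      filter_upwards [h2, Filter.eventually_gt_atTop 0] with x h3 h4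
      have h5 : x = x ^ (1 / 10 : ℝ) * x ^ (9 / 10 : ℝ) := by
        rw [← Real.rpow_add h4]
        norm_num
      rw [div_le_iff₀ (by positivity)] at h3
      have h6 : x ^ (1 / 10 : ℝ) * 1 ≤ x ^ (1 / 10 : ℝ) * (x ^ (9 / 10 : ℝ) * (2 * δ)) :=
        mul_le_mul_of_nonneg_left h3 (Real.rpow_nonneg h4.le _)
      calc x ^ (1 / 10 : ℝ) ≤ x ^ (1 / 10 : ℝ) * (x ^ (9 / 10 : ℝ) * (2 * δ)) := by linarith
        _ = 2 * δ * (x ^ (1 / 10 : ℝ) * x ^ (9 / 10 : ℝ)) := by ring
        _ = 2 * δ * x := by rw [← h5]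
    have h5 : ∀ᶠ x : ℝ in Filter.atTop, 1 ≤ 2 * δ * x :=
      (Filter.tendsto_id.const_mul_atTop (show (0 : ℝ) < 2 * δ by positivity)).eventually_ge_atTop 1
    have h6 : ∀ᶠ x : ℝ in Filter.atTop, x ^ (1 / 10 : ℝ) + 1 ≤ 4 * δ * x := by
      filter_upwards [h1, h5] with x h7 h8
      linarith
    exact tendsto_natCast_atTop_atTop.eventually h6
  have e3 : ∀ᶠ X : ℕ in Filter.atTop, Real.log X / 10 ≤ (X : ℝ) ^ (1 / 10 : ℝ) := by
    refine Filter.Eventually.of_forall fun X => ?_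
    have h1 := Real.log_le_rpow_div (Nat.cast_nonneg X) (show (0 : ℝ) < 1 / 10 by norm_num)
    have h2 : (X : ℝ) ^ (1 / 10 : ℝ) / (1 / 10) = 10 * (X : ℝ) ^ (1 / 10 : ℝ) := by ring
    rw [h2] at h1
    linarith
  have e4 : ∀ᶠ X : ℕ in Filter.atTop, X₁ ≤ X := Filter.eventually_ge_atTop X₁
  obtain ⟨X₀, hX₀⟩ := Filter.eventually_atTop.1 (((e1.and e2).and e3).and e4)
  refine ⟨X₀, fun X hX => ?_⟩
  obtain ⟨⟨⟨hL, hX2⟩, hX3⟩, hX4⟩ := hX₀ X hX
  set L := Real.log X with hLdef
  set D := ⌊L / 10⌋₊ with hD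
  set W := primorial D with hW
  have hW0 : 0 < W := primorial_pos D
  set N := X / W + 1 with hN
  have hX0 : (0 : ℝ) < X := by
    rcases Nat.eq_zero_or_pos X with h | h
    · exfalso
      rw [hLdef, h] at hL
      norm_num at hL
    · exact_mod_cast h
  have hDL : (D : ℝ) ≤ L / 10 := Nat.floor_le (by linarith)
  have hDX : (D : ℝ) ≤ (X : ℝ) ^ (1 / 10 : ℝ) := hDL.trans hX3
  have hDlow : L / 20 ≤ D := by
    have := Nat.lt_floor_add_one (L / 10)
    rw [← hD] at this
    linarith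
  have hD2 : 2 ≤ D := by
    have h1 : (2 : ℝ) ≤ D := by linarith
    exact_mod_cast h1
  have hlogL : 0 < Real.log L := Real.log_pos (by linarith)
  have hlogD : Real.log L / 2 ≤ Real.log D := by
    have h1 : Real.sqrt L ≤ L / 20 := by
      rw [Real.sqrt_le_left (by linarith)]
      nlinarith
    have h2 : Real.log (Real.sqrt L) ≤ Real.log D :=
      Real.log_le_log (Real.sqrt_pos.2 (by linarith)) (h1.trans hDlow)
    rwa [Real.log_sqrt (by linarith)] at h2
  have hlogD0 : 0 < Real.log D := by linarith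
  have hWX : (W : ℝ) ≤ X := by
    have h1 : (W : ℝ) ≤ 4 ^ D := by
      have := primorial_le_four_pow D
      exact_mod_cast this
    have h2 : (4 : ℝ) ^ D ≤ Real.exp L := by
      have h3 : (4 : ℝ) ≤ Real.exp 2 := by
        have h4 := Real.exp_one_gt_d9
        have h5 : Real.exp 2 = Real.exp 1 * Real.exp 1 := by
          rw [← Real.exp_add]
          norm_num
        rw [h5]
        nlinarith
      calc (4 : ℝ) ^ D ≤ Real.exp 2 ^ D := pow_le_pow_left₀ (by norm_num) h3 D
        _ = Real.exp (D * 2) := by rw [← Real.exp_nat_mul]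
        _ ≤ Real.exp L := Real.exp_le_exp.2 (by linarith)
    rw [hLdef, Real.exp_log hX0] at h2
    exact h1.trans h2
  have hWN : ((W : ℝ) * N) ≤ 2 * X := by
    have h1 : W * N ≤ X + W := by
      rw [hN, Nat.mul_add, mul_one]
      exact Nat.add_le_add_right (Nat.mul_div_le X W) _
    have h2 : ((W : ℝ) * N) ≤ X + W := by exact_mod_cast h1
    linarith
  have hXWN : X ≤ W * N := by
    rw [hN]
    exact (Nat.lt_mul_div_succ X hW0).le
  -- the windows
  set h : ℕ := ⌈lam * L⌉₊ with hh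
  have hh1 : lam * L ≤ h := Nat.le_ceil _
  have hlL : 1 ≤ lam * L := by nlinarith
  have hh2 : (h : ℝ) ≤ lam * L + 1 := (Nat.ceil_lt_add_one (by linarith)).le
  have hh3 : (h : ℝ) ≤ 2 * (lam * L) := by linarith
  set M := 2 * M₀ with hM
  set I : ℕ → Finset ℕ := fun j => Ioc (j * h) ((j + 1) * h) with hI
  set R : ℝ := 8 * C * lam / δ * L / Real.log L with hR
  have hR0 : 0 < R := by positivity
  set bad := (range W).filter fun ν =>
      2 * ((range M).filter fun j =>
        (((I j).filter fun k => Nat.Coprime (ν + k) W).card : ℝ) ≤ R).card < M with hbad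
  have hbadc : (bad.card : ℝ) ≤ δ * W := by
    refine hgood D hD2 M I (2 * (lam * L)) R δ ?_ hR0 hδ0.le ?_
    · intro j _
      rw [hI]
      simp only [Nat.card_Ioc]
      have : (j + 1) * h - j * h = h := by
        rw [Nat.add_mul, one_mul]
        omega
      rw [this]
      exact hh3
    · have h1 : 2 * (C * (2 * (lam * L)) / Real.log D) ≤ 2 * (C * (2 * (lam * L)) / (Real.log L / 2)) := by
        refine mul_le_mul_of_nonneg_left ?_ (by norm_num)
        exact div_le_div_of_nonneg_left (by positivity) (by linarith) hlogD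
      refine h1.trans (le_of_eq ?_)
      rw [hR]
      field_simp
      ring
  -- the exceptional `m`
  set G : ℕ → Finset ℕ := fun ν => (range M).filter fun j =>
        (((I j).filter fun k => Nat.Coprime (ν + k) W).card : ℝ) ≤ R with hG
  have hsel : ∀ ν : ℕ, ν < W → ν ∉ bad → ∃ g : Fin M₀ → ℕ, Function.Injective g ∧
      ∀ i, g i ∈ G ν := by
    intro ν hν hb
    have h1 : M₀ ≤ (G ν).card := by
      rw [hbad, mem_filter, mem_range] at hb
      by_contra hc
      push Not at hc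
      simp only [hG] at hc
      exact hb ⟨hν, by omega⟩
    exact ⟨fun i => (G ν).orderEmbOfCardLe h1 i, (G ν).orderEmbOfCardLe h1 |>.injective,
      fun i => (G ν).orderEmbOfCardLe_mem h1 i⟩
  choose! g hginj hgG using hsel
  set w : ℕ → Fin M₀ → Finset ℕ := fun ν i =>
    (I (g ν i)).filter fun k => Nat.Coprime (ν + k) W with hw
  set E : ℕ → Finset ℕ := fun ν => (range N).filter fun m =>
        ∀ j, ∃ k ∈ w ν j, ∀ p : ℕ, p.Prime →
          p ∣ W * m + ν + k → (X : ℝ) ^ (1 / 10 : ℝ) < p with hE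
  have hTM : (M : ℝ) * h ≤ T * L := by
    rw [hM, hT]
    push_cast
    have h1 : (2 * (M₀ : ℝ)) * h ≤ 2 * M₀ * (lam * L + 1) :=
      mul_le_mul_of_nonneg_left hh2 (by positivity)
    have h2 : (2 * (M₀ : ℝ)) * 1 ≤ 2 * M₀ * L :=
      mul_le_mul_of_nonneg_left (by linarith) (by positivity)
    nlinarith
  have hEc : ∀ ν < W, ν ∉ bad → ((E ν).card : ℝ) ≤ δ * N := by
    intro ν hν hb
    refine hX₁ X hX4 ν hν (w ν) ?_ ?_ ?_
    · intro i j hij
      have h1 : g ν i ≠ g ν j := fun h => hij (hginj ν hν hb h)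
      rw [hw, disjoint_left]
      intro k hk1 hk2
      rw [mem_filter, hI, mem_Ioc] at hk1 hk2
      rcases lt_or_gt_of_ne h1 with h2 | h2
      · have h3 : (g ν i + 1) * h ≤ g ν j * h := Nat.mul_le_mul_right _ h2
        omega
      · have h3 : (g ν j + 1) * h ≤ g ν i * h := Nat.mul_le_mul_right _ h2
        omega
    · intro j k hk
      rw [hw] at hk
      simp only [mem_filter, hI, mem_Ioc] at hk
      refine ⟨by omega, ?_, hk.2⟩
      have h1 := hgG ν hν hb j
      rw [hG] at h1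
      simp only [mem_filter, mem_range] at h1
      have h2 : (g ν j + 1) * h ≤ M * h := Nat.mul_le_mul_right _ h1.1
      have h3 : k ≤ M * h := hk.1.2.trans h2
      have h4 : (k : ℝ) ≤ M * h := by exact_mod_cast h3
      exact h4.trans hTM
    · intro j
      have h1 := hgG ν hν hb j
      rw [hG] at h1
      simp only [mem_filter, mem_range] at h1
      exact h1.2
  -- the exceptional `n`
  set S : Finset ℕ := (range X).filter fun n => ¬ VoidNear lam0 T X n with hS
  have hset : {n : ℕ | n < X ∧ ¬ VoidNear lam0 T X n} = (S : Set ℕ) := by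
    ext n
    simp [hS]
  rw [hset, Set.ncard_coe_finset]
  have hfin := res_count (B := ⌈(X : ℝ) ^ (1 / 10 : ℝ)⌉₊) hW0 hXWN S
    (fun n hn => mem_range.1 (mem_filter.1 hn).1) bad E δ hδ0.le hbadc hEc ?_
  · have h1 : ((⌈(X : ℝ) ^ (1 / 10 : ℝ)⌉₊ : ℕ) : ℝ) ≤ (X : ℝ) ^ (1 / 10 : ℝ) + 1 :=
      (Nat.ceil_lt_add_one (by positivity)).le
    have h2 : 2 * δ * (W * N) ≤ 2 * δ * (2 * X) :=
      mul_le_mul_of_nonneg_left hWN (by positivity)
    have h3 : 4 * δ * X + 2 * δ * (2 * X) = ε * X := by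
      rw [hδ]
      ring
    linarith
  · intro n hn
    rw [hS, mem_filter, mem_range] at hn
    by_contra hc
    push Not at hc
    obtain ⟨hc1, hc2, hc3⟩ := hc
    have hnW : n % W < W := Nat.mod_lt _ hW0
    have hnN : n / W < N := Nat.div_lt_of_lt_mul (hn.1.trans_le hXWN)
    rw [hE] at hc3
    simp only [mem_filter, mem_range, not_and] at hc3
    have hc4 := hc3 hnN
    push Not at hc4
    obtain ⟨j, hj⟩ := hc4
    have h1 := hgG (n % W) hnW hc2 j
    rw [hG] at h1
    simp only [mem_filter, mem_range] at h1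
    refine hn.2 (VoidNear.mono (le_max_left _ _ : lam0 ≤ lam) ?_)
    refine res_void (h := h) (j := g (n % W) j) D W hW hDX (Nat.ceil_le.1 hc1) hh1 ?_ ?_
    · have h2 : ((g (n % W) j : ℕ) : ℝ) + 1 ≤ M := by exact_mod_cast h1.1
      have h3 : (((g (n % W) j : ℕ) : ℝ) + 1) * h ≤ M * h :=
        mul_le_mul_of_nonneg_right h2 (Nat.cast_nonneg _)
      linarith
    · intro k hk
      obtain ⟨p, hp, hp1, hp2⟩ := hj k hk
      refine ⟨p, hp, ?_, hp2⟩
      rwa [Nat.div_add_mod n W] at hp1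

end Pool.Agent.H.MP_711652_nt.G2
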