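import Pool.Agent.H.MP_711652_nt.G2.Abs2
import Pool.Agent.H.MP_711652_nt.G2.SmallN
import Pool.Agent.H.MP_711652_nt.G2.NumBig
import Pool.Agent.H.MP_711652_nt.G2.NumC
import Pool.Agent.H.MP_711652_nt.G2.ResB

/-!
# GAP2, CoreP: the statement `Core` for one residue (helper55)
-/

set_option autoImplicit false

namespace Pool.Agent.H.MP_711652_nt.G2

open Finset Filter Pool.Agent.H.MP_711652_nt.LG

/-- the forms -/
theorem core_forms {J : Finset ℕ} {D B W ν : ℕ} (hJ : ∀ k ∈ J, k ≤ D)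
    (hW : ∀ p, p.Prime → D < p → ¬ p ∣ W) (P : Finset ℕ) (hP : ∀ p ∈ P, p.Prime ∧ D < p ∧ p ≤ B) :
    Forms P (fun p (i : {k // k ∈ J}) m => p ∣ W * m + (ν + (i : ℕ))) := by
  refine forms_linear P W (fun i : {k // k ∈ J} => ν + (i : ℕ)) (fun p hp => (hP p hp).1)
    (fun p hp => hW p (hP p hp).1 (hP p hp).2.1) ?_
  intro p hp i j hij hmod
  have h1 : (i : ℕ) ≡ (j : ℕ) [MOD p] := Nat.ModEq.add_left_cancel' _ hmod
  have hlt : ∀ h ∈ J, h < p := fun h hh => lt_of_le_of_lt (hJ h hh) (hP p hp).2.1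
  exact hij (Subtype.ext (Nat.ModEq.eq_of_lt_of_lt h1 (hlt i i.2) (hlt j j.2)))

open Classical in
/-- The finite part: one residue, all numerical hypotheses. -/
theorem core_finite {M₀ : ℕ} (hM0 : 0 < M₀) {D z B Y K n Om R N W ν : ℕ} {ε C4 η X10 : ℝ}
    (w : Fin M₀ → Finset ℕ) (hdisj : ∀ i j, i ≠ j → Disjoint (w i) (w j))
    (hwD : ∀ j, ∀ k ∈ w j, 0 < k ∧ k ≤ D) (hcard : ∀ j, (w j).card ≤ R)
    (hW : ∀ p, p.Prime → D < p → ¬ p ∣ W)
    (hK : 1 ≤ K) (hη : 0 < η) (hDK : DK K η ≤ D) (hDz : D ≤ z) (hzB : z ≤ B) (hz3 : 3 ≤ z)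
    (hzn : z ^ (2 ^ n) ≤ B) (hn : 8 * Real.exp 21 ≤ n) (hY1 : 1 ≤ Y) (hY : Y < z ^ (K + 1))
    (hX10 : (B : ℝ) ≤ X10) {Lim : ℕ} (hLim : ∀ m < N, ∀ k ≤ D, W * m + (ν + k) ≤ Lim)
    (hLim2 : Lim < z ^ (Om + 1))
    (hε : 0 < ε) (hε1 : ε ≤ 1 / 10)
    (hC4 : 2 * (16 * 2 ^ (Om + 1)) ^ (4 * K) *
      Real.exp (R * (12 * (Real.log D / Real.log z))) ≤ C4)
    (h16 : 2 ^ R * ((z : ℝ) ^ 248) ^ (16 * K) ≤ (N : ℝ))
    (hN : 100 * ((R : ℝ) + 1) * (2 ^ R * (Y : ℝ) ^ 2 * ((z : ℝ) ^ 248) ^ (K + 1)) ^ 4 ≤ ε * N)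
    (hg : 16 * (K : ℝ) * R / z ≤ ε / 10)
    (hθ : R * (12 * (Real.log D / Real.log z)) * (((B : ℝ) / Y) ^ (1 / Real.log B) *
      Real.exp (R * (12 * (Real.log D / Real.log z)) *
        (2 * (1 / Real.log B) * (1 / S1 (Pbig z B) B))) +
      (K * (2 / ((z : ℝ) - 1))) ^ 2 + 4 * K * R / z) ≤ ε / 2)
    (hη' : η ≤ ε / 10)
    (hZ : (1 + 10 / ε) * (((2 * Om + 2) / ((z : ℝ) - 1)) ^ 2 * (K : ℝ) ^ 4 * C4) ≤ ε / 10)
    (hW4 : C4 ≤ ε * M₀) :
    (((range N).filter fun m => ∀ j, ∃ k ∈ w j, ∀ p : ℕ, p.Prime →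
          p ∣ W * m + ν + k → X10 < p).card : ℝ) ≤ 6 * ε * N := by
  obtain ⟨J, hJ⟩ : ∃ J : Finset ℕ, J = univ.biUnion w := ⟨_, rfl⟩
  have hwJ : ∀ j, ∀ k ∈ w j, k ∈ J := fun j k hk => by
    rw [hJ, mem_biUnion]
    exact ⟨j, mem_univ j, hk⟩
  have hJD : ∀ k ∈ J, 0 < k ∧ k ≤ D := by
    intro k hk
    rw [hJ, mem_biUnion] at hk
    obtain ⟨j, -, hj⟩ := hk
    exact hwD j k hj
  obtain ⟨A, hA⟩ : ∃ A : ℕ → {k // k ∈ J} → ℕ → Prop,
      A = fun (p : ℕ) (i : {k // k ∈ J}) (m : ℕ) => p ∣ W * m + (ν + (i : ℕ)) := ⟨_, rfl⟩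
  have hF0 : Forms ((Ioc D B).filter Nat.Prime) A := by
    rw [hA]
    exact core_forms (B := B) (fun k hk => (hJD k hk).2) hW _ fun p hp => by
      rw [mem_filter, mem_Ioc] at hp
      exact ⟨hp.2, hp.1.1, hp.1.2⟩
  have hF : Forms (Pbig z B) A := by
    rw [hA]
    exact core_forms (B := B) (fun k hk => (hJD k hk).2) hW _ fun p hp => by
      have h1 := mem_Pbig.1 hp
      exact ⟨h1.2.2, lt_of_le_of_lt hDz h1.1, h1.2.1⟩
  obtain ⟨Lam, hS, hL1⟩ := small_num hF0 hK hη hDK hDz (by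
    intro p hp
    rw [mem_filter, mem_Ioc] at hp ⊢
    exact ⟨⟨hp.1.1, hp.1.2.trans hzB⟩, hp.2⟩)
  have hBig := big_num hz3 hzn hn hY1 hY
  have hB1 : 1 < (B : ℝ) := by
    have : 3 ≤ B := hz3.trans hzB
    have h3 : (3 : ℝ) ≤ B := by exact_mod_cast this
    linarith
  have hlB : 0 < Real.log B := Real.log_pos hB1
  have hne : Nonempty (Fin M₀) := ⟨⟨0, hM0⟩⟩
  have key := abs2 hF hS Pbig_not_dvd hBig (univ : Finset (Fin M₀)) univ_nonempty
    (fun j => (univ : Finset {k // k ∈ J}).filter (fun i => (i : ℕ) ∈ w j))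
    (by
      intro a _ b _ hab
      rw [Finset.disjoint_left]
      intro i hi hi2
      rw [mem_filter] at hi hi2
      exact (Finset.disjoint_left.1 (hdisj a b hab)) hi.2 hi2.2)
    R
    (by
      intro a _
      refine le_trans ?_ (hcard a)
      refine card_le_card_of_injOn (fun i => (i : ℕ)) ?_ ?_
      · intro i hi
        rw [mem_coe, mem_filter] at hi
        exact hi.2
      · intro i _ j _ hij
        exact Subtype.ext hij)
    N Om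
    (by
      intro m hm i
      rw [hA]
      refine Pbig_hits (L := Lim) ?_ ?_ hLim2
      · have := (hJD i i.2).1
        omega
      · exact hLim m hm i (hJD i i.2).2)
    ε (1 / Real.log B) C4 hε hε1 (by positivity)
    (by rw [one_div, inv_mul_cancel₀ hlB.ne']) hC4 h16 hN hg hθ hη' hZ
    (by rw [card_univ, Fintype.card_fin]; exact hW4)
  refine le_trans ?_ key
  refine Nat.cast_le.2 (card_le_card ?_)
  intro m hm
  simp only [mem_filter] at hm ⊢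
  refine ⟨hm.1, fun j _ => ?_⟩
  obtain ⟨k, hk, hk2⟩ := hm.2 j
  refine ⟨⟨k, hwJ j k hk⟩, ⟨mem_univ _, hk⟩, ?_, ?_⟩
  · intro p hp hAp
    rw [hA] at hAp
    have h1 := mem_Pbig.1 hp
    have h2 := hk2 p h1.2.2 (by rw [add_assoc]; exact hAp)
    have h3 : (p : ℝ) ≤ B := by exact_mod_cast h1.2.1
    linarith
  · refine hL1 _ m fun p hp hAp => ?_
    rw [mem_filter, mem_Ioc] at hp
    rw [hA] at hAp
    have h2 := hk2 p hp.2 (by rw [add_assoc]; exact hAp)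
    have h3 : (p : ℝ) ≤ B := by exact_mod_cast hp.1.2.trans hzB
    linarith

theorem core_sq {L D : ℝ} (hL : 3 ≤ L) (hD : D < L ^ 2 + 1) :
    L ≤ L ^ 2 ∧ 9 ≤ L ^ 2 ∧ D ≤ L ^ 3 := by
  have h1 : L * 3 ≤ L * L := mul_le_mul_of_nonneg_left hL (by linarith)
  have h2 : L ^ 2 = L * L := sq L
  have h3 : L ^ 3 = L ^ 2 * L := pow_succ L 2
  have h4 : 9 ≤ L ^ 2 := by linarith
  have h5 : L ^ 2 * 3 ≤ L ^ 2 * L := mul_le_mul_of_nonneg_left hL (by linarith)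
  refine ⟨by linarith, h4, by linarith⟩

theorem core_M {C ε : ℝ} {M : ℕ} (hε : 0 < ε) (h : C / ε ≤ (M : ℝ)) :
    C ≤ ε * ((M + 1 : ℕ) : ℝ) := by
  rw [div_le_iff₀ hε] at h
  push_cast
  linarith

/-- **`Core`.** -/
theorem core : Core := by
  classical
  intro A ε0 hA hε0
  -- constants
  obtain ⟨ε, hε⟩ : ∃ ε : ℝ, ε = min (ε0 / 6) (1 / 10) := ⟨_, rfl⟩
  have hε1 : 0 < ε := by
    rw [hε]
    positivity
  have hε2 : ε ≤ 1 / 10 := by
    rw [hε]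
    exact min_le_right _ _
  have hε3 : 6 * ε ≤ ε0 := by
    have : ε ≤ ε0 / 6 := by
      rw [hε]
      exact min_le_left _ _
    linarith
  obtain ⟨y, hy⟩ : ∃ y : ℝ, y = 1 / 100000 := ⟨_, rfl⟩
  have hy0 : 0 < y := by
    rw [hy]
    norm_num
  obtain ⟨n, hn⟩ := exists_nat_ge (max (8 * Real.exp 21) (4608 * Real.exp 21 * A / y))
  have hn1 : 8 * Real.exp 21 ≤ n := (le_max_left _ _).trans hn
  have hn2 : 4608 * Real.exp 21 * A / y ≤ n := (le_max_right _ _).trans hn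
  have hn0 : (0 : ℝ) < n := lt_of_lt_of_le (by positivity) hn1
  obtain ⟨b0, hb0, hb0'⟩ := num_choose_b (72 * A * 2 ^ n) (ε / 4) y (by positivity)
    (by positivity) hy0
  obtain ⟨b, hb⟩ : ∃ b : ℝ, b = min b0 (1 / 100000) := ⟨_, rfl⟩
  have hb1 : 0 < b := by
    rw [hb]
    positivity
  have hb2 : b ≤ 1 / 100000 := by
    rw [hb]
    exact min_le_right _ _
  have hb3 : 72 * A * 2 ^ n / b * Real.exp (2 - y / (2 * b)) ≤ ε / 4 :=
    hb0' b hb1 (by rw [hb]; exact min_le_left _ _)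
  obtain ⟨a, ha⟩ : ∃ a : ℝ, a = b / 2 ^ n := ⟨_, rfl⟩
  have ha1 : 0 < a := by
    rw [ha]
    positivity
  have hab : a * 2 ^ n = b := by
    rw [ha]
    field_simp
  have ha2 : a ≤ b := by
    have : (1 : ℝ) ≤ 2 ^ n := one_le_pow₀ (by norm_num)
    calc a = a * 1 := (mul_one a).symm
      _ ≤ a * 2 ^ n := mul_le_mul_of_nonneg_left this ha1.le
      _ = b := hab
  obtain ⟨K, hK⟩ : ∃ K : ℕ, K = ⌊2 * y / a⌋₊ + 1 := ⟨_, rfl⟩
  have hK1 : 1 ≤ K := by omega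
  have hfl : 0 ≤ 2 * y / a := by positivity
  have hK2 : 2 * y / a < K := by
    rw [hK]
    exact_mod_cast Nat.lt_floor_add_one (2 * y / a)
  have hK3 : (K : ℝ) ≤ 2 * y / a + 1 := by
    rw [hK]
    have := Nat.floor_le hfl
    push_cast
    linarith
  have hK4 : 2 * y < a * K := by
    rw [div_lt_iff₀ ha1] at hK2
    linarith
  have hK5 : a * K ≤ 3 / 100000 := by
    have : a * K ≤ a * (2 * y / a + 1) := mul_le_mul_of_nonneg_left hK3 ha1.le
    have e : a * (2 * y / a + 1) = 2 * y + a := by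
      field_simp
    rw [e, hy] at this
    linarith
  have hK6 : a * (K + 1) ≤ 4 / 100000 := by
    linarith
  obtain ⟨Om, hOm⟩ : ∃ Om : ℕ, Om = ⌊2 / a⌋₊ := ⟨_, rfl⟩
  have hOm1 : 2 < a * (Om + 1 : ℕ) := by
    have : 2 / a < (Om : ℝ) + 1 := by
      rw [hOm]
      exact Nat.lt_floor_add_one _
    rw [div_lt_iff₀ ha1] at this
    push_cast
    linarith
  obtain ⟨C4, hC4⟩ : ∃ C4 : ℝ, C4 = 2 * (16 * 2 ^ (Om + 1)) ^ (4 * K) *
    Real.exp (72 * A / a) := ⟨_, rfl⟩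
  have hC40 : 0 < C4 := by
    rw [hC4]
    positivity
  refine ⟨⌈C4 / ε⌉₊ + 1, fun T => ?_⟩
  have hM₀ : C4 ≤ ε * ((⌈C4 / ε⌉₊ + 1 : ℕ) : ℝ) := core_M hε1 (Nat.le_ceil (C4 / ε))
  obtain ⟨M₀, hM⟩ : ∃ M₀ : ℕ, M₀ = ⌈C4 / ε⌉₊ + 1 := ⟨_, rfl⟩
  rw [← hM] at hM₀ ⊢
  have hM0 : 0 < M₀ := by omega
  -- the threshold for `q = X ^ (a / 2)`
  obtain ⟨G, hG⟩ : ∃ G : ℝ, G = 4 + 320 * K / ε + (72 * A / a) * (4 * (K : ℝ) ^ 2 + 8 * K) * 4 / ε +
    (1 + 10 / ε) * ((2 * Om + 2) ^ 2 * (K : ℝ) ^ 4 * C4) * 10 / ε := ⟨_, rfl⟩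
  have hKR : (1 : ℝ) ≤ K := by exact_mod_cast hK1
  have hG1 : 4 ≤ G ∧ 320 * K / ε ≤ G ∧ (72 * A / a) * (4 * (K : ℝ) ^ 2 + 8 * K) * 4 / ε ≤ G ∧
      (1 + 10 / ε) * ((2 * Om + 2) ^ 2 * (K : ℝ) ^ 4 * C4) * 10 / ε ≤ G := by
    have e1 : 0 ≤ 320 * K / ε := by positivity
    have e2 : 0 ≤ (72 * A / a) * (4 * (K : ℝ) ^ 2 + 8 * K) * 4 / ε := by positivity
    have e3 : 0 ≤ (1 + 10 / ε) * ((2 * Om + 2) ^ 2 * (K : ℝ) ^ 4 * C4) * 10 / ε := by positivity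
    rw [hG]
    refine ⟨by linarith, by linarith, by linarith, by linarith⟩
  have ev1 := num_ev_const G (a / 2) (by positivity)
  have ev2 := num_ev_exp A (min (1 / 100) (a / 2)) (by positivity)
  have ev3 := num_pow_gt a 1 3 (Om + 1) ha1 (by linarith)
  have ev4 := num_pow_gt a y 1 (K + 1) ha1 (by push_cast; linarith)
  have ev5 := num_ev_const (100 / ε) (7 / 10) (by norm_num)
  have ev6 := num_ev_logpow 4 2 a ha1
  have ev7 := num_ev_const 6 a ha1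
  have ev8 := num_ev_const 2 y hy0
  have ev9 := num_ev_const 2 b hb1
  have ev10 := num_ev_log (max (max 3 |T|) (max (DK K (ε / 10)) (2 / a)))
  have ev11 := num_ev_loglog 1
  have ev12 := num_ev_logpow (|T| + 1) 1 1 one_pos
  obtain ⟨X₀, hX₀⟩ := eventually_atTop.1 ((((ev1.and ev2).and (ev3.and ev4)).and
    ((ev5.and ev6).and (ev7.and ev8))).and (((ev9.and ev10).and (ev11.and ev12)).and
      (eventually_ge_atTop 1)))
  refine ⟨X₀, fun X hX ν hν w hdisj hw hwc => ?_⟩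
  obtain ⟨⟨⟨⟨f1, f2⟩, f3, f4⟩, ⟨f5, f6⟩, f7, f8⟩, ⟨⟨f9, f10⟩, f11, f12⟩, hX1⟩ := hX₀ X hX
  have hXR : (0 : ℝ) < X := by exact_mod_cast hX1
  have hXR1 : (1 : ℝ) ≤ X := by exact_mod_cast hX1
  obtain ⟨L, hL⟩ : ∃ L : ℝ, L = Real.log X := ⟨_, rfl⟩
  rw [← hL] at f2 f6 f10 f11 f12 hν hw hwc ⊢
  have hL3 : 3 ≤ L := ((le_max_left _ _).trans (le_max_left _ _)).trans f10
  have hLT : |T| ≤ L := ((le_max_right _ _).trans (le_max_left _ _)).trans f10
  have hLD : DK K (ε / 10) ≤ L := ((le_max_left _ _).trans (le_max_right _ _)).trans f10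
  have hLa : 2 / a ≤ L := ((le_max_right _ _).trans (le_max_right _ _)).trans f10
  have hL0 : 0 < L := by linarith
  have hlL : 0 < Real.log L := by linarith
  obtain ⟨W, hW⟩ : ∃ W : ℕ, W = primorial ⌊L / 10⌋₊ := ⟨_, rfl⟩
  have hNN := num_N (X := X) hX1
  rw [← hL] at hNN
  rw [← hW] at hν hw hNN ⊢
  obtain ⟨z, hz⟩ : ∃ z : ℕ, z = ⌊(X : ℝ) ^ a⌋₊ := ⟨_, rfl⟩
  obtain ⟨B, hB⟩ : ∃ B : ℕ, B = ⌊(X : ℝ) ^ b⌋₊ := ⟨_, rfl⟩
  obtain ⟨Y, hY⟩ : ∃ Y : ℕ, Y = ⌊(X : ℝ) ^ y⌋₊ := ⟨_, rfl⟩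
  obtain ⟨D, hD⟩ : ∃ D : ℕ, D = ⌈L ^ 2⌉₊ := ⟨_, rfl⟩
  obtain ⟨R, hR⟩ : ∃ R : ℕ, R = ⌊A * L / Real.log L⌋₊ := ⟨_, rfl⟩
  obtain ⟨N, hN⟩ : ∃ N : ℕ, N = X / W + 1 := ⟨_, rfl⟩
  rw [← hN] at hNN ⊢
  obtain ⟨z1, z2, z3, z4, z5⟩ := num_floor (show (2 : ℝ) ≤ (X : ℝ) ^ a by linarith) hX1
  obtain ⟨B1, B2, B3, B4, B5⟩ := num_floor f9 hX1
  obtain ⟨Y1, Y2, Y3, Y4, Y5⟩ := num_floor f8 hX1
  rw [← hz] at z1 z2 z3 z4 z5 f3 f4
  rw [← hB] at B1 B2 B3 B4 B5
  rw [← hY] at Y1 Y2 Y3 Y4 Y5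
  rw [← hL] at z3 z4 B3 B4 Y3 Y4
  -- `D`
  have hD1 : L ^ 2 ≤ D := by
    rw [hD]
    exact Nat.le_ceil _
  have hD2 : (D : ℝ) < L ^ 2 + 1 := by
    rw [hD]
    exact Nat.ceil_lt_add_one (by positivity)
  obtain ⟨hLL, hL9, hDL3⟩ := core_sq hL3 hD2
  have hDz : D ≤ z := by
    have h1 : (D : ℝ) ≤ z := by
      linarith
    exact_mod_cast h1
  have hlD : Real.log D ≤ 3 * Real.log L := by
    have h3 : (0 : ℝ) < D := by
      have : 0 < L ^ 2 := by positivity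
      linarith
    have h4 := Real.log_le_log h3 hDL3
    rw [Real.log_pow] at h4
    exact_mod_cast h4
  have hlD0 : 0 ≤ Real.log D := Real.log_natCast_nonneg D
  -- `z`, `B`
  have hz3 : 3 ≤ z := by
    have h1 : (3 : ℝ) ≤ z := by linarith
    exact_mod_cast h1
  have hzR : (3 : ℝ) ≤ z := by exact_mod_cast hz3
  have haL : 2 ≤ a * L := by
    rw [div_le_iff₀ ha1] at hLa
    linarith
  have hlz : a * L / 2 ≤ Real.log z := by linarith
  have hbL : 2 ≤ b * L := haL.trans (mul_le_mul_of_nonneg_right ha2 hL0.le)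
  have hlB : b * L / 2 ≤ Real.log B := by linarith
  have hlB0 : 0 < Real.log B := by linarith
  have hzn : z ^ (2 ^ n) ≤ B := by
    rw [hz, hB]
    exact num_pow_floor hX1 hab
  have hzB : z ≤ B := (Nat.le_self_pow (by positivity) z).trans hzn
  have hRle : (R : ℝ) ≤ A * L / Real.log L := by
    rw [hR]
    exact Nat.floor_le (by positivity)
  have hR2 : (2 : ℝ) ^ R ≤ (X : ℝ) ^ (min (1 / 100) (a / 2)) := (num_two_pow hRle).trans f2
  have hR3 : (2 : ℝ) ^ R ≤ (X : ℝ) ^ (1 / 100 : ℝ) :=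
    hR2.trans (Real.rpow_le_rpow_of_exponent_le hXR1 (min_le_left _ _))
  have hR4 : (R : ℝ) ≤ (X : ℝ) ^ (a / 2) := by
    have h1 := num_nat_le_two_pow R
    have h2 := hR2.trans (Real.rpow_le_rpow_of_exponent_le hXR1 (min_le_right _ _))
    linarith
  obtain ⟨q, hq⟩ : ∃ q : ℝ, q = (X : ℝ) ^ (a / 2) := ⟨_, rfl⟩
  rw [← hq] at f1 hR4
  have hq2 : q ^ 2 / 2 ≤ z := by
    have h1 : q ^ 2 = (X : ℝ) ^ a := by
      rw [hq, ← Real.rpow_natCast, ← Real.rpow_mul hXR.le]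
      congr 1
      push_cast
      ring
    rw [h1]
    exact z1
  have hq4 : 4 ≤ q := hG1.1.trans f1
  have hq0 : 0 < q := by linarith
  have hR0 : (0 : ℝ) ≤ R := Nat.cast_nonneg R
  obtain ⟨g1, g2, -, -⟩ := num_small (K := (K : ℝ)) (R := (R : ℝ)) (G := 0) hKR hR0 hq4 hq2 hR4
  obtain ⟨-, -, g3, -⟩ := num_small (K := (K : ℝ)) (R := (R : ℝ)) (G := 2 * Om + 2) hKR hR0 hq4
    hq2 hR4
  have hRv : (R : ℝ) * (12 * (Real.log D / Real.log z)) ≤ 72 * A / a :=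
    num_Rv hA ha1 hL0 hlL hRle hlD0 hlD hlz
  have hRv0 : 0 ≤ (R : ℝ) * (12 * (Real.log D / Real.log z)) := by
    have : 0 ≤ Real.log z := by linarith
    positivity
  have hzpos : 2 ≤ z := by omega
  have hcle : 1 / S1 (Pbig z B) B ≤ 8 * Real.exp 21 * (a * L) / n := by
    refine (c_big_le hzpos hzn hn1).trans ?_
    refine div_le_div_of_nonneg_right ?_ hn0.le
    exact mul_le_mul_of_nonneg_left z4 (by positivity)
  have hc0 : 0 ≤ 1 / S1 (Pbig z B) B := c_big_nonneg z B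
  have hexpo := num_expo hA ha1 hb1 hL0 hn0 hRv hcle hc0 hlB hn2 hy0
  have hBpos : (0 : ℝ) < B := by
    have : (2 : ℝ) ≤ B := by exact_mod_cast B5
    linarith
  have hYpos : (0 : ℝ) < Y := by
    have : (2 : ℝ) ≤ Y := by exact_mod_cast Y5
    linarith
  have hθ1 : ((B : ℝ) / Y) ^ (1 / Real.log B) * Real.exp (R * (12 * (Real.log D / Real.log z)) *
      (2 * (1 / Real.log B) * (1 / S1 (Pbig z B) B))) ≤ Real.exp (2 - y / (2 * b)) := by
    rw [Real.rpow_def_of_pos (by positivity), Real.log_div hBpos.ne' hYpos.ne', mul_one_div]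
    exact num_theta hb1 hlB0 B4 Y3 (by linarith) hexpo hL0 (Real.log_natCast_nonneg Y)
  have hfin := core_finite hM0 (D := D) (z := z) (B := B) (Y := Y) (K := K) (n := n) (Om := Om)
    (R := R) (N := N) (W := W) (ν := ν) (ε := ε) (C4 := C4) (η := ε / 10)
    (X10 := (X : ℝ) ^ (1 / 10 : ℝ)) w hdisj
    (by
      intro j k hk
      obtain ⟨h1, h2, -⟩ := hw j k hk
      refine ⟨h1, ?_⟩
      have h3 : (k : ℝ) ≤ D := by
        have h4 : T * L ≤ L * L := mul_le_mul_of_nonneg_right ((le_abs_self T).trans hLT) hL0.le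
        have h5 : L ^ 2 = L * L := sq L
        linarith
      exact_mod_cast h3)
    (by
      intro j
      rw [hR]
      exact Nat.le_floor (hwc j))
    (by
      intro p hp hDp hdvd
      rw [hW] at hdvd
      have h7 : p ∈ (primorial ⌊L / 10⌋₊).primeFactors :=
        Nat.mem_primeFactors.2 ⟨hp, hdvd, (primorial_pos _).ne'⟩
      rw [primeFactors_primorial, Nat.primesLE_eq_filter_range, mem_filter, mem_range] at h7
      have h8 : (p : ℝ) ≤ L / 10 := by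
        have h9 : p ≤ ⌊L / 10⌋₊ := by omega
        calc (p : ℝ) ≤ (⌊L / 10⌋₊ : ℝ) := by exact_mod_cast h9
          _ ≤ L / 10 := Nat.floor_le (by positivity)
      have h10 : (D : ℝ) < p := by exact_mod_cast hDp
      linarith)
    hK1 (by positivity) (hLD.trans (hLL.trans hD1)) hDz hzB hz3 hzn hn1 (by omega)
    (by
      have h1 : (Y : ℝ) < (z : ℝ) ^ (K + 1) := by
        refine lt_of_le_of_lt Y2 ?_
        rw [one_mul] at f4
        exact f4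
      exact_mod_cast h1)
    (by
      refine B2.trans (Real.rpow_le_rpow_of_exponent_le hXR1 ?_)
      linarith)
    (Lim := 3 * X)
    (by
      intro m hm k hk
      have h1 : m ≤ X / W := by omega
      have h2 : W * m ≤ X := (Nat.mul_le_mul_left W h1).trans (Nat.mul_div_le X W)
      have h3 : k ≤ X := by
        refine hk.trans (hDz.trans ?_)
        have h4 : (z : ℝ) ≤ X := by
          refine z2.trans ?_
          calc (X : ℝ) ^ a ≤ (X : ℝ) ^ (1 : ℝ) :=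
                Real.rpow_le_rpow_of_exponent_le hXR1 (by linarith)
            _ = X := Real.rpow_one _
        exact_mod_cast h4
      have h5 : ν ≤ X := by
        have h6 : W ≤ X := by
          by_contra h7
          have h8 : X / W = 0 := Nat.div_eq_of_lt (by omega)
          rw [hN, h8] at hNN
          have h9 : (X : ℝ) ^ (4 / 5 : ℝ) ≤ 1 := by simpa using hNN
          have h10 : (X : ℝ) ^ a ≤ (X : ℝ) ^ (4 / 5 : ℝ) :=
            Real.rpow_le_rpow_of_exponent_le hXR1 (by linarith)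
          linarith
        omega
      omega)
    (by
      have h1 : ((3 * X : ℕ) : ℝ) < (z : ℝ) ^ (Om + 1) := by
        rw [Real.rpow_one] at f3
        push_cast
        exact f3
      exact_mod_cast h1)
    hε1 hε2
    (by
      rw [hC4]
      refine mul_le_mul_of_nonneg_left (Real.exp_le_exp.2 hRv) (by positivity))
    (by
      rw [hz]
      exact num_h16 hX1 hR3 hK5 hNN)
    (by
      rw [hz, hY]
      exact num_hN hX1 hR3 hy hK6 hNN hε1 f5)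
    (by
      refine g1.trans ?_
      rw [div_le_iff₀ hq0]
      have h1 : 320 * K / ε ≤ q := hG1.2.1.trans f1
      rw [div_le_iff₀ hε1] at h1
      linarith)
    (by
      have h1 := mul_le_mul hRv (add_le_add hθ1 g2) (by positivity) (by positivity)
      have e1 : ∀ x y z w : ℝ, x * (y + z + w) = x * (y + (z + w)) := fun x y z w => by ring
      rw [e1]
      refine h1.trans ?_
      have h2 : 72 * A / a * Real.exp (2 - y / (2 * b)) ≤ ε / 4 := by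
        refine le_trans (le_of_eq ?_) hb3
        rw [ha]
        field_simp
      have h3 : 72 * A / a * ((4 * (K : ℝ) ^ 2 + 8 * K) / q) ≤ ε / 4 := by
        rw [mul_div_assoc', div_le_iff₀ hq0]
        have h4 := hG1.2.2.1.trans f1
        rw [div_le_iff₀ hε1] at h4
        linarith
      calc _ = 72 * A / a * Real.exp (2 - y / (2 * b)) +
            72 * A / a * ((4 * (K : ℝ) ^ 2 + 8 * K) / q) := by ring
        _ ≤ _ := by linarith)
    le_rfl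
    (by
      have h1 : (((2 * Om + 2) / ((z : ℝ) - 1)) ^ 2 * (K : ℝ) ^ 4 * C4) ≤
          ((2 * Om + 2) ^ 2 / q) * (K : ℝ) ^ 4 * C4 := by
        refine mul_le_mul_of_nonneg_right ?_ hC40.le
        exact mul_le_mul_of_nonneg_right g3 (by positivity)
      have h2 : 0 ≤ 1 + 10 / ε := by positivity
      refine (mul_le_mul_of_nonneg_left h1 h2).trans ?_
      have h3 : (1 + 10 / ε) * (((2 * Om + 2) ^ 2 / q) * (K : ℝ) ^ 4 * C4) =
          (1 + 10 / ε) * ((2 * Om + 2) ^ 2 * (K : ℝ) ^ 4 * C4) / q := by ring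
      rw [h3, div_le_iff₀ hq0]
      have h4 := hG1.2.2.2.trans f1
      rw [div_le_iff₀ hε1] at h4
      linarith)
    hM₀
  refine hfin.trans ?_
  exact mul_le_mul_of_nonneg_right hε3 (Nat.cast_nonneg _)

end Pool.Agent.H.MP_711652_nt.G2
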