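import Mathlib
import Pool.Agent.H.MP_711652_nt.G2.ExactB
import Pool.Agent.H.MP_711652_nt.G2.Stmt

/-!
# Theorem M (exactly `m` primes), part C: from Theorem I to Theorem M
-/

set_option autoImplicit false

namespace Pool.Agent.H.MP_711652_nt.G2

open Finset Filter Pool.Agent.H.MP_711652_nt

lemma tlogX : Tendsto (fun X : ℕ => Real.log X) atTop atTop :=
  Real.tendsto_log_atTop.comp tendsto_natCast_atTop_atTop

lemma pi_upper : ∃ C : ℝ, 0 < C ∧ ∀ᶠ X : ℕ in atTop,
    (Nat.primeCounting (2 * X) : ℝ) ≤ C * X / Real.log X := by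
  obtain ⟨c, C, hc, hC, X₀, hX₀⟩ := basic_estimates
  refine ⟨2 * C, by positivity, ?_⟩
  filter_upwards [tlogX.eventually_ge_atTop 1, eventually_ge_atTop X₀, eventually_ge_atTop 1]
    with X h1 h2 h3
  have h4 := (hX₀ (2 * X) (by omega)).2.2.2.1
  have hX : (0 : ℝ) < X := by exact_mod_cast h3
  have h5 : Real.log X ≤ (⌈Real.log ((2 * X : ℕ) : ℝ)⌉₊ : ℝ) := by
    refine le_trans ?_ (Nat.le_ceil _)
    apply Real.log_le_log hX
    push_cast
    linarith
  refine h4.trans ?_
  have h6 : 0 < Real.log X := by linarith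
  calc C * ((2 * X : ℕ) : ℝ) / (⌈Real.log ((2 * X : ℕ) : ℝ)⌉₊ : ℝ) ≤
        C * ((2 * X : ℕ) : ℝ) / Real.log X := by gcongr
    _ = 2 * C * X / Real.log X := by push_cast; ring

lemma many_ge_aux (lam : ℝ) (hlam : 0 < lam) (m : ℕ) (hm1 : 1 ≤ m) (c0 : ℝ)
    (hz : ∀ᶠ X : ℕ in atTop,
      c0 * X ≤ (((range X).filter (fun n => ff ⌊lam * Real.log X⌋₊ n = 0)).card : ℝ))
    (hm : (m : ℝ) < lam + 1 + (m - 1) * c0) :
    ∃ c : ℝ, 0 < c ∧ ∀ᶠ X : ℕ in atTop,
      c * X ≤ (((range X).filter (fun n => m ≤ ff ⌊lam * Real.log X⌋₊ n)).card : ℝ) := by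
  obtain ⟨C1, hC1, hpi⟩ := pi_upper
  obtain ⟨C2, hC2, hpair⟩ := pairs_interval
  set μ : ℝ := (lam + 1 + (m - 1) * c0 - m) / 2 with hμ
  have hμ0 : 0 < μ := by rw [hμ]; linarith
  set M2 : ℝ := lam * C1 + 2 * lam * (C2 * lam + 1) with hM2
  have hM20 : 0 < M2 := by positivity
  refine ⟨μ ^ 2 / M2, by positivity, ?_⟩
  have e1 := hpair lam 1 one_pos
  have e2 := pnt_lower (μ / (2 * lam)) (by positivity)
  have e3 := tlogX.eventually_ge_atTop (4 * C1 / μ + 1)
  have e4 : ∀ᶠ X : ℕ in atTop, (4 * lam ^ 2 / μ) * (Real.log X) ^ 2 ≤ X :=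
    eventually_log_pow 2 _ (by positivity)
  have e5 : ∀ᶠ X : ℕ in atTop, lam * (Real.log X) ^ 1 ≤ X := eventually_log_pow 1 _ hlam
  filter_upwards [hpi, e1, e2, e3, e4, e5, hz, eventually_ge_atTop 1]
    with X hpiX hpX hpnt hL hsq hone hzX hX1
  set L := Real.log X with hLdef
  have hL1 : 1 ≤ L := by
    have : 0 ≤ 4 * C1 / μ := by positivity
    linarith
  have hL0 : 0 < L := by linarith
  have hX0 : (0 : ℝ) < X := by exact_mod_cast hX1
  set H := ⌊lam * L⌋₊ with hH
  have hHu : (H : ℝ) ≤ lam * L := Nat.floor_le (by positivity)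
  have hHl : lam * L - 1 < H := Nat.sub_one_lt_floor _
  have hHX : H ≤ X := by
    have : (H : ℝ) ≤ X := by rw [pow_one] at hone; linarith
    exact_mod_cast this
  have hH0 : (0 : ℝ) ≤ H := Nat.cast_nonneg _
  -- second moment
  have hS1 : (∑ n ∈ range X, (ff H n : ℝ)) ≤ lam * C1 * X := by
    have h3 := sum_ff_le X H hHX
    have h4 : (∑ n ∈ range X, (ff H n : ℝ)) ≤ H * Nat.primeCounting (2 * X) := by exact_mod_cast h3
    refine h4.trans ?_
    calc (H : ℝ) * Nat.primeCounting (2 * X) ≤ (lam * L) * (C1 * X / L) := by gcongr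
      _ = lam * C1 * X := by field_simp
  have hS2 : (∑ n ∈ range X, (ff H n : ℝ) ^ 2) ≤ M2 * X := by
    have h2 := sum_ff_sq_le X H hHX
    have h4 : (∑ n ∈ range X, (ff H n : ℝ) ^ 2) ≤
        (∑ n ∈ range X, (ff H n : ℝ)) + 2 * (H * ∑ h ∈ Ioc 0 H, (pairs (2 * X) h : ℝ)) := by
      exact_mod_cast h2
    have hp := hpX 0 H (Nat.zero_le _) hHu
    rw [Nat.cast_zero, sub_zero] at hp
    have h5 : ∑ h ∈ Ioc 0 H, (pairs (2 * X) h : ℝ) ≤ (C2 * lam + 1) * X / L := by
      refine hp.trans ?_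
      calc C2 * H * X / L ^ 2 + 1 * X / L ≤ C2 * (lam * L) * X / L ^ 2 + 1 * X / L := by gcongr
        _ = (C2 * lam + 1) * X / L := by field_simp
    have h6 : (H : ℝ) * ∑ h ∈ Ioc 0 H, (pairs (2 * X) h : ℝ) ≤ lam * (C2 * lam + 1) * X := by
      calc (H : ℝ) * ∑ h ∈ Ioc 0 H, (pairs (2 * X) h : ℝ) ≤ (lam * L) * ((C2 * lam + 1) * X / L) := by
            gcongr
        _ = _ := by field_simp
    rw [hM2]
    nlinarith [h4, h6, hS1]
  -- first moment
  have hF : (lam - μ) * X ≤ ∑ n ∈ range X, (ff H n : ℝ) := by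
    have h3 := sum_ff_ge X H
    have h4 : (H : ℝ) * Nat.primeCounting X ≤ (∑ n ∈ range X, (ff H n : ℝ)) + H * H := by
      exact_mod_cast h3
    have hpi0 : (0 : ℝ) ≤ Nat.primeCounting X := Nat.cast_nonneg _
    have h5 : (Nat.primeCounting X : ℝ) ≤ Nat.primeCounting (2 * X) := by
      exact_mod_cast Nat.monotone_primeCounting (by omega)
    have h6 : (Nat.primeCounting X : ℝ) ≤ μ / 4 * X := by
      refine (h5.trans hpiX).trans ?_
      rw [div_le_iff₀ hL0]
      have h7 : 4 * C1 / μ ≤ L := by linarith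
      rw [div_le_iff₀ hμ0] at h7
      calc C1 * X ≤ (L * μ / 4) * X := by gcongr; linarith
        _ = μ / 4 * X * L := by ring
    have h7 : (lam * L - 1) * Nat.primeCounting X ≤ H * Nat.primeCounting X := by gcongr
    have h8 : lam * ((1 - μ / (2 * lam)) * X) ≤ lam * (Nat.primeCounting X * L) := by gcongr
    have h9 : lam * ((1 - μ / (2 * lam)) * X) = (lam - μ / 2) * X := by field_simp
    have h10 : (H : ℝ) * H ≤ μ / 4 * X := by
      calc (H : ℝ) * H ≤ (lam * L) * (lam * L) := by gcongr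
        _ = μ / 4 * (4 * lam ^ 2 / μ * L ^ 2) := by field_simp
        _ ≤ μ / 4 * X := by gcongr
    nlinarith [h4, h6, h7, h8, h9, h10]
  set S := (range X).filter (fun n => m ≤ ff H n) with hS
  have hlow : μ * X ≤ ∑ n ∈ S, (ff H n : ℝ) := by
    have hm1' : (1 : ℝ) ≤ m := by exact_mod_cast hm1
    have h1 : ∑ n ∈ range X, ((ff H n : ℝ) - (m - 1) +
        (if ff H n = 0 then ((m : ℝ) - 1) else 0)) ≤ ∑ n ∈ S, (ff H n : ℝ) := by
      rw [hS, sum_filter]
      apply sum_le_sum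
      intro n _
      by_cases h0 : ff H n = 0
      · rw [if_pos h0, if_neg (by omega), h0]
        simp
      · rw [if_neg h0]
        split_ifs with h
        · linarith
        · have : ff H n + 1 ≤ m := by omega
          have : (ff H n : ℝ) + 1 ≤ m := by exact_mod_cast this
          linarith
    rw [sum_add_distrib, sum_sub_distrib, sum_const, card_range, nsmul_eq_mul, ← sum_filter,
      sum_const, nsmul_eq_mul] at h1
    have h3 : (c0 * X) * ((m : ℝ) - 1) ≤
        (((range X).filter (fun n => ff H n = 0)).card : ℝ) * ((m : ℝ) - 1) := by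
      apply mul_le_mul_of_nonneg_right hzX
      linarith
    have h2 : μ * X = (lam - μ) * X - X * ((m : ℝ) - 1) + (c0 * X) * ((m : ℝ) - 1) := by
      rw [hμ]; ring
    linarith
  have hCS : (∑ n ∈ S, (ff H n : ℝ)) ^ 2 ≤ S.card * ∑ n ∈ S, (ff H n : ℝ) ^ 2 :=
    sq_sum_le_card_mul_sum_sq
  have hSsub : ∑ n ∈ S, (ff H n : ℝ) ^ 2 ≤ M2 * X := by
    refine le_trans (sum_le_sum_of_subset_of_nonneg (filter_subset _ _) ?_) hS2
    intro n _ _; positivity
  have h1 : (μ * X) ^ 2 ≤ S.card * (M2 * X) := by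
    calc (μ * X) ^ 2 ≤ (∑ n ∈ S, (ff H n : ℝ)) ^ 2 := by gcongr
      _ ≤ S.card * ∑ n ∈ S, (ff H n : ℝ) ^ 2 := hCS
      _ ≤ S.card * (M2 * X) := by gcongr
  rw [div_mul_eq_mul_div, div_le_iff₀ hM20]
  have h2 : (μ ^ 2 * X) * X ≤ (S.card * M2) * X := by
    calc (μ ^ 2 * X) * X = (μ * X) ^ 2 := by ring
      _ ≤ S.card * (M2 * X) := h1
      _ = _ := by ring
  exact le_of_mul_le_mul_right h2 hX0

lemma many_ge (lam : ℝ) (hlam : 0 < lam) (m : ℕ) (hm1 : 1 ≤ m) (hm : (m : ℝ) < lam + 1) :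
    ∃ c : ℝ, 0 < c ∧ ∀ᶠ X : ℕ in atTop,
      c * X ≤ (((range X).filter (fun n => m ≤ ff ⌊lam * Real.log X⌋₊ n)).card : ℝ) := by
  refine many_ge_aux lam hlam m hm1 0 ?_ (by linarith)
  filter_upwards with X
  rw [zero_mul]
  exact Nat.cast_nonneg _

/-- the statement with a fixed window -/
def FW (lam : ℝ) (m : ℕ) : Prop := ∃ c : ℝ, 0 < c ∧ ∀ᶠ X : ℕ in atTop,
    c * X ≤ (((range X).filter (fun n => ff ⌊lam * Real.log X⌋₊ n = m)).card : ℝ)

lemma card_range_add (P : ℕ → Prop) [DecidablePred P] (X R : ℕ) :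
    ((range (X + R)).filter P).card ≤ ((range X).filter P).card + R := by
  have h1 : (range (X + R)).filter P ⊆ (range X).filter P ∪ (Ico X (X + R)) := by
    intro n hn
    rw [mem_filter, mem_range] at hn
    rw [mem_union, mem_filter, mem_range, mem_Ico]
    by_cases h : n < X
    · exact Or.inl ⟨h, hn.2⟩
    · right; omega
  refine (card_le_card h1).trans ((card_union_le _ _).trans ?_)
  rw [Nat.card_Ico]
  omega

lemma ff_zero_of (H u : ℕ) (h : ∀ k, u < k → k ≤ u + H → ¬ k.Prime) : ff H u = 0 := by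
  unfold ff
  apply sum_eq_zero
  intro j hj
  rw [mem_range] at hj
  unfold gp
  rw [if_neg (h _ (by omega) (by omega))]

lemma void_card (hI : ThmI) (lam ε : ℝ) (hlam : 0 < lam) (hε : 0 < ε) :
    ∃ T : ℝ, 0 < T ∧ ∀ᶠ X : ℕ in atTop, ∀ [DecidablePred (VoidNear lam T X)],
      (((range X).filter (fun n => ¬ VoidNear lam T X n)).card : ℝ) ≤ ε * X := by
  obtain ⟨T, hT, X₀, hX₀⟩ := hI lam ε hlam hε
  refine ⟨T, hT, ?_⟩
  filter_upwards [eventually_ge_atTop X₀] with X hX
  intro _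
  have h1 := hX₀ X hX
  have h2 : {n : ℕ | n < X ∧ ¬ VoidNear lam T X n} =
      (((range X).filter (fun n => ¬ VoidNear lam T X n) : Finset ℕ) : Set ℕ) := by
    ext n; simp
  rw [h2, Set.ncard_coe_finset] at h1
  exact h1

theorem fw_zero (hI : ThmI) (lam : ℝ) (hlam : 0 < lam) : FW lam 0 := by
  classical
  obtain ⟨T, hT, hV⟩ := void_card hI (lam + 1) (1 / 2) (by linarith) (by norm_num)
  refine ⟨1 / (16 * T), by positivity, ?_⟩
  have e1 := tlogX.eventually_ge_atTop 2
  have e2 : ∀ᶠ X : ℕ in atTop, (16 * T * (T + 1)) * (Real.log X) ^ 1 ≤ X :=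
    eventually_log_pow 1 _ (by positivity)
  filter_upwards [hV, e1, e2, eventually_ge_atTop 1] with X hVX hL2 hlog hX1
  set L := Real.log X with hLdef
  have hL0 : 0 < L := by linarith
  have hX0 : (0 : ℝ) < X := by exact_mod_cast hX1
  rw [pow_one] at hlog
  set H := ⌊lam * L⌋₊ with hH
  have hHu : (H : ℝ) ≤ lam * L := Nat.floor_le (by positivity)
  set k := ⌊L⌋₊ with hk
  have hku : (k : ℝ) ≤ L := Nat.floor_le hL0.le
  have hkl : L / 2 ≤ k := by
    have : L - 1 < k := Nat.sub_one_lt_floor _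
    linarith
  set R := ⌊T * L⌋₊ with hR
  have hRu : (R : ℝ) ≤ T * L := Nat.floor_le (by positivity)
  set A := (range X).filter (fun n => VoidNear (lam + 1) T X n) with hA
  have hAcard : (X : ℝ) / 2 ≤ A.card := by
    have h1 := card_filter_add_card_filter_not (s := range X) (fun n => VoidNear (lam + 1) T X n)
    rw [card_range] at h1
    have h2 : ((A.card : ℝ)) + (((range X).filter (fun n => ¬ VoidNear (lam + 1) T X n)).card : ℝ) = X := by
      exact_mod_cast h1
    have h3 := hVX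
    linarith
  have hd := dbl A (fun u => ff H u = 0) X R k (filter_subset _ _) (by
    intro n hn
    rw [hA, mem_filter] at hn
    obtain ⟨t, ht1, ht2, ht3⟩ := hn.2
    calc k = (Ioc t (t + k)).card := by rw [Nat.card_Ioc]; omega
      _ ≤ _ := by
        apply card_le_card
        intro u hu
        rw [mem_Ioc] at hu
        rw [mem_filter, mem_Ioc]
        have hu2 : (u : ℝ) ≤ t + k := by exact_mod_cast hu.2
        refine ⟨⟨by omega, ?_⟩, ?_⟩
        · have h1 : ((u - n : ℕ) : ℝ) ≤ T * L := by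
            rw [Nat.cast_sub (by omega)]
            have : 0 < lam * L := by positivity
            nlinarith
          have h2 := Nat.le_floor h1
          omega
        · apply ff_zero_of
          intro j hj1 hj2
          apply ht3 j (by omega)
          have hj2' : (j : ℝ) ≤ u + H := by exact_mod_cast hj2
          nlinarith)
  have hcr := card_range_add (fun u => ff H u = 0) X (R + 1)
  set N := ((range X).filter (fun n => ff H n = 0)).card with hN
  rw [← add_assoc] at hcr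
  have hd' : (A.card : ℝ) * k ≤ R * ((N : ℝ) + (R + 1)) := by
    have : A.card * k ≤ R * (N + (R + 1)) := hd.trans (Nat.mul_le_mul_left _ hcr)
    exact_mod_cast this
  by_contra hcon
  push Not at hcon
  have h1 : (X : ℝ) / 2 * (L / 2) ≤ A.card * k := by gcongr
  have hc0 : (N : ℝ) < X / (16 * T) := by
    calc (N : ℝ) < 1 / (16 * T) * X := hcon
      _ = _ := by ring
  have h3 : (R : ℝ) + 1 ≤ X / (16 * T) := by
    rw [le_div_iff₀ (by positivity)]
    nlinarith
  have h2 : (R : ℝ) * ((N : ℝ) + (R + 1)) ≤ (T * L) * (X / (16 * T) + X / (16 * T)) := by gcongr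
  have h4 : (T * L) * (X / (16 * T) + X / (16 * T)) = X * L / 8 := by field_simp; ring
  have h5 : 0 < X * L := by positivity
  nlinarith [h1, h2, h4, h5, hd']

/-- the crowded `n` are few -/
lemma crowd_few (lam T c : ℝ) (hlam : 0 < lam) (hT : 0 < T) (hc : 0 < c) :
    ∃ δ : ℝ, 0 < δ ∧ δ ≤ 1 ∧ ∀ [∀ H D R, DecidablePred (Crowd H D R)], ∀ᶠ X : ℕ in atTop,
      (((range X).filter (Crowd ⌊lam * Real.log X⌋₊ ⌊δ * Real.log X⌋₊
        (⌊δ * Real.log X⌋₊ + ⌊T * Real.log X⌋₊))).card : ℝ) ≤ c * X := by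
  obtain ⟨C, hC, hpair⟩ := pairs_interval
  set δ : ℝ := min (min 1 (lam / 2)) (c / (16 * C * (1 + T))) with hδ
  have hδ0 : 0 < δ := by
    rw [hδ]
    refine lt_min (lt_min one_pos (by positivity)) (by positivity)
  have hδ1 : δ ≤ 1 := (min_le_left _ _).trans (min_le_left _ _)
  have hδ2 : δ ≤ lam / 2 := (min_le_left _ _).trans (min_le_right _ _)
  have hδ3 : δ ≤ c / (16 * C * (1 + T)) := min_le_right _ _
  refine ⟨δ, hδ0, hδ1, fun {_} => ?_⟩
  have t2 : Tendsto (fun X : ℕ => 2 * X) atTop atTop :=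
    tendsto_id.const_mul_atTop' (by norm_num)
  have e1 := t2.eventually (hpair (lam + 1) (C * δ) (by positivity))
  have e2 := tlogX.eventually_ge_atTop (2 / lam + 1)
  have e3 : ∀ᶠ X : ℕ in atTop, (lam + T + 3) * (Real.log X) ^ 1 ≤ X :=
    eventually_log_pow 1 _ (by positivity)
  filter_upwards [e1, e2, e3, eventually_ge_atTop 1] with X hpX hL hlog hX1
  set L := Real.log X with hLdef
  have hL1 : 1 < L ∨ 1 = L := by
    have : 0 < 2 / lam := by positivity
    left; linarith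
  have hL1' : 1 ≤ L := by rcases hL1 with h | h <;> linarith
  have hL0 : 0 < L := by linarith
  have hlamL : 2 < lam * L := by
    have h1 : 2 / lam < L := by linarith
    rw [div_lt_iff₀ hlam] at h1
    linarith
  have hX0 : (0 : ℝ) < X := by exact_mod_cast hX1
  rw [pow_one] at hlog
  set H := ⌊lam * L⌋₊ with hH
  have hHu : (H : ℝ) ≤ lam * L := Nat.floor_le (by positivity)
  have hHl : lam * L - 1 < H := Nat.sub_one_lt_floor _
  set D := ⌊δ * L⌋₊ with hD
  have hDu : (D : ℝ) ≤ δ * L := Nat.floor_le (by positivity)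
  have hDu1 : (D : ℝ) ≤ L := by nlinarith
  set R := D + ⌊T * L⌋₊ with hR
  have hRu : (R : ℝ) ≤ (1 + T) * L := by
    rw [hR, Nat.cast_add]
    have : (⌊T * L⌋₊ : ℝ) ≤ T * L := Nat.floor_le (by positivity)
    linarith
  have hDH : D < H := by
    have : (D : ℝ) < H := by nlinarith
    exact_mod_cast this
  have hfit : R + 1 + H + D ≤ X := by
    have : (R : ℝ) + 1 + H + D ≤ X := by nlinarith
    exact_mod_cast this
  have hcc := crowd_card X H D R hDH hfit
  have hcc' : (((range X).filter (Crowd H D R)).card : ℝ) ≤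
      R * (2 * ∑ h ∈ Ioc 0 D, (pairs (4 * X) h : ℝ) + ∑ h ∈ Ioc H (H + D), (pairs (4 * X) h : ℝ) +
        ∑ h ∈ Ioc (H - D - 1) (H - 1), (pairs (4 * X) h : ℝ)) := by
    exact_mod_cast hcc
  have hlog2 : L ≤ Real.log ((2 * X : ℕ) : ℝ) := by
    rw [hLdef]
    apply Real.log_le_log hX0
    push_cast; linarith
  have hone : ∀ a b : ℕ, a ≤ b → b ≤ a + D → (b : ℝ) ≤ (lam + 1) * L →
      ∑ h ∈ Ioc a b, (pairs (4 * X) h : ℝ) ≤ 4 * C * δ * X / L := by
    intro a b hab hbD hbL
    have h1 := hpX a b hab (hbL.trans (by gcongr))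
    have e4 : 2 * (2 * X) = 4 * X := by ring
    rw [e4] at h1
    refine h1.trans ?_
    have h2 : (b : ℝ) - a ≤ δ * L := by
      have : (b : ℝ) ≤ a + D := by exact_mod_cast hbD
      linarith
    have h2' : 0 ≤ (b : ℝ) - a := by
      have : (a : ℝ) ≤ b := by exact_mod_cast hab
      linarith
    have h3 : 0 < Real.log ((2 * X : ℕ) : ℝ) := by linarith
    calc C * ((b : ℝ) - a) * ((2 * X : ℕ) : ℝ) / Real.log ((2 * X : ℕ) : ℝ) ^ 2 +
          C * δ * ((2 * X : ℕ) : ℝ) / Real.log ((2 * X : ℕ) : ℝ)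
        ≤ C * (δ * L) * ((2 * X : ℕ) : ℝ) / L ^ 2 + C * δ * ((2 * X : ℕ) : ℝ) / L := by
          gcongr
      _ = 4 * C * δ * X / L := by
          push_cast
          field_simp
          ring
  have s1 := hone 0 D (Nat.zero_le _) (by omega) (by nlinarith)
  have s2 := hone H (H + D) (by omega) (by omega) (by push_cast; nlinarith)
  have s3 := hone (H - D - 1) (H - 1) (by omega) (by omega) (by
    have h1 : ((H - 1 : ℕ) : ℝ) ≤ H := by exact_mod_cast Nat.sub_le _ _
    nlinarith)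
  refine hcc'.trans ?_
  calc (R : ℝ) * (2 * ∑ h ∈ Ioc 0 D, (pairs (4 * X) h : ℝ) + ∑ h ∈ Ioc H (H + D), (pairs (4 * X) h : ℝ) +
        ∑ h ∈ Ioc (H - D - 1) (H - 1), (pairs (4 * X) h : ℝ))
      ≤ ((1 + T) * L) * (2 * (4 * C * δ * X / L) + 4 * C * δ * X / L + 4 * C * δ * X / L) := by
        gcongr
    _ = δ * (16 * C * (1 + T)) * X := by field_simp; ring
    _ ≤ (c / (16 * C * (1 + T))) * (16 * C * (1 + T)) * X := by gcongr
    _ = c * X := by field_simp

lemma many_ge_closed (hI : ThmI) (lam : ℝ) (hlam : 0 < lam) (m : ℕ) (hm1 : 1 ≤ m)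
    (hm : (m : ℝ) ≤ lam + 1) :
    ∃ c : ℝ, 0 < c ∧ ∀ᶠ X : ℕ in atTop,
      c * X ≤ (((range X).filter (fun n => m ≤ ff ⌊lam * Real.log X⌋₊ n)).card : ℝ) := by
  obtain ⟨c0, hc0, hz⟩ := fw_zero hI lam hlam
  rcases hm1.eq_or_lt with h | h
  · apply many_ge lam hlam m hm1
    rw [← h, Nat.cast_one]
    linarith
  · refine many_ge_aux lam hlam m hm1 c0 hz ?_
    have h1 : (1 : ℝ) < m := by exact_mod_cast h
    have h2 : 0 < ((m : ℝ) - 1) * c0 := mul_pos (by linarith) hc0
    linarith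

theorem fw_pos (hI : ThmI) (lam : ℝ) (hlam : 0 < lam) (m : ℕ) (hm1 : 1 ≤ m)
    (hm : (m : ℝ) ≤ lam + 1) : FW lam m := by
  classical
  obtain ⟨c1, hc1, hmany⟩ := many_ge_closed hI lam hlam m hm1 hm
  obtain ⟨T, hT, hV⟩ := void_card hI lam (c1 / 4) hlam (by positivity)
  obtain ⟨δ, hδ0, hδ1, hcrowd⟩ := crowd_few lam T (c1 / 4) hlam hT (by positivity)
  set c : ℝ := c1 * δ / (16 * (δ + T)) with hc
  have hc0 : 0 < c := by positivity
  refine ⟨c, hc0, ?_⟩
  have e1 := tlogX.eventually_ge_atTop (2 / δ + 1)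
  have e2 : ∀ᶠ X : ℕ in atTop, ((δ + T + 1) / c) * (Real.log X) ^ 1 ≤ X :=
    eventually_log_pow 1 _ (by positivity)
  have e3 : ∀ᶠ X : ℕ in atTop, (4 * δ / c1) * (Real.log X) ^ 1 ≤ X :=
    eventually_log_pow 1 _ (by positivity)
  filter_upwards [hmany, hV, hcrowd, e1, e2, e3, eventually_ge_atTop 1]
    with X hmX hVX hcX hL hlog1 hlog2 hX1
  set L := Real.log X with hLdef
  have hL1 : 1 ≤ L := by
    have : 0 < 2 / δ := by positivity
    linarith
  have hL0 : 0 < L := by linarith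
  have hδL : 2 ≤ δ * L := by
    have h1 : 2 / δ ≤ L := by linarith
    rw [div_le_iff₀ hδ0] at h1
    linarith
  have hX0 : (0 : ℝ) < X := by exact_mod_cast hX1
  rw [pow_one] at hlog1 hlog2
  set H := ⌊lam * L⌋₊ with hH
  have hHu : (H : ℝ) ≤ lam * L := Nat.floor_le (by positivity)
  set D := ⌊δ * L⌋₊ with hD
  have hDu : (D : ℝ) ≤ δ * L := Nat.floor_le (by positivity)
  have hDl : δ * L / 2 ≤ D := by
    have : δ * L - 1 < D := Nat.sub_one_lt_floor _
    linarith
  set R := D + ⌊T * L⌋₊ with hR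
  have hRu : (R : ℝ) ≤ (δ + T) * L := by
    rw [hR, Nat.cast_add]
    have : (⌊T * L⌋₊ : ℝ) ≤ T * L := Nat.floor_le (by positivity)
    linarith
  set S := (range X).filter (fun n => m ≤ ff H n) with hS
  set V := (range X).filter (fun n => ¬ VoidNear lam T X n) with hVdef
  set Cr := (range X).filter (Crowd H D R) with hCr
  set A := (range X).filter (fun n => m ≤ ff H (n + D) ∧ VoidNear lam T X (n + D) ∧
    ¬ Crowd H D R n) with hA
  have hsub : S ⊆ V ∪ (range D ∪ (Cr.image (fun n => n + D) ∪ A.image (fun n => n + D))) := by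
    intro s hs
    rw [hS, mem_filter, mem_range] at hs
    rw [mem_union, mem_union, mem_union, mem_image, mem_image, mem_range]
    by_cases h1 : VoidNear lam T X s
    · by_cases h2 : s < D
      · exact Or.inr (Or.inl h2)
      · right; right
        have h3 : s - D + D = s := by omega
        by_cases h4 : Crowd H D R (s - D)
        · left
          refine ⟨s - D, ?_, h3⟩
          rw [hCr, mem_filter, mem_range]
          exact ⟨by omega, h4⟩
        · right
          refine ⟨s - D, ?_, h3⟩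
          rw [hA, mem_filter, mem_range, h3]
          exact ⟨by omega, hs.2, h1, h4⟩
    · left
      rw [hVdef, mem_filter, mem_range]
      exact ⟨hs.1, h1⟩
  have hcard : S.card ≤ V.card + (D + (Cr.card + A.card)) := by
    refine (card_le_card hsub).trans ((card_union_le _ _).trans ?_)
    apply Nat.add_le_add_left
    refine (card_union_le _ _).trans ?_
    rw [card_range]
    apply Nat.add_le_add_left
    refine (card_union_le _ _).trans ?_
    exact Nat.add_le_add card_image_le card_image_le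
  have hcard' : (S.card : ℝ) ≤ V.card + (D + (Cr.card + A.card)) := by exact_mod_cast hcard
  have hDX : (D : ℝ) ≤ c1 / 4 * X := by
    calc (D : ℝ) ≤ δ * L := hDu
      _ = c1 / 4 * (4 * δ / c1 * L) := by field_simp
      _ ≤ c1 / 4 * X := by gcongr
  have hAc : c1 / 4 * X ≤ A.card := by
    have h1 : (V.card : ℝ) ≤ c1 / 4 * X := hVX
    have h2 : (Cr.card : ℝ) ≤ c1 / 4 * X := hcX
    have h3 : c1 * X ≤ S.card := hmX
    linarith
  have hd := dbl A (fun u => ff H u = m) X R D (filter_subset _ _) (by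
    intro n hn
    rw [hA, mem_filter] at hn
    obtain ⟨-, hn1, ⟨t, ht1, ht2, ht3⟩, hn3⟩ := hn
    apply seg H D R n m hn1 hm1 _ hn3
    refine ⟨t, ht1, ?_, ?_⟩
    · have h1 : ((t - (n + D) : ℕ) : ℝ) ≤ T * L := by
        rw [Nat.cast_sub ht1]
        have : 0 < lam * L := by positivity
        linarith
      have h2 := Nat.le_floor h1
      omega
    · apply ff_zero_of
      intro j hj1 hj2
      apply ht3 j hj1
      have hj2' : (j : ℝ) ≤ t + H := by exact_mod_cast hj2
      linarith)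
  have hcr := card_range_add (fun u => ff H u = m) X (R + 1)
  set N := ((range X).filter (fun n => ff H n = m)).card with hN
  rw [← add_assoc] at hcr
  have hd' : (A.card : ℝ) * D ≤ R * ((N : ℝ) + (R + 1)) := by
    have : A.card * D ≤ R * (N + (R + 1)) := hd.trans (Nat.mul_le_mul_left _ hcr)
    exact_mod_cast this
  by_contra hcon
  push Not at hcon
  have h1 : c1 / 4 * X * (δ * L / 2) ≤ A.card * D := by gcongr
  have h3 : (R : ℝ) + 1 ≤ c * X := by
    calc (R : ℝ) + 1 ≤ (δ + T + 1) * L := by nlinarith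
      _ = c * ((δ + T + 1) / c * L) := by field_simp
      _ ≤ c * X := by gcongr
  have h6 : (0 : ℝ) < (δ + T) * L := by positivity
  have h2 : (R : ℝ) * ((N : ℝ) + (R + 1)) < ((δ + T) * L) * (c * X + c * X) := by
    have h7 : (R : ℝ) * ((N : ℝ) + (R + 1)) ≤ ((δ + T) * L) * ((N : ℝ) + (R + 1)) := by gcongr
    have h8 : ((δ + T) * L) * ((N : ℝ) + (R + 1)) < ((δ + T) * L) * (c * X + c * X) := by
      apply mul_lt_mul_of_pos_left _ h6
      linarith
    linarith
  have h4 : ((δ + T) * L) * (c * X + c * X) = c1 / 4 * X * (δ * L / 2) := by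
    rw [hc]; field_simp; ring
  linarith

lemma fw_all (hI : ThmI) (lam : ℝ) (hlam : 0 < lam) (m : ℕ) (hm : (m : ℝ) ≤ lam + 1) :
    FW lam m := by
  rcases Nat.eq_zero_or_pos m with h | h
  · rw [h]; exact fw_zero hI lam hlam
  · exact fw_pos hI lam hlam m h hm

lemma ncard_eq_ff (n : ℕ) (x : ℝ) (hx : 0 ≤ x) :
    {p : ℕ | p.Prime ∧ n < p ∧ (p : ℝ) ≤ n + x}.ncard = ff ⌊x⌋₊ n := by
  have h1 : {p : ℕ | p.Prime ∧ n < p ∧ (p : ℝ) ≤ n + x} =
      (((range ⌊x⌋₊).filter (fun j => (n + 1 + j).Prime)).image (fun j => n + 1 + j) : Finset ℕ) := by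
    ext p
    rw [Finset.mem_coe, mem_image, Set.mem_setOf_eq]
    constructor
    · rintro ⟨h1, h2, h3⟩
      refine ⟨p - (n + 1), ?_, by omega⟩
      rw [mem_filter, mem_range]
      have h4 : n + 1 + (p - (n + 1)) = p := by omega
      rw [h4]
      refine ⟨?_, h1⟩
      have h5 : ((p - n : ℕ) : ℝ) ≤ x := by
        rw [Nat.cast_sub h2.le]; linarith
      have := Nat.le_floor h5
      omega
    · rintro ⟨j, hj, rfl⟩
      rw [mem_filter, mem_range] at hj
      refine ⟨hj.2, by omega, ?_⟩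
      have h5 : ((j + 1 : ℕ) : ℝ) ≤ x := by
        rw [← Nat.le_floor_iff hx]
        omega
      push_cast at h5 ⊢
      linarith
  rw [h1, Set.ncard_coe_finset, card_image_of_injective _ (fun a b h => by simpa using h)]
  unfold ff
  rw [card_filter]
  rfl

/-- Theorem M. -/
theorem thmM_of_thmI (hI : ThmI) (lam : ℝ) (hlam : 0 < lam) (m : ℕ) (hm : (m : ℝ) ≤ lam + 1) :
    ∃ c : ℝ, 0 < c ∧ ∃ X₀ : ℕ, ∀ X : ℕ, X₀ ≤ X →
      c * X ≤ ({n : ℕ | n < X ∧
        {p : ℕ | p.Prime ∧ n < p ∧ (p : ℝ) ≤ n + lam * Real.log n}.ncard = m}.ncard : ℝ) := by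
  classical
  obtain ⟨c, hc, hFW⟩ := fw_all hI lam hlam m hm
  obtain ⟨C1, hC1, hpi⟩ := pi_upper
  refine ⟨c / 4, by positivity, ?_⟩
  rw [← eventually_atTop (p := fun X : ℕ => c / 4 * X ≤ ({n : ℕ | n < X ∧
        {p : ℕ | p.Prime ∧ n < p ∧ (p : ℝ) ≤ n + lam * Real.log n}.ncard = m}.ncard : ℝ))]
  set K : ℝ := 4 / c with hK
  have hK0 : 0 < K := by positivity
  set W := ⌈lam * |Real.log K|⌉₊ + 1 with hW
  have e1 := tlogX.eventually_ge_atTop (4 * W * C1 / c + 1)
  have e2 : ∀ᶠ X : ℕ in atTop, (lam + 1) * (Real.log X) ^ 1 ≤ X :=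
    eventually_log_pow 1 _ (by positivity)
  filter_upwards [hFW, hpi, e1, e2, eventually_ge_atTop 1, eventually_ge_atTop ⌈4 / c⌉₊]
    with X hF hpiX hL hlog hX1 hXc
  set L := Real.log X with hLdef
  have hL1 : 1 ≤ L := by
    have : 0 ≤ 4 * W * C1 / c := by positivity
    linarith
  have hL0 : 0 < L := by linarith
  have hX0 : (0 : ℝ) < X := by exact_mod_cast hX1
  rw [pow_one] at hlog
  set H := ⌊lam * L⌋₊ with hH
  have hHu : (H : ℝ) ≤ lam * L := Nat.floor_le (by positivity)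
  have hHX : H ≤ X := by
    have : (H : ℝ) ≤ X := by nlinarith
    exact_mod_cast this
  set F := (range X).filter (fun n => ff H n = m) with hFdef
  set G := (range X).filter (fun n =>
    {p : ℕ | p.Prime ∧ n < p ∧ (p : ℝ) ≤ n + lam * Real.log n}.ncard = m) with hG
  set B := (range X).filter (fun n => ∃ j ∈ Ico (H - W) H, (n + 1 + j).Prime) with hB
  have hgoal : {n : ℕ | n < X ∧
        {p : ℕ | p.Prime ∧ n < p ∧ (p : ℝ) ≤ n + lam * Real.log n}.ncard = m} = (G : Set ℕ) := by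
    ext n
    simp [hG]
  rw [hgoal, Set.ncard_coe_finset]
  have hsub : F ⊆ G ∪ (range (⌊X / K⌋₊ + 1) ∪ B) := by
    intro n hn
    rw [hFdef, mem_filter, mem_range] at hn
    rw [mem_union, mem_union, mem_range]
    by_cases h1 : n < ⌊X / K⌋₊ + 1
    · exact Or.inr (Or.inl h1)
    have h2 : (X : ℝ) / K < n := by
      rw [← Nat.floor_lt (by positivity)]
      omega
    have hn0 : (0 : ℝ) < n := lt_trans (by positivity) h2
    have hn1 : 1 ≤ n := by exact_mod_cast hn0
    have hlogn : L - |Real.log K| ≤ Real.log n := by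
      have h3 : Real.log (X / K) ≤ Real.log n := Real.log_le_log (by positivity) h2.le
      rw [Real.log_div hX0.ne' hK0.ne'] at h3
      have := le_abs_self (Real.log K)
      linarith
    have hlogn2 : Real.log n ≤ L := Real.log_le_log hn0 (by exact_mod_cast hn.1.le)
    have hlogn0 : 0 ≤ Real.log n := Real.log_nonneg (by exact_mod_cast hn1)
    have hcount := ncard_eq_ff n (lam * Real.log n) (by positivity)
    set h := ⌊lam * Real.log n⌋₊ with hh
    have hhH : h ≤ H := Nat.floor_le_floor (by gcongr)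
    have hhW : H - W ≤ h := by
      have h4 : lam * Real.log n < h + 1 := Nat.lt_floor_add_one _
      have h5 : lam * |Real.log K| ≤ (⌈lam * |Real.log K|⌉₊ : ℝ) := Nat.le_ceil _
      have h6 : (H : ℝ) < h + 1 + ⌈lam * |Real.log K|⌉₊ := by nlinarith
      have h7 : H < h + 1 + ⌈lam * |Real.log K|⌉₊ := by exact_mod_cast h6
      omega
    by_cases h3 : ∃ j ∈ Ico (H - W) H, (n + 1 + j).Prime
    · right; right
      rw [hB, mem_filter, mem_range]
      exact ⟨hn.1, h3⟩
    · left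
      rw [hG, mem_filter, mem_range]
      refine ⟨hn.1, ?_⟩
      rw [hcount, ← hn.2]
      unfold ff
      apply sum_subset (range_subset_range.2 hhH)
      intro j hj1 hj2
      rw [mem_range] at hj1 hj2
      unfold gp
      rw [if_neg]
      intro hp
      exact h3 ⟨j, by rw [mem_Ico]; omega, hp⟩
  have hBcard : B.card ≤ W * Nat.primeCounting (2 * X) := by
    have h1 : B.card ≤ ∑ n ∈ range X, ∑ j ∈ Ico (H - W) H, gp (n + 1 + j) := by
      rw [hB, card_filter]
      apply sum_le_sum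
      intro n _
      split_ifs with h
      · obtain ⟨j, hj, hp⟩ := h
        have h2 : gp (n + 1 + j) = 1 := by unfold gp; rw [if_pos hp]
        calc 1 = gp (n + 1 + j) := h2.symm
          _ ≤ _ := single_le_sum (f := fun j => gp (n + 1 + j)) (fun _ _ => Nat.zero_le _) hj
      · exact Nat.zero_le _
    refine h1.trans ?_
    rw [sum_comm]
    calc ∑ j ∈ Ico (H - W) H, ∑ n ∈ range X, gp (n + 1 + j) ≤
        ∑ j ∈ Ico (H - W) H, Nat.primeCounting (2 * X) := by
          apply sum_le_sum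
          intro j hj
          rw [mem_Ico] at hj
          have := sum_gp_shift_le X (1 + j) (by omega)
          simpa only [add_assoc] using this
      _ ≤ _ := by
          rw [sum_const, smul_eq_mul, Nat.card_Ico]
          exact Nat.mul_le_mul_right _ (by omega)
  have hcard : F.card ≤ G.card + ((⌊X / K⌋₊ + 1) + W * Nat.primeCounting (2 * X)) := by
    refine (card_le_card hsub).trans ((card_union_le _ _).trans ?_)
    apply Nat.add_le_add_left
    refine (card_union_le _ _).trans ?_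
    rw [card_range]
    exact Nat.add_le_add_left hBcard _
  have hcard' : (F.card : ℝ) ≤ G.card + ((⌊X / K⌋₊ + 1) + W * Nat.primeCounting (2 * X)) := by
    exact_mod_cast hcard
  have h1 : (⌊X / K⌋₊ : ℝ) ≤ c / 4 * X := by
    refine (Nat.floor_le (by positivity)).trans (le_of_eq ?_)
    rw [hK]; field_simp
  have h2 : (1 : ℝ) ≤ c / 4 * X := by
    have h3 : 4 / c ≤ X := (Nat.le_ceil _).trans (by exact_mod_cast hXc)
    rw [div_le_iff₀ hc] at h3
    linarith
  have h3 : (W : ℝ) * Nat.primeCounting (2 * X) ≤ c / 4 * X := by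
    have h4 : 4 * W * C1 / c ≤ L := by linarith
    rw [div_le_iff₀ hc] at h4
    calc (W : ℝ) * Nat.primeCounting (2 * X) ≤ W * (C1 * X / L) := by gcongr
      _ = (4 * W * C1) * X / (4 * L) := by field_simp
      _ ≤ (L * c) * X / (4 * L) := by gcongr
      _ = c / 4 * X := by field_simp
  have h4 : c * X ≤ F.card := hF
  linarith

end Pool.Agent.H.MP_711652_nt.G2
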