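import Pool.Agent.H.MP_711652_nt.LG.Key

/-!
# The key identity with additional weights at the used positions
-/

set_option autoImplicit false

namespace Pool.Agent.H.MP_711652_nt.G2

open Finset Pool.Agent.H.MP_711652_nt.LG

variable {ι : Type*} [Fintype ι] [DecidableEq ι]

/-- product of `l j` over the used positions -/
noncomputable def ww (P : Finset ℕ) (l : ι → ℝ) (σ : P → Option ι) : ℝ :=
  ∏ j, if rr P σ j = 1 then 1 else l j

theorem cf_ww (P : Finset ℕ) (chi : ι → ℕ → ℝ) (h1 : ∀ j, chi j 1 = 1) (Y : ℕ) (l : ι → ℝ)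
    (σ : P → Option ι) :
    cf P (fun j r => if r = 1 then 1 else chi j r * l j) Y σ = cf P chi Y σ * ww P l σ := by
  unfold cf ww
  split_ifs with h
  · rw [← prod_mul_distrib]
    refine prod_congr rfl fun j _ => ?_
    by_cases hj : rr P σ j = 1
    · simp only [if_pos hj]
      rw [hj, h1, one_mul]
    · simp only [if_neg hj]
  · rw [zero_mul]

theorem vf_ww (P : Finset ℕ) (chi : ι → ℕ → ℝ) (h1 : ∀ j, chi j 1 = 1) (Y : ℕ) (l : ι → ℝ)
    (i : ι) (hi : l i = 1) (σ : P → Option ι) :
    vf P (fun j r => if r = 1 then 1 else chi j r * l j) Y i σ = vf P chi Y i σ * ww P l σ := by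
  unfold vf ww
  split_ifs with h
  · have e1 : ∏ j, (fun j r => if r = 1 then (1 : ℝ) else chi j r * l j) j (rr P σ j) =
        (∏ j, chi j (rr P σ j)) * ∏ j, (if rr P σ j = 1 then 1 else l j) := by
      rw [← prod_mul_distrib]
      refine prod_congr rfl fun j _ => ?_
      by_cases hj : rr P σ j = 1
      · simp only [if_pos hj]
        rw [hj, h1, one_mul]
      · simp only [if_neg hj]
    have e2 : wt P (fun j r => if r = 1 then (1 : ℝ) else chi j r * l j) Y i σ =
        wt P chi Y i σ := by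
      unfold wt
      refine sum_congr rfl fun T _ => ?_
      by_cases h2 : DD P σ * (∏ p ∈ T, (p : ℕ)) ≤ Y
      · rw [if_pos h2, if_pos h2]
        by_cases h3 : (∏ p ∈ T, (p : ℕ)) = 1
        · simp only [h3, if_true, h1]
        · simp only [h3, if_false, hi, mul_one]
      · rw [if_neg h2, if_neg h2]
    rw [e1, e2]
    ring
  · rw [zero_mul]

/-- **Key identity with weights.** -/
theorem key_ww {P : Finset ℕ} {A : ℕ → ι → ℕ → Prop} (hP : ∀ p ∈ P, p.Prime)
    (chi : ι → ℕ → ℝ) (h1 : ∀ j, chi j 1 = 1) (Y : ℕ) (i : ι) (m : ℕ) (l : ι → ℝ) (hi : l i = 1)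
    (hm : ∀ p ∈ P, ¬ A p i m) :
    ∑ σ : P → Option ι, cf P chi Y σ * ww P l σ * Phi P A σ m =
      ∑ σ : P → Option ι, vf P chi Y i σ * ww P l σ * Phi P A σ m := by
  have _ := hP
  have h := key (A := A) (P := P) (fun j r => if r = 1 then (1 : ℝ) else chi j r * l j)
    (fun j => if_pos rfl) Y i P (fun T hT hT' => absurd hT hT') m hm
  unfold Psi at h
  simp only [cf_ww P chi h1 Y l, vf_ww P chi h1 Y l i hi] at h
  exact h

end Pool.Agent.H.MP_711652_nt.G2
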