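import Pool.Agent.H.MP_711652_nt.G2.Quad
import Pool.Agent.H.MP_711652_nt.G2.KeyLam
import Pool.Agent.H.MP_711652_nt.LG.Diag3

/-!
# GAP2, F1 and F2: lower bound for the second moment; the contribution of the bad points
-/

set_option autoImplicit false

namespace Pool.Agent.H.MP_711652_nt.G2

open Finset Pool.Agent.H.MP_711652_nt.LG

variable {ι : Type*} [Fintype ι] [DecidableEq ι]

/-- The sifting function of a window. -/
noncomputable def PsiL (P : Finset ℕ) (A : ℕ → ι → ℕ → Prop) (chi : ι → ℕ → ℝ) (Y : ℕ)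
    (Lam : ι → ℕ → ℝ) (m : ℕ) : ℝ :=
  ∑ σ : P → Option ι, cf P chi Y σ * (Phi P A σ m * LamS Lam (used P σ) m)

/-- The main term. -/
noncomputable def MM (P : Finset ℕ) (chi : ι → ℕ → ℝ) (Y : ℕ) (Q0 : ℕ) (Lam : ι → ℕ → ℝ) : ℝ :=
  ∑ σ : P → Option ι, cf P chi Y σ ^ 2 * ph P σ * eS Q0 Lam (used P σ)

theorem f12_used_ww {P : Finset ℕ} (hP : ∀ p ∈ P, p.Prime) (Lam : ι → ℕ → ℝ) (m : ℕ)
    (σ : P → Option ι) : ww P (fun i => Lam i m) σ = LamS Lam (used P σ) m := by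
  unfold ww LamS
  have h1 : ∀ j, j ∈ used P σ ↔ rr P σ j ≠ 1 := by
    intro j
    constructor
    · intro h h2
      rw [mem_used] at h
      obtain ⟨p, hp⟩ := h
      rw [rr, prod_eq_one_iff] at h2
      have h3 := h2 p (mem_univ p)
      rw [if_pos hp] at h3
      exact (hP p p.2).one_lt.ne' h3
    · exact mem_used_of_rr P σ j
  rw [← prod_filter_mul_prod_filter_not univ (fun j => j ∈ used P σ)]
  have e1 : ∏ j ∈ univ.filter (fun j => j ∈ used P σ), (if rr P σ j = 1 then 1 else Lam j m) =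
      ∏ j ∈ used P σ, Lam j m := by
    have e2 : univ.filter (fun j => j ∈ used P σ) = used P σ := by
      ext j
      simp
    rw [e2]
    exact prod_congr rfl fun j hj => if_neg ((h1 j).1 hj)
  have e3 : ∏ j ∈ univ.filter (fun j => ¬ j ∈ used P σ),
      (if rr P σ j = 1 then 1 else Lam j m) = 1 := by
    refine prod_eq_one fun j hj => ?_
    rw [mem_filter] at hj
    by_cases h2 : rr P σ j = 1
    · rw [if_pos h2]
    · exact absurd ((h1 j).2 h2) hj.2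
  rw [e1, e3, mul_one]

theorem f12_used_none (P : Finset ℕ) : used P (fun _ => (none : Option ι)) = ∅ := by
  ext j
  rw [mem_used]
  simp

/-- `M ≥ 1` -/
theorem one_le_MM {P : Finset ℕ} (hP : ∀ p ∈ P, p.Prime) (chi : ι → ℕ → ℝ) (h1 : ∀ i, chi i 1 = 1)
    (Y : ℕ) (hY : 1 ≤ Y) {Q0 : ℕ} (hQ0 : 0 < Q0) (Lam : ι → ℕ → ℝ) :
    1 ≤ MM P chi Y Q0 Lam := by
  have h2 : cf P chi Y (fun _ => (none : Option ι)) ^ 2 * ph P (fun _ => (none : Option ι)) *
      eS Q0 Lam (used P (fun _ => (none : Option ι))) = 1 := by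
    rw [f12_used_none, eS_empty hQ0]
    have h3 : DD P (fun _ => (none : Option ι)) = 1 := by
      unfold DD
      simp
    have h4 : ∀ i, rr P (fun _ => (none : Option ι)) i = 1 := by
      intro i
      unfold rr
      simp
    unfold cf ph
    rw [h3, if_pos hY]
    simp [h4, h1]
  unfold MM
  rw [← h2]
  refine single_le_sum (f := fun σ : P → Option ι => cf P chi Y σ ^ 2 * ph P σ *
    eS Q0 Lam (used P σ)) (fun σ _ => ?_) (mem_univ _)
  exact mul_nonneg (mul_nonneg (sq_nonneg _) (ph_nonneg P hP σ)) (eS_nonneg _ _ _)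

/-- **F1.** -/
theorem f1 {P : Finset ℕ} {A : ℕ → ι → ℕ → Prop} (h : Forms P A) {Q0 : ℕ}
    (hc : ∀ p ∈ P, ¬ p ∣ Q0) {Lam : ι → ℕ → ℝ} {K : ℕ} {v η c : ℝ} (hS : Small Q0 Lam K v η c)
    (g : ι → ℕ → ℝ) (hg : ∀ i n, 0 ≤ g i n) (B Y : ℕ) (hB : 1 ≤ B)
    (hsum : ∀ i, ∑ T ∈ QQ P B, g i (∏ p ∈ T, p) = 1)
    (hK : ∀ σ : P → Option ι, DD P σ ≤ Y → (used P σ).card ≤ K) (N : ℕ) (ε : ℝ)
    (h1 : ∀ T ⊆ P, (∏ p ∈ T, p) ≤ Y →
      ∏ p ∈ T, (1 + ((Fintype.card ι : ℝ) - 1) / ((p : ℝ) - 1)) ≤ 1 + ε) :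
    N * ((1 - ε) * MM P (chi g B) Y Q0 Lam) - (2 ^ Fintype.card ι * (Y : ℝ) ^ 2 * c ^ K) ^ 2 ≤
      ∑ m ∈ range N, PsiL P A (chi g B) Y Lam m ^ 2 := by
  have hεσ : ∀ σ : P → Option ι, DD P σ ≤ Y → (∏ p : P, if σ p = none then (1 : ℝ)
        else 1 + ((Fintype.card ι : ℝ) - 1) / (((p : ℕ) : ℝ) - 1)) ≤ 1 + ε := by
    intro σ hσ
    have e := h1 (abs_supp P σ) (abs_supp_sub P σ) (by rw [abs_DD_supp]; exact hσ)
    rwa [abs_prod_supp P σ (fun p => 1 + ((Fintype.card ι : ℝ) - 1) / ((p : ℝ) - 1))] at e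
  have h2 := quad_lower h hS.pos hc (fun σ => cf P (chi g B) Y σ)
    (fun σ => LamS Lam (used P σ)) (fun _ => c ^ K)
    (fun σ hσ => tame_LamS hS _ (hK σ (abs_cf_DD P _ Y σ hσ))) N ε
    (fun σ hσ => hεσ σ (abs_cf_DD P _ Y σ hσ))
  have hc0 : 0 ≤ c ^ K := pow_nonneg (zero_le_one.trans hS.one_le) K
  have h3 := norm_le h.prime g hg B Y hB hsum (fun σ => cf P (chi g B) Y σ) (fun σ => le_rfl)
    (c ^ K) hc0
  have h4 : 0 ≤ ∑ σ : P → Option ι, |cf P (chi g B) Y σ| * ((DD P σ : ℝ) ^ 2 * c ^ K) :=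
    sum_nonneg fun σ _ => mul_nonneg (abs_nonneg _) (mul_nonneg (sq_nonneg _) hc0)
  have h5 := pow_le_pow_left₀ h4 h3 2
  have h6 : MM P (chi g B) Y Q0 Lam = ∑ σ : P → Option ι, cf P (chi g B) Y σ ^ 2 * ph P σ *
      E Q0 (fun m => LamS Lam (used P σ) m ^ 2) := rfl
  rw [h6]
  have h7 : ∑ m ∈ range N, PsiL P A (chi g B) Y Lam m ^ 2 = ∑ m ∈ range N,
      (∑ σ : P → Option ι, cf P (chi g B) Y σ * (Phi P A σ m * LamS Lam (used P σ) m)) ^ 2 := rfl
  rw [h7]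
  linarith

/-- **F2.** -/
theorem f2 {P : Finset ℕ} {A : ℕ → ι → ℕ → Prop} (h : Forms P A) {Q0 : ℕ}
    (hc : ∀ p ∈ P, ¬ p ∣ Q0) {Lam : ι → ℕ → ℝ} {K : ℕ} {v η c : ℝ} (hS : Small Q0 Lam K v η c)
    (g : ι → ℕ → ℝ) (hg : ∀ i n, 0 ≤ g i n) (B Y : ℕ) (hB : 1 ≤ B) (hY : 1 ≤ Y)
    (hsum : ∀ i, ∑ T ∈ QQ P B, g i (∏ p ∈ T, p) = 1)
    (hK : ∀ σ : P → Option ι, DD P σ ≤ Y → (used P σ).card ≤ K) (N : ℕ)
    (s ε t θ K' : ℝ) (hs : 0 ≤ s) (hε : 0 ≤ ε)
    (h1 : ∀ T ⊆ P, (∏ p ∈ T, p) ≤ Y →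
      ∏ p ∈ T, (1 + ((Fintype.card ι : ℝ) - 1) / ((p : ℝ) - 1)) ≤ 1 + ε)
    (h2 : ∀ i, ∀ T0 ⊆ P, (∏ p ∈ T0, p) ≤ Y →
      ∑ T ∈ (QQ P B).filter (fun T => ¬ Disjoint T T0), g i (∏ p ∈ T, p) ≤ t)
    (h3 : ∀ i, ∑ T ∈ QQ P B, g i (∏ p ∈ T, p) ^ 2 * (Nat.totient (∏ p ∈ T, p) : ℝ) *
          (((∏ p ∈ T, p : ℕ) : ℝ) ^ s - 1) ≤ K')
    (h3' : ((B : ℝ) / Y) ^ s * Real.exp ((Fintype.card ι : ℝ) * v * K') ≤ θ)
    (S : Finset ℕ) (hSN : S ⊆ range N)
    (hbad : ∀ m ∈ S, ∃ i, Lam i m = 1 ∧ ∀ p ∈ P, ¬ A p i m) :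
    ∑ m ∈ S, PsiL P A (chi g B) Y Lam m ^ 2 ≤
      (Fintype.card ι : ℝ) * (N * (v * ((t ^ 2 + θ + ε) * MM P (chi g B) Y Q0 Lam)) +
        (2 ^ Fintype.card ι * (Y : ℝ) ^ 2 * c ^ (K + 1)) ^ 2) := by
  have hP := h.prime
  have hc1 : 0 ≤ c := zero_le_one.trans hS.one_le
  have hv := hS.v_nonneg
  set χ : ι → ℕ → ℝ := chi g B with hχ
  have hχ1 : ∀ i, χ i 1 = 1 := fun i => by
    rw [hχ]
    simp [chi, chg]
  have hεσ : ∀ σ : P → Option ι, DD P σ ≤ Y → (∏ p : P, if σ p = none then (1 : ℝ)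
        else 1 + ((Fintype.card ι : ℝ) - 1) / (((p : ℕ) : ℝ) - 1)) ≤ 1 + ε := by
    intro σ hσ
    have e := h1 (abs_supp P σ) (abs_supp_sub P σ) (by rw [abs_DD_supp]; exact hσ)
    rwa [abs_prod_supp P σ (fun p => 1 + ((Fintype.card ι : ℝ) - 1) / ((p : ℝ) - 1))] at e
  have hvc : ∀ i σ, |vf P χ Y i σ| ≤ |cf P χ Y σ| := fun i σ => abs_vf_le P hP g hg B Y hsum i σ
  have hnn : ∀ σ : P → Option ι, 0 ≤ ph P σ * eS Q0 Lam (used P σ) := fun σ =>
    mul_nonneg (ph_nonneg P hP σ) (eS_nonneg _ _ _)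
  -- the functions `B_i`
  have hup : ∀ i, ∑ m ∈ range N, (∑ σ : P → Option ι, vf P χ Y i σ *
      (Phi P A σ m * (Lam i m * LamS Lam (used P σ) m))) ^ 2 ≤
      N * (v * ((t ^ 2 + θ + ε) * MM P χ Y Q0 Lam)) +
        (2 ^ Fintype.card ι * (Y : ℝ) ^ 2 * c ^ (K + 1)) ^ 2 := by
    intro i
    have hv0 : ∀ σ, vf P χ Y i σ ≠ 0 → DD P σ ≤ Y ∧ i ∉ used P σ := by
      intro σ hσ
      refine ⟨abs_cf_DD P χ Y σ fun h0 => hσ ?_, ?_⟩
      · have := hvc i σ
        rw [h0, abs_zero] at this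
        exact abs_eq_zero.1 (le_antisymm this (abs_nonneg _))
      · intro h4
        rw [mem_used] at h4
        obtain ⟨p, hp⟩ := h4
        apply hσ
        unfold vf
        rw [if_neg]
        push Not
        exact ⟨p, hp⟩
    have e1 := quad_upper h hS.pos hc (fun σ => vf P χ Y i σ)
      (fun σ => if i ∈ used P σ then 0 else |cf P χ Y σ|) (by
        intro σ
        by_cases h4 : i ∈ used P σ
        · rw [if_pos h4]
          by_contra h5
          exact (hv0 σ (fun h6 => h5 (by rw [h6, abs_zero]))).2 h4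
        · rw [if_neg h4]
          exact hvc i σ)
      (fun σ m => Lam i m * LamS Lam (used P σ) m) (fun _ => c ^ (K + 1)) (by
        intro σ hσ
        have h4 := (hS.tame i).mul (tame_LamS hS (used P σ) (hK σ (hv0 σ hσ).1))
        rw [pow_succ, mul_comm (c ^ K) c]
        exact h4) N ε (by
        intro σ hσ
        refine hεσ σ (abs_cf_DD P χ Y σ fun h0 => hσ ?_)
        rw [h0]
        simp)
    have e2 := norm_le hP g hg B Y hB hsum (fun σ => vf P χ Y i σ) (fun σ => hvc i σ)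
      (c ^ (K + 1)) (pow_nonneg hc1 _)
    have e3 : 0 ≤ ∑ σ : P → Option ι, |vf P χ Y i σ| * ((DD P σ : ℝ) ^ 2 * c ^ (K + 1)) :=
      sum_nonneg fun σ _ => mul_nonneg (abs_nonneg _) (mul_nonneg (sq_nonneg _) (pow_nonneg hc1 _))
    have e4 := pow_le_pow_left₀ e3 e2 2
    -- the mean of the square of the small weight
    have e5 : ∀ σ : P → Option ι, DD P σ ≤ Y → i ∉ used P σ →
        E Q0 (fun m => (Lam i m * LamS Lam (used P σ) m) ^ 2) ≤ v * eS Q0 Lam (used P σ) := by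
      intro σ hσ hi
      have h4 := hS.ratio (used P σ) (hK σ hσ) i hi
      unfold eS
      simp only [mul_pow, LamS_sq]
      exact h4
    have e6 : ∑ σ : P → Option ι, vf P χ Y i σ ^ 2 * ph P σ *
        E Q0 (fun m => (Lam i m * LamS Lam (used P σ) m) ^ 2) ≤
        v * ∑ σ : P → Option ι, vf P χ Y i σ ^ 2 * (ph P σ * eS Q0 Lam (used P σ)) := by
      rw [mul_sum]
      refine sum_le_sum fun σ _ => ?_
      by_cases h0 : vf P χ Y i σ = 0
      · rw [h0]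
        simp
      · obtain ⟨h4, h5⟩ := hv0 σ h0
        have h6 := mul_le_mul_of_nonneg_left (e5 σ h4 h5)
          (mul_nonneg (sq_nonneg (vf P χ Y i σ)) (ph_nonneg P hP σ))
        calc _ ≤ _ := h6
          _ = _ := by ring
    have e7 : ∑ σ : P → Option ι, (if i ∈ used P σ then 0 else |cf P χ Y σ|) ^ 2 * ph P σ *
        E Q0 (fun m => (Lam i m * LamS Lam (used P σ) m) ^ 2) ≤ v * MM P χ Y Q0 Lam := by
      unfold MM
      rw [mul_sum]
      refine sum_le_sum fun σ _ => ?_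
      have h7 : 0 ≤ v * (cf P χ Y σ ^ 2 * ph P σ * eS Q0 Lam (used P σ)) :=
        mul_nonneg hv (mul_nonneg (mul_nonneg (sq_nonneg _) (ph_nonneg P hP σ)) (eS_nonneg _ _ _))
      by_cases h4 : i ∈ used P σ
      · rw [if_pos h4]
        simpa using h7
      · rw [if_neg h4, sq_abs]
        by_cases h0 : cf P χ Y σ = 0
        · rw [h0]
          simp
        · have h5 := abs_cf_DD P χ Y σ h0
          have h6 := mul_le_mul_of_nonneg_left (e5 σ h5 h4)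
            (mul_nonneg (sq_nonneg (cf P χ Y σ)) (ph_nonneg P hP σ))
          calc _ ≤ _ := h6
            _ = _ := by ring
    have htail : ∑ σ ∈ (univ : Finset (P → Option ι)).filter (fun σ => Y < DD P σ * B),
        cf P χ Y σ ^ 2 * ph P σ * eS Q0 Lam (used P σ) ≤ θ * MM P χ Y Q0 Lam := by
      refine (tail_small hP hS g B Y hB hY s hs K' h3 hK).trans ?_
      have h7 := one_le_MM hP χ hχ1 Y hY hS.pos Lam
      exact mul_le_mul_of_nonneg_right h3' (by unfold MM at h7; linarith)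
    have e8 : ∑ σ : P → Option ι, vf P χ Y i σ ^ 2 * (ph P σ * eS Q0 Lam (used P σ)) ≤
        t ^ 2 * MM P χ Y Q0 Lam + θ * MM P χ Y Q0 Lam := by
      rw [← sum_filter_add_sum_filter_not univ (fun σ : P → Option ι => Y < DD P σ * B), add_comm]
      refine add_le_add ?_ ?_
      · calc ∑ σ ∈ (univ : Finset (P → Option ι)).filter (fun σ => ¬ Y < DD P σ * B),
              vf P χ Y i σ ^ 2 * (ph P σ * eS Q0 Lam (used P σ))
            ≤ ∑ σ ∈ (univ : Finset (P → Option ι)).filter (fun σ => ¬ Y < DD P σ * B),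
              t ^ 2 * (cf P χ Y σ ^ 2 * ph P σ * eS Q0 Lam (used P σ)) := by
              refine sum_le_sum fun σ hσ => ?_
              rw [mem_filter] at hσ
              have e6 := abs_vf_le_small P hP g hg B Y hB hsum t h2 i σ (not_lt.1 hσ.2)
              have e7 : vf P χ Y i σ ^ 2 ≤ t ^ 2 * cf P χ Y σ ^ 2 := by
                rw [← sq_abs (vf P χ Y i σ), ← sq_abs (cf P χ Y σ), ← mul_pow]
                exact pow_le_pow_left₀ (abs_nonneg _) e6 2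
              calc vf P χ Y i σ ^ 2 * (ph P σ * eS Q0 Lam (used P σ))
                  ≤ (t ^ 2 * cf P χ Y σ ^ 2) * (ph P σ * eS Q0 Lam (used P σ)) :=
                    mul_le_mul_of_nonneg_right e7 (hnn σ)
                _ = t ^ 2 * (cf P χ Y σ ^ 2 * ph P σ * eS Q0 Lam (used P σ)) := by ring
          _ ≤ ∑ σ : P → Option ι, t ^ 2 * (cf P χ Y σ ^ 2 * ph P σ * eS Q0 Lam (used P σ)) :=
              sum_le_sum_of_subset_of_nonneg (filter_subset _ _) fun σ _ _ =>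
                mul_nonneg (sq_nonneg _) (mul_nonneg (mul_nonneg (sq_nonneg _)
                  (ph_nonneg P hP σ)) (eS_nonneg _ _ _))
          _ = t ^ 2 * MM P χ Y Q0 Lam := by rw [MM, mul_sum]
      · refine le_trans (sum_le_sum fun σ _ => ?_) htail
        rw [mul_assoc (cf P χ Y σ ^ 2)]
        refine mul_le_mul_of_nonneg_right ?_ (hnn σ)
        rw [← sq_abs (vf P χ Y i σ), ← sq_abs (cf P χ Y σ)]
        exact pow_le_pow_left₀ (abs_nonneg _) (hvc i σ) 2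
    refine e1.trans (add_le_add ?_ e4)
    refine mul_le_mul_of_nonneg_left ?_ (Nat.cast_nonneg _)
    have e9 := mul_le_mul_of_nonneg_left e8 hv
    have e10 := mul_le_mul_of_nonneg_left e7 hε
    calc _ ≤ v * (t ^ 2 * MM P χ Y Q0 Lam + θ * MM P χ Y Q0 Lam) +
          ε * (v * MM P χ Y Q0 Lam) := add_le_add (e6.trans e9) e10
      _ = _ := by ring
  -- the comparison
  have hcmp : ∑ m ∈ S, PsiL P A χ Y Lam m ^ 2 ≤
      ∑ i : ι, ∑ m ∈ range N, (∑ σ : P → Option ι, vf P χ Y i σ *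
      (Phi P A σ m * (Lam i m * LamS Lam (used P σ) m))) ^ 2 := by
    rw [sum_comm]
    refine le_trans (sum_le_sum fun m hm => ?_) (sum_le_sum_of_subset_of_nonneg hSN fun m _ _ =>
      sum_nonneg fun i _ => sq_nonneg _)
    obtain ⟨i, hi, hi2⟩ := hbad m hm
    have e1 : PsiL P A χ Y Lam m = ∑ σ : P → Option ι, vf P χ Y i σ *
        (Phi P A σ m * (Lam i m * LamS Lam (used P σ) m)) := by
      have h4 := key_ww (A := A) hP χ hχ1 Y i m (fun j => Lam j m) hi hi2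
      simp only [f12_used_ww hP Lam m] at h4
      unfold PsiL
      calc _ = ∑ σ : P → Option ι, cf P χ Y σ * LamS Lam (used P σ) m * Phi P A σ m :=
            sum_congr rfl fun σ _ => by ring
        _ = _ := h4
        _ = _ := sum_congr rfl fun σ _ => by rw [hi]; ring
    rw [e1]
    exact single_le_sum (f := fun i => (∑ σ : P → Option ι, vf P χ Y i σ *
        (Phi P A σ m * (Lam i m * LamS Lam (used P σ) m))) ^ 2)
      (fun i _ => sq_nonneg _) (mem_univ i)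
  refine hcmp.trans ((sum_le_sum fun i _ => hup i).trans ?_)
  rw [sum_const, card_univ, nsmul_eq_mul]

end Pool.Agent.H.MP_711652_nt.G2
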