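import Pool.Agent.H.MP_711652_nt.LG.Tilt2
import Pool.Agent.H.MP_711652_nt.LG.MLA

/-!
# MP_711652_nt, GAP2, F3: combinatorial lemmas for the fourth moment (helper62)
-/

set_option autoImplicit false

namespace Pool.Agent.H.MP_711652_nt.G2

open Finset Pool.Agent.H.MP_711652_nt.LG

section sets

variable {ι : Type*} [Fintype ι] [DecidableEq ι]

/-- The positions which carry a prime. -/
def usedF (P : Finset ℕ) (σ : P → Option ι) : Finset ι := univ.filter (fun i => rr P σ i ≠ 1)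

/-- The weights `u` restricted to the assignments with the set `S` of used positions. -/
noncomputable def f3_u (S : Finset ι) (u : ι → ℕ → ℝ) (i : ι) (n : ℕ) : ℝ :=
  if i ∈ S then (if n = 1 then 0 else u i n) else del n

theorem f3_u_nonneg (S : Finset ι) (u : ι → ℕ → ℝ) (hu : ∀ j n, 0 ≤ u j n) (j : ι) (n : ℕ) :
    0 ≤ f3_u S u j n := by
  unfold f3_u
  split_ifs
  · exact le_rfl
  · exact hu j n
  · exact tilt2_del_nonneg n

theorem f3_prod_ne_one {P : Finset ℕ} (hP : ∀ p ∈ P, p.Prime) {T : Finset ℕ} (hT : T ⊆ P)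
    (hne : T ≠ ∅) : ∏ p ∈ T, p ≠ 1 := by
  have := two_le_prod_of_QQ hP hT hne
  omega

theorem f3_sum_in {P : Finset ℕ} (hP : ∀ p ∈ P, p.Prime) (S : Finset ι) (u : ι → ℕ → ℝ) {i : ι}
    (hi : i ∈ S) : ∑ T ∈ P.powerset, f3_u S u i (∏ p ∈ T, p) =
      ∑ T ∈ P.powerset.erase ∅, u i (∏ p ∈ T, p) := by
  rw [← Finset.sum_erase_add P.powerset _ (Finset.empty_mem_powerset P)]
  have h1 : f3_u S u i (∏ p ∈ (∅ : Finset ℕ), p) = 0 := by
    rw [f3_u, if_pos hi, Finset.prod_empty, if_pos rfl]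
  rw [h1, add_zero]
  refine Finset.sum_congr rfl fun T hT => ?_
  rw [mem_erase, mem_powerset] at hT
  rw [f3_u, if_pos hi, if_neg (f3_prod_ne_one hP hT.2 hT.1)]

theorem f3_sum_out {P : Finset ℕ} (hP : ∀ p ∈ P, p.Prime) (S : Finset ι) (u : ι → ℕ → ℝ) {i : ι}
    (hi : i ∉ S) : ∑ T ∈ P.powerset, f3_u S u i (∏ p ∈ T, p) = 1 := by
  rw [← Finset.sum_erase_add P.powerset _ (Finset.empty_mem_powerset P)]
  have h1 : f3_u S u i (∏ p ∈ (∅ : Finset ℕ), p) = 1 := by
    rw [f3_u, if_neg hi, Finset.prod_empty, del, if_pos rfl]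
  rw [h1, Finset.sum_eq_zero, zero_add]
  intro T hT
  rw [mem_erase, mem_powerset] at hT
  rw [f3_u, if_neg hi, del, if_neg (f3_prod_ne_one hP hT.2 hT.1)]

/-- Grouping the assignments by the set of the used positions. -/
theorem SS_le_sets (P : Finset ℕ) (hP : ∀ p ∈ P, p.Prime) (Y K : ℕ) (u : ι → ℕ → ℝ)
    (hu : ∀ j n, 0 ≤ u j n) (h1 : ∀ j, u j 1 = 1)
    (hK : ∀ σ : P → Option ι, DD P σ ≤ Y → (usedF P σ).card ≤ K) :
    SS P Y u ≤ ∑ S ∈ (univ : Finset (Finset ι)).filter (fun S => S.card ≤ K),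
      ∏ i ∈ S, ∑ T ∈ P.powerset.erase ∅, u i (∏ p ∈ T, p) := by
  classical
  have h2 : SS P Y u ≤ ∑ S ∈ (univ : Finset (Finset ι)).filter (fun S => S.card ≤ K),
      SS P Y (f3_u S u) := by
    unfold SS
    rw [Finset.sum_comm]
    refine Finset.sum_le_sum fun σ _ => ?_
    by_cases hσ : DD P σ ≤ Y
    · rw [if_pos hσ]
      have h3 : ∏ i, u i (rr P σ i) = (if DD P σ ≤ Y then
          ∏ i, f3_u (usedF P σ) u i (rr P σ i) else 0) := by
        rw [if_pos hσ]
        refine Finset.prod_congr rfl fun i _ => ?_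
        by_cases hi : rr P σ i = 1
        · have h4 : i ∉ usedF P σ := by
            rw [usedF, mem_filter]
            exact fun h => h.2 hi
          rw [f3_u, if_neg h4, hi, h1, del, if_pos rfl]
        · have h4 : i ∈ usedF P σ := by
            rw [usedF, mem_filter]
            exact ⟨mem_univ _, hi⟩
          rw [f3_u, if_pos h4, if_neg hi]
      rw [h3]
      refine Finset.single_le_sum
        (f := fun S => if DD P σ ≤ Y then ∏ i, f3_u S u i (rr P σ i) else 0)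
        (fun S _ => ?_) ?_
      · rw [if_pos hσ]
        exact Finset.prod_nonneg fun i _ => f3_u_nonneg S u hu i _
      · rw [mem_filter]
        exact ⟨mem_univ _, hK σ hσ⟩
    · rw [if_neg hσ]
      refine Finset.sum_nonneg fun S _ => ?_
      rw [if_neg hσ]
  refine h2.trans (Finset.sum_le_sum fun S _ => ?_)
  refine (SS_le_prod P hP Y (f3_u S u) (f3_u_nonneg S u hu)).trans (le_of_eq ?_)
  rw [← Finset.prod_mul_prod_compl S (fun i => ∑ T ∈ P.powerset, f3_u S u i (∏ p ∈ T, p))]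
  rw [Finset.prod_congr rfl fun i hi => f3_sum_in hP S u hi,
    Finset.prod_eq_one (s := Sᶜ) fun i hi => f3_sum_out hP S u (Finset.mem_compl.1 hi), mul_one]

end sets

section four

variable {ι : Type*} [Fintype ι] [DecidableEq ι]

theorem f3_prod_union (h : ι → ℕ) (A B C D : Finset ι) :
    (∏ i ∈ A, (h i : ℝ)) * (∏ i ∈ B, (h i : ℝ)) * (∏ i ∈ C, (h i : ℝ)) * ∏ i ∈ D, (h i : ℝ) ≤
      ∏ i ∈ A ∪ B ∪ C ∪ D, (h i : ℝ) ^ 4 := by
  have h0 : ∀ S ⊆ A ∪ B ∪ C ∪ D, ∏ i ∈ S, (h i : ℝ) =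
      ∏ i ∈ A ∪ B ∪ C ∪ D, if i ∈ S then (h i : ℝ) else 1 := by
    intro S hS
    rw [← Finset.prod_filter, Finset.filter_mem_eq_inter, Finset.inter_eq_right.2 hS]
  have hA : A ⊆ A ∪ B ∪ C ∪ D := fun x hx => by simp [hx]
  have hB : B ⊆ A ∪ B ∪ C ∪ D := fun x hx => by simp [hx]
  have hC : C ⊆ A ∪ B ∪ C ∪ D := fun x hx => by simp [hx]
  have hD : D ⊆ A ∪ B ∪ C ∪ D := fun x hx => by simp [hx]
  rw [h0 A hA, h0 B hB, h0 C hC, h0 D hD, ← Finset.prod_mul_distrib, ← Finset.prod_mul_distrib,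
    ← Finset.prod_mul_distrib]
  refine Finset.prod_le_prod (fun i _ => ?_) fun i hi => ?_
  · have e : ∀ S : Finset ι, (0 : ℝ) ≤ if i ∈ S then (h i : ℝ) else 1 := by
      intro S
      split_ifs
      · exact Nat.cast_nonneg _
      · exact zero_le_one
    exact mul_nonneg (mul_nonneg (mul_nonneg (e A) (e B)) (e C)) (e D)
  · simp only [Finset.mem_union] at hi
    rcases Nat.eq_zero_or_pos (h i) with h1 | h1
    · have e : ∀ S : Finset ι, i ∈ S → (if i ∈ S then ((h i : ℕ) : ℝ) else 1) = 0 := by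
        intro S hS
        rw [if_pos hS, h1, Nat.cast_zero]
      have h2 : (0 : ℝ) ≤ (h i : ℝ) ^ 4 := by positivity
      rcases hi with ((hi | hi) | hi) | hi
      · rw [e A hi]; simpa using h2
      · rw [e B hi]; simpa using h2
      · rw [e C hi]; simpa using h2
      · rw [e D hi]; simpa using h2
    · have h2 : (1 : ℝ) ≤ (h i : ℝ) := by exact_mod_cast h1
      have e : ∀ S : Finset ι, (if i ∈ S then (h i : ℝ) else 1) ≤ (h i : ℝ) := by
        intro S
        split_ifs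
        · exact le_rfl
        · exact h2
      have e0 : ∀ S : Finset ι, (0 : ℝ) ≤ if i ∈ S then (h i : ℝ) else 1 := by
        intro S
        split_ifs
        · exact Nat.cast_nonneg _
        · exact zero_le_one
      have h3 : (0 : ℝ) ≤ (h i : ℝ) := Nat.cast_nonneg _
      calc _ ≤ (h i : ℝ) * (h i : ℝ) * (h i : ℝ) * (h i : ℝ) :=
            mul_le_mul (mul_le_mul (mul_le_mul (e A) (e B) (e0 B) h3) (e C) (e0 C)
              (mul_nonneg h3 h3)) (e D) (e0 D) (mul_nonneg (mul_nonneg h3 h3) h3)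
        _ = (h i : ℝ) ^ 4 := by ring

/-- The fourth power of a sum over small sets. -/
theorem pow4_le (h : ι → ℕ) (K : ℕ) :
    (∑ S ∈ (univ : Finset (Finset ι)).filter (fun S => S.card ≤ K), ∏ i ∈ S, (h i : ℝ)) ^ 4 ≤
      16 ^ (4 * K) * ∑ U ∈ (univ : Finset (Finset ι)).filter (fun U => U.card ≤ 4 * K),
        ∏ i ∈ U, (h i : ℝ) ^ 4 := by
  classical
  set Z := (univ : Finset (Finset ι)).filter (fun S => S.card ≤ K) with hZ
  set f : Finset ι → ℝ := fun S => ∏ i ∈ S, (h i : ℝ) with hf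
  set F : Finset ι → ℝ := fun U => ∏ i ∈ U, (h i : ℝ) ^ 4 with hF
  have hF0 : ∀ U, 0 ≤ F U := fun U => Finset.prod_nonneg fun i _ => by positivity
  have e1 : (∑ S ∈ Z, f S) ^ 4 = ∑ x ∈ (Z ×ˢ Z) ×ˢ (Z ×ˢ Z),
      f x.1.1 * f x.1.2 * f x.2.1 * f x.2.2 := by
    have e2 : (∑ S ∈ Z, f S) ^ 4 = ((∑ S ∈ Z, f S) * ∑ S ∈ Z, f S) *
        ((∑ S ∈ Z, f S) * ∑ S ∈ Z, f S) := by ring
    rw [e2, Finset.sum_mul_sum, ← Finset.sum_product', Finset.sum_mul_sum, ← Finset.sum_product']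
    refine Finset.sum_congr rfl fun x _ => ?_
    ring
  set un : (Finset ι × Finset ι) × (Finset ι × Finset ι) → Finset ι :=
    fun x => x.1.1 ∪ x.1.2 ∪ x.2.1 ∪ x.2.2 with hun
  have e3 : (∑ S ∈ Z, f S) ^ 4 ≤ ∑ x ∈ (Z ×ˢ Z) ×ˢ (Z ×ˢ Z), F (un x) := by
    rw [e1]
    exact Finset.sum_le_sum fun x _ => f3_prod_union h _ _ _ _
  refine e3.trans ?_
  have hmaps : ∀ x ∈ (Z ×ˢ Z) ×ˢ (Z ×ˢ Z),
      un x ∈ (univ : Finset (Finset ι)).filter (fun U => U.card ≤ 4 * K) := by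
    rintro ⟨⟨A, B⟩, ⟨C, D⟩⟩ hx
    simp only [hZ, mem_product, mem_filter, mem_univ, true_and] at hx ⊢
    have h1 := Finset.card_union_le (A ∪ B ∪ C) D
    have h2 := Finset.card_union_le (A ∪ B) C
    have h3 := Finset.card_union_le A B
    change (A ∪ B ∪ C ∪ D).card ≤ 4 * K
    omega
  rw [← Finset.sum_fiberwise_of_maps_to hmaps, Finset.mul_sum]
  refine Finset.sum_le_sum fun U hU => ?_
  rw [mem_filter] at hU
  have e4 : ∑ x ∈ ((Z ×ˢ Z) ×ˢ (Z ×ˢ Z)).filter (fun x => un x = U), F (un x) =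
      ((((Z ×ˢ Z) ×ˢ (Z ×ˢ Z)).filter (fun x => un x = U)).card : ℝ) * F U := by
    rw [Finset.sum_congr rfl fun x hx => by rw [(mem_filter.1 hx).2], Finset.sum_const,
      nsmul_eq_mul]
  rw [e4]
  refine mul_le_mul_of_nonneg_right ?_ (hF0 U)
  have e5 : ((Z ×ˢ Z) ×ˢ (Z ×ˢ Z)).filter (fun x => un x = U) ⊆
      (U.powerset ×ˢ U.powerset) ×ˢ (U.powerset ×ˢ U.powerset) := by
    rintro ⟨⟨A, B⟩, ⟨C, D⟩⟩ hx
    have hx2 : A ∪ B ∪ C ∪ D = U := (mem_filter.1 hx).2
    rw [← hx2]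
    simp only [mem_product, mem_powerset]
    refine ⟨⟨?_, ?_⟩, ?_, ?_⟩
    · intro x hx
      simp [hx]
    · intro x hx
      simp [hx]
    · intro x hx
      simp [hx]
    · intro x hx
      simp [hx]
  have e6 := Finset.card_le_card e5
  rw [Finset.card_product, Finset.card_product, Finset.card_powerset] at e6
  have e7 : 2 ^ U.card * 2 ^ U.card * (2 ^ U.card * 2 ^ U.card) = 16 ^ U.card := by
    rw [← mul_pow, ← mul_pow]
    norm_num
  rw [e7] at e6
  have e8 : (16 : ℕ) ^ U.card ≤ 16 ^ (4 * K) := Nat.pow_le_pow_right (by norm_num) hU.2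
  exact_mod_cast e6.trans e8

end four

/-- The weight of one position, multiplied by the absolute value of the local factors: `H` is the
set of the primes hitting the position. -/
theorem sum_gw_psi {P : Finset ℕ} (hP : ∀ p ∈ P, p.Prime) (B : ℕ) {c : ℝ} (hc : 0 ≤ c)
    (hsum : ∑ T ∈ QQ P B, gw c (∏ p ∈ T, p) = 1) (hlog : ∀ q ∈ P, c ≤ Real.log q)
    (H : Finset ℕ) (hH : H ⊆ P) :
    ∑ T ∈ QQ P B, gw c (∏ p ∈ T, p) * ∏ p ∈ T, (if p ∈ H then (p : ℝ) - 1 else 1) ≤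
      2 ^ (H.card + 1) := by
  classical
  have hpos : ∀ {T : Finset ℕ}, T ⊆ P → 0 < ∏ p ∈ T, p := fun hT =>
    Finset.prod_pos fun p hp => (hP p (hT hp)).pos
  set F : Finset ℕ → ℝ := fun E => if E = ∅ then 1 else gw c (∏ p ∈ E, p) with hF
  have hF0 : ∀ E, 0 ≤ F E := by
    intro E
    simp only [hF]
    split_ifs
    · exact zero_le_one
    · exact gw_nonneg hc _
  have htot : ∀ T ⊆ P, ∏ p ∈ T, ((p : ℝ) - 1) = (Nat.totient (∏ p ∈ T, p) : ℝ) := by
    intro T hT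
    induction T using Finset.induction_on with
    | empty => simp
    | insert p T hp ih =>
      have hpP := hT (Finset.mem_insert_self _ _)
      have hTP : T ⊆ P := fun q hq => hT (Finset.mem_insert_of_mem hq)
      have hcop : p.Coprime (∏ q ∈ T, q) := by
        refine Nat.Coprime.prod_right fun q hq => ?_
        refine (Nat.coprime_primes (hP p hpP) (hP q (hTP hq))).2 ?_
        rintro rfl
        exact hp hq
      rw [Finset.prod_insert hp, Finset.prod_insert hp, Nat.totient_mul hcop, ih hTP,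
        Nat.totient_prime (hP p hpP)]
      push_cast [(hP p hpP).one_le]
      ring
  -- one term
  have hterm : ∀ T ∈ QQ P B,
      gw c (∏ p ∈ T, p) * ∏ p ∈ T, (if p ∈ H then (p : ℝ) - 1 else 1) ≤ F (T \ H) := by
    intro T hT
    rw [mem_QQ] at hT
    obtain ⟨hne, hTP, hTB⟩ := hT
    have h2 := two_le_prod_of_QQ hP hTP hne
    have hlogT : 0 < Real.log ((∏ p ∈ T, p : ℕ) : ℝ) := Real.log_pos (by exact_mod_cast h2)
    have hprod : ∏ p ∈ T, (if p ∈ H then (p : ℝ) - 1 else 1) = ∏ p ∈ T ∩ H, ((p : ℝ) - 1) := by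
      rw [← Finset.prod_filter, Finset.filter_mem_eq_inter]
    have hsplit : ∏ p ∈ T, ((p : ℝ) - 1) =
        (∏ p ∈ T ∩ H, ((p : ℝ) - 1)) * ∏ p ∈ T \ H, ((p : ℝ) - 1) := by
      rw [mul_comm, ← Finset.prod_sdiff (Finset.inter_subset_left : T ∩ H ⊆ T),
        Finset.sdiff_inter_self_left]
    have hφ : ∀ S ⊆ P, 0 < ∏ p ∈ S, ((p : ℝ) - 1) := fun S hS =>
      Finset.prod_pos fun p hp => by
        have : (1 : ℝ) < p := by exact_mod_cast (hP p (hS hp)).one_lt
        linarith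
    have hI := hφ (T ∩ H) (fun p hp => hTP (Finset.mem_inter.1 hp).1)
    have hD := hφ (T \ H) (fun p hp => hTP (Finset.mem_sdiff.1 hp).1)
    rw [gw_of_two_le c h2, ← htot T hTP, hprod, hsplit]
    simp only [hF]
    have e1 : c / ((∏ p ∈ T ∩ H, ((p : ℝ) - 1)) * (∏ p ∈ T \ H, ((p : ℝ) - 1)) *
        Real.log ((∏ p ∈ T, p : ℕ) : ℝ)) * ∏ p ∈ T ∩ H, ((p : ℝ) - 1) =
        c / ((∏ p ∈ T \ H, ((p : ℝ) - 1)) * Real.log ((∏ p ∈ T, p : ℕ) : ℝ)) := by
      field_simp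
    rw [e1]
    split_ifs with hE
    · rw [hE, Finset.prod_empty, one_mul, div_le_one hlogT]
      obtain ⟨q, hq⟩ := Finset.nonempty_iff_ne_empty.2 hne
      refine (hlog q (hTP hq)).trans (Real.log_le_log (by exact_mod_cast (hP q (hTP hq)).pos) ?_)
      exact_mod_cast Nat.le_of_dvd (hpos hTP) (Finset.dvd_prod_of_mem _ hq)
    · have hEP : T \ H ⊆ P := fun p hp => hTP (Finset.mem_sdiff.1 hp).1
      have h3 := two_le_prod_of_QQ hP hEP hE
      have hlogE : 0 < Real.log ((∏ p ∈ T \ H, p : ℕ) : ℝ) :=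
        Real.log_pos (by exact_mod_cast h3)
      rw [gw_of_two_le c h3, ← htot _ hEP]
      refine div_le_div_of_nonneg_left hc (mul_pos hD hlogE) ?_
      refine mul_le_mul_of_nonneg_left ?_ hD.le
      refine Real.log_le_log (by exact_mod_cast hpos hEP) ?_
      exact_mod_cast Nat.le_of_dvd (hpos hTP)
        (Finset.prod_dvd_prod_of_subset _ _ _ Finset.sdiff_subset)
  refine (Finset.sum_le_sum hterm).trans ?_
  -- the sum over the pairs
  have hinj : Set.InjOn (fun T : Finset ℕ => (T ∩ H, T \ H)) (QQ P B : Set (Finset ℕ)) := by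
    intro T _ T' _ h
    simp only [Prod.mk.injEq] at h
    have e1 : ∀ T : Finset ℕ, T = (T ∩ H) ∪ (T \ H) := fun T => by
      ext x
      simp only [Finset.mem_union, Finset.mem_inter, Finset.mem_sdiff]
      tauto
    rw [e1 T, e1 T', h.1, h.2]
  have h4 : ∑ T ∈ QQ P B, F (T \ H) =
      ∑ x ∈ (QQ P B).image (fun T : Finset ℕ => (T ∩ H, T \ H)), F x.2 := by
    rw [Finset.sum_image hinj]
  have h5 : (QQ P B).image (fun T : Finset ℕ => (T ∩ H, T \ H)) ⊆
      H.powerset ×ˢ (insert ∅ (QQ P B)) := by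
    intro x hx
    obtain ⟨T, hT, rfl⟩ := mem_image.1 hx
    rw [mem_product, mem_powerset]
    refine ⟨Finset.inter_subset_right, ?_⟩
    rw [mem_insert]
    by_cases hE : T \ H = ∅
    · exact Or.inl hE
    · refine Or.inr ?_
      rw [mem_QQ] at hT ⊢
      refine ⟨hE, fun p hp => hT.2.1 (Finset.mem_sdiff.1 hp).1, le_trans ?_ hT.2.2⟩
      exact Nat.le_of_dvd (hpos hT.2.1)
        (Finset.prod_dvd_prod_of_subset _ _ _ Finset.sdiff_subset)
  rw [h4]
  refine (Finset.sum_le_sum_of_subset_of_nonneg h5 fun x _ _ => hF0 _).trans ?_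
  rw [Finset.sum_product]
  change ∑ x ∈ H.powerset, ∑ y ∈ insert ∅ (QQ P B), F y ≤ 2 ^ (H.card + 1)
  have hemp : (∅ : Finset ℕ) ∉ QQ P B := by
    rw [mem_QQ]
    exact fun h => h.1 rfl
  have h6 : ∑ E ∈ insert ∅ (QQ P B), F E = 2 := by
    rw [Finset.sum_insert hemp]
    have h7 : ∑ E ∈ QQ P B, F E = 1 := by
      rw [← hsum]
      refine Finset.sum_congr rfl fun E hE => ?_
      rw [mem_QQ] at hE
      simp only [hF]
      rw [if_neg hE.1]
    rw [h7]
    simp only [hF, if_true]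
    norm_num
  rw [Finset.sum_const, h6, Finset.card_powerset, nsmul_eq_mul]
  push_cast
  rw [pow_succ]

/-- The number of large primes dividing a number. -/
theorem card_hit_le {H : Finset ℕ} {D L : ℝ} {n : ℕ} (hD : 1 < D) (hH : ∀ p ∈ H, p.Prime)
    (hDH : ∀ p ∈ H, D ≤ (p : ℕ)) (hn : 0 < n) (hdvd : ∀ p ∈ H, p ∣ n) (hnL : (n : ℝ) ≤ L) :
    (H.card : ℝ) * Real.log D ≤ Real.log L := by
  refine card_log_le hD hDH ?_
  refine le_trans ?_ hnL
  have h1 : ∏ p ∈ H, p ∣ n :=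
    Finset.prod_primes_dvd n (fun p hp => (hH p hp).prime) hdvd
  exact_mod_cast Nat.le_of_dvd hn h1

end Pool.Agent.H.MP_711652_nt.G2
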