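import Pool.Agent.H.MP_711652_nt.G2.F3A

/-!
# MP_711652_nt, GAP2, F3: the pointwise bound and the fourth moment (helper62)
-/

set_option autoImplicit false

namespace Pool.Agent.H.MP_711652_nt.G2

open Finset Pool.Agent.H.MP_711652_nt.LG

variable {ι : Type*} [Fintype ι] [DecidableEq ι]

open Classical in
/-- The absolute value of the local factors at position `i`, as a function of the product of the
primes at this position. -/
noncomputable def f3_psi (P : Finset ℕ) (A : ℕ → ι → ℕ → Prop) (m : ℕ) (i : ι) (n : ℕ) : ℝ :=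
  ∏ p ∈ P, if p ∣ n ∧ A p i m then (p : ℝ) - 1 else 1

theorem f3_dvd_rr {P : Finset ℕ} (hP : ∀ p ∈ P, p.Prime) (σ : P → Option ι) (i : ι) (p : P) :
    (p : ℕ) ∣ rr P σ i ↔ σ p = some i := by
  constructor
  · intro h
    rw [rr, (hP p p.2).prime.dvd_finset_prod_iff] at h
    obtain ⟨q, -, hq⟩ := h
    split_ifs at hq with h1
    · have h2 := (Nat.prime_dvd_prime_iff_eq (hP p p.2) (hP q q.2)).1 hq
      rw [Subtype.ext h2, h1]
    · exact absurd (Nat.dvd_one.1 hq) (hP p p.2).one_lt.ne'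
  · intro h
    rw [rr]
    have h1 : (if σ p = some i then (p : ℕ) else 1) = p := if_pos h
    rw [← h1]
    exact Finset.dvd_prod_of_mem (fun q : P => if σ q = some i then (q : ℕ) else 1)
      (Finset.mem_univ p)

theorem f3_dvd_prod {P : Finset ℕ} (hP : ∀ p ∈ P, p.Prime) {T : Finset ℕ} (hT : T ⊆ P) {p : ℕ}
    (hp : p ∈ P) : p ∣ ∏ q ∈ T, q ↔ p ∈ T := by
  constructor
  · intro h
    rw [(hP p hp).prime.dvd_finset_prod_iff] at h
    obtain ⟨q, hq, h1⟩ := h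
    rwa [(Nat.prime_dvd_prime_iff_eq (hP p hp) (hP q (hT hq))).1 h1]
  · exact fun h => Finset.dvd_prod_of_mem _ h

open Classical in
theorem f3_absEf (A : ℕ → ι → ℕ → Prop) {p : ℕ} (hp : p.Prime) (i : ι) (m : ℕ) :
    |Ef A p (some i) m| = if A p i m then (p : ℝ) - 1 else 1 := by
  have h1 : (1 : ℝ) < p := by exact_mod_cast hp.one_lt
  unfold Ef
  dsimp only
  split_ifs with h
  · rw [abs_of_neg (by linarith)]
    ring
  · exact abs_one

theorem f3_absPhi {P : Finset ℕ} (hP : ∀ p ∈ P, p.Prime) (A : ℕ → ι → ℕ → Prop)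
    (σ : P → Option ι) (m : ℕ) :
    |Phi P A σ m| = ∏ i, f3_psi P A m i (rr P σ i) := by
  classical
  rw [Phi, Finset.abs_prod]
  have h1 : ∀ i, f3_psi P A m i (rr P σ i) =
      ∏ p : P, if σ p = some i ∧ A p i m then ((p : ℕ) : ℝ) - 1 else 1 := by
    intro i
    rw [f3_psi, ← Finset.prod_coe_sort]
    refine Finset.prod_congr rfl fun p _ => ?_
    have h2 := f3_dvd_rr hP σ i p
    by_cases h3 : σ p = some i
    · simp [h3, h2.2 h3]
    · have h4 : ¬ (p : ℕ) ∣ rr P σ i := fun h => h3 (h2.1 h)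
      simp [h3, h4]
  rw [Finset.prod_congr rfl fun i _ => h1 i, Finset.prod_comm]
  refine Finset.prod_congr rfl fun p _ => ?_
  rcases hσ : σ p with _ | j
  · rw [Finset.prod_eq_one]
    · simp [Ef]
    · intro i _
      simp
  · rw [Finset.prod_eq_single j]
    · rw [f3_absEf A (hP p p.2)]
      simp
    · intro i _ hij
      have : ¬ (some j = some i) := fun h => hij (Option.some.inj h).symm
      simp [this]
    · intro h
      exact absurd (Finset.mem_univ j) h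

theorem f3_psi_one {P : Finset ℕ} (hP : ∀ p ∈ P, p.Prime) (A : ℕ → ι → ℕ → Prop) (m : ℕ) (i : ι) :
    f3_psi P A m i 1 = 1 := by
  rw [f3_psi]
  refine Finset.prod_eq_one fun p hp => ?_
  have h1 : ¬ p ∣ 1 := fun h => (hP p hp).one_lt.ne' (Nat.dvd_one.1 h)
  simp [h1]

theorem f3_psi_nonneg {P : Finset ℕ} (hP : ∀ p ∈ P, p.Prime) (A : ℕ → ι → ℕ → Prop) (m : ℕ)
    (i : ι) (n : ℕ) : 0 ≤ f3_psi P A m i n := by
  rw [f3_psi]
  refine Finset.prod_nonneg fun p hp => ?_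
  have h1 : (1 : ℝ) < p := by exact_mod_cast (hP p hp).one_lt
  split_ifs
  · linarith
  · exact zero_le_one

/-- The sum of the weights at one position. -/
theorem f3_sum_pos {P : Finset ℕ} (hP : ∀ p ∈ P, p.Prime) (A : ℕ → ι → ℕ → Prop) (m : ℕ) (i : ι)
    (B : ℕ) {c : ℝ} (hc : 0 ≤ c) (hsum : ∑ T ∈ QQ P B, gw c (∏ p ∈ T, p) = 1)
    (hlog : ∀ q ∈ P, c ≤ Real.log q) {Om : ℕ} (H : Finset ℕ) (hH : H ⊆ P)
    (hHA : ∀ p ∈ P, A p i m → p ∈ H) (hOm : H.card ≤ Om) :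
    ∑ T ∈ P.powerset.erase ∅, |chi (fun _ : ι => gw c) B i (∏ p ∈ T, p)| *
      f3_psi P A m i (∏ p ∈ T, p) ≤ 2 ^ (Om + 1) := by
  classical
  have h1 : ∑ T ∈ P.powerset.erase ∅, |chi (fun _ : ι => gw c) B i (∏ p ∈ T, p)| *
      f3_psi P A m i (∏ p ∈ T, p) = ∑ T ∈ QQ P B, gw c (∏ p ∈ T, p) *
        f3_psi P A m i (∏ p ∈ T, p) := by
    rw [QQ, Finset.sum_filter]
    refine Finset.sum_congr rfl fun T hT => ?_
    rw [mem_erase, mem_powerset] at hT
    rw [chi, chg, if_neg (f3_prod_ne_one hP hT.2 hT.1)]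
    split_ifs with h2
    · rw [abs_neg, abs_of_nonneg (gw_nonneg hc _)]
    · rw [abs_zero, zero_mul]
  rw [h1]
  have h2 : ∀ T ∈ QQ P B, gw c (∏ p ∈ T, p) * f3_psi P A m i (∏ p ∈ T, p) ≤
      gw c (∏ p ∈ T, p) * ∏ p ∈ T, (if p ∈ H then (p : ℝ) - 1 else 1) := by
    intro T hT
    rw [mem_QQ] at hT
    refine mul_le_mul_of_nonneg_left ?_ (gw_nonneg hc _)
    have h3 : f3_psi P A m i (∏ p ∈ T, p) = ∏ p ∈ T, (if A p i m then (p : ℝ) - 1 else 1) := by
      rw [f3_psi, ← Finset.prod_subset hT.2.1]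
      · refine Finset.prod_congr rfl fun p hp => ?_
        have h4 := (f3_dvd_prod hP hT.2.1 (hT.2.1 hp)).2 hp
        simp [h4]
      · intro p hp hpT
        have h4 : ¬ p ∣ ∏ q ∈ T, q := fun h => hpT ((f3_dvd_prod hP hT.2.1 hp).1 h)
        simp [h4]
    rw [h3]
    refine Finset.prod_le_prod (fun p hp => ?_) fun p hp => ?_
    · have h1 : (1 : ℝ) < p := by exact_mod_cast (hP p (hT.2.1 hp)).one_lt
      split_ifs
      · linarith
      · exact zero_le_one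
    · have h1 : (2 : ℝ) ≤ p := by exact_mod_cast (hP p (hT.2.1 hp)).two_le
      by_cases hA : A p i m
      · rw [if_pos hA, if_pos (hHA p (hT.2.1 hp) hA)]
      · rw [if_neg hA]
        split_ifs
        · linarith
        · exact le_rfl
  refine (Finset.sum_le_sum h2).trans ((sum_gw_psi hP B hc hsum hlog H hH).trans ?_)
  exact pow_le_pow_right₀ (by norm_num) (by omega)

/-- **Pointwise bound.** -/
theorem f3_pointwise {P : Finset ℕ} (hP : ∀ p ∈ P, p.Prime) (A : ℕ → ι → ℕ → Prop) (m : ℕ)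
    (B Y K Om : ℕ) {c : ℝ} (hc : 0 ≤ c) (hsum : ∑ T ∈ QQ P B, gw c (∏ p ∈ T, p) = 1)
    (hlog : ∀ q ∈ P, c ≤ Real.log q) (H : ι → Finset ℕ) (hH : ∀ i, H i ⊆ P)
    (hHA : ∀ i, ∀ p ∈ P, A p i m → p ∈ H i) (hOm : ∀ i, (H i).card ≤ Om)
    (hK : ∀ σ : P → Option ι, DD P σ ≤ Y → (usedF P σ).card ≤ K) (lam : ι → ℝ) :
    ∑ σ : P → Option ι, |cf P (chi (fun _ : ι => gw c) B) Y σ| * |Phi P A σ m| *
      ∏ i ∈ usedF P σ, |lam i| ≤
      ∑ S ∈ (univ : Finset (Finset ι)).filter (fun S => S.card ≤ K),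
        ∏ i ∈ S, (2 ^ (Om + 1) * |lam i|) := by
  classical
  set χ := chi (fun _ : ι => gw c) B with hχ
  set u : ι → ℕ → ℝ := fun i n => |χ i n| * f3_psi P A m i n * (if n = 1 then 1 else |lam i|)
    with hu
  have hu0 : ∀ j n, 0 ≤ u j n := by
    intro j n
    simp only [hu]
    refine mul_nonneg (mul_nonneg (abs_nonneg _) (f3_psi_nonneg hP A m j n)) ?_
    split_ifs
    · exact zero_le_one
    · exact abs_nonneg _
  have hu1 : ∀ j, u j 1 = 1 := by
    intro j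
    simp only [hu, if_true, mul_one, f3_psi_one hP]
    rw [hχ, chi, chg, if_pos rfl, abs_one]
  have h1 : ∑ σ : P → Option ι, |cf P χ Y σ| * |Phi P A σ m| * ∏ i ∈ usedF P σ, |lam i| =
      SS P Y u := by
    unfold SS
    refine Finset.sum_congr rfl fun σ _ => ?_
    rw [cf]
    by_cases hσ : DD P σ ≤ Y
    · rw [if_pos hσ, if_pos hσ, Finset.abs_prod, f3_absPhi hP A σ m]
      have h2 : ∏ i ∈ usedF P σ, |lam i| = ∏ i, if rr P σ i = 1 then (1 : ℝ) else |lam i| := by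
        rw [usedF, Finset.prod_filter]
        refine Finset.prod_congr rfl fun i _ => ?_
        by_cases h3 : rr P σ i = 1
        · simp [h3]
        · simp [h3]
      rw [h2, ← Finset.prod_mul_distrib, ← Finset.prod_mul_distrib]
    · rw [if_neg hσ, if_neg hσ, abs_zero, zero_mul, zero_mul]
  rw [h1]
  refine (SS_le_sets P hP Y K u hu0 hu1 hK).trans ?_
  refine Finset.sum_le_sum fun S _ => Finset.prod_le_prod (fun i _ =>
    Finset.sum_nonneg fun T _ => hu0 _ _) fun i _ => ?_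
  have h2 : ∑ T ∈ P.powerset.erase ∅, u i (∏ p ∈ T, p) =
      (∑ T ∈ P.powerset.erase ∅, |χ i (∏ p ∈ T, p)| * f3_psi P A m i (∏ p ∈ T, p)) * |lam i| := by
    rw [Finset.sum_mul]
    refine Finset.sum_congr rfl fun T hT => ?_
    rw [mem_erase, mem_powerset] at hT
    simp only [hu]
    rw [if_neg (f3_prod_ne_one hP hT.2 hT.1)]
  rw [h2]
  exact mul_le_mul_of_nonneg_right (f3_sum_pos hP A m i B hc hsum hlog (H i) (hH i) (hHA i) (hOm i))
    (abs_nonneg _)

/-- The fourth power of the pointwise bound, for integer valued factors. -/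
theorem f3_pow4 (lam : ι → ℤ) (K : ℕ) {G0 : ℝ} (hG : 1 ≤ G0) :
    (∑ S ∈ (univ : Finset (Finset ι)).filter (fun S => S.card ≤ K),
        ∏ i ∈ S, (G0 * |(lam i : ℝ)|)) ^ 4 ≤
      (16 * G0) ^ (4 * K) * ∑ U ∈ (univ : Finset (Finset ι)).filter (fun U => U.card ≤ 4 * K),
        ∏ i ∈ U, (lam i : ℝ) ^ 4 := by
  have h0 : ∀ i, |(lam i : ℝ)| = ((lam i).natAbs : ℝ) := fun i => by
    rw [Nat.cast_natAbs, Int.cast_abs]
  have h1 : ∑ S ∈ (univ : Finset (Finset ι)).filter (fun S => S.card ≤ K),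
      ∏ i ∈ S, (G0 * |(lam i : ℝ)|) ≤ G0 ^ K *
        ∑ S ∈ (univ : Finset (Finset ι)).filter (fun S => S.card ≤ K),
          ∏ i ∈ S, ((lam i).natAbs : ℝ) := by
    rw [Finset.mul_sum]
    refine Finset.sum_le_sum fun S hS => ?_
    rw [mem_filter] at hS
    rw [Finset.prod_mul_distrib, Finset.prod_const, Finset.prod_congr rfl fun i _ => h0 i]
    refine mul_le_mul_of_nonneg_right (pow_le_pow_right₀ hG hS.2) ?_
    exact Finset.prod_nonneg fun i _ => Nat.cast_nonneg _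
  have h2 : (0 : ℝ) ≤ ∑ S ∈ (univ : Finset (Finset ι)).filter (fun S => S.card ≤ K),
      ∏ i ∈ S, (G0 * |(lam i : ℝ)|) := Finset.sum_nonneg fun S _ =>
    Finset.prod_nonneg fun i _ => mul_nonneg (by linarith) (abs_nonneg _)
  have h3 := pow_le_pow_left₀ h2 h1 4
  refine h3.trans ?_
  rw [mul_pow, mul_pow, ← pow_mul, mul_comm K 4, mul_comm ((16 : ℝ) ^ (4 * K)), mul_assoc]
  refine mul_le_mul_of_nonneg_left ?_ (by positivity)
  refine (pow4_le (fun i => (lam i).natAbs) K).trans (le_of_eq ?_)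
  congr 1
  refine Finset.sum_congr rfl fun U _ => Finset.prod_congr rfl fun i _ => ?_
  rw [← h0 i]
  exact Even.pow_abs (by decide) _

/-- **F3, abstract form.** -/
theorem f3_moment {P : Finset ℕ} (hP : ∀ p ∈ P, p.Prime) (A : ℕ → ι → ℕ → Prop)
    (B Y K Om N : ℕ) {c : ℝ} (hc : 0 ≤ c) (hsum : ∑ T ∈ QQ P B, gw c (∏ p ∈ T, p) = 1)
    (hlog : ∀ q ∈ P, c ≤ Real.log q) (H : ι → ℕ → Finset ℕ) (hH : ∀ i m, H i m ⊆ P)
    (hHA : ∀ i, ∀ m < N, ∀ p ∈ P, A p i m → p ∈ H i m) (hOm : ∀ i, ∀ m < N, (H i m).card ≤ Om)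
    (hK : ∀ σ : P → Option ι, DD P σ ≤ Y → (usedF P σ).card ≤ K) (lam : ι → ℕ → ℤ)
    {v E1 : ℝ} (hv : 0 ≤ v) (hE1 : 0 ≤ E1)
    (hmean : ∀ U : Finset ι, U.card ≤ 4 * K →
      ∑ m ∈ range N, ∏ i ∈ U, (lam i m : ℝ) ^ 4 ≤ N * v ^ U.card + E1) (psi : ℕ → ℝ)
    (hpsi : ∀ m < N, |psi m| ≤ ∑ σ : P → Option ι,
      |cf P (chi (fun _ : ι => gw c) B) Y σ| * |Phi P A σ m| *
        ∏ i ∈ usedF P σ, |(lam i m : ℝ)|) :
    ∑ m ∈ range N, psi m ^ 4 ≤ (16 * 2 ^ (Om + 1)) ^ (4 * K) *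
      (N * Real.exp (Fintype.card ι * v) + 2 ^ Fintype.card ι * E1) := by
  classical
  have hG : (1 : ℝ) ≤ 2 ^ (Om + 1) := one_le_pow₀ (by norm_num)
  have h1 : ∀ m ∈ range N, psi m ^ 4 ≤ (16 * 2 ^ (Om + 1)) ^ (4 * K) *
      ∑ U ∈ (univ : Finset (Finset ι)).filter (fun U => U.card ≤ 4 * K),
        ∏ i ∈ U, (lam i m : ℝ) ^ 4 := by
    intro m hm
    rw [mem_range] at hm
    have h2 := (hpsi m hm).trans (f3_pointwise hP A m B Y K Om hc hsum hlog (fun i => H i m)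
      (fun i => hH i m) (fun i => hHA i m hm) (fun i => hOm i m hm) hK
      (fun i => (lam i m : ℝ)))
    have h3 := pow_le_pow_left₀ (abs_nonneg _) h2 4
    rw [Even.pow_abs (by decide)] at h3
    exact h3.trans (f3_pow4 (fun i => lam i m) K hG)
  refine (Finset.sum_le_sum h1).trans ?_
  rw [← Finset.mul_sum]
  refine mul_le_mul_of_nonneg_left ?_ (by positivity)
  rw [Finset.sum_comm]
  have h2 : ∀ U ∈ (univ : Finset (Finset ι)).filter (fun U => U.card ≤ 4 * K),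
      ∑ m ∈ range N, ∏ i ∈ U, (lam i m : ℝ) ^ 4 ≤ N * v ^ U.card + E1 := by
    intro U hU
    exact hmean U (mem_filter.1 hU).2
  refine (Finset.sum_le_sum h2).trans ?_
  refine (Finset.sum_le_sum_of_subset_of_nonneg (Finset.filter_subset _ _) fun U _ _ => by
    positivity).trans ?_
  rw [Finset.sum_add_distrib, Finset.sum_const, Finset.card_univ, Fintype.card_finset,
    nsmul_eq_mul, ← Finset.mul_sum]
  have h3 : ∑ U : Finset ι, v ^ U.card = (v + 1) ^ Fintype.card ι := by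
    rw [← Fintype.sum_pow_mul_eq_add_pow]
    refine Finset.sum_congr rfl fun U _ => ?_
    rw [one_pow, mul_one]
  rw [h3]
  have h4 : (v + 1) ^ Fintype.card ι ≤ Real.exp (Fintype.card ι * v) := by
    rw [Real.exp_nat_mul]
    exact pow_le_pow_left₀ (by linarith) (Real.add_one_le_exp v) _
  push_cast
  gcongr

end Pool.Agent.H.MP_711652_nt.G2
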