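import Pool.Agent.H.MP_711652_nt.G2.Defs

/-!
# MP_711652_nt, GAP2, F4: the pairs without common big prime (helper62)
-/

set_option autoImplicit false

namespace Pool.Agent.H.MP_711652_nt.G2

open Finset Pool.Agent.H.MP_711652_nt.LG

section

variable {κ₁ κ₂ : Type*} [Fintype κ₁] [DecidableEq κ₁] [Fintype κ₂] [DecidableEq κ₂]

/-- the part of an assignment in the first window -/
def f4_L {P : Finset ℕ} (ρ : P → Option (κ₁ ⊕ κ₂)) (q : P) : Option κ₁ :=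
  match ρ q with
  | some (Sum.inl i) => some i
  | _ => none

/-- the part of an assignment in the second window -/
def f4_R {P : Finset ℕ} (ρ : P → Option (κ₁ ⊕ κ₂)) (q : P) : Option κ₂ :=
  match ρ q with
  | some (Sum.inr j) => some j
  | _ => none

/-- merging two assignments -/
def f4_M {P : Finset ℕ} (σ : P → Option κ₁) (τ : P → Option κ₂) (q : P) : Option (κ₁ ⊕ κ₂) :=
  match σ q with
  | some i => some (Sum.inl i)
  | none => match τ q with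
    | some j => some (Sum.inr j)
    | none => none

theorem f4_L_some {P : Finset ℕ} (ρ : P → Option (κ₁ ⊕ κ₂)) (q : P) (i : κ₁) :
    f4_L ρ q = some i ↔ ρ q = some (Sum.inl i) := by
  unfold f4_L
  rcases h : ρ q with _ | (i' | j') <;> simp

theorem f4_R_some {P : Finset ℕ} (ρ : P → Option (κ₁ ⊕ κ₂)) (q : P) (j : κ₂) :
    f4_R ρ q = some j ↔ ρ q = some (Sum.inr j) := by
  unfold f4_R
  rcases h : ρ q with _ | (i' | j') <;> simp

theorem f4_LM {P : Finset ℕ} (σ : P → Option κ₁) (τ : P → Option κ₂) :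
    f4_L (f4_M σ τ) = σ := by
  funext q
  unfold f4_L f4_M
  rcases h : σ q with _ | i <;> rcases h' : τ q with _ | j <;> simp

theorem f4_RM {P : Finset ℕ} (σ : P → Option κ₁) (τ : P → Option κ₂)
    (h0 : ¬ ∃ q, σ q ≠ none ∧ τ q ≠ none) : f4_R (f4_M σ τ) = τ := by
  funext q
  unfold f4_R f4_M
  rcases h : σ q with _ | i <;> rcases h' : τ q with _ | j <;> simp
  exact h0 ⟨q, by simp [h], by simp [h']⟩

theorem f4_ML {P : Finset ℕ} (ρ : P → Option (κ₁ ⊕ κ₂)) : f4_M (f4_L ρ) (f4_R ρ) = ρ := by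
  funext q
  unfold f4_M f4_L f4_R
  rcases h : ρ q with _ | (i | j) <;> simp

theorem f4_LR {P : Finset ℕ} (ρ : P → Option (κ₁ ⊕ κ₂)) :
    ¬ ∃ q, f4_L ρ q ≠ none ∧ f4_R ρ q ≠ none := by
  rintro ⟨q, h1, h2⟩
  unfold f4_L at h1
  unfold f4_R at h2
  rcases h : ρ q with _ | (i | j) <;> simp [h] at h1 h2

/-- The sum over the pairs without common prime. -/
theorem f4_sum {P : Finset ℕ} (Fc : (P → Option κ₁) → (P → Option κ₂) → ℝ) :
    ∑ σ : P → Option κ₁, ∑ τ ∈ (univ : Finset (P → Option κ₂)).filter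
        (fun τ => ¬ ∃ q, σ q ≠ none ∧ τ q ≠ none), Fc σ τ =
      ∑ ρ : P → Option (κ₁ ⊕ κ₂), Fc (f4_L ρ) (f4_R ρ) := by
  classical
  rw [Finset.sum_sigma']
  refine Finset.sum_bij' (fun x _ => f4_M x.1 x.2) (fun ρ _ => ⟨f4_L ρ, f4_R ρ⟩) ?_ ?_ ?_ ?_ ?_
  · intro x _
    exact mem_univ _
  · intro ρ _
    rw [Finset.mem_sigma]
    exact ⟨mem_univ _, mem_filter.2 ⟨mem_univ _, f4_LR ρ⟩⟩
  · rintro ⟨σ, τ⟩ hx
    rw [Finset.mem_sigma, mem_filter] at hx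
    dsimp only
    rw [f4_LM, f4_RM σ τ hx.2.2]
  · intro ρ _
    exact f4_ML ρ
  · rintro ⟨σ, τ⟩ hx
    rw [Finset.mem_sigma, mem_filter] at hx
    dsimp only
    rw [f4_LM, f4_RM σ τ hx.2.2]

theorem f4_none {P : Finset ℕ} (ρ : P → Option (κ₁ ⊕ κ₂)) (q : P) :
    ρ q = none ↔ f4_L ρ q = none ∧ f4_R ρ q = none := by
  unfold f4_L f4_R
  rcases h : ρ q with _ | (i | j) <;> simp

theorem f4_DD (P : Finset ℕ) (ρ : P → Option (κ₁ ⊕ κ₂)) :
    DD P ρ = DD P (f4_L ρ) * DD P (f4_R ρ) := by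
  unfold DD
  rw [← Finset.prod_mul_distrib]
  refine Finset.prod_congr rfl fun q _ => ?_
  unfold f4_L f4_R
  rcases h : ρ q with _ | (i | j) <;> simp

theorem f4_ph (P : Finset ℕ) (ρ : P → Option (κ₁ ⊕ κ₂)) :
    ph P ρ = ph P (f4_L ρ) * ph P (f4_R ρ) := by
  unfold ph
  rw [← Finset.prod_mul_distrib]
  refine Finset.prod_congr rfl fun q _ => ?_
  unfold f4_L f4_R
  rcases h : ρ q with _ | (i | j) <;> simp

theorem f4_Phi (P : Finset ℕ) (A : ℕ → κ₁ ⊕ κ₂ → ℕ → Prop) (ρ : P → Option (κ₁ ⊕ κ₂)) (m : ℕ) :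
    Phi P A ρ m = Phi P (fun p k m => A p (Sum.inl k) m) (f4_L ρ) m *
      Phi P (fun p k m => A p (Sum.inr k) m) (f4_R ρ) m := by
  unfold Phi
  rw [← Finset.prod_mul_distrib]
  refine Finset.prod_congr rfl fun q _ => ?_
  unfold f4_L f4_R
  rcases h : ρ q with _ | (i | j) <;> simp [Ef]

/-- the number of primes -/
theorem f4_card {P : Finset ℕ} (ρ : P → Option (κ₁ ⊕ κ₂)) :
    (abs_supp P ρ).card ≤ (abs_supp P (f4_L ρ)).card + (abs_supp P (f4_R ρ)).card := by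
  classical
  unfold abs_supp
  rw [card_map, card_map, card_map]
  have h1 : (univ : Finset P).filter (fun p => ρ p ≠ none) ⊆
      (univ : Finset P).filter (fun p => f4_L ρ p ≠ none) ∪
        (univ : Finset P).filter (fun p => f4_R ρ p ≠ none) := by
    intro p hp
    rw [mem_filter] at hp
    rw [mem_union, mem_filter, mem_filter]
    by_contra hcon
    push Not at hcon
    exact hp.2 ((f4_none ρ p).2 ⟨hcon.1 (mem_univ _), hcon.2 (mem_univ _)⟩)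
  exact (Finset.card_le_card h1).trans (Finset.card_union_le _ _)

/-- **The pairs without common prime.** -/
theorem f4_fd {P : Finset ℕ} {A : ℕ → κ₁ ⊕ κ₂ → ℕ → Prop} (hF : Forms P A) {Q0 : ℕ}
    {Lam : κ₁ ⊕ κ₂ → ℕ → ℝ} {K B Y : ℕ} {v η cL c D : ℝ} (hS : Small Q0 Lam K v η cL)
    (hcop : ∀ p ∈ P, ¬ p ∣ Q0) (hB : Big P B Y K c D) (R : ℕ)
    (hR : Fintype.card κ₁ + Fintype.card κ₂ ≤ R) (hsmall : ((2 * K : ℕ) : ℝ) * (2 * R / D) ≤ 1)
    (N : ℕ) :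
    ∑ m ∈ range N, (∑ σ : P → Option κ₁, ∑ τ ∈ (univ : Finset (P → Option κ₂)).filter
        (fun τ => ¬ ∃ q, σ q ≠ none ∧ τ q ≠ none),
      (cf P (chi (fun _ : κ₁ => gw c) B) Y σ * Phi P (fun p k m => A p (Sum.inl k) m) σ m *
        ∏ i ∈ used P σ, Lam (Sum.inl i) m) *
      (cf P (chi (fun _ : κ₂ => gw c) B) Y τ * Phi P (fun p k m => A p (Sum.inr k) m) τ m *
        ∏ i ∈ used P τ, Lam (Sum.inr i) m)) ^ 2 ≤
      N * ((1 + 8 * K * R / D) * (1 + η)) * Mw P Q0 (fun k => Lam (Sum.inl k)) c B Y *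
          Mw P Q0 (fun k => Lam (Sum.inr k)) c B Y +
        (2 ^ R * (Y : ℝ) ^ 4 * cL ^ (2 * K)) ^ 2 := by
  classical
  have hD := hB.hD
  have hD0 : 0 < D := by linarith
  set χ₁ := chi (fun _ : κ₁ => gw c) B with hχ₁
  set χ₂ := chi (fun _ : κ₂ => gw c) B with hχ₂
  set Lam₁ : κ₁ → ℕ → ℝ := fun k => Lam (Sum.inl k) with hL1
  set Lam₂ : κ₂ → ℕ → ℝ := fun k => Lam (Sum.inr k) with hL2
  have hS1 : Small Q0 Lam₁ K v η cL := hS.comp Sum.inl Sum.inl_injective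
  have hS2 : Small Q0 Lam₂ K v η cL := hS.comp Sum.inr Sum.inr_injective
  set w : (P → Option (κ₁ ⊕ κ₂)) → ℕ → ℝ := fun ρ m =>
    LamS Lam₁ (used P (f4_L ρ)) m * LamS Lam₂ (used P (f4_R ρ)) m with hw
  set vc : (P → Option (κ₁ ⊕ κ₂)) → ℝ := fun ρ => cf P χ₁ Y (f4_L ρ) * cf P χ₂ Y (f4_R ρ) with hvc
  have hne : ∀ ρ, vc ρ ≠ 0 → DD P (f4_L ρ) ≤ Y ∧ DD P (f4_R ρ) ≤ Y := by
    intro ρ h1
    simp only [hvc] at h1
    constructor
    · by_contra hc
      exact h1 (by unfold cf; rw [if_neg hc, zero_mul])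
    · by_contra hc
      exact h1 (by rw [mul_comm]; unfold cf; rw [if_neg hc, zero_mul])
  have hcL : 0 ≤ cL := zero_le_one.trans hS.one_le
  have hgram : ∀ ρ, |vc ρ| ≠ 0 → (∏ p : P, if ρ p = none then (1 : ℝ)
        else 1 + ((Fintype.card (κ₁ ⊕ κ₂) : ℝ) - 1) / (((p : ℕ) : ℝ) - 1)) ≤
        1 + 8 * K * R / D := by
    intro ρ h
    have h1 := hne ρ (abs_ne_zero.1 h)
    have h2 : (abs_supp P ρ).card ≤ 2 * K := by
      have h3 := f4_card ρ
      have h4 := hB.level _ (abs_supp_sub P (f4_L ρ)) (by rw [abs_DD_supp]; exact h1.1)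
      have h5 := hB.level _ (abs_supp_sub P (f4_R ρ)) (by rw [abs_DD_supp]; exact h1.2)
      omega
    have hR' : (Fintype.card (κ₁ ⊕ κ₂) : ℝ) ≤ R := by
      rw [Fintype.card_sum]
      exact_mod_cast hR
    have h0 : (0 : ℝ) ≤ Fintype.card (κ₁ ⊕ κ₂) := Nat.cast_nonneg _
    have h6 : ((2 * K : ℕ) : ℝ) * (2 * (Fintype.card (κ₁ ⊕ κ₂) : ℝ) / D) ≤
        ((2 * K : ℕ) : ℝ) * (2 * R / D) := by gcongr
    have h7 := gram_factor_le (T := abs_supp P ρ) (D := D)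
      (R := (Fintype.card (κ₁ ⊕ κ₂) : ℝ)) (n := ((2 * K : ℕ) : ℝ)) (by linarith) h0
      (fun p hp => hB.ge p (abs_supp_sub P ρ hp)) (by exact_mod_cast h2) (h6.trans hsmall)
    rw [← abs_prod_supp P ρ (fun p => 1 + ((Fintype.card (κ₁ ⊕ κ₂) : ℝ) - 1) / ((p : ℝ) - 1))]
    refine h7.trans ?_
    have h8 : 2 * (((2 * K : ℕ) : ℝ) * (2 * R / D)) = 8 * K * R / D := by
      push_cast
      ring
    linarith
  have hq := quad_upper hF hS.pos hcop vc (fun ρ => |vc ρ|) (fun ρ => le_rfl) w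
    (fun _ => cL ^ (2 * K)) (fun ρ h => by
      have h1 := hne ρ h
      have h2 := (tame_LamS hS1 (used P (f4_L ρ)) (used_card_le hB _ h1.1)).mul
        (tame_LamS hS2 (used P (f4_R ρ)) (used_card_le hB _ h1.2))
      rw [← pow_add, ← two_mul] at h2
      exact h2) N (8 * K * R / D) hgram
  -- the left side
  have e1 : ∀ m, (∑ σ : P → Option κ₁, ∑ τ ∈ (univ : Finset (P → Option κ₂)).filter
      (fun τ => ¬ ∃ q, σ q ≠ none ∧ τ q ≠ none),
    (cf P χ₁ Y σ * Phi P (fun p k m => A p (Sum.inl k) m) σ m *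
      ∏ i ∈ used P σ, Lam (Sum.inl i) m) *
    (cf P χ₂ Y τ * Phi P (fun p k m => A p (Sum.inr k) m) τ m *
      ∏ i ∈ used P τ, Lam (Sum.inr i) m)) =
    ∑ ρ : P → Option (κ₁ ⊕ κ₂), vc ρ * (Phi P A ρ m * w ρ m) := by
    intro m
    rw [f4_sum (fun σ τ => (cf P χ₁ Y σ * Phi P (fun p k m => A p (Sum.inl k) m) σ m *
      ∏ i ∈ used P σ, Lam (Sum.inl i) m) *
      (cf P χ₂ Y τ * Phi P (fun p k m => A p (Sum.inr k) m) τ m *
      ∏ i ∈ used P τ, Lam (Sum.inr i) m))]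
    refine Finset.sum_congr rfl fun ρ _ => ?_
    rw [f4_Phi]
    simp only [hvc, hw, LamS, hL1, hL2]
    ring
  rw [Finset.sum_congr rfl fun m _ => by rw [e1 m]]
  refine hq.trans ?_
  set M : ℝ := ∑ ρ : P → Option (κ₁ ⊕ κ₂), vc ρ ^ 2 * ph P ρ * E Q0 (fun m => w ρ m ^ 2) with hM
  have e2 : ∑ ρ : P → Option (κ₁ ⊕ κ₂), |vc ρ| ^ 2 * ph P ρ * E Q0 (fun m => w ρ m ^ 2) = M := by
    rw [hM]
    refine Finset.sum_congr rfl fun ρ _ => ?_
    rw [sq_abs]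
  rw [e2]
  have hη := hS.η_nonneg
  have hMM : M ≤ (1 + η) * (Mw P Q0 Lam₁ c B Y * Mw P Q0 Lam₂ c B Y) := by
    have hterm : ∀ ρ : P → Option (κ₁ ⊕ κ₂), vc ρ ^ 2 * ph P ρ * E Q0 (fun m => w ρ m ^ 2) ≤
        (1 + η) * ((cf P χ₁ Y (f4_L ρ) ^ 2 * ph P (f4_L ρ) * eS Q0 Lam₁ (used P (f4_L ρ))) *
          (cf P χ₂ Y (f4_R ρ) ^ 2 * ph P (f4_R ρ) * eS Q0 Lam₂ (used P (f4_R ρ)))) := by
      intro ρ
      have n1 := LG.ph_nonneg P hB.prime (f4_L ρ)
      have n2 := LG.ph_nonneg P hB.prime (f4_R ρ)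
      have n3 := eS_nonneg Q0 Lam₁ (used P (f4_L ρ))
      have n4 := eS_nonneg Q0 Lam₂ (used P (f4_R ρ))
      by_cases hv0 : vc ρ = 0
      · rw [hv0]
        have : (0 : ℝ) ^ 2 * ph P ρ * E Q0 (fun m => w ρ m ^ 2) = 0 := by ring
        rw [this]
        positivity
      · have h1 := hne ρ hv0
        have hsp := hS.split ((used P (f4_L ρ)).map ⟨Sum.inl, Sum.inl_injective⟩)
          ((used P (f4_R ρ)).map ⟨Sum.inr, Sum.inr_injective⟩) (by
            rw [Finset.disjoint_left]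
            intro x hx hy
            rw [mem_map] at hx hy
            obtain ⟨i, -, rfl⟩ := hx
            obtain ⟨j, -, hj⟩ := hy
            simp at hj) (by rw [card_map]; exact used_card_le hB _ h1.1)
            (by rw [card_map]; exact used_card_le hB _ h1.2)
        simp only [Finset.prod_map, Function.Embedding.coeFn_mk] at hsp
        have e3 : E Q0 (fun m => w ρ m ^ 2) = E Q0 (fun m =>
            (∏ k ∈ used P (f4_L ρ), Lam (Sum.inl k) m ^ 2) *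
              ∏ k ∈ used P (f4_R ρ), Lam (Sum.inr k) m ^ 2) := by
          congr 1
          funext m
          simp only [hw]
          rw [mul_pow, LamS_sq, LamS_sq]
        have e4 : eS Q0 Lam₁ (used P (f4_L ρ)) =
            E Q0 (fun m => ∏ k ∈ used P (f4_L ρ), Lam (Sum.inl k) m ^ 2) := by
          unfold eS
          simp only [LamS_sq, hL1]
        have e5 : eS Q0 Lam₂ (used P (f4_R ρ)) =
            E Q0 (fun m => ∏ k ∈ used P (f4_R ρ), Lam (Sum.inr k) m ^ 2) := by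
          unfold eS
          simp only [LamS_sq, hL2]
        rw [e3, e4, e5, f4_ph]
        have n5 : 0 ≤ vc ρ ^ 2 * (ph P (f4_L ρ) * ph P (f4_R ρ)) := by positivity
        refine (mul_le_mul_of_nonneg_left hsp n5).trans (le_of_eq ?_)
        simp only [hvc]
        ring
    rw [hM]
    refine (Finset.sum_le_sum fun ρ _ => hterm ρ).trans ?_
    rw [← Finset.mul_sum]
    refine mul_le_mul_of_nonneg_left ?_ (by linarith)
    rw [← f4_sum (fun σ τ => (cf P χ₁ Y σ ^ 2 * ph P σ * eS Q0 Lam₁ (used P σ)) *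
          (cf P χ₂ Y τ ^ 2 * ph P τ * eS Q0 Lam₂ (used P τ)))]
    rw [Mw_eq, Mw_eq, Finset.sum_mul_sum]
    refine Finset.sum_le_sum fun σ _ => ?_
    refine Finset.sum_le_sum_of_subset_of_nonneg (Finset.filter_subset _ _) fun τ _ _ => ?_
    have n1 := LG.ph_nonneg P hB.prime σ
    have n2 := LG.ph_nonneg P hB.prime τ
    have n3 := eS_nonneg Q0 Lam₁ (used P σ)
    have n4 := eS_nonneg Q0 Lam₂ (used P τ)
    positivity
  -- the norm
  have hnorm : ∑ ρ : P → Option (κ₁ ⊕ κ₂), |vc ρ| * ((DD P ρ : ℝ) ^ 2 * cL ^ (2 * K)) ≤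
      2 ^ R * (Y : ℝ) ^ 4 * cL ^ (2 * K) := by
    have h1 : ∀ ρ : P → Option (κ₁ ⊕ κ₂), |vc ρ| * ((DD P ρ : ℝ) ^ 2 * cL ^ (2 * K)) ≤
        (|cf P χ₁ Y (f4_L ρ)| * |cf P χ₂ Y (f4_R ρ)|) * ((Y : ℝ) ^ 4 * cL ^ (2 * K)) := by
      intro ρ
      by_cases hv0 : vc ρ = 0
      · rw [hv0, abs_zero, zero_mul]
        positivity
      · have h2 := hne ρ hv0
        have h3 : |vc ρ| = |cf P χ₁ Y (f4_L ρ)| * |cf P χ₂ Y (f4_R ρ)| := by
          simp only [hvc]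
          rw [abs_mul]
        rw [h3]
        refine mul_le_mul_of_nonneg_left (mul_le_mul_of_nonneg_right ?_ (pow_nonneg hcL _))
          (mul_nonneg (abs_nonneg _) (abs_nonneg _))
        have h4 : (DD P ρ : ℝ) ≤ (Y : ℝ) ^ 2 := by
          rw [f4_DD, sq]
          exact_mod_cast Nat.mul_le_mul h2.1 h2.2
        calc (DD P ρ : ℝ) ^ 2 ≤ ((Y : ℝ) ^ 2) ^ 2 := by gcongr
          _ = (Y : ℝ) ^ 4 := by ring
    refine (Finset.sum_le_sum fun ρ _ => h1 ρ).trans ?_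
    rw [← Finset.sum_mul, ← f4_sum (fun σ τ => |cf P χ₁ Y σ| * |cf P χ₂ Y τ|), mul_assoc]
    refine mul_le_mul_of_nonneg_right ?_ (by positivity)
    have e2 : ∑ σ : P → Option κ₁, ∑ τ ∈ (univ : Finset (P → Option κ₂)).filter
        (fun τ => ¬ ∃ q, σ q ≠ none ∧ τ q ≠ none), |cf P χ₁ Y σ| * |cf P χ₂ Y τ| ≤
        (∑ σ : P → Option κ₁, |cf P χ₁ Y σ|) * ∑ τ : P → Option κ₂, |cf P χ₂ Y τ| := by
      rw [Finset.sum_mul_sum]
      refine Finset.sum_le_sum fun σ _ => ?_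
      exact Finset.sum_le_sum_of_subset_of_nonneg (Finset.filter_subset _ _) fun τ _ _ =>
        mul_nonneg (abs_nonneg _) (abs_nonneg _)
    refine e2.trans ?_
    have s1 := sum_abs_cf P hB.prime (fun _ : κ₁ => gw c) (fun _ n => gw_nonneg hB.hc n) B Y hB.hB
      (hsum_chi hB)
    have s2 := sum_abs_cf P hB.prime (fun _ : κ₂ => gw c) (fun _ n => gw_nonneg hB.hc n) B Y hB.hB
      (hsum_chi hB)
    refine (mul_le_mul s1 s2 (Finset.sum_nonneg fun _ _ => abs_nonneg _) (by positivity)).trans ?_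
    rw [← pow_add]
    exact pow_le_pow_right₀ (by norm_num) hR
  have hnorm0 : 0 ≤ ∑ ρ : P → Option (κ₁ ⊕ κ₂), |vc ρ| * ((DD P ρ : ℝ) ^ 2 * cL ^ (2 * K)) :=
    Finset.sum_nonneg fun ρ _ => by positivity
  have hnorm2 := pow_le_pow_left₀ hnorm0 hnorm 2
  have hM0 : 0 ≤ 1 + 8 * (K : ℝ) * R / D := by positivity
  have hN0 : (0 : ℝ) ≤ N := Nat.cast_nonneg N
  have h9 : (N : ℝ) * ((1 + 8 * K * R / D) * M) ≤ N * ((1 + 8 * K * R / D) *
      ((1 + η) * (Mw P Q0 Lam₁ c B Y * Mw P Q0 Lam₂ c B Y))) :=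
    mul_le_mul_of_nonneg_left (mul_le_mul_of_nonneg_left hMM hM0) hN0
  have h10 : (N : ℝ) * (M + 8 * K * R / D * M) = N * ((1 + 8 * K * R / D) * M) := by ring
  have h11 : (N : ℝ) * ((1 + 8 * K * R / D) * ((1 + η) *
      (Mw P Q0 Lam₁ c B Y * Mw P Q0 Lam₂ c B Y))) =
      N * ((1 + 8 * K * R / D) * (1 + η)) * Mw P Q0 Lam₁ c B Y * Mw P Q0 Lam₂ c B Y := by ring
  rw [h10]
  rw [h11] at h9
  exact add_le_add h9 hnorm2

end

end Pool.Agent.H.MP_711652_nt.G2
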