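import Pool.Agent.H.MP_711652_nt.G2.F4S
import Pool.Agent.H.MP_711652_nt.G2.Defs

/-!
# MP_711652_nt, GAP2, F4: pointwise bound for the pairs with a common big prime (helper62)
-/

set_option autoImplicit false

namespace Pool.Agent.H.MP_711652_nt.G2

open Finset Pool.Agent.H.MP_711652_nt.LG

theorem f4_sq_Ico (n0 : ℕ) (h0 : 3 ≤ n0) (M : ℕ) :
    ∑ p ∈ Finset.Ico n0 (n0 + M), (1 / ((p : ℝ) - 1)) ^ 2 ≤
      1 / ((n0 : ℝ) - 2) - 1 / ((n0 + M : ℕ) - 2 : ℝ) := by
  induction M with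
  | zero => simp
  | succ M ih =>
    rw [← Nat.add_assoc, Finset.sum_Ico_succ_top (by omega)]
    have h1 : (3 : ℝ) ≤ ((n0 + M : ℕ) : ℝ) := by exact_mod_cast (by omega : 3 ≤ n0 + M)
    have h2 : (1 / (((n0 + M : ℕ) : ℝ) - 1)) ^ 2 ≤
        1 / (((n0 + M : ℕ) : ℝ) - 2) - 1 / (((n0 + M + 1 : ℕ) : ℝ) - 2) := by
      set x : ℝ := ((n0 + M : ℕ) : ℝ) with hx
      have e : ((n0 + M + 1 : ℕ) : ℝ) - 2 = x - 1 := by
        rw [hx]
        push_cast
        ring
      rw [e, div_sub_div _ _ (by linarith) (by linarith), div_pow, one_pow,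
        div_le_div_iff₀ (by nlinarith) (by nlinarith)]
      nlinarith
    linarith

/-- `∑ 1 / (p - 1)²` over numbers `≥ D`. -/
theorem f4_sq {P : Finset ℕ} {D : ℝ} (hD : 3 ≤ D) (hP : ∀ p ∈ P, D ≤ (p : ℝ)) :
    ∑ p ∈ P, (1 / ((p : ℝ) - 1)) ^ 2 ≤ 2 / (D - 1) := by
  set n0 := ⌈D⌉₊ with hn0
  have h0 : D ≤ n0 := Nat.le_ceil D
  have h3 : 3 ≤ n0 := by exact_mod_cast hD.trans h0
  have hsub : P ⊆ Finset.Ico n0 (n0 + (P.sup id + 1)) := by
    intro p hp
    rw [Finset.mem_Ico]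
    refine ⟨Nat.ceil_le.2 (hP p hp), ?_⟩
    have h4 : p ≤ P.sup id := Finset.le_sup (f := id) hp
    omega
  refine (Finset.sum_le_sum_of_subset_of_nonneg hsub fun p _ _ => sq_nonneg _).trans ?_
  refine (f4_sq_Ico n0 h3 _).trans ?_
  have h5 : (3 : ℝ) ≤ n0 := by exact_mod_cast h3
  have h6 : (0 : ℝ) ≤ 1 / ((n0 + (P.sup id + 1) : ℕ) - 2 : ℝ) := by
    have : (3 : ℝ) ≤ ((n0 + (P.sup id + 1) : ℕ) : ℝ) := by
      exact_mod_cast (by omega : 3 ≤ n0 + (P.sup id + 1))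
    exact div_nonneg zero_le_one (by linarith)
  have h7 : 1 / ((n0 : ℝ) - 2) ≤ 2 / (D - 1) := by
    rw [div_le_div_iff₀ (by linarith) (by linarith)]
    linarith
  linarith

section

variable {ι : Type*} [Fintype ι] [DecidableEq ι]

/-- the part of the majorant with `i` used -/
noncomputable def f4_Zi (K Om : ℕ) (lam : ι → ℝ) (i : ι) : ℝ :=
  ∑ S ∈ (univ : Finset (Finset ι)).filter (fun S => S.card ≤ K ∧ i ∈ S),
    ∏ k ∈ S, (2 ^ (Om + 1) * |lam k|)

theorem f4_Zi_nonneg (K Om : ℕ) (lam : ι → ℝ) (i : ι) : 0 ≤ f4_Zi K Om lam i :=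
  Finset.sum_nonneg fun _ _ => Finset.prod_nonneg fun _ _ => by positivity

theorem f4_sum_Zi (K Om : ℕ) (lam : ι → ℝ) :
    ∑ i, f4_Zi K Om lam i ≤ K * ∑ S ∈ (univ : Finset (Finset ι)).filter (fun S => S.card ≤ K),
      ∏ k ∈ S, (2 ^ (Om + 1) * |lam k|) := by
  unfold f4_Zi
  have h1 : ∀ i, ∑ S ∈ (univ : Finset (Finset ι)).filter (fun S => S.card ≤ K ∧ i ∈ S),
      ∏ k ∈ S, (2 ^ (Om + 1) * |lam k|) =
      ∑ S ∈ (univ : Finset (Finset ι)).filter (fun S => S.card ≤ K),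
        if i ∈ S then ∏ k ∈ S, (2 ^ (Om + 1) * |lam k|) else 0 := by
    intro i
    rw [← Finset.sum_filter, Finset.filter_filter]
  rw [Finset.sum_congr rfl fun i _ => h1 i, Finset.sum_comm, Finset.mul_sum]
  refine Finset.sum_le_sum fun S hS => ?_
  rw [mem_filter] at hS
  rw [Finset.sum_ite_mem, Finset.univ_inter, Finset.sum_const, nsmul_eq_mul]
  refine mul_le_mul_of_nonneg_right ?_ (Finset.prod_nonneg fun _ _ => by positivity)
  exact_mod_cast hS.2

open Classical in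
/-- the factor of the prime `q` at position `i` -/
noncomputable def f4_q (A : ℕ → ι → ℕ → Prop) (m : ℕ) (q : ℕ) (i : ι) : ℝ :=
  if A q i m then 1 else 1 / ((q : ℝ) - 1)

end

section two

variable {κ₁ κ₂ : Type*} [Fintype κ₁] [DecidableEq κ₁] [Fintype κ₂] [DecidableEq κ₂]

theorem f4_qsum {P : Finset ℕ} {D : ℝ} (hD : 3 ≤ D) (hP : ∀ p ∈ P, D ≤ (p : ℝ))
    (A₁ : ℕ → κ₁ → ℕ → Prop) (A₂ : ℕ → κ₂ → ℕ → Prop) (m : ℕ)
    (hdisj : ∀ p ∈ P, ∀ i j, A₁ p i m → ¬ A₂ p j m) {Om : ℕ}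
    (hOm₁ : ∀ i, {p | p ∈ P ∧ A₁ p i m}.ncard ≤ Om)
    (hOm₂ : ∀ i, {p | p ∈ P ∧ A₂ p i m}.ncard ≤ Om) (i : κ₁) (j : κ₂) :
    ∑ q ∈ P, f4_q A₁ m q i * f4_q A₂ m q j ≤ (2 * Om + 2) / (D - 1) := by
  classical
  have hset1 : {p | p ∈ P ∧ A₁ p i m} = ((P.filter (fun p => A₁ p i m) : Finset ℕ) : Set ℕ) := by
    ext p
    simp
  have hset2 : {p | p ∈ P ∧ A₂ p j m} = ((P.filter (fun p => A₂ p j m) : Finset ℕ) : Set ℕ) := by
    ext p
    simp
  have c1 : (P.filter (fun p => A₁ p i m)).card ≤ Om := by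
    rw [← Set.ncard_coe_finset, ← hset1]
    exact hOm₁ i
  have c2 : (P.filter (fun p => A₂ p j m)).card ≤ Om := by
    rw [← Set.ncard_coe_finset, ← hset2]
    exact hOm₂ j
  have hD1 : 0 < D - 1 := by linarith
  have h1 : ∀ q ∈ P, f4_q A₁ m q i * f4_q A₂ m q j ≤
      (if A₁ q i m then 1 / (D - 1) else 0) + (if A₂ q j m then 1 / (D - 1) else 0) +
        (1 / ((q : ℝ) - 1)) ^ 2 := by
    intro q hq
    have hq1 : D - 1 ≤ (q : ℝ) - 1 := by linarith [hP q hq]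
    have hq2 : 1 / ((q : ℝ) - 1) ≤ 1 / (D - 1) := div_le_div_of_nonneg_left zero_le_one hD1 hq1
    have hq3 : 0 ≤ 1 / (D - 1) := div_nonneg zero_le_one hD1.le
    have hq4 : 0 ≤ (1 / ((q : ℝ) - 1)) ^ 2 := sq_nonneg _
    unfold f4_q
    by_cases a1 : A₁ q i m
    · have a2 : ¬ A₂ q j m := hdisj q hq i j a1
      rw [if_pos a1, if_pos a1, if_neg a2, if_neg a2]
      linarith
    · by_cases a2 : A₂ q j m
      · rw [if_neg a1, if_neg a1, if_pos a2, if_pos a2]
        linarith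
      · rw [if_neg a1, if_neg a1, if_neg a2, if_neg a2]
        nlinarith
  refine (Finset.sum_le_sum h1).trans ?_
  rw [Finset.sum_add_distrib, Finset.sum_add_distrib, ← Finset.sum_filter, ← Finset.sum_filter,
    Finset.sum_const, Finset.sum_const, nsmul_eq_mul, nsmul_eq_mul]
  have h2 := f4_sq hD hP
  have h3 : ((P.filter (fun p => A₁ p i m)).card : ℝ) * (1 / (D - 1)) ≤ Om * (1 / (D - 1)) :=
    mul_le_mul_of_nonneg_right (by exact_mod_cast c1) (div_nonneg zero_le_one hD1.le)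
  have h4 : ((P.filter (fun p => A₂ p j m)).card : ℝ) * (1 / (D - 1)) ≤ Om * (1 / (D - 1)) :=
    mul_le_mul_of_nonneg_right (by exact_mod_cast c2) (div_nonneg zero_le_one hD1.le)
  have h5 : (2 * (Om : ℝ) + 2) / (D - 1) = Om * (1 / (D - 1)) + Om * (1 / (D - 1)) + 2 / (D - 1) := by
    ring
  rw [h5]
  linarith

/-- **The pairs with a common prime.** -/
theorem fs_pointwise {P : Finset ℕ} {B Y K : ℕ} {c D : ℝ} (hB : Big P B Y K c D)
    (A₁ : ℕ → κ₁ → ℕ → Prop) (A₂ : ℕ → κ₂ → ℕ → Prop) (m : ℕ)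
    (hdisj : ∀ p ∈ P, ∀ i j, A₁ p i m → ¬ A₂ p j m) (Om : ℕ)
    (hOm₁ : ∀ i, {p | p ∈ P ∧ A₁ p i m}.ncard ≤ Om)
    (hOm₂ : ∀ i, {p | p ∈ P ∧ A₂ p i m}.ncard ≤ Om) (Lam₁ : κ₁ → ℕ → ℝ) (Lam₂ : κ₂ → ℕ → ℝ) :
    ∑ σ : P → Option κ₁, ∑ τ ∈ (univ : Finset (P → Option κ₂)).filter
        (fun τ => ∃ q, σ q ≠ none ∧ τ q ≠ none),
      |cf P (chi (fun _ : κ₁ => gw c) B) Y σ * Phi P A₁ σ m * ∏ i ∈ used P σ, Lam₁ i m| *
      |cf P (chi (fun _ : κ₂ => gw c) B) Y τ * Phi P A₂ τ m * ∏ i ∈ used P τ, Lam₂ i m| ≤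
      (2 * Om + 2) / (D - 1) * (K : ℝ) ^ 2 * (Zw K Om Lam₁ m * Zw K Om Lam₂ m) := by
  classical
  have hP := hB.prime
  have hlog : ∀ q ∈ P, c ≤ Real.log q := fun q hq => hB.clog.trans
    (Real.log_le_log (by linarith [hB.hD]) (hB.ge q hq))
  set F : (P → Option κ₁) → ℝ := fun σ =>
    |cf P (chi (fun _ : κ₁ => gw c) B) Y σ * Phi P A₁ σ m * ∏ i ∈ used P σ, Lam₁ i m| with hF
  set G : (P → Option κ₂) → ℝ := fun τ =>
    |cf P (chi (fun _ : κ₂ => gw c) B) Y τ * Phi P A₂ τ m * ∏ i ∈ used P τ, Lam₂ i m| with hG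
  have hF0 : ∀ σ, 0 ≤ F σ := fun σ => abs_nonneg _
  have hG0 : ∀ τ, 0 ≤ G τ := fun τ => abs_nonneg _
  -- one prime and two positions
  have hset1 : ∀ i, {p | p ∈ P ∧ A₁ p i m} =
      ((P.filter (fun p => A₁ p i m) : Finset ℕ) : Set ℕ) := by
    intro i
    ext p
    simp
  have hset2 : ∀ i, {p | p ∈ P ∧ A₂ p i m} =
      ((P.filter (fun p => A₂ p i m) : Finset ℕ) : Set ℕ) := by
    intro i
    ext p
    simp
  have hFi : ∀ (q : P) (i : κ₁), ∑ σ ∈ (univ : Finset (P → Option κ₁)).filter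
      (fun σ => σ q = some i), F σ ≤ f4_q A₁ m q i * f4_Zi K Om (fun i => Lam₁ i m) i := by
    intro q i
    refine le_trans (le_of_eq ?_) (f4_one hP A₁ m B Y K Om hB.hc hB.sum hlog
      (fun i => by rw [← Set.ncard_coe_finset, ← hset1 i]; exact hOm₁ i)
      (fun σ hσ => by rw [usedF_eq hP]; exact used_card_le hB σ hσ) (fun i => Lam₁ i m) q i)
    refine Finset.sum_congr rfl fun σ _ => ?_
    simp only [hF]
    rw [abs_mul, abs_mul, abs_prod, usedF_eq hP]
  have hGj : ∀ (q : P) (j : κ₂), ∑ τ ∈ (univ : Finset (P → Option κ₂)).filter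
      (fun τ => τ q = some j), G τ ≤ f4_q A₂ m q j * f4_Zi K Om (fun i => Lam₂ i m) j := by
    intro q j
    refine le_trans (le_of_eq ?_) (f4_one hP A₂ m B Y K Om hB.hc hB.sum hlog
      (fun i => by rw [← Set.ncard_coe_finset, ← hset2 i]; exact hOm₂ i)
      (fun σ hσ => by rw [usedF_eq hP]; exact used_card_le hB σ hσ) (fun i => Lam₂ i m) q j)
    refine Finset.sum_congr rfl fun σ _ => ?_
    simp only [hG]
    rw [abs_mul, abs_mul, abs_prod, usedF_eq hP]
  -- splitting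
  have h1 : ∑ σ : P → Option κ₁, ∑ τ ∈ (univ : Finset (P → Option κ₂)).filter
        (fun τ => ∃ q, σ q ≠ none ∧ τ q ≠ none), F σ * G τ ≤
      ∑ q : P, ∑ i : κ₁, ∑ j : κ₂,
        (∑ σ ∈ (univ : Finset (P → Option κ₁)).filter (fun σ => σ q = some i), F σ) *
        ∑ τ ∈ (univ : Finset (P → Option κ₂)).filter (fun τ => τ q = some j), G τ := by
    have h2 : ∀ σ τ, (∃ q : P, σ q ≠ none ∧ τ q ≠ none) → F σ * G τ ≤
        ∑ q : P, ∑ i : κ₁, ∑ j : κ₂,
          (if σ q = some i then F σ else 0) * (if τ q = some j then G τ else 0) := by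
      rintro σ τ ⟨q, hq1, hq2⟩
      obtain ⟨i, hi⟩ := Option.ne_none_iff_exists'.1 hq1
      obtain ⟨j, hj⟩ := Option.ne_none_iff_exists'.1 hq2
      have e0 : ∀ (q : P) (i : κ₁) (j : κ₂),
          0 ≤ (if σ q = some i then F σ else 0) * (if τ q = some j then G τ else 0) := by
        intro q i j
        refine mul_nonneg ?_ ?_
        · split_ifs
          · exact hF0 σ
          · exact le_rfl
        · split_ifs
          · exact hG0 τ
          · exact le_rfl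
      calc F σ * G τ = (if σ q = some i then F σ else 0) * (if τ q = some j then G τ else 0) := by
            rw [if_pos hi, if_pos hj]
        _ ≤ ∑ j : κ₂, (if σ q = some i then F σ else 0) * (if τ q = some j then G τ else 0) :=
            Finset.single_le_sum (f := fun j : κ₂ => (if σ q = some i then F σ else 0) *
              (if τ q = some j then G τ else 0)) (fun j _ => e0 q i j) (mem_univ j)
        _ ≤ ∑ i : κ₁, ∑ j : κ₂,
            (if σ q = some i then F σ else 0) * (if τ q = some j then G τ else 0) :=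
            Finset.single_le_sum (f := fun i : κ₁ => ∑ j : κ₂,
              (if σ q = some i then F σ else 0) * (if τ q = some j then G τ else 0))
              (fun i _ => Finset.sum_nonneg fun j _ => e0 q i j) (mem_univ i)
        _ ≤ _ := Finset.single_le_sum (f := fun q : P => ∑ i : κ₁, ∑ j : κ₂,
              (if σ q = some i then F σ else 0) * (if τ q = some j then G τ else 0))
              (fun q _ => Finset.sum_nonneg fun i _ => Finset.sum_nonneg fun j _ => e0 q i j)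
              (mem_univ q)
    have h3 : ∑ σ : P → Option κ₁, ∑ τ ∈ (univ : Finset (P → Option κ₂)).filter
        (fun τ => ∃ q, σ q ≠ none ∧ τ q ≠ none), F σ * G τ ≤
        ∑ σ : P → Option κ₁, ∑ τ : P → Option κ₂, ∑ q : P, ∑ i : κ₁, ∑ j : κ₂,
          (if σ q = some i then F σ else 0) * (if τ q = some j then G τ else 0) := by
      refine Finset.sum_le_sum fun σ _ => ?_
      refine (Finset.sum_le_sum fun τ hτ => h2 σ τ (mem_filter.1 hτ).2).trans ?_
      refine Finset.sum_le_sum_of_subset_of_nonneg (Finset.filter_subset _ _) fun τ _ _ => ?_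
      refine Finset.sum_nonneg fun q _ => Finset.sum_nonneg fun i _ =>
        Finset.sum_nonneg fun j _ => mul_nonneg ?_ ?_
      · split_ifs
        · exact hF0 σ
        · exact le_rfl
      · split_ifs
        · exact hG0 τ
        · exact le_rfl
    refine h3.trans (le_of_eq ?_)
    have h4 : ∀ (q : P) (i : κ₁) (j : κ₂),
        (∑ σ ∈ (univ : Finset (P → Option κ₁)).filter (fun σ => σ q = some i), F σ) *
          ∑ τ ∈ (univ : Finset (P → Option κ₂)).filter (fun τ => τ q = some j), G τ =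
        ∑ σ : P → Option κ₁, ∑ τ : P → Option κ₂,
          (if σ q = some i then F σ else 0) * (if τ q = some j then G τ else 0) := by
      intro q i j
      rw [Finset.sum_filter, Finset.sum_filter, Finset.sum_mul_sum]
    simp only [h4]
    rw [Finset.sum_congr rfl fun σ _ => Finset.sum_comm (s := (univ : Finset (P → Option κ₂)))
      (t := (univ : Finset P))]
    rw [Finset.sum_comm]
    refine Finset.sum_congr rfl fun q _ => ?_
    rw [Finset.sum_congr rfl fun σ _ => Finset.sum_comm (s := (univ : Finset (P → Option κ₂)))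
      (t := (univ : Finset κ₁))]
    rw [Finset.sum_comm]
    refine Finset.sum_congr rfl fun i _ => ?_
    rw [Finset.sum_congr rfl fun σ _ => Finset.sum_comm (s := (univ : Finset (P → Option κ₂)))
      (t := (univ : Finset κ₂))]
    rw [Finset.sum_comm]
  refine h1.trans ?_
  set Z1 : κ₁ → ℝ := fun i => f4_Zi K Om (fun i => Lam₁ i m) i with hZ1
  set Z2 : κ₂ → ℝ := fun i => f4_Zi K Om (fun i => Lam₂ i m) i with hZ2
  have hZ10 : ∀ i, 0 ≤ Z1 i := fun i => f4_Zi_nonneg _ _ _ _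
  have hZ20 : ∀ i, 0 ≤ Z2 i := fun i => f4_Zi_nonneg _ _ _ _
  have hδ : 0 ≤ (2 * (Om : ℝ) + 2) / (D - 1) := by
    have := hB.hD
    exact div_nonneg (by positivity) (by linarith)
  have h5 : ∑ q : P, ∑ i : κ₁, ∑ j : κ₂,
        (∑ σ ∈ (univ : Finset (P → Option κ₁)).filter (fun σ => σ q = some i), F σ) *
        ∑ τ ∈ (univ : Finset (P → Option κ₂)).filter (fun τ => τ q = some j), G τ ≤
      ∑ i : κ₁, ∑ j : κ₂, (2 * Om + 2) / (D - 1) * (Z1 i * Z2 j) := by
    have h6 : ∑ q : P, ∑ i : κ₁, ∑ j : κ₂,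
        (∑ σ ∈ (univ : Finset (P → Option κ₁)).filter (fun σ => σ q = some i), F σ) *
        ∑ τ ∈ (univ : Finset (P → Option κ₂)).filter (fun τ => τ q = some j), G τ ≤
        ∑ q : P, ∑ i : κ₁, ∑ j : κ₂,
          (f4_q A₁ m q i * f4_q A₂ m q j) * (Z1 i * Z2 j) := by
      refine Finset.sum_le_sum fun q _ => Finset.sum_le_sum fun i _ =>
        Finset.sum_le_sum fun j _ => ?_
      have e := mul_le_mul (hFi q i) (hGj q j) (Finset.sum_nonneg fun τ _ => hG0 τ)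
        ((Finset.sum_nonneg fun σ _ => hF0 σ).trans (hFi q i))
      refine e.trans (le_of_eq ?_)
      simp only [hZ1, hZ2]
      ring
    refine h6.trans ?_
    rw [Finset.sum_comm]
    refine Finset.sum_le_sum fun i _ => ?_
    rw [Finset.sum_comm]
    refine Finset.sum_le_sum fun j _ => ?_
    rw [← Finset.sum_mul]
    refine mul_le_mul_of_nonneg_right ?_ (mul_nonneg (hZ10 i) (hZ20 j))
    have e := f4_qsum hB.hD hB.ge A₁ A₂ m hdisj hOm₁ hOm₂ i j
    rw [← Finset.sum_coe_sort P] at e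
    exact e
  refine h5.trans ?_
  have h7 : ∑ i : κ₁, ∑ j : κ₂, (2 * (Om : ℝ) + 2) / (D - 1) * (Z1 i * Z2 j) =
      (2 * Om + 2) / (D - 1) * ((∑ i, Z1 i) * ∑ j, Z2 j) := by
    rw [Finset.sum_mul_sum, Finset.mul_sum]
    refine Finset.sum_congr rfl fun i _ => ?_
    rw [Finset.mul_sum]
  rw [h7, mul_assoc]
  refine mul_le_mul_of_nonneg_left ?_ hδ
  have h8 : ∑ i, Z1 i ≤ K * Zw K Om Lam₁ m := f4_sum_Zi K Om (fun i => Lam₁ i m)
  have h9 : ∑ i, Z2 i ≤ K * Zw K Om Lam₂ m := f4_sum_Zi K Om (fun i => Lam₂ i m)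
  have h10 := mul_le_mul h8 h9 (Finset.sum_nonneg fun i _ => hZ20 i)
    ((Finset.sum_nonneg fun i _ => hZ10 i).trans h8)
  refine h10.trans (le_of_eq ?_)
  ring

end two

end Pool.Agent.H.MP_711652_nt.G2
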