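import Pool.Agent.H.MP_711652_nt.G2.Defs
import Pool.Agent.H.MP_711652_nt.G2.F4D
import Pool.Agent.H.MP_711652_nt.G2.F4P

/-!
# GAP2, F4: two windows
-/

set_option autoImplicit false

namespace Pool.Agent.H.MP_711652_nt.G2

open Finset Pool.Agent.H.MP_711652_nt.LG

/-- PROOF. `F = Pw₁ * Pw₂ = Fd + Fs`, `Fd` = the pairs `(σ, τ)` without common prime = assignments `ρ : P → Option (κ₁ ⊕ κ₂)` with the coefficient
`cf₁(ρ restricted) * cf₂(ρ restricted)`; `quad_upper` (level `Y ^ 2`, at most `2 K` primes, norm `2 ^ R * Y ^ 4 * cL ^ (2 K)`) and `Small.split` give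
`∑ Fd ^ 2 ≤ N (1 + 8 K R / D) (1 + η) Mw₁ Mw₂ + norm ^ 2`.  `Fs`: some `p ∈ P` is at `i` in `σ` and at `j` in `τ`; grouping the positions (as in
`f3_pointwise`; at position `i` the sum over the `r ∋ p` of `g(r) |ψ_r(i)|` is at most `q_p(i) 2^(Om+1)`, `q_p(i) = 1` if `p` hits `i` and `1 / (p - 1)`
otherwise) `|Fs| ≤ ∑_{p, i, j} q_p(i) q_p(j) Z₁^(i) Z₂^(j)`, `Z^(i)` = the part of `Zw` with `i ∈ S`; `∑_p q_p(i) q_p(j) ≤ (2 Om + 2) / (D - 1)` (`p` does not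
hit both `i` and `j`), `∑_i Z^(i) ≤ K Z`.  So `Fs ^ 2 ≤ ((2 Om + 2) / (D - 1)) ^ 2 K ^ 4 (Z₁ ^ 4 + Z₂ ^ 4) / 2`, and
`(Fd + Fs) ^ 2 ≤ (1 + δ) Fd ^ 2 + (1 + 1 / δ) Fs ^ 2`. -/
theorem f4 {κ₁ κ₂ : Type*} [Fintype κ₁] [DecidableEq κ₁] [Fintype κ₂] [DecidableEq κ₂] {P : Finset ℕ}
    {A : ℕ → κ₁ ⊕ κ₂ → ℕ → Prop} (hF : Forms P A) {Q0 : ℕ} {Lam : κ₁ ⊕ κ₂ → ℕ → ℝ} {K B Y : ℕ}
    {v η cL c D : ℝ} (hS : Small Q0 Lam K v η cL) (hcop : ∀ p ∈ P, ¬ p ∣ Q0) (hB : Big P B Y K c D)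
    (R : ℕ) (hR : Fintype.card κ₁ + Fintype.card κ₂ ≤ R) (hsmall : ((2 * K : ℕ) : ℝ) * (2 * R / D) ≤ 1)
    (N Om : ℕ) (hOm : ∀ m < N, ∀ i, {p | p ∈ P ∧ A p i m}.ncard ≤ Om) (δ : ℝ) (hδ : 0 < δ) (Z : ℝ)
    (hZ1 : ∑ m ∈ range N, Zw K Om (fun k => Lam (Sum.inl k)) m ^ 4 ≤ Z)
    (hZ2 : ∑ m ∈ range N, Zw K Om (fun k => Lam (Sum.inr k)) m ^ 4 ≤ Z) :
    ∑ m ∈ range N, Pw P (fun p k m => A p (Sum.inl k) m) (fun k => Lam (Sum.inl k)) c B Y m ^ 2 *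
        Pw P (fun p k m => A p (Sum.inr k) m) (fun k => Lam (Sum.inr k)) c B Y m ^ 2 ≤
      (1 + δ) * (N * ((1 + 8 * K * R / D) * (1 + η)) * Mw P Q0 (fun k => Lam (Sum.inl k)) c B Y *
          Mw P Q0 (fun k => Lam (Sum.inr k)) c B Y + (2 ^ R * (Y : ℝ) ^ 4 * cL ^ (2 * K)) ^ 2) +
        (1 + 1 / δ) * (((2 * Om + 2) / (D - 1)) ^ 2 * (K : ℝ) ^ 4 * Z) := by
  classical
  set F₁ : (P → Option κ₁) → ℕ → ℝ := fun σ m =>
    cf P (chi (fun _ : κ₁ => gw c) B) Y σ * Phi P (fun p k m => A p (Sum.inl k) m) σ m *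
        ∏ i ∈ used P σ, Lam (Sum.inl i) m with hF₁
  set F₂ : (P → Option κ₂) → ℕ → ℝ := fun τ m =>
    cf P (chi (fun _ : κ₂ => gw c) B) Y τ * Phi P (fun p k m => A p (Sum.inr k) m) τ m *
        ∏ i ∈ used P τ, Lam (Sum.inr i) m with hF₂
  set Fd : ℕ → ℝ := fun m => ∑ σ : P → Option κ₁, ∑ τ ∈ (univ : Finset (P → Option κ₂)).filter
        (fun τ => ¬ ∃ q, σ q ≠ none ∧ τ q ≠ none), F₁ σ m * F₂ τ m with hFd
  set Fs : ℕ → ℝ := fun m => ∑ σ : P → Option κ₁, ∑ τ ∈ (univ : Finset (P → Option κ₂)).filter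
        (fun τ => ∃ q, σ q ≠ none ∧ τ q ≠ none), F₁ σ m * F₂ τ m with hFs
  have hsplit : ∀ m, Pw P (fun p k m => A p (Sum.inl k) m) (fun k => Lam (Sum.inl k)) c B Y m *
        Pw P (fun p k m => A p (Sum.inr k) m) (fun k => Lam (Sum.inr k)) c B Y m =
        Fd m + Fs m := by
    intro m
    rw [Pw_eq, Pw_eq, Finset.sum_mul_sum]
    simp only [hFd, hFs]
    rw [← Finset.sum_add_distrib]
    refine Finset.sum_congr rfl fun σ _ => ?_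
    rw [add_comm, Finset.sum_filter_add_sum_filter_not]
  have hfd : ∑ m ∈ range N, Fd m ^ 2 ≤ N * ((1 + 8 * K * R / D) * (1 + η)) *
      Mw P Q0 (fun k => Lam (Sum.inl k)) c B Y * Mw P Q0 (fun k => Lam (Sum.inr k)) c B Y +
        (2 ^ R * (Y : ℝ) ^ 4 * cL ^ (2 * K)) ^ 2 := f4_fd hF hS hcop hB R hR hsmall N
  have hD := hB.hD
  have hδ0 : 0 ≤ (2 * (Om : ℝ) + 2) / (D - 1) := div_nonneg (by positivity) (by linarith)
  have hfs1 : ∀ m ∈ range N, Fs m ^ 2 ≤ ((2 * Om + 2) / (D - 1)) ^ 2 * (K : ℝ) ^ 4 *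
      ((Zw K Om (fun k => Lam (Sum.inl k)) m ^ 4 + Zw K Om (fun k => Lam (Sum.inr k)) m ^ 4) / 2) := by
    intro m hm
    rw [mem_range] at hm
    have h1 := fs_pointwise hB (fun p k m => A p (Sum.inl k) m) (fun p k m => A p (Sum.inr k) m) m
      (fun p hp i j h => hF.disj p hp (Sum.inl i) (Sum.inr j) m (by simp) h) Om
      (fun i => hOm m hm (Sum.inl i)) (fun i => hOm m hm (Sum.inr i))
      (fun k => Lam (Sum.inl k)) (fun k => Lam (Sum.inr k))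
    have h2 : |Fs m| ≤ (2 * Om + 2) / (D - 1) * (K : ℝ) ^ 2 *
        (Zw K Om (fun k => Lam (Sum.inl k)) m * Zw K Om (fun k => Lam (Sum.inr k)) m) := by
      refine le_trans ?_ h1
      simp only [hFs]
      refine (Finset.abs_sum_le_sum_abs _ _).trans (Finset.sum_le_sum fun σ _ => ?_)
      refine (Finset.abs_sum_le_sum_abs _ _).trans (Finset.sum_le_sum fun τ _ => ?_)
      rw [abs_mul]
    have h3 := pow_le_pow_left₀ (abs_nonneg _) h2 2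
    rw [sq_abs] at h3
    refine h3.trans ?_
    set z1 := Zw K Om (fun k => Lam (Sum.inl k)) m
    set z2 := Zw K Om (fun k => Lam (Sum.inr k)) m
    have h4 : z1 ^ 2 * z2 ^ 2 ≤ (z1 ^ 4 + z2 ^ 4) / 2 := by nlinarith [sq_nonneg (z1 ^ 2 - z2 ^ 2)]
    have h5 : ((2 * (Om : ℝ) + 2) / (D - 1) * (K : ℝ) ^ 2 * (z1 * z2)) ^ 2 =
        ((2 * Om + 2) / (D - 1)) ^ 2 * (K : ℝ) ^ 4 * (z1 ^ 2 * z2 ^ 2) := by ring
    rw [h5]
    exact mul_le_mul_of_nonneg_left h4 (by positivity)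
  have hfs : ∑ m ∈ range N, Fs m ^ 2 ≤ ((2 * Om + 2) / (D - 1)) ^ 2 * (K : ℝ) ^ 4 * Z := by
    refine (Finset.sum_le_sum hfs1).trans ?_
    rw [← Finset.mul_sum, ← Finset.sum_div, Finset.sum_add_distrib]
    refine mul_le_mul_of_nonneg_left ?_ (by positivity)
    linarith
  have hpt : ∀ m, Pw P (fun p k m => A p (Sum.inl k) m) (fun k => Lam (Sum.inl k)) c B Y m ^ 2 *
        Pw P (fun p k m => A p (Sum.inr k) m) (fun k => Lam (Sum.inr k)) c B Y m ^ 2 ≤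
        (1 + δ) * Fd m ^ 2 + (1 + 1 / δ) * Fs m ^ 2 := by
    intro m
    rw [← mul_pow, hsplit m]
    have h1 : 0 ≤ (δ * Fd m - Fs m) ^ 2 / δ := div_nonneg (sq_nonneg _) hδ.le
    have h2 : (δ * Fd m - Fs m) ^ 2 / δ = δ * Fd m ^ 2 - 2 * (Fd m * Fs m) + 1 / δ * Fs m ^ 2 := by
      field_simp
      ring
    nlinarith
  refine (Finset.sum_le_sum fun m _ => hpt m).trans ?_
  rw [Finset.sum_add_distrib, ← Finset.mul_sum, ← Finset.mul_sum]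
  have hδ1 : 0 ≤ 1 + 1 / δ := by positivity
  exact add_le_add (mul_le_mul_of_nonneg_left hfd (by linarith)) (mul_le_mul_of_nonneg_left hfs hδ1)

end Pool.Agent.H.MP_711652_nt.G2
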