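import Pool.Agent.H.MP_711652_nt.G2.F3C

/-!
# MP_711652_nt, GAP2, F4: the terms with a common big prime (helper62)
-/

set_option autoImplicit false

namespace Pool.Agent.H.MP_711652_nt.G2

open Finset Pool.Agent.H.MP_711652_nt.LG

section sets

variable {ι : Type*} [Fintype ι] [DecidableEq ι]

/-- The weights `u` restricted to the assignments with the set `S` of used positions. -/
noncomputable def f4_u (S : Finset ι) (u : ι → ℕ → ℝ) (i : ι) (n : ℕ) : ℝ :=
  if i ∈ S then (if n = 1 then 0 else u i n) else (if n = 1 then u i 1 else 0)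

theorem f4_u_nonneg (S : Finset ι) (u : ι → ℕ → ℝ) (hu : ∀ j n, 0 ≤ u j n) (j : ι) (n : ℕ) :
    0 ≤ f4_u S u j n := by
  unfold f4_u
  split_ifs
  · exact le_rfl
  · exact hu j n
  · exact hu j 1
  · exact le_rfl

theorem f4_sum_in {P : Finset ℕ} (hP : ∀ p ∈ P, p.Prime) (S : Finset ι) (u : ι → ℕ → ℝ) {i : ι}
    (hi : i ∈ S) : ∑ T ∈ P.powerset, f4_u S u i (∏ p ∈ T, p) =
      ∑ T ∈ P.powerset.erase ∅, u i (∏ p ∈ T, p) := by
  rw [← Finset.sum_erase_add P.powerset _ (Finset.empty_mem_powerset P)]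
  have h1 : f4_u S u i (∏ p ∈ (∅ : Finset ℕ), p) = 0 := by
    rw [f4_u, if_pos hi, Finset.prod_empty, if_pos rfl]
  rw [h1, add_zero]
  refine Finset.sum_congr rfl fun T hT => ?_
  rw [mem_erase, mem_powerset] at hT
  rw [f4_u, if_pos hi, if_neg (f3_prod_ne_one hP hT.2 hT.1)]

theorem f4_sum_out {P : Finset ℕ} (hP : ∀ p ∈ P, p.Prime) (S : Finset ι) (u : ι → ℕ → ℝ) {i : ι}
    (hi : i ∉ S) : ∑ T ∈ P.powerset, f4_u S u i (∏ p ∈ T, p) = u i 1 := by
  rw [← Finset.sum_erase_add P.powerset _ (Finset.empty_mem_powerset P)]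
  have h1 : f4_u S u i (∏ p ∈ (∅ : Finset ℕ), p) = u i 1 := by
    rw [f4_u, if_neg hi, Finset.prod_empty, if_pos rfl]
  rw [h1, Finset.sum_eq_zero, zero_add]
  intro T hT
  rw [mem_erase, mem_powerset] at hT
  rw [f4_u, if_neg hi, if_neg (f3_prod_ne_one hP hT.2 hT.1)]

/-- Grouping the assignments by the set of the used positions, general weights. -/
theorem SS_le_sets_gen (P : Finset ℕ) (hP : ∀ p ∈ P, p.Prime) (Y K : ℕ) (u : ι → ℕ → ℝ)
    (hu : ∀ j n, 0 ≤ u j n) (hK : ∀ σ : P → Option ι, DD P σ ≤ Y → (usedF P σ).card ≤ K) :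
    SS P Y u ≤ ∑ S ∈ (univ : Finset (Finset ι)).filter (fun S => S.card ≤ K),
      (∏ i ∈ Sᶜ, u i 1) * ∏ i ∈ S, ∑ T ∈ P.powerset.erase ∅, u i (∏ p ∈ T, p) := by
  classical
  have h2 : SS P Y u ≤ ∑ S ∈ (univ : Finset (Finset ι)).filter (fun S => S.card ≤ K),
      SS P Y (f4_u S u) := by
    unfold SS
    rw [Finset.sum_comm]
    refine Finset.sum_le_sum fun σ _ => ?_
    by_cases hσ : DD P σ ≤ Y
    · rw [if_pos hσ]
      have h3 : ∏ i, u i (rr P σ i) = (if DD P σ ≤ Y then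
          ∏ i, f4_u (usedF P σ) u i (rr P σ i) else 0) := by
        rw [if_pos hσ]
        refine Finset.prod_congr rfl fun i _ => ?_
        by_cases hi : rr P σ i = 1
        · have h4 : i ∉ usedF P σ := by
            rw [usedF, mem_filter]
            exact fun h => h.2 hi
          rw [f4_u, if_neg h4, hi, if_pos rfl]
        · have h4 : i ∈ usedF P σ := by
            rw [usedF, mem_filter]
            exact ⟨mem_univ _, hi⟩
          rw [f4_u, if_pos h4, if_neg hi]
      rw [h3]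
      refine Finset.single_le_sum
        (f := fun S => if DD P σ ≤ Y then ∏ i, f4_u S u i (rr P σ i) else 0)
        (fun S _ => ?_) ?_
      · rw [if_pos hσ]
        exact Finset.prod_nonneg fun i _ => f4_u_nonneg S u hu i _
      · rw [mem_filter]
        exact ⟨mem_univ _, hK σ hσ⟩
    · rw [if_neg hσ]
      refine Finset.sum_nonneg fun S _ => ?_
      rw [if_neg hσ]
  refine h2.trans (Finset.sum_le_sum fun S _ => ?_)
  refine (SS_le_prod P hP Y (f4_u S u) (f4_u_nonneg S u hu)).trans (le_of_eq ?_)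
  rw [← Finset.prod_mul_prod_compl S (fun i => ∑ T ∈ P.powerset, f4_u S u i (∏ p ∈ T, p))]
  rw [Finset.prod_congr rfl fun i hi => f4_sum_in hP S u hi,
    Finset.prod_congr (s₁ := Sᶜ) rfl fun i hi => f4_sum_out hP S u (Finset.mem_compl.1 hi),
    mul_comm]

end sets

/-- The sets containing a given prime. -/
theorem sum_gw_psi_mem {P : Finset ℕ} (hP : ∀ p ∈ P, p.Prime) (B : ℕ) {c : ℝ} (hc : 0 ≤ c)
    (hsum : ∑ T ∈ QQ P B, gw c (∏ p ∈ T, p) = 1) (hlog : ∀ q ∈ P, c ≤ Real.log q)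
    (H : Finset ℕ) (hH : H ⊆ P) {q : ℕ} (hq : q ∈ P) :
    ∑ T ∈ (QQ P B).filter (fun T => q ∈ T),
      gw c (∏ p ∈ T, p) * ∏ p ∈ T, (if p ∈ H then (p : ℝ) - 1 else 1) ≤
      (if q ∈ H then 1 else 1 / ((q : ℝ) - 1)) * 2 ^ (H.card + 1) := by
  classical
  have hqp := hP q hq
  have hq1 : (1 : ℝ) < q := by exact_mod_cast hqp.one_lt
  have hq0 : (0 : ℝ) < (q : ℝ) - 1 := by linarith
  have hpos : ∀ {T : Finset ℕ}, T ⊆ P → 0 < ∏ p ∈ T, p := fun hT =>
    Finset.prod_pos fun p hp => (hP p (hT hp)).pos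
  have hφ : ∀ S ⊆ P, 0 < ∏ p ∈ S, ((p : ℝ) - 1) := fun S hS =>
    Finset.prod_pos fun p hp => by
      have : (1 : ℝ) < p := by exact_mod_cast (hP p (hS hp)).one_lt
      linarith
  have htot : ∀ T ⊆ P, ∏ p ∈ T, ((p : ℝ) - 1) = (Nat.totient (∏ p ∈ T, p) : ℝ) := by
    intro T hT
    induction T using Finset.induction_on with
    | empty => simp
    | insert p T hp ih =>
      have hpP := hT (Finset.mem_insert_self _ _)
      have hTP : T ⊆ P := fun q hq => hT (Finset.mem_insert_of_mem hq)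
      have hcop : p.Coprime (∏ q ∈ T, q) := by
        refine Nat.Coprime.prod_right fun q hq => ?_
        refine (Nat.coprime_primes (hP p hpP) (hP q (hTP hq))).2 ?_
        rintro rfl
        exact hp hq
      rw [Finset.prod_insert hp, Finset.prod_insert hp, Nat.totient_mul hcop, ih hTP,
        Nat.totient_prime (hP p hpP)]
      push_cast [(hP p hpP).one_le]
      ring
  set F : Finset ℕ → ℝ := fun E => if E = ∅ then 1 else gw c (∏ p ∈ E, p) with hF
  have hF0 : ∀ E, 0 ≤ F E := by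
    intro E
    simp only [hF]
    split_ifs
    · exact zero_le_one
    · exact gw_nonneg hc _
  set w : ℝ := if q ∈ H then 1 else 1 / ((q : ℝ) - 1) with hw
  have hw0 : 0 ≤ w := by
    rw [hw]
    split_ifs
    · exact zero_le_one
    · exact div_nonneg zero_le_one hq0.le
  have hwq : (if q ∈ H then (q : ℝ) - 1 else 1) = w * ((q : ℝ) - 1) := by
    rw [hw]
    split_ifs
    · rw [one_mul]
    · field_simp
  -- one term
  have hterm : ∀ T ∈ (QQ P B).filter (fun T => q ∈ T),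
      gw c (∏ p ∈ T, p) * ∏ p ∈ T, (if p ∈ H then (p : ℝ) - 1 else 1) ≤
        w * F ((T.erase q) \ H) := by
    intro T hT
    rw [mem_filter, mem_QQ] at hT
    obtain ⟨⟨hne, hTP, hTB⟩, hqT⟩ := hT
    have h2 := two_le_prod_of_QQ hP hTP hne
    have hlogT : 0 < Real.log ((∏ p ∈ T, p : ℕ) : ℝ) := Real.log_pos (by exact_mod_cast h2)
    have hEP : (T.erase q) \ H ⊆ P := fun p hp =>
      hTP (Finset.mem_of_mem_erase (Finset.mem_sdiff.1 hp).1)
    have hIP : (T.erase q) ∩ H ⊆ P := fun p hp =>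
      hTP (Finset.mem_of_mem_erase (Finset.mem_inter.1 hp).1)
    have hprod2 : ∏ p ∈ T, (if p ∈ H then (p : ℝ) - 1 else 1) =
        (w * ((q : ℝ) - 1)) * ∏ p ∈ (T.erase q) ∩ H, ((p : ℝ) - 1) := by
      rw [← Finset.mul_prod_erase T _ hqT, hwq, ← Finset.prod_filter,
        Finset.filter_mem_eq_inter]
    have hsplit : ∏ p ∈ T, ((p : ℝ) - 1) =
        ((q : ℝ) - 1) * ((∏ p ∈ (T.erase q) ∩ H, ((p : ℝ) - 1)) *
          ∏ p ∈ (T.erase q) \ H, ((p : ℝ) - 1)) := by
      rw [← Finset.mul_prod_erase T _ hqT,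
        mul_comm (∏ p ∈ (T.erase q) ∩ H, ((p : ℝ) - 1)),
        ← Finset.prod_sdiff (Finset.inter_subset_left : (T.erase q) ∩ H ⊆ T.erase q),
        Finset.sdiff_inter_self_left]
    have hI := hφ _ hIP
    have hD := hφ _ hEP
    have e1 : gw c (∏ p ∈ T, p) * ∏ p ∈ T, (if p ∈ H then (p : ℝ) - 1 else 1) =
        w * (c / ((∏ p ∈ (T.erase q) \ H, ((p : ℝ) - 1)) *
          Real.log ((∏ p ∈ T, p : ℕ) : ℝ))) := by
      rw [gw_of_two_le c h2, ← htot T hTP, hprod2, hsplit]
      field_simp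
    rw [e1]
    refine mul_le_mul_of_nonneg_left ?_ hw0
    simp only [hF]
    split_ifs with hE
    · rw [hE, Finset.prod_empty, one_mul, div_le_one hlogT]
      refine (hlog q hq).trans (Real.log_le_log (by exact_mod_cast hqp.pos) ?_)
      exact_mod_cast Nat.le_of_dvd (hpos hTP) (Finset.dvd_prod_of_mem _ hqT)
    · have h3 := two_le_prod_of_QQ hP hEP hE
      have hlogE : 0 < Real.log ((∏ p ∈ (T.erase q) \ H, p : ℕ) : ℝ) :=
        Real.log_pos (by exact_mod_cast h3)
      rw [gw_of_two_le c h3, ← htot _ hEP]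
      refine div_le_div_of_nonneg_left hc (mul_pos hD hlogE) ?_
      refine mul_le_mul_of_nonneg_left ?_ hD.le
      refine Real.log_le_log (by exact_mod_cast hpos hEP) ?_
      exact_mod_cast Nat.le_of_dvd (hpos hTP)
        (Finset.prod_dvd_prod_of_subset _ _ _
          (Finset.sdiff_subset.trans (Finset.erase_subset _ _)))
  refine (Finset.sum_le_sum hterm).trans ?_
  rw [← Finset.mul_sum]
  refine mul_le_mul_of_nonneg_left ?_ hw0
  have hinj : Set.InjOn (fun T : Finset ℕ => ((T.erase q) ∩ H, (T.erase q) \ H))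
      ((QQ P B).filter (fun T => q ∈ T) : Set (Finset ℕ)) := by
    intro T hT T' hT' h
    rw [Finset.mem_coe, mem_filter] at hT hT'
    simp only [Prod.mk.injEq] at h
    have e1 : ∀ T : Finset ℕ, T = (T ∩ H) ∪ (T \ H) := fun T => by
      ext x
      simp only [Finset.mem_union, Finset.mem_inter, Finset.mem_sdiff]
      tauto
    have e2 : T.erase q = T'.erase q := by rw [e1 (T.erase q), e1 (T'.erase q), h.1, h.2]
    rw [← Finset.insert_erase hT.2, ← Finset.insert_erase hT'.2, e2]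
  have h4 : ∑ T ∈ (QQ P B).filter (fun T => q ∈ T), F ((T.erase q) \ H) =
      ∑ x ∈ ((QQ P B).filter (fun T => q ∈ T)).image
        (fun T : Finset ℕ => ((T.erase q) ∩ H, (T.erase q) \ H)), F x.2 := by
    rw [Finset.sum_image hinj]
  have h5 : ((QQ P B).filter (fun T => q ∈ T)).image
      (fun T : Finset ℕ => ((T.erase q) ∩ H, (T.erase q) \ H)) ⊆
      H.powerset ×ˢ (insert ∅ (QQ P B)) := by
    intro x hx
    obtain ⟨T, hT, rfl⟩ := mem_image.1 hx
    rw [mem_filter, mem_QQ] at hT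
    rw [mem_product, mem_powerset]
    refine ⟨Finset.inter_subset_right, ?_⟩
    rw [mem_insert]
    by_cases hE : (T.erase q) \ H = ∅
    · exact Or.inl hE
    · refine Or.inr ?_
      rw [mem_QQ]
      refine ⟨hE, fun p hp => hT.1.2.1 (Finset.mem_of_mem_erase (Finset.mem_sdiff.1 hp).1),
        le_trans ?_ hT.1.2.2⟩
      exact Nat.le_of_dvd (hpos hT.1.2.1)
        (Finset.prod_dvd_prod_of_subset _ _ _
          (Finset.sdiff_subset.trans (Finset.erase_subset _ _)))
  rw [h4]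
  refine (Finset.sum_le_sum_of_subset_of_nonneg h5 fun x _ _ => hF0 _).trans ?_
  rw [Finset.sum_product]
  change ∑ x ∈ H.powerset, ∑ y ∈ insert ∅ (QQ P B), F y ≤ 2 ^ (H.card + 1)
  have hemp : (∅ : Finset ℕ) ∉ QQ P B := by
    rw [mem_QQ]
    exact fun h => h.1 rfl
  have h6 : ∑ E ∈ insert ∅ (QQ P B), F E = 2 := by
    rw [Finset.sum_insert hemp]
    have h7 : ∑ E ∈ QQ P B, F E = 1 := by
      rw [← hsum]
      refine Finset.sum_congr rfl fun E hE => ?_
      rw [mem_QQ] at hE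
      simp only [hF]
      rw [if_neg hE.1]
    rw [h7]
    simp only [hF, if_true]
    norm_num
  rw [Finset.sum_const, h6, Finset.card_powerset, nsmul_eq_mul]
  push_cast
  rw [pow_succ]

section one

variable {ι : Type*} [Fintype ι] [DecidableEq ι]

open Classical in
/-- The assignments which put `q` at position `i`. -/
theorem f4_one {P : Finset ℕ} (hP : ∀ p ∈ P, p.Prime) (A : ℕ → ι → ℕ → Prop) (m : ℕ)
    (B Y K Om : ℕ) {c : ℝ} (hc : 0 ≤ c) (hsum : ∑ T ∈ QQ P B, gw c (∏ p ∈ T, p) = 1)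
    (hlog : ∀ q ∈ P, c ≤ Real.log q) (hOm : ∀ i, (P.filter (fun p => A p i m)).card ≤ Om)
    (hK : ∀ σ : P → Option ι, DD P σ ≤ Y → (usedF P σ).card ≤ K) (lam : ι → ℝ) (q : P) (i : ι) :
    ∑ σ ∈ (univ : Finset (P → Option ι)).filter (fun σ => σ q = some i),
      |cf P (chi (fun _ : ι => gw c) B) Y σ| * |Phi P A σ m| * ∏ i ∈ usedF P σ, |lam i| ≤
      (if A q i m then 1 else 1 / (((q : ℕ) : ℝ) - 1)) *
      ∑ S ∈ (univ : Finset (Finset ι)).filter (fun S => S.card ≤ K ∧ i ∈ S),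
        ∏ k ∈ S, (2 ^ (Om + 1) * |lam k|) := by
  set χ := chi (fun _ : ι => gw c) B with hχ
  set u : ι → ℕ → ℝ := fun k n => if k = i ∧ ¬ (q : ℕ) ∣ n then 0 else
    |χ k n| * f3_psi P A m k n * (if n = 1 then 1 else |lam k|) with hu
  have hu0 : ∀ j n, 0 ≤ u j n := by
    intro j n
    simp only [hu]
    split_ifs
    · exact le_rfl
    · exact mul_nonneg (mul_nonneg (abs_nonneg _) (f3_psi_nonneg hP A m j n)) zero_le_one
    · exact mul_nonneg (mul_nonneg (abs_nonneg _) (f3_psi_nonneg hP A m j n)) (abs_nonneg _)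
  have hq1 : ¬ (q : ℕ) ∣ 1 := fun h => (hP q q.2).one_lt.ne' (Nat.dvd_one.1 h)
  have hui : u i 1 = 0 := by
    simp only [hu]
    exact if_pos ⟨trivial, hq1⟩
  have hu1 : ∀ j, j ≠ i → u j 1 = 1 := by
    intro j hj
    simp only [hu]
    rw [if_neg fun h => hj h.1, if_pos trivial, mul_one, f3_psi_one hP, mul_one, hχ, chi, chg,
      if_pos rfl, abs_one]
  have h1 : ∑ σ ∈ (univ : Finset (P → Option ι)).filter (fun σ => σ q = some i),
      |cf P χ Y σ| * |Phi P A σ m| * ∏ i ∈ usedF P σ, |lam i| = SS P Y u := by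
    unfold SS
    rw [Finset.sum_filter]
    refine Finset.sum_congr rfl fun σ _ => ?_
    rw [cf]
    by_cases hσ : DD P σ ≤ Y
    · rw [if_pos hσ, if_pos hσ]
      by_cases hσq : σ q = some i
      · rw [if_pos hσq, Finset.abs_prod, f3_absPhi hP A σ m]
        have h2 : ∏ i ∈ usedF P σ, |lam i| = ∏ i, if rr P σ i = 1 then (1 : ℝ) else |lam i| := by
          rw [usedF, Finset.prod_filter]
          refine Finset.prod_congr rfl fun i _ => ?_
          by_cases h3 : rr P σ i = 1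
          · simp [h3]
          · simp [h3]
        rw [h2, ← Finset.prod_mul_distrib, ← Finset.prod_mul_distrib]
        refine Finset.prod_congr rfl fun k _ => ?_
        simp only [hu]
        have h4 : ¬ (k = i ∧ ¬ (q : ℕ) ∣ rr P σ k) := by
          rintro ⟨rfl, h5⟩
          exact h5 ((f3_dvd_rr hP σ k q).2 hσq)
        rw [if_neg h4]
      · rw [if_neg hσq]
        symm
        refine Finset.prod_eq_zero (Finset.mem_univ i) ?_
        simp only [hu]
        exact if_pos ⟨trivial, fun h => hσq ((f3_dvd_rr hP σ i q).1 h)⟩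
    · rw [if_neg hσ, if_neg hσ, abs_zero, zero_mul, zero_mul, ite_self]
  rw [h1]
  refine (SS_le_sets_gen P hP Y K u hu0 hK).trans ?_
  -- only the sets containing `i` contribute
  have h2 : ∀ S ∈ (univ : Finset (Finset ι)).filter (fun S => S.card ≤ K),
      S ∉ (univ : Finset (Finset ι)).filter (fun S => S.card ≤ K ∧ i ∈ S) →
      (∏ i ∈ Sᶜ, u i 1) * ∏ i ∈ S, ∑ T ∈ P.powerset.erase ∅, u i (∏ p ∈ T, p) = 0 := by
    intro S hS hS'
    rw [mem_filter] at hS hS'
    have hi : i ∈ Sᶜ := by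
      rw [Finset.mem_compl]
      exact fun h => hS' ⟨mem_univ _, hS.2, h⟩
    rw [Finset.prod_eq_zero hi hui, zero_mul]
  have h3 : (univ : Finset (Finset ι)).filter (fun S => S.card ≤ K ∧ i ∈ S) ⊆
      (univ : Finset (Finset ι)).filter (fun S => S.card ≤ K) := by
    intro S hS
    rw [mem_filter] at hS ⊢
    exact ⟨hS.1, hS.2.1⟩
  rw [← Finset.sum_subset h3 h2, Finset.mul_sum]
  refine Finset.sum_le_sum fun S hS => ?_
  rw [mem_filter] at hS
  have hiS := hS.2.2
  have h4 : ∏ i ∈ Sᶜ, u i 1 = 1 := Finset.prod_eq_one fun k hk => hu1 k (by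
    rintro rfl
    exact (Finset.mem_compl.1 hk) hiS)
  rw [h4, one_mul]
  set w : ℝ := if A q i m then 1 else 1 / (((q : ℕ) : ℝ) - 1) with hw
  have hq0 : (0 : ℝ) < ((q : ℕ) : ℝ) - 1 := by
    have : (1 : ℝ) < ((q : ℕ) : ℝ) := by exact_mod_cast (hP q q.2).one_lt
    linarith
  have hw0 : 0 ≤ w := by
    rw [hw]
    split_ifs
    · exact zero_le_one
    · exact div_nonneg zero_le_one hq0.le
  rw [← Finset.mul_prod_erase S _ hiS, ← Finset.mul_prod_erase S
    (fun k => 2 ^ (Om + 1) * |lam k|) hiS, ← mul_assoc]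
  have hsumpos : ∀ k, 0 ≤ ∑ T ∈ P.powerset.erase ∅, u k (∏ p ∈ T, p) := fun k =>
    Finset.sum_nonneg fun T _ => hu0 _ _
  refine mul_le_mul ?_ (Finset.prod_le_prod (fun k _ => hsumpos k) fun k hk => ?_)
    (Finset.prod_nonneg fun k _ => hsumpos k)
    (mul_nonneg hw0 (mul_nonneg (by positivity) (abs_nonneg _)))
  · -- the position `i`
    have h5 : ∑ T ∈ P.powerset.erase ∅, u i (∏ p ∈ T, p) =
        (∑ T ∈ (QQ P B).filter (fun T => (q : ℕ) ∈ T), gw c (∏ p ∈ T, p) *
          ∏ p ∈ T, (if p ∈ P.filter (fun p => A p i m) then (p : ℝ) - 1 else 1)) * |lam i| := by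
      rw [Finset.sum_mul, QQ, Finset.sum_filter, Finset.sum_filter]
      refine Finset.sum_congr rfl fun T hT => ?_
      rw [mem_erase, mem_powerset] at hT
      simp only [hu]
      have h6 := f3_dvd_prod hP hT.2 q.2
      rw [if_neg (f3_prod_ne_one hP hT.2 hT.1)]
      have h7 : f3_psi P A m i (∏ p ∈ T, p) =
          ∏ p ∈ T, (if p ∈ P.filter (fun p => A p i m) then (p : ℝ) - 1 else 1) := by
        rw [f3_psi, ← Finset.prod_subset hT.2]
        · refine Finset.prod_congr rfl fun p hp => ?_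
          have h4 := (f3_dvd_prod hP hT.2 (hT.2 hp)).2 hp
          simp [h4, hT.2 hp]
        · intro p hp hpT
          have h4 : ¬ p ∣ ∏ q ∈ T, q := fun h => hpT ((f3_dvd_prod hP hT.2 hp).1 h)
          simp [h4]
      by_cases hqT : (q : ℕ) ∈ T
      · rw [if_neg fun h => h.2 (h6.2 hqT)]
        rw [hχ, chi, chg, if_neg (f3_prod_ne_one hP hT.2 hT.1), h7]
        by_cases hB : ∏ p ∈ T, p ≤ B
        · rw [if_pos hB, if_pos hB, if_pos hqT, abs_neg, abs_of_nonneg (gw_nonneg hc _)]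
        · rw [if_neg hB, if_neg hB, abs_zero, zero_mul, zero_mul]
      · rw [if_pos ⟨trivial, fun h => hqT (h6.1 h)⟩]
        by_cases hB : ∏ p ∈ T, p ≤ B
        · rw [if_pos hB, if_neg hqT]
        · rw [if_neg hB]
    rw [h5, ← mul_assoc]
    refine mul_le_mul_of_nonneg_right ?_ (abs_nonneg _)
    refine (sum_gw_psi_mem hP B hc hsum hlog _ (Finset.filter_subset _ _) q.2).trans ?_
    have h8 : (if (q : ℕ) ∈ P.filter (fun p => A p i m) then (1 : ℝ) else
        1 / (((q : ℕ) : ℝ) - 1)) = w := by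
      rw [hw]
      by_cases hA : A q i m
      · rw [if_pos hA, if_pos (mem_filter.2 ⟨q.2, hA⟩)]
      · have hA' : (q : ℕ) ∉ P.filter (fun p => A p i m) := fun h => hA (mem_filter.1 h).2
        rw [if_neg hA, if_neg hA']
    rw [h8]
    refine mul_le_mul_of_nonneg_left ?_ hw0
    exact pow_le_pow_right₀ (by norm_num) (by have := hOm i; omega)
  · -- the other positions
    have hki : k ≠ i := (Finset.mem_erase.1 hk).1
    have h5 : ∑ T ∈ P.powerset.erase ∅, u k (∏ p ∈ T, p) =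
        (∑ T ∈ P.powerset.erase ∅, |χ k (∏ p ∈ T, p)| * f3_psi P A m k (∏ p ∈ T, p)) *
          |lam k| := by
      rw [Finset.sum_mul]
      refine Finset.sum_congr rfl fun T hT => ?_
      rw [mem_erase, mem_powerset] at hT
      simp only [hu]
      rw [if_neg fun h => hki h.1, if_neg (f3_prod_ne_one hP hT.2 hT.1)]
    rw [h5]
    refine mul_le_mul_of_nonneg_right ?_ (abs_nonneg _)
    refine (f3_sum_pos hP A m k B hc hsum hlog (P.filter (fun p => A p k m))
      (Finset.filter_subset _ _) (fun p hp hA => mem_filter.2 ⟨hp, hA⟩) (hOm k)).trans ?_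
    exact le_rfl

end one

end Pool.Agent.H.MP_711652_nt.G2
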