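import Pool.Agent.H.MP_711652_nt.G2.Stmt
import Pool.Agent.H.MP_711652_nt.Moments

/-!
# GAP2, Pri: from the integers to the primes
-/

set_option autoImplicit false

namespace Pool.Agent.H.MP_711652_nt.G2

open Finset

/-- There is a prime-free run of length `g` inside `(n, n + h]`. -/
def HasRun (n h g : ℕ) : Prop :=
  ∃ t : ℕ, t + g ≤ h ∧ ∀ k : ℕ, t < k → k ≤ t + g → ¬ (n + k).Prime

lemma HasRun.mono {n h h' g : ℕ} (hh : h ≤ h') (H : HasRun n h g) : HasRun n h' g := by
  obtain ⟨t, h1, h2⟩ := H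
  exact ⟨t, h1.trans hh, h2⟩

/-- A run after `n` gives a long gap between consecutive primes. -/
lemma gap_of_run {p n H g : ℕ} (hp : p.Prime) (hpn : p ≤ n) (hnH : n ≤ p + H)
    (hr : HasRun n H g) :
    ∃ k : ℕ, p ≤ Nat.nth Nat.Prime k ∧ Nat.nth Nat.Prime k ≤ p + 2 * H ∧
      Nat.nth Nat.Prime k + g + 1 ≤ Nat.nth Nat.Prime (k + 1) := by
  obtain ⟨t, h1, h2⟩ := hr
  set m := n + t with hm
  have hinf := Nat.infinite_setOfPred_prime
  have hpm : p < m + 1 := by omega
  have hc1 : Nat.count Nat.Prime p < Nat.count Nat.Prime (m + 1) := Nat.count_strict_mono hp hpm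
  obtain ⟨c, hc⟩ : ∃ c, Nat.count Nat.Prime (m + 1) = c + 1 :=
    ⟨Nat.count Nat.Prime (m + 1) - 1, by omega⟩
  refine ⟨c, ?_, ?_, ?_⟩
  · have h3 : Nat.nth Nat.Prime (Nat.count Nat.Prime p) = p := Nat.nth_count hp
    calc p = Nat.nth Nat.Prime (Nat.count Nat.Prime p) := h3.symm
      _ ≤ Nat.nth Nat.Prime c := Nat.nth_monotone hinf (by omega)
  · have h4 : Nat.nth Nat.Prime c < m + 1 := Nat.nth_lt_of_lt_count (by omega)
    omega
  · have h4 : Nat.nth Nat.Prime c < m + 1 := Nat.nth_lt_of_lt_count (by omega)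
    have h5 : m + 1 ≤ Nat.nth Nat.Prime (c + 1) := by
      rw [← hc]
      exact Nat.le_nth_count hinf (m + 1)
    have h6 : (Nat.nth Nat.Prime (c + 1)).Prime := Nat.prime_nth_prime (c + 1)
    by_contra h7
    have h8 := h2 (Nat.nth Nat.Prime (c + 1) - n) (by omega) (by omega)
    apply h8
    have : n + (Nat.nth Nat.Prime (c + 1) - n) = Nat.nth Nat.Prime (c + 1) := by omega
    rw [this]
    exact h6

/-- Number of primes `p ≤ X` with `p ≤ n ≤ p + H`. -/
noncomputable def cnt (X H n : ℕ) : ℕ :=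
  ((range (X + 1)).filter (fun p => p.Prime ∧ p ≤ n ∧ n ≤ p + H)).card

/-- The blocks which meet the window below `n`. -/
noncomputable def blk (b M H n : ℕ) : Finset ℕ :=
  (range M).filter (fun k => k * b ≤ n ∧ n < (k + 1) * b + H)

lemma cnt_le (b X H n : ℕ) (hb : 0 < b) :
    cnt X H n ≤ ∑ k ∈ blk b (X / b + 1) H n, Fb b k := by
  unfold cnt
  have hmaps : ∀ p ∈ (range (X + 1)).filter (fun p => p.Prime ∧ p ≤ n ∧ n ≤ p + H),
      p / b ∈ blk b (X / b + 1) H n := by
    intro p hp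
    rw [mem_filter, mem_range] at hp
    unfold blk
    rw [mem_filter, mem_range]
    have h1 : p / b * b ≤ p := Nat.div_mul_le_self p b
    have h2 : p < (p / b + 1) * b := (Nat.div_lt_iff_lt_mul hb).1 (Nat.lt_succ_self _)
    refine ⟨?_, ?_, ?_⟩
    · have : p / b ≤ X / b := Nat.div_le_div_right (by omega)
      omega
    · exact h1.trans hp.2.2.1
    · omega
  rw [card_eq_sum_card_fiberwise hmaps]
  apply sum_le_sum
  intro k _
  unfold Fb
  apply card_le_card
  intro p hp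
  rw [mem_filter, mem_filter] at hp
  rw [mem_filter, mem_range]
  refine ⟨?_, hp.1.2.1, hp.2⟩
  have h2 : p < (p / b + 1) * b := (Nat.div_lt_iff_lt_mul hb).1 (Nat.lt_succ_self _)
  rw [hp.2] at h2
  exact h2

lemma blk_card_le (b M H n : ℕ) (hb : 0 < b) : (blk b M H n).card ≤ H / b + 2 := by
  have hsub : blk b M H n ⊆ Icc (n / b - (H / b + 1)) (n / b) := by
    intro k hk
    unfold blk at hk
    rw [mem_filter, mem_range] at hk
    rw [mem_Icc]
    obtain ⟨-, h1, h2⟩ := hk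
    refine ⟨?_, (Nat.le_div_iff_mul_le hb).2 h1⟩
    have h3 : H < (H / b + 1) * b := (Nat.div_lt_iff_lt_mul hb).1 (Nat.lt_succ_self _)
    have h4 : n / b < k + 1 + (H / b + 1) := by
      rw [Nat.div_lt_iff_lt_mul hb]
      calc n < (k + 1) * b + H := h2
        _ ≤ (k + 1) * b + (H / b + 1) * b := by omega
        _ = (k + 1 + (H / b + 1)) * b := by ring
    generalize n / b = u at *
    generalize H / b = v at *
    omega
  have h5 := card_le_card hsub
  rw [Nat.card_Icc] at h5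
  generalize n / b = u at *
  generalize H / b = v at *
  omega

lemma cnt_sq_le (b X H n : ℕ) (hb : 0 < b) :
    (cnt X H n) ^ 2 ≤ (H / b + 2) * ∑ k ∈ blk b (X / b + 1) H n, (Fb b k) ^ 2 := by
  calc (cnt X H n) ^ 2 ≤ (∑ k ∈ blk b (X / b + 1) H n, Fb b k) ^ 2 :=
        Nat.pow_le_pow_left (cnt_le b X H n hb) 2
    _ ≤ (blk b (X / b + 1) H n).card * ∑ k ∈ blk b (X / b + 1) H n, (Fb b k) ^ 2 :=
        sq_sum_le_card_mul_sum_sq
    _ ≤ _ := Nat.mul_le_mul_right _ (blk_card_le b _ H n hb)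

/-- The second moment of the number of primes in a window. -/
lemma sum_cnt_sq_le (b X H N : ℕ) (hb : 0 < b) :
    ∑ n ∈ range N, (cnt X H n) ^ 2 ≤
      (H / b + 2) * ((b + H) * ∑ k ∈ range (X / b + 1), (Fb b k) ^ 2) := by
  calc ∑ n ∈ range N, (cnt X H n) ^ 2
      ≤ ∑ n ∈ range N, (H / b + 2) * ∑ k ∈ blk b (X / b + 1) H n, (Fb b k) ^ 2 :=
        sum_le_sum fun n _ => cnt_sq_le b X H n hb
    _ = (H / b + 2) * ∑ n ∈ range N, ∑ k ∈ blk b (X / b + 1) H n, (Fb b k) ^ 2 := by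
        rw [mul_sum]
    _ ≤ _ := by
        apply Nat.mul_le_mul_left
        have h1 : ∑ n ∈ range N, ∑ k ∈ blk b (X / b + 1) H n, (Fb b k) ^ 2 =
            ∑ k ∈ range (X / b + 1), ∑ n ∈ (range N).filter
              (fun n => k * b ≤ n ∧ n < (k + 1) * b + H), (Fb b k) ^ 2 := by
          unfold blk
          simp_rw [sum_filter]
          rw [sum_comm]
        rw [h1, mul_sum]
        apply sum_le_sum
        intro k _
        rw [sum_const, smul_eq_mul]
        apply Nat.mul_le_mul_right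
        have h2 : (range N).filter (fun n => k * b ≤ n ∧ n < (k + 1) * b + H) ⊆
            Ico (k * b) ((k + 1) * b + H) := by
          intro n hn
          rw [mem_filter] at hn
          rw [mem_Ico]
          exact hn.2
        have h3 := card_le_card h2
        rw [Nat.card_Ico] at h3
        have h4 : (k + 1) * b + H - k * b = b + H := by
          rw [add_mul, one_mul]
          omega
        omega

/-- Double counting: bad primes against exceptional integers. -/
lemma bad_mul_le (X H : ℕ) (E S : Finset ℕ) (hS : ∀ p ∈ S, p.Prime ∧ p ≤ X)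
    (hE : ∀ p ∈ S, ∀ n, p ≤ n → n ≤ p + H → n ∈ E) :
    S.card * H ≤ ∑ n ∈ E, cnt X H n := by
  have h1 : ∑ n ∈ E, cnt X H n =
      ∑ p ∈ range (X + 1), (E.filter (fun n => p.Prime ∧ p ≤ n ∧ n ≤ p + H)).card := by
    unfold cnt
    simp_rw [card_filter]
    rw [sum_comm]
  rw [h1]
  calc S.card * H = ∑ p ∈ S, H := by rw [sum_const, smul_eq_mul]
    _ ≤ ∑ p ∈ S, (E.filter (fun n => p.Prime ∧ p ≤ n ∧ n ≤ p + H)).card := by
        apply sum_le_sum
        intro p hp
        have h2 : Icc (p + 1) (p + H) ⊆ E.filter (fun n => p.Prime ∧ p ≤ n ∧ n ≤ p + H) := by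
          intro n hn
          rw [mem_Icc] at hn
          rw [mem_filter]
          exact ⟨hE p hp n (by omega) hn.2, (hS p hp).1, by omega, hn.2⟩
        have h3 := card_le_card h2
        rw [Nat.card_Icc] at h3
        omega
    _ ≤ _ := by
        apply sum_le_sum_of_subset
        intro p hp
        rw [mem_range]
        have := (hS p hp).2
        omega

/-- The counting inequality behind the passage to primes. -/
lemma bad_sq_le (b X H N : ℕ) (hb : 0 < b) (E S : Finset ℕ) (hEN : E ⊆ range N)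
    (hS : ∀ p ∈ S, p.Prime ∧ p ≤ X) (hE : ∀ p ∈ S, ∀ n, p ≤ n → n ≤ p + H → n ∈ E) :
    (S.card * H) ^ 2 ≤
      E.card * ((H / b + 2) * ((b + H) * ∑ k ∈ range (X / b + 1), (Fb b k) ^ 2)) := by
  calc (S.card * H) ^ 2
      ≤ (∑ n ∈ E, cnt X H n) ^ 2 := Nat.pow_le_pow_left (bad_mul_le X H E S hS hE) 2
    _ ≤ E.card * ∑ n ∈ E, (cnt X H n) ^ 2 := sq_sum_le_card_mul_sum_sq
    _ ≤ E.card * ∑ n ∈ range N, (cnt X H n) ^ 2 :=
        Nat.mul_le_mul_left _ (sum_le_sum_of_subset hEN)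
    _ ≤ _ := Nat.mul_le_mul_left _ (sum_cnt_sq_le b X H N hb)

/-- A void near `n`, in the notation of runs. -/
lemma hasRun_of_void {lam T : ℝ} {X n H : ℕ} (hlam : 0 ≤ lam) (_hX : 0 ≤ Real.log X)
    (hH : T * Real.log X ≤ H) (hv : VoidNear lam T X n) :
    HasRun n H ⌊lam * Real.log X⌋₊ := by
  obtain ⟨t, h1, h2, h3⟩ := hv
  have hf : ((⌊lam * Real.log X⌋₊ : ℕ) : ℝ) ≤ lam * Real.log X := Nat.floor_le (by positivity)
  refine ⟨t - n, ?_, fun k k1 k2 => h3 (n + k) (by omega) ?_⟩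
  · have h4 : (((t - n : ℕ) : ℝ)) = t - n := by rw [Nat.cast_sub h1]
    have : (((t - n : ℕ) : ℝ)) + ((⌊lam * Real.log X⌋₊ : ℕ) : ℝ) ≤ H := by
      rw [h4]; linarith
    exact_mod_cast this
  · have h5 : n + k ≤ t + ⌊lam * Real.log X⌋₊ := by omega
    have h6 : (((n + k : ℕ) : ℝ)) ≤ t + ((⌊lam * Real.log X⌋₊ : ℕ) : ℝ) := by exact_mod_cast h5
    linarith

/-- PROOF. Let `C` be the constant of `basic_estimates`, `b = ⌈log X⌉`, `F_k = Fb b k` the number of primes in the block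
`[k b, (k + 1) b)`; `∑_{k < M} F_k ^ 2 ≤ C X / b` if `M b ≤ 2 X`.  Apply `ThmI` with `ε' = c ε ^ 2 / C` (at `2 X`, or at
`X'` with `X' ≥ X + 2 b`; the logarithm changes by at most `log 2`, so take `lam' = lam`, and `T` a bit larger) to get `T'`, and put
`T = T' + 10`.  Let `p ≤ X` be a prime without `GapNear lam T X p`, in block `k`.  Then no integer `n` of block `k + 1`
satisfies `VoidNear lam T' X' n`: otherwise, with the run `(t, t + lam log X']`, let `q` be the largest prime `≤ t` (`q ≥ p` as `p ≤ n ≤ t`), `q'`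
the next prime; `q ≤ t ≤ p + 2 b + T' log X' ≤ p + T log X`, `q' > t + lam log X' ≥ q + lam log X`.  So all the `b` integers of block
`k + 1` are exceptional, the number of such `k` is at most `ε' X' / b`, and the number of bad primes is at most the sum of `F_k` over these `k`,
at most `(ε' X' / b) ^ (1/2) (C X / b) ^ (1/2)` by Cauchy-Schwarz. -/
theorem thmG_of_thmI (h : ThmI) : ThmG := by
  classical
  intro lam eps hlam heps
  obtain ⟨c, C, hc, hC, X₁, hX₁⟩ := basic_estimates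
  set e : ℝ := eps ^ 2 / (12 * C) with he
  have he0 : 0 < e := by positivity
  obtain ⟨T₀, hT₀, X₂, hX₂⟩ := h lam e hlam he0
  set T : ℕ := ⌈T₀⌉₊ + 1 with hT
  have hTT : T₀ ≤ T := by
    have := Nat.le_ceil T₀
    rw [hT]; push_cast; linarith
  have hT1 : (1 : ℝ) ≤ T := by rw [hT]; push_cast; linarith [Nat.cast_nonneg (α := ℝ) ⌈T₀⌉₊]
  set D : ℝ := 6 * T + 2 with hD
  have hD0 : 0 < D := by positivity
  obtain ⟨X₃, hX₃⟩ := Filter.eventually_atTop.1 (eventually_log_pow 1 D hD0)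
  obtain ⟨X₄, hX₄⟩ := Filter.eventually_atTop.1
    ((Real.tendsto_log_atTop.comp tendsto_natCast_atTop_atTop).eventually_ge_atTop (1 : ℝ))
  refine ⟨6 * T, by positivity, X₁ + X₂ + X₃ + X₄ + 1, fun X hX => ?_⟩
  obtain ⟨-, -, -, -, hsec⟩ := hX₁ X (by omega)
  have hlog1 : 1 ≤ Real.log X := hX₄ X (by omega)
  have hDX := hX₃ X (by omega)
  rw [pow_one] at hDX
  have hXpos : (0 : ℝ) < X := by exact_mod_cast (by omega : 0 < X)
  set L := Real.log X with hL
  set b := ⌈L⌉₊ with hb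
  have hLb : L ≤ b := Nat.le_ceil _
  have hb1 : (b : ℝ) < L + 1 := Nat.ceil_lt_add_one (by linarith)
  have hb0 : 0 < b := by
    have : (0 : ℝ) < b := by linarith
    exact_mod_cast this
  have hlog2 : Real.log ((2 * X : ℕ) : ℝ) ≤ L + 1 := by
    push_cast
    rw [Real.log_mul (by norm_num) (by linarith)]
    have := Real.log_two_lt_d9
    linarith
  have hlog2' : L ≤ Real.log ((2 * X : ℕ) : ℝ) := by
    push_cast
    rw [Real.log_mul (by norm_num) (by linarith)]
    have := Real.log_two_gt_d9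
    linarith
  set b' := ⌈Real.log ((2 * X : ℕ) : ℝ)⌉₊ with hb'
  have hlb' : Real.log ((2 * X : ℕ) : ℝ) ≤ b' := Nat.le_ceil _
  have hbb' : b ≤ b' := Nat.ceil_mono hlog2'
  have hb'1 : (b' : ℝ) ≤ L + 2 := by
    have := Nat.ceil_lt_add_one (a := Real.log ((2 * X : ℕ) : ℝ)) (by linarith)
    linarith
  set H := T * b' with hH
  have hHb : b ≤ H := by
    have : 1 ≤ T := by omega
    nlinarith
  have hHr : (H : ℝ) ≤ T * (L + 2) := by
    rw [hH]
    push_cast
    gcongr
  have hHr3 : (H : ℝ) ≤ 3 * T * L := by nlinarith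
  have hHX : H < X := by
    have : (H : ℝ) < X := by nlinarith
    exact_mod_cast this
  have hTH : T₀ * Real.log ((2 * X : ℕ) : ℝ) ≤ H := by
    rw [hH]
    push_cast
    have h0 : 0 ≤ Real.log ((2 * X : ℕ) : ℝ) := by linarith
    push_cast at h0 hlb' ⊢
    gcongr
  set E := (range (2 * X)).filter (fun n => ¬ VoidNear lam T₀ (2 * X) n) with hE
  have hEcard : (E.card : ℝ) ≤ e * (2 * X) := by
    have h1 := hX₂ (2 * X) (by omega)
    have h2 : {n : ℕ | n < 2 * X ∧ ¬ VoidNear lam T₀ (2 * X) n} = (E : Set ℕ) := by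
      ext n
      rw [hE, coe_filter]
      simp only [mem_range]
    rw [h2, Set.ncard_coe_finset] at h1
    calc (E.card : ℝ) ≤ e * ((2 * X : ℕ) : ℝ) := h1
      _ = e * (2 * X) := by push_cast; ring
  set S := (range (X + 1)).filter (fun p => p.Prime ∧ ¬ GapNear lam (6 * T) X p) with hS
  have hSc : {p : ℕ | p ≤ X ∧ p.Prime ∧ ¬ GapNear lam (6 * T) X p} = (S : Set ℕ) := by
    ext n
    rw [hS, coe_filter]
    simp only [mem_range, Nat.lt_succ_iff]
  rw [hSc, Set.ncard_coe_finset]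
  have key := bad_sq_le b X H (2 * X) hb0 E S (filter_subset _ _) (by
    intro p hp
    rw [hS, mem_filter, mem_range] at hp
    exact ⟨hp.2.1, by omega⟩) (by
    intro p hpS n h1 h2
    rw [hS, mem_filter, mem_range] at hpS
    obtain ⟨hpX, hp, hPp⟩ := hpS
    rw [hE, mem_filter, mem_range]
    refine ⟨by omega, fun hr => hPp ?_⟩
    have hr' := hasRun_of_void hlam.le (by linarith) hTH hr
    obtain ⟨k, k1, k2, k3⟩ := gap_of_run hp h1 h2 hr'
    refine ⟨k, k1, ?_, ?_⟩
    · have : (Nat.nth Nat.Prime k : ℝ) ≤ p + 2 * H := by exact_mod_cast k2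
      linarith
    · have h4 : (Nat.nth Nat.Prime k : ℝ) + ((⌊lam * Real.log ((2 * X : ℕ) : ℝ)⌋₊ : ℕ) : ℝ) + 1 ≤
          Nat.nth Nat.Prime (k + 1) := by
        exact_mod_cast k3
      have h5 := Nat.lt_floor_add_one (lam * Real.log ((2 * X : ℕ) : ℝ))
      have h6 : lam * L ≤ lam * Real.log ((2 * X : ℕ) : ℝ) := by gcongr
      linarith)
  set B := S.card with hB
  have hMb : (X / b + 1) * b ≤ 2 * X := by
    have h1 : X / b * b ≤ X := Nat.div_mul_le_self X b
    rw [add_mul, one_mul]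
    have : b ≤ X := by omega
    omega
  have hS' := hsec (X / b + 1) hMb
  have hbr : (0 : ℝ) < b := by exact_mod_cast hb0
  have hHbr : (b : ℝ) ≤ H := by exact_mod_cast hHb
  have hHpos : (0 : ℝ) < H := by linarith
  have key2 : ((B : ℝ) * H) ^ 2 ≤
      (e * (2 * X)) * ((3 * (H / b)) * ((2 * H) * (C * X / b))) := by
    have h1 : ((B : ℝ) * H) ^ 2 ≤ (E.card : ℝ) * (((H / b : ℕ) + 2) * ((b + H) *
        ∑ k ∈ range (X / b + 1), ((Fb b k : ℕ) : ℝ) ^ 2)) := by exact_mod_cast key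
    refine h1.trans ?_
    have h2 : ((H / b : ℕ) : ℝ) ≤ (H : ℝ) / b := Nat.cast_div_le
    have h3 : (1 : ℝ) ≤ (H : ℝ) / b := by rw [le_div_iff₀ hbr]; linarith
    have h4 : (((H / b : ℕ) : ℝ) + 2) ≤ 3 * ((H : ℝ) / b) := by linarith
    have h5 : (0 : ℝ) ≤ ∑ k ∈ range (X / b + 1), ((Fb b k : ℕ) : ℝ) ^ 2 := by positivity
    gcongr
    linarith
  have key3 : (B : ℝ) ^ 2 ≤ (eps * X / b) ^ 2 := by
    have h1 : ((B : ℝ) * H) ^ 2 ≤ (eps * X / b) ^ 2 * (H : ℝ) ^ 2 := by
      refine key2.trans (le_of_eq ?_)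
      rw [he]
      field_simp
      ring
    rw [mul_pow] at h1
    exact le_of_mul_le_mul_right h1 (by positivity)
  have key4 : (B : ℝ) ≤ eps * X / b := by
    exact (sq_le_sq₀ (by positivity) (by positivity)).1 key3
  refine key4.trans ?_
  gcongr

end Pool.Agent.H.MP_711652_nt.G2
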