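import Pool.Agent.H.MP_711652_nt.G2.CoreP
import Pool.Agent.H.MP_711652_nt.G2.Pri

/-!
# Theorem I and Theorem G
-/

set_option autoImplicit false

namespace Pool.Agent.H.MP_711652_nt.G2

/-- Theorem I. -/
theorem thmI : ThmI := thmI_of_core core

/-- Theorem G. -/
theorem thmG : ThmG := thmG_of_thmI thmI

end Pool.Agent.H.MP_711652_nt.G2
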