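import Pool.Agent.H.MP_711652_nt.G2.NumC

/-!
# GAP3, NumD: the numerical hypotheses with growing parameters (helper55)
-/

set_option autoImplicit false

namespace Pool.Agent.H.MP_711652_nt.G2

open Filter Real

/-- eventually in `X`, a statement about `log X` -/
theorem nd_ev {p : ℝ → Prop} (h : ∀ᶠ L : ℝ in atTop, p L) : ∀ᶠ X : ℕ in atTop, p (Real.log X) :=
  num_log_tendsto.eventually h

theorem nd_ev_log {p : ℝ → Prop} (h : ∀ᶠ l : ℝ in atTop, p l) :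
    ∀ᶠ L : ℝ in atTop, p (Real.log L) := Real.tendsto_log_atTop.eventually h

/-- `C l ≤ exp (η l)` -/
theorem nd_lin_exp (C η : ℝ) (hη : 0 < η) : ∀ᶠ l : ℝ in atTop, C * l ≤ Real.exp (η * l) := by
  filter_upwards [eventually_ge_atTop 0, eventually_ge_atTop (2 * |C| / η ^ 2)] with l h0 h1
  have h2 := Real.quadratic_le_exp_of_nonneg (show 0 ≤ η * l by positivity)
  have h3 : 0 ≤ η * l := by positivity
  have h4 : |C| ≤ η ^ 2 / 2 * l := by
    rw [div_le_iff₀ (by positivity)] at h1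
    linarith
  have h5 : |C| * l ≤ η ^ 2 / 2 * l * l := mul_le_mul_of_nonneg_right h4 h0
  have h6 : C * l ≤ |C| * l := mul_le_mul_of_nonneg_right (le_abs_self C) h0
  have h7 : (η * l) ^ 2 / 2 = η ^ 2 / 2 * l * l := by ring
  linarith

/-- `C l ^ k ≤ exp (η l)` -/
theorem nd_pow_exp (C : ℝ) (k : ℕ) (η : ℝ) (hη : 0 < η) :
    ∀ᶠ l : ℝ in atTop, C * l ^ k ≤ Real.exp (η * l) := by
  have h := (isLittleO_pow_exp_pos_mul_atTop k hη).bound
    (show (0 : ℝ) < 1 / (|C| + 1) by positivity)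
  filter_upwards [h, eventually_ge_atTop 0] with l h1 h0
  have h6 : 0 ≤ l ^ k := pow_nonneg h0 k
  rw [Real.norm_of_nonneg h6, Real.norm_of_nonneg (Real.exp_pos _).le] at h1
  have h7 : (|C| + 1) * l ^ k ≤ Real.exp (η * l) := by
    calc (|C| + 1) * l ^ k ≤ (|C| + 1) * (1 / (|C| + 1) * Real.exp (η * l)) :=
          mul_le_mul_of_nonneg_left h1 (by positivity)
      _ = Real.exp (η * l) := by field_simp
  have h8 : C * l ^ k ≤ (|C| + 1) * l ^ k :=
    mul_le_mul_of_nonneg_right (by linarith [le_abs_self C]) h6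
  exact h8.trans h7

/-- powers of `L` as exponentials of `log L` -/
theorem nd_rpow {L : ℝ} (hL : 0 < L) (η : ℝ) : L ^ η = Real.exp (η * Real.log L) := by
  rw [Real.rpow_def_of_pos hL, mul_comm]

/-- `C L ^ k exp (L ^ (1/20)) ≤ exp (L ^ (9/10))` -/
theorem nd_big (C : ℝ) (k : ℕ) : ∀ᶠ L : ℝ in atTop,
    C * L ^ k * Real.exp (L ^ (1 / 20 : ℝ)) ≤ Real.exp (L ^ (9 / 10 : ℝ)) := by
  have h1 : Tendsto (fun L : ℝ => L ^ (1 / 2 : ℝ)) atTop atTop := tendsto_rpow_atTop (by norm_num)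
  have h2 := h1.eventually (nd_pow_exp |C| (2 * k) 1 one_pos)
  have h3 : Tendsto (fun L : ℝ => L ^ (2 / 5 : ℝ)) atTop atTop := tendsto_rpow_atTop (by norm_num)
  filter_upwards [h2, h3.eventually_ge_atTop 2, eventually_ge_atTop 1] with L e1 e2 e3
  have hL : 0 < L := by linarith
  have e4 : (L ^ (1 / 2 : ℝ)) ^ (2 * k) = L ^ k := by
    rw [← Real.rpow_natCast, ← Real.rpow_mul hL.le, ← Real.rpow_natCast]
    congr 1
    push_cast
    ring
  rw [e4, one_mul] at e1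
  have e5 : C * L ^ k ≤ Real.exp (L ^ (1 / 2 : ℝ)) :=
    (mul_le_mul_of_nonneg_right (le_abs_self C) (by positivity)).trans e1
  have e6 : L ^ (1 / 20 : ℝ) ≤ L ^ (1 / 2 : ℝ) :=
    Real.rpow_le_rpow_of_exponent_le e3 (by norm_num)
  have e7 : 2 * L ^ (1 / 2 : ℝ) ≤ L ^ (9 / 10 : ℝ) := by
    have e8 : L ^ (9 / 10 : ℝ) = L ^ (2 / 5 : ℝ) * L ^ (1 / 2 : ℝ) := by
      rw [← Real.rpow_add hL]
      norm_num
    rw [e8]
    exact mul_le_mul_of_nonneg_right e2 (by positivity)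
  calc C * L ^ k * Real.exp (L ^ (1 / 20 : ℝ)) ≤
        Real.exp (L ^ (1 / 2 : ℝ)) * Real.exp (L ^ (1 / 20 : ℝ)) :=
        mul_le_mul_of_nonneg_right e5 (Real.exp_pos _).le
    _ = Real.exp (L ^ (1 / 2 : ℝ) + L ^ (1 / 20 : ℝ)) := by rw [Real.exp_add]
    _ ≤ Real.exp (L ^ (9 / 10 : ℝ)) := Real.exp_le_exp.2 (by linarith)

/-- `v` and `R v` -/
theorem nd_Rv {R L l a A' lD lz : ℝ} {A1 : ℕ} (hA : 0 ≤ A') (ha : 0 < a) (hL : 0 < L) (hl : 0 < l)
    (hR : R ≤ A' * L / l) (hlD0 : 0 ≤ lD) (hlD : lD ≤ (A1 + 1) * l)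
    (hlz : a * L / 2 ≤ lz) : R * (12 * (lD / lz)) ≤ 24 * (A1 + 1) * A' / a := by
  have hlz0 : 0 < a * L / 2 := by positivity
  have h1 : lD / lz ≤ (A1 + 1) * l / (a * L / 2) :=
    div_le_div₀ (by positivity) hlD hlz0 hlz
  have h2 : 12 * (lD / lz) ≤ 12 * ((A1 + 1) * l / (a * L / 2)) := by linarith
  have h3 : 0 ≤ 12 * (lD / lz) := by
    have : 0 ≤ lD / lz := div_nonneg hlD0 (hlz0.le.trans hlz)
    linarith
  calc R * (12 * (lD / lz)) ≤ A' * L / l * (12 * ((A1 + 1) * l / (a * L / 2))) :=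
        mul_le_mul hR h2 h3 (by positivity)
    _ = 24 * (A1 + 1) * A' / a := by
        field_simp
        ring

/-- the exponent in the tilt -/
theorem nd_expo {Rv c lB L V a b n y G : ℝ} (hV : 0 ≤ G) (ha : 0 < a) (hb : 0 < b) (hL : 0 < L)
    (hn : 0 < n) (hRv : Rv ≤ V) (hVG : V = G * n / a) (hc : c ≤ 8 * Real.exp 21 * (a * L) / n)
    (hc0 : 0 ≤ c) (hlB : b * L / 2 ≤ lB) (hG : 64 * Real.exp 21 * G ≤ y) :
    Rv * (2 * (1 / lB) * c) ≤ y / (2 * b) := by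
  have hlB0 : 0 < b * L / 2 := by positivity
  have h1 : 1 / lB ≤ 1 / (b * L / 2) := one_div_le_one_div_of_le hlB0 hlB
  have h2 : 0 ≤ 1 / lB := one_div_nonneg.2 (hlB0.le.trans hlB)
  have h3 : 2 * (1 / lB) * c ≤ 2 * (1 / (b * L / 2)) * (8 * Real.exp 21 * (a * L) / n) :=
    mul_le_mul (by linarith) hc hc0 (by positivity)
  have h4 : 0 ≤ 2 * (1 / lB) * c := by positivity
  have h5 : 0 ≤ G * n / a := by positivity
  rw [hVG] at hRv
  calc Rv * (2 * (1 / lB) * c) ≤ G * n / a * (2 * (1 / (b * L / 2)) *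
        (8 * Real.exp 21 * (a * L) / n)) := mul_le_mul hRv h3 h4 h5
    _ = 64 * Real.exp 21 * G / (2 * b) := by
        field_simp
        ring
    _ ≤ y / (2 * b) := div_le_div_of_nonneg_right hG (by positivity)

end Pool.Agent.H.MP_711652_nt.G2
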