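import Pool.Agent.H.MP_711652_nt.G2.NumD
import Pool.Agent.H.MP_711652_nt.G2.NumBig

/-!
# GAP3, NumE: the choice of the growing parameters (helper55)
-/

set_option autoImplicit false

namespace Pool.Agent.H.MP_711652_nt.G2

open Filter Real

/-- sizes of the parameters: `n`, `E = n + A l + 1`, `E1 = E 2 ^ n` -/
theorem ne_sizes {A n : ℕ} {l u E : ℝ} (hl : 1000 ≤ l) (hE : E = n + A * l + 1)
    (hnu : (n : ℝ) ≤ u / 12) (hul : u ≤ l / 20) (hlu : 3 * Real.log l ≤ u)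
    (h3 : 1600000 * ((A : ℝ) + 2) * l ≤ Real.exp (1 / 1200 * l)) :
    1 ≤ E ∧ E ≤ (A + 2) * l ∧ (n : ℝ) ≤ E ∧ E ≤ Real.exp (1 / 1200 * l) ∧
    (2 : ℝ) ^ n ≤ Real.exp (u / 12) ∧
    1600000 * (E * 2 ^ n) ≤ Real.exp (l / 200) ∧ 1 ≤ E * 2 ^ n ∧
    E * 2 ^ n ≤ (A + 2) * Real.exp (5 * u / 12) ∧
    n * E * 2 ^ n ≤ (E * 2 ^ n) ^ 2 ∧ n * E * 2 ^ n ≤ Real.exp l := by
  have hA : (0 : ℝ) ≤ A := Nat.cast_nonneg A
  have hn0 : (0 : ℝ) ≤ n := Nat.cast_nonneg n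
  have hAl : 0 ≤ A * l := by positivity
  have e1 : 1 ≤ E := by
    rw [hE]
    linarith
  have e2 : E ≤ (A + 2) * l := by
    rw [hE]
    have : ((A : ℝ) + 2) * l = A * l + 2 * l := by ring
    linarith
  have e3 : (n : ℝ) ≤ E := by
    rw [hE]
    linarith
  have e4 : E ≤ Real.exp (1 / 1200 * l) := by
    have h5 : 0 ≤ ((A : ℝ) + 2) * l := by positivity
    have h6 : 1600000 * ((A : ℝ) + 2) * l = 1600000 * (((A : ℝ) + 2) * l) := by ring
    linarith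
  have e5 : (2 : ℝ) ^ n ≤ Real.exp (u / 12) := num_two_pow hnu
  have h20 : (0 : ℝ) < 2 ^ n := by positivity
  have h21 : (1 : ℝ) ≤ 2 ^ n := one_le_pow₀ (by norm_num)
  have e6 : 1600000 * (E * 2 ^ n) ≤ Real.exp (l / 200) := by
    have h7 : (2 : ℝ) ^ n ≤ Real.exp (l / 240) :=
      e5.trans (Real.exp_le_exp.2 (by linarith))
    have h8 : 1600000 * E ≤ Real.exp (1 / 1200 * l) := by
      have h6 : 1600000 * ((A : ℝ) + 2) * l = 1600000 * (((A : ℝ) + 2) * l) := by ring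
      linarith
    calc 1600000 * (E * 2 ^ n) = (1600000 * E) * 2 ^ n := by ring
      _ ≤ Real.exp (1 / 1200 * l) * Real.exp (l / 240) :=
          mul_le_mul h8 h7 h20.le (Real.exp_pos _).le
      _ = Real.exp (l / 200) := by
          rw [← Real.exp_add]
          congr 1
          ring
  have e7 : 1 ≤ E * 2 ^ n := by
    calc (1 : ℝ) = 1 * 1 := by norm_num
      _ ≤ E * 2 ^ n := mul_le_mul e1 h21 zero_le_one (by linarith)
  have e8 : E * 2 ^ n ≤ (A + 2) * Real.exp (5 * u / 12) := by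
    have h9 : l ≤ Real.exp (u / 3) := by
      have h10 : Real.log l ≤ u / 3 := by linarith
      calc l = Real.exp (Real.log l) := (Real.exp_log (by linarith)).symm
        _ ≤ _ := Real.exp_le_exp.2 h10
    calc E * 2 ^ n ≤ ((A + 2) * l) * Real.exp (u / 12) :=
          mul_le_mul e2 e5 h20.le (by positivity)
      _ ≤ ((A + 2) * Real.exp (u / 3)) * Real.exp (u / 12) :=
          mul_le_mul_of_nonneg_right (mul_le_mul_of_nonneg_left h9 (by positivity))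
            (Real.exp_pos _).le
      _ = (A + 2) * Real.exp (5 * u / 12) := by
          rw [mul_assoc, ← Real.exp_add]
          congr 2
          ring
  have e9 : n * E * 2 ^ n ≤ (E * 2 ^ n) ^ 2 := by
    calc (n : ℝ) * E * 2 ^ n ≤ E * E * (2 ^ n * 2 ^ n) := by
          refine mul_le_mul (mul_le_mul_of_nonneg_right e3 (by linarith)) ?_ h20.le
            (mul_nonneg (by linarith) (by linarith))
          exact le_mul_of_one_le_left h20.le h21
      _ = (E * 2 ^ n) ^ 2 := by ring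
  refine ⟨e1, e2, e3, e4, e5, e6, e7, e8, e9, ?_⟩
  have e10 : E * 2 ^ n ≤ Real.exp (l / 200) := by
    have : 0 ≤ E * 2 ^ n := by linarith
    linarith
  calc (n : ℝ) * E * 2 ^ n ≤ (E * 2 ^ n) ^ 2 := e9
    _ ≤ Real.exp (l / 200) ^ 2 := pow_le_pow_left₀ (by linarith) e10 2
    _ = Real.exp (2 * (l / 200)) := by rw [← Real.exp_nat_mul]; norm_num
    _ ≤ Real.exp l := Real.exp_le_exp.2 (by linarith)

/-- the main small quantity -/
theorem ne_theta {A n : ℕ} {l E : ℝ} (hA : 1 ≤ A) (hl : 1000 ≤ l) (hE : E = n + A * l + 1)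
    (h1 : 1 ≤ E) (h2 : (n : ℝ) ≤ E) :
    n * E * 2 ^ n * Real.exp (2 - 4 * E) ≤ Real.exp (-(A * l)) / 48 := by
  have hn0 : (0 : ℝ) ≤ n := Nat.cast_nonneg n
  have hA1 : (1 : ℝ) ≤ A := by exact_mod_cast hA
  have e1 : E * E ≤ 2 * Real.exp E := by
    have := Real.quadratic_le_exp_of_nonneg (show 0 ≤ E by linarith)
    nlinarith
  have e2 : (2 : ℝ) ^ n ≤ Real.exp n := num_two_pow le_rfl
  have e3 : n * E * 2 ^ n ≤ 2 * Real.exp E * Real.exp n := by
    refine mul_le_mul ((mul_le_mul_of_nonneg_right h2 (by linarith)).trans e1) e2 (by positivity)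
      (by positivity)
  have e4 : n * E * 2 ^ n * Real.exp (2 - 4 * E) ≤
      2 * Real.exp E * Real.exp n * Real.exp (2 - 4 * E) :=
    mul_le_mul_of_nonneg_right e3 (Real.exp_pos _).le
  have e5 : 2 * Real.exp E * Real.exp n * Real.exp (2 - 4 * E) =
      2 * Real.exp (n + 2 - 3 * E) := by
    rw [mul_assoc, mul_assoc, ← Real.exp_add, ← Real.exp_add]
    congr 2
    ring
  have hAl : 1000 ≤ A * l := by nlinarith
  have e6 : Real.exp (n + 2 - 3 * E) ≤ Real.exp (-(A * l) - 100) :=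
    Real.exp_le_exp.2 (by rw [hE]; linarith)
  have e7 : Real.exp (-(A * l) - 100) = Real.exp (-(A * l)) * Real.exp (-100) := by
    rw [← Real.exp_add]
    congr 1
  have e8 : Real.exp (-100 : ℝ) ≤ 1 / 100 := by
    rw [Real.exp_neg, ← one_div]
    have := Real.add_one_le_exp (100 : ℝ)
    exact one_div_le_one_div_of_le (by norm_num) (by linarith)
  have e9 : 0 < Real.exp (-(A * l)) := Real.exp_pos _
  have e10 : Real.exp (-(A * l)) * Real.exp (-100) ≤ Real.exp (-(A * l)) * (1 / 100) :=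
    mul_le_mul_of_nonneg_left e8 e9.le
  rw [e5] at e4
  linarith

/-- `C4 ≤ exp (h / 3)` -/
theorem ne_C4 {A K Om : ℕ} {u h E1 V : ℝ} (hh : h = Real.exp u) (hE1 : 1 ≤ E1)
    (hE2 : E1 ≤ (A + 2) * Real.exp (5 * u / 12)) (hK : (K : ℝ) ≤ 17 * E1)
    (hOm : (Om : ℝ) ≤ 1600000 * E1) (hV : V ≤ E1 ^ 2)
    (hu : 6 * Real.log (600000000 * ((A : ℝ) + 2) ^ 2) ≤ u) :
    2 * (16 * 2 ^ (Om + 1)) ^ (4 * K) * Real.exp V ≤ Real.exp (h / 3) := by
  have e1 : (16 : ℝ) * 2 ^ (Om + 1) = 2 ^ (Om + 5) := by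
    ring
  have e2 : (2 : ℝ) * (2 ^ (Om + 5)) ^ (4 * K) = 2 ^ (1 + (Om + 5) * (4 * K)) := by
    rw [← pow_mul, pow_add, pow_one]
  rw [e1, e2]
  have e3 : (((1 + (Om + 5) * (4 * K) : ℕ)) : ℝ) ≤ 1 + 1600005 * E1 * (68 * E1) := by
    push_cast
    have h1 : (Om : ℝ) + 5 ≤ 1600005 * E1 := by linarith
    have h2 : 4 * (K : ℝ) ≤ 68 * E1 := by linarith
    have h3 := mul_le_mul h1 h2 (by positivity) (by linarith)
    linarith
  have e4 := num_two_pow e3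
  have e5 : (2 : ℝ) ^ (1 + (Om + 5) * (4 * K)) * Real.exp V ≤
      Real.exp (1 + 1600005 * E1 * (68 * E1)) * Real.exp (E1 ^ 2) :=
    mul_le_mul e4 (Real.exp_le_exp.2 hV) (Real.exp_pos _).le (Real.exp_pos _).le
  refine e5.trans ?_
  rw [← Real.exp_add]
  apply Real.exp_le_exp.2
  have e6 : 1 + 1600005 * E1 * (68 * E1) + E1 ^ 2 ≤ 200000000 * E1 ^ 2 := by
    have : 1 ≤ E1 ^ 2 := one_le_pow₀ hE1
    nlinarith
  have e7 : E1 ^ 2 ≤ ((A + 2) * Real.exp (5 * u / 12)) ^ 2 := pow_le_pow_left₀ (by linarith) hE2 2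
  have e8 : (((A : ℝ) + 2) * Real.exp (5 * u / 12)) ^ 2 = ((A : ℝ) + 2) ^ 2 * Real.exp (5 * u / 6) := by
    rw [mul_pow, ← Real.exp_nat_mul]
    congr 2
    push_cast
    ring
  have e9 : 600000000 * ((A : ℝ) + 2) ^ 2 ≤ Real.exp (u / 6) := by
    have h1 : Real.log (600000000 * ((A : ℝ) + 2) ^ 2) ≤ u / 6 := by linarith
    calc 600000000 * ((A : ℝ) + 2) ^ 2 =
          Real.exp (Real.log (600000000 * ((A : ℝ) + 2) ^ 2)) :=
          (Real.exp_log (by positivity)).symm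
      _ ≤ _ := Real.exp_le_exp.2 h1
  have e10 : Real.exp u = Real.exp (u / 6) * Real.exp (5 * u / 6) := by
    rw [← Real.exp_add]
    congr 1
    ring
  have e11 : 600000000 * ((A : ℝ) + 2) ^ 2 * Real.exp (5 * u / 6) ≤ h := by
    rw [hh, e10]
    exact mul_le_mul_of_nonneg_right e9 (Real.exp_pos _).le
  rw [e8] at e7
  linarith

/-- lower bound for powers of the floor with growing exponent -/
theorem ne_pow_gt {X k : ℕ} {a β C : ℝ} (hX : 0 < X) (h2 : 2 ≤ (X : ℝ) ^ a)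
    (hC : C * Real.exp (k : ℝ) < Real.exp ((a * k - β) * Real.log X)) :
    C * (X : ℝ) ^ β < (⌊(X : ℝ) ^ a⌋₊ : ℝ) ^ k := by
  obtain ⟨e1, -, -, -, -⟩ := num_floor h2 hX
  have hX0 : (0 : ℝ) < X := by exact_mod_cast hX
  have h4 : ((X : ℝ) ^ a / 2) ^ k ≤ (⌊(X : ℝ) ^ a⌋₊ : ℝ) ^ k :=
    pow_le_pow_left₀ (by positivity) e1 k
  refine lt_of_lt_of_le ?_ h4
  rw [div_pow, lt_div_iff₀ (by positivity)]
  have h5 : ((X : ℝ) ^ a) ^ k = (X : ℝ) ^ (a * k - β) * (X : ℝ) ^ β := by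
    rw [← Real.rpow_add hX0, ← Real.rpow_natCast, ← Real.rpow_mul hX0.le]
    congr 1
    ring
  rw [h5]
  have h6 : (0 : ℝ) < (X : ℝ) ^ β := Real.rpow_pos_of_pos hX0 β
  have h7 : (2 : ℝ) ^ k ≤ Real.exp k := num_two_pow le_rfl
  rcases le_or_gt C 0 with hC0 | hC0
  · have h8 : C * (X : ℝ) ^ β * 2 ^ k ≤ 0 :=
      mul_nonpos_of_nonpos_of_nonneg (mul_nonpos_of_nonpos_of_nonneg hC0 h6.le) (by positivity)
    have h9 : 0 < (X : ℝ) ^ (a * k - β) * (X : ℝ) ^ β := by positivity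
    linarith
  · have h8 : C * 2 ^ k ≤ C * Real.exp k := mul_le_mul_of_nonneg_left h7 hC0.le
    rw [num_rpow_eq hX (a * k - β)]
    calc C * (X : ℝ) ^ β * 2 ^ k = (C * 2 ^ k) * (X : ℝ) ^ β := by ring
      _ < Real.exp ((a * k - β) * Real.log X) * (X : ℝ) ^ β :=
          mul_lt_mul_of_pos_right (lt_of_le_of_lt h8 hC) h6

/-- the threshold for `q` -/
theorem ne_G {A K Om : ℕ} {L Ex V C4 q : ℝ} (hL : 1 ≤ L) (hEx : 1 ≤ Ex) (hK : (K : ℝ) ≤ L)
    (hK1 : 1 ≤ K) (hOm : (Om : ℝ) ≤ L) (hV : V ≤ L) (hC40 : 0 ≤ C4) (hC4 : C4 ≤ Ex)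
    (hq : 1000000 * L ^ (2 * A + 6) * Ex ≤ q) {ε : ℝ} (hε : ε = 1 / (12 * L ^ A)) :
    4 ≤ q ∧ 32 * K / q ≤ ε / 10 ∧ V * ((4 * (K : ℝ) ^ 2 + 8 * K) / q) ≤ ε / 4 ∧
      (1 + 10 / ε) * (((2 * Om + 2) ^ 2 / q) * (K : ℝ) ^ 4 * C4) ≤ ε / 10 := by
  have hP : ∀ k : ℕ, 1 ≤ L ^ k := fun k => one_le_pow₀ hL
  have hP0 : ∀ k : ℕ, 0 < L ^ k := fun k => lt_of_lt_of_le one_pos (hP k)
  have hLA := hP0 A
  have hq1 : 1000000 * L ^ (2 * A + 6) ≤ q := by
    refine le_trans ?_ hq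
    exact le_mul_of_one_le_right (by positivity) hEx
  have hq2 : 1000000 ≤ q := by
    have := hP (2 * A + 6)
    linarith
  have hq0 : 0 < q := by linarith
  have hK0 : (0 : ℝ) ≤ K := Nat.cast_nonneg K
  have hO0 : (0 : ℝ) ≤ Om := Nat.cast_nonneg Om
  have hL0 : 0 < L := by linarith
  refine ⟨by linarith, ?_, ?_, ?_⟩
  · rw [hε, div_div, div_le_div_iff₀ hq0 (by positivity), one_mul]
    have h1 : L ^ A * L ≤ L ^ (2 * A + 6) := by
      rw [← pow_succ]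
      exact pow_le_pow_right₀ hL (by omega)
    calc 32 * (K : ℝ) * (12 * L ^ A * 10) = 3840 * (L ^ A * K) := by ring
      _ ≤ 3840 * (L ^ A * L) := by
          exact mul_le_mul_of_nonneg_left (mul_le_mul_of_nonneg_left hK hLA.le) (by norm_num)
      _ ≤ 3840 * L ^ (2 * A + 6) := mul_le_mul_of_nonneg_left h1 (by norm_num)
      _ ≤ q := by
          have := hP0 (2 * A + 6)
          linarith
  · rw [hε, div_div, mul_div_assoc', div_le_div_iff₀ hq0 (by positivity), one_mul]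
    have h1 : L ^ A * L ^ 3 ≤ L ^ (2 * A + 6) := by
      rw [← pow_add]
      exact pow_le_pow_right₀ hL (by omega)
    have h2 : (K : ℝ) ^ 2 ≤ L ^ 2 := pow_le_pow_left₀ hK0 hK 2
    have h3 : (K : ℝ) ≤ L ^ 2 := hK.trans (le_self_pow₀ hL (by norm_num))
    have h4 : 4 * (K : ℝ) ^ 2 + 8 * K ≤ 12 * L ^ 2 := by linarith
    calc V * (4 * (K : ℝ) ^ 2 + 8 * K) * (12 * L ^ A * 4) ≤
          L * (12 * L ^ 2) * (12 * L ^ A * 4) :=
          mul_le_mul_of_nonneg_right (mul_le_mul hV h4 (by positivity) hL0.le) (by positivity)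
      _ = 576 * (L ^ A * L ^ 3) := by ring
      _ ≤ 576 * L ^ (2 * A + 6) := mul_le_mul_of_nonneg_left h1 (by norm_num)
      _ ≤ q := by
          have := hP0 (2 * A + 6)
          linarith
  · have h5 : (1 + 10 / ε) ≤ 121 * L ^ A := by
      rw [hε]
      have : (10 : ℝ) / (1 / (12 * L ^ A)) = 120 * L ^ A := by
        field_simp
        norm_num
      rw [this]
      have := hP A
      linarith
    have h6 : (2 * (Om : ℝ) + 2) ^ 2 ≤ (4 * L) ^ 2 :=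
      pow_le_pow_left₀ (by positivity) (by linarith) 2
    have h7 : (K : ℝ) ^ 4 ≤ L ^ 4 := pow_le_pow_left₀ hK0 hK 4
    have h8 : ((2 * (Om : ℝ) + 2) ^ 2 / q) * (K : ℝ) ^ 4 * C4 ≤ ((4 * L) ^ 2 / q) * L ^ 4 * Ex := by
      refine mul_le_mul (mul_le_mul (div_le_div_of_nonneg_right h6 hq0.le) h7 (by positivity)
        (by positivity)) hC4 hC40 (by positivity)
    have h9 : (1 + 10 / ε) * (((2 * Om + 2) ^ 2 / q) * (K : ℝ) ^ 4 * C4) ≤
        121 * L ^ A * (((4 * L) ^ 2 / q) * L ^ 4 * Ex) :=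
      mul_le_mul h5 h8 (by positivity) (by positivity)
    refine h9.trans ?_
    rw [hε, div_div]
    have h10 : 121 * L ^ A * (((4 * L) ^ 2 / q) * L ^ 4 * Ex) =
        (1936 * (L ^ A * L ^ 6) * Ex) / q := by
      field_simp
      ring
    rw [h10, div_le_div_iff₀ hq0 (by positivity), one_mul]
    have h11 : L ^ A * L ^ 6 * L ^ A = L ^ (2 * A + 6) := by
      rw [← pow_add, ← pow_add]
      congr 1
      ring
    calc 1936 * (L ^ A * L ^ 6) * Ex * (12 * L ^ A * 10) =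
          232320 * (L ^ A * L ^ 6 * L ^ A) * Ex := by ring
      _ = 232320 * L ^ (2 * A + 6) * Ex := by rw [h11]
      _ ≤ 1000000 * L ^ (2 * A + 6) * Ex := by
          refine mul_le_mul_of_nonneg_right ?_ (by linarith)
          have := hP0 (2 * A + 6)
          linarith
      _ ≤ q := hq

end Pool.Agent.H.MP_711652_nt.G2
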