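import Pool.Agent.H.MP_711652_nt.G2.StmtD
import Pool.Agent.H.MP_711652_nt.G2.NumE

/-!
# GAP3, NumG: the numerical hypotheses for the general core, first part (helper55)
-/

set_option autoImplicit false

namespace Pool.Agent.H.MP_711652_nt.G2

open Filter Real

/-- `L` is large. -/
structure EvL (A A₁ : ℕ) (L : ℝ) : Prop where
  L1 : 10000000000000000 ≤ L
  l1 : 1000 ≤ Real.log L
  sz : 6400000 * L ^ (11 / 500 : ℝ) * L ^ (9 / 10 : ℝ) ≤ L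
  big : 100000000 * L ^ (2 * A + 6) * Real.exp (L ^ (1 / 20 : ℝ)) ≤ Real.exp (L ^ (9 / 10 : ℝ))
  bigD : 4 * L ^ A₁ ≤ Real.exp (L ^ (9 / 10 : ℝ))
  bigE : 10000 * L ^ A ≤ Real.exp (7 / 10 * L)

theorem ev_EvL (A A₁ : ℕ) : ∀ᶠ L : ℝ in atTop, EvL A A₁ L := by
  have h1 : ∀ᶠ L : ℝ in atTop, 6400000 * L ^ (11 / 500 : ℝ) * L ^ (9 / 10 : ℝ) ≤ L := by
    have h2 : Tendsto (fun L : ℝ => L ^ (39 / 500 : ℝ)) atTop atTop :=
      tendsto_rpow_atTop (by norm_num)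
    filter_upwards [h2.eventually_ge_atTop 6400000, eventually_ge_atTop 1] with L h3 h4
    have hL : 0 < L := by linarith
    have h5 : L = L ^ (39 / 500 : ℝ) * (L ^ (11 / 500 : ℝ) * L ^ (9 / 10 : ℝ)) := by
      rw [← Real.rpow_add hL, ← Real.rpow_add hL]
      norm_num
    have h6 : 0 ≤ L ^ (11 / 500 : ℝ) * L ^ (9 / 10 : ℝ) := by positivity
    calc 6400000 * L ^ (11 / 500 : ℝ) * L ^ (9 / 10 : ℝ) =
          6400000 * (L ^ (11 / 500 : ℝ) * L ^ (9 / 10 : ℝ)) := by ring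
      _ ≤ L ^ (39 / 500 : ℝ) * (L ^ (11 / 500 : ℝ) * L ^ (9 / 10 : ℝ)) :=
          mul_le_mul_of_nonneg_right h3 h6
      _ = L := h5.symm
  have h4 : ∀ᶠ L : ℝ in atTop, 4 * L ^ A₁ ≤ Real.exp (L ^ (9 / 10 : ℝ)) := by
    filter_upwards [nd_big 4 A₁, eventually_ge_atTop 0] with L hL hL0
    refine le_trans ?_ hL
    exact le_mul_of_one_le_right (by positivity) (Real.one_le_exp (by positivity))
  filter_upwards [eventually_ge_atTop 10000000000000000,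
    Real.tendsto_log_atTop.eventually_ge_atTop 1000, h1, nd_big 100000000 (2 * A + 6), h4,
    nd_pow_exp 10000 A (7 / 10) (by norm_num)] with L e1 e2 e3 e4 e5 e6
  exact ⟨e1, e2, e3, e4, e5, e6⟩

theorem ng_h_pow {L h : ℝ} (hL : 1 ≤ L) (h1 : 0 ≤ h) (hh : h ≤ L ^ (1 / 20 : ℝ)) :
    h ^ (11 / 25 : ℝ) ≤ L ^ (11 / 500 : ℝ) := by
  calc h ^ (11 / 25 : ℝ) ≤ (L ^ (1 / 20 : ℝ)) ^ (11 / 25 : ℝ) :=
        Real.rpow_le_rpow h1 hh (by norm_num)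
    _ = L ^ (11 / 500 : ℝ) := by
        rw [← Real.rpow_mul (by linarith)]
        norm_num

/-- the sizes of `E` and `E 2 ^ n` -/
theorem ng_E {n : ℕ} {e h : ℝ} (he : 0 ≤ e) (heh : e ≤ h ^ (2 / 5 : ℝ))
    (hnh : (2 : ℝ) ^ n ≤ h ^ (1 / 25 : ℝ)) (hh : 1 ≤ h) :
    1 ≤ dE n e ∧ (n : ℝ) ≤ dE n e ∧ 1 ≤ dE n e * 2 ^ n ∧
      dE n e * 2 ^ n ≤ 2 * h ^ (11 / 25 : ℝ) ∧ dE n e ≤ dE n e * 2 ^ n := by
  have hn0 : (0 : ℝ) ≤ n := Nat.cast_nonneg n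
  have h1 := num_nat_le_two_pow n
  have h2 : h ^ (1 / 25 : ℝ) ≤ h ^ (2 / 5 : ℝ) :=
    Real.rpow_le_rpow_of_exponent_le hh (by norm_num)
  have e1 : 1 ≤ dE n e := by
    unfold dE
    linarith
  have e2 : (n : ℝ) ≤ dE n e := by
    unfold dE
    linarith
  have h3 : (1 : ℝ) ≤ 2 ^ n := one_le_pow₀ (by norm_num)
  have e3 : dE n e ≤ dE n e * 2 ^ n := le_mul_of_one_le_right (by linarith) h3
  have e4 : dE n e ≤ 2 * h ^ (2 / 5 : ℝ) := by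
    unfold dE
    linarith
  refine ⟨e1, e2, by linarith, ?_, e3⟩
  have h0 : 0 < h := by linarith
  calc dE n e * 2 ^ n ≤ (2 * h ^ (2 / 5 : ℝ)) * h ^ (1 / 25 : ℝ) :=
        mul_le_mul e4 hnh (by positivity) (by positivity)
    _ = 2 * h ^ (11 / 25 : ℝ) := by
        rw [mul_assoc, ← Real.rpow_add h0]
        norm_num

theorem ng_da (n : ℕ) (e : ℝ) : da n e = 1 / (800000 * (dE n e * 2 ^ n)) := by
  unfold da db
  rw [div_div]
  congr 1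
  ring

theorem ng_da_mul (n : ℕ) (e : ℝ) : da n e * 2 ^ n = db n e := by
  unfold da
  field_simp

/-- `C4 ≤ exp (h / 3)` -/
theorem ng_C4 {K Om : ℕ} {h E1 V : ℝ} (hE1 : 1 ≤ E1) (hE2 : E1 ≤ 2 * h ^ (11 / 25 : ℝ))
    (hK : (K : ℝ) ≤ 17 * E1) (hOm : (Om : ℝ) ≤ 2400000 * E1) (hV : V ≤ E1 ^ 2)
    (hh : 3600000000 ≤ h ^ (3 / 25 : ℝ)) (hh0 : 0 < h) :
    2 * (16 * 2 ^ (Om + 1)) ^ (4 * K) * Real.exp V ≤ Real.exp (h / 3) := by
  have e1 : (16 : ℝ) * 2 ^ (Om + 1) = 2 ^ (Om + 5) := by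
    ring
  have e2 : (2 : ℝ) * (2 ^ (Om + 5)) ^ (4 * K) = 2 ^ (1 + (Om + 5) * (4 * K)) := by
    rw [← pow_mul, pow_add, pow_one]
  rw [e1, e2]
  have e3 : (((1 + (Om + 5) * (4 * K) : ℕ)) : ℝ) ≤ 1 + 2400005 * E1 * (68 * E1) := by
    push_cast
    have h1 : (Om : ℝ) + 5 ≤ 2400005 * E1 := by linarith
    have h2 : 4 * (K : ℝ) ≤ 68 * E1 := by linarith
    have h3 := mul_le_mul h1 h2 (by positivity) (by linarith)
    linarith
  have e4 := num_two_pow e3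
  have e5 : (2 : ℝ) ^ (1 + (Om + 5) * (4 * K)) * Real.exp V ≤
      Real.exp (1 + 2400005 * E1 * (68 * E1)) * Real.exp (E1 ^ 2) :=
    mul_le_mul e4 (Real.exp_le_exp.2 hV) (Real.exp_pos _).le (Real.exp_pos _).le
  refine e5.trans ?_
  rw [← Real.exp_add]
  apply Real.exp_le_exp.2
  have e6 : 1 + 2400005 * E1 * (68 * E1) + E1 ^ 2 ≤ 300000000 * E1 ^ 2 := by
    have h1 : 1 ≤ E1 ^ 2 := one_le_pow₀ hE1
    have h2 : 2400005 * E1 * (68 * E1) = 163200340 * E1 ^ 2 := by ring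
    linarith
  have e7 : E1 ^ 2 ≤ (2 * h ^ (11 / 25 : ℝ)) ^ 2 := pow_le_pow_left₀ (by linarith) hE2 2
  have e8 : (2 * h ^ (11 / 25 : ℝ)) ^ 2 = 4 * h ^ (22 / 25 : ℝ) := by
    rw [mul_pow, ← Real.rpow_natCast (h ^ (11 / 25 : ℝ)), ← Real.rpow_mul hh0.le]
    norm_num
  have e9 : h = h ^ (3 / 25 : ℝ) * h ^ (22 / 25 : ℝ) := by
    rw [← Real.rpow_add hh0]
    norm_num
  have e10 : 3600000000 * h ^ (22 / 25 : ℝ) ≤ h := by
    calc 3600000000 * h ^ (22 / 25 : ℝ) ≤ h ^ (3 / 25 : ℝ) * h ^ (22 / 25 : ℝ) :=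
          mul_le_mul_of_nonneg_right hh (by positivity)
      _ = h := e9.symm
  linarith

/-- the main small quantity -/
theorem ng_theta {n : ℕ} {e : ℝ} (hn : 10 ≤ n) (he : 0 ≤ e) :
    n * (dE n e * 2 ^ n) * Real.exp (2 - 4 * dE n e) ≤ Real.exp (-e) / 400 := by
  have hn0 : (10 : ℝ) ≤ n := by exact_mod_cast hn
  obtain ⟨E, hE⟩ : ∃ E : ℝ, E = dE n e := ⟨_, rfl⟩
  rw [← hE]
  have hE' : E = n + e + 1 := by
    rw [hE]
    rfl
  have h1 : 1 ≤ E := by linarith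
  have h2 : (n : ℝ) ≤ E := by linarith
  have e1 : E * E ≤ 2 * Real.exp E := by
    have h3 := Real.quadratic_le_exp_of_nonneg (show 0 ≤ E by linarith)
    have h4 : E ^ 2 = E * E := sq E
    linarith
  have e2 : (2 : ℝ) ^ n ≤ Real.exp n := num_two_pow le_rfl
  have e3 : n * (E * 2 ^ n) ≤ 2 * Real.exp E * Real.exp n := by
    have h5 : n * E ≤ 2 * Real.exp E := (mul_le_mul_of_nonneg_right h2 (by linarith)).trans e1
    calc n * (E * 2 ^ n) = (n * E) * 2 ^ n := by ring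
      _ ≤ _ := mul_le_mul h5 e2 (by positivity) (by positivity)
  have e4 : n * (E * 2 ^ n) * Real.exp (2 - 4 * E) ≤
      2 * Real.exp E * Real.exp n * Real.exp (2 - 4 * E) :=
    mul_le_mul_of_nonneg_right e3 (Real.exp_pos _).le
  have e5 : 2 * Real.exp E * Real.exp n * Real.exp (2 - 4 * E) =
      2 * Real.exp (n + 2 - 3 * E) := by
    rw [mul_assoc, mul_assoc, ← Real.exp_add, ← Real.exp_add]
    congr 2
    ring
  have e6 : Real.exp (n + 2 - 3 * E) ≤ Real.exp (-e + (-20)) :=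
    Real.exp_le_exp.2 (by linarith)
  have e8 : Real.exp (-20 : ℝ) ≤ 1 / 1000 := by
    rw [Real.exp_neg, ← one_div]
    have h3 : (1000 : ℝ) ≤ Real.exp 20 := by
      have h4 := num_two_pow (R := 20) (u := 20) (by norm_num)
      refine le_trans (by norm_num) h4
    exact one_div_le_one_div_of_le (by norm_num) h3
  have e9 : 0 < Real.exp (-e) := Real.exp_pos _
  have e10 : Real.exp (-e + (-20)) ≤ Real.exp (-e) * (1 / 1000) := by
    rw [Real.exp_add]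
    exact mul_le_mul_of_nonneg_left e8 e9.le
  rw [e5] at e4
  linarith

/-- the threshold for `q` -/
theorem ng_G {A K Om : ℕ} {L Ex V C4 q ε : ℝ} (hL : 1 ≤ L) (hEx : 1 ≤ Ex) (hK : (K : ℝ) ≤ L)
    (hOm : (Om : ℝ) ≤ L) (hV : V ≤ L) (hC40 : 0 ≤ C4) (hC4 : C4 ≤ Ex)
    (hq : 100000000 * L ^ (2 * A + 6) * Ex ≤ q) (hε : 0 < ε) (hε1 : ε ≤ 1)
    (hεL : 1 ≤ ε * (100 * L ^ A)) :
    4 ≤ q ∧ 32 * K / q ≤ ε / 10 ∧ V * ((4 * (K : ℝ) ^ 2 + 8 * K) / q) ≤ ε / 4 ∧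
      (1 + 10 / ε) * (((2 * Om + 2) ^ 2 / q) * (K : ℝ) ^ 4 * C4) ≤ ε / 10 := by
  have hP : ∀ k : ℕ, 1 ≤ L ^ k := fun k => one_le_pow₀ hL
  have hP0 : ∀ k : ℕ, 0 < L ^ k := fun k => lt_of_lt_of_le one_pos (hP k)
  have hK0 : (0 : ℝ) ≤ K := Nat.cast_nonneg K
  have hO0 : (0 : ℝ) ≤ Om := Nat.cast_nonneg Om
  have hL0 : 0 < L := by linarith
  have hEx0 : 0 < Ex := by linarith
  have hq2 : 100000000 * L ^ (2 * A + 6) ≤ q := by
    refine le_trans ?_ hq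
    exact le_mul_of_one_le_right (by positivity) hEx
  have hq3 : 100000000 ≤ q := by
    have := hP (2 * A + 6)
    linarith
  have hq0 : 0 < q := by linarith
  -- `100 L ^ (A + 6) Ex * 10^6 ≤ ε q`
  have hεq : 1000000 * (L ^ (A + 6) * Ex) ≤ ε * q := by
    have h1 : ε * (100000000 * L ^ (2 * A + 6) * Ex) ≤ ε * q := mul_le_mul_of_nonneg_left hq hε.le
    have h2 : ε * (100000000 * L ^ (2 * A + 6) * Ex) =
        (ε * (100 * L ^ A)) * (1000000 * (L ^ (A + 6) * Ex)) := by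
      rw [show 2 * A + 6 = A + (A + 6) by ring, pow_add]
      ring
    have h3 : 1 * (1000000 * (L ^ (A + 6) * Ex)) ≤
        (ε * (100 * L ^ A)) * (1000000 * (L ^ (A + 6) * Ex)) :=
      mul_le_mul_of_nonneg_right hεL (by positivity)
    linarith
  have hL6 : L ^ (A + 6) ≤ L ^ (A + 6) * Ex := le_mul_of_one_le_right (hP0 _).le hEx
  have hεq2 : 1000000 * L ^ (A + 6) ≤ ε * q := by linarith
  refine ⟨by linarith, ?_, ?_, ?_⟩
  · rw [div_le_iff₀ hq0]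
    have h1 : L ≤ L ^ (A + 6) := le_self_pow₀ hL (by omega)
    linarith
  · rw [mul_div_assoc', div_le_iff₀ hq0]
    have h2 : (K : ℝ) ^ 2 ≤ L ^ 2 := pow_le_pow_left₀ hK0 hK 2
    have h3 : (K : ℝ) ≤ L ^ 2 := hK.trans (le_self_pow₀ hL (by norm_num))
    have h4 : 4 * (K : ℝ) ^ 2 + 8 * K ≤ 12 * L ^ 2 := by linarith
    have h5 : V * (4 * (K : ℝ) ^ 2 + 8 * K) ≤ L * (12 * L ^ 2) :=
      mul_le_mul hV h4 (by positivity) hL0.le
    have h6 : L * (12 * L ^ 2) = 12 * L ^ 3 := by ring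
    have h7 : L ^ 3 ≤ L ^ (A + 6) := pow_le_pow_right₀ hL (by omega)
    have h8 := hP0 (A + 6)
    linarith
  · have h5 : (1 + 10 / ε) ≤ 1001 * L ^ A := by
      have h1 : 1 / ε ≤ 100 * L ^ A := by
        rw [div_le_iff₀ hε]
        linarith
      have h2 : 10 / ε = 10 * (1 / ε) := by ring
      have h3 := hP A
      linarith
    have h6 : (2 * (Om : ℝ) + 2) ^ 2 ≤ (4 * L) ^ 2 :=
      pow_le_pow_left₀ (by positivity) (by linarith) 2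
    have h7 : (K : ℝ) ^ 4 ≤ L ^ 4 := pow_le_pow_left₀ hK0 hK 4
    have h8 : ((2 * (Om : ℝ) + 2) ^ 2 / q) * (K : ℝ) ^ 4 * C4 ≤ ((4 * L) ^ 2 / q) * L ^ 4 * Ex := by
      refine mul_le_mul (mul_le_mul (div_le_div_of_nonneg_right h6 hq0.le) h7 (by positivity)
        (by positivity)) hC4 hC40 (by positivity)
    have h9 : (1 + 10 / ε) * (((2 * Om + 2) ^ 2 / q) * (K : ℝ) ^ 4 * C4) ≤
        1001 * L ^ A * (((4 * L) ^ 2 / q) * L ^ 4 * Ex) :=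
      mul_le_mul h5 h8 (by positivity) (by positivity)
    refine h9.trans ?_
    have h10 : 1001 * L ^ A * (((4 * L) ^ 2 / q) * L ^ 4 * Ex) =
        (16016 * (L ^ (A + 6) * Ex)) / q := by
      rw [pow_add]
      field_simp
      ring
    rw [h10, div_le_iff₀ hq0]
    have h11 : 0 < L ^ (A + 6) * Ex := by positivity
    linarith

end Pool.Agent.H.MP_711652_nt.G2
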