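import Pool.Agent.H.MP_711652_nt.G2.NumG

/-!
# GAP3, NumH: the numerical hypotheses for the general core, second part (helper55)
-/

set_option autoImplicit false

namespace Pool.Agent.H.MP_711652_nt.G2

open Filter Real

/-- The context: `X` large, admissible parameters. -/
structure Ctx (A A₁ X n : ℕ) (e h : ℝ) : Prop where
  X0 : 1 ≤ X
  ev : EvL A A₁ (Real.log X)
  adm : Adm A (3600000000 ^ 9) X n e h

variable {A A₁ X n : ℕ} {e h : ℝ}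

theorem Ctx.L0 (H : Ctx A A₁ X n e h) : 0 < Real.log X := by
  have := H.ev.L1
  linarith

theorem Ctx.L1 (H : Ctx A A₁ X n e h) : 1 ≤ Real.log X := by
  have := H.ev.L1
  linarith

theorem Ctx.hbig (H : Ctx A A₁ X n e h) : (3600000000 : ℝ) ^ 9 ≤ h := H.adm.h0

theorem Ctx.h1 (H : Ctx A A₁ X n e h) : 1 ≤ h :=
  le_trans (one_le_pow₀ (by norm_num)) H.adm.h0

theorem Ctx.hh (H : Ctx A A₁ X n e h) : 3600000000 ≤ h ^ (3 / 25 : ℝ) := by
  have h1 : (3600000000 : ℝ) ≤ (3600000000 ^ 9) ^ (3 / 25 : ℝ) := by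
    rw [← Real.rpow_natCast, ← Real.rpow_mul (by norm_num)]
    calc (3600000000 : ℝ) = 3600000000 ^ (1 : ℝ) := (Real.rpow_one _).symm
      _ ≤ _ := Real.rpow_le_rpow_of_exponent_le (by norm_num) (by norm_num)
  exact h1.trans (Real.rpow_le_rpow (by positivity) H.adm.h0 (by norm_num))

theorem Ctx.E (H : Ctx A A₁ X n e h) : 1 ≤ dE n e ∧ (n : ℝ) ≤ dE n e ∧ 1 ≤ dE n e * 2 ^ n ∧
    dE n e * 2 ^ n ≤ 2 * h ^ (11 / 25 : ℝ) ∧ dE n e ≤ dE n e * 2 ^ n :=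
  ng_E H.adm.e0 H.adm.eh H.adm.nh H.h1

theorem Ctx.E1L (H : Ctx A A₁ X n e h) : dE n e * 2 ^ n ≤ 2 * Real.log X ^ (11 / 500 : ℝ) := by
  have h1 := H.E.2.2.2.1
  have h2 := ng_h_pow H.L1 (zero_le_one.trans H.h1) H.adm.hL
  linarith

theorem Ctx.E1 (H : Ctx A A₁ X n e h) : 3200000 * (dE n e * 2 ^ n) ≤ Real.log X := by
  have h1 := H.E1L
  have h2 := H.ev.sz
  have h3 : (1 : ℝ) ≤ Real.log X ^ (9 / 10 : ℝ) := Real.one_le_rpow H.L1 (by norm_num)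
  have h4 : 0 ≤ 6400000 * Real.log X ^ (11 / 500 : ℝ) := by
    have := H.L0
    positivity
  have h5 := le_mul_of_one_le_right h4 h3
  linarith

theorem Ctx.a0 (H : Ctx A A₁ X n e h) : 0 < da n e := by
  have := H.E.2.2.1
  rw [ng_da]
  positivity

theorem Ctx.b0 (H : Ctx A A₁ X n e h) : 0 < db n e := by
  have := H.E.1
  unfold db
  positivity

theorem Ctx.aE (H : Ctx A A₁ X n e h) : da n e * (dE n e * 2 ^ n) = 1 / 800000 := by
  obtain ⟨t, ht⟩ : ∃ t : ℝ, t = dE n e * 2 ^ n := ⟨_, rfl⟩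
  have h1 : 1 ≤ t := by
    rw [ht]
    exact H.E.2.2.1
  rw [ng_da, ← ht]
  field_simp

theorem Ctx.inva (_H : Ctx A A₁ X n e h) (t : ℝ) :
    t / da n e = 800000 * t * (dE n e * 2 ^ n) := by
  rw [ng_da, div_div_eq_mul_div, div_one]
  ring

theorem Ctx.a1 (H : Ctx A A₁ X n e h) : da n e ≤ 1 / 800000 := by
  have h1 := H.aE
  have h2 := mul_le_mul_of_nonneg_left H.E.2.2.1 H.a0.le
  linarith

theorem Ctx.b1 (H : Ctx A A₁ X n e h) : db n e ≤ 1 / 800000 := by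
  unfold db
  have := H.E.1
  exact one_div_le_one_div_of_le (by norm_num) (by linarith)

theorem Ctx.ab (H : Ctx A A₁ X n e h) : da n e ≤ db n e := by
  rw [← ng_da_mul]
  exact le_mul_of_one_le_right H.a0.le (one_le_pow₀ (by norm_num))

theorem Ctx.aL (H : Ctx A A₁ X n e h) :
    4 * Real.log X ^ (9 / 10 : ℝ) ≤ da n e * Real.log X := by
  have h1 := H.E1L
  have h2 := H.ev.sz
  have hL := H.L0
  have h3 : 0 < Real.log X ^ (9 / 10 : ℝ) := by positivity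
  have h4 := mul_le_mul_of_nonneg_right h1 h3.le
  have h5 := H.a0
  have h6 : 3200000 * (dE n e * 2 ^ n) * Real.log X ^ (9 / 10 : ℝ) ≤ Real.log X := by
    have : 3200000 * (dE n e * 2 ^ n) * Real.log X ^ (9 / 10 : ℝ) =
      3200000 * (dE n e * 2 ^ n * Real.log X ^ (9 / 10 : ℝ)) := by ring
    linarith
  have h7 := mul_le_mul_of_nonneg_left h6 h5.le
  have h8 : da n e * (3200000 * (dE n e * 2 ^ n) * Real.log X ^ (9 / 10 : ℝ)) =
      3200000 * (da n e * (dE n e * 2 ^ n)) * Real.log X ^ (9 / 10 : ℝ) := by ring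
  rw [h8, H.aE] at h7
  linarith

theorem Ctx.one_le_L9 (H : Ctx A A₁ X n e h) : (1 : ℝ) ≤ Real.log X ^ (9 / 10 : ℝ) :=
  Real.one_le_rpow H.L1 (by norm_num)

theorem Ctx.aL4 (H : Ctx A A₁ X n e h) : 4 ≤ da n e * Real.log X := by
  have h1 := H.aL
  have h2 := H.one_le_L9
  linarith

theorem Ctx.XR (H : Ctx A A₁ X n e h) : (0 : ℝ) < X := by exact_mod_cast H.X0

theorem Ctx.XR1 (H : Ctx A A₁ X n e h) : (1 : ℝ) ≤ X := by exact_mod_cast H.X0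

/-- `q = X ^ (a / 2)` -/
theorem Ctx.q_ge (H : Ctx A A₁ X n e h) :
    Real.exp (2 * Real.log X ^ (9 / 10 : ℝ)) ≤ (X : ℝ) ^ (da n e / 2) := by
  rw [num_rpow_eq H.X0]
  apply Real.exp_le_exp.2
  have := H.aL
  linarith

theorem Ctx.q_ge' (H : Ctx A A₁ X n e h) :
    Real.exp (Real.log X ^ (9 / 10 : ℝ)) ≤ (X : ℝ) ^ (da n e / 2) := by
  refine le_trans (Real.exp_le_exp.2 ?_) H.q_ge
  have := H.one_le_L9
  linarith

theorem Ctx.q_sq (H : Ctx A A₁ X n e h) : ((X : ℝ) ^ (da n e / 2)) ^ 2 = (X : ℝ) ^ da n e := by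
  rw [← Real.rpow_natCast, ← Real.rpow_mul H.XR.le]
  congr 1
  push_cast
  ring

theorem Ctx.Xa (H : Ctx A A₁ X n e h) : 2 ≤ (X : ℝ) ^ da n e := by
  rw [num_rpow_eq H.X0]
  have h1 := H.aL4
  have h2 := Real.add_one_le_exp (da n e * Real.log X)
  linarith

theorem Ctx.Xb (H : Ctx A A₁ X n e h) : 2 ≤ (X : ℝ) ^ db n e :=
  H.Xa.trans (Real.rpow_le_rpow_of_exponent_le H.XR1 H.ab)

theorem Ctx.Xy (H : Ctx A A₁ X n e h) : 2 ≤ (X : ℝ) ^ (1 / 100000 : ℝ) :=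
  H.Xb.trans (Real.rpow_le_rpow_of_exponent_le H.XR1 (by linarith [H.b1]))

theorem Ctx.z (H : Ctx A A₁ X n e h) : (X : ℝ) ^ da n e / 2 ≤ (dz X n e : ℝ) ∧
    (dz X n e : ℝ) ≤ (X : ℝ) ^ da n e ∧
    da n e * Real.log X - 1 ≤ Real.log (dz X n e) ∧
    Real.log (dz X n e) ≤ da n e * Real.log X ∧ 2 ≤ dz X n e :=
  num_floor H.Xa H.X0

theorem Ctx.B (H : Ctx A A₁ X n e h) : (X : ℝ) ^ db n e / 2 ≤ (dB X n e : ℝ) ∧
    (dB X n e : ℝ) ≤ (X : ℝ) ^ db n e ∧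
    db n e * Real.log X - 1 ≤ Real.log (dB X n e) ∧
    Real.log (dB X n e) ≤ db n e * Real.log X ∧ 2 ≤ dB X n e :=
  num_floor H.Xb H.X0

theorem Ctx.Y (H : Ctx A A₁ X n e h) : (X : ℝ) ^ (1 / 100000 : ℝ) / 2 ≤ (dY X : ℝ) ∧
    (dY X : ℝ) ≤ (X : ℝ) ^ (1 / 100000 : ℝ) ∧
    1 / 100000 * Real.log X - 1 ≤ Real.log (dY X) ∧
    Real.log (dY X) ≤ 1 / 100000 * Real.log X ∧ 2 ≤ dY X :=
  num_floor H.Xy H.X0

theorem Ctx.qz (H : Ctx A A₁ X n e h) : ((X : ℝ) ^ (da n e / 2)) ^ 2 / 2 ≤ (dz X n e : ℝ) := by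
  rw [H.q_sq]
  exact H.z.1

theorem Ctx.expz (H : Ctx A A₁ X n e h) :
    Real.exp (Real.log X ^ (9 / 10 : ℝ)) * 2 ≤ (dz X n e : ℝ) := by
  refine le_trans ?_ H.z.1
  rw [num_rpow_eq H.X0]
  have h1 := H.aL
  have h2 := H.one_le_L9
  have h3 : Real.exp (Real.log X ^ (9 / 10 : ℝ)) * 4 ≤
      Real.exp (da n e * Real.log X) := by
    have h4 : (4 : ℝ) ≤ Real.exp 3 := by
      have := Real.add_one_le_exp (3 : ℝ)
      linarith
    calc Real.exp (Real.log X ^ (9 / 10 : ℝ)) * 4 ≤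
          Real.exp (Real.log X ^ (9 / 10 : ℝ)) * Real.exp 3 :=
          mul_le_mul_of_nonneg_left h4 (Real.exp_pos _).le
      _ = Real.exp (Real.log X ^ (9 / 10 : ℝ) + 3) := by rw [Real.exp_add]
      _ ≤ _ := Real.exp_le_exp.2 (by linarith)
  linarith

theorem Ctx.z3 (H : Ctx A A₁ X n e h) : 3 ≤ dz X n e := by
  have h1 := H.expz
  have h2 := H.one_le_L9
  have h3 := Real.add_one_le_exp (Real.log X ^ (9 / 10 : ℝ))
  have h4 : (3 : ℝ) ≤ (dz X n e : ℝ) := by linarith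
  exact_mod_cast h4

theorem Ctx.zn (H : Ctx A A₁ X n e h) : dz X n e ^ (2 ^ n) ≤ dB X n e :=
  num_pow_floor H.X0 (ng_da_mul n e)

theorem Ctx.zB (H : Ctx A A₁ X n e h) : dz X n e ≤ dB X n e :=
  (Nat.le_self_pow (by positivity) _).trans H.zn

theorem Ctx.Kle (H : Ctx A A₁ X n e h) : (dK n e : ℝ) ≤ 16 * (dE n e * 2 ^ n) + 1 := by
  have h1 := H.E.2.2.1
  have h2 : (⌊16 * (dE n e * 2 ^ n)⌋₊ : ℝ) ≤ 16 * (dE n e * 2 ^ n) :=
    Nat.floor_le (by positivity)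
  unfold dK
  push_cast
  linarith

theorem Ctx.Klt (H : Ctx A A₁ X n e h) : 16 * (dE n e * 2 ^ n) < (dK n e : ℝ) := by
  unfold dK
  push_cast
  exact Nat.lt_floor_add_one _

theorem Ctx.K17 (H : Ctx A A₁ X n e h) : (dK n e : ℝ) ≤ 17 * (dE n e * 2 ^ n) := by
  have h1 := H.E.2.2.1
  have h2 := H.Kle
  linarith

theorem Ctx.K1 (_H : Ctx A A₁ X n e h) : 1 ≤ dK n e := by
  unfold dK
  omega

theorem Ctx.KL (H : Ctx A A₁ X n e h) : (dK n e : ℝ) ≤ Real.log X := by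
  have h1 := H.K17
  have h2 := H.E1
  have h3 := H.E.2.2.1
  linarith

theorem Ctx.aK (H : Ctx A A₁ X n e h) : da n e * dK n e ≤ 3 / 100000 ∧
    da n e * (dK n e + 1) ≤ 4 / 100000 ∧ 2 / 100000 < da n e * dK n e := by
  have h1 := mul_le_mul_of_nonneg_left H.Kle H.a0.le
  have h2 := mul_lt_mul_of_pos_left H.Klt H.a0
  have h3 := H.aE
  have h4 := H.a1
  have e1 : da n e * (16 * (dE n e * 2 ^ n) + 1) = 16 * (da n e * (dE n e * 2 ^ n)) + da n e := by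
    ring
  have e2 : da n e * (16 * (dE n e * 2 ^ n)) = 16 * (da n e * (dE n e * 2 ^ n)) := by
    ring
  rw [e1, h3] at h1
  rw [e2, h3] at h2
  have e3 : da n e * (dK n e + 1) = da n e * dK n e + da n e := by ring
  rw [e3]
  refine ⟨by linarith, by linarith, by linarith⟩

theorem Ctx.YK (H : Ctx A A₁ X n e h) : dY X < dz X n e ^ (dK n e + 1) := by
  have h1 : (1 : ℝ) * (X : ℝ) ^ (1 / 100000 : ℝ) <
      (⌊(X : ℝ) ^ da n e⌋₊ : ℝ) ^ (dK n e + 1) := by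
    refine ne_pow_gt H.X0 H.Xa ?_
    rw [one_mul]
    apply Real.exp_lt_exp.2
    push_cast
    have h2 := H.aK.2.2
    have h3 := H.a0
    have h4 : 1 / 100000 * Real.log X ≤
        (da n e * (dK n e + 1) - 1 / 100000) * Real.log X := by
      refine mul_le_mul_of_nonneg_right ?_ H.L0.le
      have e3 : da n e * (dK n e + 1) = da n e * dK n e + da n e := by ring
      linarith
    have h5 := H.K17
    have h6 := H.E1
    have h7 := H.E.2.2.1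
    linarith
  rw [one_mul] at h1
  have h2 : (dY X : ℝ) < (dz X n e : ℝ) ^ (dK n e + 1) := lt_of_le_of_lt H.Y.2.1 h1
  exact_mod_cast h2

theorem Ctx.Blt (H : Ctx A A₁ X n e h) : (dB X n e : ℝ) ≤ (X : ℝ) ^ (1 / 10 : ℝ) :=
  H.B.2.1.trans (Real.rpow_le_rpow_of_exponent_le H.XR1 (by linarith [H.b1]))

/-- `Om` -/
noncomputable def dO (n : ℕ) (e : ℝ) : ℕ := ⌊2400000 * (dE n e * 2 ^ n)⌋₊

theorem Ctx.Ole (H : Ctx A A₁ X n e h) : (dO n e : ℝ) ≤ 2400000 * (dE n e * 2 ^ n) := by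
  have h1 := H.E.2.2.1
  unfold dO
  exact Nat.floor_le (by positivity)

theorem Ctx.OL (H : Ctx A A₁ X n e h) : (dO n e : ℝ) + 1 < Real.log X := by
  have h1 := H.Ole
  have h2 := H.E1
  have h3 := H.E.2.2.1
  linarith

theorem Ctx.X2 (H : Ctx A A₁ X n e h) : X ^ 2 < dz X n e ^ (dO n e + 1) := by
  have h1 : (1 : ℝ) * (X : ℝ) ^ (2 : ℝ) < (⌊(X : ℝ) ^ da n e⌋₊ : ℝ) ^ (dO n e + 1) := by
    refine ne_pow_gt H.X0 H.Xa ?_
    rw [one_mul]
    apply Real.exp_lt_exp.2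
    push_cast
    have h2 : 2400000 * (dE n e * 2 ^ n) < (dO n e : ℝ) + 1 := Nat.lt_floor_add_one _
    have h3 := mul_lt_mul_of_pos_left h2 H.a0
    have e2 : da n e * (2400000 * (dE n e * 2 ^ n)) = 2400000 * (da n e * (dE n e * 2 ^ n)) := by
      ring
    rw [e2, H.aE] at h3
    have h4 : 1 * Real.log X ≤ (da n e * ((dO n e : ℝ) + 1) - 2) * Real.log X := by
      refine mul_le_mul_of_nonneg_right ?_ H.L0.le
      linarith
    have h5 := H.OL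
    linarith
  rw [one_mul] at h1
  have h2 : ((X ^ 2 : ℕ) : ℝ) < (dz X n e : ℝ) ^ (dO n e + 1) := by
    push_cast
    have h3 : (X : ℝ) ^ (2 : ℝ) = (X : ℝ) ^ 2 := by
      rw [← Real.rpow_natCast]
      norm_num
    rw [← h3]
    exact h1
  exact_mod_cast h2

/-- `D₁` -/
theorem Ctx.D_le (H : Ctx A A₁ X n e h) : (dD A₁ X : ℝ) ≤ Real.log X ^ A₁ := by
  have := H.L0
  exact Nat.floor_le (by positivity)

theorem Ctx.D_ge (H : Ctx A A₁ X n e h) : Real.log X ^ A₁ / 2 ≤ (dD A₁ X : ℝ) := by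
  have h1 : (1 : ℝ) ≤ Real.log X ^ A₁ := one_le_pow₀ H.L1
  have h2 := Nat.lt_floor_add_one (Real.log X ^ A₁)
  have h3 : (1 : ℝ) ≤ (⌊Real.log X ^ A₁⌋₊ : ℝ) := by
    have : 1 ≤ ⌊Real.log X ^ A₁⌋₊ := Nat.le_floor (by exact_mod_cast h1)
    exact_mod_cast this
  unfold dD
  linarith

theorem Ctx.Dz (H : Ctx A A₁ X n e h) : 2 * dD A₁ X ≤ dz X n e := by
  have h1 := H.D_le
  have h2 := H.ev.bigD
  have h3 := H.expz
  have h4 : 0 < Real.exp (Real.log X ^ (9 / 10 : ℝ)) := Real.exp_pos _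
  have h5 : ((2 * dD A₁ X : ℕ) : ℝ) ≤ (dz X n e : ℝ) := by
    push_cast
    have h6 : (0 : ℝ) < Real.log X ^ A₁ := by
      have := H.L0
      positivity
    linarith
  exact_mod_cast h5

/-- **DFacts.** -/
theorem dFacts : DFacts := by
  intro A A₁
  obtain ⟨X₀, hX₀⟩ := eventually_atTop.1 ((nd_ev (ev_EvL A A₁)).and (eventually_ge_atTop 1))
  refine ⟨3600000000 ^ 9, X₀, fun X hX n e h hA => ?_⟩
  obtain ⟨h1, h2⟩ := hX₀ X hX
  have H : Ctx A A₁ X n e h := ⟨h2, h1, hA⟩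
  refine ⟨H.z3, H.zn, H.zB, by have := H.Y.2.2.2.2; omega, H.YK, H.Blt, ?_, H.Dz, H.D_ge, ?_,
    H.z.2.2.2.1⟩
  · have h3 := H.expz
    have h4 : 0 < Real.exp (Real.log X ^ (9 / 10 : ℝ)) := Real.exp_pos _
    linarith
  · have h3 := H.z.2.2.1
    have h4 := H.aL4
    linarith

end Pool.Agent.H.MP_711652_nt.G2
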