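import Mathlib
import Pool.Agent.H.MP_711652_nt.G2.ExactC
import Pool.Agent.H.MP_711652_nt.G2.Pri

/-!
# A positive proportion of the gaps is longer than `lam` times the mean, for every `lam`
-/

set_option autoImplicit false

namespace Pool.Agent.H.MP_711652_nt.G2

open Finset Filter Pool.Agent.H.MP_711652_nt

lemma exists_prime_of_ff {H n : ℕ} (h : 1 ≤ ff H n) : ∃ r : ℕ, r.Prime ∧ n < r ∧ r ≤ n + H := by
  by_contra hcon
  push Not at hcon
  have : ff H n = 0 := by
    apply ff_zero_of
    intro k h1 h2 hk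
    exact absurd h2 (not_le.2 (hcon k hk h1))
  omega

theorem posprop_of_thmI (hI : ThmI) (lam : ℝ) :
    ∃ c : ℝ, 0 < c ∧ ∃ X₀ : ℕ, ∀ X : ℕ, X₀ ≤ X →
      c * X / Real.log X ≤ ({k : ℕ | Nat.nth Nat.Prime k ≤ X ∧
        lam * Real.log (Nat.nth Nat.Prime k) ≤
          (Nat.nth Nat.Prime (k + 1) : ℝ) - Nat.nth Nat.Prime k}.ncard : ℝ) := by
  classical
  obtain ⟨c1, hc1, hmany⟩ := many_ge 1 one_pos 1 le_rfl (by norm_num)
  set lam' : ℝ := max lam 1 with hlam'
  have hl1 : 1 ≤ lam' := le_max_right _ _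
  have hl2 : lam ≤ lam' := le_max_left _ _
  obtain ⟨T, hT, hV⟩ := void_card hI lam' (c1 / 2) (by linarith) (by positivity)
  refine ⟨c1 / (4 * (2 * T + 2)), by positivity, ?_⟩
  rw [← eventually_atTop (p := fun X : ℕ => c1 / (4 * (2 * T + 2)) * X / Real.log X ≤
    ({k : ℕ | Nat.nth Nat.Prime k ≤ X ∧
        lam * Real.log (Nat.nth Nat.Prime k) ≤
          (Nat.nth Nat.Prime (k + 1) : ℝ) - Nat.nth Nat.Prime k}.ncard : ℝ))]
  have e1 := tlogX.eventually_ge_atTop 1
  have e2 : ∀ᶠ X : ℕ in atTop, (4 * (2 * T + 2) / c1) * (Real.log X) ^ 1 ≤ X :=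
    eventually_log_pow 1 _ (by positivity)
  filter_upwards [hmany, hV, e1, e2, eventually_ge_atTop 1] with X hmX hVX hL1 hlog hX1
  set L := Real.log X with hLdef
  have hL0 : 0 < L := by linarith
  have hX0 : (0 : ℝ) < X := by exact_mod_cast hX1
  rw [pow_one] at hlog
  rw [one_mul] at hmX
  set H := ⌊L⌋₊ with hH
  have hHu : (H : ℝ) ≤ L := Nat.floor_le hL0.le
  set J := ⌊T * L⌋₊ with hJ
  have hJu : (J : ℝ) ≤ T * L := Nat.floor_le (by positivity)
  set g := ⌊lam' * L⌋₊ with hg
  have hgu : (g : ℝ) ≤ lam' * L := Nat.floor_le (by positivity)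
  have hgl : lam' * L < g + 1 := Nat.lt_floor_add_one _
  set M := H + 2 * J with hM
  have hMu : (M : ℝ) + 1 ≤ (2 * T + 2) * L := by
    rw [hM]; push_cast; nlinarith
  set Kf := (range (X + 1)).filter (fun k => Nat.nth Nat.Prime k ≤ X ∧
        lam * Real.log (Nat.nth Nat.Prime k) ≤
          (Nat.nth Nat.Prime (k + 1) : ℝ) - Nat.nth Nat.Prime k) with hKf
  have hinf := Nat.infinite_setOfPred_prime
  have hset : {k : ℕ | Nat.nth Nat.Prime k ≤ X ∧
        lam * Real.log (Nat.nth Nat.Prime k) ≤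
          (Nat.nth Nat.Prime (k + 1) : ℝ) - Nat.nth Nat.Prime k} = (Kf : Set ℕ) := by
    ext k
    rw [Finset.mem_coe, hKf, mem_filter, mem_range]
    constructor
    · intro hk
      refine ⟨?_, hk⟩
      have : k ≤ Nat.nth Nat.Prime k := (Nat.nth_strictMono hinf).le_apply
      have h2 := hk.1
      omega
    · exact fun hk => hk.2
  rw [hset, Set.ncard_coe_finset]
  set S := (range X).filter (fun n => 1 ≤ ff H n) with hS
  set V := (range X).filter (fun n => ¬ VoidNear lam' T X n) with hVdef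
  have hsub : S ⊆ V ∪ (Ico (X - M) X ∪
      Kf.biUnion (fun k => Ico (Nat.nth Nat.Prime k - M) (Nat.nth Nat.Prime k))) := by
    intro n hn
    rw [hS, mem_filter, mem_range] at hn
    rw [mem_union, mem_union, mem_biUnion]
    by_cases h1 : VoidNear lam' T X n
    · by_cases h2 : X - M ≤ n
      · right; left; rw [mem_Ico]; exact ⟨h2, hn.1⟩
      · right; right
        obtain ⟨r, hr, hnr, hrH⟩ := exists_prime_of_ff hn.2
        obtain ⟨t, ht1, ht2, ht3⟩ := h1
        have hrt : r ≤ t := by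
          by_contra hcon
          push Not at hcon
          apply ht3 r hcon _ hr
          have h4 : (r : ℝ) ≤ n + H := by exact_mod_cast hrH
          have h5 : (n : ℝ) ≤ t := by exact_mod_cast ht1
          nlinarith
        have hrun : HasRun r J g := by
          refine ⟨t - r, ?_, ?_⟩
          · have h4 : ((t - r + g : ℕ) : ℝ) ≤ T * L := by
              rw [Nat.cast_add, Nat.cast_sub hrt]
              have : (n : ℝ) < r := by exact_mod_cast hnr
              linarith
            exact Nat.le_floor h4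
          · intro k hk1 hk2
            apply ht3 (r + k) (by omega)
            have h4 : r + k ≤ t + g := by omega
            have h5 : ((r + k : ℕ) : ℝ) ≤ t + g := by exact_mod_cast h4
            linarith
        obtain ⟨k, k1, k2, k3⟩ := gap_of_run hr le_rfl (Nat.le_add_right r J) hrun
        have hkX : Nat.nth Nat.Prime k ≤ X := by omega
        refine ⟨k, ?_, ?_⟩
        · rw [hKf, mem_filter, mem_range]
          have h4 : k ≤ Nat.nth Nat.Prime k := (Nat.nth_strictMono hinf).le_apply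
          refine ⟨by omega, hkX, ?_⟩
          have hp1 : (1 : ℝ) ≤ Nat.nth Nat.Prime k := by
            exact_mod_cast (Nat.prime_nth_prime k).one_lt.le
          have h5 : Real.log (Nat.nth Nat.Prime k) ≤ L :=
            Real.log_le_log (by linarith) (by exact_mod_cast hkX)
          have h6 : 0 ≤ Real.log (Nat.nth Nat.Prime k) := Real.log_nonneg hp1
          have h7 : lam * Real.log (Nat.nth Nat.Prime k) ≤ lam' * L := by
            calc lam * Real.log (Nat.nth Nat.Prime k) ≤ lam' * Real.log (Nat.nth Nat.Prime k) := by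
                  gcongr
              _ ≤ lam' * L := by gcongr
          have h8 : (Nat.nth Nat.Prime k : ℝ) + g + 1 ≤ Nat.nth Nat.Prime (k + 1) := by
            exact_mod_cast k3
          linarith
        · rw [mem_Ico]
          omega
    · left
      rw [hVdef, mem_filter, mem_range]
      exact ⟨hn.1, h1⟩
  have hcard : S.card ≤ V.card + (M + Kf.card * M) := by
    refine (card_le_card hsub).trans ((card_union_le _ _).trans ?_)
    apply Nat.add_le_add_left
    refine (card_union_le _ _).trans ?_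
    apply Nat.add_le_add
    · rw [Nat.card_Ico]; omega
    · apply card_biUnion_le_card_mul
      intro k _
      rw [Nat.card_Ico]; omega
  have hcard' : (S.card : ℝ) ≤ V.card + (M + Kf.card * M) := by exact_mod_cast hcard
  have h1 : c1 * X ≤ S.card := hmX
  have h2 : (V.card : ℝ) ≤ c1 / 2 * X := hVX
  have h3 : (2 * T + 2) * L ≤ c1 / 4 * X := by
    calc (2 * T + 2) * L = c1 / 4 * (4 * (2 * T + 2) / c1 * L) := by field_simp
      _ ≤ c1 / 4 * X := by gcongr
  have h4 : c1 / 4 * X ≤ Kf.card * ((2 * T + 2) * L) := by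
    have h5 : (Kf.card : ℝ) * M ≤ Kf.card * ((2 * T + 2) * L) := by gcongr; linarith
    linarith
  rw [div_le_iff₀ hL0]
  calc c1 / (4 * (2 * T + 2)) * X = (c1 / 4 * X) / (2 * T + 2) := by field_simp
    _ ≤ (Kf.card * ((2 * T + 2) * L)) / (2 * T + 2) := by gcongr
    _ = Kf.card * L := by field_simp

/-- For every `lam`, a positive proportion of the prime gaps is at least `lam log p`. -/
theorem posprop_index (hI : ThmI) (lam : ℝ) :
    ∃ c : ℝ, 0 < c ∧ ∃ N₀ : ℕ, ∀ N : ℕ, N₀ ≤ N →
      c * N ≤ ({k : ℕ | k < N ∧ lam * Real.log (Nat.nth Nat.Prime k) ≤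
          (Nat.nth Nat.Prime (k + 1) : ℝ) - Nat.nth Nat.Prime k}.ncard : ℝ) := by
  obtain ⟨c, hc, X₀, hX₀⟩ := posprop_of_thmI hI lam
  obtain ⟨C, hC, hpi⟩ := pi_upper
  obtain ⟨X₁, hX₁⟩ := eventually_atTop.1 hpi
  have hinf := Nat.infinite_setOfPred_prime
  refine ⟨c / C, by positivity, max X₀ X₁ + 2, fun N hN => ?_⟩
  obtain ⟨M, rfl⟩ : ∃ M, N = M + 1 := ⟨N - 1, by omega⟩
  set X := Nat.nth Nat.Prime M with hX
  have hMX : M ≤ X := (Nat.nth_strictMono hinf).le_apply
  have hXX₀ : X₀ ≤ X := by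
    have := le_max_left X₀ X₁
    omega
  have hXX₁ : X₁ ≤ X := by
    have := le_max_right X₀ X₁
    omega
  have h1 := hX₀ X hXX₀
  have h2 := hX₁ X hXX₁
  have hX1 : 1 < X := (Nat.prime_nth_prime M).one_lt
  have hL0 : 0 < Real.log X := Real.log_pos (by exact_mod_cast hX1)
  have h3 : {k : ℕ | Nat.nth Nat.Prime k ≤ X ∧ lam * Real.log (Nat.nth Nat.Prime k) ≤
          (Nat.nth Nat.Prime (k + 1) : ℝ) - Nat.nth Nat.Prime k} =
      {k : ℕ | k < M + 1 ∧ lam * Real.log (Nat.nth Nat.Prime k) ≤
          (Nat.nth Nat.Prime (k + 1) : ℝ) - Nat.nth Nat.Prime k} := by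
    ext k
    simp only [Set.mem_setOf_eq, hX, Nat.nth_le_nth hinf, Nat.lt_succ_iff]
  rw [h3] at h1
  refine le_trans ?_ h1
  have h4 : ((M + 1 : ℕ) : ℝ) ≤ Nat.primeCounting (2 * X) := by
    have h5 : M + 1 ≤ Nat.primeCounting X := by
      unfold Nat.primeCounting Nat.primeCounting'
      have h6 : Nat.count Nat.Prime X = M := by rw [hX]; exact Nat.count_nth_of_infinite hinf M
      have h7 : Nat.count Nat.Prime (X + 1) = M + 1 := by
        rw [Nat.count_succ, h6, if_pos (Nat.prime_nth_prime M)]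
      omega
    have h6 : Nat.primeCounting X ≤ Nat.primeCounting (2 * X) :=
      Nat.monotone_primeCounting (by omega)
    exact_mod_cast h5.trans h6
  calc c / C * ((M + 1 : ℕ) : ℝ) ≤ c / C * (C * X / Real.log X) := by
        gcongr
        exact h4.trans h2
    _ = c * X / Real.log X := by field_simp

end Pool.Agent.H.MP_711652_nt.G2
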