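import Pool.Agent.H.MP_711652_nt.LG.Gram2

/-!
# The Gram bounds with a positive kernel on the small primes
-/

set_option autoImplicit false

namespace Pool.Agent.H.MP_711652_nt.G2

open Finset Pool.Agent.H.MP_711652_nt.LG

variable {ι : Type*} [Fintype ι] [DecidableEq ι]

/-- `gram_abs` with a kernel `c`, `|c σ τ| ≤ √(c σ σ) √(c τ τ)`. -/
theorem gram_abs_c (P : Finset ℕ) (hP : ∀ p ∈ P, p.Prime) (a : (P → Option ι) → ℝ)
    (ha : ∀ σ, 0 ≤ a σ) (c : (P → Option ι) → (P → Option ι) → ℝ) (hc0 : ∀ σ, 0 ≤ c σ σ)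
    (hc : ∀ σ τ, a σ ≠ 0 → a τ ≠ 0 → |c σ τ| ≤ Real.sqrt (c σ σ) * Real.sqrt (c τ τ))
    (ε : ℝ)
    (hε : ∀ σ, a σ ≠ 0 → (∏ p : P, if σ p = none then (1 : ℝ)
        else 1 + ((Fintype.card ι : ℝ) - 1) / (((p : ℕ) : ℝ) - 1)) ≤ 1 + ε) :
    ∑ σ : P → Option ι, ∑ τ : P → Option ι, a σ * a τ * |KK P σ τ| * |c σ τ| ≤
      (1 + ε) * ∑ σ : P → Option ι, a σ ^ 2 * ph P σ * c σ σ := by
  have h1 := gram_abs P hP (fun σ => a σ * Real.sqrt (c σ σ))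
    (fun σ => mul_nonneg (ha σ) (Real.sqrt_nonneg _)) ε
    (fun σ h => hε σ (fun h0 => h (by simp [h0])))
  have h2 : ∑ σ : P → Option ι, (a σ * Real.sqrt (c σ σ)) ^ 2 * ph P σ =
      ∑ σ : P → Option ι, a σ ^ 2 * ph P σ * c σ σ := by
    refine sum_congr rfl fun σ _ => ?_
    rw [mul_pow, Real.sq_sqrt (hc0 σ)]
    ring
  rw [h2] at h1
  refine le_trans (sum_le_sum fun σ _ => sum_le_sum fun τ _ => ?_) h1
  by_cases hσ : a σ = 0
  · simp [hσ]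
  by_cases hτ : a τ = 0
  · simp [hτ]
  calc a σ * a τ * |KK P σ τ| * |c σ τ|
      ≤ a σ * a τ * |KK P σ τ| * (Real.sqrt (c σ σ) * Real.sqrt (c τ τ)) :=
        mul_le_mul_of_nonneg_left (hc σ τ hσ hτ)
          (mul_nonneg (mul_nonneg (ha σ) (ha τ)) (abs_nonneg _))
    _ = _ := by ring

theorem gram_lower_c (P : Finset ℕ) (hP : ∀ p ∈ P, p.Prime) (v : (P → Option ι) → ℝ)
    (c : (P → Option ι) → (P → Option ι) → ℝ) (hc0 : ∀ σ, 0 ≤ c σ σ)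
    (hc : ∀ σ τ, v σ ≠ 0 → v τ ≠ 0 → |c σ τ| ≤ Real.sqrt (c σ σ) * Real.sqrt (c τ τ))
    (ε : ℝ)
    (hε : ∀ σ, v σ ≠ 0 → (∏ p : P, if σ p = none then (1 : ℝ)
        else 1 + ((Fintype.card ι : ℝ) - 1) / (((p : ℕ) : ℝ) - 1)) ≤ 1 + ε) :
    (1 - ε) * ∑ σ : P → Option ι, v σ ^ 2 * ph P σ * c σ σ ≤
      ∑ σ : P → Option ι, ∑ τ : P → Option ι, v σ * v τ * KK P σ τ * c σ τ := by
  have h1 := gram_abs_c P hP (fun σ => |v σ|) (fun σ => abs_nonneg _) c hc0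
    (fun σ τ h h' => hc σ τ (fun h0 => h (by simp [h0])) (fun h0 => h' (by simp [h0]))) ε
    (fun σ h => hε σ (fun h0 => h (by simp [h0])))
  simp only [sq_abs] at h1
  have h2 : ∑ σ : P → Option ι, ∑ τ : P → Option ι,
      ((if σ = τ then 2 * (v σ ^ 2 * ph P σ * c σ σ) else 0) -
        |v σ| * |v τ| * |KK P σ τ| * |c σ τ|) ≤
      ∑ σ : P → Option ι, ∑ τ : P → Option ι, v σ * v τ * KK P σ τ * c σ τ := by
    refine sum_le_sum fun σ _ => sum_le_sum fun τ _ => ?_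
    by_cases h : σ = τ
    · subst h
      rw [if_pos rfl, KK_self, abs_of_nonneg (ph_nonneg P hP σ), abs_of_nonneg (hc0 σ)]
      have e1 : |v σ| * |v σ| = v σ * v σ := abs_mul_abs_self _
      rw [e1]
      exact le_of_eq (by ring)
    · rw [if_neg h, zero_sub, ← abs_mul, ← abs_mul, ← abs_mul]
      exact neg_abs_le _
  simp only [sum_sub_distrib] at h2
  rw [gram2_diag P (fun σ => 2 * (v σ ^ 2 * ph P σ * c σ σ)), ← mul_sum] at h2
  linarith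

theorem gram_upper_c (P : Finset ℕ) (hP : ∀ p ∈ P, p.Prime) (v a : (P → Option ι) → ℝ)
    (hva : ∀ σ, |v σ| ≤ a σ)
    (c : (P → Option ι) → (P → Option ι) → ℝ) (hc0 : ∀ σ, 0 ≤ c σ σ)
    (hc : ∀ σ τ, a σ ≠ 0 → a τ ≠ 0 → |c σ τ| ≤ Real.sqrt (c σ σ) * Real.sqrt (c τ τ))
    (ε : ℝ)
    (hε : ∀ σ, a σ ≠ 0 → (∏ p : P, if σ p = none then (1 : ℝ)
        else 1 + ((Fintype.card ι : ℝ) - 1) / (((p : ℕ) : ℝ) - 1)) ≤ 1 + ε) :
    ∑ σ : P → Option ι, ∑ τ : P → Option ι, v σ * v τ * KK P σ τ * c σ τ ≤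
      ∑ σ : P → Option ι, v σ ^ 2 * ph P σ * c σ σ +
        ε * ∑ σ : P → Option ι, a σ ^ 2 * ph P σ * c σ σ := by
  have ha : ∀ σ, 0 ≤ a σ := fun σ => (abs_nonneg _).trans (hva σ)
  have h1 := gram_abs_c P hP a ha c hc0 hc ε hε
  have h2 : ∑ σ : P → Option ι, ∑ τ : P → Option ι, v σ * v τ * KK P σ τ * c σ τ ≤
      ∑ σ : P → Option ι, ∑ τ : P → Option ι,
      (a σ * a τ * |KK P σ τ| * |c σ τ| +
        (if σ = τ then v σ ^ 2 * ph P σ * c σ σ - a σ ^ 2 * ph P σ * c σ σ else 0)) := by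
    refine sum_le_sum fun σ _ => sum_le_sum fun τ _ => ?_
    by_cases h : σ = τ
    · subst h
      rw [if_pos rfl, KK_self, abs_of_nonneg (ph_nonneg P hP σ), abs_of_nonneg (hc0 σ)]
      exact le_of_eq (by ring)
    · rw [if_neg h, add_zero]
      calc v σ * v τ * KK P σ τ * c σ τ ≤ |v σ * v τ * KK P σ τ * c σ τ| := le_abs_self _
        _ = |v σ| * |v τ| * |KK P σ τ| * |c σ τ| := by rw [abs_mul, abs_mul, abs_mul]
        _ ≤ a σ * a τ * |KK P σ τ| * |c σ τ| :=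
          mul_le_mul_of_nonneg_right (mul_le_mul_of_nonneg_right
            (mul_le_mul (hva σ) (hva τ) (abs_nonneg _) (ha σ)) (abs_nonneg _)) (abs_nonneg _)
  simp only [sum_add_distrib] at h2
  rw [gram2_diag P (fun σ => v σ ^ 2 * ph P σ * c σ σ - a σ ^ 2 * ph P σ * c σ σ),
    sum_sub_distrib] at h2
  linarith

end Pool.Agent.H.MP_711652_nt.G2
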