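import Pool.Agent.H.MP_711652_nt.G2.Small
import Pool.Agent.H.MP_711652_nt.G2.QuadE
import Pool.Agent.H.MP_711652_nt.G2.TailE
import Pool.Agent.H.MP_711652_nt.LG.Diag3
import Pool.Agent.H.MP_711652_nt.LG.Abs

/-!
# GAP2, Quad: the quadratic form (Q) and the tail
-/

set_option autoImplicit false

namespace Pool.Agent.H.MP_711652_nt.G2

open Finset Pool.Agent.H.MP_711652_nt.LG

variable {ι : Type*} [Fintype ι] [DecidableEq ι]

/-- The mean value of the square of `∑ v_σ Φ_σ W_σ`. -/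
theorem quad_tame {P : Finset ℕ} {A : ℕ → ι → ℕ → Prop} (h : Forms P A) {Q0 : ℕ} (hQ0 : 0 < Q0)
    (hc : ∀ p ∈ P, ¬ p ∣ Q0) (v : (P → Option ι) → ℝ) (W : (P → Option ι) → ℕ → ℝ)
    (C : (P → Option ι) → ℝ) (hW : ∀ σ, v σ ≠ 0 → Tame Q0 (W σ) (C σ)) (N : ℕ) :
    |∑ m ∈ range N, (∑ σ : P → Option ι, v σ * (Phi P A σ m * W σ m)) ^ 2 -
      N * ∑ σ : P → Option ι, ∑ τ : P → Option ι,
        v σ * v τ * KK P σ τ * E Q0 (fun m => W σ m * W τ m)| ≤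
      (∑ σ : P → Option ι, |v σ| * ((DD P σ : ℝ) ^ 2 * C σ)) ^ 2 := by
  classical
  set Q : ℕ := Q0 * ∏ p ∈ P, p with hQ
  have hQpos : 0 < Q := Nat.mul_pos hQ0 (prod_pos fun p hp => (h.prime p hp).pos)
  have hone : ∀ σ, Tame Q (fun m => v σ * (Phi P A σ m * W σ m))
      (|v σ| * ((DD P σ : ℝ) ^ 2 * C σ)) := by
    intro σ
    by_cases hv : v σ = 0
    · have e := Tame.zero (Q := Q)
      simp only [hv, zero_mul, abs_zero]
      exact e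
    · exact Tame.smul _ ((tame_Phi h (Dvd.intro_left Q0 rfl) σ).mul
        ((hW σ hv).of_dvd (Dvd.intro _ rfl)))
  have hsum := Tame.sum univ (fun σ _ => hone σ)
  have hsq := (hsum.mul hsum).transfer hQpos N
  have e1 : ∑ m ∈ range N, (∑ σ : P → Option ι, v σ * (Phi P A σ m * W σ m)) ^ 2 =
      ∑ m ∈ range N, (∑ σ : P → Option ι, v σ * (Phi P A σ m * W σ m)) *
        (∑ σ : P → Option ι, v σ * (Phi P A σ m * W σ m)) :=
    sum_congr rfl fun m _ => sq _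
  have e2 : E Q (fun m => (∑ σ : P → Option ι, v σ * (Phi P A σ m * W σ m)) *
        (∑ σ : P → Option ι, v σ * (Phi P A σ m * W σ m))) =
      ∑ σ : P → Option ι, ∑ τ : P → Option ι,
        v σ * v τ * KK P σ τ * E Q0 (fun m => W σ m * W τ m) := by
    have e3 : (fun m => (∑ σ : P → Option ι, v σ * (Phi P A σ m * W σ m)) *
        (∑ σ : P → Option ι, v σ * (Phi P A σ m * W σ m))) =
        fun m => ∑ σ : P → Option ι, ∑ τ : P → Option ι,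
          (v σ * v τ) * ((W σ m * W τ m) * (Phi P A σ m * Phi P A τ m)) := by
      funext m
      rw [sum_mul_sum]
      refine sum_congr rfl fun σ _ => sum_congr rfl fun τ _ => ?_
      ring
    rw [e3, E_sum]
    refine sum_congr rfl fun σ _ => ?_
    rw [E_sum]
    refine sum_congr rfl fun τ _ => ?_
    rw [E_smul]
    by_cases hσ : v σ = 0
    · simp [hσ]
    by_cases hτ : v τ = 0
    · simp [hτ]
    have hper : Function.Periodic (fun m => W σ m * W τ m) Q0 :=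
      ((hW σ hσ).mul (hW τ hτ)).periodic
    have e4 := E_Phi_mul h hQ0 hc σ τ hper
    rw [hQ, e4]
    ring
  rw [e1, ← e2, sq]
  exact hsq

theorem E_sq_eq (Q : ℕ) (F : ℕ → ℝ) : E Q (fun m => F m * F m) = E Q (fun m => F m ^ 2) := by
  congr 1
  funext m
  ring

theorem E_kernel (Q : ℕ) (F G : ℕ → ℝ) : |E Q (fun m => F m * G m)| ≤
    Real.sqrt (E Q (fun m => F m * F m)) * Real.sqrt (E Q (fun m => G m * G m)) := by
  rw [E_sq_eq, E_sq_eq]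
  exact abs_E_mul_le Q F G

/-- (Q), lower bound. -/
theorem quad_lower {P : Finset ℕ} {A : ℕ → ι → ℕ → Prop} (h : Forms P A) {Q0 : ℕ} (hQ0 : 0 < Q0)
    (hc : ∀ p ∈ P, ¬ p ∣ Q0) (v : (P → Option ι) → ℝ) (W : (P → Option ι) → ℕ → ℝ)
    (C : (P → Option ι) → ℝ) (hW : ∀ σ, v σ ≠ 0 → Tame Q0 (W σ) (C σ)) (N : ℕ) (ε : ℝ)
    (hε : ∀ σ, v σ ≠ 0 → (∏ p : P, if σ p = none then (1 : ℝ)
        else 1 + ((Fintype.card ι : ℝ) - 1) / (((p : ℕ) : ℝ) - 1)) ≤ 1 + ε) :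
    N * ((1 - ε) * ∑ σ : P → Option ι, v σ ^ 2 * ph P σ * E Q0 (fun m => W σ m ^ 2)) -
      (∑ σ : P → Option ι, |v σ| * ((DD P σ : ℝ) ^ 2 * C σ)) ^ 2 ≤
      ∑ m ∈ range N, (∑ σ : P → Option ι, v σ * (Phi P A σ m * W σ m)) ^ 2 := by
  have h1 := quad_tame h hQ0 hc v W C hW N
  have h2 := gram_lower_c P h.prime v (fun σ τ => E Q0 (fun m => W σ m * W τ m))
    (fun σ => E_nonneg _ fun m => mul_self_nonneg _) (fun σ τ _ _ => E_kernel Q0 (W σ) (W τ)) ε hε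
  simp only [E_sq_eq] at h2
  have h3 := mul_le_mul_of_nonneg_left h2 (Nat.cast_nonneg N)
  have h4 := (abs_le.1 h1).1
  linarith

/-- (Q), upper bound. -/
theorem quad_upper {P : Finset ℕ} {A : ℕ → ι → ℕ → Prop} (h : Forms P A) {Q0 : ℕ} (hQ0 : 0 < Q0)
    (hc : ∀ p ∈ P, ¬ p ∣ Q0) (v a : (P → Option ι) → ℝ) (hva : ∀ σ, |v σ| ≤ a σ)
    (W : (P → Option ι) → ℕ → ℝ)
    (C : (P → Option ι) → ℝ) (hW : ∀ σ, v σ ≠ 0 → Tame Q0 (W σ) (C σ)) (N : ℕ) (ε : ℝ)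
    (hε : ∀ σ, a σ ≠ 0 → (∏ p : P, if σ p = none then (1 : ℝ)
        else 1 + ((Fintype.card ι : ℝ) - 1) / (((p : ℕ) : ℝ) - 1)) ≤ 1 + ε) :
    ∑ m ∈ range N, (∑ σ : P → Option ι, v σ * (Phi P A σ m * W σ m)) ^ 2 ≤
      N * (∑ σ : P → Option ι, v σ ^ 2 * ph P σ * E Q0 (fun m => W σ m ^ 2) +
        ε * ∑ σ : P → Option ι, a σ ^ 2 * ph P σ * E Q0 (fun m => W σ m ^ 2)) +
      (∑ σ : P → Option ι, |v σ| * ((DD P σ : ℝ) ^ 2 * C σ)) ^ 2 := by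
  have h1 := quad_tame h hQ0 hc v W C hW N
  have h2 := gram_upper_c P h.prime v a hva (fun σ τ => E Q0 (fun m => W σ m * W τ m))
    (fun σ => E_nonneg _ fun m => mul_self_nonneg _) (fun σ τ _ _ => E_kernel Q0 (W σ) (W τ)) ε hε
  simp only [E_sq_eq] at h2
  have h3 := mul_le_mul_of_nonneg_left h2 (Nat.cast_nonneg N)
  have h4 := (abs_le.1 h1).2
  linarith

/-- The product of the small weights over the used positions. -/
noncomputable def LamS (Lam : ι → ℕ → ℝ) (S : Finset ι) (m : ℕ) : ℝ := ∏ i ∈ S, Lam i m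

/-- `e(S)`, the mean of `Lam_S ^ 2`. -/
noncomputable def eS (Q0 : ℕ) (Lam : ι → ℕ → ℝ) (S : Finset ι) : ℝ :=
  E Q0 (fun m => LamS Lam S m ^ 2)

theorem eS_nonneg (Q0 : ℕ) (Lam : ι → ℕ → ℝ) (S : Finset ι) : 0 ≤ eS Q0 Lam S :=
  E_nonneg _ fun _ => sq_nonneg _

theorem eS_empty {Q0 : ℕ} (hQ0 : 0 < Q0) (Lam : ι → ℕ → ℝ) : eS Q0 Lam ∅ = 1 := by
  unfold eS LamS
  simp only [prod_empty, one_pow]
  exact E_const hQ0 1

theorem LamS_sq (Lam : ι → ℕ → ℝ) (S : Finset ι) (m : ℕ) :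
    LamS Lam S m ^ 2 = ∏ i ∈ S, Lam i m ^ 2 := by
  unfold LamS
  rw [prod_pow]

theorem eS_insert {Q0 : ℕ} {Lam : ι → ℕ → ℝ} {K : ℕ} {v η c : ℝ} (hS : Small Q0 Lam K v η c)
    (S : Finset ι) (i : ι) (hi : i ∉ S) (hK : S.card ≤ K) :
    eS Q0 Lam (insert i S) ≤ v * eS Q0 Lam S := by
  have h1 := hS.ratio S hK i hi
  unfold eS
  simp only [LamS_sq]
  refine le_trans (le_of_eq ?_) h1
  congr 1
  funext m
  rw [prod_insert hi]

theorem tame_LamS {Q0 : ℕ} {Lam : ι → ℕ → ℝ} {K : ℕ} {v η c : ℝ} (hS : Small Q0 Lam K v η c)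
    (S : Finset ι) (hK : S.card ≤ K) : Tame Q0 (LamS Lam S) (c ^ K) := by
  have h1 := Tame.prod S (fun i _ => hS.tame i)
  rw [prod_const] at h1
  exact h1.mono (pow_le_pow_right₀ hS.one_le hK)

/-- the tail for the small weights -/
theorem tail_small {P : Finset ℕ} (hP : ∀ p ∈ P, p.Prime) {Q0 : ℕ} {Lam : ι → ℕ → ℝ} {K : ℕ}
    {v η c : ℝ} (hS : Small Q0 Lam K v η c) (g : ι → ℕ → ℝ) (B Y : ℕ) (hB : 1 ≤ B) (hY : 1 ≤ Y)
    (s : ℝ) (hs : 0 ≤ s) (K' : ℝ)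
    (hK' : ∀ i, ∑ T ∈ QQ P B, g i (∏ p ∈ T, p) ^ 2 * (Nat.totient (∏ p ∈ T, p) : ℝ) *
          (((∏ p ∈ T, p : ℕ) : ℝ) ^ s - 1) ≤ K')
    (hK : ∀ σ : P → Option ι, DD P σ ≤ Y → (used P σ).card ≤ K) :
    ∑ σ ∈ (univ : Finset (P → Option ι)).filter (fun σ => Y < DD P σ * B),
        cf P (chi g B) Y σ ^ 2 * ph P σ * eS Q0 Lam (used P σ) ≤
      ((B : ℝ) / Y) ^ s * Real.exp ((Fintype.card ι : ℝ) * v * K') *
        ∑ σ : P → Option ι, cf P (chi g B) Y σ ^ 2 * ph P σ * eS Q0 Lam (used P σ) :=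
  tail_le_e P hP g B Y hB hY s hs K' hK' (eS Q0 Lam) (eS_nonneg Q0 Lam) v hS.v_nonneg K
    (fun S i hi hlt => eS_insert hS S i hi hlt.le) hK

/-- `∑_σ |v_σ| DD^2 c^K ≤ 2^R Y^2 c^K` when `|v| ≤ |cf|`. -/
theorem norm_le {P : Finset ℕ} (hP : ∀ p ∈ P, p.Prime) (g : ι → ℕ → ℝ) (hg : ∀ i n, 0 ≤ g i n)
    (B Y : ℕ) (hB : 1 ≤ B) (hsum : ∀ i, ∑ T ∈ QQ P B, g i (∏ p ∈ T, p) = 1)
    (v : (P → Option ι) → ℝ) (hv : ∀ σ, |v σ| ≤ |cf P (chi g B) Y σ|) (C : ℝ) (hC : 0 ≤ C) :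
    ∑ σ : P → Option ι, |v σ| * ((DD P σ : ℝ) ^ 2 * C) ≤
      2 ^ Fintype.card ι * (Y : ℝ) ^ 2 * C := by
  have h1 : ∀ σ : P → Option ι, |v σ| * ((DD P σ : ℝ) ^ 2 * C) ≤
      |cf P (chi g B) Y σ| * ((Y : ℝ) ^ 2 * C) := by
    intro σ
    by_cases h0 : cf P (chi g B) Y σ = 0
    · have h2 := hv σ
      rw [h0, abs_zero] at h2
      have h3 : |v σ| = 0 := le_antisymm h2 (abs_nonneg _)
      rw [h3, h0]
      simp
    · have h2 : (DD P σ : ℝ) ≤ Y := by exact_mod_cast abs_cf_DD P (chi g B) Y σ h0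
      have h3 : (DD P σ : ℝ) ^ 2 ≤ (Y : ℝ) ^ 2 := by gcongr
      exact mul_le_mul (hv σ) (mul_le_mul_of_nonneg_right h3 hC) (by positivity) (abs_nonneg _)
  refine (sum_le_sum fun σ _ => h1 σ).trans ?_
  rw [← sum_mul]
  have h4 := sum_abs_cf P hP g hg B Y hB hsum
  calc (∑ σ : P → Option ι, |cf P (chi g B) Y σ|) * ((Y : ℝ) ^ 2 * C) ≤
        2 ^ Fintype.card ι * ((Y : ℝ) ^ 2 * C) := mul_le_mul_of_nonneg_right h4 (by positivity)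
    _ = _ := by ring

end Pool.Agent.H.MP_711652_nt.G2
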