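import Pool.Agent.H.MP_711652_nt.LG.Mean2

/-!
# The exact mean of `Φ_σ Φ_τ` over a period
-/

set_option autoImplicit false

namespace Pool.Agent.H.MP_711652_nt.G2

open Finset Pool.Agent.H.MP_711652_nt.LG

variable {ι : Type*} [Fintype ι] [DecidableEq ι]

omit [Fintype ι] [DecidableEq ι] in
/-- `Φ_σ` has period `∏ P`. -/
theorem Phi_periodic {P : Finset ℕ} {A : ℕ → ι → ℕ → Prop} (h : Forms P A) (σ : P → Option ι) :
    Function.Periodic (Phi P A σ) (∏ p ∈ P, p) := by
  classical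
  let s : ℕ → Option ι := fun p => if hp : p ∈ P then σ ⟨p, hp⟩ else none
  have hs : ∀ p : P, s p = σ p := fun p => dif_pos p.2
  have h1 : Phi P A σ = fun m => ∏ p ∈ P, Ef A p (s p) m := by
    funext m
    rw [Phi, ← Finset.prod_coe_sort P (fun p => Ef A p (s p) m)]
    exact Finset.prod_congr rfl fun p _ => by rw [hs]
  rw [h1]
  exact mean1_per P (fun p m => Ef A p (s p) m) (fun p hp m => mean2_per h hp _ m)

omit [Fintype ι] in
/-- The exact mean of `Φ_σ Φ_τ` over the period `∏ P`. -/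
theorem phi_full {P : Finset ℕ} {A : ℕ → ι → ℕ → Prop} (h : Forms P A) (σ τ : P → Option ι) :
    ∑ m ∈ range (∏ p ∈ P, p), Phi P A σ m * Phi P A τ m = ((∏ p ∈ P, p : ℕ) : ℝ) * KK P σ τ := by
  classical
  let s : ℕ → Option ι := fun p => if hp : p ∈ P then σ ⟨p, hp⟩ else none
  let t : ℕ → Option ι := fun p => if hp : p ∈ P then τ ⟨p, hp⟩ else none
  have hs : ∀ p : P, s p = σ p := fun p => dif_pos p.2
  have ht : ∀ p : P, t p = τ p := fun p => dif_pos p.2
  have h1 : ∀ m, Phi P A σ m * Phi P A τ m = ∏ p ∈ P, (Ef A p (s p) m * Ef A p (t p) m) := by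
    intro m
    rw [Phi, Phi, ← Finset.prod_mul_distrib,
      ← Finset.prod_coe_sort P (fun p => Ef A p (s p) m * Ef A p (t p) m)]
    exact Finset.prod_congr rfl fun p _ => by rw [hs, ht]
  rw [Finset.sum_congr rfl fun m _ => h1 m,
    mean1_full P h.prime (fun p m => Ef A p (s p) m * Ef A p (t p) m)
      (fun p hp m => by simp only [mean2_per h hp])]
  have h2 : ∀ p ∈ P, ∑ m ∈ range p, Ef A p (s p) m * Ef A p (t p) m = (p : ℝ) * kap p (s p) (t p) := by
    intro p hp
    have hp0 : (p : ℝ) ≠ 0 := by exact_mod_cast (h.prime p hp).ne_zero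
    rw [← mean2_kap h hp (s p) (t p)]
    field_simp
  rw [Finset.prod_congr rfl h2, Finset.prod_mul_distrib, Nat.cast_prod]
  congr 1
  rw [KK, ← Finset.prod_coe_sort P (fun p => kap p (s p) (t p))]
  exact Finset.prod_congr rfl fun p _ => by rw [hs, ht]

end Pool.Agent.H.MP_711652_nt.G2
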