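import Pool.Agent.H.MP_711652_nt.LG.PrimeSum

/-!
# MP_711652_nt, GAP2, Res: the average over the residue `ν`, good windows (helper91)
-/

set_option autoImplicit false

namespace Pool.Agent.H.MP_711652_nt.G2

open Finset Pool.Agent.H.MP_711652_nt.LG

/-- Each position is coprime to `W` for exactly `φ(W)` residues. -/
theorem res_one (W k : ℕ) :
    ((range W).filter fun ν => Nat.Coprime (ν + k) W).card = Nat.totient W := by
  rw [← Nat.filter_coprime_Ico_eq_totient W k]
  refine card_bij (fun ν _ => ν + k) ?_ ?_ ?_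
  · intro ν hν
    rw [mem_filter, mem_range] at hν
    rw [mem_filter, mem_Ico]
    exact ⟨⟨by omega, by omega⟩, Nat.Coprime.symm hν.2⟩
  · intro a _ b _ h
    exact Nat.add_right_cancel h
  · intro x hx
    rw [mem_filter, mem_Ico] at hx
    have h1 : x - k + k = x := Nat.sub_add_cancel hx.1.1
    refine ⟨x - k, ?_, h1⟩
    rw [mem_filter, mem_range, h1]
    exact ⟨by omega, Nat.Coprime.symm hx.2⟩

/-- The sum over the residues of the number of positions of `s` coprime to `W`. -/
theorem res_sum (W : ℕ) (s : Finset ℕ) :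
    ∑ ν ∈ range W, (s.filter fun k => Nat.Coprime (ν + k) W).card = s.card * Nat.totient W := by
  simp only [card_filter]
  rw [sum_comm]
  have h : ∀ k ∈ s, (∑ ν ∈ range W, if Nat.Coprime (ν + k) W then 1 else 0) = Nat.totient W := by
    intro k _
    rw [← res_one W k, card_filter]
  rw [sum_congr rfl h, sum_const, smul_eq_mul]

/-- `φ(W) / W` for the primorial. -/
theorem res_totient (D : ℕ) :
    (Nat.totient (primorial D) : ℝ) =
      (primorial D : ℝ) * ∏ p ∈ (Icc 1 D).filter Nat.Prime, (1 - 1 / (p : ℝ)) := by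
  have h1 := Nat.totient_eq_mul_prod_factors (primorial D)
  have h2 : (primorial D).primeFactors = (Icc 1 D).filter Nat.Prime := by
    rw [primeFactors_primorial, Nat.primesLE_eq_filter_range]
    ext p
    simp only [mem_filter, mem_range, mem_Icc]
    constructor
    · rintro ⟨h, hp⟩
      exact ⟨⟨hp.one_le, by omega⟩, hp⟩
    · rintro ⟨h, hp⟩
      exact ⟨by omega, hp⟩
  rw [h2] at h1
  have h3 : ((Nat.totient (primorial D) : ℚ) : ℝ) =
      (((primorial D : ℚ) * ∏ p ∈ (Icc 1 D).filter Nat.Prime, (1 - (p : ℚ)⁻¹) : ℚ) : ℝ) := by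
    rw [h1]
  push_cast at h3
  rw [h3]
  simp only [one_div]

/-- Good windows, general form: if every window has at most `H` integers and
`2 C H / log D ≤ ε R`, then for all but at most `ε W` of the residues `ν < W` at least half of the
`M` windows have at most `R` positions coprime to `W`. -/
theorem res_good : ∃ C : ℝ, 0 < C ∧ ∀ D : ℕ, 2 ≤ D → ∀ (M : ℕ) (I : ℕ → Finset ℕ) (H R ε : ℝ),
    (∀ j < M, ((I j).card : ℝ) ≤ H) → 0 < R → 0 ≤ ε → 2 * (C * H / Real.log D) ≤ ε * R →
    (((range (primorial D)).filter fun ν =>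
      2 * ((range M).filter fun j =>
        (((I j).filter fun k => Nat.Coprime (ν + k) (primorial D)).card : ℝ) ≤ R).card < M).card : ℝ) ≤
      ε * primorial D := by
  obtain ⟨C, hC, hprod⟩ := prod_primes_le
  refine ⟨C, hC, fun D hD M I H R ε hI hR hε0 hε => ?_⟩
  set W := primorial D with hW
  have hW0 : (0 : ℝ) < W := by exact_mod_cast primorial_pos D
  have hD1 : (1 : ℝ) < D := by exact_mod_cast hD
  have hlD : 0 < Real.log D := Real.log_pos hD1
  have hφ : (Nat.totient W : ℝ) ≤ W * (C / Real.log D) := by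
    rw [hW, res_totient]
    exact mul_le_mul_of_nonneg_left (hprod D hD) hW0.le
  -- the number of the pairs (residue, bad window)
  set B : Finset ℕ := (range W).filter fun ν =>
      2 * ((range M).filter fun j =>
        (((I j).filter fun k => Nat.Coprime (ν + k) W).card : ℝ) ≤ R).card < M with hB
  have h1 : ∀ ν ∈ B, (M : ℝ) * R ≤
      2 * ∑ j ∈ range M, (((I j).filter fun k => Nat.Coprime (ν + k) W).card : ℝ) := by
    intro ν hν
    rw [hB, mem_filter] at hν
    have h2 := hν.2
    set G := (range M).filter fun j =>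
        (((I j).filter fun k => Nat.Coprime (ν + k) W).card : ℝ) ≤ R with hG
    set G' := (range M).filter fun j =>
        ¬ (((I j).filter fun k => Nat.Coprime (ν + k) W).card : ℝ) ≤ R with hG'
    have h3 : G.card + G'.card = M := by
      rw [hG, hG', card_filter_add_card_filter_not, card_range]
    have h4 : M ≤ 2 * G'.card := by omega
    have h5 : (M : ℝ) ≤ 2 * G'.card := by exact_mod_cast h4
    have h6 : (G'.card : ℝ) * R ≤
        ∑ j ∈ G', (((I j).filter fun k => Nat.Coprime (ν + k) W).card : ℝ) := by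
      rw [← nsmul_eq_mul]
      refine card_nsmul_le_sum _ _ _ fun j hj => ?_
      rw [hG', mem_filter] at hj
      exact (not_le.1 hj.2).le
    have h7 : ∑ j ∈ G', (((I j).filter fun k => Nat.Coprime (ν + k) W).card : ℝ) ≤
        ∑ j ∈ range M, (((I j).filter fun k => Nat.Coprime (ν + k) W).card : ℝ) :=
      sum_le_sum_of_subset_of_nonneg (filter_subset _ _) fun _ _ _ => Nat.cast_nonneg _
    calc (M : ℝ) * R ≤ 2 * G'.card * R := mul_le_mul_of_nonneg_right h5 hR.le
      _ = 2 * (G'.card * R) := by ring
      _ ≤ _ := by linarith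
  have h8 : (B.card : ℝ) * (M * R) ≤
      2 * ∑ ν ∈ range W, ∑ j ∈ range M,
        (((I j).filter fun k => Nat.Coprime (ν + k) W).card : ℝ) := by
    have h9 : (B.card : ℝ) * (M * R) ≤ ∑ ν ∈ B,
        2 * ∑ j ∈ range M, (((I j).filter fun k => Nat.Coprime (ν + k) W).card : ℝ) := by
      rw [← nsmul_eq_mul]
      exact card_nsmul_le_sum _ _ _ h1
    refine h9.trans ?_
    rw [← mul_sum]
    refine mul_le_mul_of_nonneg_left ?_ (by norm_num)
    refine sum_le_sum_of_subset_of_nonneg (filter_subset _ _) fun _ _ _ => ?_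
    exact sum_nonneg fun _ _ => Nat.cast_nonneg _
  have h10 : ∑ ν ∈ range W, ∑ j ∈ range M,
        (((I j).filter fun k => Nat.Coprime (ν + k) W).card : ℝ) ≤
      M * (H * (W * (C / Real.log D))) := by
    rw [sum_comm]
    have h11 : ∀ j ∈ range M, ∑ ν ∈ range W,
        (((I j).filter fun k => Nat.Coprime (ν + k) W).card : ℝ) ≤ H * (W * (C / Real.log D)) := by
      intro j hj
      have h12 := res_sum W (I j)
      have h13 : ∑ ν ∈ range W, (((I j).filter fun k => Nat.Coprime (ν + k) W).card : ℝ) =
          (I j).card * Nat.totient W := by exact_mod_cast h12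
      rw [h13]
      exact mul_le_mul (hI j (mem_range.1 hj)) hφ (Nat.cast_nonneg _)
        ((Nat.cast_nonneg _).trans (hI j (mem_range.1 hj)))
    refine (sum_le_sum h11).trans (le_of_eq ?_)
    rw [sum_const, card_range, nsmul_eq_mul]
  rcases Nat.eq_zero_or_pos M with hM | hM
  · -- no windows: no bad residue
    have : B = ∅ := by
      rw [hB, filter_eq_empty_iff]
      intro ν _
      rw [hM]
      omega
    rw [this, card_empty, Nat.cast_zero]
    exact mul_nonneg hε0 hW0.le
  have hM0 : (0 : ℝ) < M := by exact_mod_cast hM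
  have h15 : (B.card : ℝ) * (M * R) ≤ (ε * W) * (M * R) := by
    refine h8.trans ?_
    have h16 : 2 * ∑ ν ∈ range W, ∑ j ∈ range M,
        (((I j).filter fun k => Nat.Coprime (ν + k) W).card : ℝ) ≤
        2 * (M * (H * (W * (C / Real.log D)))) := by linarith
    refine h16.trans ?_
    have h17 : 2 * (M * (H * (W * (C / Real.log D)))) = (2 * (C * H / Real.log D)) * (M * W) := by
      ring
    rw [h17]
    have h18 : (2 * (C * H / Real.log D)) * (M * W) ≤ (ε * R) * (M * W) :=
      mul_le_mul_of_nonneg_right hε (by positivity)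
    linarith
  exact le_of_mul_le_mul_right h15 (by positivity)

end Pool.Agent.H.MP_711652_nt.G2
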