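import Pool.Agent.H.MP_711652_nt.G2.Stmt

/-!
# GAP3, (F): from a prime-free run in `(n, n + H]` to a gap which meets `[n, n + H]`
-/

set_option autoImplicit false

namespace Pool.Agent.H.MP_711652_nt.G2

/-- A prime-free run `(t, t + g]` inside `[n, n + H]` lies between two consecutive primes. -/
theorem gap_of_void {n t g H : ℕ} (hn : 2 ≤ n) (hnt : n ≤ t) (htg : t + g ≤ n + H)
    (hv : ∀ k : ℕ, t < k → k ≤ t + g → ¬ k.Prime) :
    ∃ k : ℕ, max (Nat.nth Nat.Prime k) n + g ≤ min (Nat.nth Nat.Prime (k + 1)) (n + H) := by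
  have hinf := Nat.infinite_setOfPred_prime
  have hc1 : Nat.count Nat.Prime 2 < Nat.count Nat.Prime (t + 1) :=
    Nat.count_strict_mono Nat.prime_two (by omega)
  obtain ⟨c, hc⟩ : ∃ c, Nat.count Nat.Prime (t + 1) = c + 1 :=
    ⟨Nat.count Nat.Prime (t + 1) - 1, by omega⟩
  have h4 : Nat.nth Nat.Prime c < t + 1 := Nat.nth_lt_of_lt_count (by omega)
  have h5 : t + 1 ≤ Nat.nth Nat.Prime (c + 1) := by
    rw [← hc]
    exact Nat.le_nth_count hinf (t + 1)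
  have h6 : (Nat.nth Nat.Prime (c + 1)).Prime := Nat.prime_nth_prime (c + 1)
  have h7 : t + g < Nat.nth Nat.Prime (c + 1) := by
    by_contra h8
    exact hv _ (by omega) (by omega) h6
  refine ⟨c, ?_⟩
  have h8 : max (Nat.nth Nat.Prime c) n ≤ t := max_le (by omega) hnt
  have h9 : t + g ≤ min (Nat.nth Nat.Prime (c + 1)) (n + H) := le_min h7.le htg
  omega

/-- The conclusion of Theorem A for one `n`: a gap between consecutive primes meets `[n, n + H]` in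
length at least `s`. -/
def MeetsGap (s : ℝ) (H n : ℕ) : Prop :=
  ∃ k : ℕ, max (Nat.nth Nat.Prime k : ℝ) n + s ≤ min (Nat.nth Nat.Prime (k + 1) : ℝ) (n + H)

theorem meetsGap_of_void {n t g H : ℕ} {s : ℝ} (hn : 2 ≤ n) (hnt : n ≤ t) (htg : t + g ≤ n + H)
    (hs : s ≤ g) (hv : ∀ k : ℕ, t < k → k ≤ t + g → ¬ k.Prime) : MeetsGap s H n := by
  obtain ⟨k, hk⟩ := gap_of_void hn hnt htg hv
  refine ⟨k, ?_⟩
  have h1 : (max (Nat.nth Nat.Prime k : ℝ) n) + g ≤ min (Nat.nth Nat.Prime (k + 1) : ℝ) (n + H) := by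
    exact_mod_cast hk
  linarith

/-- Theorem A. -/
def ThmA : Prop :=
  ∀ A : ℝ, ∃ c : ℝ, 0 < c ∧ ∃ X₀ : ℕ, ∀ X : ℕ, X₀ ≤ X → ∀ H : ℕ,
    Real.log (Real.log X) ^ 3 ≤ Real.log H → H ≤ X →
      ({n : ℕ | n < X ∧ ¬ MeetsGap (c * Real.log X * Real.log (Real.log H)) H n}.ncard : ℝ) ≤
        X / Real.log X ^ A

end Pool.Agent.H.MP_711652_nt.G2
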