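import Pool.Agent.H.MP_711652_nt.G2.BE5

/-!
# GAP2, Small: the product over the blocks and the interface of the small primes
-/

set_option autoImplicit false

namespace Pool.Agent.H.MP_711652_nt.G2

open Finset Pool.Agent.H.MP_711652_nt.LG

variable {ι : Type*} [Fintype ι] [DecidableEq ι]

/-- The interface: what is used about the weights `Lam i m` of the small primes (`Q0` = their product). -/
structure Small (Q0 : ℕ) (Lam : ι → ℕ → ℝ) (K : ℕ) (v η c : ℝ) : Prop where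
  pos : 0 < Q0
  int : ∀ i m, ∃ z : ℤ, Lam i m = z
  tame : ∀ i, Tame Q0 (Lam i) c
  one_le : 1 ≤ c
  v_nonneg : 0 ≤ v
  η_nonneg : 0 ≤ η
  ratio : ∀ S : Finset ι, S.card ≤ K → ∀ i ∉ S,
    E Q0 (fun m => Lam i m ^ 2 * ∏ k ∈ S, Lam k m ^ 2) ≤ v * E Q0 (fun m => ∏ k ∈ S, Lam k m ^ 2)
  four : ∀ U : Finset ι, U.card ≤ 4 * K → E Q0 (fun m => ∏ k ∈ U, Lam k m ^ 4) ≤ v ^ U.card
  split : ∀ S T : Finset ι, Disjoint S T → S.card ≤ K → T.card ≤ K →
    E Q0 (fun m => (∏ k ∈ S, Lam k m ^ 2) * ∏ k ∈ T, Lam k m ^ 2) ≤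
      (1 + η) * (E Q0 (fun m => ∏ k ∈ S, Lam k m ^ 2) * E Q0 (fun m => ∏ k ∈ T, Lam k m ^ 2))

/-- the weight: product over the blocks `blk j`, `j < l` -/
noncomputable def LamB (A : ℕ → ι → ℕ → Prop) (l : ℕ) (blk : ℕ → Finset ℕ) (nn : ℕ → ℕ) (i : ι) (m : ℕ) : ℝ :=
  ∏ j ∈ range l, (lam (nn j) (om A (blk j) i m) : ℝ)

omit [Fintype ι] [DecidableEq ι] in
/-- PROOF. `lam n 0 = 1`. -/
theorem LamB_eq_one {A : ℕ → ι → ℕ → Prop} {l : ℕ} {blk : ℕ → Finset ℕ} {nn : ℕ → ℕ} {i : ι} {m : ℕ}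
    (h : ∀ j < l, ∀ p ∈ blk j, ¬ A p i m) : LamB A l blk nn i m = 1 := by
  unfold LamB
  rw [← BE.Lam_bls A l blk nn (fun _ => 0) i m, BE.Lam_eq_one A i m, Int.cast_one]
  intro p hp
  rw [BE.mem_bP_bls] at hp
  obtain ⟨j, hj, hp⟩ := hp
  exact h j hj p hp

/-- the decoupling factors -/
theorem small_dc {N : ℕ} {u : ℝ} (hu : 8 * (N : ℝ) * Real.exp (33 * N) ≤ u) (hu0 : 0 < u) :
    BE.dc N u ≤ 1 + 6 * (N : ℝ) * Real.exp (33 * N) / u := by
  unfold BE.dc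
  obtain ⟨t, ht⟩ : ∃ t, t = 2 * N / u * Real.exp (33 * N) := ⟨_, rfl⟩
  have h0 : 0 ≤ t := by
    rw [ht]
    exact mul_nonneg (by positivity) (Real.exp_pos _).le
  have h1 : t ≤ 1 / 4 := by
    have e : t = 2 * N * Real.exp (33 * N) / u := by rw [ht]; ring
    rw [e, div_le_iff₀ hu0]
    linarith
  have e : 1 + 6 * (N : ℝ) * Real.exp (33 * N) / u = 1 + 3 * t := by
    rw [ht]
    ring
  rw [e, ← ht]
  nlinarith

/-- PROOF. All the functions are products over the blocks of functions with period `∏ blk j`: `E_prod` reduces everything to `block_ratio` (with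
`4 * K` in place of `K`) and `block_split`.  `four` by induction from the ratio bound with exponent 4. -/
theorem small_of_blocks {P : Finset ℕ} {A : ℕ → ι → ℕ → Prop} (h : Forms P A) (l : ℕ)
    (blk : ℕ → Finset ℕ) (nn : ℕ → ℕ) (hblk : ∀ j < l, blk j ⊆ P)
    (hdisj : ∀ i < l, ∀ j < l, i ≠ j → Disjoint (blk i) (blk j)) (u : ℕ → ℝ)
    (hu : ∀ j < l, ∀ p ∈ blk j, u j ≤ (p : ℝ)) (hu0 : ∀ j < l, 0 < u j)
    (hp : ∀ j < l, ∀ p ∈ blk j, 34 ≤ p) (K : ℕ) (hK1 : 1 ≤ K)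
    (hbig : ∀ j < l, 8 * ((4 * K : ℕ) : ℝ) * Real.exp (33 * ((4 * K : ℕ) : ℝ)) ≤ u j)
    (hs : ∀ j < l, ∑ p ∈ blk j, 1 / (p : ℝ) ≤ 1) (v η : ℝ) (hη : 0 ≤ η)
    (hη' : ∏ j ∈ range l, (1 + 6 * ((4 * K : ℕ) : ℝ) * Real.exp (33 * ((4 * K : ℕ) : ℝ)) / u j) ≤ 1 + η)
    (hv : ∏ j ∈ range l, ((1 + 6 * ((4 * K : ℕ) : ℝ) * Real.exp (33 * ((4 * K : ℕ) : ℝ)) / u j) *
      (1 + Real.exp 34 / 2 ^ (nn j + 1)) * ∏ p ∈ blk j, (1 - 1 / (p : ℝ))) ≤ v) :
    Small (∏ j ∈ range l, ∏ p ∈ blk j, p) (LamB A l blk nn) K v η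
      (∏ j ∈ range l, (((blk j).card : ℝ) + 1) ^ nn j) := by
  have _ := hp
  obtain ⟨N, hN⟩ : ∃ N : ℕ, N = 4 * K := ⟨_, rfl⟩
  rw [← hN] at hbig hη' hv
  have hN1 : 1 ≤ N := by omega
  obtain ⟨bl, hbl⟩ : ∃ bl, bl = BE.bls l blk nn u := ⟨_, rfl⟩
  have hN1' : (1 : ℝ) ≤ N := by exact_mod_cast hN1
  have hexp : 1 ≤ Real.exp (33 * (N : ℝ)) := Real.one_le_exp (by positivity)
  have hu4 : ∀ j < l, 4 * (N : ℝ) ≤ u j ∧ 1 ≤ u j := by
    intro j hj
    have h1 := hbig j hj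
    have h2 : 8 * (N : ℝ) ≤ 8 * (N : ℝ) * Real.exp (33 * N) :=
      le_mul_of_one_le_right (by positivity) hexp
    constructor <;> linarith
  have hOK : ∀ b ∈ bl, BE.BlkOK N b := by
    intro b hb
    rw [hbl] at hb
    obtain ⟨j, hj, rfl⟩ := BE.mem_bls hb
    exact ⟨by rw [BE.rs_toList]; exact hs j hj,
      fun p hp => hu j hj p (Finset.mem_toList.1 hp), (hu4 j hj).1, (hu4 j hj).2⟩
  have hP : ∀ p ∈ BE.bP bl, p ∈ P := by
    intro p hp
    rw [hbl, BE.mem_bP_bls] at hp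
    obtain ⟨j, hj, hp⟩ := hp
    exact hblk j hj hp
  have hnd : (BE.bP bl).Nodup := by
    rw [hbl]
    exact BE.nodup_bP_bls hdisj
  have hQ : BE.bQ bl = ∏ j ∈ range l, ∏ p ∈ blk j, p := by
    rw [hbl]
    exact BE.bQ_bls l blk nn u
  have hQ0 : 0 < BE.bQ bl := by
    rw [← BE.bP_prod]
    exact BE.period_pos fun p hp => h.prime p (hP p hp)
  have hLam : ∀ i m, LamB A l blk nn i m = (BE.Lam A bl i m : ℝ) := by
    intro i m
    rw [hbl, BE.Lam_bls]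
    rfl
  have hE : ∀ (a : ℕ) (S : Finset ι), E (∏ j ∈ range l, ∏ p ∈ blk j, p)
      (fun m => ∏ k ∈ S, LamB A l blk nn k m ^ a) = BE.EB (fun n w => (BE.lam n w : ℝ) ^ a) bl S := by
    intro a S
    unfold E
    rw [← hQ]
    have h1 : ∀ m, ∏ k ∈ S, LamB A l blk nn k m ^ a = ∏ k ∈ S, (BE.Lam A bl k m : ℝ) ^ a :=
      fun m => prod_congr rfl fun k _ => by rw [hLam]
    rw [sum_congr rfl fun m _ => h1 m, BE.sum_Lam h a S hP hnd]
    have : (BE.bQ bl : ℝ) ≠ 0 := by exact_mod_cast hQ0.ne'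
    field_simp
  have hw2 : ∀ n, BE.Wt n (fun w => (BE.lam n w : ℝ) ^ 2) := BE.wt_two
  have hw4 : ∀ n, BE.Wt n (fun w => (BE.lam n w : ℝ) ^ 4) := BE.wt_four
  have hvv0 : 0 ≤ BE.vv N bl := BE.vv_nonneg hN1 hOK
  have hdc : ∀ j < l, BE.dc N (u j) ≤ 1 + 6 * (N : ℝ) * Real.exp (33 * N) / u j := fun j hj =>
    small_dc (hbig j hj) (hu0 j hj)
  have hdc0 : ∀ j < l, 0 ≤ BE.dc N (u j) := fun j hj =>
    zero_le_one.trans (BE.one_le_dc N (hu0 j hj).le)
  have hvv : BE.vv N bl ≤ v := by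
    refine le_trans ?_ hv
    unfold BE.vv
    rw [hbl]
    unfold BE.bls
    rw [List.map_map, BE.prod_range_list]
    apply prod_le_prod
    · intro j hj
      rw [mem_range] at hj
      show 0 ≤ BE.bv N ⟨(blk j).toList, nn j, u j⟩
      unfold BE.bv
      have h1 : BE.BlkOK N ⟨(blk j).toList, nn j, u j⟩ := hOK _ (by
        rw [hbl]
        exact List.mem_map.2 ⟨j, List.mem_range.2 hj, rfl⟩)
      have h3 := BE.VV_pos (n := 1) (h1.big.mono (by omega))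
      push_cast at h3
      exact mul_nonneg (mul_nonneg (hdc0 j hj) (by positivity)) h3.le
    · intro j hj
      rw [mem_range] at hj
      show BE.bv N ⟨(blk j).toList, nn j, u j⟩ ≤ _
      unfold BE.bv
      have h1 : BE.BlkOK N ⟨(blk j).toList, nn j, u j⟩ := hOK _ (by
        rw [hbl]
        exact List.mem_map.2 ⟨j, List.mem_range.2 hj, rfl⟩)
      have h3 := BE.VV_pos (n := 1) (h1.big.mono (by omega))
      push_cast at h3
      simp only at h3 ⊢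
      rw [← BE.VV_toList 1 (blk j)]
      apply mul_le_mul_of_nonneg_right _ h3.le
      have h4 : 1 + Real.exp 33 * (1 / 2) ^ (nn j + 1) ≤ 1 + Real.exp 34 / 2 ^ (nn j + 1) := by
        have h5 : Real.exp 33 * (1 / 2) ^ (nn j + 1) = Real.exp 33 / 2 ^ (nn j + 1) := by
          rw [one_div, inv_pow]
          rfl
        rw [h5]
        have h6 : Real.exp 33 ≤ Real.exp 34 := Real.exp_le_exp.2 (by norm_num)
        have h7 := div_le_div_of_nonneg_right h6 (show (0 : ℝ) ≤ 2 ^ (nn j + 1) by positivity)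
        linarith
      exact mul_le_mul (hdc j hj) h4 (by positivity) ((hdc0 j hj).trans (hdc j hj))
  have hdd : BE.dd N bl ≤ 1 + η := by
    refine le_trans ?_ hη'
    unfold BE.dd
    rw [hbl]
    unfold BE.bls
    rw [List.map_map, BE.prod_range_list]
    apply prod_le_prod
    · intro j hj
      exact hdc0 j (mem_range.1 hj)
    · intro j hj
      exact hdc j (mem_range.1 hj)
  have hbE : ∀ (a : ℕ), (∀ n, BE.Wt n (fun w => (BE.lam n w : ℝ) ^ a)) → ∀ S : Finset ι,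
      S.card ≤ 2 * N → 0 ≤ BE.EB (fun n w => (BE.lam n w : ℝ) ^ a) bl S := fun a ha S hS =>
    BE.EB_nonneg (h := fun n w => (BE.lam n w : ℝ) ^ a) ha hOK hS
  refine ⟨by rw [← hQ]; exact hQ0, ?_, ?_, ?_, hvv0.trans hvv, hη, ?_, ?_, ?_⟩
  · intro i m
    exact ⟨BE.Lam A bl i m, hLam i m⟩
  · intro i
    refine Tame.prod (range l) fun j hj => ?_
    rw [mem_range] at hj
    exact tame_lam h (hblk j hj) (Finset.dvd_prod_of_mem (fun j => ∏ p ∈ blk j, p)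
      (mem_range.2 hj)) (nn j) i
  · calc (1 : ℝ) = ∏ j ∈ range l, (1 : ℝ) := by rw [prod_const_one]
      _ ≤ ∏ j ∈ range l, (((blk j).card : ℝ) + 1) ^ nn j := by
          apply prod_le_prod (fun _ _ => zero_le_one)
          intro j _
          exact one_le_pow₀ (by
            have : (0 : ℝ) ≤ (blk j).card := Nat.cast_nonneg _
            linarith)
  · intro S hS i hi
    have h1 := BE.EB_insert (h := fun n w => (BE.lam n w : ℝ) ^ 2) hw2 hN1 hOK hi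
      (show S.card ≤ N by omega)
    have h2 : (fun m => LamB A l blk nn i m ^ 2 * ∏ k ∈ S, LamB A l blk nn k m ^ 2) =
        fun m => ∏ k ∈ insert i S, LamB A l blk nn k m ^ 2 := by
      funext m
      rw [prod_insert hi]
    rw [h2, hE, hE]
    exact h1.trans (mul_le_mul_of_nonneg_right hvv (hbE 2 hw2 S (by omega)))
  · intro U hU
    rw [hE]
    refine (BE.EB_le_pow (h := fun n w => (BE.lam n w : ℝ) ^ 4) hw4 hN1 hOK U (by omega)).trans ?_
    exact pow_le_pow_left₀ hvv0 hvv _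
  · intro S T hST hS hT
    have h1 := BE.EB_union (h := fun n w => (BE.lam n w : ℝ) ^ 2) hw2 hOK hST
      (show S.card ≤ N by omega) (show T.card ≤ N by omega)
    have h2 : (fun m => (∏ k ∈ S, LamB A l blk nn k m ^ 2) * ∏ k ∈ T, LamB A l blk nn k m ^ 2) =
        fun m => ∏ k ∈ S ∪ T, LamB A l blk nn k m ^ 2 := by
      funext m
      rw [prod_union hST]
    rw [h2, hE, hE, hE]
    exact h1.trans (mul_le_mul_of_nonneg_right hdd
      (mul_nonneg (hbE 2 hw2 S (by omega)) (hbE 2 hw2 T (by omega))))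

end Pool.Agent.H.MP_711652_nt.G2
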