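import Pool.Agent.H.MP_711652_nt.G2.RunF

/-!
# GAP3: the statements of Theorem A (helper98's plan, part (i))
-/

set_option autoImplicit false

namespace Pool.Agent.H.MP_711652_nt.G2

open Finset

/-- A prime-free run of length `s` inside `(n, n + H]`. -/
def Void (n : ℕ) (H s : ℝ) : Prop :=
  ∃ t : ℕ, n ≤ t ∧ (t : ℝ) + s ≤ n + H ∧ ∀ k : ℕ, t < k → (k : ℝ) ≤ t + s → ¬ k.Prime

/-- A gap between consecutive primes meets `[n, n + H]` in length at least `s`. -/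
def GapMeets (n : ℕ) (H s : ℝ) : Prop :=
  ∃ k : ℕ, max (Nat.nth Nat.Prime k : ℝ) n + s ≤ min (Nat.nth Nat.Prime (k + 1) : ℝ) (n + H)

/-- The length of a window. -/
noncomputable def LamW (c u : ℝ) (X : ℕ) : ℕ := ⌈c * Real.log X * Real.log u⌉₊

open Classical in
/-- One residue `ν` modulo `W = primorial ⌊log X / 10⌋`, one scale `H = exp u * log X`. -/
def CoreS : Prop :=
  ∀ A : ℝ, 0 < A → ∃ c : ℝ, 0 < c ∧ ∃ u₀ : ℝ, 1 < u₀ ∧ ∃ X₀ : ℕ, ∀ X : ℕ, X₀ ≤ X → ∀ u : ℝ,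
    u₀ ≤ u → u ≤ Real.log X ^ (1 / 20 : ℝ) → ∀ ν : ℕ, ν < primorial ⌊Real.log X / 10⌋₊ →
      (((range (X / primorial ⌊Real.log X / 10⌋₊ + 1)).filter fun m =>
        ¬ ∃ j : ℕ, (((j + 1) * LamW c u X : ℕ) : ℝ) ≤ Real.exp u * Real.log X ∧
          ∀ k : ℕ, j * LamW c u X < k → k ≤ (j + 1) * LamW c u X →
            Nat.Coprime (ν + k) (primorial ⌊Real.log X / 10⌋₊) → ∃ p : ℕ, p.Prime ∧
              (p : ℝ) ≤ (X : ℝ) ^ (1 / 10 : ℝ) ∧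
              p ∣ primorial ⌊Real.log X / 10⌋₊ * m + ν + k).card : ℝ) ≤
        1 / 2 * (Real.exp (-(3 * u ^ (1 / 3 : ℝ))) + Real.log X ^ (-A)) *
          ((X / primorial ⌊Real.log X / 10⌋₊ + 1 : ℕ) : ℝ)

/-- One scale `H = exp u * log X`. -/
def OneScale : Prop :=
  ∀ A : ℝ, 0 < A → ∃ c : ℝ, 0 < c ∧ ∃ u₀ : ℝ, 1 < u₀ ∧ ∃ X₀ : ℕ, ∀ X : ℕ, X₀ ≤ X → ∀ u : ℝ,
    u₀ ≤ u → u ≤ Real.log X ^ (1 / 20 : ℝ) →
      ({n : ℕ | n < X ∧ ¬ Void n (Real.exp u * Real.log X)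
        (c * Real.log X * Real.log u)}.ncard : ℝ) ≤
        (Real.exp (-(3 * u ^ (1 / 3 : ℝ))) + Real.log X ^ (-A)) * X

/-- Theorem A (i): all `H ≥ M log X` at once. -/
def AllH : Prop :=
  ∀ A : ℝ, 0 < A → ∃ c : ℝ, 0 < c ∧ ∃ C : ℝ, ∃ X₀ : ℕ, ∀ X : ℕ, X₀ ≤ X → ∀ M : ℝ, C ≤ M →
    ({n : ℕ | n < X ∧ ¬ ∀ H : ℝ, M * Real.log X ≤ H → H ≤ X →
        GapMeets n H (c * Real.log X * Real.log (Real.log (H / Real.log X)))}.ncard : ℝ) ≤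
      (Real.exp (-(Real.log M ^ (1 / 3 : ℝ))) + Real.log X ^ (-A)) * X

/-- **Theorem A\***: almost all primes, all `H ≥ M log X` at once. -/
def AllP : Prop :=
  ∀ A : ℝ, 0 < A → ∃ c : ℝ, 0 < c ∧ ∃ C : ℝ, ∃ X₀ : ℕ, ∀ X : ℕ, X₀ ≤ X → ∀ M : ℝ, C ≤ M →
    ({p : ℕ | p ≤ X ∧ p.Prime ∧ ¬ ∀ H : ℝ, M * Real.log X ≤ H → H ≤ X →
        ∃ k : ℕ, p ≤ Nat.nth Nat.Prime k ∧ (Nat.nth Nat.Prime k : ℝ) ≤ p + H ∧
          c * Real.log X * Real.log (Real.log (H / Real.log X)) ≤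
            (Nat.nth Nat.Prime (k + 1) : ℝ) - Nat.nth Nat.Prime k}.ncard : ℝ) ≤
      (Real.exp (-(Real.log M ^ (1 / 3 : ℝ))) + Real.log X ^ (-A)) * X / Real.log X

end Pool.Agent.H.MP_711652_nt.G2
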