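import Pool.Agent.H.MP_711652_nt.G2.NumBig

/-!
# GAP3: the general form of the core, parameters and statement (helper55)
-/

set_option autoImplicit false

namespace Pool.Agent.H.MP_711652_nt.G2

open Finset Pool.Agent.H.MP_711652_nt.LG

/-- `E = n + e + 1` -/
noncomputable def dE (n : ℕ) (e : ℝ) : ℝ := n + e + 1

/-- `b = y / (8 E)`, `y = 1 / 100000` -/
noncomputable def db (n : ℕ) (e : ℝ) : ℝ := 1 / (800000 * dE n e)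

/-- `a = b / 2 ^ n` -/
noncomputable def da (n : ℕ) (e : ℝ) : ℝ := db n e / 2 ^ n

/-- `z = X ^ a` -/
noncomputable def dz (X n : ℕ) (e : ℝ) : ℕ := ⌊(X : ℝ) ^ da n e⌋₊

/-- `B = X ^ b` -/
noncomputable def dB (X n : ℕ) (e : ℝ) : ℕ := ⌊(X : ℝ) ^ db n e⌋₊

/-- `Y = X ^ y` -/
noncomputable def dY (X : ℕ) : ℕ := ⌊(X : ℝ) ^ (1 / 100000 : ℝ)⌋₊

/-- the number of factors of an integer `≤ Y` -/
noncomputable def dK (n : ℕ) (e : ℝ) : ℕ := ⌊16 * (dE n e * 2 ^ n)⌋₊ + 1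

/-- `D₁ = (log X) ^ A₁` -/
noncomputable def dD (A₁ X : ℕ) : ℕ := ⌊Real.log X ^ A₁⌋₊

/-- Admissible parameters: `n` scales, `exp (-e)` = the exceptional proportion, at least `exp h` windows. -/
structure Adm (A : ℕ) (h₀ : ℝ) (X n : ℕ) (e h : ℝ) : Prop where
  n10 : 10 ≤ n
  e0 : 0 ≤ e
  eL : e ≤ A * Real.log (Real.log X)
  eh : e ≤ h ^ (2 / 5 : ℝ)
  nh : (2 : ℝ) ^ n ≤ h ^ (1 / 25 : ℝ)
  h0 : h₀ ≤ h
  hL : h ≤ Real.log X ^ (1 / 20 : ℝ)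

/-- Facts on the parameters. -/
def DFacts : Prop :=
  ∀ A A₁ : ℕ, ∃ h₀ : ℝ, ∃ X₀ : ℕ, ∀ X : ℕ, X₀ ≤ X → ∀ (n : ℕ) (e h : ℝ), Adm A h₀ X n e h →
    3 ≤ dz X n e ∧ dz X n e ^ (2 ^ n) ≤ dB X n e ∧ dz X n e ≤ dB X n e ∧ 1 ≤ dY X ∧
      dY X < dz X n e ^ (dK n e + 1) ∧ (dB X n e : ℝ) ≤ (X : ℝ) ^ (1 / 10 : ℝ) ∧
      Real.exp (Real.log X ^ (9 / 10 : ℝ)) ≤ dz X n e ∧ 2 * dD A₁ X ≤ dz X n e ∧
      Real.log X ^ A₁ / 2 ≤ dD A₁ X ∧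
      1 / 2 * (da n e * Real.log X) ≤ Real.log (dz X n e) ∧
      Real.log (dz X n e) ≤ da n e * Real.log X

open Classical in
/-- **The core in general form.**  Two positions of one window differ by at most `D₁`; `P` is any set of primes of
`(z, B]` with `Big` such that no `p ∈ P` divides the difference of two positions. -/
def CoreD : Prop :=
  ∀ A A₁ : ℕ, 8 * A + 25 ≤ A₁ → ∀ C₃ : ℝ, 0 < C₃ → ∃ c₂ : ℝ, 0 < c₂ ∧ ∃ h₀ : ℝ, ∃ X₀ : ℕ,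
    ∀ X : ℕ, X₀ ≤ X → ∀ (n : ℕ) (e h : ℝ), Adm A h₀ X n e h →
    ∀ (P : Finset ℕ) (c : ℝ), Big P (dB X n e) (dY X) (dK n e) c (dz X n e) →
      c ≤ C₃ * Real.log (dz X n e) / n →
      (∀ p ∈ P, dz X n e < p ∧ p ≤ dB X n e) →
    ∀ W : ℕ, (∀ p : ℕ, p.Prime → dD A₁ X < p → ¬ p ∣ W) →
    ∀ (M : ℕ) (wd : Fin M → Finset ℕ), Real.exp h ≤ M →
      (∀ i j, i ≠ j → Disjoint (wd i) (wd j)) →
      (∀ j, ((wd j).card : ℝ) ≤ c₂ * n * Real.log X / Real.log (Real.log X)) →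
      (∀ j, ∀ k ∈ wd j, ∀ l ∈ wd j, k ≤ l + dD A₁ X) →
      (∀ i j, ∀ k ∈ wd i, ∀ l ∈ wd j, k ≤ l + X) →
      (∀ p ∈ P, ∀ i j, ∀ k ∈ wd i, ∀ l ∈ wd j, k ≠ l → ¬ k ≡ l [MOD p]) →
    ∀ N : ℕ, (X : ℝ) ^ (4 / 5 : ℝ) ≤ N → (∀ j, ∀ k ∈ wd j, 0 < k) →
      (∀ m < N, ∀ j, ∀ k ∈ wd j, W * m + k ≤ X ^ 2) →
      (((range N).filter fun m => ∀ j, ∃ k ∈ wd j,
        (∀ p : ℕ, p.Prime → dD A₁ X < p → p ≤ dz X n e → ¬ p ∣ W * m + k) ∧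
          ∀ p ∈ P, ¬ p ∣ W * m + k).card : ℝ) ≤ 6 * (Real.exp (-e) / 100) * N

/-- The full set of primes of `(z, B]`. -/
theorem big_full {X n : ℕ} {e : ℝ} (hz : 3 ≤ dz X n e) (hB : dz X n e ^ (2 ^ n) ≤ dB X n e)
    (hn : 8 * Real.exp 21 ≤ n) (hY1 : 1 ≤ dY X) (hY : dY X < dz X n e ^ (dK n e + 1)) :
    Big (Pbig (dz X n e) (dB X n e)) (dB X n e) (dY X) (dK n e)
        (1 / S1 (Pbig (dz X n e) (dB X n e)) (dB X n e)) (dz X n e) ∧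
      1 / S1 (Pbig (dz X n e) (dB X n e)) (dB X n e) ≤
        8 * Real.exp 21 * Real.log (dz X n e) / n :=
  ⟨big_num hz hB hn hY1 hY, c_big_le (by omega) hB hn⟩

end Pool.Agent.H.MP_711652_nt.G2
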