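import Pool.Agent.H.MP_711652_nt.G2.T2a

/-!
# MP_711652, G2/T2aGen: the Rankin set, uniform in the level

`x = log X`, `ψ = log X / log H`, `w` about `log H / 10`.
-/

set_option autoImplicit false

namespace Pool.Agent.H.MP_711652_nt.G2

open Finset Filter Pool.Agent.H.MP_711652_nt.LG
open Pool.MP42e49e (FF window)

/-- The Rankin factor. -/
noncomputable def Rk (x ψ : ℝ) : ℝ :=
  max 1 (Real.log x * Real.log (Real.log (Real.log x)) /
    (Real.log (Real.log x) * Real.log (ψ * Real.log x)))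

theorem one_le_Rk (x ψ : ℝ) : 1 ≤ Rk x ψ := le_max_left _ _

/-- The primes between `w` and `L`. -/
theorem t2g_sum {x ψ L : ℝ} {w : ℕ} (hx : Real.exp 30 ≤ x) (hψ1 : 1 ≤ ψ) (hψ : ψ ≤ Real.sqrt x)
    (hw1 : x ≤ 20 * ψ * w) (hw2 : (w : ℝ) ≤ x) (hxL : x ≤ L) (hL : L ≤ x * Real.log x ^ 3) :
    ∑ p ∈ (Ioc w ⌊L⌋₊).filter Nat.Prime, 1 / (p : ℝ) ≤
      60 * Real.log (ψ * Real.log x) / Real.log x ∧ Real.log x / 3 ≤ Real.log w ∧ 2 ≤ w := by
  have hxp : 0 < x := (Real.exp_pos _).trans_le hx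
  have hl1 : 30 ≤ Real.log x := by
    rw [Real.le_log_iff_exp_le hxp]
    exact hx
  have hl2 : 1 ≤ Real.log (Real.log x) := by
    rw [Real.le_log_iff_exp_le (by linarith)]
    have := Real.exp_one_lt_d9
    linarith
  set l1 := Real.log x with hl1d
  set l2 := Real.log l1 with hl2d
  have l1p : 0 < l1 := by linarith
  have hψp : 0 < ψ := by linarith
  have hlψ0 : 0 ≤ Real.log ψ := Real.log_nonneg hψ1
  have hlψ : Real.log ψ ≤ l1 / 2 := by
    have h1 := Real.log_le_log hψp hψ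
    rwa [Real.log_sqrt hxp.le] at h1
  have hR : Real.log (ψ * l1) = Real.log ψ + l2 := Real.log_mul hψp.ne' l1p.ne'
  have hw0 : (0 : ℝ) < w := by
    rcases Nat.eq_zero_or_pos w with h | h
    · rw [h] at hw1
      simp at hw1
      linarith
    · exact_mod_cast h
  have hlog20 : Real.log 20 ≤ 3 := by
    rw [Real.log_le_iff_le_exp (by norm_num)]
    have h3 : Real.exp 3 = Real.exp 1 ^ 3 := by
      rw [← Real.exp_nat_mul]
      norm_num
    rw [h3]
    calc (20 : ℝ) ≤ 2.7182818283 ^ 3 := by norm_num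
      _ ≤ Real.exp 1 ^ 3 := pow_le_pow_left₀ (by norm_num) Real.exp_one_gt_d9.le 3
  have hlw : l1 - 3 - Real.log ψ ≤ Real.log w := by
    have h1 := Real.log_le_log hxp hw1
    rw [Real.log_mul (by positivity) hw0.ne', Real.log_mul (by norm_num) hψp.ne'] at h1
    linarith
  have hlw3 : l1 / 3 ≤ Real.log w := by linarith
  have hlw0 : 0 < Real.log w := by linarith
  have hw2' : 2 ≤ w := by
    by_contra hcon
    push Not at hcon
    have : (w : ℝ) ≤ 1 := by exact_mod_cast (show w ≤ 1 by omega)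
    have := Real.log_nonpos hw0.le this
    linarith
  refine ⟨?_, hlw3, hw2'⟩
  set X := ⌊L⌋₊ with hX
  have hvx : w ≤ X := by
    rw [hX]
    exact Nat.le_floor (hw2.trans hxL)
  have hXL : (X : ℝ) ≤ L := Nat.floor_le (by linarith)
  have hX0 : (0 : ℝ) < X := hw0.trans_le (by exact_mod_cast hvx)
  rw [PrimeSum_FF_sub hvx]
  have hw := (window hw2' hvx).1
  have hlX : Real.log X ≤ l1 + 3 * l2 := by
    refine (Real.log_le_log hX0 (hXL.trans hL)).trans (le_of_eq ?_)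
    rw [Real.log_mul hxp.ne' (by positivity), Real.log_pow]
    push_cast
    ring
  have hlvX : Real.log w ≤ Real.log X := Real.log_le_log hw0 (by exact_mod_cast hvx)
  have h5 : Real.log (Real.log X) - Real.log (Real.log w) ≤
      (Real.log X - Real.log w) / Real.log w := by
    rw [← Real.log_div (by linarith) hlw0.ne']
    have h6 := Real.log_le_sub_one_of_pos (x := Real.log X / Real.log w)
      (div_pos (by linarith) hlw0)
    refine h6.trans (le_of_eq ?_)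
    field_simp
  have h7 : (Real.log X - Real.log w) / Real.log w + 12 / Real.log w ≤
      60 * Real.log (ψ * l1) / l1 := by
    rw [← add_div, div_le_div_iff₀ hlw0 l1p, hR]
    have h8 : Real.log X - Real.log w + 12 ≤ 20 * (Real.log ψ + l2) := by linarith
    have h9 : (Real.log X - Real.log w + 12) * l1 ≤ 20 * (Real.log ψ + l2) * l1 :=
      mul_le_mul_of_nonneg_right h8 l1p.le
    have h10 : 20 * (Real.log ψ + l2) * l1 ≤ 20 * (Real.log ψ + l2) * (3 * Real.log w) :=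
      mul_le_mul_of_nonneg_left (by linarith) (by positivity)
    calc (Real.log X - Real.log w + 12) * l1 ≤ 20 * (Real.log ψ + l2) * (3 * Real.log w) :=
          h9.trans h10
      _ = 60 * (Real.log ψ + l2) * Real.log w := by ring
  linarith

theorem prod_nonneg_primes (z : ℕ) :
    0 ≤ ∏ p ∈ (Icc 1 z).filter Nat.Prime, (1 - 1 / (p : ℝ)) := by
  refine prod_nonneg fun p hp => ?_
  have hp' : (1 : ℝ) ≤ p := by exact_mod_cast (mem_filter.1 hp).2.one_le
  have : 1 / (p : ℝ) ≤ 1 := by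
    rw [div_le_one (by linarith)]
    exact hp'
  linarith

theorem coprime_mod_add (ν W k : ℕ) : Nat.Coprime (ν % W + k) W ↔ Nat.Coprime (ν + k) W := by
  have h1 : ν % W + k ≡ ν + k [MOD W] := Nat.mod_add_mod ν W k
  rw [Nat.Coprime, Nat.Coprime, h1.gcd_eq]

/-- **(T2a), uniform.** -/
theorem t2a_card : ∃ C : ℝ, 0 < C ∧ ∃ x₀ : ℝ, ∀ x : ℝ, x₀ ≤ x → ∀ ψ : ℝ, 1 ≤ ψ → ψ ≤ Real.sqrt x →
    ∀ w : ℕ, x ≤ 20 * ψ * w → (w : ℝ) ≤ x → ∀ Λ : ℝ, x ≤ Λ → Λ ≤ x * Real.log x ^ 3 →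
      ∃ a : ℕ, a < primorial w ∧
        (((Icc 1 ⌊Λ⌋₊).filter (fun h => Nat.Coprime (a + h) (primorial w))).card : ℝ) ≤
          C * Λ / (Real.log x * Rk x ψ) := by
  obtain ⟨C1, hC1, hprod⟩ := prod_primes_le
  obtain ⟨x1, hx13, hpsi⟩ := psi_small
  refine ⟨549 * C1, by positivity, max (max x1 (Real.exp (Real.exp (Real.exp 1)))) (Real.exp 30),
    fun x hx ψ hψ1 hψ w hw1 hw2 Λ hxL hL => ?_⟩
  have hxx1 : x1 ≤ x := ((le_max_left _ _).trans (le_max_left _ _)).trans hx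
  have hxe : Real.exp (Real.exp (Real.exp 1)) ≤ x :=
    ((le_max_right _ _).trans (le_max_left _ _)).trans hx
  have hx30 : Real.exp 30 ≤ x := (le_max_right _ _).trans hx
  have hx0 : 0 < x := (Real.exp_pos _).trans_le hx30
  have a1 : Real.exp (Real.exp 1) ≤ Real.log x := (Real.le_log_iff_exp_le hx0).2 hxe
  have l1p : 0 < Real.log x := (Real.exp_pos _).trans_le a1
  have a2 : Real.exp 1 ≤ Real.log (Real.log x) := (Real.le_log_iff_exp_le l1p).2 a1
  have l2p : 0 < Real.log (Real.log x) := (Real.exp_pos _).trans_le a2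
  have a3 : 1 ≤ Real.log (Real.log (Real.log x)) := (Real.le_log_iff_exp_le l2p).2 a2
  obtain ⟨hz3, hzlo, hzup, hsmo⟩ := hpsi x hxx1
  obtain ⟨hsum, hlw3, hw2'⟩ := t2g_sum hx30 hψ1 hψ hw1 hw2 hxL hL
  have hsm := hsmo Λ hxL
  have hL0 : 0 ≤ Λ := by linarith
  set l1 := Real.log x with hl1
  set l2 := Real.log l1 with hl2
  set l3 := Real.log l2 with hl3
  have l2one : 1 ≤ l2 := by
    have := Real.add_one_le_exp (1 : ℝ)
    linarith
  have l3p : 0 < l3 := by linarith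
  have l32 : l3 ≤ l2 := (Real.log_le_sub_one_of_pos l2p).trans (by linarith)
  have hψp : 0 < ψ := by linarith
  have hR : Real.log (ψ * l1) = Real.log ψ + l2 := Real.log_mul hψp.ne' l1p.ne'
  have hlψ0 : 0 ≤ Real.log ψ := Real.log_nonneg hψ1
  set lr := Real.log (ψ * l1) with hlr
  have lr1 : 1 ≤ lr := by linarith
  have hW0 : 0 < primorial w := primorial_pos _
  have hw0 : (0 : ℝ) < w := by exact_mod_cast (show 0 < w by omega)
  -- the two choices
  have hgreedy : ∃ a : ℕ, a < primorial w ∧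
      (((Icc 1 ⌊Λ⌋₊).filter (fun h => Nat.Coprime (a + h) (primorial w))).card : ℝ) ≤
        3 * C1 * Λ / l1 := by
    obtain ⟨ν, -, hν⟩ := Pool.MP711652.LG.greedy_primorial (Icc 1 ⌊Λ⌋₊) (le_refl w)
    refine ⟨ν % primorial w, Nat.mod_lt _ hW0, ?_⟩
    simp only [coprime_mod_add]
    refine hν.trans ?_
    have h1 : ((#{h ∈ Icc 1 ⌊Λ⌋₊ | ∀ p ∈ (Ioc w w).filter Nat.Prime, ¬ p ∣ h} : ℕ) : ℝ) ≤ Λ := by
      have h2 : (#{h ∈ Icc 1 ⌊Λ⌋₊ | ∀ p ∈ (Ioc w w).filter Nat.Prime, ¬ p ∣ h} : ℕ) ≤ ⌊Λ⌋₊ := by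
        refine (card_filter_le _ _).trans ?_
        rw [Nat.card_Icc]
        omega
      exact (by exact_mod_cast h2 : ((#{h ∈ Icc 1 ⌊Λ⌋₊ | ∀ p ∈ (Ioc w w).filter Nat.Prime,
        ¬ p ∣ h} : ℕ) : ℝ) ≤ (⌊Λ⌋₊ : ℝ)).trans (Nat.floor_le hL0)
    have h3 := hprod w hw2'
    have h4 : C1 / Real.log w ≤ 3 * C1 / l1 := by
      rw [div_le_div_iff₀ (by linarith) l1p]
      nlinarith
    calc _ ≤ 3 * C1 / l1 * Λ := mul_le_mul (h3.trans h4) h1 (Nat.cast_nonneg _) (by positivity)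
      _ = 3 * C1 * Λ / l1 := by ring
  have hrankin : ∃ a : ℕ, a < primorial w ∧
      (((Icc 1 ⌊Λ⌋₊).filter (fun h => Nat.Coprime (a + h) (primorial w))).card : ℝ) ≤
        549 * C1 * Λ * (l2 * lr) / (l1 * (l1 * l3)) := by
    have hzw : zz x ≤ w := by
      have h0 : (0 : ℝ) < zz x := by exact_mod_cast (show 0 < zz x by omega)
      have h1 : Real.log (zz x) ≤ l1 / 8 := by
        refine hzup.trans ?_
        rw [div_le_div_iff₀ (by positivity) (by norm_num)]
        nlinarith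
      have h2 : (zz x : ℝ) ≤ w := by
        rw [← Real.log_le_log_iff h0 hw0]
        linarith
      exact_mod_cast h2
    obtain ⟨ν, -, hν⟩ := Pool.MP711652.LG.greedy_primorial (Icc 1 ⌊Λ⌋₊) hzw
    refine ⟨ν % primorial w, Nat.mod_lt _ hW0, ?_⟩
    simp only [coprime_mod_add]
    have hP : ∏ p ∈ (Icc 1 (zz x)).filter Nat.Prime, (1 - 1 / (p : ℝ)) ≤
        C1 * (9 * l2) / (l1 * l3) := by
      refine (hprod (zz x) (by omega)).trans ?_
      rw [div_le_div_iff₀ (lt_of_lt_of_le (by positivity) hzlo) (by positivity)]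
      rw [div_le_iff₀ (by positivity)] at hzlo
      nlinarith
    have hcard := stage1_card Λ hL0 (zz x) w
    have hbound : ((smo (zz x) Λ).card : ℝ) +
        Λ * ∑ p ∈ (Ioc w ⌊Λ⌋₊).filter Nat.Prime, 1 / (p : ℝ) ≤ 61 * Λ * lr / l1 := by
      have h1 : Λ * ∑ p ∈ (Ioc w ⌊Λ⌋₊).filter Nat.Prime, 1 / (p : ℝ) ≤
          Λ * (60 * lr / l1) := mul_le_mul_of_nonneg_left hsum hL0
      have h2 : Λ / l1 ≤ Λ * lr / l1 :=
        div_le_div_of_nonneg_right (le_mul_of_one_le_right hL0 lr1) l1p.le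
      have h3 : 61 * Λ * lr / l1 = Λ * lr / l1 + Λ * (60 * lr / l1) := by ring
      rw [h3]
      linarith
    refine hν.trans ?_
    calc _ ≤ C1 * (9 * l2) / (l1 * l3) * (61 * Λ * lr / l1) :=
          mul_le_mul hP (hcard.trans hbound) (Nat.cast_nonneg _) (by positivity)
      _ = 549 * C1 * Λ * (l2 * lr) / (l1 * (l1 * l3)) := by
          field_simp
          ring
  -- the conclusion
  rcases le_total (l1 * l3 / (l2 * lr)) 1 with h | h
  · obtain ⟨a, ha, hb⟩ := hgreedy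
    refine ⟨a, ha, hb.trans ?_⟩
    have hRk : Rk x ψ = 1 := max_eq_left h
    rw [hRk, mul_one]
    have h0 : 0 ≤ C1 * Λ := by positivity
    have : 3 * C1 * Λ ≤ 549 * C1 * Λ := by nlinarith
    exact div_le_div_of_nonneg_right this l1p.le
  · obtain ⟨a, ha, hb⟩ := hrankin
    refine ⟨a, ha, hb.trans (le_of_eq ?_)⟩
    have hRk : Rk x ψ = l1 * l3 / (l2 * lr) := max_eq_right h
    rw [hRk]
    field_simp

theorem Rk_le {x ψ : ℝ} (hx : Real.exp (Real.exp (Real.exp 1)) ≤ x) (hψ1 : 1 ≤ ψ) :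
    Rk x ψ ≤ Real.log x := by
  have hx0 : 0 < x := (Real.exp_pos _).trans_le hx
  have a1 : Real.exp (Real.exp 1) ≤ Real.log x := (Real.le_log_iff_exp_le hx0).2 hx
  have l1p : 0 < Real.log x := (Real.exp_pos _).trans_le a1
  have a2 : Real.exp 1 ≤ Real.log (Real.log x) := (Real.le_log_iff_exp_le l1p).2 a1
  have l2p : 0 < Real.log (Real.log x) := (Real.exp_pos _).trans_le a2
  have a3 : 1 ≤ Real.log (Real.log (Real.log x)) := (Real.le_log_iff_exp_le l2p).2 a2
  set l1 := Real.log x with hl1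
  set l2 := Real.log l1 with hl2
  set l3 := Real.log l2 with hl3
  have l2one : 1 ≤ l2 := by
    have := Real.add_one_le_exp (1 : ℝ)
    linarith
  have l32 : l3 ≤ l2 := (Real.log_le_sub_one_of_pos l2p).trans (by linarith)
  have l21 : l2 ≤ l1 := (Real.log_le_sub_one_of_pos l1p).trans (by linarith)
  have hψp : 0 < ψ := by linarith
  have hR : Real.log (ψ * l1) = Real.log ψ + l2 := Real.log_mul hψp.ne' l1p.ne'
  have hlψ0 : 0 ≤ Real.log ψ := Real.log_nonneg hψ1
  refine max_le (by linarith) ?_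
  rw [div_le_iff₀ (by rw [hR]; positivity), hR]
  have h1 : l3 ≤ l2 * (Real.log ψ + l2) := by nlinarith
  exact mul_le_mul_of_nonneg_left h1 l1p.le

/-- **(T2a), uniform, with the length `c x log x Rk`.** -/
theorem t2a_gen (c₀ : ℝ) (hc₀ : 0 < c₀) : ∃ c : ℝ, 0 < c ∧ ∃ x₀ : ℝ, ∀ x : ℝ, x₀ ≤ x →
    ∀ ψ : ℝ, 1 ≤ ψ → ψ ≤ Real.sqrt x → ∀ w : ℕ, x ≤ 20 * ψ * w → (w : ℝ) ≤ x →
      ∃ a : ℕ, a < primorial w ∧
        (((Icc 1 ⌊c * x * Real.log x * Rk x ψ⌋₊).filter
          (fun h => Nat.Coprime (a + h) (primorial w))).card : ℝ) ≤ c₀ * x := by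
  obtain ⟨C, hC, x1, hx1⟩ := t2a_card
  set c : ℝ := min 1 (c₀ / C) with hc
  have hc0 : 0 < c := lt_min one_pos (by positivity)
  have hc1 : c ≤ 1 := min_le_left _ _
  have hcC : C * c ≤ c₀ := by
    have h1 : c ≤ c₀ / C := min_le_right _ _
    rw [le_div_iff₀ hC] at h1
    linarith
  refine ⟨c, hc0, max (max x1 (Real.exp (Real.exp (Real.exp 1)))) (Real.exp (1 / c)),
    fun x hx ψ hψ1 hψ w hw1 hw2 => ?_⟩
  have hxx1 : x1 ≤ x := ((le_max_left _ _).trans (le_max_left _ _)).trans hx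
  have hxe : Real.exp (Real.exp (Real.exp 1)) ≤ x :=
    ((le_max_right _ _).trans (le_max_left _ _)).trans hx
  have hxc : Real.exp (1 / c) ≤ x := (le_max_right _ _).trans hx
  have hx0 : 0 < x := (Real.exp_pos _).trans_le hxc
  have hlc : 1 / c ≤ Real.log x := (Real.le_log_iff_exp_le hx0).2 hxc
  have h1c : 1 ≤ c * Real.log x := by
    rw [div_le_iff₀ hc0] at hlc
    linarith
  have hl0 : 0 < Real.log x := lt_of_lt_of_le (by positivity) hlc
  have hR1 := one_le_Rk x ψ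
  have hRl := Rk_le hxe hψ1
  have hl1 : 1 ≤ Real.log x := by nlinarith
  have e1 : x ≤ c * x * Real.log x * Rk x ψ := by
    have h2 : 1 * 1 ≤ (c * Real.log x) * Rk x ψ :=
      mul_le_mul h1c hR1 (by norm_num) (by positivity)
    calc x = x * (1 * 1) := by ring
      _ ≤ x * ((c * Real.log x) * Rk x ψ) := mul_le_mul_of_nonneg_left h2 hx0.le
      _ = c * x * Real.log x * Rk x ψ := by ring
  have e2 : c * x * Real.log x * Rk x ψ ≤ x * Real.log x ^ 3 := by
    have h2 : c * (Real.log x * Rk x ψ) ≤ 1 * (Real.log x * Real.log x) :=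
      mul_le_mul hc1 (mul_le_mul_of_nonneg_left hRl hl0.le) (by positivity) (by norm_num)
    have h3 : Real.log x * Real.log x ≤ Real.log x ^ 3 := by
      calc Real.log x * Real.log x = Real.log x ^ 2 * 1 := by ring
        _ ≤ Real.log x ^ 2 * Real.log x := mul_le_mul_of_nonneg_left hl1 (by positivity)
        _ = Real.log x ^ 3 := by ring
    calc c * x * Real.log x * Rk x ψ = x * (c * (Real.log x * Rk x ψ)) := by ring
      _ ≤ x * Real.log x ^ 3 := mul_le_mul_of_nonneg_left (by linarith) hx0.le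
  obtain ⟨a, ha, hb⟩ := hx1 x hxx1 ψ hψ1 hψ w hw1 hw2 _ e1 e2
  refine ⟨a, ha, hb.trans ?_⟩
  rw [div_le_iff₀ (by positivity)]
  calc C * (c * x * Real.log x * Rk x ψ) = C * c * (x * (Real.log x * Rk x ψ)) := by ring
    _ ≤ c₀ * (x * (Real.log x * Rk x ψ)) := mul_le_mul_of_nonneg_right hcC (by positivity)
    _ = c₀ * x * (Real.log x * Rk x ψ) := by ring

end Pool.Agent.H.MP_711652_nt.G2
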