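import Pool.Agent.H.MP_711652_nt.G2.StmtA
import Pool.Agent.H.MP_711652_nt.G2.T2aGen

/-!
# GAP3: the statement of Theorem A** (all `H` at once, Rankin factor, integers and primes)
-/

set_option autoImplicit false

namespace Pool.Agent.H.MP_711652_nt.G2

/-- One scale `H = exp (log X / ψ)`, with the Rankin factor. -/
def OneScaleR : Prop :=
  ∀ A : ℝ, 0 < A → ∃ c : ℝ, 0 < c ∧ ∃ X₀ : ℕ, ∀ X : ℕ, X₀ ≤ X → ∀ ψ : ℝ, 1 ≤ ψ →
    ψ ≤ Real.sqrt (Real.log X) →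
      ({n : ℕ | n < X ∧ ¬ Void n (Real.exp (Real.log X / ψ))
        (c * Real.log X * Real.log (Real.log X) * Rk (Real.log X) ψ)}.ncard : ℝ) ≤
        Real.log X ^ (-A) * X

/-- Every real `H` in `[M log X, X]` has a long gap meeting `[n, n + H]`. -/
def GapsAll (c : ℝ) (X : ℕ) (M : ℝ) (n : ℕ) : Prop :=
  ∀ H : ℝ, M * Real.log X ≤ H → H ≤ X →
    GapMeets n H (c * Real.log X * Real.log (Real.log (H / Real.log X)) *
      Rk (Real.log X) (Real.log X / Real.log H))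

/-- **Theorem A\*\***. -/
def AStar : Prop :=
  ∀ A : ℝ, 0 < A → ∃ c : ℝ, 0 < c ∧ ∃ C : ℝ, ∃ X₀ : ℕ, ∀ X : ℕ, X₀ ≤ X → ∀ M : ℝ, C ≤ M →
    ({n : ℕ | n < X ∧ ¬ GapsAll c X M n}.ncard : ℝ) +
      Real.log X * ({p : ℕ | p < X ∧ p.Prime ∧ ¬ GapsAll c X M p}.ncard : ℝ) ≤
    (Real.exp (-(Real.log M ^ (1 / 3 : ℝ))) + Real.log X ^ (-A)) * X

end Pool.Agent.H.MP_711652_nt.G2
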