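import Pool.Agent.H.MP_711652_nt.LG.Stage1

/-!
# MP_711652, G2/T2a: the Rankin set for the primes up to `x / (log x)^C`

The same as `LG/Stage1`, with `x / 10` replaced by `x / (log x)^C`, `C ≥ 0` arbitrary.
-/

set_option autoImplicit false

namespace Pool.Agent.H.MP_711652_nt.G2

open Finset Filter Pool.Agent.H.MP_711652_nt.LG
open Pool.MP42e49e (FF window)

/-- The primes between `x / (log x)^C` and `L ≤ x (log x)^3`. -/
theorem t2a_sum (C : ℝ) (hC : 0 ≤ C) : ∃ C2 : ℝ, 0 < C2 ∧ ∃ x0 : ℝ, ∀ x : ℝ, x0 ≤ x →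
    ∀ L : ℝ, x ≤ L → L ≤ x * Real.log x ^ 3 →
    ∑ p ∈ (Ioc ⌊x / Real.log x ^ C⌋₊ ⌊L⌋₊).filter Nat.Prime, 1 / (p : ℝ) ≤
      C2 * Real.log (Real.log x) / Real.log x := by
  refine ⟨2 * (C + 17), by positivity, ?_⟩
  have e1 : ∀ᶠ x : ℝ in atTop, Real.exp 9 ≤ x := eventually_ge_atTop _
  have e2 : ∀ᶠ x : ℝ in atTop, (C + 1) * Real.log (Real.log x) ≤ Real.log x / 2 := by
    have h0 : ∀ᶠ t : ℝ in atTop, (C + 1) * Real.log t ≤ t / 2 := by
      have := (Real.isLittleO_log_id_atTop).def (show (0 : ℝ) < 1 / (2 * (C + 1)) by positivity)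
      filter_upwards [this, eventually_ge_atTop 1] with t h1 h2
      rw [Real.norm_of_nonneg (Real.log_nonneg h2), id, Real.norm_of_nonneg (by linarith)] at h1
      have h3 := mul_le_mul_of_nonneg_left h1 (show 0 ≤ C + 1 by linarith)
      calc (C + 1) * Real.log t ≤ (C + 1) * (1 / (2 * (C + 1)) * t) := h3
        _ = t / 2 := by field_simp
    exact Real.tendsto_log_atTop.eventually h0
  obtain ⟨x0, hx0⟩ := eventually_atTop.1 (e1.and e2)
  refine ⟨x0, fun x hx L hxL hL => ?_⟩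
  obtain ⟨hx9, hx2⟩ := hx0 x hx
  have hxp : 0 < x := (Real.exp_pos _).trans_le hx9
  have hl1 : 9 ≤ Real.log x := by
    rw [Real.le_log_iff_exp_le hxp]
    exact hx9
  have hl2 : 1 ≤ Real.log (Real.log x) := by
    rw [Real.le_log_iff_exp_le (by linarith)]
    have := Real.exp_one_lt_d9
    linarith
  set l1 := Real.log x with hl1d
  set l2 := Real.log l1 with hl2d
  have l1p : 0 < l1 := by linarith
  -- the lower end
  set y : ℝ := x / l1 ^ C with hy
  have hlC : 0 < l1 ^ C := Real.rpow_pos_of_pos l1p C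
  have hy0 : 0 < y := div_pos hxp hlC
  have hlogy : Real.log y = l1 - C * l2 := by
    rw [hy, Real.log_div hxp.ne' hlC.ne', Real.log_rpow l1p]
  have hlogy2 : l1 / 2 + l2 ≤ Real.log y := by
    rw [hlogy]
    linarith
  have hy4 : 4 ≤ y := by
    have h1 : Real.exp (9 / 2 : ℝ) ≤ y := by
      rw [← Real.le_log_iff_exp_le hy0]
      linarith
    have h2 := Real.add_one_le_exp (9 / 2 : ℝ)
    linarith
  set v := ⌊y⌋₊ with hv
  set X := ⌊L⌋₊ with hX
  have hv1 : y < v + 1 := Nat.lt_floor_add_one _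
  have hv2 : y / 2 ≤ v := by linarith
  have hv3 : 2 ≤ v := by
    have h : (1 : ℝ) < v := by linarith
    have h' : 1 < v := by exact_mod_cast h
    omega
  have hyx : y ≤ x := by
    rw [hy]
    refine div_le_self hxp.le ?_
    exact Real.one_le_rpow (by linarith) hC
  have hvx : v ≤ X := Nat.floor_le_floor (hyx.trans hxL)
  have hXL : (X : ℝ) ≤ L := Nat.floor_le (by linarith)
  have hX0 : (0 : ℝ) < X := by
    have : (2 : ℝ) ≤ X := by exact_mod_cast hv3.trans hvx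
    linarith
  have hv0 : (0 : ℝ) < v := by
    have : (2 : ℝ) ≤ v := by exact_mod_cast hv3
    linarith
  have hlog2 := Real.log_two_lt_d9
  have hlv : l1 - C * l2 - 1 ≤ Real.log v := by
    have h1 : Real.log (y / 2) ≤ Real.log v := Real.log_le_log (by linarith) hv2
    rw [Real.log_div hy0.ne' (by norm_num), hlogy] at h1
    linarith
  have hlv2 : l1 / 2 ≤ Real.log v := by linarith
  have hlv0 : 0 < Real.log v := by linarith
  rw [PrimeSum_FF_sub hvx]
  have hw := (window hv3 hvx).1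
  have hlX : Real.log X ≤ l1 + 3 * l2 := by
    refine (Real.log_le_log hX0 (hXL.trans hL)).trans (le_of_eq ?_)
    rw [Real.log_mul hxp.ne' (by positivity), Real.log_pow]
    push_cast
    ring
  have hlvX : Real.log v ≤ Real.log X := Real.log_le_log hv0 (by exact_mod_cast hvx)
  have h5 : Real.log (Real.log X) - Real.log (Real.log v) ≤
      (Real.log X - Real.log v) / Real.log v := by
    rw [← Real.log_div (by linarith) hlv0.ne']
    have h6 := Real.log_le_sub_one_of_pos (x := Real.log X / Real.log v)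
      (div_pos (by linarith) hlv0)
    refine h6.trans (le_of_eq ?_)
    field_simp
  have h7 : (Real.log X - Real.log v) / Real.log v + 12 / Real.log v ≤
      2 * (C + 17) * l2 / l1 := by
    rw [← add_div, div_le_div_iff₀ hlv0 l1p]
    have h8 : Real.log X - Real.log v + 12 ≤ (C + 17) * l2 := by nlinarith
    have h9 : (Real.log X - Real.log v + 12) * l1 ≤ (C + 17) * l2 * l1 :=
      mul_le_mul_of_nonneg_right h8 l1p.le
    have h10 : (C + 17) * l2 * l1 ≤ (C + 17) * l2 * (2 * Real.log v) :=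
      mul_le_mul_of_nonneg_left (by linarith) (by positivity)
    calc (Real.log X - Real.log v + 12) * l1 ≤ (C + 17) * l2 * (2 * Real.log v) := h9.trans h10
      _ = 2 * (C + 17) * l2 * Real.log v := by ring
  linarith

/-- the Rankin set with the primes up to `x / (log x)^C`, survivors as a filter -/
theorem t2a_filter (C : ℝ) (hC : 0 ≤ C) : ∀ c₀ : ℝ, 0 < c₀ → ∃ c : ℝ, 0 < c ∧ ∃ x₀ : ℝ,
    ∀ x : ℝ, x₀ ≤ x → ∃ ν : ℕ,
    (((Finset.Icc 1 (LL c x)).filter
      (fun h => Nat.Coprime (ν + h) (primorial ⌊x / Real.log x ^ C⌋₊))).card : ℝ) ≤ c₀ * x := by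
  intro c₀ hc₀
  obtain ⟨C1, hC1, hprod⟩ := prod_primes_le
  obtain ⟨x1, hx13, hpsi⟩ := psi_small
  obtain ⟨C2, hC2, x3, hx3⟩ := t2a_sum C hC
  set c : ℝ := min 1 (c₀ / (9 * (C2 + 1) * C1)) with hc
  have hc0 : 0 < c := lt_min one_pos (by positivity)
  have hc1 : c ≤ 1 := min_le_left _ _
  have hcC : 9 * (C2 + 1) * C1 * c ≤ c₀ := by
    have h1 : c ≤ c₀ / (9 * (C2 + 1) * C1) := min_le_right _ _
    rw [le_div_iff₀ (by positivity)] at h1
    linarith
  refine ⟨c, hc0, ?_⟩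
  -- conditions for large `x`
  have e1 : ∀ᶠ t : ℝ in Filter.atTop, Real.log t ^ 2 ≤ c * t ^ 2 := by
    have := (Real.isLittleO_log_id_atTop).def hc0
    filter_upwards [this, Filter.eventually_ge_atTop 1] with t h1 h2
    rw [Real.norm_of_nonneg (Real.log_nonneg h2), id, Real.norm_of_nonneg (by linarith)] at h1
    have h3 : Real.log t ^ 2 ≤ (c * t) ^ 2 := pow_le_pow_left₀ (Real.log_nonneg h2) h1 2
    have h4 : c * (c * t ^ 2) ≤ 1 * (c * t ^ 2) := mul_le_mul_of_nonneg_right hc1 (by positivity)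
    nlinarith
  obtain ⟨t1, ht1⟩ := Filter.eventually_atTop.1 e1
  have e2 : ∀ᶠ x : ℝ in Filter.atTop, C * Real.log (Real.log x) + 1 ≤ Real.log x / 2 := by
    have h0 : ∀ᶠ t : ℝ in atTop, C * Real.log t + 1 ≤ t / 2 := by
      have := (Real.isLittleO_log_id_atTop).def (show (0 : ℝ) < 1 / (4 * (C + 1)) by positivity)
      filter_upwards [this, eventually_ge_atTop 4] with t h1 h2
      have h2' : 0 ≤ Real.log t := Real.log_nonneg (by linarith)
      rw [Real.norm_of_nonneg h2', id, Real.norm_of_nonneg (by linarith)] at h1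
      have h3 := mul_le_mul_of_nonneg_left h1 (show 0 ≤ C + 1 by linarith)
      have h4 : (C + 1) * (1 / (4 * (C + 1)) * t) = t / 4 := by field_simp
      rw [h4] at h3
      nlinarith
    exact Real.tendsto_log_atTop.eventually h0
  obtain ⟨x2, hx2⟩ := Filter.eventually_atTop.1 e2
  refine ⟨max (max (max x1 (Real.exp (Real.exp (Real.exp 1)))) (Real.exp t1))
    (max (max x2 x3) (Real.exp 9)), fun x hx => ?_⟩
  have hxx1 : x1 ≤ x := (((le_max_left _ _).trans (le_max_left _ _)).trans (le_max_left _ _)).trans hx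
  have hxe : Real.exp (Real.exp (Real.exp 1)) ≤ x :=
    (((le_max_right _ _).trans (le_max_left _ _)).trans (le_max_left _ _)).trans hx
  have hxt1 : Real.exp t1 ≤ x := ((le_max_right _ _).trans (le_max_left _ _)).trans hx
  have hxx2 : x2 ≤ x :=
    (((le_max_left _ _).trans (le_max_left _ _)).trans (le_max_right _ _)).trans hx
  have hxx3 : x3 ≤ x :=
    (((le_max_right _ _).trans (le_max_left _ _)).trans (le_max_right _ _)).trans hx
  have hx9 : Real.exp 9 ≤ x := ((le_max_right _ _).trans (le_max_right _ _)).trans hx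
  have hx0 : 0 < x := by linarith
  have a1 : Real.exp (Real.exp 1) ≤ Real.log x := (Real.le_log_iff_exp_le hx0).2 hxe
  have l1p : 0 < Real.log x := (Real.exp_pos _).trans_le a1
  have a2 : Real.exp 1 ≤ Real.log (Real.log x) := (Real.le_log_iff_exp_le l1p).2 a1
  have l2p : 0 < Real.log (Real.log x) := (Real.exp_pos _).trans_le a2
  have a3 : 1 ≤ Real.log (Real.log (Real.log x)) := (Real.le_log_iff_exp_le l2p).2 a2
  have b1 := ht1 _ ((Real.le_log_iff_exp_le hx0).2 hxt1)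
  have b2 := hx2 _ hxx2
  obtain ⟨hz3, hzlo, hzup, hsmo⟩ := hpsi x hxx1
  set l1 := Real.log x with hl1
  set l2 := Real.log l1 with hl2
  set l3 := Real.log l2 with hl3
  have l2one : 1 ≤ l2 := by
    have := Real.add_one_le_exp (1 : ℝ)
    linarith
  have l32 : l3 ≤ l2 := (Real.log_le_sub_one_of_pos l2p).trans (by linarith)
  have l21 : l2 ≤ l1 := (Real.log_le_sub_one_of_pos l1p).trans (by linarith)
  have l1one : 1 ≤ l1 := l2one.trans l21
  set L : ℝ := c * (x * l1 ^ 2 * l3 / l2 ^ 2) with hLdef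
  have hL0 : 0 ≤ L := by positivity
  have hLx : x ≤ L := by
    rw [hLdef, ← mul_div_assoc, le_div_iff₀ (by positivity)]
    have h1 : x * l2 ^ 2 ≤ x * (c * l1 ^ 2) := mul_le_mul_of_nonneg_left b1 hx0.le
    have h2 : x * (c * l1 ^ 2) * 1 ≤ x * (c * l1 ^ 2) * l3 :=
      mul_le_mul_of_nonneg_left a3 (by positivity)
    nlinarith
  have hLup : L ≤ x * l1 ^ 3 := by
    have h1 : l3 / l2 ^ 2 ≤ 1 := by
      rw [div_le_one (by positivity)]
      nlinarith
    have h2 : L = c * (l3 / l2 ^ 2) * (x * l1 ^ 2) := by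
      rw [hLdef]
      ring
    have h3 : c * (l3 / l2 ^ 2) ≤ 1 * 1 := mul_le_mul hc1 h1 (by positivity) one_pos.le
    have h4 : x * l1 ^ 2 ≤ x * l1 ^ 3 := by
      apply mul_le_mul_of_nonneg_left _ hx0.le
      exact pow_le_pow_right₀ l1one (by norm_num)
    rw [h2]
    calc c * (l3 / l2 ^ 2) * (x * l1 ^ 2) ≤ 1 * (x * l1 ^ 2) :=
          mul_le_mul_of_nonneg_right (by linarith) (by positivity)
      _ ≤ x * l1 ^ 3 := by linarith
  -- `z ≤ D`
  set D : ℕ := ⌊x / l1 ^ C⌋₊ with hD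
  have hlC : 0 < l1 ^ C := Real.rpow_pos_of_pos l1p C
  have hzD : zz x ≤ D := by
    have h0 : (0 : ℝ) < zz x := by exact_mod_cast (show 0 < zz x by omega)
    rw [hD]
    refine Nat.le_floor ?_
    rw [← Real.log_le_log_iff h0 (by positivity), Real.log_div hx0.ne' hlC.ne', Real.log_rpow l1p]
    have h1 : Real.log (zz x) ≤ l1 / 8 := by
      refine hzup.trans ?_
      rw [div_le_div_iff₀ (by positivity) (by norm_num)]
      nlinarith
    linarith
  obtain ⟨ν, -, hν⟩ := Pool.MP711652.LG.greedy_primorial (Icc 1 ⌊L⌋₊) hzD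
  refine ⟨ν, ?_⟩
  have hLL : LL c x = ⌊L⌋₊ := rfl
  rw [hLL]
  have hP : ∏ p ∈ (Icc 1 (zz x)).filter Nat.Prime, (1 - 1 / (p : ℝ)) ≤
      C1 * (9 * l2) / (l1 * l3) := by
    refine (hprod (zz x) (by omega)).trans ?_
    rw [div_le_div_iff₀ (lt_of_lt_of_le (by positivity) hzlo) (by positivity)]
    rw [div_le_iff₀ (by positivity)] at hzlo
    nlinarith
  have hcard := stage1_card L hL0 (zz x) D
  have hsum := hx3 x hxx3 L hLx hLup
  have hsm := hsmo L hLx
  have hbound : ((smo (zz x) L).card : ℝ) +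
      L * ∑ p ∈ (Ioc D ⌊L⌋₊).filter Nat.Prime, 1 / (p : ℝ) ≤ (C2 + 1) * L * l2 / l1 := by
    have h1 : L * ∑ p ∈ (Ioc D ⌊L⌋₊).filter Nat.Prime, 1 / (p : ℝ) ≤
        L * (C2 * l2 / l1) := mul_le_mul_of_nonneg_left hsum hL0
    have h2 : L / l1 ≤ L * l2 / l1 :=
      div_le_div_of_nonneg_right (le_mul_of_one_le_right hL0 l2one) l1p.le
    have h3 : (C2 + 1) * L * l2 / l1 = L * l2 / l1 + L * (C2 * l2 / l1) := by ring
    rw [h3]
    linarith
  refine hν.trans ?_
  calc _ ≤ C1 * (9 * l2) / (l1 * l3) * ((C2 + 1) * L * l2 / l1) :=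
        mul_le_mul hP (hcard.trans hbound) (Nat.cast_nonneg _) (by positivity)
    _ = 9 * (C2 + 1) * C1 * c * x := by
        rw [hLdef]
        field_simp
    _ ≤ c₀ * x := mul_le_mul_of_nonneg_right hcC hx0.le

/-- **(T2a).** -/
theorem t2a (C : ℝ) (hC : 0 ≤ C) (c₀ : ℝ) (hc₀ : 0 < c₀) : ∃ c : ℝ, 0 < c ∧ ∃ x₀ : ℝ,
    ∀ x : ℝ, x₀ ≤ x → ∃ a : ℕ, a < primorial ⌊x / Real.log x ^ C⌋₊ ∧
      ∃ J : Finset ℕ, J ⊆ Icc 1 (LL c x) ∧ (J.card : ℝ) ≤ c₀ * x ∧
        ∀ h ∈ Icc 1 (LL c x), h ∉ J → ¬ Nat.Coprime (a + h) (primorial ⌊x / Real.log x ^ C⌋₊) := by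
  obtain ⟨c, hc, x0, h⟩ := t2a_filter C hC c₀ hc₀
  refine ⟨c, hc, x0, fun x hx => ?_⟩
  obtain ⟨ν, hν⟩ := h x hx
  set W := primorial ⌊x / Real.log x ^ C⌋₊ with hW
  have hW0 : 0 < W := primorial_pos _
  have hcop : ∀ k : ℕ, Nat.Coprime (ν % W + k) W ↔ Nat.Coprime (ν + k) W := by
    intro k
    have h1 : ν % W + k ≡ ν + k [MOD W] := Nat.mod_add_mod ν W k
    rw [Nat.Coprime, Nat.Coprime, h1.gcd_eq]
  refine ⟨ν % W, Nat.mod_lt _ hW0, (Icc 1 (LL c x)).filter (fun h => Nat.Coprime (ν + h) W),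
    filter_subset _ _, hν, fun k hk hkJ => ?_⟩
  rw [hcop]
  intro hc'
  exact hkJ (mem_filter.2 ⟨hk, hc'⟩)

/-- the size of the modulus -/
theorem t2a_log (C x : ℝ) (hx : 0 ≤ x / Real.log x ^ C) :
    Real.log (primorial ⌊x / Real.log x ^ C⌋₊) ≤ 2 * (x / Real.log x ^ C) := by
  have h1 : (primorial ⌊x / Real.log x ^ C⌋₊ : ℝ) ≤ 4 ^ ⌊x / Real.log x ^ C⌋₊ := by
    exact_mod_cast primorial_le_four_pow _
  have h0 : (0 : ℝ) < primorial ⌊x / Real.log x ^ C⌋₊ := by exact_mod_cast primorial_pos _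
  have h2 := Real.log_le_log h0 h1
  rw [Real.log_pow] at h2
  have h3 : Real.log 4 ≤ 2 := by
    have h4 : Real.log 4 = 2 * Real.log 2 := by
      rw [show (4 : ℝ) = 2 ^ 2 by norm_num, Real.log_pow]
      norm_num
    have := Real.log_two_lt_d9
    linarith
  have h5 : (⌊x / Real.log x ^ C⌋₊ : ℝ) ≤ x / Real.log x ^ C := Nat.floor_le hx
  have h6 : (0 : ℝ) ≤ ⌊x / Real.log x ^ C⌋₊ := Nat.cast_nonneg _
  calc Real.log (primorial ⌊x / Real.log x ^ C⌋₊) ≤ ⌊x / Real.log x ^ C⌋₊ * Real.log 4 := h2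
    _ ≤ ⌊x / Real.log x ^ C⌋₊ * 2 := mul_le_mul_of_nonneg_left h3 h6
    _ ≤ 2 * (x / Real.log x ^ C) := by linarith

/-- the primes up to `x / (log x)^C` divide the modulus, and only these -/
theorem t2a_dvd {C x : ℝ} {p : ℕ} (hp : p.Prime) (hx : 0 ≤ x / Real.log x ^ C) :
    p ∣ primorial ⌊x / Real.log x ^ C⌋₊ ↔ (p : ℝ) ≤ x / Real.log x ^ C := by
  rw [Pool.MP711652.LG.prime_dvd_primorial hp, Nat.le_floor_iff hx]

end Pool.Agent.H.MP_711652_nt.G2
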