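import Pool.Agent.H.MP_711652_nt.G2.Tame1

/-!
# GAP2, Tame2: the average over a period
-/

set_option autoImplicit false

namespace Pool.Agent.H.MP_711652_nt.G2

open Finset Pool.Agent.H.MP_711652_nt.LG

theorem E_add (Q : ℕ) (F G : ℕ → ℝ) : E Q (fun m => F m + G m) = E Q F + E Q G := by
  rw [E, E, E, Finset.sum_add_distrib, add_div]

theorem E_smul (Q : ℕ) (s : ℝ) (F : ℕ → ℝ) : E Q (fun m => s * F m) = s * E Q F := by
  rw [E, E, ← Finset.mul_sum, mul_div_assoc]

theorem E_sum {α : Type*} (Q : ℕ) (s : Finset α) (F : α → ℕ → ℝ) :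
    E Q (fun m => ∑ i ∈ s, F i m) = ∑ i ∈ s, E Q (F i) := by
  simp only [E]
  rw [Finset.sum_comm, Finset.sum_div]

theorem E_const {Q : ℕ} (hQ : 0 < Q) (s : ℝ) : E Q (fun _ => s) = s := by
  have hQR : (0 : ℝ) < Q := by exact_mod_cast hQ
  rw [E, Finset.sum_const, Finset.card_range, nsmul_eq_mul]
  field_simp

theorem E_mono (Q : ℕ) {F G : ℕ → ℝ} (h : ∀ m, F m ≤ G m) : E Q F ≤ E Q G := by
  rw [E, E]
  exact div_le_div_of_nonneg_right (Finset.sum_le_sum fun m _ => h m) (Nat.cast_nonneg Q)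

theorem E_nonneg (Q : ℕ) {F : ℕ → ℝ} (h : ∀ m, 0 ≤ F m) : 0 ≤ E Q F := by
  rw [E]
  exact div_nonneg (Finset.sum_nonneg fun m _ => h m) (Nat.cast_nonneg Q)

/-- Cauchy-Schwarz -/
theorem abs_E_mul_le (Q : ℕ) (F G : ℕ → ℝ) :
    |E Q (fun m => F m * G m)| ≤ Real.sqrt (E Q (fun m => F m ^ 2)) * Real.sqrt (E Q (fun m => G m ^ 2)) := by
  rw [← Real.sqrt_mul (E_nonneg Q fun m => sq_nonneg (F m))]
  apply Real.abs_le_sqrt
  simp only [E]
  rw [div_pow, div_mul_div_comm, ← sq (Q : ℝ)]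
  exact div_le_div_of_nonneg_right (Finset.sum_mul_sq_le_sq_mul_sq (range Q) F G) (sq_nonneg _)

/-- PROOF. `∑_{m < Q t} = t ∑_{m < Q}` for a function with period `Q`. -/
theorem E_of_dvd {Q Q' : ℕ} (hQ' : 0 < Q') (hQ : Q ∣ Q') {F : ℕ → ℝ} (hF : Function.Periodic F Q) :
    E Q' F = E Q F := by
  obtain ⟨t, rfl⟩ := hQ
  have ht : 0 < t := Nat.pos_of_ne_zero (by rintro rfl; simp at hQ')
  have htR : (0 : ℝ) < t := by exact_mod_cast ht
  have h := mean1_mul F hF t 0
  rw [add_zero, Finset.range_zero, Finset.sum_empty, add_zero] at h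
  rw [E, E, mul_comm Q t, h]
  push_cast
  rw [mul_div_mul_left _ _ htR.ne']

/-- PROOF. `LG.mean1_crt`. -/
theorem E_mul {a b : ℕ} (ha : 0 < a) (hb : 0 < b) (hab : a.Coprime b) {F G : ℕ → ℝ}
    (hF : Function.Periodic F a) (hG : Function.Periodic G b) :
    E (a * b) (fun m => F m * G m) = E a F * E b G := by
  rw [E, E, E, mean1_crt F G ha hb hab hF hG]
  push_cast
  rw [mul_div_mul_comm]

theorem Tame2_per {α : Type*} (s : Finset α) (a : α → ℕ) (F : α → ℕ → ℝ)
    (hF : ∀ i ∈ s, Function.Periodic (F i) (a i)) :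
    Function.Periodic (fun m => ∏ i ∈ s, F i m) (∏ i ∈ s, a i) := by
  intro m
  apply Finset.prod_congr rfl
  intro i hi
  obtain ⟨k, hk⟩ := Finset.dvd_prod_of_mem a hi
  have h := (hF i hi).nat_mul k m
  rw [hk, mul_comm (a i) k]
  exact_mod_cast h

/-- several factors.  PROOF. Induction, `E_mul`. -/
theorem E_prod {α : Type*} (s : Finset α) (a : α → ℕ) (ha : ∀ i ∈ s, 0 < a i)
    (hc : ∀ i ∈ s, ∀ j ∈ s, i ≠ j → (a i).Coprime (a j)) (F : α → ℕ → ℝ)
    (hF : ∀ i ∈ s, Function.Periodic (F i) (a i)) :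
    E (∏ i ∈ s, a i) (fun m => ∏ i ∈ s, F i m) = ∏ i ∈ s, E (a i) (F i) := by
  classical
  induction s using Finset.induction_on with
  | empty =>
    simp only [Finset.prod_empty]
    exact E_const one_pos 1
  | insert i s hi ih =>
    have hm : ∀ j ∈ s, j ∈ insert i s := fun j hj => Finset.mem_insert_of_mem hj
    have hi' : i ∈ insert i s := Finset.mem_insert_self i s
    have hcop : (a i).Coprime (∏ j ∈ s, a j) :=
      Nat.Coprime.prod_right fun j hj => hc i hi' j (hm j hj) (by rintro rfl; exact hi hj)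
    have hpos : 0 < ∏ j ∈ s, a j := Finset.prod_pos fun j hj => ha j (hm j hj)
    rw [Finset.prod_insert hi, Finset.prod_insert hi]
    have h1 : (fun m => ∏ j ∈ insert i s, F j m) = fun m => F i m * ∏ j ∈ s, F j m :=
      funext fun m => Finset.prod_insert hi
    rw [h1, E_mul (ha i hi') hpos hcop (hF i hi') (Tame2_per s a F fun j hj => hF j (hm j hj)),
      ih (fun j hj => ha j (hm j hj)) (fun j hj k hk => hc j (hm j hj) k (hm k hk))
        (fun j hj => hF j (hm j hj))]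

end Pool.Agent.H.MP_711652_nt.G2
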