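import Pool.Agent.H.MP_711652_nt.G2.Tame2

/-!
# GAP2, Tame3: hits and the functions `Phi`
-/

set_option autoImplicit false

namespace Pool.Agent.H.MP_711652_nt.G2

open Finset Pool.Agent.H.MP_711652_nt.LG

variable {ι : Type*} [Fintype ι] [DecidableEq ι] {P : Finset ℕ} {A : ℕ → ι → ℕ → Prop}

open Classical in
/-- PROOF. By `Forms.per` and `Forms.one` the set `{m | A p i m}` is the residue class of `r` mod `p`. -/
theorem tame_hit (h : Forms P A) {p : ℕ} (hp : p ∈ P) {Q : ℕ} (hQ : p ∣ Q) (i : ι) :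
    Tame Q (fun m => if A p i m then (1 : ℝ) else 0) 1 := by
  obtain ⟨r, hr, hr2⟩ := h.one p hp i
  have h1 : ∀ m k : ℕ, A p i (m + k * p) ↔ A p i m := by
    intro m k
    induction k with
    | zero => simp
    | succ k ih =>
      have e : m + (k + 1) * p = (m + k * p) + p := by ring
      rw [e, h.per p hp i, ih]
  have h2 : ∀ m : ℕ, A p i m ↔ m % p = r := by
    intro m
    have e : m % p + m / p * p = m := Nat.mod_add_div' m p
    have h3 := h1 (m % p) (m / p)
    rw [e] at h3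
    rw [h3]
    exact hr2 _ (Nat.mod_lt _ (h.prime p hp).pos)
  refine (Tame.ind p r hQ).congr ?_
  intro m
  by_cases h3 : m % p = r
  · rw [if_pos h3, if_pos ((h2 m).2 h3)]
  · rw [if_neg h3, if_neg (fun h4 => h3 ((h2 m).1 h4))]

theorem Tame3_Ef (h : Forms P A) {p : ℕ} (hp : p ∈ P) {Q : ℕ} (hQ : p ∣ Q) (t : Option ι) :
    Tame Q (Ef A p t) (((if t = none then 1 else p : ℕ) : ℝ) ^ 2) := by
  classical
  rcases t with _ | i
  · have h1 : Tame Q (fun _ => (1 : ℝ)) |(1 : ℝ)| := Tame.const Q 1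
    have h2 : Tame Q (Ef A p (none : Option ι)) |(1 : ℝ)| := h1.congr (fun m => rfl)
    refine h2.mono ?_
    simp
  · have h1 := (Tame.const Q 1).add ((tame_hit h hp hQ i).smul (-(p : ℝ)))
    have h2 := h1.congr (G := Ef A p (some i)) (by
      intro m
      rw [mean2_ef]
      ring)
    refine h2.mono ?_
    have hp2 : (2 : ℝ) ≤ p := by exact_mod_cast (h.prime p hp).two_le
    simp only [abs_one, abs_neg, mul_one, Nat.abs_cast, reduceCtorEq, if_false]
    nlinarith

/-- PROOF. `Ef = 1 - p [hit]` is tame with `1 + p ≤ p ^ 2`, or `1`; `Tame.prod`, `DD` is the product of the primes which are somewhere. -/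
theorem tame_Phi (h : Forms P A) {Q : ℕ} (hQ : (∏ p ∈ P, p) ∣ Q) (σ : P → Option ι) :
    Tame Q (Phi P A σ) ((DD P σ : ℝ) ^ 2) := by
  have h1 := Tame.prod (univ : Finset P) (Q := Q) (F := fun p : P => Ef A p (σ p))
    (a := fun p : P => (((if σ p = none then 1 else (p : ℕ) : ℕ) : ℝ) ^ 2))
    (fun p _ => Tame3_Ef h p.2 ((Finset.dvd_prod_of_mem (fun q : ℕ => q) p.2).trans hQ) (σ p))
  have h2 : ∏ p : P, (((if σ p = none then 1 else (p : ℕ) : ℕ) : ℝ) ^ 2) = (DD P σ : ℝ) ^ 2 := by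
    rw [Finset.prod_pow]
    unfold DD
    rw [Nat.cast_prod]
  rw [h2] at h1
  exact h1.congr (fun m => rfl)

theorem Tame3_pos (h : Forms P A) : 0 < ∏ p ∈ P, p :=
  Finset.prod_pos fun q hq => (h.prime q hq).pos

/-- PROOF. `phi_pair` for `N = t Q`: both sides are linear in `t`, the error is bounded, so the difference is `0`. -/
theorem E_Phi (h : Forms P A) (σ τ : P → Option ι) :
    E (∏ p ∈ P, p) (fun m => Phi P A σ m * Phi P A τ m) = KK P σ τ := by
  classical
  let s : ℕ → Option ι := fun p => if hp : p ∈ P then σ ⟨p, hp⟩ else none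
  let t : ℕ → Option ι := fun p => if hp : p ∈ P then τ ⟨p, hp⟩ else none
  have hs : ∀ p : P, s p = σ p := fun p => dif_pos p.2
  have ht : ∀ p : P, t p = τ p := fun p => dif_pos p.2
  have e1 : ∀ m, ∏ p ∈ P, (Ef A p (s p) m * Ef A p (t p) m) = Phi P A σ m * Phi P A τ m := by
    intro m
    unfold Phi
    rw [← Finset.prod_mul_distrib, ← Finset.prod_coe_sort P]
    apply Finset.prod_congr rfl
    intro p _
    rw [hs p, ht p]
  have hfull := mean1_full P h.prime (fun p m => Ef A p (s p) m * Ef A p (t p) m)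
    (fun p hp m => by simp only [mean2_per h hp])
  simp only [e1] at hfull
  have e2 : ∏ p ∈ P, ((∑ m ∈ range p, Ef A p (s p) m * Ef A p (t p) m) / (p : ℝ)) = KK P σ τ := by
    rw [Finset.prod_congr rfl (fun p hp => mean2_kap h hp (s p) (t p))]
    unfold KK
    rw [← Finset.prod_coe_sort P]
    apply Finset.prod_congr rfl
    intro p _
    rw [hs p, ht p]
  unfold E
  rw [hfull, ← e2, Finset.prod_div_distrib, Nat.cast_prod]

/-- PROOF. `E_mul` (the two moduli are coprime), `Tame.periodic`, `E_Phi`. -/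
theorem E_Phi_mul (h : Forms P A) {Q0 : ℕ} (hQ0 : 0 < Q0) (hc : ∀ p ∈ P, ¬ p ∣ Q0) (σ τ : P → Option ι)
    {F : ℕ → ℝ} (hF : Function.Periodic F Q0) :
    E (Q0 * ∏ p ∈ P, p) (fun m => F m * (Phi P A σ m * Phi P A τ m)) = E Q0 F * KK P σ τ := by
  have hcop : Q0.Coprime (∏ p ∈ P, p) := by
    refine Nat.Coprime.prod_right fun q hq => ?_
    exact (((h.prime q hq).coprime_iff_not_dvd).2 (hc q hq)).symm
  have hper : Function.Periodic (fun m => Phi P A σ m * Phi P A τ m) (∏ p ∈ P, p) := by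
    intro m
    have h1 := (tame_Phi h (dvd_refl _) σ).periodic m
    have h2 := (tame_Phi h (dvd_refl _) τ).periodic m
    show Phi P A σ (m + _) * Phi P A τ (m + _) = _
    rw [h1, h2]
  rw [E_mul hQ0 (Tame3_pos h) hcop hF hper, E_Phi h σ τ]

end Pool.Agent.H.MP_711652_nt.G2
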